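import Mathlib

open scoped ContDiff Topology
open MeasureTheory Filter

namespace Pool.Agent.Lib.MP_cdc9ab_al

theorem infty_add_one_le : (∞ : WithTop ℕ∞) + 1 ≤ ∞ := le_of_eq rfl
theorem infty_ne_zero : (∞ : WithTop ℕ∞) ≠ 0 := by simp

theorem local_bound {X Y E : Type} [TopologicalSpace X] [TopologicalSpace Y]
    [NormedAddCommGroup E] {K : Set Y} (hK : IsCompact K) {U : Set (X × Y)} (hU : IsOpen U)
    {Ψ : X × Y → E} (hΨ : ∀ p ∈ U, ContinuousAt Ψ p) {x₀ : X} (h : ∀ y ∈ K, (x₀, y) ∈ U) :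
    ∃ C : ℝ, ∀ᶠ x in 𝓝 x₀, ∀ y ∈ K, (x, y) ∈ U ∧ ‖Ψ (x, y)‖ ≤ C := by
  obtain ⟨C, hC⟩ := hK.exists_bound_of_continuousOn (f := fun y => Ψ (x₀, y)) fun y hy =>
    ((hΨ _ (h y hy)).comp (Continuous.prodMk_right x₀).continuousAt).continuousWithinAt
  refine ⟨C + 1, hK.eventually_forall_of_forall_eventually
    (P := fun x y => (x, y) ∈ U ∧ ‖Ψ (x, y)‖ ≤ C + 1) fun y hy => ?_⟩
  have h1 := (hΨ _ (h y hy)).norm.eventually (gt_mem_nhds (lt_add_one _ |>.trans_le' (hC y hy)))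
  filter_upwards [hU.mem_nhds (h y hy), h1] with p h2 h3
  exact ⟨h2, h3.le⟩

variable {X Y T : Type} [NormedAddCommGroup X] [NormedSpace ℝ X] [NormedAddCommGroup Y]
  [NormedSpace ℝ Y] [TopologicalSpace T] [MeasurableSpace T] [OpensMeasurableSpace T]
  {μ : Measure T} {K : Set T} {ρ : T → Y} {c : T → ℝ} {U : Set (X × Y)}

theorem param_integrable {E : Type} [NormedAddCommGroup E] [NormedSpace ℝ E] (hK : IsCompact K)
    (hKm : MeasurableSet K) (hc : IntegrableOn c K μ) {g : T → E} (hg : ContinuousOn g K) :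
    Integrable (fun t => c t • g t) (μ.restrict K) := by
  obtain ⟨C, hC⟩ := hK.exists_bound_of_continuousOn hg
  refine Integrable.smul_of_top_left hc ?_
  refine memLp_top_of_bound (hg.aestronglyMeasurable_of_isCompact hK hKm) C ?_
  filter_upwards [ae_restrict_mem hKm] with t ht using hC t ht

theorem param_hasFDerivAt {E : Type} [NormedAddCommGroup E] [NormedSpace ℝ E] (hK : IsCompact K)
    (hKm : MeasurableSet K) (hρ : ContinuousOn ρ K) (hc : IntegrableOn c K μ) (hU : IsOpen U)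
    {Ψ : X × Y → E} (hΨ : ∀ p ∈ U, ContDiffAt ℝ ∞ Ψ p) {x₀ : X} (h : ∀ t ∈ K, (x₀, ρ t) ∈ U) :
    HasFDerivAt (fun x => ∫ t in K, c t • Ψ (x, ρ t) ∂μ)
      (∫ t in K, c t • (fderiv ℝ Ψ (x₀, ρ t)).comp (ContinuousLinearMap.inl ℝ X Y) ∂μ) x₀ := by
  let Ψ' : X × Y → X →L[ℝ] E := fun p => (fderiv ℝ Ψ p).comp (ContinuousLinearMap.inl ℝ X Y)
  have hΨ' : ∀ p ∈ U, ContinuousAt Ψ' p := fun p hp =>
    (((hΨ p hp).fderiv_right infty_add_one_le).clm_comp contDiffAt_const).continuousAt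
  have hK' := hK.image_of_continuousOn hρ
  obtain ⟨C, hC⟩ := local_bound hK' hU hΨ' (x₀ := x₀) (by rintro _ ⟨t, ht, rfl⟩; exact h t ht)
  have hcont : ∀ {F : Type} [TopologicalSpace F] (Φ : X × Y → F), (∀ p ∈ U, ContinuousAt Φ p) →
      ∀ x, (∀ t ∈ K, (x, ρ t) ∈ U) → ContinuousOn (fun t => Φ (x, ρ t)) K := by
    intro F _ Φ hΦ x hx t ht
    exact ContinuousAt.comp_continuousWithinAt (f := fun t => (x, ρ t)) (hΦ _ (hx t ht))
      (continuousWithinAt_const.prodMk (hρ t ht))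
  refine hasFDerivAt_integral_of_dominated_of_fderiv_le (F' := fun x t => c t • Ψ' (x, ρ t))
    (bound := fun t => ‖c t‖ * C) hC ?_ ?_ ?_ ?_ ?_ ?_
  · filter_upwards [hC] with x hx
    exact (param_integrable hK hKm hc (hcont Ψ (fun p hp => (hΨ p hp).continuousAt) x
      fun t ht => (hx _ ⟨t, ht, rfl⟩).1)).aestronglyMeasurable
  · exact param_integrable hK hKm hc (hcont Ψ (fun p hp => (hΨ p hp).continuousAt) x₀ h)
  · exact (param_integrable hK hKm hc (hcont Ψ' hΨ' x₀ h)).aestronglyMeasurable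
  · filter_upwards [ae_restrict_mem hKm] with t ht x hx
    rw [norm_smul]
    exact mul_le_mul_of_nonneg_left (hx _ ⟨t, ht, rfl⟩).2 (norm_nonneg _)
  · exact hc.norm.mul_const C
  · filter_upwards [ae_restrict_mem hKm] with t ht x hx
    have h1 := ((hΨ _ (hx _ ⟨t, ht, rfl⟩).1).differentiableAt infty_ne_zero).hasFDerivAt
    exact (h1.comp x (hasFDerivAt_prodMk_left x (ρ t))).const_smul (c t)

theorem param_smooth {E : Type} [NormedAddCommGroup E] [NormedSpace ℝ E] (hK : IsCompact K)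
    (hKm : MeasurableSet K) (hρ : ContinuousOn ρ K) (hc : IntegrableOn c K μ) (hU : IsOpen U)
    {Ψ : X × Y → E} (hΨ : ∀ p ∈ U, ContDiffAt ℝ ∞ Ψ p) {x₀ : X} (h : ∀ t ∈ K, (x₀, ρ t) ∈ U) :
    ContDiffAt ℝ ∞ (fun x => ∫ t in K, c t • Ψ (x, ρ t) ∂μ) x₀ := by
  have hV : ∀ x₀ : X, (∀ t ∈ K, (x₀, ρ t) ∈ U) → ∀ᶠ x in 𝓝 x₀, ∀ t ∈ K, (x, ρ t) ∈ U := by
    intro x₀ h
    obtain ⟨C, hC⟩ := local_bound (hK.image_of_continuousOn hρ) hU (Ψ := fun _ => (0 : ℝ))
      (fun _ _ => continuousAt_const) (x₀ := x₀) (by rintro _ ⟨t, ht, rfl⟩; exact h t ht)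
    filter_upwards [hC] with x hx t ht using (hx _ ⟨t, ht, rfl⟩).1
  rw [contDiffAt_infty]
  intro n
  induction n generalizing E x₀ with
  | zero =>
    rw [Nat.cast_zero, contDiffAt_zero]
    exact ⟨_, hV x₀ h, fun x hx =>
      (param_hasFDerivAt hK hKm hρ hc hU hΨ hx).continuousAt.continuousWithinAt⟩
  | succ n ih =>
    rw [Nat.cast_succ, contDiffAt_succ_iff_hasFDerivAt]
    refine ⟨fun x => ∫ t in K, c t •
      (fderiv ℝ Ψ (x, ρ t)).comp (ContinuousLinearMap.inl ℝ X Y) ∂μ,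
      ⟨_, hV x₀ h, fun x hx => param_hasFDerivAt hK hKm hρ hc hU hΨ hx⟩, ?_⟩
    exact ih (Ψ := fun p => (fderiv ℝ Ψ p).comp (ContinuousLinearMap.inl ℝ X Y))
      (fun p hp => ((hΨ p hp).fderiv_right infty_add_one_le).clm_comp contDiffAt_const) h

theorem param_fderiv {E : Type} [NormedAddCommGroup E] [NormedSpace ℝ E] [CompleteSpace E]
    (hK : IsCompact K)
    (hKm : MeasurableSet K) (hρ : ContinuousOn ρ K) (hc : IntegrableOn c K μ) (hU : IsOpen U)
    {Ψ : X × Y → E} (hΨ : ∀ p ∈ U, ContDiffAt ℝ ∞ Ψ p) {x₀ : X} (h : ∀ t ∈ K, (x₀, ρ t) ∈ U)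
    (v : X) :
    fderiv ℝ (fun x => ∫ t in K, c t • Ψ (x, ρ t) ∂μ) x₀ v =
      ∫ t in K, c t • fderiv ℝ (fun x => Ψ (x, ρ t)) x₀ v ∂μ := by
  rw [(param_hasFDerivAt hK hKm hρ hc hU hΨ h).fderiv, ContinuousLinearMap.integral_apply]
  · refine setIntegral_congr_fun hKm fun t ht => ?_
    have h1 := ((hΨ _ (h t ht)).differentiableAt infty_ne_zero).hasFDerivAt
    have h2 : HasFDerivAt (fun x => Ψ (x, ρ t))
        ((fderiv ℝ Ψ (x₀, ρ t)).comp (ContinuousLinearMap.inl ℝ X Y)) x₀ :=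
      h1.comp x₀ (hasFDerivAt_prodMk_left (𝕜 := ℝ) x₀ (ρ t))
    simp only [smul_apply]
    rw [h2.fderiv]
  · refine param_integrable hK hKm hc fun t ht => ?_
    exact ContinuousAt.comp_continuousWithinAt (f := fun t => (x₀, ρ t))
      (g := fun p => (fderiv ℝ Ψ p).comp (ContinuousLinearMap.inl ℝ X Y))
      ((((hΨ _ (h t ht)).fderiv_right infty_add_one_le).clm_comp contDiffAt_const).continuousAt)
      (continuousWithinAt_const.prodMk (hρ t ht))

/-- The integral of a derivative of a compactly supported function vanishes. -/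
theorem integral_fderiv_eq_zero {E : Type} [NormedAddCommGroup E] [NormedSpace ℝ E]
    [FiniteDimensional ℝ X] [MeasurableSpace X] [BorelSpace X] (μ : Measure X)
    [μ.IsAddHaarMeasure] {f : X → E} (hf : ContDiff ℝ 1 f) (hs : HasCompactSupport f) (v : X) :
    ∫ x, fderiv ℝ f x v ∂μ = 0 := by
  have h1 : Integrable (fun x => fderiv ℝ f x v) μ :=
    ((hf.continuous_fderiv one_ne_zero).clm_apply continuous_const).integrable_of_hasCompactSupport
      (hs.fderiv_apply (𝕜 := ℝ) v)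
  have := integral_smul_fderiv_eq_neg_fderiv_smul_of_integrable (μ := μ)
    (f := fun _ : X => (1 : ℝ)) (g := f) (v := v) (by simp) (by simpa using h1)
    (by simpa using hf.continuous.integrable_of_hasCompactSupport hs)
    (fun _ _ => differentiableAt_const _) (fun x _ => hf.differentiable one_ne_zero x)
  simpa using this

end Pool.Agent.Lib.MP_cdc9ab_al
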