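import Pool.Agent.Lib.MP_cdc9ab_al.KeyDom

-- part Pool.Agent.Lib.MP_cdc9ab_al.Basic
section

open scoped Matrix.Norms.Operator ContDiff Matrix
open Finset

namespace Pool.Agent.Lib.MP_cdc9ab_al

section pos
variable {D : ℕ}

@[simp] theorem act_apply (g h : Mat D) : act g h = gᵀ * h * g :=
  ContinuousLinearMap.mulLeftRight_apply ℝ (Mat D) gᵀ g h

theorem act_one (h : Mat D) : act 1 h = h := by simp

theorem act_mul (g g' h : Mat D) : act (g * g') h = act g' (act g h) := by
  simp [Matrix.transpose_mul, mul_assoc]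

theorem one_mem_pos : (1 : Mat D) ∈ Pos D := by
  intro v hv
  rw [Matrix.one_mulVec]
  have h0 : 0 ≤ v ⬝ᵥ v := Finset.sum_nonneg fun i _ => mul_self_nonneg _
  refine lt_of_le_of_ne h0 fun h => hv ?_
  exact dotProduct_self_eq_zero.mp h.symm

theorem act_mem_pos {g h : Mat D} (hg : IsUnit g) (hh : h ∈ Pos D) : act g h ∈ Pos D := by
  intro v hv
  have h1 : g *ᵥ v ≠ 0 := by
    intro h0
    exact hv ((Matrix.mulVec_injective_iff_isUnit.mpr hg) (by rw [h0, Matrix.mulVec_zero]))
  have := hh _ h1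
  rw [act_apply, ← Matrix.mulVec_mulVec, ← Matrix.mulVec_mulVec, Matrix.dotProduct_mulVec,
    Matrix.vecMul_transpose]
  exact this

theorem transpose_mem_pos {h : Mat D} (hh : h ∈ Pos D) : hᵀ ∈ Pos D := by
  intro v hv
  rw [Matrix.dotProduct_mulVec, Matrix.vecMul_transpose, dotProduct_comm]
  exact hh v hv

theorem convex_pos : Convex ℝ (Pos D) := by
  intro h hh k hk a b ha hb hab v hv
  rw [Matrix.add_mulVec, Matrix.smul_mulVec, Matrix.smul_mulVec, dotProduct_add,
    dotProduct_smul, dotProduct_smul, smul_eq_mul, smul_eq_mul]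
  have h1 := hh v hv
  have h2 := hk v hv
  rcases ha.eq_or_lt with h0 | h0
  · subst h0
    have : b = 1 := by linarith
    subst this
    simpa using h2
  · have := mul_pos h0 h1
    have := mul_nonneg hb h2.le
    linarith

theorem isUnit_of_pos {h : Mat D} (hh : h ∈ Pos D) : IsUnit h := by
  rw [← Matrix.mulVec_injective_iff_isUnit]
  intro v w hvw
  by_contra hne
  have := hh (v - w) (sub_ne_zero.mpr hne)
  rw [Matrix.mulVec_sub, hvw, sub_self, dotProduct_zero] at this
  exact lt_irrefl _ this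

theorem isOpen_pos : IsOpen (Pos D) := by
  have hK : IsCompact (Metric.sphere (0 : Fin D → ℝ) 1) := isCompact_sphere _ _
  have hc : Continuous fun p : Mat D × (Fin D → ℝ) => p.2 ⬝ᵥ p.1 *ᵥ p.2 := by
    exact continuous_snd.dotProduct (continuous_fst.matrix_mulVec continuous_snd)
  rw [isOpen_iff_mem_nhds]
  intro h hh
  have := hK.eventually_forall_of_forall_eventually (x₀ := h)
    (P := fun k v => 0 < v ⬝ᵥ k *ᵥ v) (fun v hv => by
      have hv0 : v ≠ 0 := by
        rintro rfl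
        simp at hv
      exact hc.continuousAt.eventually (lt_mem_nhds (hh v hv0)))
  filter_upwards [this] with k hk v hv
  have hn : ‖v‖ ≠ 0 := norm_ne_zero_iff.mpr hv
  have h1 := hk (‖v‖⁻¹ • v) (by simp [norm_smul, hn])
  rw [Matrix.mulVec_smul, dotProduct_smul, smul_dotProduct, smul_eq_mul, smul_eq_mul] at h1
  have hp : 0 < ‖v‖⁻¹ := inv_pos.mpr (norm_pos_iff.mpr hv)
  exact (mul_pos_iff_of_pos_left hp).mp ((mul_pos_iff_of_pos_left hp).mp h1)

end pos

namespace LData
variable {D : ℕ} (L : LData D)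

/-- The adjoint representation as a linear map. -/
noncomputable def advL : (Fin D → ℝ) →ₗ[ℝ] Mat D where
  toFun := L.adv
  map_add' x y := by simp [adv, add_smul, Finset.sum_add_distrib]
  map_smul' c x := by simp [adv, Finset.smul_sum, mul_smul]

@[simp] theorem advL_apply (x) : L.advL x = L.adv x := rfl

theorem adv_add (x y) : L.adv (x + y) = L.adv x + L.adv y := L.advL.map_add x y
theorem adv_sub (x y) : L.adv (x - y) = L.adv x - L.adv y := L.advL.map_sub x y
theorem adv_neg (x) : L.adv (-x) = -L.adv x := L.advL.map_neg x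
theorem adv_zero : L.adv 0 = 0 := L.advL.map_zero
theorem adv_smul (c : ℝ) (x) : L.adv (c • x) = c • L.adv x := L.advL.map_smul c x

theorem adv_single (a : Fin D) : L.adv (Pi.single a 1) = L.ad a := by
  simp [adv, Pi.single_apply]

theorem s_mul_s (a : Fin D) : L.s a * L.s a = 1 := by
  rcases L.s_sq a with h | h <;> simp [h]

theorem ip_mul_ip (a : Fin D) : L.ip a * L.ip a = L.ip a := by
  rcases L.s_sq a with h | h <;> simp [ip, h]

theorem ip_mul_s (a : Fin D) : L.ip a * L.s a = L.ip a := by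
  rcases L.s_sq a with h | h <;> simp [ip, h]

theorem Y_transpose (a : Fin D) : (L.Y a)ᵀ = L.Y a := by
  rw [Y, Matrix.transpose_smul, L.transp, smul_smul, ip_mul_s]

theorem trace_adv_mul (x) (b : Fin D) : (L.adv x * (L.ad b)ᵀ).trace = x b := by
  simp [adv, Finset.sum_mul, Matrix.trace_sum, L.orth]

theorem trace_adv_adv (x y) : (L.adv x * (L.adv y)ᵀ).trace = x ⬝ᵥ y := by
  conv_lhs => rw [adv.eq_1 L y]
  simp only [Matrix.transpose_sum, Matrix.transpose_smul, Finset.mul_sum, Matrix.trace_sum,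
    Matrix.mul_smul, Matrix.trace_smul, trace_adv_mul, smul_eq_mul, dotProduct]
  exact Finset.sum_congr rfl fun _ _ => mul_comm _ _

theorem adv_injective : Function.Injective L.adv := by
  intro x y h
  funext b
  rw [← L.trace_adv_mul x b, h, L.trace_adv_mul]

theorem adv_transpose (x) : (L.adv x)ᵀ = L.adv (Matrix.diagonal L.s *ᵥ x) := by
  simp only [adv, Matrix.transpose_sum, Matrix.transpose_smul, L.transp, smul_smul,
    Matrix.mulVec_diagonal]
  exact Finset.sum_congr rfl fun _ _ => by rw [mul_comm]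

theorem diag_s_mul : Matrix.diagonal L.s * Matrix.diagonal L.s = 1 := by
  rw [Matrix.diagonal_mul_diagonal]
  simp [s_mul_s]

theorem adv_eq_transpose (x) : L.adv x = (L.adv (Matrix.diagonal L.s *ᵥ x))ᵀ := by
  rw [← adv_transpose, Matrix.transpose_transpose]

/-- The Killing form. -/
theorem trace_adv_adv' (x y) :
    (L.adv x * L.adv y).trace = x ⬝ᵥ Matrix.diagonal L.s *ᵥ y := by
  rw [L.adv_eq_transpose y, trace_adv_adv]

theorem adv_mulVec (x y) : L.adv x *ᵥ y = -(L.adv y *ᵥ x) := by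
  funext c
  simp only [adv, Matrix.mulVec, dotProduct, Matrix.sum_apply, Matrix.smul_apply, smul_eq_mul,
    Finset.sum_mul, Pi.neg_apply, ← Finset.sum_neg_distrib]
  rw [Finset.sum_comm]
  refine Finset.sum_congr rfl fun a _ => Finset.sum_congr rfl fun b _ => ?_
  rw [L.anti a b c]; ring

theorem adv_lie (x y) : L.adv x * L.adv y - L.adv y * L.adv x = L.adv (L.adv x *ᵥ y) := by
  have h1 : L.adv x * L.adv y - L.adv y * L.adv x =
      ∑ a, ∑ b, (x a * y b) • (L.ad a * L.ad b - L.ad b * L.ad a) := by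
    simp only [adv, Finset.sum_mul, Finset.mul_sum, smul_sub, Finset.sum_sub_distrib,
      Matrix.smul_mul, Matrix.mul_smul, smul_smul]
    congr 1
    · rw [Finset.sum_comm]
      exact Finset.sum_congr rfl fun _ _ => Finset.sum_congr rfl fun _ _ => by rw [mul_comm]
  rw [h1]
  simp only [L.jac, Finset.smul_sum, smul_smul]
  conv_rhs => rw [adv]
  simp only [adv, Matrix.mulVec, dotProduct, Matrix.sum_apply, Matrix.smul_apply, smul_eq_mul,
    Finset.sum_mul, Finset.sum_smul]
  conv_rhs => rw [Finset.sum_comm]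
  conv_rhs => enter [2, b]; rw [Finset.sum_comm]
  conv_rhs => rw [Finset.sum_comm]
  refine Finset.sum_congr rfl fun a _ => Finset.sum_congr rfl fun b _ =>
    Finset.sum_congr rfl fun c _ => ?_
  congr 1; ring

/-- Every derivation is inner. -/
theorem der_inner (A : Mat D) (hA : ∀ x, A * L.adv x - L.adv x * A = L.adv (A *ᵥ x)) :
    ∃ y, A = L.adv y := by
  set y : Fin D → ℝ := fun b => (A * (L.ad b)ᵀ).trace
  set B := A - L.adv y with hB
  have hB1 : ∀ z, (B * L.adv z).trace = 0 := by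
    intro z
    have : ∀ b, (B * (L.ad b)ᵀ).trace = 0 := by
      intro b
      rw [hB, Matrix.sub_mul, Matrix.trace_sub, trace_adv_mul]; simp [y]
    rw [L.adv_eq_transpose z, adv]
    simp [Matrix.transpose_sum, Finset.mul_sum, Matrix.trace_sum, this]
  have hB2 : ∀ x, B * L.adv x - L.adv x * B = L.adv (B *ᵥ x) := by
    intro x
    rw [hB, Matrix.sub_mulVec, adv_sub, ← hA, ← adv_lie]
    noncomm_ring
  refine ⟨y, ?_⟩
  rw [← sub_eq_zero, ← hB]
  have h3 : ∀ x, B *ᵥ x = 0 := by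
    intro x
    funext b
    rw [← L.trace_adv_mul (B *ᵥ x) b, ← hB2, ← adv_single, adv_transpose]
    set z := Matrix.diagonal L.s *ᵥ Pi.single b 1
    have := hB1 (L.adv x *ᵥ z)
    rw [← adv_lie, Matrix.mul_sub, Matrix.trace_sub] at this
    rw [Matrix.sub_mul, Matrix.trace_sub, Pi.zero_apply, ← this, mul_assoc, mul_assoc,
      Matrix.trace_mul_comm (L.adv x) (B * _), mul_assoc]
  ext i j
  have := congrFun (h3 (Pi.single j 1)) i
  simpa using this

theorem trace_adv (x) : (L.adv x).trace = 0 := by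
  set y : Fin D → ℝ := fun b => (L.ad b).trace
  have h0 : ∀ z, (L.adv z).trace = z ⬝ᵥ y := by
    intro z
    simp [adv, Matrix.trace_sum, y, dotProduct]
  set w := Matrix.diagonal L.s *ᵥ y
  have h1 : ∀ z, (L.adv w * L.adv z).trace = (L.adv z).trace := by
    intro z
    rw [Matrix.trace_mul_comm, trace_adv_adv', h0, Matrix.mulVec_mulVec, diag_s_mul,
      Matrix.one_mulVec]
  have h2 : ∀ z, L.adv w *ᵥ z = 0 := by
    intro z
    funext b
    rw [← L.trace_adv_mul (L.adv w *ᵥ z) b, ← adv_lie, ← adv_single, adv_transpose]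
    set u := Matrix.diagonal L.s *ᵥ Pi.single b 1
    have := h1 (L.adv z *ᵥ u)
    rw [← adv_lie, Matrix.mul_sub, Matrix.trace_sub, Matrix.trace_sub,
      Matrix.trace_mul_comm (L.adv z) (L.adv u), sub_self] at this
    rw [Matrix.sub_mul, Matrix.trace_sub, Pi.zero_apply, ← this, mul_assoc, mul_assoc,
      Matrix.trace_mul_comm (L.adv z) (L.adv w * _), mul_assoc]
  have h3 : L.adv w = 0 := by
    ext i j
    have := congrFun (h2 (Pi.single j 1)) i
    simpa using this
  rw [← h1, h3, Matrix.zero_mul, Matrix.trace_zero]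

theorem aut_one : L.Aut 1 := ⟨isUnit_one, fun x => by simp⟩

variable {L} in
theorem Aut.mul {g h : Mat D} (hg : L.Aut g) (hh : L.Aut h) : L.Aut (g * h) :=
  ⟨hg.1.mul hh.1, fun x => by
    rw [mul_assoc, hh.2, ← mul_assoc, hg.2, Matrix.mulVec_mulVec, mul_assoc]⟩

variable {L} in
theorem Aut.inv {g : Mat D} (hg : L.Aut g) : L.Aut g⁻¹ := by
  have hd := (Matrix.isUnit_iff_isUnit_det g).mp hg.1
  refine ⟨Matrix.isUnit_nonsing_inv_iff.mpr hg.1, fun x => ?_⟩
  have h := hg.2 (g⁻¹ *ᵥ x)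
  rw [Matrix.mulVec_mulVec, Matrix.mul_nonsing_inv _ hd, Matrix.one_mulVec] at h
  calc g⁻¹ * L.adv x = g⁻¹ * (L.adv x * g) * g⁻¹ := by
        rw [mul_assoc, mul_assoc, Matrix.mul_nonsing_inv _ hd, mul_one]
    _ = _ := by rw [← h, ← mul_assoc, Matrix.nonsing_inv_mul _ hd, one_mul]

variable {L} in
/-- Automorphisms preserve the Killing form. -/
theorem Aut.killing {g : Mat D} (hg : L.Aut g) :
    gᵀ * Matrix.diagonal L.s * g = Matrix.diagonal L.s := by
  have hd := (Matrix.isUnit_iff_isUnit_det g).mp hg.1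
  have h1 : ∀ x, L.adv (g *ᵥ x) = g * L.adv x * g⁻¹ := by
    intro x
    rw [hg.2, mul_assoc, Matrix.mul_nonsing_inv _ hd, mul_one]
  have h2 : ∀ x y, x ⬝ᵥ (gᵀ * Matrix.diagonal L.s * g) *ᵥ y = x ⬝ᵥ Matrix.diagonal L.s *ᵥ y := by
    intro x y
    rw [← trace_adv_adv', ← Matrix.mulVec_mulVec, ← Matrix.mulVec_mulVec,
      Matrix.dotProduct_mulVec, Matrix.vecMul_transpose, ← trace_adv_adv', h1, h1]
    rw [show g * L.adv x * g⁻¹ * (g * L.adv y * g⁻¹) =
      g * (L.adv x * (g⁻¹ * g) * L.adv y * g⁻¹) by noncomm_ring, Matrix.trace_mul_comm,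
      Matrix.nonsing_inv_mul _ hd, mul_one, mul_assoc, Matrix.nonsing_inv_mul _ hd, mul_one]
  ext i j
  have := h2 (Pi.single i 1) (Pi.single j 1)
  rw [single_one_dotProduct, single_one_dotProduct, Matrix.mulVec_single_one,
    Matrix.mulVec_single_one] at this
  exact this

theorem aut_exp (y) : L.Aut (NormedSpace.exp (L.adv y)) := by
  refine ⟨Matrix.isUnit_exp _, fun x => ?_⟩
  set X := L.adv y
  let F : ℝ → Mat D := fun t => NormedSpace.exp (t • (-X)) *
    L.adv (NormedSpace.exp (t • X) *ᵥ x) * NormedSpace.exp (t • X)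
  let M : Mat D →L[ℝ] Mat D := LinearMap.toContinuousLinearMap
    (L.advL ∘ₗ (LinearMap.flip (Matrix.mulVecBilin ℝ ℝ) x))
  have hM : ∀ A, M A = L.adv (A *ᵥ x) := fun A => rfl
  have hF : ∀ t, HasDerivAt F 0 t := by
    intro t
    have h1 := hasDerivAt_exp_smul_const (𝕂 := ℝ) (-X) t
    have h2 := hasDerivAt_exp_smul_const' (𝕂 := ℝ) X t
    have h3 := M.hasFDerivAt.comp_hasDerivAt t h2
    have h4 := (h1.mul h3).mul h2
    have e : (0 : Mat D) = (NormedSpace.exp (t • (-X)) * (-X) *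
        L.adv (NormedSpace.exp (t • X) *ᵥ x) + NormedSpace.exp (t • (-X)) *
        L.adv ((X * NormedSpace.exp (t • X)) *ᵥ x)) * NormedSpace.exp (t • X) +
        NormedSpace.exp (t • (-X)) * L.adv (NormedSpace.exp (t • X) *ᵥ x) *
        (X * NormedSpace.exp (t • X)) := by
      rw [← Matrix.mulVec_mulVec, ← adv_lie]
      noncomm_ring
    rw [e]
    exact h4
  have h5 := is_const_of_deriv_eq_zero (fun t => (hF t).differentiableAt)
    (fun t => (hF t).deriv) 1 0
  simp only [F, one_smul, zero_smul, NormedSpace.exp_zero, one_mul, mul_one,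
    Matrix.one_mulVec] at h5
  rw [← h5, ← mul_assoc, ← mul_assoc, ← Matrix.exp_add_of_commute _ _ (Commute.refl X).neg_right,
    add_neg_cancel, NormedSpace.exp_zero, one_mul]

theorem exp_mem_gam (y) : NormedSpace.exp (L.adv y) ∈ L.Gam :=
  Submonoid.subset_closure ⟨y, rfl⟩

variable {L} in
theorem aut_of_gam {g : Mat D} (hg : g ∈ L.Gam) : L.Aut g := by
  induction hg using Submonoid.closure_induction with
  | mem x hx => obtain ⟨y, rfl⟩ := hx; exact L.aut_exp y
  | one => exact L.aut_one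
  | mul x y _ _ hx hy => exact hx.mul hy

variable {L} in
theorem isUnit_of_gam {g : Mat D} (hg : g ∈ L.Gam) : IsUnit g := (aut_of_gam hg).1

variable {L} in
theorem inv_mem_gam {g : Mat D} (hg : g ∈ L.Gam) : g⁻¹ ∈ L.Gam := by
  induction hg using Submonoid.closure_induction with
  | mem x hx =>
    obtain ⟨y, rfl⟩ := hx
    rw [← Matrix.exp_neg, ← adv_neg]
    exact L.exp_mem_gam _
  | one => simp
  | mul x y _ _ hx hy => rw [Matrix.mul_inv_rev]; exact L.Gam.mul_mem hy hx

variable {L} in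
theorem transpose_mem_gam {g : Mat D} (hg : g ∈ L.Gam) : gᵀ ∈ L.Gam := by
  induction hg using Submonoid.closure_induction with
  | mem x hx =>
    obtain ⟨y, rfl⟩ := hx
    rw [← Matrix.exp_transpose, adv_transpose]
    exact L.exp_mem_gam _
  | one => simp
  | mul x y _ _ hx hy => rw [Matrix.transpose_mul]; exact L.Gam.mul_mem hy hx

variable {L} in
theorem K_mul_transpose {k : Mat D} (hk : k ∈ L.K) : k * kᵀ = 1 :=
  mul_eq_one_comm.mp hk.2

variable {L} in
theorem transpose_mem_K {k : Mat D} (hk : k ∈ L.K) : kᵀ ∈ L.K :=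
  ⟨transpose_mem_gam hk.1, by rw [Matrix.transpose_transpose, K_mul_transpose hk]⟩

variable {L} in
theorem K_comm_s {k : Mat D} (hk : k ∈ L.K) :
    Matrix.diagonal L.s * k = k * Matrix.diagonal L.s := by
  conv_rhs => rw [← (aut_of_gam hk.1).killing]
  rw [← mul_assoc, ← mul_assoc, K_mul_transpose hk, one_mul]

variable {L} in
theorem K_ip {k : Mat D} (hk : k ∈ L.K) (a b : Fin D) : L.ip a * k a b = k a b * L.ip b := by
  have := congrFun (congrFun (K_comm_s hk) a) b
  rw [Matrix.diagonal_mul, Matrix.mul_diagonal] at this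
  simp only [ip]
  linarith

variable {L} in
theorem K_conj {k : Mat D} (hk : k ∈ L.K) (x) : kᵀ * L.adv x * k = L.adv (kᵀ *ᵥ x) := by
  rw [(aut_of_gam (transpose_mem_gam hk.1)).2, mul_assoc, hk.2, mul_one]

variable {L} in
theorem K_conj_Y {k : Mat D} (hk : k ∈ L.K) (a) : kᵀ * L.Y a * k = ∑ b, k a b • L.Y b := by
  rw [Y, Matrix.mul_smul, Matrix.smul_mul, ← adv_single, K_conj hk, adv, Finset.smul_sum]
  refine Finset.sum_congr rfl fun b _ => ?_
  rw [Y, smul_smul, smul_smul, ← K_ip hk]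
  simp [Matrix.col]

/-- One-parameter groups of `k` lie in `K`. -/
theorem exp_mem_K (x) (hx : (L.adv x)ᵀ = -L.adv x) : NormedSpace.exp (L.adv x) ∈ L.K :=
  ⟨L.exp_mem_gam x, by
    rw [← Matrix.exp_transpose, hx, 
      ← Matrix.exp_add_of_commute _ _ (Commute.refl (L.adv x)).neg_left,
      neg_add_cancel, NormedSpace.exp_zero]⟩

/-- The derivative of a map into the automorphism group. -/
theorem tangent {X : Type} [NormedAddCommGroup X] [NormedSpace ℝ X] {γ : X → Mat D} {x : X}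
    (hγ : DifferentiableAt ℝ γ x) (h : ∀ᶠ y in nhds x, L.Aut (γ y)) (v : X) :
    ∃ y, fderiv ℝ γ x v = γ x * L.adv y := by
  have hx := h.self_of_nhds
  have hd := (Matrix.isUnit_iff_isUnit_det _).mp hx.1
  set A := fderiv ℝ γ x v
  have key : ∀ z, A * L.adv z = L.adv (A *ᵥ z) * γ x + L.adv (γ x *ᵥ z) * A := by
    intro z
    let M : Mat D →L[ℝ] Mat D := LinearMap.toContinuousLinearMap
      (L.advL ∘ₗ (LinearMap.flip (Matrix.mulVecBilin ℝ ℝ) z))
    have hM : ∀ A, M A = L.adv (A *ᵥ z) := fun A => rfl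
    have h1 := hγ.hasFDerivAt.mul_const' (L.adv z)
    have h2 := (M.hasFDerivAt.comp x hγ.hasFDerivAt).mul' hγ.hasFDerivAt
    have h3 : (fun y => γ y * L.adv z) =ᶠ[nhds x] (M ∘ γ) * γ := by
      filter_upwards [h] with y hy
      simp [hM, hy.2]
    have h4 := (h1.congr_of_eventuallyEq h3.symm).unique h2
    have h5 := congrArg (fun T => T v) h4
    simp only [add_apply, smul_apply,
      ContinuousLinearMap.comp_apply, hM, Function.comp_apply, smul_eq_mul,
      MulOpposite.smul_eq_mul_unop, MulOpposite.unop_op] at h5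
    rw [add_comm]
    exact h5
  obtain ⟨y, hy⟩ := L.der_inner ((γ x)⁻¹ * A) fun z => by
    have e1 := hx.inv.2
    rw [mul_assoc, key, mul_add, ← mul_assoc, ← mul_assoc, e1, e1, Matrix.mulVec_mulVec,
      Matrix.mulVec_mulVec, Matrix.nonsing_inv_mul _ hd, Matrix.one_mulVec, mul_assoc,
      Matrix.nonsing_inv_mul _ hd, mul_one, mul_assoc, add_sub_cancel_right]
  exact ⟨y, by rw [← hy, ← mul_assoc, Matrix.mul_nonsing_inv _ hd, one_mul]⟩

theorem acts_mem_pos : ∀ A ∈ L.acts, ∀ x ∈ Pos D, A x ∈ Pos D := by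
  rintro A ⟨g, hg, rfl⟩ x hx
  exact act_mem_pos (isUnit_of_gam hg) hx

end LData

end Pool.Agent.Lib.MP_cdc9ab_al
end

-- part Pool.Agent.Lib.MP_cdc9ab_al.PolyFn
section

open scoped Matrix.Norms.Operator ContDiff Matrix ENNReal
open Finset MeasureTheory

namespace Pool.Agent.Lib.MP_cdc9ab_al

section
variable {E : Type} [AddCommGroup E] [Module ℝ E]

theorem PolyFn.mono {d e : ℕ} {f : E → ℝ} (hf : PolyFn d f) (h : d ≤ e) : PolyFn e f := by
  intro x v
  obtain ⟨p, hp, hq⟩ := hf x v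
  exact ⟨p, hp.trans h, hq⟩

theorem PolyFn.const (c : ℝ) : PolyFn 0 (fun _ : E => c) := by
  intro x v
  exact ⟨Polynomial.C c, by simp, by simp⟩

theorem PolyFn.const' (d : ℕ) (c : ℝ) : PolyFn d (fun _ : E => c) :=
  (PolyFn.const c).mono (Nat.zero_le d)

theorem PolyFn.linear (φ : E →ₗ[ℝ] ℝ) : PolyFn 1 φ := by
  intro x v
  refine ⟨Polynomial.C (φ v) * Polynomial.X + Polynomial.C (φ x), Polynomial.natDegree_linear_le,
    fun t => ?_⟩
  simp only [map_add, map_smul, smul_eq_mul, Polynomial.eval_add, Polynomial.eval_mul,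
    Polynomial.eval_C, Polynomial.eval_X]
  ring

theorem PolyFn.add {d : ℕ} {f g : E → ℝ} (hf : PolyFn d f) (hg : PolyFn d g) :
    PolyFn d (fun x => f x + g x) := by
  intro x v
  obtain ⟨p, hp, hp'⟩ := hf x v
  obtain ⟨q, hq, hq'⟩ := hg x v
  exact ⟨p + q, (Polynomial.natDegree_add_le p q).trans (max_le hp hq), fun t => by
    simp only [hp', hq', Polynomial.eval_add]⟩

theorem PolyFn.mul {d e : ℕ} {f g : E → ℝ} (hf : PolyFn d f) (hg : PolyFn e g) :
    PolyFn (d + e) (fun x => f x * g x) := by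
  intro x v
  obtain ⟨p, hp, hp'⟩ := hf x v
  obtain ⟨q, hq, hq'⟩ := hg x v
  exact ⟨p * q, Polynomial.natDegree_mul_le.trans (add_le_add hp hq), fun t => by
    simp only [hp', hq', Polynomial.eval_mul]⟩

theorem PolyFn.smul {d : ℕ} {f : E → ℝ} (c : ℝ) (hf : PolyFn d f) :
    PolyFn d (fun x => c * f x) := by
  have := (PolyFn.const (E := E) c).mul hf
  rwa [zero_add] at this

theorem PolyFn.neg {d : ℕ} {f : E → ℝ} (hf : PolyFn d f) : PolyFn d (fun x => -f x) := by
  have := hf.smul (-1)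
  simpa only [neg_one_mul] using this

theorem PolyFn.sub {d : ℕ} {f g : E → ℝ} (hf : PolyFn d f) (hg : PolyFn d g) :
    PolyFn d (fun x => f x - g x) := by
  have := hf.add hg.neg
  simpa only [sub_eq_add_neg] using this

theorem PolyFn.sum {I : Type} (s : Finset I) {d : ℕ} {f : I → E → ℝ}
    (hf : ∀ i ∈ s, PolyFn d (f i)) : PolyFn d (fun x => ∑ i ∈ s, f i x) := by
  classical
  induction s using Finset.induction_on with
  | empty => simpa only [sum_empty] using PolyFn.const' d 0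
  | insert a s ha ih =>
    simp only [sum_insert ha]
    exact (hf a (mem_insert_self a s)).add (ih fun i hi => hf i (mem_insert_of_mem hi))

theorem PolyFn.prod {I : Type} (s : Finset I) {d : ℕ} {f : I → E → ℝ}
    (hf : ∀ i ∈ s, PolyFn d (f i)) : PolyFn (s.card * d) (fun x => ∏ i ∈ s, f i x) := by
  classical
  induction s using Finset.induction_on with
  | empty => simpa only [prod_empty] using PolyFn.const' _ 1
  | insert a s ha ih =>
    simp only [prod_insert ha, card_insert_of_notMem ha]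
    refine ((hf a (mem_insert_self a s)).mul (ih fun i hi => hf i (mem_insert_of_mem hi))).mono ?_
    rw [add_mul, one_mul, add_comm]

theorem PolyFn.det {I : Type} [Fintype I] [DecidableEq I] {d : ℕ} {M : E → Matrix I I ℝ}
    (hM : ∀ i j, PolyFn d (fun x => M x i j)) :
    PolyFn (Fintype.card I * d) (fun x => (M x).det) := by
  simp only [Matrix.det_apply']
  refine PolyFn.sum _ fun σ _ => PolyFn.smul _ ?_
  exact PolyFn.prod univ fun i _ => hM (σ i) i

theorem PolyFn.adjugate {I : Type} [Fintype I] [DecidableEq I] {d : ℕ} {M : E → Matrix I I ℝ}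
    (hM : ∀ i j, PolyFn d (fun x => M x i j)) (i j : I) :
    PolyFn (Fintype.card I * d) (fun x => (M x).adjugate i j) := by
  simp only [Matrix.adjugate_apply]
  refine PolyFn.det fun a b => ?_
  by_cases h : a = j
  · subst h
    simpa only [Matrix.updateRow_self] using PolyFn.const' d _
  · simpa only [Matrix.updateRow_ne h] using hM a b

/-- Polynomial functions are stable under affine substitutions. -/
theorem PolyFn.comp_affine {F : Type} [AddCommGroup F] [Module ℝ F] {d : ℕ} {f : E → ℝ}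
    (hf : PolyFn d f) (a : E) (T : F →ₗ[ℝ] E) : PolyFn d (fun y => f (a + T y)) := by
  intro x v
  obtain ⟨p, hp, hp'⟩ := hf (a + T x) (T v)
  refine ⟨p, hp, fun t => ?_⟩
  simp only [← hp', map_add, map_smul, add_assoc]

theorem PolyFn.comp_linear {F : Type} [AddCommGroup F] [Module ℝ F] {d : ℕ} {f : E → ℝ}
    (hf : PolyFn d f) (T : F →ₗ[ℝ] E) : PolyFn d (fun y => f (T y)) := by
  simpa only [zero_add] using hf.comp_affine 0 T

end

end Pool.Agent.Lib.MP_cdc9ab_al
end

-- part Pool.Agent.Lib.MP_cdc9ab_al.KeyCov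
section

/-! Change of variables, product integrals and adjugates for the key bound. -/

open scoped ENNReal Matrix
open Finset MeasureTheory

namespace Pool.Agent.Lib.MP_cdc9ab_al.Key

theorem lintegral_pi_prod {F : Type} [MeasurableSpace F] (μ : Measure F) [SigmaFinite μ] {p : ℕ}
    {wt : Fin p → F → ℝ≥0∞} (hw : ∀ j, Measurable (wt j)) :
    ∫⁻ f, ∏ j, wt j (f j) ∂(Measure.pi fun _ : Fin p => μ) = ∏ j, ∫⁻ f, wt j f ∂μ := by
  induction p with
  | zero => simp
  | succ p ih =>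
    have h1 := lintegral_prod_mul (μ := μ) (ν := Measure.pi fun _ : Fin p => μ)
      (hw 0).aemeasurable (Finset.measurable_prod Finset.univ
        fun j _ => (hw j.succ).comp (measurable_pi_apply (X := fun _ : Fin p => F) j)).aemeasurable
    rw [(measurePreserving_piFinSuccAbove (fun _ : Fin (p + 1) => μ) 0).lintegral_map_equiv] at h1
    rw [Fin.prod_univ_succ, ← ih fun j => hw j.succ]
    simpa [Fin.prod_univ_succ, MeasurableEquiv.piFinSuccAbove, Fin.insertNthEquiv, Fin.tail]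
      using h1

section cov
variable {X : Type} [NormedAddCommGroup X] [NormedSpace ℝ X] [FiniteDimensional ℝ X]

theorem cov {F : Type} [MeasurableSpace F] (μ : Measure F) [SFinite μ] [MeasurableSpace X]
    [BorelSpace X] (ν : Measure X) [ν.IsAddHaarMeasure] (B : F → X →ₗ[ℝ] X)
    (hB : Measurable fun p : X × F => B p.2 p.1) (hd : Measurable fun f => LinearMap.det (B f))
    {ψ : F × X → ℝ≥0∞} (hψ : Measurable ψ) :
    ∫⁻ w, ∫⁻ f, ψ (f, B f w) * ‖LinearMap.det (B f)‖ₑ ∂μ ∂ν ≤ ∫⁻ x, ψ x ∂(μ.prod ν) := by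
  have hm : Measurable (Function.uncurry fun (w : X) (f : F) =>
      ψ (f, B f w) * ‖LinearMap.det (B f)‖ₑ) :=
    (hψ.comp (measurable_snd.prodMk hB)).mul (hd.comp measurable_snd).enorm
  rw [lintegral_lintegral_swap hm.aemeasurable, lintegral_prod _ hψ.aemeasurable]
  refine lintegral_mono fun f => ?_
  by_cases h : LinearMap.det (B f) = 0
  · simp [h]
  have h1 : Measurable fun s => ψ (f, s) := hψ.comp measurable_prodMk_left
  have h2 : Measurable (B f) := (LinearMap.continuous_of_finiteDimensional _).measurable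
  rw [lintegral_mul_const' _ _ enorm_ne_top, ← lintegral_map h1 h2,
    Measure.map_linearMap_addHaar_eq_smul_addHaar ν h, lintegral_smul_measure, smul_eq_mul,
    mul_right_comm, Real.enorm_eq_ofReal_abs, ← ENNReal.ofReal_mul (abs_nonneg _), ← abs_mul,
    inv_mul_cancel₀ h]
  simp

/-- The adjugate of an endomorphism. -/
noncomputable def adjL (T : X →ₗ[ℝ] X) : X →ₗ[ℝ] X :=
  Matrix.toLin (Module.finBasis ℝ X) (Module.finBasis ℝ X)
    (LinearMap.toMatrix (Module.finBasis ℝ X) (Module.finBasis ℝ X) T).adjugate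

theorem adjL_apply (T : X →ₗ[ℝ] X) (w : X) : adjL T (T w) = LinearMap.det T • w := by
  set b := Module.finBasis ℝ X
  have h : adjL T ∘ₗ T = LinearMap.det T • LinearMap.id := by
    conv_lhs => rw [adjL, ← Matrix.toLin_toMatrix b b T]
    rw [← Matrix.toLin_mul, Matrix.toLin_toMatrix, Matrix.adjugate_mul, map_smul, Matrix.toLin_one,
      LinearMap.det_toMatrix]
  exact LinearMap.congr_fun h w

variable {F : Type} [NormedAddCommGroup F] [NormedSpace ℝ F] [FiniteDimensional ℝ F]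
  (B : F →ₗ[ℝ] X →ₗ[ℝ] X)

/-- The matrix of `B f`. -/
noncomputable def mat : F →ₗ[ℝ] Matrix (Fin (Module.finrank ℝ X)) (Fin (Module.finrank ℝ X)) ℝ :=
  (LinearMap.toMatrix (Module.finBasis ℝ X) (Module.finBasis ℝ X)).toLinearMap ∘ₗ B

omit [FiniteDimensional ℝ F] in
theorem det_eq (f : F) : LinearMap.det (B f) = (mat B f).det :=
  (LinearMap.det_toMatrix _ _).symm

omit [FiniteDimensional ℝ F] in
theorem adj_eq (φ : X →ₗ[ℝ] ℝ) (f : F) (s : X) : φ (adjL (B f) s) =
    ∑ i, (∑ j, (mat B f).adjugate i j * (Module.finBasis ℝ X).coord j s) *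
      φ (Module.finBasis ℝ X i) := by
  rw [adjL, Matrix.toLin_apply, map_sum]
  refine Finset.sum_congr rfl fun i _ => ?_
  rw [map_smul, smul_eq_mul]
  rfl

theorem continuous_mat : Continuous (mat B) := by
  refine continuous_matrix fun i j => ?_
  exact LinearMap.continuous_of_finiteDimensional (Matrix.entryLinearMap ℝ ℝ i j ∘ₗ mat B)

theorem continuous_det : Continuous fun f => LinearMap.det (B f) := by
  simp only [det_eq]
  exact (continuous_mat B).matrix_det

theorem continuous_adj (φ : X →ₗ[ℝ] ℝ) : Continuous fun x : F × X => φ (adjL (B x.1) x.2) := by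
  simp only [adj_eq]
  refine continuous_finsetSum _ fun i _ => Continuous.mul ?_ continuous_const
  refine continuous_finsetSum _ fun j _ => Continuous.mul ?_ ?_
  · exact (((continuous_mat B).comp continuous_fst).matrix_adjugate).matrix_elem i j
  · exact (LinearMap.continuous_of_finiteDimensional _).comp continuous_snd

theorem continuous_bil : Continuous fun p : X × F => B p.2 p.1 := by
  have : (fun p : X × F => B p.2 p.1) = fun p =>
      ∑ i, (Module.finBasis ℝ X).coord i p.1 • (B.flip (Module.finBasis ℝ X i)) p.2 := by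
    funext p
    conv_lhs => rw [← (Module.finBasis ℝ X).sum_repr p.1, map_sum]
    simp
  rw [this]
  refine continuous_finsetSum _ fun i _ => Continuous.smul ?_ ?_
  · exact (LinearMap.continuous_of_finiteDimensional _).comp continuous_fst
  · exact (LinearMap.continuous_of_finiteDimensional _).comp continuous_snd

omit [FiniteDimensional ℝ F] in
theorem poly_mat (i j) : PolyFn 1 fun x : F × X => mat B x.1 i j :=
  PolyFn.linear (Matrix.entryLinearMap ℝ ℝ i j ∘ₗ mat B ∘ₗ LinearMap.fst ℝ F X)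

omit [FiniteDimensional ℝ F] in
theorem poly_det : PolyFn (Module.finrank ℝ X + 1) fun x : F × X => LinearMap.det (B x.1) := by
  simp only [det_eq]
  exact (PolyFn.det (poly_mat B)).mono (by simp)

omit [FiniteDimensional ℝ F] in
theorem poly_adj (φ : X →ₗ[ℝ] ℝ) :
    PolyFn (Module.finrank ℝ X + 1) fun x : F × X => φ (adjL (B x.1) x.2) := by
  simp only [adj_eq]
  refine PolyFn.sum _ fun i _ => ?_
  refine (PolyFn.mul (d := Module.finrank ℝ X + 1) (PolyFn.sum _ fun j _ => ?_)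
    (PolyFn.const _)).mono (by simp)
  exact ((PolyFn.adjugate (poly_mat B) i j).mul
    (PolyFn.linear ((Module.finBasis ℝ X).coord j ∘ₗ LinearMap.snd ℝ F X))).mono (by simp)

end cov

section quad
variable {E W : Type} [AddCommGroup W] [Module ℝ W] [FiniteDimensional ℝ W]

theorem quad_eq (β : W →ₗ[ℝ] W →ₗ[ℝ] ℝ) (v : W) :
    β v v = ∑ i, (Module.finBasis ℝ W).coord i v * β (Module.finBasis ℝ W i) v := by
  have h := congrArg (β.flip v) ((Module.finBasis ℝ W).sum_repr v)
  rw [map_sum] at h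
  simpa using h.symm

theorem poly_quad [AddCommGroup E] [Module ℝ E] (β : W →ₗ[ℝ] W →ₗ[ℝ] ℝ) {v : E → W} {d : ℕ}
    (hv : ∀ φ : W →ₗ[ℝ] ℝ, PolyFn d fun x => φ (v x)) : PolyFn (d + d) fun x => β (v x) (v x) := by
  simp only [quad_eq β]
  exact PolyFn.sum _ fun i _ => (hv _).mul (hv _)

theorem continuous_quad [TopologicalSpace E] (β : W →ₗ[ℝ] W →ₗ[ℝ] ℝ) {v : E → W}
    (hv : ∀ φ : W →ₗ[ℝ] ℝ, Continuous fun x => φ (v x)) : Continuous fun x => β (v x) (v x) := by
  simp only [quad_eq β]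
  exact continuous_finsetSum _ fun i _ => (hv _).mul (hv _)

end quad

end Pool.Agent.Lib.MP_cdc9ab_al.Key
end

-- part Pool.Agent.Lib.MP_cdc9ab_al.Mahler
section

open scoped Matrix.Norms.Operator ContDiff Matrix ENNReal
open Finset MeasureTheory

namespace Pool.Agent.Lib.MP_cdc9ab_al

namespace Mah

/-- The truncated logarithmic singularity. -/
noncomputable def lg (s : ℝ) : ℝ := (Set.Icc (-1 : ℝ) 1).indicator (fun s => |Real.log s|) s

theorem lg_nonneg (s : ℝ) : 0 ≤ lg s :=
  Set.indicator_nonneg (fun _ _ => abs_nonneg _) s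

theorem measurable_lg : Measurable lg :=
  (Real.measurable_log.abs).indicator measurableSet_Icc

theorem integrable_lg : Integrable lg := by
  unfold lg
  rw [integrable_indicator_iff measurableSet_Icc]
  have h : IntervalIntegrable Real.log volume (-1) 1 := intervalIntegral.intervalIntegrable_log'
  rw [intervalIntegrable_iff_integrableOn_Icc_of_le (by norm_num)] at h
  exact h.abs

theorem one_add_inv_le {s : ℝ} (hs : s ≠ 0) : 1 + |s|⁻¹ ≤ Real.exp (1 + lg s) := by
  have hb : 0 < |s| := abs_pos.mpr hs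
  have he : (2 : ℝ) ≤ Real.exp 1 := by
    have := Real.add_one_le_exp 1
    linarith
  rw [Real.exp_add]
  by_cases h : |s| ≤ 1
  · have h1 : lg s = -Real.log |s| := by
      unfold lg
      rw [Set.indicator_of_mem (show s ∈ Set.Icc (-1 : ℝ) 1 from abs_le.mp h), ← Real.log_abs,
        abs_of_nonpos (Real.log_nonpos hb.le h)]
    rw [h1, Real.exp_neg, Real.exp_log hb]
    have h2 : 1 ≤ |s|⁻¹ := (one_le_inv₀ hb).mpr h
    nlinarith
  · have h2 : |s|⁻¹ ≤ 1 := inv_le_one_of_one_le₀ (le_of_lt (not_le.mp h))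
    have h3 : 1 ≤ Real.exp (lg s) := Real.one_le_exp (lg_nonneg s)
    nlinarith

theorem norm_tri (t v : ℝ) (r : ℂ) : ‖(v : ℂ) - r‖ ≤ ‖(t : ℂ) - r‖ + |t - v| := by
  have h : (v : ℂ) - r = ((t : ℂ) - r) - ((t - v : ℝ) : ℂ) := by push_cast; ring
  rw [h]
  refine (norm_sub_le _ _).trans ?_
  rw [Complex.norm_real, Real.norm_eq_abs]

theorem abs_re_le (t : ℝ) (r : ℂ) : |t - r.re| ≤ ‖(t : ℂ) - r‖ := by
  have := Complex.abs_re_le_norm ((t : ℂ) - r)
  simpa using this

theorem root_low {t v a : ℝ} (r : ℂ) (ha : |t - v| ≤ a) (ht : t ≠ r.re) :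
    ‖(v : ℂ) - r‖ ≤ ‖(t : ℂ) - r‖ * Real.exp (a + 1 + lg (t - r.re)) := by
  have hs : t - r.re ≠ 0 := sub_ne_zero.mpr ht
  have hb : 0 < |t - r.re| := abs_pos.mpr hs
  have h1 := one_add_inv_le hs
  have h2 := abs_re_le t r
  have h3 := norm_tri t v r
  have ha0 : 0 ≤ a := (abs_nonneg _).trans ha
  have h4 : a + 1 ≤ Real.exp a := Real.add_one_le_exp a
  have hi : 0 < |t - r.re|⁻¹ := inv_pos.mpr hb
  have h5 : 1 ≤ ‖(t : ℂ) - r‖ * |t - r.re|⁻¹ := by
    rw [← div_eq_mul_inv, le_div_iff₀ hb, one_mul]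
    exact h2
  have h6 : (a + 1) * (1 + |t - r.re|⁻¹) ≤ Real.exp (a + 1 + lg (t - r.re)) := by
    rw [add_assoc, Real.exp_add]
    exact mul_le_mul h4 h1 (by positivity) (Real.exp_pos _).le
  have hn := norm_nonneg ((t : ℂ) - r)
  calc ‖(v : ℂ) - r‖ ≤ ‖(t : ℂ) - r‖ + a * 1 := by linarith
    _ ≤ ‖(t : ℂ) - r‖ + a * (‖(t : ℂ) - r‖ * |t - r.re|⁻¹) := by gcongr
    _ ≤ ‖(t : ℂ) - r‖ * ((a + 1) * (1 + |t - r.re|⁻¹)) := by
        have e1 : 0 ≤ ‖(t : ℂ) - r‖ * a := mul_nonneg hn ha0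
        have e2 : 0 ≤ ‖(t : ℂ) - r‖ * |t - r.re|⁻¹ := mul_nonneg hn hi.le
        nlinarith
    _ ≤ _ := mul_le_mul_of_nonneg_left h6 hn

theorem root_up {t v a : ℝ} (r : ℂ) (ha : |t - v| ≤ a) (hv : 1 / 2 ≤ |v - r.re|) :
    ‖(t : ℂ) - r‖ ≤ ‖(v : ℂ) - r‖ * Real.exp (2 * a) := by
  have h2 := abs_re_le v r
  have h3 := norm_tri v t r
  rw [abs_sub_comm] at h3
  have ha0 : 0 ≤ a := (abs_nonneg _).trans ha
  have h4 : 2 * a + 1 ≤ Real.exp (2 * a) := Real.add_one_le_exp _
  have hn := norm_nonneg ((v : ℂ) - r)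
  calc ‖(t : ℂ) - r‖ ≤ ‖(v : ℂ) - r‖ * (2 * a + 1) := by nlinarith
    _ ≤ _ := mul_le_mul_of_nonneg_left h4 hn

theorem prod_le_exp {I : Type} (u v w : I → ℝ) (hu : ∀ i, 0 ≤ u i) (hv : ∀ i, 0 ≤ v i)
    (R : Multiset I) (h : ∀ i ∈ R, u i ≤ v i * Real.exp (w i)) :
    (R.map u).prod ≤ (R.map v).prod * Real.exp (R.map w).sum := by
  induction R using Multiset.induction_on with
  | empty => simp
  | cons a s ih =>
    simp only [Multiset.map_cons, Multiset.prod_cons, Multiset.sum_cons, Real.exp_add]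
    have h1 := h a (Multiset.mem_cons_self a s)
    have h2 := ih fun i hi => h i (Multiset.mem_cons_of_mem hi)
    have h3 : 0 ≤ (s.map u).prod := Multiset.prod_map_nonneg fun i _ => hu i
    calc u a * (s.map u).prod ≤ (v a * Real.exp (w a)) * ((s.map v).prod * Real.exp (s.map w).sum) :=
          mul_le_mul h1 h2 h3 (mul_nonneg (hv a) (Real.exp_pos _).le)
      _ = _ := by ring

theorem exists_node (d : ℕ) (R : Multiset ℂ) (hR : R.card ≤ d) :
    ∃ v ∈ range (d + 1), ∀ r ∈ R, 1 / 2 ≤ |(v : ℝ) - r.re| := by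
  classical
  have h : ((R.map fun r => (round r.re).toNat).toFinset).card < (range (d + 1)).card := by
    rw [card_range]
    have := Multiset.toFinset_card_le (R.map fun r => (round r.re).toNat)
    rw [Multiset.card_map] at this
    omega
  obtain ⟨v, hv, hv'⟩ := exists_mem_notMem_of_card_lt_card h
  refine ⟨v, hv, fun r hr => ?_⟩
  by_contra hc
  apply hv'
  rw [Multiset.mem_toFinset, Multiset.mem_map]
  refine ⟨r, hr, ?_⟩
  have h1 := abs_lt.mp (not_le.mp hc)
  have h2 : round r.re = (v : ℤ) := by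
    rw [round_eq, Int.floor_eq_iff]
    push_cast
    constructor <;> linarith [h1.1, h1.2]
  rw [h2, Int.toNat_natCast]

theorem factor (p : Polynomial ℝ) :
    ∃ R : Multiset ℂ, R.card ≤ p.natDegree ∧
      ∀ x : ℝ, |p.eval x| = |p.leadingCoeff| * (R.map fun r => ‖(x : ℂ) - r‖).prod := by
  refine ⟨p.aroots ℂ, IsAlgClosed.card_aroots_eq_natDegree.le, fun x => ?_⟩
  have h := Polynomial.Splits.aeval_eq_prod_aroots (f := p) (S := ℂ) (IsAlgClosed.splits _) (x : ℂ)
  have h2 : Polynomial.aeval (x : ℂ) p = ((p.eval x : ℝ) : ℂ) := by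
    have := Polynomial.aeval_algebraMap_apply_eq_algebraMap_eval (A := ℂ) x p
    simpa using this
  rw [h2] at h
  have h3 := congrArg (fun z : ℂ => ‖z‖) h
  simp only [Complex.norm_real, Real.norm_eq_abs, norm_mul, Complex.coe_algebraMap] at h3
  rw [h3]
  congr 1
  have := map_multiset_prod (normHom (α := ℂ)) ((p.aroots ℂ).map fun r => (x : ℂ) - r)
  simpa [Multiset.map_map] using this

theorem pointwise (d : ℕ) (p : Polynomial ℝ) (hp : p.natDegree ≤ d) (h0 : ∀ t, 0 ≤ p.eval t) :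
    ∃ R : Multiset ℂ, R.card ≤ d ∧ ∀ t : ℝ, (∀ r ∈ R, t ≠ r.re) →
      |Real.log (p.eval t) - Real.log (∑ v ∈ range (d + 1), p.eval (v : ℝ))| ≤
        d * (2 * (d + |t|) + 2) + (R.map fun r => lg (t - r.re)).sum := by
  by_cases hp0 : p = 0
  · refine ⟨0, by simp, fun t _ => ?_⟩
    subst hp0
    simp only [Polynomial.eval_zero, sum_const_zero, sub_self, abs_zero, Multiset.map_zero,
      Multiset.sum_zero, add_zero]
    positivity
  obtain ⟨R, hR, hf⟩ := factor p
  have hRd : R.card ≤ d := hR.trans hp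
  refine ⟨R, hRd, fun t ht => ?_⟩
  have hc : 0 < |p.leadingCoeff| := abs_pos.mpr (Polynomial.leadingCoeff_ne_zero.mpr hp0)
  have hf' : ∀ x : ℝ, p.eval x = |p.leadingCoeff| * (R.map fun r => ‖(x : ℂ) - r‖).prod :=
    fun x => by rw [← hf, abs_of_nonneg (h0 x)]
  set a : ℝ := d + |t| with ha
  have ha0 : 0 ≤ a := by positivity
  have hd : (R.card : ℝ) ≤ d := by exact_mod_cast hRd
  have hav : ∀ v ∈ range (d + 1), |t - (v : ℝ)| ≤ a := by
    intro v hv
    have h1 : (v : ℝ) ≤ d := by exact_mod_cast Nat.lt_succ_iff.mp (mem_range.mp hv)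
    have h2 := abs_sub t (v : ℝ)
    rw [Nat.abs_cast] at h2
    linarith
  set S : ℝ := ∑ v ∈ range (d + 1), p.eval (v : ℝ) with hS
  set L : ℝ := (R.map fun r => lg (t - r.re)).sum with hL
  have hL0 : 0 ≤ L := Multiset.sum_nonneg fun y hy => by
    obtain ⟨r, _, rfl⟩ := Multiset.mem_map.mp hy
    exact lg_nonneg _
  have hpt : 0 < p.eval t := by
    rw [hf']
    refine mul_pos hc (Multiset.prod_pos fun y hy => ?_)
    obtain ⟨r, hr, rfl⟩ := Multiset.mem_map.mp hy
    exact lt_of_lt_of_le (abs_pos.mpr (sub_ne_zero.mpr (ht r hr))) (abs_re_le t r)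
  have hup : p.eval t ≤ S * Real.exp (d * (2 * a)) := by
    obtain ⟨v, hv, hv'⟩ := exists_node d R hRd
    have h1 := prod_le_exp (fun r : ℂ => ‖(t : ℂ) - r‖) (fun r : ℂ => ‖(((v : ℕ) : ℝ) : ℂ) - r‖)
      (fun _ => 2 * a) (fun _ => norm_nonneg _) (fun _ => norm_nonneg _) R
      fun r hr => root_up r (hav v hv) (hv' r hr)
    have h2 : p.eval (v : ℝ) ≤ S := single_le_sum (f := fun v : ℕ => p.eval (v : ℝ))
      (fun i _ => h0 _) hv
    have h3 : Real.exp (R.map fun _ => 2 * a).sum ≤ Real.exp (d * (2 * a)) := by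
      rw [Multiset.map_const', Multiset.sum_replicate, nsmul_eq_mul]
      gcongr
    calc p.eval t ≤ p.eval (v : ℝ) * Real.exp (R.map fun _ => 2 * a).sum := by
          rw [hf' t, hf' v, mul_assoc]
          exact mul_le_mul_of_nonneg_left h1 hc.le
      _ ≤ _ := mul_le_mul h2 h3 (Real.exp_pos _).le ((h0 _).trans h2)
  have hlow : S ≤ p.eval t * Real.exp (d * (a + 2) + L) := by
    have h1 : ∀ v ∈ range (d + 1), p.eval (v : ℝ) ≤ p.eval t * Real.exp (d * (a + 1) + L) := by
      intro v hv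
      have h1 := prod_le_exp (fun r : ℂ => ‖(((v : ℕ) : ℝ) : ℂ) - r‖) (fun r : ℂ => ‖(t : ℂ) - r‖)
        (fun r => a + 1 + lg (t - r.re)) (fun _ => norm_nonneg _) (fun _ => norm_nonneg _) R
        fun r hr => root_low r (hav v hv) (ht r hr)
      have h3 : Real.exp (R.map fun r => a + 1 + lg (t - r.re)).sum ≤
          Real.exp (d * (a + 1) + L) := by
        rw [Multiset.sum_map_add, Multiset.map_const', Multiset.sum_replicate, nsmul_eq_mul]
        gcongr
      calc p.eval (v : ℝ) ≤ p.eval t * Real.exp (R.map fun r => a + 1 + lg (t - r.re)).sum := by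
            rw [hf' t, hf' v, mul_assoc]
            exact mul_le_mul_of_nonneg_left h1 hc.le
        _ ≤ _ := mul_le_mul_of_nonneg_left h3 hpt.le
    have h2 := sum_le_card_nsmul _ _ _ h1
    rw [card_range, nsmul_eq_mul] at h2
    have h3 : ((d + 1 : ℕ) : ℝ) ≤ Real.exp d := by
      push_cast
      exact Real.add_one_le_exp _
    calc S ≤ _ := h2
      _ ≤ Real.exp d * (p.eval t * Real.exp (d * (a + 1) + L)) := by gcongr
      _ = _ := by
          rw [show (d : ℝ) * (a + 2) + L = d + (d * (a + 1) + L) by ring, Real.exp_add d]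
          ring
  have hSp : 0 < S := by
    by_contra hc
    have := mul_nonpos_of_nonpos_of_nonneg (not_lt.mp hc) (Real.exp_pos (d * (2 * a))).le
    linarith
  have e1 := Real.log_le_log hpt hup
  have e2 := Real.log_le_log hSp hlow
  rw [Real.log_mul hSp.ne' (Real.exp_pos _).ne', Real.log_exp] at e1
  rw [Real.log_mul hpt.ne' (Real.exp_pos _).ne', Real.log_exp] at e2
  have hd0 : (0 : ℝ) ≤ d := Nat.cast_nonneg d
  have hda : 0 ≤ (d : ℝ) * a := mul_nonneg hd0 ha0
  rw [abs_le]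
  constructor <;> nlinarith

/-- The one-dimensional Gaussian weight. -/
noncomputable def g1 (t : ℝ) : ℝ≥0∞ := ENNReal.ofReal (Real.exp (-(t * t)))

theorem measurable_g1 : Measurable g1 := by
  unfold g1
  fun_prop

theorem g1_le_one (t : ℝ) : g1 t ≤ 1 := by
  unfold g1
  rw [← ENNReal.ofReal_one]
  exact ENNReal.ofReal_le_ofReal (Real.exp_le_one_iff.mpr (neg_nonpos.mpr (mul_self_nonneg t)))

theorem integrable_gauss : Integrable fun t : ℝ => Real.exp (-(t * t)) := by
  have := integrable_exp_neg_mul_sq (b := 1) one_pos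
  simpa only [neg_mul, one_mul, sq] using this

theorem integrable_abs_gauss : Integrable fun t : ℝ => |t| * Real.exp (-(t * t)) := by
  have := (integrable_mul_exp_neg_mul_sq (b := 1) one_pos).abs
  simpa only [neg_mul, one_mul, sq, abs_mul, Real.abs_exp] using this

theorem g1_ne_top : ∫⁻ t, g1 t ≠ ⊤ := integrable_gauss.lintegral_lt_top.ne

theorem g1_ne_zero : ∫⁻ t, g1 t ≠ 0 := by
  intro h
  rw [lintegral_eq_zero_iff measurable_g1] at h
  have h1 : ∀ᵐ t : ℝ, False := by
    filter_upwards [h] with t ht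
    unfold g1 at ht
    simp only [Pi.zero_apply, ENNReal.ofReal_eq_zero] at ht
    exact absurd ht (not_le.mpr (Real.exp_pos _))
  rw [Filter.eventually_false_iff_eq_bot, ae_eq_bot] at h1
  exact NeZero.ne _ h1

theorem lint_lg_sum (R : Multiset ℂ) :
    ∫⁻ t : ℝ, ENNReal.ofReal (R.map fun r => lg (t - r.re)).sum ≤
      R.card * ∫⁻ s, ENNReal.ofReal (lg s) := by
  induction R using Multiset.induction_on with
  | empty => simp
  | cons a s ih =>
    simp only [Multiset.map_cons, Multiset.sum_cons, Multiset.card_cons]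
    have hm : Measurable fun t : ℝ => ENNReal.ofReal (lg (t - a.re)) :=
      (measurable_lg.comp (measurable_id.sub_const _)).ennreal_ofReal
    calc ∫⁻ t : ℝ, ENNReal.ofReal (lg (t - a.re) + (s.map fun r => lg (t - r.re)).sum)
        ≤ ∫⁻ t : ℝ, (ENNReal.ofReal (lg (t - a.re)) +
            ENNReal.ofReal (s.map fun r => lg (t - r.re)).sum) :=
          lintegral_mono fun t => ENNReal.ofReal_add_le
      _ = (∫⁻ s, ENNReal.ofReal (lg s)) +
            ∫⁻ t : ℝ, ENNReal.ofReal (s.map fun r => lg (t - r.re)).sum := by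
          rw [lintegral_add_left hm,
            lintegral_sub_right_eq_self (fun s => ENNReal.ofReal (lg s)) a.re]
      _ ≤ (∫⁻ s, ENNReal.ofReal (lg s)) + s.card * ∫⁻ s, ENNReal.ofReal (lg s) := by gcongr
      _ = _ := by push_cast; ring

theorem one_var (d : ℕ) : ∃ C : ℝ≥0∞, C ≠ ⊤ ∧ ∀ p : Polynomial ℝ, p.natDegree ≤ d →
    (∀ t, 0 ≤ p.eval t) →
      ∫⁻ t, ‖Real.log (p.eval t) - Real.log (∑ v ∈ range (d + 1), p.eval (v : ℝ))‖ₑ * g1 t ≤
        C * ∫⁻ t, g1 t := by
  set A : ℝ≥0∞ := ∫⁻ t : ℝ, ENNReal.ofReal (d * (2 * (d + |t|) + 2) * Real.exp (-(t * t))) with hA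
  set L : ℝ≥0∞ := ∫⁻ s, ENNReal.ofReal (lg s) with hL
  have hA' : A ≠ ⊤ := by
    have h := (integrable_gauss.const_mul (d * (2 * d + 2))).add
      (integrable_abs_gauss.const_mul (2 * d))
    refine (Integrable.lintegral_lt_top (h.congr (ae_of_all _ fun t => ?_))).ne
    simp only [Pi.add_apply]
    ring
  have hL' : L ≠ ⊤ := integrable_lg.lintegral_lt_top.ne
  refine ⟨(A + d * L) / ∫⁻ t, g1 t, ENNReal.div_ne_top (by finiteness) g1_ne_zero,
    fun p hp h0 => ?_⟩
  rw [ENNReal.div_mul_cancel g1_ne_zero g1_ne_top]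
  obtain ⟨R, hR, h⟩ := pointwise d p hp h0
  have hae : ∀ᵐ t : ℝ, ∀ r ∈ R, t ≠ r.re := by
    have hfin : ((fun r : ℂ => r.re) '' {r | r ∈ R}).Finite := R.finite_toSet.image _
    filter_upwards [hfin.countable.ae_notMem volume] with t ht r hr e
    exact ht ⟨r, hr, e.symm⟩
  have hm : Measurable fun t : ℝ =>
      ENNReal.ofReal (d * (2 * (d + |t|) + 2) * Real.exp (-(t * t))) := by fun_prop
  calc _ ≤ ∫⁻ t : ℝ, (ENNReal.ofReal (d * (2 * (d + |t|) + 2) * Real.exp (-(t * t))) +
          ENNReal.ofReal (R.map fun r => lg (t - r.re)).sum) := by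
        refine lintegral_mono_ae ?_
        filter_upwards [hae] with t ht
        have h1 := h t ht
        rw [← ofReal_norm, Real.norm_eq_abs]
        refine (mul_le_mul_left ((ENNReal.ofReal_le_ofReal h1).trans ENNReal.ofReal_add_le)
          _).trans ?_
        rw [add_mul, ENNReal.ofReal_mul (q := Real.exp (-(t * t))) (by positivity)]
        exact add_le_add le_rfl (mul_le_of_le_one_right' (g1_le_one t))
    _ = A + ∫⁻ t : ℝ, ENNReal.ofReal (R.map fun r => lg (t - r.re)).sum := by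
        rw [lintegral_add_left hm]
    _ ≤ A + R.card * L := by gcongr; exact lint_lg_sum R
    _ ≤ A + d * L := by gcongr

/-- The standard Gaussian weight. -/
noncomputable def gz {n : ℕ} (x : Fin n → ℝ) : ℝ≥0∞ :=
  ENNReal.ofReal (Real.exp (-∑ i, x i * x i))

theorem measurable_gz {n : ℕ} : Measurable (gz (n := n)) := by
  unfold gz
  fun_prop

theorem gz_cons {n : ℕ} (t : ℝ) (y : Fin n → ℝ) : gz (Fin.cons t y : Fin (n + 1) → ℝ) =
    g1 t * gz y := by
  unfold gz g1
  rw [Fin.sum_univ_succ, ← ENNReal.ofReal_mul (Real.exp_pos _).le, ← Real.exp_add, neg_add]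
  simp only [Fin.cons_zero, Fin.cons_succ]

theorem lint_cons {n : ℕ} (F : (Fin (n + 1) → ℝ) → ℝ≥0∞) :
    ∫⁻ x, F x = ∫⁻ q : ℝ × (Fin n → ℝ), F (Fin.cons q.1 q.2) ∂(volume.prod volume) := by
  have h := (volume_preserving_piFinSuccAbove (fun _ : Fin (n + 1) => ℝ) 0).symm
  rw [h.lintegral_map_equiv F]
  refine lintegral_congr fun q => ?_
  simp [MeasurableEquiv.piFinSuccAbove, Fin.insertNthEquiv]

theorem continuous_cons {n : ℕ} :
    Continuous fun q : ℝ × (Fin n → ℝ) => (Fin.cons q.1 q.2 : Fin (n + 1) → ℝ) := by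
  refine continuous_pi fun i => ?_
  refine Fin.cases ?_ (fun j => ?_) i
  · simpa only [Fin.cons_zero] using continuous_fst
  · simp only [Fin.cons_succ]
    fun_prop

/-- The inclusion of the last coordinates. -/
def consL (n : ℕ) : (Fin n → ℝ) →ₗ[ℝ] (Fin (n + 1) → ℝ) where
  toFun y := Fin.cons 0 y
  map_add' u v := by ext i; refine Fin.cases ?_ (fun j => ?_) i <;> simp
  map_smul' c v := by ext i; refine Fin.cases ?_ (fun j => ?_) i <;> simp

theorem cons_eq_left {n : ℕ} (t : ℝ) (y : Fin n → ℝ) :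
    (Fin.cons t y : Fin (n + 1) → ℝ) = Fin.cons t 0 + consL n y := by
  ext i
  refine Fin.cases ?_ (fun j => ?_) i <;> simp [consL]

theorem cons_eq_right {n : ℕ} (t : ℝ) (y : Fin n → ℝ) :
    (Fin.cons t y : Fin (n + 1) → ℝ) = Fin.cons 0 y + t • Fin.cons 1 0 := by
  ext i
  refine Fin.cases ?_ (fun j => ?_) i <;> simp

theorem multi_var (d n : ℕ) : ∃ C : ℝ≥0∞, C ≠ ⊤ ∧ ∀ f : (Fin n → ℝ) → ℝ, Continuous f →
    (∀ x, 0 ≤ f x) → PolyFn d f →
      ∃ κ : ℝ, ∫⁻ x, ‖Real.log (f x) - κ‖ₑ * gz x ≤ C * ∫⁻ x : Fin n → ℝ, gz x := by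
  induction n with
  | zero =>
    refine ⟨0, ENNReal.zero_ne_top, fun f _ _ _ => ⟨Real.log (f 0), ?_⟩⟩
    have : ∀ x : Fin 0 → ℝ, ‖Real.log (f x) - Real.log (f 0)‖ₑ * gz x = 0 := fun x => by
      rw [Subsingleton.elim x 0, sub_self, enorm_zero, zero_mul]
    simp only [this, lintegral_zero, zero_le]
  | succ n ih =>
    obtain ⟨C, hC, h1⟩ := one_var d
    obtain ⟨C', hC', h2⟩ := ih
    refine ⟨C + C', by finiteness, fun f hf h0 hp => ?_⟩
    set g : (Fin n → ℝ) → ℝ := fun y => ∑ v ∈ range (d + 1), f (Fin.cons (v : ℝ) y) with hg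
    have hgc : Continuous g := continuous_finsetSum _ fun v _ =>
      hf.comp (continuous_cons.comp (continuous_const.prodMk continuous_id))
    have hgp : PolyFn d g := PolyFn.sum _ fun v _ => by
      have := hp.comp_affine (Fin.cons (v : ℝ) 0) (consL n)
      simpa only [← cons_eq_left] using this
    obtain ⟨κ, hκ⟩ := h2 g hgc (fun y => sum_nonneg fun v _ => h0 _) hgp
    refine ⟨κ, ?_⟩
    have hZ : ∫⁻ x : Fin (n + 1) → ℝ, gz x = (∫⁻ t, g1 t) * ∫⁻ y : Fin n → ℝ, gz y := by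
      rw [lint_cons]
      simp only [gz_cons]
      exact lintegral_prod_mul measurable_g1.aemeasurable measurable_gz.aemeasurable
    have hm1 : Measurable fun q : ℝ × (Fin n → ℝ) =>
        ‖Real.log (f (Fin.cons q.1 q.2)) - Real.log (g q.2)‖ₑ * g1 q.1 * gz q.2 :=
      ((((hf.comp continuous_cons).measurable.log.sub
        (hgc.comp continuous_snd).measurable.log).enorm).mul
          (measurable_g1.comp measurable_fst)).mul (measurable_gz.comp measurable_snd)
    have hm2 : Measurable fun y : Fin n → ℝ => ‖Real.log (g y) - κ‖ₑ * gz y :=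
      (hgc.measurable.log.sub_const κ).enorm.mul measurable_gz
    have hA : ∫⁻ q : ℝ × (Fin n → ℝ),
        ‖Real.log (f (Fin.cons q.1 q.2)) - Real.log (g q.2)‖ₑ * g1 q.1 * gz q.2
          ∂(volume.prod volume) ≤ C * ((∫⁻ t, g1 t) * ∫⁻ y : Fin n → ℝ, gz y) := by
      rw [lintegral_prod_symm' _ hm1, ← mul_assoc, ← lintegral_const_mul _ measurable_gz]
      refine lintegral_mono fun y => ?_
      have hy : gz y ≠ ⊤ := ENNReal.ofReal_ne_top
      simp only []
      rw [lintegral_mul_const' _ _ hy]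
      refine mul_le_mul_left ?_ _
      obtain ⟨p, hpd, hpe⟩ := hp (Fin.cons 0 y) (Fin.cons 1 0)
      have he : ∀ t : ℝ, f (Fin.cons t y) = p.eval t := fun t => by
        rw [cons_eq_right, hpe]
      have := h1 p hpd fun t => he t ▸ h0 _
      simpa only [hg, he] using this
    have hB : ∫⁻ q : ℝ × (Fin n → ℝ), g1 q.1 * (‖Real.log (g q.2) - κ‖ₑ * gz q.2)
          ∂(volume.prod volume) ≤ C' * ((∫⁻ t, g1 t) * ∫⁻ y : Fin n → ℝ, gz y) := by
      rw [lintegral_prod_mul measurable_g1.aemeasurable hm2.aemeasurable, mul_left_comm]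
      exact mul_le_mul_right hκ _
    rw [hZ, lint_cons, add_mul]
    refine le_trans ?_ (add_le_add hA hB)
    rw [← lintegral_add_left hm1]
    refine lintegral_mono fun q => ?_
    simp only [gz_cons]
    have ht : ‖Real.log (f (Fin.cons q.1 q.2)) - κ‖ₑ ≤
        ‖Real.log (f (Fin.cons q.1 q.2)) - Real.log (g q.2)‖ₑ + ‖Real.log (g q.2) - κ‖ₑ := by
      refine le_trans (le_of_eq ?_) (enorm_add_le _ _)
      rw [sub_add_sub_cancel]
    refine (mul_le_mul_left ht _).trans (le_of_eq ?_)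
    ring

theorem exists_normal (E : Type) [NormedAddCommGroup E] [NormedSpace ℝ E] [FiniteDimensional ℝ E]
    (B : E →ₗ[ℝ] E →ₗ[ℝ] ℝ) (hB : ∀ x, x ≠ 0 → 0 < B x x) :
    ∃ e : E ≃L[ℝ] (Fin (Module.finrank ℝ E) → ℝ), ∀ x, B x x = ∑ i, e x i * e x i := by
  obtain ⟨w, hw, ⟨e⟩⟩ := QuadraticForm.equivalent_one_zero_neg_one_weighted_sum_squared
    (LinearMap.BilinMap.toQuadraticMap B)
  have h : ∀ x, B x x = ∑ i, w i * (e x i * e x i) := fun x => by
    have := e.map_app x
    rw [QuadraticMap.weightedSumSquares_apply, LinearMap.BilinMap.toQuadraticMap_apply] at this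
    simpa only [smul_eq_mul] using this.symm
  have h1 : ∀ i, w i = 1 := fun i => by
    have hx : e.toLinearEquiv.symm (Pi.single i 1) ≠ 0 := by
      intro h0
      have := congrFun ((LinearEquiv.map_eq_zero_iff _).mp h0) i
      simp at this
    have h2 := hB _ hx
    rw [h] at h2
    have h3 : e (e.toLinearEquiv.symm (Pi.single i 1)) = Pi.single i 1 :=
      e.toLinearEquiv.apply_symm_apply _
    rw [h3, sum_eq_single i (fun j _ hj => by simp [hj]) (by simp)] at h2
    simp only [Pi.single_eq_same, mul_one] at h2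
    rcases hw i with h4 | h4 | h4
    · linarith
    · linarith
    · exact h4
  refine ⟨e.toLinearEquiv.toContinuousLinearEquiv, fun x => ?_⟩
  rw [h]
  simp only [h1, one_mul]
  rfl

end Mah

open Mah in
/-- The logarithm of a nonnegative polynomial concentrates under every Gaussian weight. -/
theorem mahler (E : Type) [NormedAddCommGroup E] [NormedSpace ℝ E] [FiniteDimensional ℝ E]
    [MeasurableSpace E] [BorelSpace E] (μ : Measure E) [μ.IsAddHaarMeasure] (d : ℕ) :
    ∃ C : ℝ≥0∞, C ≠ ⊤ ∧ ∀ B : E →ₗ[ℝ] E →ₗ[ℝ] ℝ, (∀ x, x ≠ 0 → 0 < B x x) →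
      ∀ f : E → ℝ, Continuous f → (∀ x, 0 ≤ f x) → PolyFn d f →
        ∃ κ : ℝ, ∫⁻ x, ‖Real.log (f x) - κ‖ₑ * ENNReal.ofReal (Real.exp (-B x x)) ∂μ ≤
          C * ∫⁻ x, ENNReal.ofReal (Real.exp (-B x x)) ∂μ := by
  obtain ⟨C, hC, h⟩ := multi_var d (Module.finrank ℝ E)
  refine ⟨C, hC, fun B hB f hf h0 hp => ?_⟩
  obtain ⟨e, he⟩ := exists_normal E B hB
  obtain ⟨κ, hκ⟩ := h (fun y => f (e.symm y)) (hf.comp e.symm.continuous) (fun y => h0 _)
    (hp.comp_linear e.symm.toLinearEquiv.toLinearMap)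
  refine ⟨κ, ?_⟩
  have hμ := Measure.isAddLeftInvariant_eq_smul (μ.map e) volume
  set c := Measure.addHaarScalarFactor (μ.map e) volume
  have key : ∀ F : (Fin (Module.finrank ℝ E) → ℝ) → ℝ≥0∞,
      ∫⁻ x, F (e x) ∂μ = c * ∫⁻ y, F y := fun F => by
    have h1 := lintegral_map_equiv (μ := μ) F e.toHomeomorph.toMeasurableEquiv
    have h2 : Measure.map (⇑e.toHomeomorph.toMeasurableEquiv) μ = c • volume := hμ
    rw [h2, lintegral_smul_measure] at h1
    exact h1.symm
  have k1 := key fun y => ‖Real.log (f (e.symm y)) - κ‖ₑ * gz y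
  have k2 := key gz
  simp only [ContinuousLinearEquiv.symm_apply_apply, gz, ← he] at k1 k2
  rw [k1, k2, mul_left_comm]
  exact mul_le_mul_right hκ _

end Pool.Agent.Lib.MP_cdc9ab_al
end

-- part Pool.Agent.Lib.MP_cdc9ab_al.Sqrt
section

open scoped Matrix.Norms.Operator ContDiff Matrix
open Finset

namespace Pool.Agent.Lib.MP_cdc9ab_al

/-- Smooth local right inverse of a map with injective derivative. -/
theorem local_inv {X : Type} [NormedAddCommGroup X] [NormedSpace ℝ X] [FiniteDimensional ℝ X]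
    {F : X → X} {x : X} (hF : ContDiffAt ℝ ∞ F x) (hi : ∀ v, fderiv ℝ F x v = 0 → v = 0) :
    ∃ G : X → X, ContDiffAt ℝ ∞ G (F x) ∧ G (F x) = x ∧ ∀ᶠ y in nhds (F x), F (G y) = y := by
  have : CompleteSpace X := FiniteDimensional.complete ℝ X
  have hn : (∞ : WithTop ℕ∞) ≠ 0 := by simp
  have hinj : Function.Injective (fderiv ℝ F x : X →ₗ[ℝ] X) :=
    (injective_iff_map_eq_zero _).2 hi
  let e : X ≃L[ℝ] X := (LinearEquiv.ofInjectiveEndo _ hinj).toContinuousLinearEquiv
  have he : HasFDerivAt F (e : X →L[ℝ] X) x := by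
    have : (e : X →L[ℝ] X) = fderiv ℝ F x := by ext v; rfl
    rw [this]
    exact (hF.differentiableAt hn).hasFDerivAt
  exact ⟨hF.localInverse he hn, hF.to_localInverse he hn, hF.localInverse_apply_image he hn,
    (hF.hasStrictFDerivAt' he hn).eventually_right_inverse⟩

variable {D : ℕ}

theorem trace_conj_eq (a x : Mat D) : (xᵀ * a * x).trace = ∑ j, x.col j ⬝ᵥ a *ᵥ x.col j := by
  simp only [Matrix.trace, Matrix.diag_apply, Matrix.mul_apply, Matrix.transpose_apply,
    dotProduct, Matrix.mulVec, Matrix.col_apply, Finset.sum_mul, Finset.mul_sum]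
  refine Finset.sum_congr rfl fun j _ => ?_
  rw [Finset.sum_comm]
  exact Finset.sum_congr rfl fun _ _ => Finset.sum_congr rfl fun _ _ => by ring

theorem pos_nonneg {a : Mat D} (ha : a ∈ Pos D) (v : Fin D → ℝ) : 0 ≤ v ⬝ᵥ a *ᵥ v := by
  by_cases hv : v = 0
  · simp [hv]
  · exact (ha v hv).le

theorem trace_conj_nonneg {a : Mat D} (ha : a ∈ Pos D) (x : Mat D) :
    0 ≤ (xᵀ * a * x).trace := by
  rw [trace_conj_eq]
  exact Finset.sum_nonneg fun j _ => pos_nonneg ha _

theorem eq_zero_of_trace_conj {a : Mat D} (ha : a ∈ Pos D) {x : Mat D}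
    (h : (xᵀ * a * x).trace ≤ 0) : x = 0 := by
  rw [trace_conj_eq] at h
  have h0 := (Finset.sum_eq_zero_iff_of_nonneg fun j _ => pos_nonneg ha (x.col j)).1
    (le_antisymm h (Finset.sum_nonneg fun j _ => pos_nonneg ha _))
  ext i j
  by_contra hne
  have : x.col j ≠ 0 := fun h1 => hne (congrFun h1 i)
  exact (ha _ this).ne' (h0 j (Finset.mem_univ _))

/-- The Sylvester operator of two positive matrices is injective. -/
theorem sylv {a b x : Mat D} (ha : a ∈ Pos D) (hb : b ∈ Pos D) (h : a * x + x * b = 0) :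
    x = 0 := by
  apply eq_zero_of_trace_conj ha
  have h1 := trace_conj_nonneg hb xᵀ
  have h2 : (xᵀ * a * x).trace + (xᵀᵀ * b * xᵀ).trace = 0 := by
    rw [Matrix.transpose_transpose, Matrix.trace_mul_comm (x * b), ← Matrix.trace_add, mul_assoc,
      ← mul_add, h, mul_zero, Matrix.trace_zero]
  linarith

theorem sqrt_unique' {a b : Mat D} (ha : a ∈ Pos D) (hb : b ∈ Pos D) (h : a * a = b * b) :
    a = b := by
  rw [← sub_eq_zero]
  apply sylv ha hb
  rw [mul_sub, sub_mul, h]
  abel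

theorem sqrt_unique {D : ℕ} {a b : Mat D} (ha : a ∈ Pos D) (hb : b ∈ Pos D) (ha' : aᵀ = a)
    (hb' : bᵀ = b) (h : a * a = b * b) : a = b := by
  have _ := ha'
  have _ := hb'
  exact sqrt_unique' ha hb h

/-- The spectral theorem for positive symmetric matrices. -/
theorem spectral {m : Mat D} (hm : m ∈ Pos D) (hs : mᵀ = m) :
    ∃ (U : Mat D) (μ : Fin D → ℝ), Uᵀ * U = 1 ∧ U * Uᵀ = 1 ∧
      m = U * Matrix.diagonal (fun i => Real.exp (μ i)) * Uᵀ := by
  have hH : m.IsHermitian := by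
    rw [Matrix.IsHermitian, Matrix.conjTranspose_eq_transpose_of_trivial, hs]
  set U : Mat D := (hH.eigenvectorUnitary : Mat D) with hU
  have h1 : Uᵀ * U = 1 := by
    rw [← Matrix.conjTranspose_eq_transpose_of_trivial, ← Matrix.star_eq_conjTranspose]
    exact Unitary.coe_star_mul_self _
  have h2 : U * Uᵀ = 1 := mul_eq_one_comm.mp h1
  have h3 : m = U * Matrix.diagonal hH.eigenvalues * Uᵀ := by
    have := hH.spectral_theorem
    rw [Unitary.conjStarAlgAut_apply, Matrix.star_eq_conjTranspose,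
      Matrix.conjTranspose_eq_transpose_of_trivial] at this
    simpa using this
  have h4 : Uᵀ * m * U = Matrix.diagonal hH.eigenvalues := by
    conv_lhs => rw [h3]
    rw [← mul_assoc, ← mul_assoc, h1, one_mul, mul_assoc, h1, mul_one]
  have h5 : ∀ i, 0 < hH.eigenvalues i := by
    intro i
    have hp : act U m ∈ Pos D := act_mem_pos (IsUnit.of_mul_eq_one _ h2) hm
    have := hp (Pi.single i 1) (by simp)
    rw [act_apply, h4] at this
    simpa using this
  refine ⟨U, fun i => Real.log (hH.eigenvalues i), h1, h2, ?_⟩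
  simp only [Real.exp_log (h5 _)]
  exact h3

theorem exp_spec {U : Mat D} (h1 : Uᵀ * U = 1) (μ : Fin D → ℝ) :
    NormedSpace.exp (U * Matrix.diagonal μ * Uᵀ) =
      U * Matrix.diagonal (fun i => Real.exp (μ i)) * Uᵀ := by
  have h2 : U * Uᵀ = 1 := mul_eq_one_comm.mp h1
  have h3 : Uᵀ = U⁻¹ := (Matrix.inv_eq_left_inv h1).symm
  rw [h3, Matrix.exp_conj _ _ (IsUnit.of_mul_eq_one _ h2), Matrix.exp_diagonal]
  congr 3
  funext i
  rw [Pi.coe_exp, Real.exp_eq_exp_ℝ]

theorem exp_half (Z : Mat D) :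
    NormedSpace.exp ((1 / 2 : ℝ) • Z) * NormedSpace.exp ((1 / 2 : ℝ) • Z) = NormedSpace.exp Z := by
  rw [← Matrix.exp_add_of_commute _ _ (Commute.refl _), ← add_smul]
  norm_num

theorem exp_mem_pos {Z : Mat D} (hZ : Zᵀ = Z) : NormedSpace.exp Z ∈ Pos D := by
  have := act_mem_pos (Matrix.isUnit_exp ((1 / 2 : ℝ) • Z)) (one_mem_pos (D := D))
  rwa [act_apply, mul_one, ← Matrix.exp_transpose, Matrix.transpose_smul, hZ, exp_half] at this

/-- Positive symmetric matrices have a symmetric logarithm. -/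
theorem exists_log {m : Mat D} (hm : m ∈ Pos D) (hs : mᵀ = m) :
    ∃ Z : Mat D, Zᵀ = Z ∧ NormedSpace.exp Z = m := by
  obtain ⟨U, μ, h1, -, h3⟩ := spectral hm hs
  refine ⟨U * Matrix.diagonal μ * Uᵀ, ?_, by rw [exp_spec h1, ← h3]⟩
  simp [Matrix.transpose_mul, mul_assoc]

theorem exists_sqrt (D : ℕ) : ∃ sq : Mat D → Mat D, ∀ m ∈ Pos D, mᵀ = m →
    ContDiffAt ℝ ∞ sq m ∧ sq m ∈ Pos D ∧ (sq m)ᵀ = sq m ∧ sq m * sq m = m := by
  classical
  let sq : Mat D → Mat D := fun m => if h : ∃ a ∈ Pos D, a * a = m then h.choose else 0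
  have hsq : ∀ m, ∀ a ∈ Pos D, a * a = m → sq m = a := by
    intro m a ha h
    have hex : ∃ a ∈ Pos D, a * a = m := ⟨a, ha, h⟩
    have h1 : sq m = hex.choose := dif_pos hex
    rw [h1]
    exact sqrt_unique' hex.choose_spec.1 ha (hex.choose_spec.2.trans h.symm)
  refine ⟨sq, fun m hm hs => ?_⟩
  obtain ⟨Z, hZ, hZm⟩ := exists_log hm hs
  set a := NormedSpace.exp ((1 / 2 : ℝ) • Z) with ha
  have haZ : ((1 / 2 : ℝ) • Z)ᵀ = (1 / 2 : ℝ) • Z := by rw [Matrix.transpose_smul, hZ]
  have ha1 : a ∈ Pos D := exp_mem_pos haZ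
  have ha2 : a * a = m := by rw [ha, exp_half, hZm]
  have ha3 : aᵀ = a := by rw [ha, ← Matrix.exp_transpose, haZ]
  have h0 := hsq m a ha1 ha2
  refine ⟨?_, h0 ▸ ha1, h0 ▸ ha3, h0 ▸ ha2⟩
  have hF : ContDiffAt ℝ ∞ (fun x : Mat D => x * x) a := contDiffAt_id.mul contDiffAt_id
  obtain ⟨G, hG1, hG2, hG3⟩ := local_inv hF (fun v hv => by
    have h1 := ((hasFDerivAt_id (𝕜 := ℝ) a).mul' (hasFDerivAt_id a)).fderiv
    have h2 : fderiv ℝ (fun x : Mat D => x * x) a v = a * v + v * a := by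
      have := congrArg (fun T => T v) h1
      exact this
    exact sylv ha1 ha1 (h2 ▸ hv))
  simp only [ha2] at hG1 hG2 hG3
  refine hG1.congr_of_eventuallyEq ?_
  have hG4 : ∀ᶠ y in nhds m, G y ∈ Pos D :=
    hG1.continuousAt.eventually (isOpen_pos.mem_nhds (hG2 ▸ ha1))
  filter_upwards [hG3, hG4] with y h1 h2
  exact hsq y _ h2 h1

end Pool.Agent.Lib.MP_cdc9ab_al
end
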