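import Pool.Agent.Lib.MP_cdc9ab_al.KeyDom
import Pool.Agent.Lib.MP_cdc9ab_al.Sqrt

-- part Pool.Agent.Lib.MP_cdc9ab_al.Slots
section

open scoped Matrix.Norms.Operator ContDiff Matrix ENNReal
open Finset MeasureTheory

namespace Pool.Agent.Lib.MP_cdc9ab_al

namespace Slot

section gauss
variable {E : Type} [NormedAddCommGroup E] [NormedSpace ℝ E] [FiniteDimensional ℝ E]
  (b : E →ₗ[ℝ] E →ₗ[ℝ] ℝ)

theorem cont_b : Continuous fun x => b x x :=
  (continuous_lin (LinearMap.toContinuousLinearMap.toLinearMap ∘ₗ b)).clm_apply continuous_id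

theorem coercive (hb : ∀ x, x ≠ 0 → 0 < b x x) : ∃ c > 0, ∀ x, c * ‖x‖ ^ 2 ≤ b x x := by
  obtain ⟨c, hc, h⟩ := (isCompact_sphere (0 : E) 1).exists_forall_le' (cont_b b).continuousOn
    (a := 0) fun x hx => hb x (by rintro rfl; simp at hx)
  refine ⟨c, hc, fun x => ?_⟩
  rcases eq_or_ne x 0 with rfl | hx
  · simp
  have hn : 0 < ‖x‖ := norm_pos_iff.2 hx
  have := h (‖x‖⁻¹ • x) (by simp [norm_smul, hn.ne'])
  simp only [map_smul, LinearMap.smul_apply, smul_eq_mul] at this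
  rwa [← mul_assoc, ← sq, inv_pow, le_inv_mul_iff₀ (by positivity), mul_comm] at this

theorem lin_bd (ψ : E →ₗ[ℝ] ℝ) : ∃ K, 0 ≤ K ∧ ∀ x, |ψ x| ≤ K * (1 + ‖x‖) :=
  ⟨_, norm_nonneg (LinearMap.toContinuousLinearMap ψ), fun x =>
    ((LinearMap.toContinuousLinearMap ψ).le_opNorm x).trans (by gcongr; linarith)⟩

variable [MeasurableSpace E] [BorelSpace E] (μ : Measure E) [μ.IsAddHaarMeasure]

theorem gauss_int (hb : ∀ x, x ≠ 0 → 0 < b x x) {f : E → ℝ} (hf : Continuous f) {K : ℝ}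
    (hK : ∀ x, |f x| ≤ K * (1 + ‖x‖) ^ 2) : Integrable (fun x => Real.exp (-b x x) * f x) μ := by
  obtain ⟨c, hc, h⟩ := coercive b hb
  set m : ℝ := Module.finrank ℝ E + 3 with hm
  have hK0 : 0 ≤ K := by simpa using (abs_nonneg _).trans (hK 0)
  refine ((integrable_one_add_norm (μ := μ) (r := Module.finrank ℝ E + 1) (by linarith)).const_mul
    (K * Real.exp (m ^ 2 / (4 * c)))).mono' ((cont_b b).neg.rexp.mul hf).aestronglyMeasurable
    (Filter.Eventually.of_forall fun x => ?_)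
  have h0 : 0 < 1 + ‖x‖ := by positivity
  have h1 : (1 + ‖x‖) ^ m ≤ Real.exp (m * ‖x‖) := by
    rw [mul_comm, Real.exp_mul]
    exact Real.rpow_le_rpow h0.le (by linarith [Real.add_one_le_exp ‖x‖]) (by positivity)
  have h2 : m * ‖x‖ + -b x x ≤ m ^ 2 / (4 * c) := by
    rw [le_div_iff₀ (by positivity)]
    nlinarith [sq_nonneg (m - 2 * c * ‖x‖), mul_le_mul_of_nonneg_left (h x) hc.le]
  have h3 : (1 + ‖x‖) ^ 2 = (1 + ‖x‖) ^ m * (1 + ‖x‖) ^ (-(Module.finrank ℝ E + 1 : ℝ)) := by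
    rw [← Real.rpow_add h0, ← Real.rpow_natCast]
    congr 1
    rw [hm]; push_cast; ring
  rw [Real.norm_eq_abs, abs_mul, Real.abs_exp]
  calc _ ≤ Real.exp (-b x x) * (K * (Real.exp (m * ‖x‖) *
        (1 + ‖x‖) ^ (-(Module.finrank ℝ E + 1 : ℝ)))) := by
        refine mul_le_mul_of_nonneg_left ((hK x).trans ?_) (Real.exp_pos _).le
        rw [h3]; gcongr
    _ = K * Real.exp (m * ‖x‖ + -b x x) * (1 + ‖x‖) ^ (-(Module.finrank ℝ E + 1 : ℝ)) := by
        rw [Real.exp_add]; ring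
    _ ≤ _ := by gcongr

theorem gauss_int0 (hb : ∀ x, x ≠ 0 → 0 < b x x) : Integrable (fun x => Real.exp (-b x x)) μ := by
  simpa using gauss_int b μ hb (f := fun _ => 1) continuous_const (K := 1) fun x => by
    rw [abs_one, one_mul]; exact one_le_pow₀ (by linarith [norm_nonneg x])

theorem gauss_int2 (hb : ∀ x, x ≠ 0 → 0 < b x x) (φ ψ : E →ₗ[ℝ] ℝ) :
    Integrable (fun x => Real.exp (-b x x) * (φ x * ψ x)) μ := by
  obtain ⟨K, hK0, hK⟩ := lin_bd φ
  obtain ⟨K', -, hK'⟩ := lin_bd ψ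
  refine gauss_int b μ hb ((continuous_lin φ).mul (continuous_lin ψ)) (K := K * K') fun x => ?_
  rw [abs_mul]
  exact (mul_le_mul (hK x) (hK' x) (abs_nonneg _) (by positivity)).trans_eq (by ring)

theorem gauss_cov (hb : ∀ x, x ≠ 0 → 0 < b x x) (hs : ∀ x y, b x y = b y x) (v : E)
    (ψ : E →ₗ[ℝ] ℝ) :
    2 * ∫ x, Real.exp (-b x x) * (b v x * ψ x) ∂μ = ψ v * ∫ x, Real.exp (-b x x) ∂μ := by
  obtain ⟨K, hK0, hK⟩ := lin_bd ψ
  have h := integral_bilinear_hasLineDerivAt_right_eq_neg_left_of_integrable (μ := μ)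
    (f := fun x => Real.exp (-b x x)) (f' := fun x => Real.exp (-b x x) * (-2 * b v x))
    (g := ψ) (g' := fun _ => ψ v) (v := v) (B := ContinuousLinearMap.mul ℝ ℝ)
    (((gauss_int2 b μ hb (b v) ψ).const_mul (-2)).congr
      (Filter.Eventually.of_forall fun x => by simp; ring))
    ((gauss_int0 b μ hb).mul_const _)
    (gauss_int b μ hb (continuous_lin ψ) (K := K) fun x => (hK x).trans (by
      gcongr; nlinarith [norm_nonneg x]))
    (fun x _ => ?_) fun x _ => ?_
  · simp only [ContinuousLinearMap.mul_apply'] at h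
    rw [mul_comm (ψ v), ← integral_mul_const, h, ← integral_const_mul, ← integral_neg]
    exact integral_congr_ae (Filter.Eventually.of_forall fun x => by simp; ring)
  · have e : (fun t : ℝ => Real.exp (-b (x + t • v) (x + t • v))) =
        fun t => Real.exp (-(b x x + t * (2 * b v x) + t * t * b v v)) := by
      funext t
      simp only [map_add, map_smul, LinearMap.add_apply, LinearMap.smul_apply, smul_eq_mul, hs x v]
      congr 1; ring
    rw [HasLineDerivAt, e]
    have := ((((hasDerivAt_id (0 : ℝ)).mul_const (2 * b v x)).const_add (b x x)).add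
      (((hasDerivAt_id (0 : ℝ)).mul (hasDerivAt_id 0)).mul_const (b v v))).neg.exp
    refine this.congr_deriv ?_
    simp
  · have := (((hasDerivAt_id (0 : ℝ)).mul_const (ψ v)).const_add (ψ x))
    rw [HasLineDerivAt]
    simpa using this

theorem gauss_lint (hb : ∀ x, x ≠ 0 → 0 < b x x) :
    ∫⁻ x, ENNReal.ofReal (Real.exp (-b x x)) ∂μ = ENNReal.ofReal (∫ x, Real.exp (-b x x) ∂μ) :=
  (ofReal_integral_eq_lintegral_ofReal (gauss_int0 b μ hb)
    (Filter.Eventually.of_forall fun _ => (Real.exp_pos _).le)).symm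

end gauss

theorem shear {A B : Type} [MeasurableSpace A] [MeasurableSpace B] [AddGroup A] [AddGroup B]
    [MeasurableAdd₂ A] [MeasurableAdd₂ B] (μ : Measure A) (ν : Measure B) [SFinite μ] [SFinite ν]
    [μ.IsAddRightInvariant] [ν.IsAddRightInvariant] {F : A × B → ℝ≥0∞} (hF : Measurable F)
    {s : B → A} (hs : Measurable s) (r : A → B) :
    ∫⁻ p, F p ∂μ.prod ν = ∫⁻ c, ∫⁻ u, F (c + s (u + r c), u + r c) ∂ν ∂μ := by
  rw [lintegral_prod_symm' _ hF]
  have h1 : ∀ u, ∫⁻ c, F (c, u) ∂μ = ∫⁻ c, F (c + s u, u) ∂μ := fun u =>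
    (lintegral_add_right_eq_self (fun c => F (c, u)) (s u)).symm
  simp only [h1]
  rw [lintegral_lintegral_swap (f := fun u c => F (c + s u, u))
    (hF.comp ((measurable_snd.add (hs.comp measurable_fst)).prodMk measurable_fst)).aemeasurable]
  exact lintegral_congr fun c =>
    (lintegral_add_right_eq_self (fun u => F (c + s u, u)) (r c)).symm

variable {N n : ℕ}

theorem rin_comm (u v : CV N) : rin u v = rin v u := by
  rw [rin, rin, Matrix.star_dotProduct, Complex.star_def, Complex.conj_re]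

theorem herm {H : HM N} (hH : Hᴴ = H) (u v : CV N) : star (H *ᵥ u) ⬝ᵥ v = star u ⬝ᵥ H *ᵥ v := by
  rw [Matrix.star_mulVec, hH, Matrix.dotProduct_mulVec]

theorem mul_inv {H : HM N} (hH : PD H) (v : CV N) : H *ᵥ H⁻¹ *ᵥ v = v ∧ H⁻¹ *ᵥ H *ᵥ v = v := by
  have h : IsUnit H.det := by
    rw [← Matrix.isUnit_iff_isUnit_det, ← Matrix.mulVec_injective_iff_isUnit]
    intro v w hvw
    by_contra hne
    have := hH.2 (v - w) (sub_ne_zero.mpr hne)
    simp [qf, rin, Matrix.mulVec_sub, hvw] at this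
  rw [Matrix.mulVec_mulVec, Matrix.mulVec_mulVec, Matrix.mul_nonsing_inv _ h,
    Matrix.nonsing_inv_mul _ h, Matrix.one_mulVec]
  exact ⟨rfl, rfl⟩

theorem pd_inv {H : HM N} (hH : PD H) : PD H⁻¹ := by
  refine ⟨by rw [Matrix.conjTranspose_nonsing_inv, hH.1], fun y hy => ?_⟩
  have := hH.2 (H⁻¹ *ᵥ y) fun h => hy (by rw [← (mul_inv hH y).1, h, Matrix.mulVec_zero])
  rwa [qf, (mul_inv hH y).1, rin_comm] at this

/-- the real bilinear form of a matrix, pulled back along a linear map -/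
noncomputable def bf {E : Type} [AddCommGroup E] [Module ℝ E] (G : HM N) (P : E →ₗ[ℝ] CV N) :
    E →ₗ[ℝ] E →ₗ[ℝ] ℝ :=
  cv0.compl₁₂ P ((G.mulVecLin.restrictScalars ℝ) ∘ₗ P)

theorem bf_apply {E : Type} [AddCommGroup E] [Module ℝ E] (G : HM N) (P : E →ₗ[ℝ] CV N) (u v : E) :
    bf G P u v = rin (P u) (G *ᵥ P v) := rfl

theorem bf_symm {E : Type} [AddCommGroup E] [Module ℝ E] {G : HM N} (hG : PD G)
    (P : E →ₗ[ℝ] CV N) (u v : E) : bf G P u v = bf G P v u := by
  rw [bf_apply, bf_apply, rin_comm, rin, herm hG.1, rin]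

/-- parametrisation of the hyperplane orthogonal to `(1, w)` -/
noncomputable def yp (w : CV n) : CV n →ₗ[ℝ] CV (n + 1) where
  toFun u := Fin.cons (-(star w ⬝ᵥ u)) u
  map_add' u v := by ext i; refine Fin.cases ?_ (fun j => ?_) i <;> simp [add_comm]
  map_smul' c v := by ext i; refine Fin.cases ?_ (fun j => ?_) i <;> simp

theorem yp_apply (w u : CV n) : yp w u = Fin.cons (-(star w ⬝ᵥ u)) u := rfl

theorem dot_cons (w : CV n) (y : CV (n + 1)) :
    star (Fin.cons 1 w : CV (n + 1)) ⬝ᵥ y = y 0 + star w ⬝ᵥ Fin.tail y := by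
  simp [dotProduct, Fin.sum_univ_succ, Fin.tail]

theorem dot_yp (w u : CV n) : star (Fin.cons 1 w : CV (n + 1)) ⬝ᵥ yp w u = 0 := by
  simp [dot_cons, yp_apply]

theorem eq_yp {w : CV n} {y : CV (n + 1)} (h : star (Fin.cons 1 w : CV (n + 1)) ⬝ᵥ y = 0) :
    yp w (Fin.tail y) = y := by
  rw [dot_cons] at h
  rw [yp_apply, ← eq_neg_of_add_eq_zero_left h, Fin.cons_self_tail]

theorem bf_yp_pos {G : HM (n + 1)} (hG : PD G) (w u : CV n) (hu : u ≠ 0) : 0 < bf G (yp w) u u :=
  hG.2 _ fun h => hu (funext fun j => congrFun h j.succ)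

theorem gw_yp (H : HM (n + 1)) (w u : CV n) :
    gw H (yp w u) = ENNReal.ofReal (Real.exp (-bf H⁻¹ (yp w) u u)) := rfl

theorem meas_gw (H : HM N) : Measurable (gw H) :=
  (cont_b (bf H⁻¹ LinearMap.id)).neg.rexp.measurable.ennreal_ofReal

section fixed
variable {H : HM (n + 1)} (hH : PD H) (w : CV n)

/-- the normalised image of `(1, w)` -/
noncomputable def av (H : HM (n + 1)) (w : CV n) : CV (n + 1) :=
  (qf H (Fin.cons 1 w))⁻¹ • H *ᵥ Fin.cons 1 w

include hH

theorem q_pos : 0 < qf H (Fin.cons 1 w) :=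
  hH.2 _ fun h => by simpa using congrFun h 0

theorem dot_q : star (Fin.cons 1 w : CV (n + 1)) ⬝ᵥ H *ᵥ Fin.cons 1 w = qf H (Fin.cons 1 w) := by
  refine (Complex.conj_eq_iff_re.1 ?_).symm
  rw [← Complex.star_def, ← Matrix.star_dotProduct, herm hH.1]

theorem dot_av : star (Fin.cons 1 w : CV (n + 1)) ⬝ᵥ av H w = 1 := by
  rw [av, dotProduct_smul, dot_q hH, Complex.real_smul, ← Complex.ofReal_mul,
    inv_mul_cancel₀ (q_pos hH w).ne', Complex.ofReal_one]

theorem inv_av : H⁻¹ *ᵥ av H w = (qf H (Fin.cons 1 w))⁻¹ • Fin.cons 1 w := by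
  rw [av, Matrix.mulVec_smul, (mul_inv hH _).2]

theorem gw_split (c : ℂ) (u : CV n) : gw H (c • av H w + yp w u) =
    ENNReal.ofReal (Real.exp (-(qf H (Fin.cons 1 w))⁻¹ * ‖c‖ ^ 2)) * gw H (yp w u) := by
  rw [gw, gw, ← ENNReal.ofReal_mul (Real.exp_pos _).le, ← Real.exp_add]
  congr 2
  have h1 : ∀ y, star (av H w) ⬝ᵥ H⁻¹ *ᵥ y =
      (qf H (Fin.cons 1 w))⁻¹ • (star (Fin.cons 1 w : CV (n + 1)) ⬝ᵥ y) := fun y => by
    rw [← herm (pd_inv hH).1, inv_av hH, star_smul, smul_dotProduct, star_trivial]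
  have h2 : star (yp w u) ⬝ᵥ H⁻¹ *ᵥ av H w = 0 := by
    rw [inv_av hH, dotProduct_smul, Matrix.star_dotProduct, dot_yp, star_zero, smul_zero]
  simp only [qf, rin, star_add, star_smul, Matrix.mulVec_add, Matrix.mulVec_smul, add_dotProduct,
    dotProduct_add, smul_dotProduct, dotProduct_smul, h2, Complex.add_re] at h1 ⊢
  simp only [h1, dot_yp, dot_av hH, smul_eq_mul, mul_zero, Complex.real_smul, mul_one,
    Complex.star_def, Complex.zero_re]
  rw [add_zero, ← mul_assoc, Complex.mul_conj', ← Complex.ofReal_pow, ← Complex.ofReal_mul,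
    Complex.ofReal_re]
  ring

theorem cons_eq (c : ℂ) (u : CV n) :
    (Fin.cons (c + -(star w ⬝ᵥ (u + c • Fin.tail (av H w)))) (u + c • Fin.tail (av H w)) :
      CV (n + 1)) = c • av H w + yp w u := by
  have h := dot_av hH w
  rw [dot_cons] at h
  ext i
  refine Fin.cases ?_ (fun j => ?_) i
  · simp only [Fin.cons_zero, dotProduct_add, dotProduct_smul, Pi.add_apply, Pi.smul_apply,
      yp_apply, smul_eq_mul]
    linear_combination (-c) * h
  · simp [yp_apply, Fin.tail, add_comm]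

theorem mass_eq : ∫⁻ y, gw H y =
    ENNReal.ofReal (Real.pi * qf H (Fin.cons 1 w)) * ∫⁻ u, gw H (yp w u) := by
  have hq := inv_pos.2 (q_pos hH w)
  have h1 := (volume_preserving_piFinSuccAbove (fun _ : Fin (n + 1) => ℂ) 0).symm.lintegral_comp
    (meas_gw H)
  rw [← h1, Measure.volume_eq_prod, shear _ _
    (F := fun p => gw H ((MeasurableEquiv.piFinSuccAbove (fun _ : Fin (n + 1) => ℂ) 0).symm p))
    ((meas_gw H).comp (MeasurableEquiv.measurable _))
    (s := fun u : CV n => -(star w ⬝ᵥ u)) (continuous_const.dotProduct continuous_id).neg.measurable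
    (fun c => c • Fin.tail (av H w))]
  have h2 : ∀ (c : ℂ) (u : CV n), (MeasurableEquiv.piFinSuccAbove (fun _ : Fin (n + 1) => ℂ) 0).symm
      (c, u) = Fin.cons c u := fun c u => Fin.insertNth_zero' c u
  simp only [h2, cons_eq hH, gw_split hH]
  simp only [lintegral_const_mul' _ _ ENNReal.ofReal_ne_top]
  rw [lintegral_mul_const _ (by fun_prop), ← ofReal_integral_eq_lintegral_ofReal _
    (Filter.Eventually.of_forall fun _ => (Real.exp_pos _).le),
    GaussianFourier.integral_rexp_neg_mul_sq_norm hq]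
  · simp
  · refine Integrable.of_integral_ne_zero ?_
    rw [GaussianFourier.integral_rexp_neg_mul_sq_norm hq]
    positivity

end fixed

theorem abs_moment {q : ℝ} (hq : 0 < q) :
    ∫⁻ t : ℝ, ENNReal.ofReal (Real.exp (-q⁻¹ * t ^ 2)) * ‖t‖ₑ = ENNReal.ofReal q := by
  have hb := inv_pos.2 hq
  have h1 : ∫ t in Set.Ioi (0 : ℝ), t * Real.exp (-q⁻¹ * t ^ 2) = q / 2 := by
    have := integral_mul_cexp_neg_mul_sq (b := (q⁻¹ : ℝ)) hb
    apply Complex.ofReal_injective
    rw [← integral_complex_ofReal]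
    push_cast at this ⊢
    rw [this]
    field_simp
  have h2 := integral_comp_abs (f := fun t => t * Real.exp (-q⁻¹ * t ^ 2))
  simp only [sq_abs, h1] at h2
  have h3 := (integrable_mul_exp_neg_mul_sq hb).abs
  simp only [abs_mul, Real.abs_exp] at h3
  rw [show q = ∫ t : ℝ, |t| * Real.exp (-q⁻¹ * t ^ 2) by rw [h2]; ring,
    ofReal_integral_eq_lintegral_ofReal h3 (Filter.Eventually.of_forall fun t => by positivity),
    h2, show 2 * (q / 2) = q by ring]
  exact lintegral_congr fun t => by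
    rw [mul_comm |t|, ENNReal.ofReal_mul (Real.exp_pos _).le, Real.enorm_eq_ofReal_abs]

theorem pull_cv (v : CV (n + 1)) : pull (inc n) (io (cv v)) = io (cv0 (Fin.tail v)) := by
  rw [pull_io]
  congr 1
  refine LinearMap.ext fun u => ?_
  change rin v (Fin.cons 0 u) = rin (Fin.tail v) u
  simp [rin, dotProduct, Fin.sum_univ_succ, Fin.tail]

theorem sum_rb (u : CV N) : ∑ i, rin (rb i) u • rb i = u := by
  ext j
  simp [rin, rb, Fintype.sum_prod_type, Finset.sum_apply, Pi.single_apply, dotProduct,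
    apply_ite (starRingEnd ℂ), Complex.ext_iff, apply_ite Complex.re, apply_ite Complex.im]

theorem rb_succ (k : Fin n) (s : Bool) : rb (k.succ, s) = Fin.cons 0 (rb (k, s)) := by
  ext i
  refine Fin.cases ?_ (fun j => ?_) i <;> simp [rb, Pi.single_apply]

theorem tail_rb (s : Bool) : Fin.tail (rb ((0 : Fin (n + 1)), s)) = 0 := by
  ext i
  simp [rb, Fin.tail]

theorem sum_rank_one (β : CV N →ₗ[ℝ] CV N →ₗ[ℝ] ℝ) (a h : CV N) :
    ∑ i, β (rb i) (Complex.I • (star a ⬝ᵥ rb i) • h) = β a (Complex.I • h) - β (Complex.I • a) h := by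
  have e : ∀ v : CV N, Complex.I • (star a ⬝ᵥ v) • h =
      rin v a • Complex.I • h - rin v (Complex.I • a) • h := fun v => by
    rw [rin_comm v, rin_comm v, rin, rin, star_smul, smul_dotProduct]
    generalize star a ⬝ᵥ v = c
    ext j
    simp [Complex.ext_iff]
    ring
  conv_rhs => rw [← sum_rb (Complex.I • a)]; enter [1, 1, 2]; rw [← sum_rb a]
  simp only [e, map_sub, map_smul, map_sum, LinearMap.sum_apply, LinearMap.smul_apply,
    sum_sub_distrib]

end Slot

open Slot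

theorem gw_mass {N : ℕ} (H : HM N) (hH : PD H) : (∫⁻ y, gw H y) ≠ 0 ∧ (∫⁻ y, gw H y) ≠ ⊤ := by
  refine ⟨((lintegral_pos_iff_support (meas_gw H)).2 ?_).ne', ?_⟩
  · rw [show Function.support (gw H) = Set.univ from Set.eq_univ_of_forall fun y =>
      (ENNReal.ofReal_pos.2 (Real.exp_pos _)).ne']
    exact isOpen_univ.measure_pos _ Set.univ_nonempty
  · exact (gauss_lint (bf H⁻¹ LinearMap.id) volume (pd_inv hH).2).trans_ne ENNReal.ofReal_ne_top

theorem slot_sg {n : ℕ} (H : HM (n + 1)) (hH : PD H) (w : CV n)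
    (lam : Ext (Module.Dual ℝ (CV n)) →ₗ[ℝ] ℝ) :
    (∫⁻ y, gw H y) * ‖lam (pull (inc n) (sg H (Fin.cons 1 w)))‖ₑ ≤
      4 * ∫⁻ p : ℝ × CV n, gw H (Fin.cons (⟨-rin p.2 w, p.1⟩ : ℂ) p.2) *
        ‖lam (io (cv0 p.2))‖ₑ := by
  have hq := q_pos hH w
  let l : CV n →ₗ[ℝ] ℝ := lam ∘ₗ ExteriorAlgebra.ι ℝ ∘ₗ cv0
  have hl : ∀ u, lam (io (cv0 u)) = l u := fun _ => rfl
  set L := l (Complex.I • Fin.tail (av H w)) with hL
  have h1 : lam (pull (inc n) (sg H (Fin.cons 1 w))) = L := by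
    rw [sg, pull_cv, hl, hL, av, smul_comm]
    rfl
  have hr : Continuous fun u : CV n => rin u w := continuous_lin (cv0.flip w)
  have hc : Continuous fun p : ℝ × CV n => (Fin.cons (⟨-rin p.2 w, p.1⟩ : ℂ) p.2 : CV (n + 1)) := by
    refine continuous_pi fun i => Fin.cases ?_ (fun j => ?_) i
    · simp only [Fin.cons_zero, Complex.mk_eq_add_mul_I]
      fun_prop
    · simp only [Fin.cons_succ]
      fun_prop
  have hm : Measurable fun u => gw H (yp w u) := (meas_gw H).comp (continuous_lin _).measurable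
  have hlm : Measurable l := (continuous_lin l).measurable
  simp only [hl]
  rw [h1, mass_eq hH w, Measure.volume_eq_prod, shear _ _
    (F := fun p : ℝ × CV n => gw H (Fin.cons (⟨-rin p.2 w, p.1⟩ : ℂ) p.2) * ‖l p.2‖ₑ)
    (((meas_gw H).comp hc.measurable).mul (hlm.comp measurable_snd).enorm)
    (s := fun u : CV n => -(star w ⬝ᵥ u).im)
    (Complex.continuous_im.comp (continuous_const.dotProduct continuous_id)).neg.measurable
    (fun t => ((t : ℂ) * Complex.I) • Fin.tail (av H w))]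
  have h2 : ∀ (t : ℝ) (y : CV n), (⟨-rin y w, t + -(star w ⬝ᵥ y).im⟩ : ℂ) =
      t * Complex.I + -(star w ⬝ᵥ y) := fun t y => by
    rw [rin_comm]
    simp [Complex.ext_iff, rin]
  have h3 : ∀ (t : ℝ) (u : CV n), l (u + ((t : ℂ) * Complex.I) • Fin.tail (av H w)) =
      l u + t * L := fun t u => by
    rw [map_add, mul_smul, Complex.coe_smul, map_smul, smul_eq_mul]
  have h4 : ∀ c : ℝ, (∫⁻ u, gw H (yp w u)) * ‖c‖ₑ ≤ ∫⁻ u, gw H (yp w u) * ‖l u + c‖ₑ := fun c => by
    have m1 : Measurable fun u => gw H (yp w u) * ‖l u + c‖ₑ := hm.mul (hlm.add_const c).enorm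
    have e1 := lintegral_neg_eq_self (μ := volume) fun u => gw H (yp w u) * ‖l u + c‖ₑ
    refine (ENNReal.mul_le_mul_iff_right two_ne_zero ENNReal.ofNat_ne_top).1 ?_
    rw [two_mul (∫⁻ u, gw H (yp w u) * _), ← lintegral_mul_const _ hm,
      ← lintegral_const_mul _ (hm.mul_const _)]
    nth_rw 2 [← e1]
    rw [← lintegral_add_left m1]
    refine lintegral_mono fun u => ?_
    simp only [gw_yp]
    simp only [map_neg, LinearMap.neg_apply, neg_neg]
    rw [← mul_add, mul_left_comm]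
    gcongr
    refine le_trans (le_of_eq ?_) (enorm_add_le _ _)
    rw [show l u + c + (-l u + c) = 2 * c by ring, enorm_mul,
      Real.enorm_eq_ofReal zero_le_two, ENNReal.ofReal_ofNat]
  simp only [h2, h3, cons_eq hH, gw_split hH, mul_assoc,
    lintegral_const_mul' _ _ ENNReal.ofReal_ne_top]
  calc _ ≤ 4 * ((∫⁻ t : ℝ, ENNReal.ofReal (Real.exp (-(qf H (Fin.cons 1 w))⁻¹ * t ^ 2)) * ‖t‖ₑ) *
        ((∫⁻ u, gw H (yp w u)) * ‖L‖ₑ)) := by
        rw [abs_moment hq, ENNReal.ofReal_mul Real.pi_pos.le, mul_assoc]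
        gcongr
        rw [← ENNReal.ofReal_ofNat]
        exact ENNReal.ofReal_le_ofReal Real.pi_le_four
    _ ≤ _ := by
        rw [← lintegral_mul_const _ (by fun_prop)]
        refine mul_le_mul_right (lintegral_mono fun t => ?_) _
        rw [mul_assoc, mul_left_comm ‖t‖ₑ, ← enorm_mul]
        simp only [norm_mul, Complex.norm_real, Complex.norm_I, mul_one, Real.norm_eq_abs, sq_abs]
        exact mul_le_mul_right (h4 _) _

theorem slot_om {n : ℕ} (H : HM (n + 1)) (hH : PD H) (w : CV n)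
    (lam : Ext (Module.Dual ℝ (CV n)) →ₗ[ℝ] ℝ) :
    (∫⁻ y, gw H y) * ‖lam (pull (inc n) (om H (Fin.cons 1 w)))‖ₑ ≤
      7 * ∫⁻ y : CV n, gw H (Fin.cons (-(star w ⬝ᵥ y)) y) *
        ‖lam (io (cv0 y) * io (cv0 (Complex.I • y)))‖ₑ := by
  have hq := q_pos hH w
  set z : CV (n + 1) := Fin.cons 1 w with hz
  let β : CV n →ₗ[ℝ] CV n →ₗ[ℝ] ℝ := ((LinearMap.mul ℝ _).compl₁₂ (ExteriorAlgebra.ι ℝ ∘ₗ cv0)
    (ExteriorAlgebra.ι ℝ ∘ₗ cv0)).compr₂ lam
  have hβ : ∀ u v, lam (io (cv0 u) * io (cv0 v)) = β u v := fun _ _ => rfl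
  have hanti : ∀ u v, β u v = -β v u := fun u v => by rw [← hβ, ← hβ, io_swap, map_neg]
  let J : CV n →ₗ[ℝ] CV n := (Complex.I • LinearMap.id : CV n →ₗ[ℂ] CV n).restrictScalars ℝ
  let b := bf H⁻¹ (yp w)
  have hb := bf_yp_pos (pd_inv hH) w
  let Y : CV n → CV (n + 1) := fun e =>
    H *ᵥ Fin.cons 0 e - (star (Fin.tail (av H w)) ⬝ᵥ e) • H *ᵥ z
  have hdot : ∀ (y : CV (n + 1)) (e : CV n), star y ⬝ᵥ Fin.cons 0 e = star (Fin.tail y) ⬝ᵥ e :=
    fun y e => by simp [dotProduct, Fin.sum_univ_succ, Fin.tail]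
  have hY : ∀ e, yp w (Fin.tail (Y e)) = Y e := fun e => eq_yp (by
    rw [dotProduct_sub, dotProduct_smul, dot_q hH, ← hdot, av, star_smul, smul_dotProduct,
      herm hH.1, star_trivial (qf _ _)⁻¹, ← hz, smul_eq_mul, Complex.real_smul, mul_right_comm,
      ← Complex.ofReal_mul, inv_mul_cancel₀ hq.ne', Complex.ofReal_one, one_mul, sub_self])
  have hbY : ∀ e u, b (Fin.tail (Y e)) u = rin e u := fun e u => by
    rw [bf_apply, hY, rin, ← herm (pd_inv hH).1, Matrix.mulVec_sub, Matrix.mulVec_smul,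
      (mul_inv hH _).2, (mul_inv hH _).2, star_sub, star_smul, sub_dotProduct, smul_dotProduct,
      dot_yp, smul_zero, sub_zero]
    simp [rin, dotProduct, Fin.sum_univ_succ, yp_apply]
  have h1 : qf H z * lam (pull (inc n) (om H z)) =
      ∑ i, β (rb i) (J (Fin.tail (Y (rb i)))) := by
    have e1 : ∀ e, J (Fin.tail (Y e)) = Fin.tail (Complex.I • H *ᵥ Fin.cons 0 e) -
        Complex.I • (star (Fin.tail (av H w)) ⬝ᵥ e) • Fin.tail (H *ᵥ z) := fun e =>
      funext fun j => mul_sub _ _ _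
    have e2 : Fin.tail (H *ᵥ z) = qf H z • Fin.tail (av H w) := by
      rw [av, ← hz]
      exact (smul_inv_smul₀ hq.ne' _).symm
    have e3 : Fin.tail ((2 * (qf H z)⁻¹) • H *ᵥ z) = (2 : ℝ) • Fin.tail (av H w) := by
      rw [mul_smul]; rfl
    have e4 : Fin.tail ((qf H z)⁻¹ • Complex.I • H *ᵥ z) = Complex.I • Fin.tail (av H w) := by
      rw [smul_comm]; rfl
    let Λ := lam ∘ₗ (pull (inc n)).toLinearMap
    have e5 : ∀ u v, Λ (io (cv u) * io (cv v)) = β (Fin.tail u) (Fin.tail v) := fun u v => by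
      rw [← hβ, ← pull_cv, ← pull_cv, ← map_mul (pull (inc n))]
      rfl
    change _ * Λ _ = _
    rw [om, vp, da, sg, map_sub, map_smul, map_sum, e5, e3, e4]
    simp only [e1, e5, map_sub, sum_sub_distrib, sum_rank_one]
    simp only [map_smul, smul_eq_mul, e2,
      smul_comm Complex.I (qf H z), LinearMap.smul_apply, Fintype.sum_prod_type, Fin.sum_univ_succ,
      tail_rb, rb_succ, Fin.tail_cons, map_zero, LinearMap.zero_apply, sum_const_zero, zero_add]
    rw [hanti (Complex.I • _), mul_sub, mul_inv_cancel_left₀ hq.ne']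
    ring
  have h2 : 2 * ∫ u, Real.exp (-b u u) * β u (J u) =
      qf H z * lam (pull (inc n) (om H z)) * ∫ u, Real.exp (-b u u) := by
    have e1 : ∀ u, Real.exp (-b u u) * β u (J u) =
        ∑ i, Real.exp (-b u u) * (b (Fin.tail (Y (rb i))) u * (β (rb i) ∘ₗ J) u) := fun u => by
      rw [← mul_sum]
      conv_lhs => enter [2, 1, 2]; rw [← sum_rb u]
      simp only [hbY, map_sum, map_smul, LinearMap.sum_apply, LinearMap.smul_apply, smul_eq_mul,
        LinearMap.comp_apply]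
    simp only [e1]
    rw [integral_finsetSum _ fun i _ => gauss_int2 b _ hb _ _, mul_sum, h1, sum_mul]
    exact sum_congr rfl fun i _ => gauss_cov b _ hb (bf_symm (pd_inv hH) _) _ _
  rw [mass_eq hH w]
  simp only [← yp_apply, gw_yp, hβ]
  rw [gauss_lint _ _ hb, ← ENNReal.ofReal_mul (by positivity), Real.enorm_eq_ofReal_abs,
    ← ENNReal.ofReal_mul (mul_nonneg (by positivity)
      (integral_nonneg fun _ => (Real.exp_pos _).le))]
  calc _ ≤ 7 * ‖∫ u, Real.exp (-b u u) * β u (J u)‖ₑ := by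
        rw [Real.enorm_eq_ofReal_abs, ← ENNReal.ofReal_ofNat, ← ENNReal.ofReal_mul (by norm_num)]
        refine ENNReal.ofReal_le_ofReal ?_
        have h3 := congrArg abs h2
        rw [abs_mul, abs_mul, abs_mul, abs_two, abs_of_pos hq,
          abs_of_nonneg (show 0 ≤ ∫ u, Real.exp (-b u u) from
            integral_nonneg fun _ => (Real.exp_pos _).le)] at h3
        nlinarith [Real.pi_lt_d2, abs_nonneg (∫ u, Real.exp (-b u u) * β u (J u))]
    _ ≤ _ := by
        gcongr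
        refine (enorm_integral_le_lintegral_enorm _).trans (lintegral_mono fun u => le_of_eq ?_)
        rw [enorm_mul, Real.enorm_eq_ofReal (Real.exp_pos _).le]
        rfl

end Pool.Agent.Lib.MP_cdc9ab_al
end

-- part Pool.Agent.Lib.MP_cdc9ab_al.Key
section

/-! The key bound: uniform estimates for the densities on the affine chart. -/

open scoped ENNReal Matrix
open Finset MeasureTheory

namespace Pool.Agent.Lib.MP_cdc9ab_al
namespace Key

theorem rin_comm {N : ℕ} (u v : CV N) : rin u v = rin v u := by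
  rw [rin, rin, Matrix.star_dotProduct, RCLike.star_def, Complex.conj_re]

theorem cv0_apply {N : ℕ} (u v : CV N) : cv0 u v = rin u v := rfl

/-- The bilinear form of a matrix. -/
noncomputable def qb {N : ℕ} (H : HM N) : CV N →ₗ[ℝ] CV N →ₗ[ℝ] ℝ :=
  cv0.compl₂ ((Matrix.mulVecLin H).restrictScalars ℝ)

theorem qb_apply {N : ℕ} (H : HM N) (z : CV N) : qb H z z = qf H z := rfl

theorem inv_pos {N : ℕ} {H : HM N} (hH : H ∈ HP N) {y : CV N} (hy : y ≠ 0) : 0 < qf H⁻¹ y := by
  have hu : IsUnit H := by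
    rw [← Matrix.mulVec_injective_iff_isUnit]
    intro v w hvw
    by_contra hne
    have := hH (v - w) (sub_ne_zero.mpr hne)
    rw [qf, Matrix.mulVec_sub, hvw, sub_self] at this
    simp [rin] at this
  have hd := (Matrix.isUnit_iff_isUnit_det H).mp hu
  have h1 : H *ᵥ (H⁻¹ *ᵥ y) = y := by
    rw [Matrix.mulVec_mulVec, Matrix.mul_nonsing_inv _ hd, Matrix.one_mulVec]
  have h2 : H⁻¹ *ᵥ y ≠ 0 := fun h => hy (by rw [← h1, h, Matrix.mulVec_zero])
  have := hH _ h2
  rwa [qf, h1, rin_comm] at this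

theorem inv_nonneg {N : ℕ} {H : HM N} (hH : H ∈ HP N) (y : CV N) : 0 ≤ qf H⁻¹ y := by
  by_cases hy : y = 0
  · simp [hy, qf, rin]
  · exact (inv_pos hH hy).le

theorem qf_nonneg {N : ℕ} {H : HM N} (hH : H ∈ HP N) (y : CV N) : 0 ≤ qf H y := by
  by_cases hy : y = 0
  · simp [hy, qf, rin]
  · exact (hH y hy).le

theorem continuous_qf {N : ℕ} (H : HM N) : Continuous (qf H) :=
  continuous_quad (qb H) (v := id) fun φ => LinearMap.continuous_of_finiteDimensional φ

theorem measurable_gw {N : ℕ} (H : HM N) : Measurable (gw H) :=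
  ENNReal.measurable_ofReal.comp (Real.continuous_exp.comp (continuous_qf _).neg).measurable

/-- The space of the scalar parameters. -/
abbrev Sig (k m : ℕ) : Type := (Fin (2 * k) → ℝ) × (Fin m → ℂ)

/-- The space of the free parameters. -/
abbrev FF (k m n : ℕ) : Type := (Fin (2 * k) → ℝ × CV n) × (Fin m → CV n)

/-- The space of all Gaussian vectors. -/
abbrev YY (k m n : ℕ) : Type := (Fin (2 * k) → CV (n + 1)) × (Fin m → CV (n + 1))

variable {k m n : ℕ}

instance borel1 : BorelSpace (ℝ × CV n) := Prod.borelSpace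

instance borel2 {p : ℕ} : BorelSpace (Fin p → ℝ × CV n) := Pi.borelSpace

instance borel3 {p : ℕ} : BorelSpace (Fin p → CV n) := Pi.borelSpace

instance borel4 : BorelSpace (FF k m n) := Prod.borelSpace

instance borel5 : BorelSpace (FF k m n × CV n) := Prod.borelSpace

instance borel6 : BorelSpace (CV n × FF k m n) := Prod.borelSpace

instance borel7 : BorelSpace (YY k m n) := Prod.borelSpace

instance haar0 : (volume : Measure (CV n)).IsAddHaarMeasure := Measure.pi.isAddHaarMeasure _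

instance haar1 : (volume : Measure (ℝ × CV n)).IsAddHaarMeasure :=
  Measure.prod.instIsAddHaarMeasure _ _

instance haar2 {p : ℕ} : (volume : Measure (Fin p → ℝ × CV n)).IsAddHaarMeasure :=
  Measure.pi.isAddHaarMeasure _

instance haar3 {p : ℕ} : (volume : Measure (Fin p → CV n)).IsAddHaarMeasure :=
  Measure.pi.isAddHaarMeasure _

instance haar4 : (volume : Measure (FF k m n)).IsAddHaarMeasure :=
  Measure.prod.instIsAddHaarMeasure _ _

instance haar5 : (volume : Measure (FF k m n × CV n)).IsAddHaarMeasure :=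
  Measure.prod.instIsAddHaarMeasure _ _

instance haar6 : (volume : Measure (YY k m n)).IsAddHaarMeasure :=
  Measure.prod.instIsAddHaarMeasure _ _

/-- The scalar parameters as a bilinear function. -/
noncomputable def BS : FF k m n →ₗ[ℝ] CV n →ₗ[ℝ] Sig k m :=
  LinearMap.mk₂ ℝ (fun f w => (fun j => rin (f.1 j).2 w, fun l => star w ⬝ᵥ f.2 l))
    (fun _ _ _ => by ext <;> simp [rin]) (fun _ _ _ => by ext <;> simp [rin])
    (fun _ _ _ => by ext <;> simp [rin]) (fun _ _ _ => by ext <;> simp [rin])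

variable (e : Sig k m ≃ₗ[ℝ] CV n)

/-- The endomorphism defined by the free parameters. -/
noncomputable def Bm : FF k m n →ₗ[ℝ] CV n →ₗ[ℝ] CV n := BS.compr₂ e.toLinearMap

theorem symm_Bm (f : FF k m n) (w : CV n) :
    e.symm (Bm e f w) = (fun j => rin (f.1 j).2 w, fun l => star w ⬝ᵥ f.2 l) :=
  e.symm_apply_apply _

/-- The Gaussian vectors as functions of all the parameters. -/
noncomputable def PhiL : (FF k m n × CV n) →ₗ[ℝ] YY k m n where
  toFun x := (fun j => Fin.cons (⟨-(e.symm x.2).1 j, (x.1.1 j).1⟩ : ℂ) (x.1.1 j).2,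
    fun l => Fin.cons (-(e.symm x.2).2 l) (x.1.2 l))
  map_add' x y := by
    ext j i <;> refine Fin.cases ?_ (fun i => ?_) i <;> simp [Complex.ext_iff, add_comm]
  map_smul' c x := by
    ext j i <;> refine Fin.cases ?_ (fun i => ?_) i <;> simp [Complex.ext_iff]

theorem PhiL_bij : Function.Bijective (PhiL e) := by
  constructor
  · rw [injective_iff_map_eq_zero]
    rintro ⟨⟨f1, f2⟩, s⟩ h
    have h1 := fun j i => congrFun (congrFun (congrArg Prod.fst h) j) i
    have h2 := fun j i => congrFun (congrFun (congrArg Prod.snd h) j) i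
    have hs : e.symm s = 0 := by
      ext j
      · simpa [PhiL, Complex.ext_iff] using congrArg Complex.re (h1 j 0)
      · simpa [PhiL] using h2 j 0
    have hs' : s = 0 := by simpa using hs
    subst hs'
    ext j i
    · simpa [PhiL] using congrArg Complex.im (h1 j 0)
    · simpa [PhiL] using h1 j i.succ
    · simpa [PhiL] using h2 j i.succ
    · rfl
  · rintro ⟨y1, y2⟩
    refine ⟨((fun j => ((y1 j 0).im, Fin.tail (y1 j)), fun l => Fin.tail (y2 l)),
      e (fun j => -(y1 j 0).re, fun l => -y2 l 0)), ?_⟩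
    simp [PhiL]

/-- The linear equivalence between parameters and Gaussian vectors. -/
noncomputable def Phi : (FF k m n × CV n) ≃L[ℝ] YY k m n :=
  (LinearEquiv.ofBijective (PhiL e) (PhiL_bij e)).toContinuousLinearEquiv

theorem Phi_apply (x) : Phi e x = PhiL e x := rfl

variable (G : Fin (2 * k) → HM (n + 1)) (G' : Fin m → HM (n + 1))

/-- The joint quadratic form. -/
noncomputable def qY : YY k m n →ₗ[ℝ] YY k m n →ₗ[ℝ] ℝ :=
  ∑ j, (qb (G j)⁻¹).compl₁₂ (LinearMap.proj j ∘ₗ LinearMap.fst ℝ _ _)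
      (LinearMap.proj j ∘ₗ LinearMap.fst ℝ _ _) +
    ∑ l, (qb (G' l)⁻¹).compl₁₂ (LinearMap.proj l ∘ₗ LinearMap.snd ℝ _ _)
      (LinearMap.proj l ∘ₗ LinearMap.snd ℝ _ _)

theorem qY_apply (y : YY k m n) :
    qY G G' y y = ∑ j, qf (G j)⁻¹ (y.1 j) + ∑ l, qf (G' l)⁻¹ (y.2 l) := by
  simp [qY, LinearMap.sum_apply, qb_apply]

variable {G G'} in
theorem qY_pos (hG : ∀ j, PD (G j)) (hG' : ∀ l, PD (G' l)) (y : YY k m n) (hy : y ≠ 0) :
    0 < qY G G' y y := by
  rw [qY_apply]
  have h1 : ∀ j ∈ univ, 0 ≤ qf (G j)⁻¹ (y.1 j) := fun j _ => inv_nonneg (hG j).2 _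
  have h2 : ∀ l ∈ univ, 0 ≤ qf (G' l)⁻¹ (y.2 l) := fun l _ => inv_nonneg (hG' l).2 _
  by_cases h : y.1 = 0
  · have h' : y.2 ≠ 0 := fun h' => hy (Prod.ext h h')
    obtain ⟨l, hl⟩ := Function.ne_iff.mp h'
    exact add_pos_of_nonneg_of_pos (Finset.sum_nonneg h1)
      (Finset.sum_pos' h2 ⟨l, mem_univ _, inv_pos (hG' l).2 hl⟩)
  · obtain ⟨j, hj⟩ := Function.ne_iff.mp h
    exact add_pos_of_pos_of_nonneg (Finset.sum_pos' h1 ⟨j, mem_univ _, inv_pos (hG j).2 hj⟩)
      (Finset.sum_nonneg h2)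

theorem weight_eq (y : YY k m n) : ENNReal.ofReal (Real.exp (-qY G G' y y)) =
    (∏ j, gw (G j) (y.1 j)) * ∏ l, gw (G' l) (y.2 l) := by
  rw [qY_apply, neg_add, Real.exp_add, ENNReal.ofReal_mul (Real.exp_pos _).le,
    ← Finset.sum_neg_distrib, ← Finset.sum_neg_distrib, Real.exp_sum, Real.exp_sum,
    ENNReal.ofReal_prod_of_nonneg fun _ _ => (Real.exp_pos _).le,
    ENNReal.ofReal_prod_of_nonneg fun _ _ => (Real.exp_pos _).le]
  rfl

/-- The joint quadratic form on the parameter space. -/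
noncomputable def qE : (FF k m n × CV n) →ₗ[ℝ] (FF k m n × CV n) →ₗ[ℝ] ℝ :=
  (qY G G').compl₁₂ (PhiL e) (PhiL e)

/-- The joint weight. -/
noncomputable def WE (x : FF k m n × CV n) : ℝ≥0∞ := ENNReal.ofReal (Real.exp (-qE e G G' x x))

theorem measurable_WE : Measurable (WE e G G') :=
  ENNReal.measurable_ofReal.comp (Real.continuous_exp.comp
    (continuous_quad (qE e G G') (v := id)
      fun φ => LinearMap.continuous_of_finiteDimensional φ).neg).measurable

/-- The product of the masses. -/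
noncomputable def ZZ : ℝ≥0∞ := (∏ j, ∫⁻ y, gw (G j) y) * ∏ l, ∫⁻ y, gw (G' l) y

theorem mass : ∃ c : ℝ≥0∞, c ≠ ⊤ ∧ ∀ (G : Fin (2 * k) → HM (n + 1)) (G' : Fin m → HM (n + 1)),
    ∫⁻ x, WE e G G' x = c * ZZ G G' := by
  obtain ⟨c, h⟩ : ∃ c : NNReal, (volume : Measure (FF k m n × CV n)).map (Phi e) =
      c • (volume : Measure (YY k m n)) := ⟨_, Measure.isAddLeftInvariant_eq_smul _ _⟩
  refine ⟨c, ENNReal.coe_ne_top, fun G G' => ?_⟩
  have m1 : Measurable fun y : Fin (2 * k) → CV (n + 1) => ∏ j, gw (G j) (y j) :=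
    Finset.measurable_prod _ fun j _ => (measurable_gw _).comp (measurable_pi_apply j)
  have m2 : Measurable fun y : Fin m → CV (n + 1) => ∏ j, gw (G' j) (y j) :=
    Finset.measurable_prod _ fun j _ => (measurable_gw _).comp (measurable_pi_apply j)
  have m3 : Measurable fun y : YY k m n => (∏ j, gw (G j) (y.1 j)) * ∏ l, gw (G' l) (y.2 l) :=
    (m1.comp measurable_fst).mul (m2.comp measurable_snd)
  have h1 : ∫⁻ x, WE e G G' x = ∫⁻ y : YY k m n, (∏ j, gw (G j) (y.1 j)) * ∏ l, gw (G' l) (y.2 l)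
      ∂((volume : Measure (FF k m n × CV n)).map (Phi e)) := by
    rw [lintegral_map m3 (Phi e).continuous.measurable]
    exact lintegral_congr fun x => weight_eq G G' (PhiL e x)
  have h2 : ∫⁻ y : YY k m n, (∏ j, gw (G j) (y.1 j)) * ∏ l, gw (G' l) (y.2 l) = ZZ G G' := by
    refine (lintegral_prod_mul m1.aemeasurable m2.aemeasurable).trans ?_
    exact congrArg₂ (· * ·) (lintegral_pi_prod volume fun j => measurable_gw _)
      (lintegral_pi_prod volume fun j => measurable_gw _)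
  rw [h1, h, lintegral_smul_measure, h2]
  rfl

variable {G G'} in
theorem ZZ_ne (hG : ∀ j, PD (G j)) (hG' : ∀ l, PD (G' l)) : ZZ G G' ≠ 0 ∧ ZZ G G' ≠ ⊤ :=
  ⟨mul_ne_zero (Finset.prod_ne_zero_iff.mpr fun j _ => (gw_mass _ (hG j)).1)
      (Finset.prod_ne_zero_iff.mpr fun j _ => (gw_mass _ (hG' j)).1),
    ENNReal.mul_ne_top (ENNReal.prod_ne_top fun j _ => (gw_mass _ (hG j)).2)
      (ENNReal.prod_ne_top fun j _ => (gw_mass _ (hG' j)).2)⟩

/-- The reference top form. -/
noncomputable def vol0 : Ext (Module.Dual ℝ (CV n)) :=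
  (List.ofFn fun j : Fin (2 * k) =>
      io (LinearMap.proj j ∘ₗ LinearMap.fst ℝ _ _ ∘ₗ e.symm.toLinearMap)).prod *
    (List.ofFn fun l : Fin m =>
      io (Complex.reLm ∘ₗ LinearMap.proj l ∘ₗ LinearMap.snd ℝ _ _ ∘ₗ e.symm.toLinearMap) *
      io (-Complex.imLm ∘ₗ LinearMap.proj l ∘ₗ LinearMap.snd ℝ _ _ ∘ₗ e.symm.toLinearMap)).prod

theorem pull_vol0 (f : FF k m n) : pull (Bm e f) (vol0 e) =
    (List.ofFn fun j => io (cv0 (f.1 j).2)).prod *
      (List.ofFn fun l => io (cv0 (f.2 l)) * io (cv0 (Complex.I • f.2 l))).prod := by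
  rw [vol0, map_mul, map_list_prod, map_list_prod, List.map_ofFn, List.map_ofFn]
  congr 3
  · funext j
    rw [Function.comp_apply, pull_io]
    congr 1
    refine LinearMap.ext fun w => ?_
    simp [symm_Bm, cv0_apply]
  · funext l
    rw [Function.comp_apply, map_mul, pull_io, pull_io]
    congr 2
    · refine LinearMap.ext fun w => ?_
      rw [cv0_apply, rin_comm]
      simp [symm_Bm, rin]
    · refine LinearMap.ext fun w => ?_
      rw [cv0_apply, rin_comm]
      simp [symm_Bm, rin]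

variable {G G'} in
theorem pointwise {τ : Ext (Module.Dual ℝ (CV n)) →ₗ[ℝ] ℝ} (hτ : TopLike τ)
    (hG : ∀ j, PD (G j)) (hG' : ∀ l, PD (G' l)) (w : CV n) :
    ZZ G G' * ‖chD τ G G' w‖ₑ ≤ 4 ^ (2 * k) * 7 ^ m * ‖τ (vol0 e)‖ₑ *
      ∫⁻ f, WE e G G' (f, Bm e f w) * ‖LinearMap.det (Bm e f)‖ₑ := by
  have c1 : Continuous fun p : ℝ × CV n => (Fin.cons (⟨-rin p.2 w, p.1⟩ : ℂ) p.2 : CV (n + 1)) := by
    refine Continuous.finCons ?_ continuous_snd
    have : (fun p : ℝ × CV n => (⟨-rin p.2 w, p.1⟩ : ℂ)) =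
        fun p => ((-(cv0.flip w p.2) : ℝ) : ℂ) + (p.1 : ℂ) * Complex.I := by
      funext p
      apply Complex.ext <;> simp [cv0_apply]
    rw [this]
    have := LinearMap.continuous_of_finiteDimensional (cv0.flip w)
    fun_prop
  have c2 : Continuous fun y : CV n => (Fin.cons (-(star w ⬝ᵥ y)) y : CV (n + 1)) := by
    refine Continuous.finCons ?_ continuous_id
    fun_prop
  have w1 : WM fun p : ℝ × CV n => io (cv0 p.2) := WM.io fun φ =>
    (LinearMap.continuous_of_finiteDimensional (φ ∘ₗ cv0 ∘ₗ LinearMap.snd ℝ ℝ (CV n))).measurable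
  have w2 : WM fun y : CV n => io (cv0 y) * io (cv0 (Complex.I • y)) := by
    refine (WM.io fun φ => (LinearMap.continuous_of_finiteDimensional (φ ∘ₗ cv0)).measurable).mul
      (WM.io fun φ => ?_)
    exact ((LinearMap.continuous_of_finiteDimensional (φ ∘ₗ cv0)).comp
      (continuous_const_smul Complex.I)).measurable
  have m1 := fun j => (measurable_gw (G j)).comp c1.measurable
  have m2 := fun l => (measurable_gw (G' l)).comp c2.measurable
  have h1 := Dom.pi (volume : Measure (ℝ × CV n)) (c := 4) (by simp)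
    (fun j lam => slot_sg (G j) (hG j) w lam) m1 w1
  have h2 := Dom.pi (volume : Measure (CV n)) (c := 7) (by simp)
    (fun l lam => slot_om (G' l) (hG' l) w lam) m2 w2
  have h3 := (h1.mul h2 (ENNReal.pow_ne_top (by simp))
    (Finset.measurable_prod _ fun j _ => (m1 j).comp (measurable_pi_apply j))
    (Finset.measurable_prod _ fun j _ => (m2 j).comp (measurable_pi_apply j))
    (WM.prod fun j => w1.comp (measurable_pi_apply j))
    (WM.prod fun j => w2.comp (measurable_pi_apply j))) τ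
  have h4 : chD τ G G' w = τ ((List.ofFn fun j => pull (inc n) (sg (G j) (Fin.cons 1 w))).prod *
      (List.ofFn fun l => pull (inc n) (om (G' l) (Fin.cons 1 w))).prod) := by
    rw [chD, map_mul, map_list_prod, map_list_prod, List.map_ofFn, List.map_ofFn]
    rfl
  rw [h4]
  refine h3.trans (le_of_eq ?_)
  rw [mul_assoc, mul_assoc, mul_assoc, ← lintegral_const_mul' _ _ enorm_ne_top]
  congr 2
  refine lintegral_congr fun f => ?_
  beta_reduce
  rw [← pull_vol0 e f, hτ.pull, enorm_mul, WE, qE, LinearMap.compl₁₂_apply, weight_eq]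
  simp only [PhiL, LinearMap.coe_mk, AddHom.coe_mk, symm_Bm]
  ring

variable {G G'} in
theorem main {τ : Ext (Module.Dual ℝ (CV n)) →ₗ[ℝ] ℝ} (hτ : TopLike τ)
    (hG : ∀ j, PD (G j)) (hG' : ∀ l, PD (G' l)) (φ : CV n → ℝ≥0∞)
    {ψ : FF k m n × CV n → ℝ≥0∞} (hψ : Measurable ψ)
    (h : ∀ f w, LinearMap.det (Bm e f) ≠ 0 → φ w ≤ ψ (f, Bm e f w)) :
    ZZ G G' * ∫⁻ w, φ w * ‖chD τ G G' w‖ₑ ≤ 4 ^ (2 * k) * 7 ^ m * ‖τ (vol0 e)‖ₑ *
      ∫⁻ x, ψ x * WE e G G' x := by
  set c : ℝ≥0∞ := 4 ^ (2 * k) * 7 ^ m * ‖τ (vol0 e)‖ₑ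
  have hc : c ≠ ⊤ := ENNReal.mul_ne_top (ENNReal.mul_ne_top (ENNReal.pow_ne_top (by simp))
    (ENNReal.pow_ne_top (by simp))) enorm_ne_top
  have h1 := cov (volume : Measure (FF k m n)) (volume : Measure (CV n)) (fun f => Bm e f)
    (continuous_bil (Bm e)).measurable (continuous_det (Bm e)).measurable
    (hψ.mul (measurable_WE e G G'))
  calc _ ≤ ∫⁻ w, ZZ G G' * (φ w * ‖chD τ G G' w‖ₑ) := lintegral_const_mul_le _ _
    _ ≤ ∫⁻ w, c * ∫⁻ f, ψ (f, Bm e f w) * WE e G G' (f, Bm e f w) *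
          ‖LinearMap.det (Bm e f)‖ₑ := by
        refine lintegral_mono fun w => ?_
        calc _ = φ w * (ZZ G G' * ‖chD τ G G' w‖ₑ) := by ring
          _ ≤ φ w * (c * ∫⁻ f, WE e G G' (f, Bm e f w) * ‖LinearMap.det (Bm e f)‖ₑ) := by
              gcongr φ w * ?_; exact pointwise e hτ hG hG' w
          _ = c * (φ w * ∫⁻ f, WE e G G' (f, Bm e f w) * ‖LinearMap.det (Bm e f)‖ₑ) := by ring
          _ ≤ c * ∫⁻ f, φ w * (WE e G G' (f, Bm e f w) * ‖LinearMap.det (Bm e f)‖ₑ) := by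
              gcongr; exact lintegral_const_mul_le _ _
          _ ≤ _ := by
              gcongr c * ?_
              refine lintegral_mono fun f => ?_
              by_cases hd : LinearMap.det (Bm e f) = 0
              · simp [hd]
              · rw [← mul_assoc]
                gcongr
                exact h f w hd
    _ ≤ _ := by
        rw [lintegral_const_mul' _ _ hc]
        gcongr
        exact h1

/-- Adding a real first coordinate. -/
noncomputable def consL : ℝ × CV n →ₗ[ℝ] CV (n + 1) where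
  toFun p := Fin.cons (p.1 : ℂ) p.2
  map_add' x y := by ext i; refine Fin.cases ?_ (fun i => ?_) i <;> simp
  map_smul' c x := by ext i; refine Fin.cases ?_ (fun i => ?_) i <;> simp

/-- The homogeneous coordinates of the solution of the linear system. -/
noncomputable def sol (x : FF k m n × CV n) : CV (n + 1) :=
  consL (LinearMap.det (Bm e x.1), adjL (Bm e x.1) x.2)

theorem lin_sol (φ : CV (n + 1) →ₗ[ℝ] ℝ) (x : FF k m n × CV n) : φ (sol e x) =
    LinearMap.det (Bm e x.1) * φ (consL (1, 0)) +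
      (φ ∘ₗ consL ∘ₗ LinearMap.inr ℝ ℝ (CV n)) (adjL (Bm e x.1) x.2) := by
  have h : ∀ (a : ℝ) (u : CV n), (a, u) = a • ((1, 0) : ℝ × CV n) + LinearMap.inr ℝ ℝ (CV n) u := by
    intro a u; simp
  rw [sol, h, map_add, map_add, map_smul, map_smul]
  rfl

theorem sol_eq (f : FF k m n) (w : CV n) :
    sol e (f, Bm e f w) = LinearMap.det (Bm e f) • (Fin.cons 1 w : CV (n + 1)) := by
  rw [sol, adjL_apply]
  ext i
  refine Fin.cases ?_ (fun i => ?_) i <;> simp [consL]

theorem continuous_P (H : HM (n + 1)) : Continuous fun x => qf H (sol e x) := by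
  refine continuous_quad (qb H) fun φ => ?_
  simp only [lin_sol]
  exact (((continuous_det (Bm e)).comp continuous_fst).mul continuous_const).add
    (continuous_adj (Bm e) _)

theorem poly_P (H : HM (n + 1)) :
    PolyFn (Module.finrank ℝ (CV n) + 1 + (Module.finrank ℝ (CV n) + 1))
      fun x => qf H (sol e x) := by
  refine poly_quad (qb H) fun φ => ?_
  simp only [lin_sol]
  exact ((poly_det (Bm e)).mul (PolyFn.const _)).add (poly_adj (Bm e) _)

theorem log_P {H : HM (n + 1)} (hH : PD H) {f : FF k m n} (hd : LinearMap.det (Bm e f) ≠ 0)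
    (w : CV n) : Real.log (qf H (sol e (f, Bm e f w))) =
      2 * Real.log (LinearMap.det (Bm e f)) + Real.log (qf H (Fin.cons 1 w)) := by
  have h1 : (Fin.cons 1 w : CV (n + 1)) ≠ 0 := fun h => by simpa using congrFun h 0
  have h2 := (hH.2 _ h1).ne'
  rw [sol_eq, ← qb_apply, map_smul, LinearMap.map_smul₂, qb_apply, smul_eq_mul, smul_eq_mul,
    Real.log_mul hd (mul_ne_zero hd h2), Real.log_mul hd h2]
  ring

theorem cancel {Z I C : ℝ≥0∞} (hZ : Z ≠ 0 ∧ Z ≠ ⊤) (h : Z * I ≤ C * Z) : I ≤ C := by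
  rw [mul_comm C] at h
  exact (ENNReal.mul_le_mul_iff_right hZ.1 hZ.2).mp h

theorem _root_.Pool.Agent.Lib.MP_cdc9ab_al.key_bound (k m n : ℕ) (hn : k + m = n) (τ : Ext (Module.Dual ℝ (CV n)) →ₗ[ℝ] ℝ)
    (hτ : TopLike τ) :
    ∃ C : ℝ≥0∞, C ≠ ⊤ ∧ ∀ (G : Fin (2 * k) → HM (n + 1)) (G' : Fin m → HM (n + 1))
      (Ha Hb : HM (n + 1)), (∀ j, PD (G j)) → (∀ l, PD (G' l)) → PD Ha → PD Hb →
      (∫⁻ w, ‖chD τ G G' w‖ₑ ≤ C) ∧ ∃ κ : ℝ,
        ∫⁻ w, ‖(Real.log (qf Ha (Fin.cons 1 w)) - Real.log (qf Hb (Fin.cons 1 w)) - κ) *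
          chD τ G G' w‖ₑ ≤ C := by
  have hdim : Module.finrank ℝ (Sig k m) = Module.finrank ℝ (CV n) := by
    simp [Module.finrank_prod, Module.finrank_pi_fintype, ← hn]
    ring
  let e : Sig k m ≃ₗ[ℝ] CV n := LinearEquiv.ofFinrankEq _ _ hdim
  obtain ⟨c1, hc1, hmass⟩ := mass e
  obtain ⟨c2, hc2, hmah⟩ := mahler (FF k m n × CV n) volume
    (Module.finrank ℝ (CV n) + 1 + (Module.finrank ℝ (CV n) + 1))
  set c : ℝ≥0∞ := 4 ^ (2 * k) * 7 ^ m * ‖τ (vol0 e)‖ₑ with hcdef
  have hc : c ≠ ⊤ := ENNReal.mul_ne_top (ENNReal.mul_ne_top (ENNReal.pow_ne_top (by simp))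
    (ENNReal.pow_ne_top (by simp))) enorm_ne_top
  refine ⟨c * c1 * (1 + (c2 + c2)), ENNReal.mul_ne_top (ENNReal.mul_ne_top hc hc1)
    (by simp [hc2]), fun G G' Ha Hb hG hG' hHa hHb => ⟨?_, ?_⟩⟩
  · have h := main e hτ hG hG' (fun _ => 1) (ψ := fun _ => 1) measurable_const fun _ _ _ => le_rfl
    simp only [one_mul] at h
    rw [hmass, ← hcdef, ← mul_assoc] at h
    exact (cancel (ZZ_ne hG hG') h).trans (le_mul_of_one_le_right' le_self_add)
  · have hpos : ∀ x, x ≠ 0 → 0 < qE e G G' x x := fun x hx =>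
      qY_pos hG hG' _ fun h => hx ((injective_iff_map_eq_zero _).mp (PhiL_bij e).1 x h)
    obtain ⟨κa, ha⟩ := hmah (qE e G G') hpos _ (continuous_P e Ha)
      (fun x => qf_nonneg hHa.2 _) (poly_P e Ha)
    obtain ⟨κb, hb⟩ := hmah (qE e G G') hpos _ (continuous_P e Hb)
      (fun x => qf_nonneg hHb.2 _) (poly_P e Hb)
    refine ⟨κa - κb, ?_⟩
    have mm : ∀ (H : HM (n + 1)) (κ : ℝ), Measurable fun x => ‖Real.log (qf H (sol e x)) - κ‖ₑ :=
      fun H κ => ((Real.measurable_log.comp (continuous_P e H).measurable).sub_const κ).enorm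
    have h := main e hτ hG hG'
      (fun w => ‖Real.log (qf Ha (Fin.cons 1 w)) - Real.log (qf Hb (Fin.cons 1 w)) - (κa - κb)‖ₑ)
      ((mm Ha κa).add (mm Hb κb)) fun f w hd => by
        simp only [Pi.add_apply]
        rw [log_P e hHa hd, log_P e hHb hd]
        refine le_trans (le_of_eq ?_) enorm_sub_le
        congr 1
        ring
    simp only [Pi.add_apply, add_mul] at h
    have mw : Measurable fun x => ‖Real.log (qf Ha (sol e x)) - κa‖ₑ * WE e G G' x :=
      (mm Ha κa).mul (measurable_WE e G G')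
    rw [lintegral_add_left mw, ← hcdef] at h
    simp only [enorm_mul]
    refine cancel (ZZ_ne hG hG') (h.trans ?_)
    have ha' : _ ≤ c2 * (c1 * ZZ G G') := ha.trans (le_of_eq (congrArg _ (hmass G G')))
    have hb' : _ ≤ c2 * (c1 * ZZ G G') := hb.trans (le_of_eq (congrArg _ (hmass G G')))
    calc _ ≤ c * (c2 * (c1 * ZZ G G') + c2 * (c1 * ZZ G G')) := by
          gcongr
          · exact ha'
          · exact hb'
      _ = c * c1 * (c2 + c2) * ZZ G G' := by ring
      _ ≤ c * c1 * (1 + (c2 + c2)) * ZZ G G' := by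
          gcongr c * c1 * ?_ * _
          exact le_add_self

end Key
end Pool.Agent.Lib.MP_cdc9ab_al
end
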