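import Pool.Agent.Lib.MP_cdc9ab_al.BVan
import Pool.Agent.Lib.MP_cdc9ab_al.Key

-- part Pool.Agent.Lib.MP_cdc9ab_al.BCoc
section

open scoped Matrix.Norms.Operator ContDiff Matrix ENNReal Topology
open Finset MeasureTheory Filter Complex

namespace Pool.Agent.Lib.MP_cdc9ab_al

variable {N : ℕ}

/-! ### Cut-off functions -/

theorem continuous_qf (Q : HM N) : Continuous (qf Q) := continuous_iff_continuousAt.mpr
  fun _ => (contDiffAt_qf (n := 0) contDiffAt_const contDiffAt_id).continuousAt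

theorem qf_zero (Q : HM N) : qf Q 0 = 0 := by simp [qf]

theorem isCompact_ann {Q : HM N} (hQ : PD Q) : IsCompact {z | qf Q z ∈ Set.Icc (1 : ℝ) 2} := by
  obtain ⟨m, hm, h⟩ := (isCompact_sphere (0 : CV N) 1).exists_forall_le'
    (continuous_qf Q).continuousOn (a := 0) fun v hv => hQ.pos (by rintro rfl; simp at hv)
  refine Metric.isCompact_of_isClosed_isBounded (isClosed_Icc.preimage (continuous_qf Q))
    (isBounded_iff_forall_norm_le.2 ⟨1 + 2 / m, fun z hz => ?_⟩)
  by_cases h0 : z = 0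
  · rw [h0, norm_zero]; positivity
  have hn : 0 < ‖z‖ := norm_pos_iff.mpr h0
  have h1 := h (((‖z‖⁻¹ : ℝ) : ℂ) • z) (by simp [norm_smul, hn.ne'])
  rw [qf_smul, normSq_ofReal] at h1
  have h2 : m * ‖z‖ ^ 2 ≤ 2 := by
    calc m * ‖z‖ ^ 2 ≤ ‖z‖⁻¹ * ‖z‖⁻¹ * qf Q z * ‖z‖ ^ 2 := by gcongr
      _ = qf Q z := by field_simp
      _ ≤ 2 := hz.2
  have h3 : ‖z‖ ^ 2 ≤ 2 / m := by rw [le_div_iff₀ hm]; linarith
  nlinarith [sq_nonneg (‖z‖ - 1)]

theorem IsCut.zero {χ : ℝ → ℝ} (hχ : IsCut χ) : χ 0 = 0 := hχ.2 0 (by simp)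

section cut
variable {E : Type} [NormedAddCommGroup E] [NormedSpace ℝ E] {χ : ℝ → ℝ} {Q : HM N}

theorem cut_contDiff (hχ : IsCut χ) (Q : HM N) {n : ℕ∞} {w : CV N → E}
    (hw : ∀ z, z ≠ 0 → ContDiffAt ℝ n w z) : ContDiff ℝ n fun z => χ (qf Q z) • w z := by
  refine contDiff_iff_contDiffAt.2 fun z => ?_
  by_cases hz : z = 0
  · refine (contDiffAt_const (c := (0 : E))).congr_of_eventuallyEq ?_
    have : ∀ᶠ y in 𝓝 z, qf Q y < 1 :=
      (continuous_qf Q).continuousAt.eventually (gt_mem_nhds (by simp [hz, qf_zero]))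
    filter_upwards [this] with y hy
    rw [hχ.2 _ fun h => absurd h.1 (not_le.2 hy), zero_smul]
  · exact ((hχ.1.of_le (by exact_mod_cast le_top)).contDiffAt.comp z
      (contDiffAt_qf contDiffAt_const contDiffAt_id)).smul (hw z hz)

theorem cut_continuous (hχ : IsCut χ) (Q : HM N) {w : CV N → E}
    (hw : ContinuousOn w {z | z ≠ 0}) : Continuous fun z => χ (qf Q z) • w z :=
  (cut_contDiff hχ Q (n := 0) fun _ hz =>
    (contDiffOn_zero.2 hw).contDiffAt (isOpen_ne.mem_nhds hz)).continuous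

theorem cut_compact (hχ : IsCut χ) (hQ : PD Q) (w : CV N → E) :
    HasCompactSupport fun z => χ (qf Q z) • w z :=
  HasCompactSupport.intro (isCompact_ann hQ) fun z hz => by rw [hχ.2 _ hz, zero_smul]

theorem cut_integrable (hχ : IsCut χ) (hQ : PD Q) {w : CV N → E}
    (hw : ContinuousOn w {z | z ≠ 0}) : Integrable fun z => χ (qf Q z) • w z :=
  (cut_continuous hχ Q hw).integrable_of_hasCompactSupport (cut_compact hχ hQ w)

end cut

theorem continuousOn_bF (τ : FH N →ₗ[ℝ] ℝ) {p : ℕ} {H : Fin p → HM N} (hH : ∀ i, PD (H i)) :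
    ContinuousOn (bF τ H) {z | z ≠ 0} := fun z hz =>
  (contDiffAt_bF (n := 0) (x := z) (z := fun y => y) τ (G := fun _ => H)
    (fun _ => contDiffAt_const) contDiffAt_id
    (fun i => ((hH i).pos hz).ne') hz).continuousAt.continuousWithinAt

theorem bor_smooth {N : ℕ} (τ : FH N →ₗ[ℝ] ℝ) {χ : ℝ → ℝ} (hχ : IsCut χ) {p : ℕ}
    (H : Fin p → HM N) (hH : ∀ i, H i ∈ HP N) : ContDiffAt ℝ ∞ (Bor τ χ) H := by
  have hK := isCompact_ann (pd_one (N := N))
  have e : Bor τ χ (p := p) = fun G => ∫ z in {z | qf 1 z ∈ Set.Icc (1 : ℝ) 2},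
      χ (qf 1 z) • bF τ G z := by
    funext G
    exact (setIntegral_eq_integral_of_forall_compl_eq_zero fun z hz => by
      rw [hχ.2 _ hz, zero_mul]).symm
  have hne : ∀ z ∈ {z : CV N | qf 1 z ∈ Set.Icc (1 : ℝ) 2}, z ≠ 0 := by
    rintro z hz rfl
    rw [Set.mem_ofPred_eq, qf_zero] at hz
    linarith [hz.1]
  rw [e]
  refine param_smooth (ρ := id) 
    (U := {x : (Fin p → HM N) × CV N | (∀ i, 0 < qf (x.1 i) x.2) ∧ x.2 ≠ 0})
    (Ψ := fun x => bF τ x.1 x.2) hK hK.measurableSet continuousOn_id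
    ((hχ.1.continuous.comp (continuous_qf 1)).continuousOn.integrableOn_compact hK) ?_
    (fun x hx => contDiffAt_bF (z := Prod.snd) τ (G := Prod.fst)
      (fun i => (contDiffAt_apply _ _ i _).comp x contDiffAt_fst)
      contDiffAt_snd (fun i => (hx.1 i).ne') hx.2)
    fun z hz => ⟨fun i => hH i z (hne z hz), hne z hz⟩
  refine IsOpen.inter (s := {x : (Fin p → HM N) × CV N | ∀ i, 0 < qf (x.1 i) x.2}) ?_
    (isOpen_ne.preimage continuous_snd)
  rw [Set.ofPred_forall]
  refine isOpen_iInter_of_finite fun i => isOpen_lt continuous_const ?_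
  exact continuous_iff_continuousAt.mpr fun x => (contDiffAt_qf (n := 0) (z := Prod.snd)
    (H := fun y : (Fin p → HM N) × CV N => y.1 i)
    ((contDiffAt_apply _ _ i _).comp x contDiffAt_fst) contDiffAt_snd).continuousAt

/-! ### Algebra -/

section alg
variable {V : Type} [AddCommGroup V] [Module ℝ V]

theorem ctr_prod_zero (φ : Module.Dual ℝ V) {m : ℕ} {x : Fin m → Ext V}
    (h : ∀ i, ctr φ (x i) = 0) : ctr φ (List.ofFn x).prod = 0 := by
  induction m with
  | zero => simp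
  | succ m ih => rw [List.ofFn_succ, List.prod_cons, ctr_mul, h, ih fun i => h _]; simp

theorem der_prod_odd (D : Ext V →ₗ[ℝ] Ext V) (hD : ∀ x y, D (x * y) = D x * y + x * D y)
    {n : ℕ} (x : Fin (n + 1) → Ext V) (hx : ∀ i, inv (x i) = -x i)
    (hc : ∀ i, inv (D (x i)) = -D (x i)) :
    D (List.ofFn x).prod = ∑ j : Fin (n + 1), (-1 : ℝ) ^ (j : ℕ) •
      (D (x j) * (List.ofFn fun i => x (j.succAbove i)).prod) := by
  induction n with
  | zero => simp
  | succ n ih =>
    rw [List.ofFn_succ, List.prod_cons, hD,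
      ih (fun i => x i.succ) (fun i => hx _) (fun i => hc _),
      Fin.sum_univ_succ (n := n + 1), Finset.mul_sum]
    congr 1
    · simp
    · refine Finset.sum_congr rfl fun j _ => ?_
      rw [List.ofFn_succ (n := n), List.prod_cons]
      simp only [Fin.succ_succAbove_zero, Fin.succ_succAbove_succ, Fin.val_succ, pow_succ]
      rw [mul_smul_comm, ← mul_assoc, ← mul_assoc, odd_comm (hx _), hc]
      simp

theorem prod_shift (φ : Module.Dual ℝ V) (e : V) (t : ℝ) {m : ℕ} (x c : Fin m → Ext V)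
    (hx : ∀ i, inv (x i) = -x i) (hc : ∀ i, inv (c i) = c i) (h : ∀ i, ctr φ (x i) = c i) :
    (List.ofFn fun i => x i + t • (io e * c i)).prod =
      (List.ofFn x).prod + t • (io e * ctr φ (List.ofFn x).prod) := by
  induction m with
  | zero => simp
  | succ m ih =>
    rw [List.ofFn_succ, List.ofFn_succ, List.prod_cons, List.prod_cons,
      ih (fun i => x i.succ) (fun i => c i.succ) (fun i => hx _) (fun i => hc _) (fun i => h _),
      ctr_mul, h, hx]
    have h1 : ∀ y, x 0 * (io e * y) = -(io e * (x 0 * y)) := fun y => by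
      rw [← mul_assoc, mul_io, hx]; simp [mul_assoc]
    have h2 : ∀ y, io e * (c 0 * (io e * y)) = 0 := fun y => by
      rw [← mul_assoc (c 0), mul_io, ← mul_assoc, ← mul_assoc, io_mul_io]; simp
    simp only [add_mul, mul_add, mul_smul_comm, smul_mul_assoc, mul_assoc, h1, h2, smul_add,
      neg_mul, mul_neg, smul_neg, smul_zero]
    abel

end alg

variable {H : HM N} {z : CV N}

theorem iv_iz_Zf (hH : PD H) (hz : z ≠ 0) : iv (0, I • z) (Zf H z) = geo (om H z) := by
  rw [Zf, ctr_mul, iv_geo _ (iv_iz_om hH hz 0), Xf, map_add, map_smul, iv_eps, iv_iz_sg hH hz]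
  simp

theorem iv_z_Zf (hH : PD H) (hz : z ≠ 0) : iv (0, z) (Zf H z) = 0 := by
  rw [Zf, ctr_mul, iv_geo _ (iv_z_om hH hz 0), Xf, map_add, map_smul, iv_eps, iv_z_sg hH]
  simp

theorem dW_Zf (hH : PD H) (hz : z ≠ 0) :
    dW (Zf H) z = (da H z * io eps + om H z) * geo (om H z) := by
  have h0 := (hH.pos hz).ne'
  have h1 : DifferentiableAt ℝ (fun y => Real.log (qf H y) • (io eps : FH N)) z :=
    (((contDiffAt_qf (n := 1) contDiffAt_const contDiffAt_id).log h0).smul
      (contDiffAt_const (c := io eps))).differentiableAt one_ne_zero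
  have h2 : DifferentiableAt ℝ (sg H) z :=
    (contDiffAt_sg (n := 1) contDiffAt_const contDiffAt_id h0).differentiableAt one_ne_zero
  have h3 : DifferentiableAt ℝ (fun y => geo (om H y)) z :=
    (contDiffAt_geo (contDiffAt_om (n := 1) contDiffAt_const contDiffAt_id h0)).differentiableAt
      one_ne_zero
  have h4 := dd_mul (fun i => cv (rb i)) rb (h1.add h2) h3
  have h5 := dd_add (fun i => cv (rb i)) rb h1 h2
  have h6 := dW_log_smul hH hz (differentiableAt_const (io eps : FH N))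
  have h7 := dW_geo_om hH hz
  have h8 := dW_sg hH hz
  simp only [dW, dd_const, smul_zero, add_zero] at h6 h7 h8
  refine h4.trans ?_
  rw [h7, mul_zero, add_zero]
  exact congrArg (· * _) (h5.trans (by rw [h6, h8]))

theorem dEnd_Zf (hH : PD H) (z : CV N) :
    dEnd JW (Zf H z) = (2 : ℝ)⁻¹ • (da H z * geo (om H z)) := by
  rw [Zf, dEnd_mul, dEnd_geo (dEnd_om hH z), Xf, map_add, map_smul, dEnd_eps, dEnd_sg]
  simp

theorem ne_zero_inr (hz : z ≠ 0) : ((0, z) : WH N) ≠ 0 := fun h => hz (congrArg Prod.snd h)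

theorem coc_point {τ : FH N →ₗ[ℝ] ℝ} (hτ : TopLike τ) {p : ℕ} {H : Fin (p + 1) → HM N}
    (hH : ∀ i, PD (H i)) (hz : z ≠ 0) :
    ∑ j : Fin (p + 1), (-1 : ℝ) ^ (j : ℕ) * bF τ (H ∘ j.succAbove) z =
      -τ (dW (fun y => (List.ofFn fun i => Zf (H i) y).prod) z * da 1 z) := by
  have hd : ∀ i, DifferentiableAt ℝ (Zf (H i)) z := fun i =>
    (contDiffAt_Zf (n := 1) contDiffAt_const contDiffAt_id ((hH i).pos hz).ne').differentiableAt
      one_ne_zero
  have e1 := ctr_prod_odd (Module.Dual.eval ℝ _ ((0, I • z) : WH N)) (fun i => Zf (H i) z) _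
    (fun i => inv_Zf _ _) (fun i => inv_geo_om (H i) z) fun i => iv_iz_Zf (hH i) hz
  have e2 := dd_prod_odd (fun i => cv (rb i)) rb (fun i => Zf (H i)) hd (fun i => inv_Zf _ _)
    fun i => by
      have := dW_Zf (hH i) hz
      rw [dW] at this
      rw [this, map_mul, map_add, map_mul, inv_da, inv_io, inv_om, inv_geo_om, neg_mul_neg]
  have e3 := der_prod_odd (dEnd JW) (dEnd_mul _) (fun i => Zf (H i) z) (fun i => inv_Zf _ _)
    fun i => by rw [dEnd_Zf (hH i), map_smul, map_mul, inv_da, inv_geo_om, neg_mul, smul_neg]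
  set P := (List.ofFn fun i => Zf (H i) z).prod with hP
  have t1 : τ (iv (0, I • z) P * da 1 z) = 0 := by
    rw [hτ.iv_mul, iv_iz_da pd_one]; simp
  have t3 : τ (io eps * dEnd JW P * da 1 z) = 0 := by
    have h1 := hτ.dEnd JW (io eps * P * da 1 z)
    have h2 : τ (io eps * P * sg 1 z) = 0 := hτ.eq_zero_of_iv (ne_zero_inr hz) (by
      rw [ctr_mul, ctr_mul, iv_z_sg pd_one, iv_eps,
        ctr_prod_zero _ fun i => iv_z_Zf (hH i) hz]; simp)
    rw [trace_JW, zero_mul, dEnd_mul, dEnd_mul, dEnd_eps, dEnd_da, mul_smul_comm, map_add,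
      map_smul, h2] at h1
    simpa using h1
  rw [e1, Finset.sum_mul, map_sum] at t1
  rw [e3, Finset.mul_sum, Finset.sum_mul, map_sum] at t3
  rw [dW, e2, Finset.sum_mul, map_sum, eq_neg_iff_add_eq_zero, ← Finset.sum_add_distrib,
    ← sub_zero (0 : ℝ)]
  nth_rewrite 1 [← t1]
  rw [← mul_zero (2 : ℝ), ← t3, Finset.mul_sum, ← Finset.sum_sub_distrib]
  refine Finset.sum_congr rfl fun j _ => ?_
  have h4 := dW_Zf (hH j) hz
  rw [dW] at h4
  have h5 := geo_mul (om_deg (H j) z)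
  rw [mul_sub, mul_one, sub_eq_iff_eq_add, ← even_comm (inv_om (H j) z)] at h5
  have h6 : da (H j) z * io eps = -(io eps * da (H j) z) := io_swap _ _
  rw [h4, dEnd_Zf (hH j), add_mul, h6, bF]
  set g := geo (om (H j) z)
  set R := (List.ofFn fun i => Zf (H (j.succAbove i)) z).prod
  have h7 : g * R * da 1 z = R * da 1 z + om (H j) z * g * R * da 1 z := by
    nth_rewrite 1 [h5]
    rw [add_mul, add_mul, one_mul]
  change _ * τ (R * _) + _ = _
  simp only [smul_mul_assoc, mul_smul_comm, map_smul, smul_eq_mul]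
  rw [h7]
  simp only [add_mul, neg_mul, map_add, map_neg, mul_assoc]
  ring

theorem bor_coc {N : ℕ} {τ : FH N →ₗ[ℝ] ℝ} (hτ : TopLike τ) {χ : ℝ → ℝ} (hχ : IsCut χ) {p : ℕ}
    (H : Fin (p + 1) → HM N) (hH : ∀ i, PD (H i)) : cob (Bor τ χ) H = 0 := by
  have hP : ∀ z : CV N, z ≠ 0 →
      ContDiffAt ℝ (1 : ℕ∞) (fun y => (List.ofFn fun i => Zf (H i) y).prod) z := fun z hz =>
    contDiffAt_list_prod fun i => contDiffAt_Zf contDiffAt_const contDiffAt_id ((hH i).pos hz).ne'
  have hda : ∀ z : CV N, z ≠ 0 → ContDiffAt ℝ (1 : ℕ∞) (da 1) z := fun z hz =>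
    contDiffAt_da contDiffAt_const contDiffAt_id (pd_one.pos hz).ne'
  have hs := stokes volume (fun i => cv (rb i)) rb τ
    (cut_contDiff hχ 1 fun z hz => (hP z hz).mul (hda z hz))
    (cut_compact hχ pd_one fun y => (List.ofFn fun i => Zf (H i) y).prod * da 1 y)
  simp only [cob, Bor, smul_eq_mul, ← integral_const_mul]
  rw [← integral_finsetSum _ fun j _ => (cut_integrable hχ pd_one
    (continuousOn_bF τ (H := H ∘ j.succAbove) fun i => hH _)).const_mul _, ← neg_zero, ← hs,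
    ← integral_neg]
  refine integral_congr_ae (Eventually.of_forall fun z => ?_)
  by_cases hz : z = 0
  · have : (fun y => χ (qf 1 y) • ((List.ofFn fun i => Zf (H i) y).prod * da 1 y)) =ᶠ[𝓝 z]
        fun _ => 0 := by
      have : ∀ᶠ y in 𝓝 z, qf 1 y < 1 :=
        (continuous_qf 1).continuousAt.eventually (gt_mem_nhds (by simp [hz, qf_zero]))
      filter_upwards [this] with y hy
      rw [hχ.2 _ fun h => absurd h.1 (not_le.2 hy), zero_smul]
    simp only [dd_congr _ _ this]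
    simp [hz, qf_zero, hχ.zero]
  have d1 := (hP z hz).differentiableAt (by simp)
  have d2 := (hda z hz).differentiableAt (by simp)
  have h1 := dW_comp_smul pd_one ((hχ.1.differentiable (by simp) (qf 1 z)).hasDerivAt) (d1.mul d2)
  have h2 := dd_mul (fun i => cv (rb i)) rb d1 d2
  have h3 := dW_da pd_one hz
  have h4 : io (cv ((2 * deriv χ (qf 1 z)) • (1 : HM N) *ᵥ z)) =
      (deriv χ (qf 1 z) * qf 1 z) • da 1 z := by
    rw [da, iocv_smul, iocv_smul, smul_smul]
    congr 1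
    field_simp [(pd_one.pos hz).ne']
  simp only [dW] at h1 h3
  rw [h3, mul_zero, add_zero] at h2
  have h5 : ∀ x : FH N, da 1 z * (x * da 1 z) = 0 := fun x => by
    rw [← mul_assoc, odd_comm (inv_da 1 z), mul_assoc, odd_sq (inv_da 1 z), mul_zero]
  have h6 := coc_point hτ hH hz
  rw [dW] at h6
  refine Eq.trans ?_ (congrArg (fun x => -τ x) h1).symm
  rw [h4, smul_mul_assoc, Pi.mul_apply, h5, smul_zero, zero_add, Pi.mul_def, h2, map_smul,
    smul_eq_mul, ← mul_neg, ← h6, Finset.mul_sum]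
  exact Finset.sum_congr rfl fun j _ => by ring

/-! ### Homogeneity -/

theorem qf_rsmul (r : ℝ) (H : HM N) (z : CV N) : qf (r • H) z = r * qf H z := by
  rw [qf, qf, Matrix.smul_mulVec, rin_smul_right]

theorem sg_rsmul {r : ℝ} (hr : r ≠ 0) (H : HM N) (z : CV N) : sg (r • H) z = sg H z := by
  rw [sg, sg, qf_rsmul, Matrix.smul_mulVec, smul_comm I, smul_smul, mul_inv, mul_right_comm,
    inv_mul_cancel₀ hr, one_mul]

theorem da_rsmul {r : ℝ} (hr : r ≠ 0) (H : HM N) (z : CV N) : da (r • H) z = da H z := by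
  rw [da, da, qf_rsmul, Matrix.smul_mulVec, smul_smul, mul_inv, mul_assoc, mul_right_comm r⁻¹,
    inv_mul_cancel₀ hr, one_mul]

theorem vp_rsmul (r : ℝ) (H : HM N) : vp (r • H) = r • vp H := by
  rw [vp, vp, Finset.smul_sum]
  exact Finset.sum_congr rfl fun i _ => by
    rw [Matrix.smul_mulVec, smul_comm I, iocv_smul, mul_smul_comm]

theorem om_rsmul {r : ℝ} (hr : r ≠ 0) (H : HM N) (z : CV N) : om (r • H) z = om H z := by
  rw [om, om, da_rsmul hr, sg_rsmul hr, vp_rsmul, qf_rsmul, smul_smul, mul_inv, mul_right_comm,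
    inv_mul_cancel₀ hr, one_mul]

theorem Zf_rsmul {r : ℝ} (hr : r ≠ 0) (h0 : qf H z ≠ 0) :
    Zf (r • H) z = Zf H z + Real.log r • (io eps * geo (om H z)) := by
  rw [Zf, Zf, Xf, Xf, om_rsmul hr, sg_rsmul hr, qf_rsmul, Real.log_mul hr h0, add_smul,
    add_assoc, add_mul, smul_mul_assoc, add_comm]

theorem conj_smul_one (c : ℂ) (H : HM N) :
    (c • (1 : HM N))ᴴ * H * (c • (1 : HM N)) = normSq c • H := by
  rw [Matrix.conjTranspose_smul, Matrix.conjTranspose_one, Matrix.smul_mul, Matrix.one_mul,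
    Matrix.mul_smul, Matrix.mul_one, smul_smul, star_def, mul_conj, Complex.coe_smul]

theorem det_smul_one (c : ℂ) : normSq (c • (1 : HM N)).det = normSq c ^ N := by
  rw [Matrix.det_smul, Matrix.det_one, mul_one, map_pow, Fintype.card_fin]

theorem pull_integrand (g Q : HM N) {p : ℕ} (H : Fin p → HM N) (z : CV N) :
    pull (lift g) ((List.ofFn fun i => Zf (H i) (g *ᵥ z)).prod * da Q (g *ᵥ z)) =
      (List.ofFn fun i => Zf (gᴴ * H i * g) z).prod * da (gᴴ * Q * g) z := by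
  rw [map_mul, pull_lift_da, map_list_prod, List.map_ofFn]
  simp only [Function.comp_def, pull_lift_Zf]

/-- Homogeneity of the integrand. -/
theorem bF_smul {N : ℕ} {τ : FH N →ₗ[ℝ] ℝ} (hτ : TopLike τ) {p : ℕ} (H : Fin p → HM N)
    (hH : ∀ i, PD (H i)) (c : ℂ) (hc : c ≠ 0) (z : CV N) (hz : z ≠ 0) :
    Complex.normSq c ^ N * bF τ H (c • z) = bF τ H z := by
  have hr : normSq c ≠ 0 := (normSq_pos.2 hc).ne'
  have h1 := congrArg τ (pull_integrand (c • 1) 1 H z)
  rw [hτ.pull, det_lift, det_smul_one, Matrix.smul_mulVec, Matrix.one_mulVec] at h1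
  simp only [conj_smul_one, da_rsmul hr, fun i => Zf_rsmul hr ((hH i).pos hz).ne'] at h1
  rw [prod_shift (Module.Dual.eval ℝ _ ((0, I • z) : WH N)) eps _ (fun i => Zf (H i) z) _
    (fun i => inv_Zf _ _) (fun i => inv_geo_om (H i) z) fun i => iv_iz_Zf (hH i) hz,
    add_mul, map_add, smul_mul_assoc, map_smul] at h1
  have h2 := hτ.io_mul_iv eps (0, I • z) ((List.ofFn fun i => Zf (H i) z).prod * da 1 z)
  rw [ctr_mul, iv_iz_da pd_one, mul_zero, add_zero, eps_apply, zero_mul, ← mul_assoc] at h2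
  rw [h2, smul_zero, add_zero] at h1
  exact h1

/-! ### Linear changes of variables -/

theorem measurableEmbedding_mv {g : HM N} (hg : normSq g.det ≠ 0) :
    MeasurableEmbedding fun z : CV N => g *ᵥ z :=
  (LinearMap.equivOfDetNeZero (mv g)
    (det_mv g ▸ hg)).toContinuousLinearEquiv.toHomeomorph.measurableEmbedding

theorem map_mv {g : HM N} (hg : normSq g.det ≠ 0) :
    Measure.map (fun z : CV N => g *ᵥ z) volume = ENNReal.ofReal (normSq g.det)⁻¹ • volume := by
  have := Measure.map_linearMap_addHaar_eq_smul_addHaar (volume : Measure (CV N)) (f := mv g)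
    (det_mv g ▸ hg)
  rwa [det_mv, abs_of_nonneg (inv_nonneg.2 (normSq_nonneg _))] at this

theorem integral_mv {g : HM N} (hg : normSq g.det ≠ 0) (f : CV N → ℝ) :
    ∫ z, normSq g.det * f (g *ᵥ z) = ∫ z, f z := by
  rw [integral_const_mul, ← (measurableEmbedding_mv hg).integral_map, map_mv hg,
    integral_smul_measure, ENNReal.toReal_ofReal (inv_nonneg.2 (normSq_nonneg _)), smul_eq_mul,
    mul_inv_cancel_left₀ hg]

theorem integrable_mv {g : HM N} (hg : normSq g.det ≠ 0) {f : CV N → ℝ} (hf : Integrable f) :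
    Integrable fun z => f (g *ᵥ z) := by
  refine (measurableEmbedding_mv hg).integrable_map_iff.1 ?_
  rw [map_mv hg]
  exact hf.smul_measure ENNReal.ofReal_ne_top

theorem cons_one_ne_zero {n : ℕ} (w : CV n) : (Fin.cons 1 w : CV (n + 1)) ≠ 0 := fun h => by
  simpa using congrFun h 0

theorem chart_change {n : ℕ} {F : CV (n + 1) → ℝ} (hF : Continuous F) (hi : Integrable F) :
    Integrable (fun x : ℂ × CV n => normSq x.1 ^ n * F (x.1 • Fin.cons 1 x.2))
      (volume.prod volume) ∧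
    ∫ z, F z = ∫ x : ℂ × CV n, normSq x.1 ^ n * F (x.1 • Fin.cons 1 x.2) ∂volume.prod volume := by
  have hm := (volume_preserving_piFinSuccAbove (fun _ : Fin (n + 1) => ℂ) 0).symm
  have he : ∀ x : ℂ × CV n, (MeasurableEquiv.piFinSuccAbove (fun _ : Fin (n + 1) => ℂ) 0).symm x =
      Fin.cons x.1 x.2 := fun x => Fin.insertNth_zero' _ _
  have h1 : Integrable (fun x : ℂ × CV n => F (Fin.cons x.1 x.2)) (volume.prod volume) := by
    simpa only [Function.comp_def, he, Measure.volume_eq_prod] using (hm.integrable_comp_emb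
      (MeasurableEquiv.measurableEmbedding _)).2 hi
  have h2 : ∫ z, F z = ∫ x : ℂ × CV n, F (Fin.cons x.1 x.2) ∂volume.prod volume := by
    simpa only [he, Measure.volume_eq_prod] using (hm.integral_comp' F).symm
  have h3 : ∀ (c : ℂ) (w : CV n), c • (Fin.cons 1 w : CV (n + 1)) =
      Fin.cons c ((c • (1 : HM n)) *ᵥ w) := fun c w => by
    rw [Matrix.smul_mulVec, Matrix.one_mulVec]
    funext i
    refine Fin.cases ?_ (fun j => ?_) i <;> simp
  have hae : ∀ᵐ c : ℂ, c ≠ 0 := compl_mem_ae_iff.2 (measure_singleton 0)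
  have hd : ∀ c : ℂ, c ≠ 0 → normSq (c • (1 : HM n)).det ≠ 0 := fun c hc => by
    rw [det_smul_one]; exact pow_ne_zero _ (normSq_pos.2 hc).ne'
  have hc : Continuous fun x : ℂ × CV n => normSq x.1 ^ n * F (x.1 • Fin.cons 1 x.2) :=
    ((continuous_normSq.comp continuous_fst).pow n).mul (hF.comp (continuous_fst.smul
      (continuous_const.finCons continuous_snd)))
  obtain ⟨a1, a2⟩ := (integrable_prod_iff h1.1).1 h1
  have h4 : Integrable (fun x : ℂ × CV n => normSq x.1 ^ n * F (x.1 • Fin.cons 1 x.2))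
      (volume.prod volume) := by
    refine (integrable_prod_iff hc.aestronglyMeasurable).2 ⟨?_, a2.congr ?_⟩
    · filter_upwards [hae, a1] with c hc a
      simp only [h3]
      exact (integrable_mv (hd c hc) a).const_mul _
    · filter_upwards [hae] with c hc
      rw [← integral_mv (hd c hc)]
      simp only [h3, det_smul_one, norm_mul, norm_pow, Real.norm_of_nonneg (normSq_nonneg c)]
  refine ⟨h4, ?_⟩
  rw [h2, integral_prod _ h1, integral_prod _ h4]
  refine integral_congr_ae ?_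
  filter_upwards [hae] with c hc
  rw [← integral_mv (hd c hc)]
  simp only [h3, det_smul_one]

theorem integral_radial (χ : ℝ → ℝ) {q : ℝ} (hq : 0 < q) :
    ∫ c : ℂ, χ (normSq c * q) / normSq c = ∫ c : ℂ, χ (normSq c) / normSq c := by
  have h := Measure.integral_comp_smul volume (fun c : ℂ => χ (normSq c) / normSq c) (√q)
  rw [finrank_real_complex, Real.sq_sqrt hq.le, abs_of_pos (inv_pos.2 hq), smul_eq_mul] at h
  rw [← mul_inv_cancel_left₀ hq.ne' (∫ c : ℂ, χ (normSq c) / normSq c), ← h,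
    ← integral_const_mul]
  refine integral_congr_ae (Eventually.of_forall fun c => ?_)
  simp only [real_smul, map_mul, normSq_ofReal, Real.mul_self_sqrt hq.le]
  rw [mul_div_assoc', mul_div_mul_left _ _ hq.ne', mul_comm q]

theorem chart_aux {n : ℕ} {χ : ℝ → ℝ} (hχ : IsCut χ) {Q : HM (n + 1)} (hQ : PD Q)
    {b : CV (n + 1) → ℝ} (hb : ContinuousOn b {z | z ≠ 0})
    (hs : ∀ (c : ℂ), c ≠ 0 → ∀ z, z ≠ 0 → normSq c ^ (n + 1) * b (c • z) = b z) :
    Integrable (fun w : CV n => (∫ c : ℂ, χ (normSq c) / normSq c) * b (Fin.cons 1 w)) ∧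
    ∫ z, χ (qf Q z) * b z = ∫ w : CV n, (∫ c : ℂ, χ (normSq c) / normSq c) * b (Fin.cons 1 w) := by
  obtain ⟨h1, h2⟩ := chart_change (cut_continuous hχ Q hb) (cut_integrable hχ hQ hb)
  have e : ∀ w : CV n, ∫ c : ℂ, normSq c ^ n * (χ (qf Q (c • Fin.cons 1 w)) •
      b (c • Fin.cons 1 w)) = (∫ c : ℂ, χ (normSq c) / normSq c) * b (Fin.cons 1 w) := by
    intro w
    rw [← integral_radial χ (hQ.pos (cons_one_ne_zero w)), ← integral_mul_const]
    refine integral_congr_ae (Eventually.of_forall fun c => ?_)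
    simp only [qf_smul, smul_eq_mul]
    by_cases hc : c = 0
    · simp [hc, hχ.zero]
    · rw [← hs c hc _ (cons_one_ne_zero w)]
      field_simp [(normSq_pos.2 hc).ne']
      ring
  refine ⟨by simpa only [e] using h1.integral_prod_right, h2.trans ?_⟩
  rw [integral_prod_symm _ h1]
  simp only [e]

theorem exists_cut : ∃ χ : ℝ → ℝ, IsCut χ ∧ ∫ c : ℂ, χ (normSq c) / normSq c ≠ 0 := by
  let f : ContDiffBump (3 / 2 : ℝ) := ⟨1 / 4, 1 / 2, by norm_num, by norm_num⟩
  have hz : ∀ t, t ∉ Set.Icc (1 : ℝ) 2 → f t = 0 := fun t ht => f.zero_of_le_dist (by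
    rw [Real.dist_eq, Set.mem_Icc, not_and_or, not_le, not_le] at *
    change 1 / 2 ≤ _
    rcases ht with h | h
    · rw [abs_of_neg (by linarith)]; linarith
    · rw [abs_of_pos (by linarith)]; linarith)
  refine ⟨f, ⟨f.contDiff, hz⟩, (Continuous.integral_pos_of_hasCompactSupport_nonneg_nonzero
    (x := (5 / 4 : ℂ)) ?_ ?_ (fun c => div_nonneg f.nonneg (normSq_nonneg c)) ?_).ne'⟩
  · refine continuous_iff_continuousAt.2 fun c => ?_
    by_cases hc : c = 0
    · refine (continuousAt_const (y := (0 : ℝ))).congr ?_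
      have : ∀ᶠ y in 𝓝 c, normSq y < 1 :=
        continuous_normSq.continuousAt.eventually (gt_mem_nhds (by simp [hc]))
      filter_upwards [this] with y hy
      rw [hz _ fun h => absurd h.1 (not_le.2 hy), zero_div]
    · exact (f.continuous.comp continuous_normSq).continuousAt.div
        continuous_normSq.continuousAt (normSq_pos.2 hc).ne'
  · refine HasCompactSupport.intro (isCompact_closedBall (0 : ℂ) 2) fun c hc => ?_
    rw [mem_closedBall_zero_iff, not_le] at hc
    rw [hz _ fun h => ?_, zero_div]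
    have := h.2
    rw [normSq_eq_norm_sq] at this
    nlinarith
  · have h1 : normSq (5 / 4 : ℂ) = 25 / 16 := by simp; norm_num
    rw [h1, f.one_of_mem_closedBall (by
      rw [Metric.mem_closedBall, Real.dist_eq]; norm_num [f, abs_of_pos])]
    norm_num

/-- The chart formula. -/
theorem chart_formula {n : ℕ} (χ : ℝ → ℝ) (hχ : IsCut χ) (Q : HM (n + 1)) (hQ : PD Q)
    (b : CV (n + 1) → ℝ) (hb : ContinuousOn b {z | z ≠ 0})
    (hs : ∀ (c : ℂ), c ≠ 0 → ∀ z, z ≠ 0 → Complex.normSq c ^ (n + 1) * b (c • z) = b z) :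
    Integrable (fun w : CV n => b (Fin.cons 1 w)) ∧
    ∫ z, χ (qf Q z) * b z =
      (∫ c : ℂ, χ (Complex.normSq c) / Complex.normSq c) * ∫ w : CV n, b (Fin.cons 1 w) := by
  obtain ⟨χ0, h0, h1⟩ := exists_cut
  exact ⟨(integrable_const_mul_iff (IsUnit.mk0 _ h1) _).1 (chart_aux h0 hQ hb hs).1,
    (chart_aux hχ hQ hb hs).2.trans (integral_const_mul _ _)⟩

theorem bor_inv {n : ℕ} {τ : FH (n + 1) →ₗ[ℝ] ℝ} (hτ : TopLike τ) {χ : ℝ → ℝ} (hχ : IsCut χ)
    {p : ℕ} (H : Fin p → HM (n + 1)) (hH : ∀ i, PD (H i)) (g : HM (n + 1)) (hg : IsUnit g) :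
    Bor τ χ (fun i => gᴴ * H i * g) = Bor τ χ H := by
  have hd : IsUnit g.det := (Matrix.isUnit_iff_isUnit_det g).1 hg
  have hQ : PD (g⁻¹ᴴ * 1 * g⁻¹) := pd_one.conj (Matrix.isUnit_nonsing_inv_iff.2 hg)
  have h1 : gᴴ * (g⁻¹ᴴ * 1 * g⁻¹) * g = 1 := by
    rw [Matrix.mul_one, ← Matrix.mul_assoc, ← Matrix.conjTranspose_mul,
      Matrix.nonsing_inv_mul _ hd, Matrix.conjTranspose_one, Matrix.one_mul,
      Matrix.nonsing_inv_mul _ hd]
  set Q := g⁻¹ᴴ * 1 * g⁻¹
  have hb := continuousOn_bF τ hH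
  have hs := bF_smul hτ H hH
  rw [Bor, Bor, (chart_formula χ hχ 1 pd_one _ hb hs).2, ← (chart_formula χ hχ Q hQ _ hb hs).2,
    ← integral_mv (normSq_pos.2 hd.ne_zero).ne' fun z => χ (qf Q z) * bF τ H z]
  refine integral_congr_ae (Eventually.of_forall fun z => ?_)
  by_cases hz : z = 0
  · simp [hz, qf_zero, hχ.zero]
  have hy := mulVec_ne_zero hg hz
  have h2 := congrArg τ (pull_integrand g Q H z)
  rw [hτ.pull, det_lift, h1] at h2
  have h3 : τ ((List.ofFn fun i => Zf (H i) (g *ᵥ z)).prod * (da Q (g *ᵥ z) - da 1 (g *ᵥ z))) =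
      0 := hτ.eq_zero_of_iv (ne_zero_inr hy) (by
    rw [ctr_mul, ctr_prod_zero _ fun i => iv_z_Zf (hH i) hy, map_sub, iv_z_da hQ hy,
      iv_z_da pd_one hy]; simp)
  rw [mul_sub, map_sub, sub_eq_zero] at h3
  simp only [bF]
  rw [← h2, h3, ← qf_conj, h1]
  ring

end Pool.Agent.Lib.MP_cdc9ab_al
end

-- part Pool.Agent.Lib.MP_cdc9ab_al.BBound
section

/-! The Borel cocycle is bounded. -/

open scoped Matrix.Norms.Operator ContDiff Matrix Topology ENNReal
open Finset Filter Complex MeasureTheory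

namespace Pool.Agent.Lib.MP_cdc9ab_al

namespace Bnd

variable {n : ℕ}

theorem iv_z_mul_da {N : ℕ} {z : CV N} (hz : z ≠ 0) {Y : FH N} (h1 : iv ((0, z) : WH N) Y = 0)
    (h2 : inv Y = -Y) : iv ((0, z) : WH N) (Y * da 1 z) = (-2 : ℝ) • Y := by
  rw [ctr_mul, h1, h2, iv_z_da pd_one hz, zero_mul, zero_add, ← Algebra.commutes,
    ← Algebra.smul_def, smul_neg, neg_smul]

theorem inv_prod_even {N m : ℕ} {x : Fin m → FH N} (h : ∀ i, inv (x i) = x i) :
    inv (List.ofFn x).prod = (List.ofFn x).prod := by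
  rw [map_list_prod, List.map_ofFn]
  exact congrArg _ (congrArg _ (funext h))

theorem inv_prod_odd {N k : ℕ} {x : Fin (2 * k + 1) → FH N} (h : ∀ i, x i ∈ Deg _ 1) :
    inv (List.ofFn x).prod = -(List.ofFn x).prod := by
  rw [inv_of_deg (prod_mem_deg h), Odd.neg_one_pow ⟨k, by ring⟩, neg_smul, one_smul]

theorem exists_cut : ∃ χ : ℝ → ℝ, IsCut χ ∧ ∫ c : ℂ, χ (normSq c) / normSq c ≠ 0 := by
  let ψ : ContDiffBump (3 / 2 : ℝ) := ⟨1 / 4, 1 / 2, by norm_num, by norm_num⟩
  have h0 : ∀ t, t ∉ Set.Icc (1 : ℝ) 2 → ψ t = 0 := fun t ht => ψ.zero_of_le_dist (by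
    by_contra h
    rw [not_le, Real.dist_eq, abs_lt] at h
    exact ht ⟨by linarith [h.1], by linarith [h.2]⟩)
  refine ⟨fun t => t * ψ t, ⟨contDiff_id.mul ψ.contDiff, fun t ht => by
    simp only [h0 t ht, mul_zero]⟩, ne_of_gt ?_⟩
  have e : ∀ c : ℂ, normSq c * ψ (normSq c) / normSq c = ψ (normSq c) := fun c => by
    by_cases hc : normSq c = 0
    · rw [hc, h0 0 (by simp)]; simp
    · field_simp
  simp only [e]
  refine Continuous.integral_pos_of_hasCompactSupport_nonneg_nonzero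
    (x := (⟨1, 3 / 4⟩ : ℂ)) (ψ.continuous.comp continuous_normSq)
    (HasCompactSupport.intro (isCompact_closedBall 0 2) fun c hc => h0 _ fun h => hc ?_)
    (fun _ => ψ.nonneg) ?_
  · rw [mem_closedBall_zero_iff]
    have := h.2
    rw [normSq_eq_norm_sq] at this
    nlinarith [norm_nonneg c]
  · rw [ψ.one_of_mem_closedBall]
    · exact one_ne_zero
    · rw [Metric.mem_closedBall, Real.dist_eq, abs_le, normSq_mk]
      norm_num

/-- The approximately degenerate matrices. -/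
noncomputable def Hd (n : ℕ) (d : ℝ) : HM (n + 1) := Matrix.single 0 0 1 + d • 1

theorem Hd_mulVec (d : ℝ) (z : CV (n + 1)) : Hd n d *ᵥ z = Fin.cons (z 0) 0 + d • z := by
  rw [Hd, Matrix.add_mulVec, Matrix.smul_mulVec, Matrix.one_mulVec, Matrix.single_mulVec]
  congr 1
  funext i
  refine Fin.cases ?_ (fun j => ?_) i <;> simp

theorem qf_Hd (d : ℝ) (z : CV (n + 1)) : qf (Hd n d) z = normSq (z 0) + d * qf 1 z := by
  rw [qf, Hd_mulVec, rin_add_right, rin_smul_right, qf_one]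
  simp [rin_eq, Fin.sum_univ_succ, normSq_apply]

theorem pd_Hd {d : ℝ} (hd : 0 < d) : PD (Hd n d) :=
  ⟨by simp [Hd, Matrix.conjTranspose_single], fun z hz => by
    rw [qf_Hd]
    exact add_pos_of_nonneg_of_pos (normSq_nonneg _) (mul_pos hd (pd_one.pos hz))⟩

theorem pull_sg_Hd (d : ℝ) (w : CV n) : pull (inc n) (sg (Hd n d) (Fin.cons 1 w)) =
    (d * qf 1 (Fin.cons 1 w : CV (n + 1)) / (1 + d * qf 1 (Fin.cons 1 w : CV (n + 1)))) •
      pull (inc n) (sg 1 (Fin.cons 1 w)) := by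
  have h := (pd_one.pos (cons_ne_zero w)).ne'
  rw [sg, sg, pull_io, pull_io, ← io_smul]
  congr 1
  refine LinearMap.ext fun v => ?_
  have : rin (I • (Fin.cons 1 0 : CV (n + 1))) (inc n v).2 = 0 := by
    simp [rin_eq, Fin.sum_univ_succ, inc]
  simp only [LinearMap.comp_apply, LinearMap.smul_apply, cv_apply, rin_smul_left, Hd_mulVec, qf_Hd,
    smul_add, rin_add_left, smul_comm I d, Fin.cons_zero, this, Matrix.one_mulVec, smul_eq_mul,
    normSq_one]
  field_simp
  ring

theorem continuous_cons : Continuous fun w : CV n => (Fin.cons 1 w : CV (n + 1)) :=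
  continuous_pi fun i => Fin.cases continuous_const (fun j => continuous_apply j) i

variable {σ : Ext (Module.Dual ℝ (CV n)) →ₗ[ℝ] ℝ} {τ : FH (n + 1) →ₗ[ℝ] ℝ}

theorem rd_bS (h : ∀ w x, τ x = σ (rd w x)) {k m : ℕ} {K : HM (n + 1)} (hK : PD K)
    {G : Fin (2 * k) → HM (n + 1)} {G' : Fin m → HM (n + 1)} (hG : ∀ j, PD (G j))
    (hG' : ∀ l, PD (G' l)) (w : CV n) :
    bS τ (Fin.cons K G : Fin (2 * k + 1) → _) G' (Fin.cons 1 w) = -2 * (chD σ G G' w -
      σ (pull (inc n) (sg K (Fin.cons 1 w)) * pull (inc n)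
        (iv ((0, I • Fin.cons 1 w) : WH (n + 1)) (List.ofFn fun j => sg (G j) (Fin.cons 1 w)).prod *
          (List.ofFn fun l => om (G' l) (Fin.cons 1 w)).prod))) := by
  have hz := cons_ne_zero w
  have hH : ∀ i, PD ((Fin.cons K G : Fin (2 * k + 1) → _) i) := fun i => Fin.cases hK hG i
  rw [bS, h w, rd, ctr_mul, iv_eps, map_one, one_mul, ctr_mul, ctr_mul, iv_e_da,
    iv_prod_zero _ fun i => iv_e_sg 1, iv_prod_zero _ fun l => iv_e_om (hG' l) 1, zero_mul, mul_zero,
    mul_zero, add_zero, add_zero, zero_mul, mul_zero, add_zero, iv_z_mul_da hz, map_smul, map_smul,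
    map_smul, smul_eq_mul, chD, ← map_sub, ← map_mul, ← map_sub, ctr_mul,
    iv_prod_zero _ fun l => iv_iz_om (hG' l) hz 0, mul_zero, add_zero, List.ofFn_succ,
    List.prod_cons, ctr_mul, Fin.cons_zero, iv_iz_sg hK hz, inv_sg]
  · simp only [Fin.cons_succ, one_mul, add_mul, neg_mul, mul_assoc, sub_eq_add_neg]
  · rw [ctr_mul, iv_prod_zero _ fun i => iv_z_sg (hH i) 0,
      iv_prod_zero _ fun l => iv_z_om (hG' l) hz 0, zero_mul, mul_zero, add_zero]
  · rw [map_mul, inv_prod_odd fun i => sg_deg _ _, inv_prod_even fun l => inv_om _ _, neg_mul]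

theorem chD_deg (hσ : TopLike σ) {k m : ℕ} (h : k + m ≠ n) (G : Fin (2 * k) → HM (n + 1))
    (G' : Fin m → HM (n + 1)) (w : CV n) : chD σ G G' w = 0 := by
  refine hσ.of_deg (j := 1 * (2 * k) + 2 * m) ?_ (map_mem_deg _ (mul_mem_deg
    (prod_mem_deg fun _ => sg_deg _ _) (prod_mem_deg fun _ => om_deg _ _)))
  rw [Module.finrank_pi_fintype]
  simp [Complex.finrank_real_complex]
  omega

end Bnd

open Bnd

theorem chD_integral {n : ℕ} {τ : Ext (Module.Dual ℝ (CV n)) →ₗ[ℝ] ℝ} (hτ : TopLike τ)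
    {k m : ℕ} (hk : 1 ≤ k) (G : Fin (2 * k) → HM (n + 1)) (G' : Fin m → HM (n + 1))
    (hG : ∀ j, PD (G j)) (hG' : ∀ l, PD (G' l)) : ∫ w, chD τ G G' w = 0 := by
  by_cases hi : Integrable (chD τ G G')
  swap
  · exact integral_undef hi
  obtain ⟨k, rfl⟩ : ∃ j, k = j + 1 := ⟨k - 1, by omega⟩
  obtain ⟨ρ, hρ, h⟩ := top_up hτ
  obtain ⟨χ, hχ, hc⟩ := exists_cut
  have key : ∀ K, PD K → Integrable (fun w : CV n =>
      bS ρ (Fin.cons K G : Fin (2 * (k + 1) + 1) → _) G' (Fin.cons 1 w)) ∧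
      ∫ w : CV n, bS ρ (Fin.cons K G : Fin (2 * (k + 1) + 1) → _) G' (Fin.cons 1 w) = 0 := by
    intro K hK
    have hH : ∀ i, PD ((Fin.cons K G : Fin (2 * (k + 1) + 1) → _) i) := fun i => Fin.cases hK hG i
    obtain ⟨h1, h2⟩ := chart_formula χ hχ 1 pd_one _ (bS_cont ρ hH hG')
      fun c hc z _ => bS_smul hρ _ _ c hc z
    rw [vanish3 (p := 2 * k + 1) hρ hχ hH hG'] at h2
    exact ⟨h1, (mul_eq_zero.1 h2.symm).resolve_left hc⟩
  set S : CV n → ℝ := fun w => τ (pull (inc n) (sg 1 (Fin.cons 1 w)) * pull (inc n)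
    (iv ((0, I • Fin.cons 1 w) : WH (n + 1)) (List.ofFn fun j => sg (G j) (Fin.cons 1 w)).prod *
      (List.ofFn fun l => om (G' l) (Fin.cons 1 w)).prod)) with hS
  have hSi : Integrable S := by
    refine (hi.add ((key 1 pd_one).1.const_mul (1 / 2))).congr (Eventually.of_forall fun w => ?_)
    simp only [Pi.add_apply, rd_bS h pd_one hG hG', hS]
    ring
  let q : CV n → ℝ := fun w => qf 1 (Fin.cons 1 w : CV (n + 1))
  have hq : ∀ w, 0 < q w := fun w => pd_one.pos (cons_ne_zero w)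
  have hqc : Continuous q := continuous_qf1.comp continuous_cons
  let d : ℕ → ℝ := fun j => 1 / ((j : ℝ) + 1)
  have hd : ∀ j, 0 < d j := fun j => by positivity
  have hm : ∀ j, AEStronglyMeasurable (fun w => d j * q w / (1 + d j * q w) * S w) volume :=
    fun j => (Continuous.div (by fun_prop) (by fun_prop) fun w => by
      have := hq w; have := hd j; positivity).aestronglyMeasurable.mul hSi.aestronglyMeasurable
  have hb : ∀ j w, ‖d j * q w / (1 + d j * q w) * S w‖ ≤ ‖S w‖ := fun j w => by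
    have := mul_pos (hd j) (hq w)
    rw [norm_mul, Real.norm_of_nonneg (by positivity)]
    exact mul_le_of_le_one_left (norm_nonneg _) ((div_le_one (by positivity)).2 (by linarith))
  have hl := tendsto_integral_of_dominated_convergence (f := fun _ => (0 : ℝ)) _ hm hSi.norm
    (fun j => Eventually.of_forall (hb j)) (Eventually.of_forall fun w => by
      have h1 : Tendsto (fun j => d j * q w) atTop (𝓝 0) := by
        simpa only [zero_mul] using tendsto_one_div_add_atTop_nhds_zero_nat.mul_const (q w)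
      simpa using (h1.div (h1.const_add 1) (by simp)).mul_const (S w))
  rw [integral_zero] at hl
  refine tendsto_nhds_unique tendsto_const_nhds (hl.congr fun j => ?_)
  have h2 := (key _ (pd_Hd (hd j))).2
  simp only [rd_bS h (pd_Hd (hd j)) hG hG', pull_sg_Hd, smul_mul_assoc, map_smul, smul_eq_mul] at h2
  rw [integral_const_mul, integral_sub hi (hSi.norm.mono' (hm j) (Eventually.of_forall (hb j)))]
    at h2
  linarith

namespace Bnd

/-- Integrable functions with a bound for the integral. -/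
def Bd {n : ℕ} (f : CV n → ℝ) (C : ℝ) : Prop := Integrable f ∧ |∫ w, f w| ≤ C

variable {n : ℕ}

theorem Bd.sum {J : Type} (s : Finset J) {f : J → CV n → ℝ} {C : ℝ} (h : ∀ j ∈ s, Bd (f j) C) :
    Bd (fun w => ∑ j ∈ s, f j w) (s.card * C) := by
  refine ⟨integrable_finsetSum s fun j hj => (h j hj).1, ?_⟩
  rw [integral_finsetSum s fun j hj => (h j hj).1]
  refine (abs_sum_le_sum_abs _ _).trans ((sum_le_sum fun j hj => (h j hj).2).trans ?_)
  rw [sum_const, nsmul_eq_mul]

theorem Bd.sign {f : CV n → ℝ} {C : ℝ} (h : Bd f C) (j : ℕ) : Bd (fun w => (-1) ^ j * f w) C :=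
  ⟨h.1.const_mul _, by rw [integral_const_mul, abs_mul, abs_neg_one_pow, one_mul]; exact h.2⟩

theorem chD_cont (σ : Ext (Module.Dual ℝ (CV n)) →ₗ[ℝ] ℝ) {p m : ℕ} {G : Fin p → HM (n + 1)}
    {G' : Fin m → HM (n + 1)} (hG : ∀ j, PD (G j)) (hG' : ∀ l, PD (G' l)) :
    Continuous (chD σ G G') := continuous_iff_continuousAt.2 fun w => by
  have h1 : ContDiffAt ℝ ∞ (fun z : CV (n + 1) => (List.ofFn fun j => sg (G j) z).prod *
      (List.ofFn fun l => om (G' l) z).prod) (Fin.cons 1 w) :=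
    (contDiffAt_list_prod fun i => contDiffAt_sg contDiffAt_const contDiffAt_id
      ((hG i).pos (cons_ne_zero w)).ne').mul ((cl_prod fun l => cl_om (hG' l)).sm _ (cons_ne_zero w))
  have h2 := (contDiffAt_lin (σ ∘ₗ (pull (inc n)).toLinearMap) h1).continuousAt
  exact ContinuousAt.comp (f := fun w : CV n => (Fin.cons 1 w : CV (n + 1))) h2
    continuous_cons.continuousAt

theorem log_cont {H : HM (n + 1)} (hH : PD H) :
    Continuous fun w : CV n => Real.log (qf H (Fin.cons 1 w)) :=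
  ((continuous_iff_continuousAt.2 fun z => (hasFDerivAt_qf hH z).continuousAt).comp
    continuous_cons).log fun w => (hH.pos (cons_ne_zero w)).ne'

theorem bd_chD {σ : Ext (Module.Dual ℝ (CV n)) →ₗ[ℝ] ℝ} (hσ : TopLike σ) {k : ℕ} (hk : 1 ≤ k) :
    ∃ C : ℝ, ∀ (m : ℕ) (G : Fin (2 * k) → HM (n + 1)) (G' : Fin m → HM (n + 1)) (K : HM (n + 1)),
      (∀ j, PD (G j)) → (∀ l, PD (G' l)) → PD K → Bd (fun w => (Real.log (qf K (Fin.cons 1 w)) -
        Real.log (qf 1 (Fin.cons 1 w : CV (n + 1)))) * chD σ G G' w) C := by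
  have h0 : ∀ C, 0 ≤ C → ∀ (m : ℕ) (G : Fin (2 * k) → HM (n + 1)) (G' : Fin m → HM (n + 1))
      (a : CV n → ℝ), k + m ≠ n → Bd (fun w => a w * chD σ G G' w) C := fun C hC m G G' a h => by
    simp only [chD_deg hσ h, mul_zero]
    exact ⟨integrable_zero _ _ _, by simpa using hC⟩
  by_cases hkn : k ≤ n
  · obtain ⟨C, hC, h⟩ := key_bound k (n - k) n (by omega) σ hσ
    refine ⟨C.toReal, fun m G G' K hG hG' hK => ?_⟩
    by_cases hm : k + m = n
    · obtain rfl : m = n - k := by omega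
      obtain ⟨h1, κ, h2⟩ := h G G' K 1 hG hG' hK pd_one
      have hc := chD_cont σ hG hG'
      have i1 : Integrable (chD σ G G') := ⟨hc.aestronglyMeasurable, h1.trans_lt hC.lt_top⟩
      have i2 : Integrable fun w => (Real.log (qf K (Fin.cons 1 w)) -
          Real.log (qf 1 (Fin.cons 1 w : CV (n + 1))) - κ) * chD σ G G' w :=
        ⟨((((log_cont hK).sub (log_cont pd_one)).sub continuous_const).mul
          hc).aestronglyMeasurable, h2.trans_lt hC.lt_top⟩
      have e : (fun w => (Real.log (qf K (Fin.cons 1 w)) -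
          Real.log (qf 1 (Fin.cons 1 w : CV (n + 1)))) * chD σ G G' w) = fun w =>
          (Real.log (qf K (Fin.cons 1 w)) - Real.log (qf 1 (Fin.cons 1 w : CV (n + 1))) - κ) *
            chD σ G G' w + κ * chD σ G G' w := funext fun w => by ring
      rw [e]
      refine ⟨i2.add (i1.const_mul κ), ?_⟩
      rw [integral_add i2 (i1.const_mul κ), integral_const_mul, chD_integral hσ hk G G' hG hG',
        mul_zero, add_zero, ← Real.norm_eq_abs, ← toReal_enorm]
      exact ENNReal.toReal_mono hC ((enorm_integral_le_lintegral_enorm _).trans h2)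
    · exact h0 _ ENNReal.toReal_nonneg m G G' _ hm
  · exact ⟨0, fun m G G' K _ _ _ => h0 0 le_rfl m G G' _ (by omega)⟩

theorem bd_geo (Λ : CV n → FH (n + 1) →ₗ[ℝ] ℝ) {C : ℝ}
    (h : ∀ L : List (HM (n + 1)), (∀ K ∈ L, PD K) →
      Bd (fun w => Λ w (L.map fun K => om K (Fin.cons 1 w)).prod) C)
    {p : ℕ} (H : Fin p → HM (n + 1)) (hH : ∀ i, PD (H i)) :
    ∀ L : List (HM (n + 1)), (∀ K ∈ L, PD K) →
      Bd (fun w => Λ w ((List.ofFn fun i => geo (om (H i) (Fin.cons 1 w))).prod *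
        (L.map fun K => om K (Fin.cons 1 w)).prod)) (((n + 1 + 1 : ℕ) : ℝ) ^ p * C) := by
  induction p with
  | zero => simpa using h
  | succ p ih =>
    intro L hL
    have h1 := Bd.sum (range (n + 1 + 1)) fun j _ => ih (fun i => H i.succ) (fun i => hH _)
      (List.replicate j (H 0) ++ L) fun K hK => by
        rcases List.mem_append.1 hK with h2 | h2
        · rw [List.eq_of_mem_replicate h2]; exact hH 0
        · exact hL K h2
    rw [card_range, ← mul_assoc, ← pow_succ'] at h1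
    refine (congrArg (fun f => Bd f _) (funext fun w => ?_)).mp h1
    rw [List.ofFn_succ, List.prod_cons, even_comm (inv_geo_om _ _), mul_assoc,
      geo.eq_1 (om (H 0) _), sum_mul, mul_sum, map_sum]
    simp only [List.map_append, List.prod_append, List.map_replicate, List.prod_replicate]

theorem bd_term {σ : Ext (Module.Dual ℝ (CV n)) →ₗ[ℝ] ℝ} {k p : ℕ} {C : ℝ}
    (hC : ∀ (m : ℕ) (G : Fin (2 * k) → HM (n + 1)) (G' : Fin m → HM (n + 1)) (K : HM (n + 1)),
      (∀ j, PD (G j)) → (∀ l, PD (G' l)) → PD K → Bd (fun w => (Real.log (qf K (Fin.cons 1 w)) -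
        Real.log (qf 1 (Fin.cons 1 w : CV (n + 1)))) * chD σ G G' w) C)
    (G : Fin (2 * k) → HM (n + 1)) (K : HM (n + 1)) (H : Fin p → HM (n + 1)) (hG : ∀ j, PD (G j))
    (hK : PD K) (hH : ∀ i, PD (H i)) :
    Bd (fun w => (Real.log (qf K (Fin.cons 1 w)) - Real.log (qf 1 (Fin.cons 1 w : CV (n + 1)))) *
      σ (pull (inc n) ((List.ofFn fun j => sg (G j) (Fin.cons 1 w)).prod *
        (List.ofFn fun i => geo (om (H i) (Fin.cons 1 w))).prod)))
      (((n + 1 + 1 : ℕ) : ℝ) ^ p * C) := by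
  have := bd_geo (fun w => (Real.log (qf K (Fin.cons 1 w)) -
    Real.log (qf 1 (Fin.cons 1 w : CV (n + 1)))) • σ ∘ₗ (pull (inc n)).toLinearMap ∘ₗ
      LinearMap.mulLeft ℝ (List.ofFn fun j => sg (G j) (Fin.cons 1 w)).prod) (C := C)
    (fun L hL => by
      have := hC _ G L.get K hG (fun j => hL _ (List.get_mem L j)) hK
      refine (congrArg (fun f => Bd f _) (funext fun w => ?_)).mp this
      have e : (List.ofFn fun l => om (L.get l) (Fin.cons 1 w)) =
          L.map fun K => om K (Fin.cons 1 w) := by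
        conv_rhs => rw [← List.ofFn_get L, List.map_ofFn]
        rfl
      rw [chD, e]
      rfl) H hH [] (by simp)
  simp only [List.map_nil, List.prod_nil, mul_one] at this
  exact this

theorem prod_Zf {N p : ℕ} (H : Fin p → HM N) (z : CV N) : (List.ofFn fun i => Zf (H i) z).prod =
    (List.ofFn fun i => Xf (H i) z).prod * (List.ofFn fun i => geo (om (H i) z)).prod := by
  induction p with
  | zero => simp
  | succ p ih =>
    simp only [List.ofFn_succ, List.prod_cons, ih fun i => H i.succ]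
    rw [Zf, mul_assoc, mul_assoc, ← mul_assoc (geo _), even_comm (inv_geo_om _ _), mul_assoc]

theorem pull_Xf (H : HM (n + 1)) (z : CV (n + 1)) : pull (inc n) (Xf H z) = pull (inc n) (sg H z) := by
  rw [Xf, map_add, map_smul, pull_io, show eps ∘ₗ inc n = 0 from rfl, io_zero, smul_zero, zero_add]

theorem rd_bF {σ : Ext (Module.Dual ℝ (CV n)) →ₗ[ℝ] ℝ} {τ : FH (n + 1) →ₗ[ℝ] ℝ}
    (h : ∀ w x, τ x = σ (rd w x)) {k : ℕ} {H : Fin (2 * k + 1 + 1) → HM (n + 1)}
    (hH : ∀ i, PD (H i)) (w : CV n) :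
    bF τ H (Fin.cons 1 w) = -2 * ∑ i : Fin (2 * k + 1 + 1), (-1) ^ (i : ℕ) *
      ∑ l : Fin (2 * k + 1), (-1) ^ (l : ℕ) * ((Real.log (qf (H i) (Fin.cons 1 w)) -
        Real.log (qf 1 (Fin.cons 1 w : CV (n + 1)))) * σ (pull (inc n)
          ((List.ofFn fun j => sg (H (i.succAbove (l.succAbove j))) (Fin.cons 1 w)).prod *
            (List.ofFn fun i => geo (om (H i) (Fin.cons 1 w))).prod))) := by
  have hz := cons_ne_zero w
  set z : CV (n + 1) := Fin.cons 1 w with hzw
  set Γ := (List.ofFn fun i => geo (om (H i) z)).prod with hΓ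
  have g1 : iv ((1, 0) : WH (n + 1)) Γ = 0 := iv_prod_zero _ fun i => iv_geo _ (iv_e_om (hH i) 1)
  have g2 : iv ((0, z) : WH (n + 1)) Γ = 0 := iv_prod_zero _ fun i => iv_geo _ (iv_z_om (hH i) hz 0)
  have g3 : iv ((0, I • z) : WH (n + 1)) Γ = 0 :=
    iv_prod_zero _ fun i => iv_geo _ (iv_iz_om (hH i) hz 0)
  have g4 : inv Γ = Γ := inv_prod_even fun i => inv_geo_om _ _
  have x1 : ∀ i, iv ((1, 0) : WH (n + 1)) (Xf (H i) z) = algebraMap ℝ _ (Real.log (qf (H i) z)) :=
    fun i => by rw [Xf, map_add, map_smul, iv_eps, iv_e_sg, add_zero, map_one,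
      Algebra.algebraMap_eq_smul_one]
  have x2 : ∀ i, iv ((0, z) : WH (n + 1)) (Xf (H i) z) = 0 := fun i => by
    rw [Xf, map_add, map_smul, iv_eps, iv_z_sg (hH i), map_zero, smul_zero, add_zero]
  have x3 : ∀ i, iv ((0, I • z) : WH (n + 1)) (Xf (H i) z) = 1 := fun i => by
    rw [Xf, map_add, map_smul, iv_eps, iv_iz_sg (hH i) hz, map_zero, smul_zero, zero_add]
  set P : Fin (2 * k + 1 + 1) → FH (n + 1) := fun i =>
    (List.ofFn fun j => Xf (H (i.succAbove j)) z).prod with hP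
  set D : Fin (2 * k + 1 + 1) → ℝ := fun i =>
    σ (pull (inc n) (iv ((0, I • z) : WH (n + 1)) (P i) * Γ)) with hD
  have d0 : ∑ i : Fin (2 * k + 1 + 1), (-1) ^ (i : ℕ) * D i = 0 := by
    have e := congrArg (fun y => σ (pull (inc n) (iv ((0, I • z) : WH (n + 1)) y * Γ)))
      (ctr_prod_odd _ (fun i => Xf (H i) z) (fun _ => 1) (fun i => inv_Xf _ _)
        (fun _ => map_one _) x3)
    simp only [ctr_ctr, zero_mul, map_zero, one_mul, map_sum, map_smul, sum_mul, smul_mul_assoc,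
      smul_eq_mul] at e
    exact e.symm
  have d1 : ∀ i, D i = ∑ l : Fin (2 * k + 1), (-1) ^ (l : ℕ) * σ (pull (inc n)
      ((List.ofFn fun j => sg (H (i.succAbove (l.succAbove j))) z).prod * Γ)) := fun i => by
    simp only [hD, hP]
    rw [ctr_prod_odd _ (fun j => Xf (H (i.succAbove j)) z) (fun _ => 1) (fun i => inv_Xf _ _)
      (fun _ => map_one _) fun j => x3 _]
    simp only [one_mul, map_sum, map_smul, sum_mul, smul_mul_assoc, smul_eq_mul, map_mul,
      map_list_prod, List.map_ofFn, Function.comp_def, pull_Xf]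
  have d2 : bF τ H z = ∑ i : Fin (2 * k + 1 + 1),
      (-1) ^ (i : ℕ) * (Real.log (qf (H i) z) * (-2 * D i)) := by
    rw [bF, h w, rd, ← hzw, prod_Zf, ← hΓ, ctr_mul, ctr_mul, g1, iv_e_da, mul_zero, mul_zero,
      add_zero, add_zero, ctr_prod_odd _ (fun i => Xf (H i) z) _ (fun i => inv_Xf _ _)
        (fun _ => AlgHom.commutes _ _) x1]
    simp only [← Algebra.smul_def, sum_mul, smul_mul_assoc, map_sum, map_smul, smul_eq_mul]
    refine sum_congr rfl fun i _ => ?_
    rw [iv_z_mul_da hz, map_smul, map_smul, map_smul, ctr_mul, g3, mul_zero, add_zero, smul_eq_mul]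
    · rw [ctr_mul, g2, iv_prod_zero _ fun j => x2 _, zero_mul, mul_zero, add_zero]
    · rw [map_mul, g4, inv_prod_odd fun j => Xf_deg _ _, neg_mul]
  have d3 := congrArg (fun t => 2 * Real.log (qf 1 z) * t) d0
  simp only [mul_zero, mul_sum] at d3
  rw [d2, ← add_zero (Finset.sum _ _), ← d3, ← sum_add_distrib, mul_sum]
  refine sum_congr rfl fun i _ => ?_
  simp only [mul_left_comm _ (Real.log (qf (H i) z) - _), ← mul_sum, ← d1]
  ring

end Bnd

theorem bor_bdd {n : ℕ} {τ : FH (n + 1) →ₗ[ℝ] ℝ} (hτ : TopLike τ) {χ : ℝ → ℝ} (hχ : IsCut χ)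
    {k : ℕ} (hk : 1 ≤ k) :
    ∃ C : ℝ, ∀ H : Fin (2 * k + 1 + 1) → HM (n + 1), (∀ i, PD (H i)) → |Bor τ χ H| ≤ C := by
  obtain ⟨σ, hσ, h⟩ := top_down hτ
  obtain ⟨C, hC⟩ := bd_chD hσ hk
  refine ⟨|∫ c : ℂ, χ (normSq c) / normSq c| * (2 * ((univ : Finset (Fin (2 * k + 1 + 1))).card *
    ((univ : Finset (Fin (2 * k + 1))).card * (((n + 1 + 1 : ℕ) : ℝ) ^ (2 * k + 1 + 1) * C)))),
    fun H hH => ?_⟩
  have hc : ContinuousOn (bF τ H) {z | z ≠ 0} := fun z hz => by
    have := contDiffAt_bF (n := ∞) τ (G := fun _ => H) (z := id) (x := z)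
      (fun _ => contDiffAt_const) contDiffAt_id (fun i => ((hH i).pos hz).ne') hz
    exact this.continuousAt.continuousWithinAt
  have h1 := (chart_formula χ hχ 1 pd_one (bF τ H) hc
    fun c hc z hz => bF_smul hτ H hH c hc z hz).2
  rw [Bor, h1, abs_mul]
  refine mul_le_mul_of_nonneg_left ?_ (abs_nonneg _)
  simp only [rd_bF h hH]
  rw [integral_const_mul, abs_mul, abs_neg, abs_two]
  refine mul_le_mul_of_nonneg_left ?_ zero_le_two
  exact (Bd.sum univ fun (i : Fin (2 * k + 1 + 1)) _ => Bd.sign (Bd.sum univ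
    fun (l : Fin (2 * k + 1)) _ => Bd.sign
    (bd_term hC (fun j => H (i.succAbove (l.succAbove j))) (H i) H (fun _ => hH _) (hH i) hH)
      (l : ℕ)) (i : ℕ)).2

end Pool.Agent.Lib.MP_cdc9ab_al
end
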