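import Pool.Agent.Lib.MP_cdc9ab_al.KeyDom

-- part Pool.Agent.Lib.MP_cdc9ab_al.Mix
section

open scoped ContDiff Topology
open Finset Filter

namespace Pool.Agent.Lib.MP_cdc9ab_al

section cob
variable {X A : Type} [AddCommGroup A] [Module ℝ A]

theorem cons_comp_succAbove {p : ℕ} (y : X) (h : Fin (p + 1) → X) (i : Fin (p + 1)) :
    (Fin.cons y h : Fin (p + 2) → X) ∘ i.succ.succAbove = Fin.cons y (h ∘ i.succAbove) := by
  ext j
  refine Fin.cases ?_ (fun j => ?_) j <;> simp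

theorem cob_cons {p : ℕ} (c : (Fin (p + 1) → X) → A) (y : X) (h : Fin (p + 1) → X) :
    cob c (Fin.cons y h : Fin (p + 2) → X) = c h - cob (fun w => c (Fin.cons y w)) h := by
  unfold cob
  rw [Fin.sum_univ_succ, sub_eq_add_neg, ← Finset.sum_neg_distrib]
  congr 1
  · simp only [Fin.val_zero, pow_zero, one_smul]
    congr 1
  · refine Finset.sum_congr rfl fun i _ => ?_
    rw [cons_comp_succAbove, Fin.val_succ, pow_succ, mul_neg_one, neg_smul]

theorem cob_zero_slots (c : (Fin 0 → X) → A) (h : Fin 1 → X) : cob c h = c ![] := by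
  simp only [cob, Fin.sum_univ_succ, Fin.val_zero, pow_zero, one_smul, Finset.univ_eq_empty,
    Finset.sum_empty, add_zero]
  congr 1
  exact Subsingleton.elim _ _

theorem cob_lin {B : Type} [AddCommGroup B] [Module ℝ B] (T : A →ₗ[ℝ] B) {p : ℕ}
    (c : (Fin p → X) → A) (h : Fin (p + 1) → X) : cob (fun w => T (c w)) h = T (cob c h) := by
  simp [cob, map_sum]

theorem cob_sub {p : ℕ} (c c' : (Fin p → X) → A) (h : Fin (p + 1) → X) :
    cob (fun w => c w - c' w) h = cob c h - cob c' h := by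
  simp [cob, smul_sub, Finset.sum_sub_distrib]

theorem cob_add {p : ℕ} (c c' : (Fin p → X) → A) (h : Fin (p + 1) → X) :
    cob (fun w => c w + c' w) h = cob c h + cob c' h := by
  simp [cob, smul_add, Finset.sum_add_distrib]

theorem cob_smul {p : ℕ} (r : ℝ) (c : (Fin p → X) → A) (h : Fin (p + 1) → X) :
    cob (fun w => r • c w) h = r • cob c h := by
  simp only [cob, Finset.smul_sum, smul_comm r]

theorem cob_congr {P : Set X} {p : ℕ} {c c' : (Fin p → X) → A}
    (e : ∀ w, (∀ i, w i ∈ P) → c w = c' w) {h : Fin (p + 1) → X} (hh : ∀ i, h i ∈ P) :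
    cob c h = cob c' h :=
  Finset.sum_congr rfl fun i _ => by rw [e (h ∘ i.succAbove) fun _ => hh _]

theorem cob_comp {Y : Type} (φ : Y → X) {p : ℕ} (c : (Fin p → X) → A) (h : Fin (p + 1) → Y) :
    cob (fun w => c (fun i => φ (w i))) h = cob c (fun i => φ (h i)) := rfl

theorem cob_cob {p : ℕ} (c : (Fin p → X) → A) (h : Fin (p + 2) → X) : cob (cob c) h = 0 := by
  induction p with
  | zero =>
    rw [← Fin.cons_self_tail h, cob_cons, cob_zero_slots, cob_zero_slots, cob_zero_slots, sub_self]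
  | succ p ih =>
    rw [← Fin.cons_self_tail h, cob_cons]
    simp only [cob_cons]
    rw [cob_sub, ih, sub_zero, sub_self]

theorem cons_mem {P : Set X} {p : ℕ} {y : X} {h : Fin p → X} (hy : y ∈ P) (hh : ∀ i, h i ∈ P) :
    ∀ i, (Fin.cons y h : Fin (p + 1) → X) i ∈ P := fun i => Fin.cases hy (fun j => hh j) i

/-- The front face. -/
def front (p q : ℕ) (h : Fin (q + p + 1) → X) : Fin (p + 1) → X := fun i => h ⟨i, by omega⟩

/-- The back face. -/
def back (p q : ℕ) (h : Fin (q + p + 1) → X) : Fin (q + 1) → X := fun i => h ⟨i + p, by omega⟩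

theorem front_cons (p q : ℕ) (z : X) (h : Fin (q + p + 1) → X) :
    front (p + 1) q (Fin.cons z h : Fin (q + p + 1 + 1) → X) = Fin.cons z (front p q h) := by
  funext i
  refine Fin.cases rfl (fun j => rfl) i

theorem back_cons (p q : ℕ) (z : X) (h : Fin (q + p + 1) → X) :
    back (p + 1) q (Fin.cons z h : Fin (q + p + 1 + 1) → X) = back p q h := rfl

theorem front_zero (q : ℕ) (h : Fin (q + 1) → X) : front 0 q h = fun _ => h 0 := by
  funext i
  rw [Fin.fin_one_eq_zero i]; rfl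

theorem back_zero (q : ℕ) (h : Fin (q + 1) → X) : back 0 q h = h := rfl

/-- The cup product. -/
def cup (p q : ℕ) (f : (Fin (p + 1) → X) → A) (g : (Fin (q + 1) → X) → ℝ)
    (h : Fin (q + p + 1) → X) : A := g (back p q h) • f (front p q h)

theorem cob_cup {P : Set X} (p q : ℕ) (f : (Fin (p + 1) → X) → A) {g : (Fin (q + 1) → X) → ℝ}
    (hg : ∀ h : Fin (q + 2) → X, (∀ i, h i ∈ P) → cob g h = 0) (h : Fin (q + p + 1 + 1) → X)
    (hh : ∀ i, h i ∈ P) : cob (cup p q f g) h = cup (p + 1) q (cob f) g h := by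
  induction p with
  | zero =>
    have h0 := hg h hh
    rw [← Fin.cons_self_tail h] at h0 ⊢
    rw [cob_cons] at h0
    rw [cob_cons, cup, cup, front_cons, back_cons, cob_cons, cob_zero_slots, back_zero, smul_sub]
    congr 1
    have e : (fun w : Fin (q + 0) → X => cup 0 q f g (Fin.cons (h 0) w : Fin (q + 0 + 1) → X)) =
        fun w => (LinearMap.toSpanSingleton ℝ A (f fun _ => h 0)) (g (Fin.cons (h 0) w)) := by
      funext w
      rw [cup, front_zero, back_zero]; rfl
    refine (congrArg (fun c => cob c (Fin.tail h)) e).trans ?_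
    rw [cob_lin, LinearMap.toSpanSingleton_apply, sub_eq_zero.mp h0]
    congr 2
    funext i
    rw [Fin.fin_one_eq_zero i]; rfl
  | succ p ih =>
    rw [← Fin.cons_self_tail h, cob_cons]
    have e : (fun w : Fin (q + (p + 1)) → X => cup (p + 1) q f g (Fin.cons (h 0) w)) =
        cup p q (fun u => f (Fin.cons (h 0) u)) g := by
      funext w
      rw [cup, front_cons, back_cons]; rfl
    rw [e, ih _ (Fin.tail h) fun i => hh _, cup, cup, cup, front_cons, back_cons, cob_cons, smul_sub]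

end cob

variable {X : Type} [NormedAddCommGroup X] [NormedSpace ℝ X]

/-- Smoothness on tuples of points of `P`. -/
def SmOn {E : Type} [NormedAddCommGroup E] [NormedSpace ℝ E] (P : Set X) {p : ℕ}
    (f : (Fin p → X) → E) : Prop := ∀ h, (∀ i, h i ∈ P) → ContDiffAt ℝ ∞ f h

theorem contDiffAt_cons {Z : Type} [NormedAddCommGroup Z] [NormedSpace ℝ Z] {n : WithTop ℕ∞}
    {p : ℕ} {f : Z → X} {g : Z → Fin p → X} {z : Z} (hf : ContDiffAt ℝ n f z)
    (hg : ContDiffAt ℝ n g z) :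
    ContDiffAt ℝ n (fun z => (Fin.cons (f z) (g z) : Fin (p + 1) → X)) z :=
  contDiffAt_pi.mpr fun i => Fin.cases hf (fun j => contDiffAt_pi.mp hg j) i

theorem contDiffAt_reindex {n : WithTop ℕ∞} {p q : ℕ} (σ : Fin p → Fin q) (h : Fin q → X) :
    ContDiffAt ℝ n (fun w : Fin q → X => fun i => w (σ i)) h :=
  contDiffAt_pi.mpr fun i => contDiffAt_apply ℝ X (σ i) h

omit [NormedSpace ℝ X] in
theorem eventually_mem_tuple {P : Set X} (hP : IsOpen P) {p : ℕ} {h : Fin p → X}
    (hh : ∀ i, h i ∈ P) : ∀ᶠ w in 𝓝 h, ∀ i, w i ∈ P :=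
  eventually_all.mpr fun i => (continuous_apply i).continuousAt.eventually (hP.mem_nhds (hh i))

section smon
variable {E : Type} [NormedAddCommGroup E] [NormedSpace ℝ E] {P : Set X} {p : ℕ}

theorem SmOn.slot {f : (Fin (p + 1) → X) → E} (hf : SmOn P f) {y : X} (hy : y ∈ P)
    {h : Fin p → X} (hh : ∀ i, h i ∈ P) :
    ContDiffAt ℝ ∞ (fun z => f (Fin.cons z h)) y :=
  (hf _ (cons_mem hy hh)).comp y (contDiffAt_cons contDiffAt_id contDiffAt_const)

theorem SmOn.dslot {f : (Fin (p + 1) → X) → E} (hf : SmOn P f) {y : X} (hy : y ∈ P)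
    {h : Fin p → X} (hh : ∀ i, h i ∈ P) :
    DifferentiableAt ℝ (fun z => f (Fin.cons z h)) y :=
  (hf.slot hy hh).differentiableAt infty_ne_zero

theorem SmOn.reindex {q : ℕ} {f : (Fin p → X) → E} (hf : SmOn P f) (σ : Fin p → Fin q) :
    SmOn P (fun w : Fin q → X => f (fun i => w (σ i))) := fun h hh =>
  (hf _ fun _ => hh _).comp h (contDiffAt_reindex σ h)

theorem SmOn.cob {f : (Fin p → X) → E} (hf : SmOn P f) : SmOn P (cob f) := fun h hh =>
  ContDiffAt.sum fun i _ => (hf.reindex i.succAbove h hh).const_smul _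

theorem SmOn.lin [FiniteDimensional ℝ E] {F : Type} [NormedAddCommGroup F] [NormedSpace ℝ F]
    (T : E →ₗ[ℝ] F) {f : (Fin p → X) → E} (hf : SmOn P f) : SmOn P (fun h => T (f h)) :=
  fun h hh => contDiffAt_lin T (hf h hh)

theorem SmOn.cup {q : ℕ} {f : (Fin (p + 1) → X) → E} {g : (Fin (q + 1) → X) → ℝ}
    (hf : SmOn P f) (hg : SmOn P g) : SmOn P (cup p q f g) := fun h hh =>
  (hg.reindex _ h hh).smul (hf.reindex _ h hh)

end smon

variable {V : Type} [AddCommGroup V] [Module ℝ V] [FiniteDimensional ℝ V] {I : Type} [Fintype I]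
  (β : I → V) (b : I → X) {P : Set X} {y : X}

theorem SmOn.alg {p : ℕ} {f : (Fin p → X) → ℝ} (hf : SmOn P f) :
    SmOn P (fun h => algebraMap ℝ (Ext V) (f h)) := hf.lin (Algebra.linearMap ℝ (Ext V))

/-- One step of the van Est derivative. -/
noncomputable def stp (y : X) {p : ℕ} (Φ : (Fin (p + 1) → X) → Ext V) (h : Fin p → X) : Ext V :=
  dd β b (fun z => Φ (Fin.cons z h)) y

theorem mixR_succ (y : X) (p : ℕ) (Φ : (Fin (p + 2) → X) → Ext V) :
    mixR β b y (p + 1) Φ = mixR β b y p (stp β b y Φ) := rfl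

theorem SmOn.stp {p : ℕ} {Φ : (Fin (p + 1) → X) → Ext V} (hΦ : SmOn P Φ) (hy : y ∈ P) :
    SmOn P (stp β b y Φ) := fun h hh =>
  contDiffAt_dd β b (f := fun h z => Φ (Fin.cons z h)) (g := fun _ => y)
    ((hΦ _ (cons_mem hy hh)).comp (h, y) (contDiffAt_cons contDiffAt_snd contDiffAt_fst))
    contDiffAt_const

theorem stp_congr (hP : IsOpen P) (hy : y ∈ P) {p : ℕ} {Φ Φ' : (Fin (p + 1) → X) → Ext V}
    {h : Fin p → X} (e : ∀ z ∈ P, Φ (Fin.cons z h) = Φ' (Fin.cons z h)) :
    stp β b y Φ h = stp β b y Φ' h :=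
  dd_congr β b (by filter_upwards [hP.mem_nhds hy] with z hz using e z hz)

theorem mixR_congr (hP : IsOpen P) (hy : y ∈ P) {p : ℕ} {Φ Φ' : (Fin (p + 1) → X) → Ext V}
    (e : ∀ h, (∀ i, h i ∈ P) → Φ h = Φ' h) : mixR β b y p Φ = mixR β b y p Φ' := by
  induction p with
  | zero => exact e _ fun _ => hy
  | succ p ih =>
    exact ih fun h hh => stp_congr β b hP hy fun z hz => e _ (cons_mem hz hh)

theorem mixR_zero (y : X) (p : ℕ) : mixR β b y p (fun _ => 0) = 0 := by
  induction p with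
  | zero => rfl
  | succ p ih =>
    rw [mixR_succ, ← ih]
    congr 1
    funext h
    exact dd_const β b _ _

theorem mixR_smul (y : X) (c : ℝ) {p : ℕ} (Φ : (Fin (p + 1) → X) → Ext V) :
    mixR β b y p (fun h => c • Φ h) = c • mixR β b y p Φ := by
  induction p with
  | zero => rfl
  | succ p ih =>
    rw [mixR_succ, mixR_succ, ← ih]
    congr 1
    funext h
    exact dd_smul β b _ _ _

theorem mixR_add (hP : IsOpen P) (hy : y ∈ P) {p : ℕ} {Φ Φ' : (Fin (p + 1) → X) → Ext V}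
    (hΦ : SmOn P Φ) (hΦ' : SmOn P Φ') :
    mixR β b y p (fun h => Φ h + Φ' h) = mixR β b y p Φ + mixR β b y p Φ' := by
  induction p with
  | zero => rfl
  | succ p ih =>
    rw [mixR_succ, mixR_succ, mixR_succ, ← ih (hΦ.stp β b hy) (hΦ'.stp β b hy)]
    exact mixR_congr β b hP hy fun h hh => dd_add β b (hΦ.dslot hy hh) (hΦ'.dslot hy hh)

theorem mixR_sum (hP : IsOpen P) (hy : y ∈ P) {p : ℕ} {J : Type} (s : Finset J)
    {Φ : J → (Fin (p + 1) → X) → Ext V} (hΦ : ∀ j ∈ s, SmOn P (Φ j)) :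
    mixR β b y p (fun h => ∑ j ∈ s, Φ j h) = ∑ j ∈ s, mixR β b y p (Φ j) := by
  induction p with
  | zero => rfl
  | succ p ih =>
    simp only [mixR_succ]
    rw [← ih fun j hj => (hΦ j hj).stp β b hy]
    exact mixR_congr β b hP hy fun h hh => dd_sum β b s fun j hj => (hΦ j hj).dslot hy hh

theorem mixR_map (hP : IsOpen P) (hy : y ∈ P) {W : Type} [AddCommGroup W] [Module ℝ W]
    [FiniteDimensional ℝ W] (f : V →ₗ[ℝ] W) {p : ℕ} {Φ : (Fin (p + 1) → X) → Ext V}
    (hΦ : SmOn P Φ) : ExteriorAlgebra.map f (mixR β b y p Φ) =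
      mixR (fun i => f (β i)) b y p (fun h => ExteriorAlgebra.map f (Φ h)) := by
  induction p with
  | zero => rfl
  | succ p ih =>
    rw [mixR_succ, mixR_succ, ih (hΦ.stp β b hy)]
    exact mixR_congr _ b hP hy fun h hh => map_dd β b f (hΦ.dslot hy hh)

theorem mixR_const_mul (hP : IsOpen P) (hy : y ∈ P) {m : ℕ} {c : Ext V} (hc : c ∈ Deg V m)
    {p : ℕ} {Φ : (Fin (p + 1) → X) → Ext V} (hΦ : SmOn P Φ) :
    mixR β b y p (fun h => c * Φ h) = ((-1 : ℝ) ^ m) ^ p • (c * mixR β b y p Φ) := by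
  induction p with
  | zero => simp [mixR]
  | succ p ih =>
    rw [mixR_succ, mixR_succ, pow_succ', mul_smul, ← ih (hΦ.stp β b hy), ← mixR_smul]
    refine mixR_congr _ b hP hy fun h hh => ?_
    rw [stp, dd_const_mul β b c (hΦ.dslot hy hh), inv_of_deg hc, smul_mul_assoc]; rfl

/-- The chain rule for the van Est derivative. -/
theorem mixR_comp {X' J : Type} [NormedAddCommGroup X'] [NormedSpace ℝ X'] [Fintype J]
    (β' : J → V) (b' : J → X') {P' : Set X'} (hP' : IsOpen P') {φ : X' → X} {x : X'}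
    (hx : x ∈ P') (hφP : ∀ x ∈ P', φ x ∈ P) (hφ : DifferentiableAt ℝ φ x)
    (M : I → J → ℝ) (hM : ∀ j, fderiv ℝ φ x (b' j) = ∑ i, M i j • b i)
    {p : ℕ} {Φ : (Fin (p + 1) → X) → Ext V} (hΦ : SmOn P Φ) :
    mixR β' b' x p (fun h => Φ (fun i => φ (h i))) =
      mixR (fun i => ∑ j, M i j • β' j) b (φ x) p Φ := by
  induction p with
  | zero => rfl
  | succ p ih =>
    rw [mixR_succ, mixR_succ, ← ih (hΦ.stp _ b (hφP x hx))]
    refine mixR_congr _ _ hP' hx fun h hh => ?_
    rw [stp, stp, ← dd_comp b β' b' hφ M hM (hΦ.dslot (hφP x hx) fun i => hφP _ (hh i))]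
    congr 1
    funext z
    congr 1
    funext i
    exact Fin.cases rfl (fun j => rfl) i

theorem mixR_deg (hP : IsOpen P) (hy : y ∈ P) {p m : ℕ} {Φ : (Fin (p + 1) → X) → Ext V}
    (hΦ : ∀ h, (∀ i, h i ∈ P) → Φ h ∈ Deg V m) : mixR β b y p Φ ∈ Deg V (m + p) := by
  induction p generalizing m with
  | zero => exact hΦ _ fun _ => hy
  | succ p ih =>
    rw [mixR_succ, show m + (p + 1) = m + 1 + p by ring]
    refine ih fun h hh => dd_mem_deg β b ?_
    filter_upwards [hP.mem_nhds hy] with z hz using hΦ _ (cons_mem hz hh)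

theorem mixR_face (y : X) {p : ℕ} (Φ : (Fin (p + 1) → X) → Ext V) (i : Fin (p + 1)) :
    mixR β b y (p + 1) (fun h => Φ (h ∘ i.castSucc.succAbove)) = 0 := by
  induction p with
  | zero =>
    rw [Fin.fin_one_eq_zero i]
    exact dd_const β b (Φ fun _ => y) y
  | succ p ih =>
    refine Fin.cases ?_ (fun j => ?_) i
    · rw [mixR_succ, ← mixR_zero β b y (p + 1)]
      congr 1
      funext h
      exact dd_const β b (Φ h) y
    · rw [mixR_succ, ← ih (stp β b y Φ) j]
      congr 1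
      funext h
      rw [stp, stp]
      congr 1
      funext z
      rw [← Fin.succ_castSucc, cons_comp_succAbove]

/-- For a cocycle the derivative in all slots vanishes. -/
theorem mixR_last (hP : IsOpen P) (hy : y ∈ P) {p : ℕ} {Φ : (Fin (p + 1) → X) → Ext V}
    (hΦ : SmOn P Φ) (hc : ∀ h : Fin (p + 2) → X, (∀ i, h i ∈ P) → cob Φ h = 0) :
    mixR β b y (p + 1) (fun h => Φ (h ∘ (Fin.last (p + 1)).succAbove)) = 0 := by
  have h1 := mixR_congr β b hP hy hc
  rw [mixR_zero] at h1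
  unfold cob at h1
  rw [mixR_sum β b hP hy _ fun j _ h hh => (hΦ.reindex j.succAbove h hh).const_smul _,
    Fin.sum_univ_castSucc] at h1
  simp only [mixR_smul, mixR_face, smul_zero, Finset.sum_const_zero, zero_add] at h1
  exact (smul_eq_zero.mp h1).resolve_left (pow_ne_zero _ (by norm_num))

theorem mixR_cup (hP : IsOpen P) (hy : y ∈ P) (p q : ℕ) {m : ℕ} {Φ : (Fin (p + 1) → X) → Ext V}
    (hΦ : SmOn P Φ) (hd : ∀ h, (∀ i, h i ∈ P) → Φ h ∈ Deg V m)
    (h0 : mixR β b y (p + 1) (fun h => Φ (h ∘ (Fin.last (p + 1)).succAbove)) = 0)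
    {g : (Fin (q + 1) → X) → ℝ} (hg : SmOn P g) :
    mixR β b y (q + p) (cup p q Φ g) = ((-1 : ℝ) ^ (m + p)) ^ q •
      (mixR β b y p Φ * mixR β b y q (fun h => algebraMap ℝ _ (g h))) := by
  induction p generalizing m with
  | zero =>
    cases q with
    | zero =>
      simp only [mixR, cup, pow_zero, one_smul]
      rw [← Algebra.commutes, Algebra.smul_def]; rfl
    | succ q =>
      have hc : Φ (fun _ => y) ∈ Deg V m := hd _ fun _ => hy
      have h1 : ∀ z, (Fin.cons z fun _ => y : Fin 2 → X) ∘ (Fin.last 1).succAbove =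
          fun _ => z := by
        intro z; funext i; rw [Fin.fin_one_eq_zero i]; rfl
      have h2 : dd β b (fun z => Φ (fun _ => z)) y = 0 := by
        rw [← h0]
        simp only [mixR, h1]
      change mixR β b y q (stp β b y (cup 0 (q + 1) Φ g)) = _ • (Φ (fun _ => y) * _)
      rw [add_zero, pow_succ', mul_smul, mixR_succ,
        ← mixR_const_mul β b hP hy hc (hg.alg.stp β b hy), ← mixR_smul]
      refine mixR_congr β b hP hy fun h hh => ?_
      have e : (fun z => cup 0 (q + 1) Φ g (Fin.cons z h)) =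
          fun z => Φ (fun _ => z) * algebraMap ℝ _ (g (Fin.cons z h)) := by
        funext z
        rw [cup, front_zero, back_zero, ← Algebra.commutes, Algebra.smul_def]; rfl
      have h3 : DifferentiableAt ℝ (fun z => Φ (fun _ => z)) y :=
        ((hΦ _ fun _ => hy).comp y (contDiffAt_pi.mpr fun _ => contDiffAt_id)).differentiableAt
          infty_ne_zero
      rw [stp, e, dd_mul β b h3 (hg.alg.dslot hy hh), h2, zero_mul, zero_add, inv_of_deg hc,
        smul_mul_assoc]; rfl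
  | succ p ih =>
    have h1 : mixR β b y (p + 1) (fun h => stp β b y Φ (h ∘ (Fin.last (p + 1)).succAbove)) = 0 := by
      rw [← h0, mixR_succ β b y (p + 1)]
      congr 1
      funext h
      rw [stp, stp]
      congr 1
      funext z
      rw [← Fin.succ_last (p + 1), cons_comp_succAbove]
    have h2 := ih (m := m + 1) (hΦ.stp β b hy) (fun h hh => dd_mem_deg β b (by
      filter_upwards [hP.mem_nhds hy] with z hz using hd _ (cons_mem hz hh))) h1
    rw [show m + (p + 1) = m + 1 + p by ring, mixR_succ β b y p, ← h2]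
    change mixR β b y (q + p) (stp β b y (cup (p + 1) q Φ g)) = _
    congr 1
    funext h
    have e : (fun z => cup (p + 1) q Φ g (Fin.cons z h)) =
        fun z => g (back p q h) • Φ (Fin.cons z (front p q h)) := by
      funext z
      rw [cup, front_cons, back_cons]
    rw [stp, e, dd_smul]; rfl

end Pool.Agent.Lib.MP_cdc9ab_al
end

-- part Pool.Agent.Lib.MP_cdc9ab_al.Kone
section

open scoped ContDiff Topology ENNReal
open Finset Filter MeasureTheory

namespace Pool.Agent.Lib.MP_cdc9ab_al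

variable {X : Type} [NormedAddCommGroup X] [NormedSpace ℝ X] [FiniteDimensional ℝ X]

/-- Forms on `X`. -/
abbrev Fm (X : Type) [AddCommGroup X] [Module ℝ X] : Type := Ext (Module.Dual ℝ X)

/-- Contraction as a bilinear map. -/
noncomputable def ivL : X →ₗ[ℝ] Fm X →L[ℝ] Fm X :=
  (LinearMap.toContinuousLinearMap (𝕜 := ℝ) (E := Fm X) (F' := Fm X)).toLinearMap ∘ₗ
    CliffordAlgebra.contractLeft ∘ₗ Module.Dual.eval ℝ X

theorem ivL_apply (v : X) (x : Fm X) : ivL v x = iv v x := rfl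

theorem contDiffAt_iv {Z : Type} [NormedAddCommGroup Z] [NormedSpace ℝ Z] {n : WithTop ℕ∞}
    {f : Z → X} {g : Z → Fm X} {z : Z} (hf : ContDiffAt ℝ n f z) (hg : ContDiffAt ℝ n g z) :
    ContDiffAt ℝ n (fun y => iv (f y) (g y)) z := (contDiffAt_lin ivL hf).clm_apply hg

theorem fderiv_iv {Z : Type} [NormedAddCommGroup Z] [NormedSpace ℝ Z]
    {f : Z → X} {g : Z → Fm X} {z : Z} (hf : DifferentiableAt ℝ f z)
    (hg : DifferentiableAt ℝ g z) (v : Z) :
    fderiv ℝ (fun y => iv (f y) (g y)) z v =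
      iv (fderiv ℝ f z v) (g z) + iv (f z) (fderiv ℝ g z v) := by
  have h1 := hasFDerivAt_lin (ivL (X := X)) hf
  have h2 := (h1.clm_apply hg.hasFDerivAt).fderiv
  refine (congrArg (fun T => T v) h2).trans ?_
  rw [add_comm]; rfl

/-- The cone operator. -/
noncomputable def Kc (m : ℕ) (h : X) (w : X → Fm X) (y : X) : Fm X :=
  ∫ s in Set.Icc (0 : ℝ) 1, s ^ m • iv (y - h) (w (h + s • (y - h)))

variable {P : Set X}

omit [FiniteDimensional ℝ X] in
theorem seg_mem (hc : Convex ℝ P) {h y : X} (hh : h ∈ P) (hy : y ∈ P) {s : ℝ}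
    (hs : s ∈ Set.Icc (0 : ℝ) 1) : h + s • (y - h) ∈ P := hc.add_smul_sub_mem hh hy hs

theorem Kc_congr (hc : Convex ℝ P) (m : ℕ) {h y : X} (hh : h ∈ P) (hy : y ∈ P)
    {w w' : X → Fm X} (e : ∀ x ∈ P, w x = w' x) : Kc m h w y = Kc m h w' y :=
  setIntegral_congr_fun measurableSet_Icc fun s hs => by
    simp only [e _ (seg_mem hc hh hy hs)]

theorem Kc_zero (m : ℕ) (h y : X) : Kc m h (fun _ => 0) y = 0 := by simp [Kc]

theorem Kc_self (m : ℕ) (y : X) (w : X → Fm X) : Kc m y w y = 0 := by simp [Kc, iv_zero]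

theorem Kc_integrable (hc : Convex ℝ P) (m : ℕ) {h y : X} (hh : h ∈ P) (hy : y ∈ P)
    {w : X → Fm X} (hw : ∀ x ∈ P, ContinuousAt w x) (v : X) :
    Integrable (fun s : ℝ => s ^ m • iv v (w (h + s • (y - h))))
      (volume.restrict (Set.Icc 0 1)) := by
  refine ContinuousOn.integrableOn_compact isCompact_Icc fun s hs => ?_
  refine ContinuousAt.continuousWithinAt ((continuous_pow m).continuousAt.smul ?_)
  exact (continuous_lin (iv v)).continuousAt.comp
    ((hw _ (seg_mem hc hh hy hs)).comp (f := fun s : ℝ => h + s • (y - h)) (by fun_prop))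

theorem Kc_cob (hc : Convex ℝ P) (m : ℕ) {h y : X} (hh : h ∈ P) (hy : y ∈ P) {p : ℕ}
    {w : (Fin p → X) → X → Fm X} {k : Fin (p + 1) → X}
    (hw : ∀ i : Fin (p + 1), ∀ x ∈ P, ContinuousAt (w (k ∘ i.succAbove)) x) :
    Kc m h (fun x => cob (fun k => w k x) k) y = cob (fun k => Kc m h (w k) y) k := by
  simp only [Kc, cob, map_sum, map_smul, Finset.smul_sum]
  rw [integral_finsetSum _ fun i _ => ?_]
  · refine Finset.sum_congr rfl fun i _ => ?_
    rw [← integral_smul]
    simp only [smul_comm ((-1 : ℝ) ^ (i : ℕ))]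
  · simp only [smul_comm _ ((-1 : ℝ) ^ (i : ℕ))]
    exact (Kc_integrable hc m hh hy (hw i) _).smul ((-1 : ℝ) ^ (i : ℕ))

theorem Kc_deg (hc : Convex ℝ P) {m n : ℕ} {h y : X} (hh : h ∈ P) (hy : y ∈ P) {w : X → Fm X}
    (hw : ∀ x ∈ P, w x ∈ Deg _ (n + 1)) : Kc m h w y ∈ Deg _ n := by
  refine integral_mem _ _ ?_
  filter_upwards [ae_restrict_mem measurableSet_Icc] with s hs
  exact Submodule.smul_mem _ _ (ctr_mem_deg _ (hw _ (seg_mem hc hh hy hs)))

theorem pull_Kc (hc : Convex ℝ P) (m : ℕ) (A : X →L[ℝ] X) {h y : X} (hh : A h ∈ P)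
    (hy : A y ∈ P) {w : X → Fm X} (hw : ∀ x ∈ P, ContinuousAt w x) :
    pull (A : X →ₗ[ℝ] X) (Kc m (A h) w (A y)) =
      Kc m h (fun x => pull (A : X →ₗ[ℝ] X) (w (A x))) y := by
  have := integral_lin (pull (A : X →ₗ[ℝ] X)).toLinearMap (Kc_integrable hc m hh hy hw (A y - A h))
  refine this.trans (setIntegral_congr_fun measurableSet_Icc fun s _ => ?_)
  simp only [AlgHom.toLinearMap_apply, map_smul, iv_pull, map_add, map_sub,
    ContinuousLinearMap.coe_coe]

section param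
variable {Z : Type} [NormedAddCommGroup Z] [NormedSpace ℝ Z] {O : Set Z}
  {w : Z → X → Fm X} {h y : Z → X}

omit [FiniteDimensional ℝ X] in
theorem isOpen_seg (hP : IsOpen P) (hO : IsOpen O) (hh : ∀ z ∈ O, ContDiffAt ℝ ∞ h z)
    (hy : ∀ z ∈ O, ContDiffAt ℝ ∞ y z) :
    IsOpen {p : Z × ℝ | p.1 ∈ O ∧ h p.1 + p.2 • (y p.1 - h p.1) ∈ P} := by
  rw [isOpen_iff_mem_nhds]
  rintro p ⟨h1, h2⟩
  have e1 := (hh _ h1).continuousAt.comp (continuousAt_fst (p := p))
  have e2 := (hy _ h1).continuousAt.comp (continuousAt_fst (p := p))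
  exact (continuousAt_fst.eventually (hO.mem_nhds h1)).and
    ((e1.add (continuousAt_snd.smul (e2.sub e1))).eventually (hP.mem_nhds h2))

theorem contDiffAt_Kint (hw : ∀ z ∈ O, ∀ x ∈ P, ContDiffAt ℝ ∞ (Function.uncurry w) (z, x))
    (hh : ∀ z ∈ O, ContDiffAt ℝ ∞ h z) (hy : ∀ z ∈ O, ContDiffAt ℝ ∞ y z) :
    ∀ p ∈ {p : Z × ℝ | p.1 ∈ O ∧ h p.1 + p.2 • (y p.1 - h p.1) ∈ P},
      ContDiffAt ℝ ∞ (fun p : Z × ℝ =>
        iv (y p.1 - h p.1) (w p.1 (h p.1 + p.2 • (y p.1 - h p.1)))) p := by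
  rintro p ⟨h1, h2⟩
  have e1 := (hh _ h1).comp p contDiffAt_fst
  have e2 := (hy _ h1).comp p contDiffAt_fst
  have e3 : ContDiffAt ℝ ∞ (fun p : Z × ℝ => (p.1, h p.1 + p.2 • (y p.1 - h p.1))) p :=
    contDiffAt_fst.prodMk (e1.add (contDiffAt_snd.smul (e2.sub e1)))
  have e4 := (hw _ h1 _ h2).comp p e3
  exact contDiffAt_iv (e2.sub e1) e4

theorem contDiffAt_Kc (hP : IsOpen P) (hc : Convex ℝ P) (hO : IsOpen O) (m : ℕ)
    (hw : ∀ z ∈ O, ∀ x ∈ P, ContDiffAt ℝ ∞ (Function.uncurry w) (z, x))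
    (hh : ∀ z ∈ O, ContDiffAt ℝ ∞ h z) (hy : ∀ z ∈ O, ContDiffAt ℝ ∞ y z)
    {z : Z} (hz : z ∈ O) (hhP : h z ∈ P) (hyP : y z ∈ P) :
    ContDiffAt ℝ ∞ (fun z => Kc m (h z) (w z) (y z)) z :=
  param_smooth (ρ := id) (c := fun s : ℝ => s ^ m) isCompact_Icc measurableSet_Icc continuousOn_id
    (continuous_pow m).continuousOn.integrableOn_Icc (isOpen_seg hP hO hh hy)
    (contDiffAt_Kint hw hh hy) fun _ hs => ⟨hz, seg_mem hc hhP hyP hs⟩

end param

theorem iv_dX (u : X) (w : X → Fm X) (x : X) :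
    iv u (dX w x) = fderiv ℝ w x u - ∑ i, io (fc X i) * iv u (fderiv ℝ w x (fb X i)) := by
  rw [dX, dd, map_sum]
  simp only [iv_io_mul, Finset.sum_sub_distrib]
  congr 1
  conv_rhs => rw [← sum_fc_smul u, map_sum]
  simp only [map_smul]

theorem integral_seg (hc : Convex ℝ P) (m : ℕ) {h y : X} (hh : h ∈ P) (hy : y ∈ P)
    {w : X → Fm X} (hw : ∀ x ∈ P, ContDiffAt ℝ ∞ w x) :
    ∫ s in Set.Icc (0 : ℝ) 1, (((m : ℝ) * s ^ (m - 1)) • w (h + s • (y - h)) +
      s ^ m • fderiv ℝ w (h + s • (y - h)) (y - h)) = w y - (0 : ℝ) ^ m • w h := by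
  have hd : ∀ s ∈ Set.uIcc (0 : ℝ) 1, HasDerivAt (fun s : ℝ => s ^ m • w (h + s • (y - h)))
      (((m : ℝ) * s ^ (m - 1)) • w (h + s • (y - h)) +
        s ^ m • fderiv ℝ w (h + s • (y - h)) (y - h)) s := by
    intro s hs
    rw [Set.uIcc_of_le zero_le_one] at hs
    have h1 : HasDerivAt (fun s : ℝ => h + s • (y - h)) (y - h) s := by
      simpa using ((hasDerivAt_id s).smul_const (y - h)).const_add h
    have h2 := ((hw _ (seg_mem hc hh hy hs)).differentiableAt
      infty_ne_zero).hasFDerivAt.comp_hasDerivAt s h1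
    rw [add_comm]
    exact (hasDerivAt_pow m s).smul h2
  have hi : ContinuousOn (fun s : ℝ => ((m : ℝ) * s ^ (m - 1)) • w (h + s • (y - h)) +
      s ^ m • fderiv ℝ w (h + s • (y - h)) (y - h)) (Set.uIcc 0 1) := by
    intro s hs
    rw [Set.uIcc_of_le zero_le_one] at hs
    have h0 := hw _ (seg_mem hc hh hy hs)
    have h1 : ContinuousAt (fun s : ℝ => h + s • (y - h)) s := by fun_prop
    have h2 : ContinuousAt (fun s : ℝ => (m : ℝ) * s ^ (m - 1)) s := by fun_prop
    have h3 : ContinuousAt (fun s : ℝ => s ^ m) s := by fun_prop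
    refine ContinuousAt.continuousWithinAt (ContinuousAt.add (h2.smul
      (h0.continuousAt.comp (f := fun s : ℝ => h + s • (y - h)) h1)) (h3.smul ?_))
    exact ((h0.fderiv_right infty_add_one_le).continuousAt.comp
      (f := fun s : ℝ => h + s • (y - h)) h1).clm_apply continuousAt_const
  have := intervalIntegral.integral_eq_sub_of_hasDerivAt hd hi.intervalIntegrable
  rw [intervalIntegral.integral_of_le zero_le_one, ← integral_Icc_eq_integral_Ioc] at this
  rw [this]; simp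

theorem continuousAt_dX {w : X → Fm X} {x : X} (hw : ContDiffAt ℝ ∞ w x) :
    ContinuousAt (dX w) x := (contDiffAt_dd' _ _ hw).continuousAt

theorem fderiv_mem_deg (hP : IsOpen P) {n : ℕ} {w : X → Fm X} (hd : ∀ x ∈ P, w x ∈ Deg _ n)
    {x : X} (hx : x ∈ P) (v : X) : fderiv ℝ w x v ∈ Deg _ n :=
  fderiv_mem _ (by filter_upwards [hP.mem_nhds hx] with z hz using hd z hz) v

/-- The homotopy formula in degree zero. -/
theorem Kc_dX_zero (hP : IsOpen P) (hc : Convex ℝ P) {h y : X} (hh : h ∈ P) (hy : y ∈ P)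
    {w : X → Fm X} (hw : ∀ x ∈ P, ContDiffAt ℝ ∞ w x) (hd : ∀ x ∈ P, w x ∈ Deg _ 0) :
    Kc 0 h (dX w) y = w y - w h := by
  have := integral_seg hc 0 hh hy hw
  rw [pow_zero, one_smul] at this
  rw [← this]
  refine setIntegral_congr_fun measurableSet_Icc fun s hs => ?_
  simp only [iv_dX, ctr_of_deg_zero _ (fderiv_mem_deg hP hd (seg_mem hc hh hy hs) _)]
  simp

/-- The homotopy formula in positive degree. -/
theorem dX_Kc (hP : IsOpen P) (hc : Convex ℝ P) (m : ℕ) {h y : X} (hh : h ∈ P) (hy : y ∈ P)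
    {w : X → Fm X} (hw : ∀ x ∈ P, ContDiffAt ℝ ∞ w x) (hd : ∀ x ∈ P, w x ∈ Deg _ (m + 1)) :
    dX (Kc m h w) y = w y - Kc (m + 1) h (dX w) y := by
  have h0 := integral_seg hc (m + 1) hh hy hw
  rw [zero_pow (Nat.succ_ne_zero m), zero_smul, sub_zero] at h0
  have hw' : ∀ z ∈ P, ∀ x ∈ P, ContDiffAt ℝ ∞ (Function.uncurry fun _ : X => w) (z, x) :=
    fun z _ x hx => (hw x hx).comp (z, x) contDiffAt_snd
  have hU := isOpen_seg (h := fun _ => h) (y := id) hP hP (fun _ _ => contDiffAt_const)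
    fun _ _ => contDiffAt_id
  have hΨ := contDiffAt_Kint (h := fun _ => h) (y := id) hw' (fun _ _ => contDiffAt_const)
    fun _ _ => contDiffAt_id
  have h1 : ∀ v, fderiv ℝ (Kc m h w) y v = ∫ s in Set.Icc (0 : ℝ) 1,
      (s ^ m • iv v (w (h + s • (y - h))) +
        s ^ (m + 1) • iv (y - h) (fderiv ℝ w (h + s • (y - h)) v)) := by
    intro v
    refine (param_fderiv (ρ := id) (c := fun s : ℝ => s ^ m) isCompact_Icc measurableSet_Icc
      continuousOn_id (continuous_pow m).continuousOn.integrableOn_Icc hU hΨ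
      (fun _ hs => ⟨hy, seg_mem hc hh hy hs⟩) v).trans
      (setIntegral_congr_fun measurableSet_Icc fun s hs => ?_)
    have e1 : HasFDerivAt (fun x : X => x - h) (ContinuousLinearMap.id ℝ X) y :=
      (hasFDerivAt_id y).sub_const h
    have e2 := ((hw _ (seg_mem hc hh hy hs)).differentiableAt infty_ne_zero).hasFDerivAt.comp y
      ((e1.const_smul s).const_add h)
    have e3 := fderiv_iv e1.differentiableAt e2.differentiableAt v
    rw [e1.fderiv, e2.fderiv] at e3
    simp only [id]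
    refine (congrArg _ e3).trans ?_
    simp only [ContinuousLinearMap.id_apply, ContinuousLinearMap.comp_apply, smul_apply, map_smul,
      smul_add, smul_smul, pow_succ, Function.comp_apply, Pi.smul_apply]
  have i1 := fun v => Kc_integrable hc m hh hy (fun x hx => (hw x hx).continuousAt) v
  have i2 := fun v => Kc_integrable hc (m + 1) hh hy (w := fun x => fderiv ℝ w x v)
    (fun x hx => ((hw x hx).fderiv_right infty_add_one_le).continuousAt.clm_apply
      continuousAt_const) (y - h)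
  have i3 := Kc_integrable hc (m + 1) hh hy (fun x hx => continuousAt_dX (hw x hx)) (y - h)
  have i4 : ∀ i, Integrable (fun s : ℝ => LinearMap.mulLeft ℝ (io (fc X i))
      (s ^ m • iv (fb X i) (w (h + s • (y - h))) +
        s ^ (m + 1) • iv (y - h) (fderiv ℝ w (h + s • (y - h)) (fb X i))))
      (volume.restrict (Set.Icc 0 1)) := fun i =>
    (LinearMap.toContinuousLinearMap (LinearMap.mulLeft ℝ (io (fc X i)))).integrable_comp
      ((i1 _).add (i2 _))
  have h2 : dX (Kc m h w) y = ∫ s in Set.Icc (0 : ℝ) 1, ∑ i, LinearMap.mulLeft ℝ (io (fc X i))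
      (s ^ m • iv (fb X i) (w (h + s • (y - h))) +
        s ^ (m + 1) • iv (y - h) (fderiv ℝ w (h + s • (y - h)) (fb X i))) := by
    rw [integral_finsetSum _ fun i _ => i4 i, dX, dd]
    refine Finset.sum_congr rfl fun i _ => ?_
    rw [h1]
    exact integral_lin (LinearMap.mulLeft ℝ (io (fc X i))) ((i1 _).add (i2 _))
  rw [eq_sub_iff_add_eq, h2, Kc, ← integral_add (integrable_finsetSum _ fun i _ => i4 i) i3, ← h0]
  refine setIntegral_congr_fun measurableSet_Icc fun s hs => ?_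
  have e := sum_fc_iv (hd _ (seg_mem hc hh hy hs))
  generalize h + s • (y - h) = x at e ⊢
  generalize y - h = u
  simp only [LinearMap.mulLeft_apply, mul_add, mul_smul_comm, Finset.sum_add_distrib,
    ← Finset.smul_sum, iv_dX, e, smul_sub, smul_smul, Nat.add_sub_cancel]
  rw [mul_comm]
  abel

end Pool.Agent.Lib.MP_cdc9ab_al
end

-- part Pool.Agent.Lib.MP_cdc9ab_al.Cone
section

open scoped ContDiff Topology ENNReal
open Finset Filter MeasureTheory

namespace Pool.Agent.Lib.MP_cdc9ab_al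

section pt
variable {X : Type} [NormedAddCommGroup X] [NormedSpace ℝ X]

/-- The tangent vectors of the cone parametrisation. -/
noncomputable def cT : (p : ℕ) → (Fin p → X) → X → (Fin p → ℝ) → Fin p → X
  | 0, _, _, _ => fun i => i.elim0
  | p + 1, h, y, s => Fin.cons ((∏ i, Fin.tail s i) • (y - h 0))
      (cT p (Fin.tail h) (h 0 + s 0 • (y - h 0)) (Fin.tail s))

theorem conePt_add (p : ℕ) (h : Fin p → X) (y v : X) (s : Fin p → ℝ) :
    conePt p h (y + v) s = conePt p h y s + (∏ i, s i) • v := by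
  induction p generalizing y v with
  | zero => simp [conePt]
  | succ p ih =>
    rw [conePt, conePt, Fin.prod_univ_succ, mul_comm, mul_smul]
    refine Eq.trans ?_ (ih _ _ _ _)
    congr 1
    module

theorem contDiff_conePt (p : ℕ) (h : Fin p → X) :
    ContDiff ℝ ∞ (fun q : X × (Fin p → ℝ) => conePt p h q.1 q.2) := by
  induction p with
  | zero => exact contDiff_fst
  | succ p ih =>
    have e : ContDiff ℝ ∞ (fun q : X × (Fin (p + 1) → ℝ) =>
        (h 0 + q.2 0 • (q.1 - h 0), Fin.tail q.2)) := by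
      refine ContDiff.prodMk (by fun_prop) (contDiff_pi.mpr fun i => ?_)
      exact (contDiff_apply ℝ ℝ i.succ).comp contDiff_snd
    exact (ih (Fin.tail h)).comp e

theorem continuous_cT (p : ℕ) (h : Fin p → X) :
    Continuous (fun q : X × (Fin p → ℝ) => cT p h q.1 q.2) := by
  induction p with
  | zero => exact continuous_const
  | succ p ih =>
    have e : Continuous (fun q : X × (Fin (p + 1) → ℝ) =>
        (h 0 + q.2 0 • (q.1 - h 0), Fin.tail q.2)) := by
      refine Continuous.prodMk (by fun_prop) (continuous_pi fun i => ?_)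
      exact (continuous_apply i.succ).comp continuous_snd
    refine continuous_pi fun i => Fin.cases ?_ (fun j => ?_) i
    · simp only [cT, Fin.cons_zero, Fin.tail]
      fun_prop
    · exact (continuous_apply j).comp ((ih (Fin.tail h)).comp e)

theorem hasDerivAt_conePt (p : ℕ) (h : Fin p → X) (y : X) (s : Fin p → ℝ) (i : Fin p) :
    HasDerivAt (fun t : ℝ => conePt p h y (s + t • (Pi.single i 1 : Fin p → ℝ)))
      (cT p h y s i) 0 := by
  induction p generalizing y with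
  | zero => exact i.elim0
  | succ p ih =>
    refine Fin.cases ?_ (fun j => ?_) i
    · have e : (fun t : ℝ => conePt (p + 1) h y (s + t • (Pi.single 0 1 : Fin (p + 1) → ℝ))) =
          fun t => conePt p (Fin.tail h) (h 0 + s 0 • (y - h 0)) (Fin.tail s) +
            t • (∏ i, Fin.tail s i) • (y - h 0) := by
        funext t
        have e1 : Fin.tail (s + t • (Pi.single 0 1 : Fin (p + 1) → ℝ)) = Fin.tail s := by
          funext j; simp [Fin.tail]
        rw [conePt, e1, smul_comm, ← conePt_add]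
        congr 1
        simp [add_smul, add_assoc]
      rw [e]
      simpa [cT] using ((hasDerivAt_id (0 : ℝ)).smul_const
        ((∏ i, Fin.tail s i) • (y - h 0))).const_add
          (conePt p (Fin.tail h) (h 0 + s 0 • (y - h 0)) (Fin.tail s))
    · have e : (fun t : ℝ => conePt (p + 1) h y (s + t • (Pi.single j.succ 1 : Fin (p + 1) → ℝ))) =
          fun t => conePt p (Fin.tail h) (h 0 + s 0 • (y - h 0))
            (Fin.tail s + t • (Pi.single j 1 : Fin p → ℝ)) := by
        funext t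
        have e1 : Fin.tail (s + t • (Pi.single j.succ 1 : Fin (p + 1) → ℝ)) =
            Fin.tail s + t • (Pi.single j 1 : Fin p → ℝ) := by
          funext k; simp [Fin.tail, Pi.single_apply]
        rw [conePt, e1]
        congr 1
        simp [(Fin.succ_ne_zero j).symm]
      rw [e]
      exact ih _ _ _ _

theorem fderiv_conePt (p : ℕ) (h : Fin p → X) (y : X) (s : Fin p → ℝ) (i : Fin p) :
    fderiv ℝ (conePt p h y) s (Pi.single i 1) = cT p h y s i := by
  have h1 : DifferentiableAt ℝ (conePt p h y) s :=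
    (((contDiff_conePt p h).comp (contDiff_prodMk_right y)).differentiable infty_ne_zero) s
  have h2 : HasDerivAt (fun t : ℝ => s + t • (Pi.single i 1 : Fin p → ℝ)) (Pi.single i 1) 0 := by
    simpa using ((hasDerivAt_id (0 : ℝ)).smul_const (Pi.single i 1 : Fin p → ℝ)).const_add s
  have h3 := HasFDerivAt.comp_hasDerivAt_of_eq (0 : ℝ) h1.hasFDerivAt h2 (by simp)
  exact h3.unique (hasDerivAt_conePt p h y s i)

theorem conePt_mem {P : Set X} (hc : Convex ℝ P) (p : ℕ) {h : Fin p → X} {y : X}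
    (hh : ∀ i, h i ∈ P) (hy : y ∈ P) {s : Fin p → ℝ} (hs : ∀ i, s i ∈ Set.Ioo (0 : ℝ) 1) :
    conePt p h y s ∈ P := by
  induction p generalizing y with
  | zero => exact hy
  | succ p ih =>
    exact ih (fun i => hh _) (seg_mem hc (hh 0) hy (Set.Ioo_subset_Icc_self (hs 0))) fun i => hs _

end pt

variable {X : Type} [NormedAddCommGroup X] [NormedSpace ℝ X] [FiniteDimensional ℝ X]
  {P : Set X}

theorem continuousOn_ctrs {Z : Type} [TopologicalSpace Z] {S : Set Z} {p : ℕ} {v : Z → Fin p → X}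
    {x : Z → Fm X} (hv : ContinuousOn v S) (hx : ContinuousOn x S) :
    ContinuousOn (fun z => ctrs p (fun i => Module.Dual.eval ℝ X (v z i)) (x z)) S := by
  induction p with
  | zero => exact hx
  | succ p ih =>
    have h1 := (continuous_lin (ivL (X := X))).comp_continuousOn
      ((continuous_apply 0).comp_continuousOn hv)
    exact h1.clm_apply (ih (v := fun z => Fin.tail (v z))
      (continuousOn_pi.mpr fun i => (continuous_apply i.succ).comp_continuousOn hv))

omit [FiniteDimensional ℝ X] in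
theorem dd_diag {V I : Type} [AddCommGroup V] [Module ℝ V] [FiniteDimensional ℝ V] [Fintype I]
    (β : I → V) (b : I → X) {G : X × X → Ext V} {y : X} (hG : DifferentiableAt ℝ G (y, y)) :
    dd β b (fun z => G (z, z)) y =
      dd β b (fun z => G (z, y)) y + dd β b (fun z => G (y, z)) y := by
  have h1 : HasFDerivAt (fun z => G (z, z)) _ y :=
    HasFDerivAt.comp (f := fun z => (z, z)) y hG.hasFDerivAt
      ((hasFDerivAt_id (𝕜 := ℝ) y).prodMk (hasFDerivAt_id y))
  have h2 : HasFDerivAt (fun z => G (z, y)) _ y :=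
    HasFDerivAt.comp (f := fun z => (z, y)) y hG.hasFDerivAt (hasFDerivAt_prodMk_left (𝕜 := ℝ) y y)
  have h3 : HasFDerivAt (fun z => G (y, z)) _ y :=
    HasFDerivAt.comp (f := fun z => (y, z)) y hG.hasFDerivAt (hasFDerivAt_prodMk_right (𝕜 := ℝ) y y)
  simp only [dd, h1.fderiv, h2.fderiv, h3.fderiv, ← Finset.sum_add_distrib, ← mul_add]
  refine Finset.sum_congr rfl fun i _ => ?_
  congr 1
  simp only [ContinuousLinearMap.comp_apply, ← map_add]
  congr 1
  simp

omit [FiniteDimensional ℝ X] in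
theorem dd_cob {V I : Type} [AddCommGroup V] [Module ℝ V] [FiniteDimensional ℝ V] [Fintype I]
    (β : I → V) (b : I → X) {Y : Type} {p : ℕ} {w : (Fin p → Y) → X → Ext V}
    {k : Fin (p + 1) → Y} {y : X}
    (hw : ∀ i : Fin (p + 1), DifferentiableAt ℝ (w (k ∘ i.succAbove)) y) :
    dd β b (fun x => cob (fun k => w k x) k) y = cob (fun k => dd β b (w k) y) k := by
  simp only [cob]
  rw [dd_sum β b _ fun i _ => (hw i).fun_const_smul _]
  simp only [dd_smul]

/-- The van Est derivative in an arbitrary frame. -/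
theorem mixR_frame (hP : IsOpen P) {y : X} (hy : y ∈ P) {I : Type} [Fintype I] [DecidableEq I]
    (b : I → X) {p : ℕ} {f : (Fin (p + 1) → X) → ℝ} (hf : SmOn P f) :
    mixR (fun a => (Pi.single a 1 : I → ℝ)) b y p (fun h => algebraMap ℝ _ (f h)) =
      ExteriorAlgebra.map (resFr b) (mixR (fc X) (fb X) y p fun h => algebraMap ℝ _ (f h)) := by
  rw [mixR_map _ _ hP hy _ hf.alg]
  simp only [AlgHom.commutes]
  have := mixR_comp (fb X) (fun a => (Pi.single a 1 : I → ℝ)) b hP (φ := id) hy (fun _ h => h)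
    differentiableAt_id (fun i j => fc X i (b j)) (fun j => by simp [sum_fc_smul]) hf.alg
  refine this.trans ?_
  congr 1
  funext i j
  simp [resFr, Finset.sum_apply, Pi.single_apply]

/-- Joint smoothness in the parameters and the base point. -/
def SmJ (P : Set X) {p : ℕ} (c : (Fin p → X) → X → Fm X) : Prop :=
  ∀ h, (∀ i, h i ∈ P) → ∀ y ∈ P, ContDiffAt ℝ ∞ (Function.uncurry c) (h, y)

theorem SmJ.pt {p : ℕ} {c : (Fin p → X) → X → Fm X} (hc : SmJ P c) {h : Fin p → X}
    (hh : ∀ i, h i ∈ P) {y : X} (hy : y ∈ P) : ContDiffAt ℝ ∞ (c h) y :=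
  (hc h hh y hy).comp y (contDiffAt_const.prodMk contDiffAt_id)

theorem SmJ.comp {p : ℕ} {c : (Fin p → X) → X → Fm X} (hc : SmJ P c) {Z : Type}
    [NormedAddCommGroup Z] [NormedSpace ℝ Z] {h : Z → Fin p → X} {y : Z → X} {z : Z}
    (hh : ContDiffAt ℝ ∞ h z) (hy : ContDiffAt ℝ ∞ y z) (hh' : ∀ i, h z i ∈ P) (hy' : y z ∈ P) :
    ContDiffAt ℝ ∞ (fun z => c (h z) (y z)) z := by
  have := (hc _ hh' _ hy').comp z (hh.prodMk hy)
  exact this

theorem SmJ.cob {p : ℕ} {c : (Fin p → X) → X → Fm X} (hc : SmJ P c) :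
    SmJ P (fun k y => cob (fun k => c k y) k) := by
  intro h hh y hy
  have := ContDiffAt.sum (s := Finset.univ) fun (i : Fin (p + 1)) _ => (hc.comp (z := (h, y))
    (h := fun q : (Fin (p + 1) → X) × X => q.1 ∘ i.succAbove) (y := Prod.snd)
    ((contDiffAt_reindex i.succAbove h).comp (h, y) contDiffAt_fst) contDiffAt_snd
    (fun _ => hh _) hy).const_smul ((-1 : ℝ) ^ (i : ℕ))
  exact this

theorem SmJ.Kc (hP : IsOpen P) (hcv : Convex ℝ P) (m : ℕ) {p : ℕ}
    {c : (Fin (p + 1) → X) → X → Fm X} (hc : SmJ P c) : SmJ P (fun h => Kc m (h 0) (c h)) := by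
  intro h hh y hy
  have hO : IsOpen {q : (Fin (p + 1) → X) × X | ∀ i, q.1 i ∈ P} :=
    isOpen_iff_mem_nhds.mpr fun q hq => continuousAt_fst.eventually (eventually_mem_tuple hP hq)
  exact contDiffAt_Kc (w := fun q : (Fin (p + 1) → X) × X => c q.1) (h := fun q => q.1 0)
    (y := fun q => q.2) hP hcv hO m
    (fun q hq x hx => hc.comp (z := (q, x)) (contDiffAt_fst.comp _ contDiffAt_fst) contDiffAt_snd
      hq hx)
    (fun q _ => (contDiffAt_apply ℝ X 0 q.1).comp q contDiffAt_fst) (fun _ _ => contDiffAt_snd)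
    (z := (h, y)) hh (hh 0) hy

/-- Integration over iterated cones. -/
noncomputable def uc (Θ : X → Fm X) (n : ℕ) : (p : ℕ) → (Fin p → X) → X → Fm X
  | 0, _, y => Θ y
  | p + 1, h, y => Kc (n - p - 1) (h 0) (uc Θ n p (Fin.tail h)) y

section uc
variable {Θ : X → Fm X} {n : ℕ} (hP : IsOpen P) (hc : Convex ℝ P)
  (hs : ∀ x ∈ P, ContDiffAt ℝ ∞ Θ x)
include hP hc hs

theorem uc_smooth (p : ℕ) : SmJ P (uc Θ n p) := by
  induction p with
  | zero => exact fun h _ y hy => (hs y hy).comp (h, y) contDiffAt_snd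
  | succ p ih =>
    exact SmJ.Kc hP hc _ (c := fun h => uc Θ n p (Fin.tail h)) fun h hh y hy =>
      ih.comp (z := (h, y)) ((contDiffAt_reindex Fin.succ h).comp (h, y) contDiffAt_fst)
        contDiffAt_snd (fun _ => hh _) hy

omit hP hs in
theorem uc_deg (hd : ∀ x ∈ P, Θ x ∈ Deg _ n) (p : ℕ) (hp : p ≤ n) {h : Fin p → X}
    (hh : ∀ i, h i ∈ P) : ∀ y ∈ P, uc Θ n p h y ∈ Deg _ (n - p) := by
  induction p with
  | zero => exact hd
  | succ p ih =>
    intro y hy
    refine Kc_deg hc (hh 0) hy fun x hx => ?_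
    rw [show n - (p + 1) + 1 = n - p by omega]
    exact ih (by omega) (fun _ => hh _) x hx

theorem uc_inv {A : X →L[ℝ] X} (hA : ∀ x ∈ P, A x ∈ P)
    (hinv : ∀ x ∈ P, pull (A : X →ₗ[ℝ] X) (Θ (A x)) = Θ x) (p : ℕ) {h : Fin p → X}
    (hh : ∀ i, h i ∈ P) :
    ∀ y ∈ P, pull (A : X →ₗ[ℝ] X) (uc Θ n p (fun i => A (h i)) (A y)) = uc Θ n p h y := by
  induction p with
  | zero => exact hinv
  | succ p ih =>
    intro y hy
    rw [uc, uc, pull_Kc hc _ A (hA _ (hh 0)) (hA _ hy) fun x hx =>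
      ((uc_smooth hP hc hs p).pt (h := Fin.tail fun i => A (h i))
        (fun _ => hA _ (hh _)) hx).continuousAt]
    exact Kc_congr hc _ (hh 0) hy (ih fun _ => hh _)

theorem uc_step (hd : ∀ x ∈ P, Θ x ∈ Deg _ n) (hcl : ∀ x ∈ P, dX Θ x = 0) (p : ℕ) (hp : p ≤ n) :
    (∀ z ∈ P, ∀ h : Fin p → X, (∀ i, h i ∈ P) → ∀ y ∈ P,
      cob (fun k => uc Θ n p k y) (Fin.cons z h) =
        uc Θ n p h y - Kc (n - p) z (dX (uc Θ n p h)) y) ∧
    (p + 1 ≤ n → ∀ h : Fin (p + 1) → X, (∀ i, h i ∈ P) → ∀ y ∈ P,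
      dX (uc Θ n (p + 1) h) y = cob (fun k => uc Θ n p k y) h) := by
  have BC : ∀ p, (∀ z ∈ P, ∀ h : Fin p → X, (∀ i, h i ∈ P) → ∀ y ∈ P,
      cob (fun k => uc Θ n p k y) (Fin.cons z h) =
        uc Θ n p h y - Kc (n - p) z (dX (uc Θ n p h)) y) →
      (p + 1 ≤ n → ∀ h : Fin (p + 1) → X, (∀ i, h i ∈ P) → ∀ y ∈ P,
      dX (uc Θ n (p + 1) h) y = cob (fun k => uc Θ n p k y) h) := by
    intro p hB hp h hh y hy
    have e : n - p - 1 + 1 = n - p := by omega
    conv_rhs => rw [← Fin.cons_self_tail h, hB _ (hh 0) (Fin.tail h) (fun _ => hh _) y hy, ← e]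
    exact dX_Kc hP hc _ (hh 0) hy (fun x hx => (uc_smooth hP hc hs p).pt (fun _ => hh _) hx)
      (by rw [e]; exact uc_deg hc hd p (by omega) fun _ => hh _)
  induction p with
  | zero =>
    refine ⟨?_, BC 0 ?_⟩ <;>
    · intro z hz h _ y hy
      rw [cob_zero_slots, Kc_congr hc _ hz hy (w := dX (uc Θ n 0 h)) (w' := fun _ => 0) hcl, Kc_zero,
        sub_zero]; rfl
  | succ p ih =>
    refine ⟨?_, BC (p + 1) ?_⟩ <;>
    · intro z hz h hh y hy
      rw [cob_cons, Kc_congr hc _ hz hy ((ih (by omega)).2 hp h hh), Kc_cob hc _ hz hy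
        fun i x hx => ((uc_smooth hP hc hs p).pt (fun _ => hh _) hx).continuousAt]
      rfl

theorem uc_top (hd : ∀ x ∈ P, Θ x ∈ Deg _ n) (hcl : ∀ x ∈ P, dX Θ x = 0)
    {H : Fin (n + 1) → X} (hH : ∀ i, H i ∈ P) {y : X} (hy : y ∈ P) :
    uc Θ n n (Fin.tail H) (H 0) = cob (fun k => uc Θ n n k y) H := by
  conv_rhs => rw [← Fin.cons_self_tail H,
    (uc_step hP hc hs hd hcl n le_rfl).1 _ (hH 0) (Fin.tail H) (fun _ => hH _) y hy,
    Nat.sub_self]
  rw [Kc_dX_zero hP hc (hH 0) hy (fun x hx => (uc_smooth hP hc hs n).pt (h := Fin.tail H) (fun _ => hH _) hx)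
    (by simpa using uc_deg hc hd n le_rfl (h := Fin.tail H) fun _ => hH _), sub_sub_cancel]

theorem uc_mixR (hd : ∀ x ∈ P, Θ x ∈ Deg _ n) (hcl : ∀ x ∈ P, dX Θ x = 0) {y : X} (hy : y ∈ P)
    (m : ℕ) (hm : m ≤ n) :
    mixR (fc X) (fb X) y m (fun H => cob (fun k => uc Θ n m k y) H) = Θ y := by
  induction m with
  | zero => exact cob_zero_slots (fun k => uc Θ n 0 k y) _
  | succ m ih =>
    rw [mixR_succ, ← ih (by omega)]
    refine mixR_congr _ _ hP hy fun k hk => ?_
    have hC := (uc_step hP hc hs hd hcl m (by omega)).2 hm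
    have hS := uc_smooth (n := n) hP hc hs (m + 1)
    have h1 := dd_diag (fc X) (fb X) (y := y)
      (G := fun q => cob (fun k => uc Θ n (m + 1) k q.2) (Fin.cons q.1 k))
      ((hS.cob.comp (z := (y, y)) (contDiffAt_cons contDiffAt_fst contDiffAt_const) contDiffAt_snd
        (cons_mem hy hk) hy).differentiableAt infty_ne_zero)
    have h2 : dd (fc X) (fb X) (fun z => cob (fun k => uc Θ n (m + 1) k z) (Fin.cons y k)) y =
        0 := by
      rw [dd_cob (k := Fin.cons y k) _ _ fun i => (hS.pt (fun _ => cons_mem hy hk _) hy).differentiableAt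
        infty_ne_zero]
      rw [← cob_cob (fun k => uc Θ n m k y) (Fin.cons y k)]
      exact cob_congr (fun w hw => hC w hw y hy) (cons_mem hy hk)
    have h3 : (fun z => cob (fun k => uc Θ n (m + 1) k z) (Fin.cons z k)) = uc Θ n (m + 1) k := by
      funext z
      rw [cob_cons]
      simp [uc, Kc_self, cob]
    simp only [h2, h3, add_zero] at h1
    exact h1.symm.trans (hC k hk y hy)

theorem uc_bound (p : ℕ) (hp : p ≤ n) (h : Fin p → X) (hh : ∀ i, h i ∈ P) (y : X) (hy : y ∈ P)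
    (lam : Fm X →ₗ[ℝ] ℝ) :
    ‖lam (uc Θ n p h y)‖ₑ ≤ ∫⁻ s, ‖lam ((∏ i, s i) ^ (n - p) •
      ctrs p (fun i => Module.Dual.eval ℝ X (cT p h y s i)) (Θ (conePt p h y s)))‖ₑ
      ∂Measure.pi fun _ : Fin p => volume.restrict (Set.Ioo (0 : ℝ) 1) := by
  induction p generalizing y lam with
  | zero => simp [uc, ctrs, conePt]
  | succ p ih =>
    set μ : Measure ℝ := volume.restrict (Set.Ioo (0 : ℝ) 1)
    set g : (Fin (p + 1) → ℝ) → ℝ≥0∞ := fun s => ‖lam ((∏ i, s i) ^ (n - (p + 1)) •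
      ctrs (p + 1) (fun i => Module.Dual.eval ℝ X (cT (p + 1) h y s i))
        (Θ (conePt (p + 1) h y s)))‖ₑ
    have hg : AEMeasurable g (Measure.pi fun _ => μ) := by
      rw [← Measure.restrict_pi_pi]
      refine ContinuousOn.aemeasurable ?_ (MeasurableSet.univ_pi fun _ => measurableSet_Ioo)
      have h0 : Continuous fun s : Fin (p + 1) → ℝ => (∏ i, s i) ^ (n - (p + 1)) := by fun_prop
      refine ContinuousOn.enorm ((continuous_lin lam).comp_continuousOn (ContinuousOn.smul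
        h0.continuousOn (continuousOn_ctrs
          ((continuous_cT _ h).comp (Continuous.prodMk_right y)).continuousOn fun s hs' => ?_)))
      exact ((hs _ (conePt_mem hc _ hh hy fun i => hs' i trivial)).continuousAt.comp
        (((contDiff_conePt _ h).continuous.comp
          (Continuous.prodMk_right y)).continuousAt)).continuousWithinAt
    have hm := (measurePreserving_piFinSuccAbove (fun _ : Fin (p + 1) => μ) 0).symm
    have hm2 := lintegral_prod _ (hg.comp_quasiMeasurePreserving hm.quasiMeasurePreserving)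
    refine le_of_le_of_eq ?_ ((hm.lintegral_map_equiv g).trans hm2).symm
    rw [uc, Kc, integral_lin lam (Kc_integrable hc _ (hh 0) hy
        (fun x hx => ((uc_smooth hP hc hs p).pt (h := Fin.tail h)
          (fun _ => hh _) hx).continuousAt) _),
      ← restrict_Ioo_eq_restrict_Icc]
    refine (enorm_integral_le_lintegral_enorm _).trans (lintegral_mono_ae ?_)
    filter_upwards [ae_restrict_mem measurableSet_Ioo] with t ht
    refine (ih (by omega) (Fin.tail h) (fun _ => hh _) _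
      (seg_mem hc (hh 0) hy (Set.Ioo_subset_Icc_self ht))
      (lam ∘ₗ (t ^ (n - p - 1) • iv (y - h 0)))).trans (le_of_eq (lintegral_congr fun s => ?_))
    have e : (MeasurableEquiv.piFinSuccAbove (fun _ : Fin (p + 1) => ℝ) 0).symm (t, s) =
        Fin.cons t s := by
      simp [MeasurableEquiv.piFinSuccAbove, Fin.insertNthEquiv]
    simp only [Function.comp_apply, e, g, ctrs_succ, cT, conePt, Fin.cons_zero, Fin.tail_cons, Fin.prod_univ_succ,
      Fin.cons_succ, LinearMap.comp_apply, LinearMap.smul_apply, map_smul, smul_smul]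
    congr 2
    rw [show n - p = n - (p + 1) + 1 by omega, Nat.add_sub_cancel]
    ring

end uc

theorem cone_good {X : Type} [NormedAddCommGroup X] [NormedSpace ℝ X] [FiniteDimensional ℝ X]
    (P : Set X) (hP : IsOpen P) (hc : Convex ℝ P) (G : Set (X →L[ℝ] X))
    (hG : ∀ A ∈ G, ∀ x ∈ P, A x ∈ P) (n : ℕ) (Θ : X → Ext (Module.Dual ℝ X))
    (hs : ∀ x ∈ P, ContDiffAt ℝ ∞ Θ x) (hdeg : ∀ x ∈ P, Θ x ∈ ⋀[ℝ]^n (Module.Dual ℝ X))
    (hcl : ∀ x ∈ P, dX Θ x = 0)
    (hinv : ∀ A ∈ G, ∀ x ∈ P, pull (A : X →ₗ[ℝ] X) (Θ (A x)) = Θ x) (C : ℝ≥0∞) (hC : C ≠ ⊤)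
    (hb : ∀ H : Fin (n + 1) → X, (∀ i, H i ∈ P) →
      ∫⁻ s in Set.pi Set.univ (fun _ : Fin n => Set.Ioo (0 : ℝ) 1),
        ‖evalForm (Θ (conePt n (Fin.tail H) (H 0) s))
          (fun i => fderiv ℝ (conePt n (Fin.tail H) (H 0)) s (Pi.single i 1))‖ₑ ≤ C) :
    ∃ f : (Fin (n + 1) → X) → ℝ, IsBCoc P G f ∧
      ∀ {I : Type} [Fintype I] [DecidableEq I] (b : I → X), ∀ y ∈ P,
        mixR (fun a => (Pi.single a 1 : I → ℝ)) b y n (fun h => algebraMap ℝ _ (f h)) =
          ExteriorAlgebra.map (resFr b) (Θ y) := by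
  have hsm : SmOn P fun H : Fin (n + 1) → X => aug (uc Θ n n (Fin.tail H) (H 0)) := fun H hH =>
    contDiffAt_lin (aug (V := Module.Dual ℝ X)).toLinearMap ((uc_smooth hP hc hs n).comp
      (contDiffAt_reindex Fin.succ H) (contDiffAt_apply ℝ X 0 H) (fun _ => hH _) (hH 0))
  refine ⟨fun H => aug (uc Θ n n (Fin.tail H) (H 0)), ⟨hsm, fun H hH => ?_, fun A hA H hH => ?_,
    C.toReal, fun H hH => ?_⟩, fun b y hy => ?_⟩
  · refine (cob_congr (c' := fun K => (aug (V := Module.Dual ℝ X)).toLinearMap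
      (cob (fun k => uc Θ n n k (H 0)) K))
      (fun K hK => congrArg aug (uc_top hP hc hs hdeg hcl hK (hH 0))) hH).trans ?_
    rw [cob_lin, cob_cob, map_zero]
  · rw [← uc_inv hP hc hs (hG A hA) (hinv A hA) n (h := Fin.tail H) (fun _ => hH _) _ (hH 0),
      pull, aug_map]; rfl
  · have h1 := uc_bound hP hc hs n le_rfl (Fin.tail H) (fun _ => hH _) (H 0) (hH 0)
      (aug (V := Module.Dual ℝ X)).toLinearMap
    have h2 := hb H hH
    rw [← Measure.restrict_pi_pi] at h1
    simp only [Nat.sub_self, pow_zero, one_smul] at h1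
    simp only [fderiv_conePt] at h2
    have h3 := ENNReal.toReal_mono hC (h1.trans h2)
    rwa [toReal_enorm, Real.norm_eq_abs] at h3
  · rw [mixR_frame hP hy b hsm, ← uc_mixR hP hc hs hdeg hcl hy n le_rfl]
    congr 1
    refine mixR_congr _ _ hP hy fun H hH => ?_
    rw [← uc_top hP hc hs hdeg hcl hH hy]
    exact (eq_of_deg_zero (by
      simpa using uc_deg hc hdeg n le_rfl (h := Fin.tail H) (fun _ => hH _) _ (hH 0))).symm

end Pool.Agent.Lib.MP_cdc9ab_al
end

-- part Pool.Agent.Lib.MP_cdc9ab_al.VanEst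
section

open scoped ContDiff Topology
open Finset Filter

namespace Pool.Agent.Lib.MP_cdc9ab_al

variable {X : Type} [NormedAddCommGroup X] [NormedSpace ℝ X] [FiniteDimensional ℝ X]
  {P : Set X} {G : Set (X →L[ℝ] X)}

/-- Smooth invariant form-valued cochains of degree `j`. -/
structure Nice (P : Set X) (G : Set (X →L[ℝ] X)) (j : ℕ) {q : ℕ}
    (c : (Fin q → X) → X → Fm X) : Prop where
  sm : SmJ P c
  deg : ∀ h, (∀ i, h i ∈ P) → ∀ y ∈ P, c h y ∈ Deg _ j
  inv : ∀ A ∈ G, ∀ h, (∀ i, h i ∈ P) → ∀ y ∈ P,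
    pull (A : X →ₗ[ℝ] X) (c (fun i => A (h i)) (A y)) = c h y

theorem Nice.dpt {j q : ℕ} {c : (Fin q → X) → X → Fm X} (hc : Nice P G j c) {h : Fin q → X}
    (hh : ∀ i, h i ∈ P) {y : X} (hy : y ∈ P) : DifferentiableAt ℝ (c h) y :=
  (hc.sm.pt hh hy).differentiableAt infty_ne_zero

theorem nice_zero (j q : ℕ) : Nice P G j (fun (_ : Fin q → X) _ => 0) :=
  ⟨fun _ _ _ _ => contDiffAt_const, fun _ _ _ _ => zero_mem _, fun _ _ _ _ _ _ => map_zero _⟩

theorem Nice.sub {j q : ℕ} {c c' : (Fin q → X) → X → Fm X} (hc : Nice P G j c)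
    (hc' : Nice P G j c') : Nice P G j (fun h y => c h y - c' h y) :=
  ⟨fun h hh y hy => (hc.sm h hh y hy).sub (hc'.sm h hh y hy),
    fun h hh y hy => sub_mem (hc.deg h hh y hy) (hc'.deg h hh y hy),
    fun A hA h hh y hy => by rw [map_sub, hc.inv A hA h hh y hy, hc'.inv A hA h hh y hy]⟩

theorem Nice.cob {j q : ℕ} {c : (Fin q → X) → X → Fm X} (hc : Nice P G j c) :
    Nice P G j (fun h y => cob (fun k => c k y) h) :=
  ⟨hc.sm.cob, fun _ hh y hy => Submodule.sum_mem _ fun _ _ =>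
      Submodule.smul_mem _ _ (hc.deg _ (fun _ => hh _) y hy),
    fun A hA h hh y hy => by
      refine (cob_lin (pull (A : X →ₗ[ℝ] X)).toLinearMap _ _).symm.trans ?_
      rw [← cob_comp A]
      exact cob_congr (fun w hw => hc.inv A hA w hw y hy) hh⟩

theorem Nice.diag {j q : ℕ} {c : (Fin (q + 1) → X) → X → Fm X} (hc : Nice P G j c) :
    Nice P G j (fun k y => c (Fin.cons y k) y) :=
  ⟨fun h hh y hy => hc.sm.comp (z := (h, y)) (contDiffAt_cons contDiffAt_snd contDiffAt_fst)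
      contDiffAt_snd (cons_mem hy hh) hy,
    fun _ hh y hy => hc.deg _ (cons_mem hy hh) y hy,
    fun A hA h hh y hy => by
      rw [← hc.inv A hA _ (cons_mem hy hh) y hy]
      congr 2
      funext i
      exact Fin.cases rfl (fun _ => rfl) i⟩

theorem Nice.dX (hP : IsOpen P) (hG : ∀ A ∈ G, ∀ x ∈ P, A x ∈ P) {j q : ℕ}
    {c : (Fin q → X) → X → Fm X} (hc : Nice P G j c) :
    Nice P G (j + 1) (fun k y => dX (c k) y) :=
  ⟨fun h hh y hy => contDiffAt_dd (fc X) (fb X) (f := fun q : (Fin q → X) × X => c q.1) (g := Prod.snd)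
      (z := (h, y)) (hc.sm.comp (z := ((h, y), y)) (contDiffAt_fst.comp _ contDiffAt_fst)
        contDiffAt_snd hh hy) contDiffAt_snd,
    fun h hh y hy => dd_mem_deg _ _ (by
      filter_upwards [hP.mem_nhds hy] with z hz using hc.deg h hh z hz),
    fun A hA h hh y hy => by
      rw [← dX_pull A A.hasFDerivAt (hc.dpt (fun i => hG A hA _ (hh i)) (hG A hA _ hy))]
      exact dd_congr _ _ (by
        filter_upwards [hP.mem_nhds hy] with z hz using hc.inv A hA h hh z hz)⟩

theorem Nice.Kc (hP : IsOpen P) (hcv : Convex ℝ P) (hG : ∀ A ∈ G, ∀ x ∈ P, A x ∈ P) {j q : ℕ}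
    {c : (Fin (q + 1) → X) → X → Fm X} (hc : Nice P G (j + 1) c) :
    Nice P G j (fun h => Kc j (h 0) (c h)) :=
  ⟨hc.sm.Kc hP hcv j, fun h hh _ hy => Kc_deg hcv (hh 0) hy (hc.deg h hh),
    fun A hA h hh y hy => by
      rw [pull_Kc hcv j A (hG A hA _ (hh 0)) (hG A hA _ hy) fun x hx =>
        (hc.sm.pt (fun i => hG A hA _ (hh i)) hx).continuousAt]
      exact Kc_congr hcv j (hh 0) hy (hc.inv A hA h hh)⟩

theorem zigzag (hP : IsOpen P) (hcv : Convex ℝ P) (hG : ∀ A ∈ G, ∀ x ∈ P, A x ∈ P) (q : ℕ) :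
    ∀ (j : ℕ) (c : (Fin (q + 1) → X) → X → Fm X), Nice P G j c →
      (∀ h, (∀ i, h i ∈ P) → ∀ y ∈ P, dX (c h) y = 0) →
      (∀ h : Fin (q + 2) → X, (∀ i, h i ∈ P) → ∀ y ∈ P, cob (fun k => c k y) h = 0) →
      (∀ y ∈ P, mixR (fc X) (fb X) y q (fun h => c h y) = 0) →
      ∃ e : (Fin q → X) → X → Fm X, Nice P G j e ∧
        (∀ h, (∀ i, h i ∈ P) → ∀ y ∈ P, dX (e h) y = 0) ∧
        (∀ h, (∀ i, h i ∈ P) → ∀ y ∈ P, c h y = cob (fun k => e k y) h) ∧
        ∀ j', j = j' + 1 → ∃ u : (Fin q → X) → X → Fm X, Nice P G j' u ∧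
          ∀ h, (∀ i, h i ∈ P) → ∀ y ∈ P, dX (u h) y = e h y := by
  induction q with
  | zero =>
    intro j c _ _ hco hv
    refine ⟨fun _ _ => 0, nice_zero _ _, fun _ _ _ _ => dd_const _ _ _ _, fun h hh y hy => ?_,
      fun j' _ => ⟨fun _ _ => 0, nice_zero _ _, fun _ _ _ _ => dd_const _ _ _ _⟩⟩
    have h1 := hco _ (cons_mem hy hh) y hy
    rw [cob_cons, cob_zero_slots, sub_eq_zero] at h1
    rw [cob_zero_slots, h1, ← hv y hy]
    congr 1
    funext i
    rw [Fin.fin_one_eq_zero i]; rfl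
  | succ q ih =>
    intro j c hc hcl hco hv
    have hb := hc.diag
    have hcb : ∀ h : Fin (q + 2) → X, (∀ i, h i ∈ P) → ∀ y ∈ P,
        c h y = cob (fun k => c (Fin.cons y k) y) h := by
      intro h hh y hy
      have h1 := hco _ (cons_mem hy hh) y hy
      rwa [cob_cons, sub_eq_zero] at h1
    obtain ⟨e', he', -, hce, hu⟩ := ih (j + 1) _ (hb.dX hP hG)
      (fun h hh y hy => dd_dd _ _ (hb.sm.pt hh hy))
      (fun h hh y hy => by
        refine (dd_cob _ _ fun i => hb.dpt (fun _ => hh _) hy).symm.trans ?_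
        rw [← hcl h hh y hy]
        exact dd_congr _ _ (by
          filter_upwards [hP.mem_nhds hy] with z hz using (hcb h hh z hz).symm))
      (fun y hy => by
        rw [← hv y hy, mixR_succ]
        refine mixR_congr _ _ hP hy fun k hk => ?_
        have h1 := dd_diag (fc X) (fb X) (y := y) (G := fun q => c (Fin.cons q.1 k) q.2)
          ((hc.sm.comp (z := (y, y)) (contDiffAt_cons contDiffAt_fst contDiffAt_const)
            contDiffAt_snd (cons_mem hy hk) hy).differentiableAt infty_ne_zero)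
        have h2 : dd (fc X) (fb X) (fun z => c (Fin.cons y k) z) y = 0 :=
          hcl _ (cons_mem hy hk) y hy
        simp only [h2, add_zero] at h1
        exact h1)
    obtain ⟨u, hu1, hu2⟩ := hu j rfl
    have he := hb.sub hu1.cob
    have hecl : ∀ h : Fin (q + 1) → X, (∀ i, h i ∈ P) → ∀ y ∈ P,
        dX (fun y => c (Fin.cons y h) y - cob (fun k => u k y) h) y = 0 := by
      intro h hh y hy
      rw [dX, dd_sub _ _ (hb.dpt hh hy) (hu1.cob.dpt hh hy),
        dd_cob _ _ fun i => hu1.dpt (fun _ => hh _) hy, sub_eq_zero]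
      exact (hce h hh y hy).trans (cob_congr (fun w hw => (hu2 w hw y hy).symm) hh)
    refine ⟨_, he, hecl, fun h hh y hy => ?_, ?_⟩
    · rw [cob_sub, cob_cob, sub_zero]
      exact hcb h hh y hy
    · rintro j' rfl
      refine ⟨_, he.Kc hP hcv hG, fun h hh y hy => ?_⟩
      rw [dX_Kc hP hcv j' (hh 0) hy (fun x hx => he.sm.pt hh hx) (he.deg h hh),
        Kc_congr hcv _ (hh 0) hy (w' := fun _ => 0) (hecl h hh), Kc_zero, sub_zero]

/-- A smooth invariant cocycle with vanishing van Est derivative is a coboundary. -/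
theorem vanEst (hP : IsOpen P) (hcv : Convex ℝ P) (hG : ∀ A ∈ G, ∀ x ∈ P, A x ∈ P) {p : ℕ}
    {f : (Fin (p + 1) → X) → ℝ} (hf : IsSCoc P G f)
    (h0 : ∀ y ∈ P, mixR (fc X) (fb X) y p (fun h => algebraMap ℝ _ (f h)) = 0) :
    ∃ g : (Fin p → X) → ℝ, SmOn P g ∧
      (∀ A ∈ G, ∀ h, (∀ i, h i ∈ P) → g (fun i => A (h i)) = g h) ∧
      ∀ h, (∀ i, h i ∈ P) → f h = cob g h := by
  obtain ⟨e, he, hcl, hce, hu⟩ := zigzag (G := G) hP hcv hG p 0
    (fun h _ => algebraMap ℝ _ (f h))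
    ⟨fun h hh y _ => ContDiffAt.comp (f := Prod.fst) (h, y) (SmOn.alg hf.smooth h hh) contDiffAt_fst,
      fun _ _ _ _ => algebraMap_mem_deg _,
      fun A hA h hh y _ => by rw [AlgHom.commutes, hf.inv A hA h hh]⟩
    (fun _ _ _ _ => dd_const _ _ _ _)
    (fun h hh y _ => (cob_lin (Algebra.linearMap ℝ (Fm X)) f h).trans
      (by rw [hf.coc h hh, map_zero])) h0
  have hconst : ∀ h, (∀ i, h i ∈ P) → ∀ y ∈ P, ∀ z ∈ P, e h y = e h z := by
    intro h hh y hy z hz
    rw [← sub_eq_zero, ← Kc_dX_zero hP hcv hz hy (fun x hx => he.sm.pt hh hx) (he.deg h hh),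
      Kc_congr hcv _ hz hy (w' := fun _ => 0) (hcl h hh), Kc_zero]
  have hf' : ∀ h, (∀ i, h i ∈ P) → f h = cob (fun k => aug (e k (h 0))) h := by
    intro h hh
    have := congrArg aug (hce h hh _ (hh 0))
    rw [AlgHom.commutes] at this
    exact this.trans (cob_lin (aug (V := Module.Dual ℝ X)).toLinearMap _ _).symm
  cases p with
  | zero =>
    refine ⟨fun _ => 0, fun _ _ => contDiffAt_const, fun _ _ _ _ => rfl, fun h hh => ?_⟩
    have h1 := congrArg aug (h0 _ (hh 0))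
    rw [map_zero, mixR, AlgHom.commutes] at h1
    rw [cob_zero_slots, ← h1]
    congr 1
    funext i
    rw [Fin.fin_one_eq_zero i]
  | succ p =>
    refine ⟨fun h => aug (e h (h 0)), fun h hh => contDiffAt_lin
      (aug (V := Module.Dual ℝ X)).toLinearMap (he.sm.comp contDiffAt_id
        (contDiffAt_apply ℝ X 0 h) hh (hh 0)), fun A hA h hh => ?_, fun h hh => ?_⟩
    · beta_reduce
      rw [← he.inv A hA h hh _ (hh 0), pull, aug_map]
    · rw [hf' h hh]
      exact cob_congr (fun w hw => by rw [hconst w hw _ (hh 0) _ (hw 0)]) hh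

end Pool.Agent.Lib.MP_cdc9ab_al
end
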