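import Pool.Agent.Lib.MP_cdc9ab_al.BVan
import Pool.Agent.Lib.MP_cdc9ab_al.VanEst

-- part Pool.Agent.Lib.MP_cdc9ab_al.BDerA
section

open scoped Matrix.Norms.Operator ContDiff Matrix Topology
open Finset Filter

namespace Pool.Agent.Lib.MP_cdc9ab_al

namespace BD

/-! ### Top functionals -/

section top
variable {X : Type} [AddCommGroup X] [Module ℝ X]

theorem ctr_ctrs {V : Type} [AddCommGroup V] [Module ℝ V] (m : ℕ) :
    ∀ (ψ : Fin m → Module.Dual ℝ V) (χ : Module.Dual ℝ V) (x : Ext V),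
      ctr χ (ctrs m ψ x) = (-1 : ℝ) ^ m • ctrs m ψ (ctr χ x) := by
  induction m with
  | zero => intro ψ χ x; simp [ctrs]
  | succ m ih =>
    intro ψ χ x
    rw [ctrs_succ, ctrs_succ, ctr_comm, ih, map_smul, pow_succ]
    simp

theorem ctrs_ctr {V : Type} [AddCommGroup V] [Module ℝ V] (m : ℕ) :
    ∀ (φ : Fin m → Module.Dual ℝ V) (i : Fin m) (x : Ext V), ctrs m φ (ctr (φ i) x) = 0 := by
  induction m with
  | zero => intro φ i; exact i.elim0
  | succ m ih =>
    intro φ i x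
    refine Fin.cases ?_ (fun j => ?_) i
    · rw [ctrs_succ, ctr_ctrs, ctr_ctr]; simp
    · rw [ctrs_succ, show φ j.succ = Fin.tail φ j from rfl, ih (Fin.tail φ) j x, map_zero]

theorem exists_top_aux {τ : Ext (Module.Dual ℝ X) →ₗ[ℝ] ℝ} (hτ : TopLike τ) (m : ℕ) :
    ∀ (v : Fin m → X) (φ : Fin m → Module.Dual ℝ X), (∀ i, φ i (v i) = 1) →
      (∀ i j, i ≠ j → φ i (v j) = 0) →
      ∃ E ∈ Deg (Module.Dual ℝ X) m, (∀ w, (∀ i, φ i w = 0) → iv w E = 0) ∧
        ∀ x, τ x = τ (E * ctrs m (fun i => Module.Dual.eval ℝ X (v i)) x) := by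
  induction m with
  | zero => intro v φ _ _; exact ⟨1, one_mem_deg, fun w _ => ctr_one _, fun x => by simp [ctrs]⟩
  | succ m ih =>
    intro v φ h1 h2
    obtain ⟨E, hE, hE1, hE2⟩ := ih (Fin.tail v) (Fin.tail φ) (fun i => h1 _)
      fun i j hij => h2 _ _ fun h => hij (Fin.succ_injective _ h)
    have hE' : inv E ∈ Deg (Module.Dual ℝ X) m := by
      rw [inv_of_deg hE]
      exact Submodule.smul_mem _ _ hE
    refine ⟨io (φ 0) * inv E, io_mul_mem_deg _ hE', fun w hw => ?_, fun x => ?_⟩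
    · have := inv_ctr (Module.Dual.eval ℝ X w) E
      rw [hE1 w fun i => hw _, map_zero, eq_comm, neg_eq_zero] at this
      rw [iv_io_mul, hw, this]
      simp
    · have h := hτ.io_mul_iv (φ 0) (v 0)
        (E * ctrs m (fun i => Module.Dual.eval ℝ X (Fin.tail v i)) x)
      rw [h1, one_mul, ← hE2, ctr_mul, hE1 (v 0) fun i => h2 _ _ (Fin.succ_ne_zero i), zero_mul,
        zero_add, ← mul_assoc] at h
      exact h.symm

theorem map_zero_eq {V W : Type} [AddCommGroup V] [Module ℝ V] [AddCommGroup W] [Module ℝ W]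
    (x : Ext V) : ExteriorAlgebra.map (0 : V →ₗ[ℝ] W) x = algebraMap ℝ _ (aug x) := by
  induction x using ext_induction with
  | h0 r => simp
  | h1 x y hx hy => rw [map_add, hx, hy, map_add, map_add]
  | h2 v x _ => rw [map_mul, map_io, map_mul, aug_io]; simp

theorem top_eq [FiniteDimensional ℝ X] {τ : Ext (Module.Dual ℝ X) →ₗ[ℝ] ℝ} (hτ : TopLike τ) :
    ∃ c : ℝ, ∀ x, τ x = c * aug (ctrs (Module.finrank ℝ X)
      (fun i => Module.Dual.eval ℝ X (Module.finBasis ℝ X i)) x) := by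
  obtain ⟨E, hE, -, h⟩ := exists_top_aux hτ _ (Module.finBasis ℝ X)
    (fun i => (Module.finBasis ℝ X).coord i) (fun i => by simp)
    (fun i j hij => by simp [hij.symm])
  have h2 : ∀ y, τ (E * y) = τ E * aug y := by
    intro y
    induction y using ext_induction with
    | h0 r => rw [← Algebra.commutes, ← Algebra.smul_def, map_smul, AlgHom.commutes]; simp [mul_comm]
    | h1 x y hx hy => rw [mul_add, map_add, hx, hy, map_add, mul_add]
    | h2 v x _ =>
      rw [← mul_assoc, deg_eq_zero _ (mul_mem_deg hE (io_mem_deg v)), map_mul aug, aug_io]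
      · simp
      · rw [Subspace.dual_finrank_eq]; omega
  exact ⟨τ E, fun x => by rw [h x, h2]⟩

end top

variable {N : ℕ}

theorem dual_eq (φ : Module.Dual ℝ (WH N)) : ∃ (t : ℝ) (u : CV N), φ = t • eps + cv u := by
  refine ⟨φ (1, 0), ∑ i, φ (0, rb i) • rb i, LinearMap.ext fun x => ?_⟩
  have e : x = x.1 • ((1 : ℝ), (0 : CV N)) + ∑ i, rin (rb i) x.2 • ((0 : ℝ), rb i) := by
    refine Prod.ext (by simp [Prod.fst_sum]) ?_
    simp [Prod.snd_sum, sum_rb]
  conv_lhs => rw [e]
  simp only [map_add, map_sum, map_smul, LinearMap.add_apply, LinearMap.smul_apply, eps_apply,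
    LinearMap.sum_apply, cv_apply, smul_eq_mul, mul_comm]

theorem ctr_pow_even {V : Type} [AddCommGroup V] [Module ℝ V] (φ : Module.Dual ℝ V) {x : Ext V}
    (hx : inv x = x) (j : ℕ) : ctr φ (x ^ (j + 1)) = ((j + 1 : ℕ) : ℝ) • (x ^ j * ctr φ x) := by
  induction j with
  | zero => simp
  | succ j ih =>
    rw [pow_succ', ctr_mul, ih, hx, mul_smul_comm, ← mul_assoc, ← pow_succ',
      ← even_comm (x := x ^ (j + 1)) (by rw [map_pow, hx])]
    push_cast
    module

theorem iv_vp_pow (v : WH N) (j : ℕ) : iv v (vp (1 : HM N) ^ (j + 1)) =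
    (2 * (j + 1 : ℕ) : ℝ) • (vp 1 ^ j * io (cv (Complex.I • v.2))) := by
  rw [iv, ctr_pow_even _ (inv_vp 1), iv_vp pd_one, Matrix.one_mulVec, mul_smul_comm, smul_smul,
    mul_comm]

theorem inv_vp_pow (j : ℕ) : inv (vp (1 : HM N) ^ j) = vp 1 ^ j := by rw [map_pow, inv_vp]

theorem top_ne_zero {τ : FH N →ₗ[ℝ] ℝ} (hτ : TopLike τ) (hτ0 : τ ≠ 0) :
    τ (vp 1 ^ N * io eps) ≠ 0 := by
  intro h0
  have hdeg : ∀ j d, 2 * j + d ≠ 2 * N → ∀ x ∈ Deg _ d, τ (vp 1 ^ j * x * io eps) = 0 := by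
    intro j d hd x hx
    refine hτ.of_deg (j := 2 * j + d + 1) (by rw [finrank_WH]; omega) ?_
    exact mul_mem_deg (mul_mem_deg (pow_mem_deg (vp_deg 1) j) hx) (io_mem_deg _)
  have hee : ∀ y w : FH N, τ (y * (io eps * w) * io eps) = 0 := by
    intro y w
    rw [io_mul, mul_assoc, mul_assoc, io_mul_io]
    simp
  have key : ∀ i j, i + j = N → ∀ x, τ (vp 1 ^ j * x * io eps) = 0 := by
    intro i
    induction i with
    | zero =>
      intro j hj x
      obtain rfl : j = N := by omega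
      induction x using homog_induction with
      | h1 x y hx hy => rw [mul_add, add_mul, map_add, hx, hy, add_zero]
      | h0 d x hx =>
        rcases d with _ | d
        · rw [eq_of_deg_zero hx, ← Algebra.commutes, ← Algebra.smul_def, smul_mul_assoc, map_smul,
            h0, smul_zero]
        · exact hdeg _ _ (by omega) x hx
    | succ i ih =>
      intro j hj
      have h1 := ih (j + 1) (by omega)
      have h2 : ∀ (u w : CV N) x, τ (vp 1 ^ j * (io (cv u) * (io (cv w) * x)) * io eps) = 0 := by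
        intro u w x
        have h := hτ.io_mul_iv (cv u) (0, -(Complex.I • w)) (vp 1 ^ (j + 1) * x * io eps)
        rw [h1, mul_zero, ctr_mul, iv_eps, map_zero, mul_zero, add_zero, ctr_mul, iv_vp_pow,
          inv_vp_pow, smul_neg, I_smul_I_smul, neg_neg, add_mul, mul_add, map_add] at h
        have h3 := h1 (io (cv u) * iv (0, -(Complex.I • w)) x)
        rw [← mul_assoc, even_comm (inv_vp_pow (j + 1)), mul_assoc (io (cv u)),
          mul_assoc (io (cv u))] at h3
        rw [h3, add_zero, smul_mul_assoc, smul_mul_assoc, mul_smul_comm, map_smul, smul_eq_mul,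
          mul_eq_zero] at h
        rw [← mul_assoc (vp 1 ^ j), even_comm (inv_vp_pow j), mul_assoc (io (cv u)),
          mul_assoc (io (cv u)), ← mul_assoc (vp 1 ^ j)]
        exact h.resolve_left (by positivity)
      intro x
      induction x using ext_induction with
      | h0 r => exact hdeg j 0 (by omega) _ (algebraMap_mem_deg r)
      | h1 x y hx hy => rw [mul_add, add_mul, map_add, hx, hy, add_zero]
      | h2 φ x _ =>
        obtain ⟨t, u, rfl⟩ := dual_eq φ
        rw [io_add, io_smul, add_mul, mul_add, add_mul, map_add, smul_mul_assoc, mul_smul_comm,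
          smul_mul_assoc, map_smul, hee, smul_zero, zero_add]
        clear * - hdeg hee h2 hj
        induction x using ext_induction with
        | h0 r =>
          exact hdeg j (1 + 0) (by omega) _ (mul_mem_deg (io_mem_deg _) (algebraMap_mem_deg r))
        | h1 x y hx hy => rw [mul_add, mul_add, add_mul, map_add, hx, hy, add_zero]
        | h2 φ x _ =>
          obtain ⟨t, w, rfl⟩ := dual_eq φ
          rw [io_add, io_smul, add_mul, mul_add, mul_add, add_mul, map_add, h2, add_zero,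
            smul_mul_assoc, mul_smul_comm, mul_smul_comm, smul_mul_assoc, map_smul, ← mul_assoc,
            hee, smul_zero]
  apply hτ0
  refine LinearMap.ext fun y => ?_
  have h := hτ.io_mul_iv eps (1, 0) y
  rw [io_mul, eps_apply, one_mul] at h
  have h2 := key N 0 rfl (inv (iv (1, 0) y))
  rw [pow_zero, one_mul, h] at h2
  exact h2

/-! ### The big algebra -/

variable {V : Type} [AddCommGroup V] [Module ℝ V]

/-- The exterior algebra of the sum. -/
abbrev AA (V : Type) [AddCommGroup V] [Module ℝ V] (N : ℕ) : Type :=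
  Ext (V × Module.Dual ℝ (WH N))

/-- The first inclusion. -/
noncomputable def i1 : Ext V →ₐ[ℝ] AA V N := ExteriorAlgebra.map (LinearMap.inl ℝ _ _)

/-- The second inclusion. -/
noncomputable def i2 : FH N →ₐ[ℝ] AA V N := ExteriorAlgebra.map (LinearMap.inr ℝ _ _)

/-- Contraction with a vector of `WH N`. -/
noncomputable def jv (v : WH N) : AA V N →ₗ[ℝ] AA V N :=
  ctr (Module.Dual.eval ℝ (WH N) v ∘ₗ LinearMap.snd ℝ _ _)

theorem inv_i1 (x : Ext V) : inv (i1 x : AA V N) = i1 (inv x) := inv_map _ _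
theorem inv_i2 (x : FH N) : inv (i2 x : AA V N) = i2 (inv x) := inv_map _ _

theorem jv_i1 (v : WH N) (x : Ext V) : jv v (i1 x) = 0 := by
  rw [jv, i1, ctr_map, LinearMap.comp_assoc, LinearMap.snd_comp_inl, LinearMap.comp_zero, ctr_zero,
    map_zero]

theorem jv_i2 (v : WH N) (x : FH N) : jv v (i2 x : AA V N) = i2 (iv v x) := by
  rw [jv, i2, ctr_map, LinearMap.comp_assoc, LinearMap.snd_comp_inr, LinearMap.comp_id]

theorem jv_mul (v : WH N) (x y : AA V N) : jv v (x * y) = jv v x * y + inv x * jv v y :=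
  ctr_mul _ _ _

theorem jv_i1_mul (v : WH N) (x : Ext V) (y : AA V N) : jv v (i1 x * y) = i1 (inv x) * jv v y := by
  rw [jv_mul, jv_i1, zero_mul, zero_add, inv_i1]

theorem jv_pow (v : WH N) {x : AA V N} (hx : jv v x = 0) (j : ℕ) : jv v (x ^ j) = 0 :=
  ctr_pow_eq_zero _ hx j

theorem i1_io_mul (v : V) (x : AA V N) : i1 (io v) * x = inv x * i1 (io v) := by
  rw [i1, map_io, io_mul]

/-- The fibre integration attached to a top functional. -/
structure IsPt (τ : FH N →ₗ[ℝ] ℝ) (pt : AA V N →ₗ[ℝ] Ext V) : Prop where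
  left : ∀ x y, pt (i1 x * y) = inv x * pt y
  right : ∀ y, pt (i2 y) = algebraMap ℝ _ (τ y)
  ctr : ∀ v y, pt (jv v y) = 0

theorem exists_pt {τ : FH N →ₗ[ℝ] ℝ} (hτ : TopLike τ) :
    ∃ pt : AA V N →ₗ[ℝ] Ext V, IsPt τ pt := by
  obtain ⟨c, hc⟩ := top_eq hτ
  let b := Module.finBasis ℝ (WH N)
  have h1 : ∀ (m : ℕ) (v : Fin m → WH N) (x : Ext V) (y : AA V N),
      ctrs m (fun i => Module.Dual.eval ℝ (WH N) (v i) ∘ₗ LinearMap.snd ℝ _ _) (i1 x * y) =
        i1 ((fun x => inv x)^[m] x) *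
          ctrs m (fun i => Module.Dual.eval ℝ (WH N) (v i) ∘ₗ LinearMap.snd ℝ _ _) y := by
    intro m
    induction m with
    | zero => intro v x y; rfl
    | succ m ih =>
      intro v x y
      rw [ctrs_succ, ctrs_succ, Function.iterate_succ_apply']
      exact (congrArg _ (ih (Fin.tail v) x y)).trans (jv_i1_mul _ _ _)
  refine ⟨c • ((ExteriorAlgebra.map (LinearMap.fst ℝ _ _)).toLinearMap ∘ₗ
    ctrs _ fun i => Module.Dual.eval ℝ (WH N) (b i) ∘ₗ LinearMap.snd ℝ _ _),
    fun x y => ?_, fun y => ?_, fun v y => ?_⟩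
  · have h2 : Function.Involutive fun x : Ext V => inv x := inv_inv'
    simp only [LinearMap.smul_apply, LinearMap.comp_apply, AlgHom.toLinearMap_apply]
    rw [h1, h2.iterate_odd (by rw [finrank_WH]; exact odd_two_mul_add_one N), map_mul, i1, map_map,
      LinearMap.fst_comp_inl, map_id', mul_smul_comm]
  · simp only [LinearMap.smul_apply, LinearMap.comp_apply, AlgHom.toLinearMap_apply]
    rw [i2, ctrs_map, map_map, LinearMap.fst_comp_inr, map_zero_eq, hc y, map_mul,
      ← Algebra.smul_def]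
    rfl
  · simp only [LinearMap.smul_apply, LinearMap.comp_apply, AlgHom.toLinearMap_apply]
    have e : Module.Dual.eval ℝ (WH N) v ∘ₗ LinearMap.snd ℝ V _ =
        ∑ i, b.repr v i • (Module.Dual.eval ℝ (WH N) (b i) ∘ₗ LinearMap.snd ℝ V _) := by
      refine LinearMap.ext fun x => ?_
      have := congrArg x.2 (b.sum_repr v)
      rw [map_sum] at this
      simpa [LinearMap.sum_apply] using this.symm
    rw [jv, e, ctr_sum, map_sum, Finset.sum_eq_zero, map_zero, smul_zero]
    intro i _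
    rw [ctr_smul, map_smul, ctrs_ctr _
      (fun i => Module.Dual.eval ℝ (WH N) (b i) ∘ₗ LinearMap.snd ℝ V _) i, smul_zero]

theorem IsPt.eq_zero {τ : FH N →ₗ[ℝ] ℝ} {pt : AA V N →ₗ[ℝ] Ext V} (h : IsPt τ pt) {v : WH N}
    (hv : v ≠ 0) {y : AA V N} (hy : jv v y = 0) : pt y = 0 := by
  obtain ⟨φ, hφ⟩ : ∃ φ : Module.Dual ℝ (WH N), φ v ≠ 0 := by
    by_contra h
    push Not at h
    exact hv ((Module.forall_dual_apply_eq_zero_iff ℝ v).mp h)
  have := h.ctr v (i2 (io φ) * y)
  rw [jv_mul, hy, mul_zero, add_zero, jv_i2, iv_io, AlgHom.commutes, ← Algebra.smul_def,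
    map_smul] at this
  exact (smul_eq_zero.mp this).resolve_left hφ

/-! ### The recursion -/

variable {J : Type} [Fintype J] (β : J → V) (Y : J → HM N) (z : CV N)

/-- The mixed two-form. -/
noncomputable def SS : AA V N := ∑ a, i1 (io (β a)) * i2 (io (cv (Complex.I • Y a *ᵥ z)))

/-- The moment one-form. -/
noncomputable def FV : Ext V := ∑ a, qf (Y a) z • io (β a)

/-- The scalar two-form. -/
noncomputable def gg : Ext V :=
  ∑ a, ∑ b, rin z (Complex.I • (Y a * Y b) *ᵥ z) • (io (β a) * io (β b))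

/-- The even derivation. -/
noncomputable def Dd (y : AA V N) : AA V N := ∑ a, i1 (io (β a)) * jv (0, Y a *ᵥ z) y

theorem inv_SS : inv (SS β Y z) = SS β Y z := by
  simp [SS, map_sum, inv_i1, inv_i2]

theorem inv_FV : inv (FV β Y z) = -FV β Y z := by
  simp [FV, map_sum]

theorem inv_gg : inv (gg β Y z) = gg β Y z := by
  simp [gg, map_sum]

theorem Dd_mul (x y : AA V N) : Dd β Y z (x * y) = Dd β Y z x * y + x * Dd β Y z y := by
  simp only [Dd, jv_mul, mul_add, Finset.sum_add_distrib, Finset.sum_mul, Finset.mul_sum]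
  congr 1
  · exact Finset.sum_congr rfl fun a _ => by rw [mul_assoc]
  · exact Finset.sum_congr rfl fun a _ => by rw [← mul_assoc, i1_io_mul, inv_inv', mul_assoc]

theorem Dd_pow {x : AA V N} (hx : inv x = x) (j : ℕ) :
    Dd β Y z (x ^ (j + 1)) = ((j + 1 : ℕ) : ℝ) • (x ^ j * Dd β Y z x) := by
  simp only [Dd, jv, ctr_pow_even _ hx, mul_smul_comm, Finset.smul_sum, Finset.mul_sum]
  refine Finset.sum_congr rfl fun a _ => ?_
  rw [← mul_assoc, ← even_comm (x := x ^ j) (by rw [map_pow, hx]), mul_assoc]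

theorem Dd_i1 (x : Ext V) : Dd β Y z (i1 x) = 0 := by simp [Dd, jv_i1]

theorem Dd_iocv (u : CV N) :
    Dd β Y z (i2 (io (cv u))) = i1 (∑ a, rin u (Y a *ᵥ z) • io (β a)) := by
  simp only [Dd, jv_i2, iv_iocv, AlgHom.commutes, map_sum, map_smul]
  exact Finset.sum_congr rfl fun a _ => by rw [← Algebra.commutes, ← Algebra.smul_def]

theorem Dd_eps : Dd β Y z (i2 (io eps)) = 0 := by simp [Dd, jv_i2, eps_apply]

theorem Dd_vp : Dd β Y z (i2 (vp 1)) = (2 : ℝ) • SS β Y z := by
  simp only [Dd, SS, jv_i2, iv_vp pd_one, Matrix.one_mulVec, map_smul, mul_smul_comm,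
    Finset.smul_sum]

variable {Y}

theorem rin_I_herm {A : HM N} (hA : Aᴴ = A) : rin (Complex.I • z) (A *ᵥ z) = 0 := by
  have h1 : rin (Complex.I • z) (A *ᵥ z) = -rin (Complex.I • z) (A *ᵥ z) := by
    conv_lhs => rw [rin_I_left, ← Matrix.mulVec_smul, ← hA, ← rin_mulVec, rin_comm]
  linarith

theorem Dd_SS (hY : ∀ a, (Y a)ᴴ = Y a) : Dd β Y z (SS β Y z) = -i1 (gg β Y z) := by
  have h : ∀ x : J → AA V N, Dd β Y z (∑ a, x a) = ∑ a, Dd β Y z (x a) := by
    intro x
    simp only [Dd, map_sum, Finset.mul_sum]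
    exact Finset.sum_comm
  rw [SS, h]
  simp only [Dd_mul, Dd_i1, zero_mul, zero_add, Dd_iocv, gg, map_sum, map_smul, map_mul,
    Finset.mul_sum, mul_smul_comm, ← Finset.sum_neg_distrib, ← neg_smul]
  refine Finset.sum_congr rfl fun a _ => Finset.sum_congr rfl fun b _ => ?_
  rw [rin_I_left, rin_mulVec, hY, Matrix.mulVec_smul, Matrix.mulVec_mulVec]

/-- The constant part of the integrand. -/
noncomputable def RR (Y : J → HM N) : AA V N :=
  i1 (FV β Y z) * i2 (io (cv z) * (io (cv (Complex.I • z)) * io eps))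

theorem Dd_RR (hY : ∀ a, (Y a)ᴴ = Y a) : Dd β Y z (RR β z Y) = 0 := by
  rw [RR, map_mul, map_mul, Dd_mul, Dd_mul, Dd_mul, Dd_i1, Dd_eps, Dd_iocv, Dd_iocv]
  simp only [rin_I_herm z (hY _), zero_smul, Finset.sum_const_zero, map_zero, zero_mul, mul_zero,
    add_zero, zero_add]
  rw [← mul_assoc, ← map_mul]
  change i1 (FV β Y z * FV β Y z) * _ = 0
  rw [odd_sq (inv_FV β Y z), map_zero, zero_mul]

/-- The constants of the recursion. -/
noncomputable def kap : ℕ → ℕ → ℝ
  | 0, _ => 1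
  | k + 1, l => ((2 * k + 1 : ℕ) : ℝ) / (2 * ((l + 1 : ℕ) : ℝ)) * kap k (l + 1)

theorem kap_pos (k : ℕ) : ∀ l, 0 < kap k l := by
  induction k with
  | zero => intro l; exact one_pos
  | succ k ih => intro l; exact mul_pos (by positivity) (ih _)

variable {τ : FH N →ₗ[ℝ] ℝ} {pt : AA V N →ₗ[ℝ] Ext V}

theorem pt_Dd (h : IsPt τ pt) (y : AA V N) : pt (Dd β Y z y) = 0 := by
  simp [Dd, map_sum, h.left, h.ctr]

theorem pt_rec (h : IsPt τ pt) (hY : ∀ a, (Y a)ᴴ = Y a) (k : ℕ) : ∀ l,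
    pt (SS β Y z ^ (2 * k) * (i2 (vp 1) ^ l * RR β z Y)) =
      kap k l • (gg β Y z ^ k * pt (i2 (vp 1) ^ (l + k) * RR β z Y)) := by
  induction k with
  | zero => intro l; simp [kap]
  | succ k ih =>
    intro l
    have hv : inv (i2 (vp 1) : AA V N) = i2 (vp 1) := by rw [inv_i2, inv_vp]
    have h1 := pt_Dd (Y := Y) β z h (SS β Y z ^ (2 * k + 1) * (i2 (vp 1) ^ (l + 1) * RR β z Y))
    rw [Dd_mul, Dd_mul, Dd_RR β z hY, mul_zero, add_zero, Dd_pow _ _ _ (inv_SS β Y z),
      Dd_pow _ _ _ hv, Dd_SS β z hY, Dd_vp, mul_neg, smul_neg, neg_mul, map_add, map_neg,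
      smul_mul_assoc, map_smul, even_comm (x := SS β Y z ^ (2 * k)) (by rw [map_pow, inv_SS]),
      mul_assoc, h.left, inv_gg, ih, mul_smul_comm, mul_smul_comm, smul_mul_assoc, smul_mul_assoc,
      mul_smul_comm, mul_smul_comm, map_smul, map_smul, ← even_comm (inv_SS β Y z) (_ ^ l),
      mul_assoc, ← mul_assoc (SS β Y z ^ (2 * k + 1)), ← pow_succ, ← mul_assoc (gg β Y z),
      ← pow_succ', neg_add_eq_zero, smul_smul, smul_smul] at h1
    have h2 : (((l + 1 : ℕ) : ℝ) * 2) ≠ 0 := by positivity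
    rw [show 2 * (k + 1) = 2 * k + 1 + 1 by ring, show l + (k + 1) = l + 1 + k by ring]
    refine smul_right_injective _ h2 ?_
    simp only
    rw [← h1, smul_smul, kap]
    congr 1
    field_simp

theorem pt_base (h : IsPt τ pt) (l : ℕ) : pt (i2 (vp 1) ^ l * RR β z Y) =
    (-τ (io (cv z) * (vp 1 ^ l * io (cv (Complex.I • z)) * io eps))) • FV β Y z := by
  have hv : inv (i2 (vp 1) ^ l : AA V N) = i2 (vp 1) ^ l := by rw [map_pow, inv_i2, inv_vp]
  rw [RR, ← mul_assoc, even_comm hv, mul_assoc, h.left, ← map_pow, ← map_mul, h.right, inv_FV,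
    ← Algebra.commutes, ← Algebra.smul_def, smul_neg, neg_smul, ← mul_assoc,
    even_comm (inv_vp_pow l), mul_assoc, mul_assoc]

theorem top_base (hτ : TopLike τ) (l : ℕ) :
    (2 * (l + 1 : ℕ) : ℝ) * τ (io (cv z) * (vp 1 ^ l * io (cv (Complex.I • z)) * io eps)) =
      qf 1 z * τ (vp 1 ^ (l + 1) * io eps) := by
  have h := hτ.io_mul_iv (cv z) (0, z) (vp 1 ^ (l + 1) * io eps)
  rw [ctr_mul, iv_eps, map_zero, mul_zero, add_zero, iv_vp_pow, smul_mul_assoc, mul_smul_comm,
    map_smul, cv_apply, ← qf_one] at h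
  exact h

end BD

end Pool.Agent.Lib.MP_cdc9ab_al
end

-- part Pool.Agent.Lib.MP_cdc9ab_al.BDerB
section

open scoped Matrix.Norms.Operator ContDiff Matrix Topology
open Finset Filter

namespace Pool.Agent.Lib.MP_cdc9ab_al

namespace BD

section alg
variable {W : Type} [AddCommGroup W] [Module ℝ W]

theorem pow_mul_congr {a b c : Ext W} (hb : inv b = b) (h : a * c = b * c) (j : ℕ) :
    a ^ j * c = b ^ j * c := by
  induction j with
  | zero => simp
  | succ j ih => rw [pow_succ, mul_assoc, h, ← mul_assoc, ← even_comm hb, mul_assoc, ih,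
      ← mul_assoc, ← pow_succ']

theorem add_pow_sq_zero {w u : Ext W} (hw : inv w = w) (h : w * w = 0) (j : ℕ) :
    (w + u) ^ (j + 1) = u ^ (j + 1) + ((j + 1 : ℕ) : ℝ) • (w * u ^ j) := by
  induction j with
  | zero => simp [add_comm]
  | succ j ih =>
    rw [pow_succ, ih, add_mul, mul_add, mul_add, smul_mul_assoc, smul_mul_assoc,
      ← even_comm hw (w * u ^ j), ← mul_assoc w w, h, zero_mul, smul_zero, zero_add, mul_assoc,
      ← pow_succ, ← pow_succ, ← even_comm hw]
    push_cast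
    module

theorem odd_mul_odd_mul {x y : Ext W} (hx : inv x = -x) : x * y * x = 0 := by
  rw [odd_comm hx, mul_assoc, odd_sq hx, mul_zero]

end alg

/-- The polynomial of the product of the geometric series. -/
noncomputable def PP (N p : ℕ) : Polynomial ℝ := (∑ j ∈ range (N + 1), Polynomial.X ^ j) ^ (p + 1)

theorem PP_coeff (N p : ℕ) : (∀ m, 0 ≤ (PP N p).coeff m) ∧ ∀ m ≤ N, 0 < (PP N p).coeff m := by
  have h0 : ∀ m, (PP N 0).coeff m = if m < N + 1 then 1 else 0 := by
    intro m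
    simp [PP, Polynomial.coeff_X_pow]
  have h1 : ∀ m, 0 ≤ (PP N 0).coeff m := by
    intro m
    rw [h0]
    split_ifs <;> norm_num
  induction p with
  | zero => exact ⟨h1, fun m hm => by rw [h0, if_pos (by omega)]; exact one_pos⟩
  | succ p ih =>
    have e : PP N (p + 1) = PP N p * PP N 0 := by simp [PP, pow_succ]
    refine ⟨fun m => ?_, fun m hm => ?_⟩
    · rw [e, Polynomial.coeff_mul]
      exact Finset.sum_nonneg fun x _ => mul_nonneg (ih.1 _) (h1 _)
    · rw [e, Polynomial.coeff_mul]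
      refine Finset.sum_pos' (fun x _ => mul_nonneg (ih.1 _) (h1 _)) ⟨(m, 0), by simp, ?_⟩
      rw [h0, if_pos (by simp), mul_one]
      exact ih.2 m hm

variable {N : ℕ} {V : Type} [AddCommGroup V] [Module ℝ V] [FiniteDimensional ℝ V]
  {J : Type} [Fintype J] (β : J → V) (Y : J → HM N) {z : CV N}

/-- The differential in the matrix variable. -/
noncomputable def dA (w : HM N → AA V N) : AA V N :=
  dd (fun a => LinearMap.inl ℝ V (Module.Dual ℝ (WH N)) (β a)) Y w 1

theorem dA_eq (w : HM N → AA V N) : dA β Y w = ∑ a, i1 (io (β a)) * fderiv ℝ w 1 (Y a) := by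
  simp only [dA, dd, i1, map_io]
  rfl

theorem differentiableAt_i2 {w : HM N → FH N} {H : HM N} (hw : DifferentiableAt ℝ w H) :
    DifferentiableAt ℝ (fun H => (i2 (w H) : AA V N)) H :=
  differentiableAt_lin (B := AA V N) (i2 (V := V) (N := N)).toLinearMap hw

theorem dA_i2 {w : HM N → FH N} (hw : DifferentiableAt ℝ w 1) :
    dA β Y (fun H => i2 (w H)) = ∑ a, i1 (io (β a)) * i2 (fderiv ℝ w 1 (Y a)) := by
  rw [dA_eq]
  exact Finset.sum_congr rfl fun a _ => congrArg _ 
    (fderiv_lin (B := AA V N) (i2 (V := V) (N := N)).toLinearMap hw _)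

theorem inv_dA_odd {w : HM N → FH N} (hw : DifferentiableAt ℝ w 1) (h : ∀ H, inv (w H) = -w H) :
    inv (dA β Y fun H => i2 (w H)) = dA β Y fun H => i2 (w H) := by
  rw [dA, inv_dd _ _ (differentiableAt_i2 hw)]
  simp only [inv_i2, h, map_neg]
  rw [dd_neg, neg_neg]

theorem inv_dA_even {w : HM N → FH N} (hw : DifferentiableAt ℝ w 1) (h : ∀ H, inv (w H) = w H) :
    inv (dA β Y fun H => i2 (w H)) = -dA β Y fun H => i2 (w H) := by
  rw [dA, inv_dd _ _ (differentiableAt_i2 hw)]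
  simp only [inv_i2, h]

theorem fderiv_Xf (hz : z ≠ 0) (A : HM N) : fderiv ℝ (fun H => Xf H z) 1 A =
    ((qf 1 z)⁻¹ * qf A z) • io eps + ((qf 1 z)⁻¹ • io (cv (Complex.I • A *ᵥ z)) -
      ((qf 1 z)⁻¹ * qf A z) • sg 1 z) := by
  have h0 := (pd_one.pos hz).ne'
  let qL : HM N →L[ℝ] ℝ := LinearMap.toContinuousLinearMap (cv0 z ∘ₗ mv.flip z)
  let sL : HM N →L[ℝ] FH N := LinearMap.toContinuousLinearMap
    (iocv ∘ₗ (LinearMap.lsmul ℂ (CV N) Complex.I).restrictScalars ℝ ∘ₗ mv.flip z)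
  have hq : ∀ H, qL H = qf H z := fun H => rfl
  have hs : ∀ H, sL H = io (cv (Complex.I • H *ᵥ z)) := fun H => rfl
  have e : (fun H => Xf H z) = fun H => Real.log (qL H) • io eps + (qL H)⁻¹ • sL H := by
    funext H
    rw [Xf, sg, iocv_smul, hq, hs]
  have h1 : HasFDerivAt qL qL 1 := qL.hasFDerivAt
  have h2 := ((h1.log h0).smul_const (io (eps (N := N)))).add
    (((hasDerivAt_inv h0).comp_hasFDerivAt 1 h1).smul sL.hasFDerivAt)
  rw [e]
  refine (congrArg (fun T => T A) h2.fderiv).trans ?_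
  simp only [add_apply, ContinuousLinearMap.smulRight_apply, smul_apply, smul_eq_mul, hq, hs,
    Function.comp_apply, sg, iocv_smul, smul_smul, sub_eq_add_neg, ← neg_smul]
  congr 3
  field_simp
  rfl

theorem diff_Xf (hz : z ≠ 0) : DifferentiableAt ℝ (fun H => Xf H z) 1 :=
  (contDiffAt_Xf (n := 1) contDiffAt_id contDiffAt_const (pd_one.pos hz).ne').differentiableAt
    one_ne_zero

theorem diff_geo (hz : z ≠ 0) : DifferentiableAt ℝ (fun H => geo (om H z)) 1 :=
  (contDiffAt_geo (contDiffAt_om (n := 1) contDiffAt_id contDiffAt_const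
    (pd_one.pos hz).ne')).differentiableAt one_ne_zero

theorem diff_Zf (hz : z ≠ 0) : DifferentiableAt ℝ (fun H => Zf H z) 1 :=
  (diff_Xf hz).mul (diff_geo hz)

theorem dA_Xf (hz : z ≠ 0) : dA β Y (fun H => i2 (Xf H z)) =
    (qf 1 z)⁻¹ • (i1 (FV β Y z) * i2 (io eps)) +
      ((qf 1 z)⁻¹ • SS β Y z - (qf 1 z)⁻¹ • (i1 (FV β Y z) * i2 (sg 1 z))) := by
  rw [dA_i2 β Y (diff_Xf hz)]
  simp only [fderiv_Xf hz, FV, SS, map_add, map_sub, map_smul, map_sum, mul_add, mul_sub,
    mul_smul_comm, Finset.sum_add_distrib, Finset.sum_sub_distrib, Finset.sum_mul, Finset.smul_sum,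
    smul_mul_assoc, smul_smul]

theorem dA_Zf_pow (hz : z ≠ 0) (p : ℕ) : dA β Y (fun H => i2 (Zf H z)) ^ p * i2 (Xf 1 z) =
    (dA β Y (fun H => i2 (Xf H z)) * i2 (geo (om 1 z))) ^ p * i2 (Xf 1 z) := by
  have hX : inv (i2 (Xf 1 z) : AA V N) = -i2 (Xf 1 z) := by rw [inv_i2, inv_Xf, map_neg]
  apply pow_mul_congr
  · rw [map_mul, inv_dA_odd β Y (diff_Xf hz) fun H => inv_Xf H z, inv_i2, inv_geo_om]
  · simp only [Zf, map_mul]
    rw [dA, dd_mul _ _ (differentiableAt_i2 (diff_Xf hz)) (differentiableAt_i2 (diff_geo hz)),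
      add_mul, hX, neg_mul, neg_mul, odd_mul_odd_mul hX, neg_zero, add_zero]
    rfl

omit [FiniteDimensional ℝ V] in
theorem jv_SS (v : WH N) : jv v (SS β Y z) =
    -i1 (∑ a, rin (Complex.I • Y a *ᵥ z) v.2 • io (β a)) := by
  simp only [SS, map_sum, jv_i1_mul, jv_i2, iv_iocv, inv_io, map_neg, AlgHom.commutes, map_smul,
    ← Finset.sum_neg_distrib]
  exact Finset.sum_congr rfl fun a _ => by rw [← Algebra.commutes, ← Algebra.smul_def, smul_neg]

theorem geo_sg_da (z : CV N) (p : ℕ) : geo (om 1 z) ^ (p + 1) * (sg 1 z * da 1 z) =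
    Polynomial.aeval ((qf 1 z)⁻¹ • vp (1 : HM N)) (PP N p) * (sg 1 z * da 1 z) := by
  have ht : inv ((qf 1 z)⁻¹ • vp (1 : HM N)) = (qf 1 z)⁻¹ • vp 1 := by rw [map_smul, inv_vp]
  have e : Polynomial.aeval ((qf 1 z)⁻¹ • vp (1 : HM N)) (PP N p) =
      geo ((qf 1 z)⁻¹ • vp 1) ^ (p + 1) := by
    simp [PP, geo, map_sum]
  rw [e]
  apply pow_mul_congr
  · rw [map_geo, ht]
  · simp only [geo, Finset.sum_mul]
    refine Finset.sum_congr rfl fun j _ => pow_mul_congr ht ?_ j
    rw [om, sub_mul, mul_assoc, ← mul_assoc (sg 1 z), odd_sq (inv_sg 1 z)]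
    simp

variable {Y} {τ : FH N →ₗ[ℝ] ℝ} {pt : AA V N →ₗ[ℝ] Ext V}

theorem pt_reduce (h : IsPt τ pt) (hz : z ≠ 0) (j : ℕ) :
    pt (dA β Y (fun H => i2 (Zf H z)) ^ (j + 1) * i2 (Zf 1 z * da 1 z)) =
      (-(2 * (j + 1 : ℕ) * (qf 1 z)⁻¹ ^ (j + 3)) : ℝ) • pt (SS β Y z ^ j *
        (i2 (Polynomial.aeval ((qf 1 z)⁻¹ • vp (1 : HM N)) (PP N (j + 1))) * RR β z Y)) := by
  set c := (qf 1 z)⁻¹ with hc
  set F : AA V N := i1 (FV β Y z) with hF
  set e : AA V N := i2 (io eps) with he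
  set σ : AA V N := i2 (sg 1 z) with hσ
  set d : AA V N := i2 (da 1 z) with hd
  set G : AA V N := i2 (geo (om 1 z)) with hG
  set u : AA V N := c • SS β Y z - c • (F * σ) with hu
  have iF : inv F = -F := by rw [hF, inv_i1, inv_FV, map_neg]
  have ie : inv e = -e := by rw [he, inv_i2, inv_io, map_neg]
  have iσ : inv σ = -σ := by rw [hσ, inv_i2, inv_sg, map_neg]
  have iG : inv G = G := by rw [hG, inv_i2, inv_geo_om]
  have iGp : inv (G ^ (j + 1 + 1)) = G ^ (j + 1 + 1) := by rw [map_pow, iG]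
  have iu : inv u = u := by rw [hu, map_sub, map_smul, map_smul, map_mul, iF, iσ, inv_SS, neg_mul_neg]
  have iup : ∀ i, inv (u ^ i) = u ^ i := fun i => by rw [map_pow, iu]
  have iw : inv (c • (F * e)) = c • (F * e) := by rw [map_smul, map_mul, iF, ie, neg_mul_neg]
  have hww : c • (F * e) * c • (F * e) = 0 := by
    rw [smul_mul_smul_comm, ← mul_assoc, odd_mul_odd_mul iF, zero_mul, smul_zero]
  have s1 : dA β Y (fun H => i2 (Zf H z)) ^ (j + 1) * i2 (Zf 1 z * da 1 z) =
      (c • (F * e) + u) ^ (j + 1) * (G ^ (j + 1 + 1) * ((Real.log (qf 1 z) • e + σ) * d)) := by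
    rw [Zf, map_mul, map_mul, ← mul_assoc, ← mul_assoc, dA_Zf_pow β Y hz, dA_Xf β Y hz,
      ← hG, (show Commute _ G from (even_comm iG _).symm).mul_pow, Xf, map_add, map_smul,
      mul_assoc, mul_assoc, mul_assoc, ← hd, pow_succ G (j + 1), mul_assoc,
      even_comm iG (_ * d), mul_assoc, even_comm iG d]
  have hiz : ((0 : ℝ), Complex.I • z) ≠ 0 := by
    simp [hz]
  have j1 : jv (0, Complex.I • z) u = 0 := by
    rw [hu, map_sub, map_smul, map_smul, jv_SS, hF, jv_i1_mul, hσ, jv_i2, iv_iz_sg pd_one hz,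
      map_one, mul_one, inv_FV, map_neg]
    simp only [rin_I_I, rin_comm _ z]
    exact sub_self _
  have j2 : jv (0, Complex.I • z) G = 0 := by
    rw [hG, jv_i2, iv_geo _ (iv_iz_om pd_one hz 0), map_zero]
  have j3 : jv (1, 0) u = 0 := by
    rw [hu, map_sub, map_smul, map_smul, jv_SS, hF, jv_i1_mul, hσ, jv_i2, iv_e_sg]
    simp
  have j4 : jv (1, 0) G = 0 := by rw [hG, jv_i2, iv_geo _ (iv_e_om pd_one 1), map_zero]
  have t1 : pt (u ^ (j + 1) * (G ^ (j + 1 + 1) * (e * d))) = 0 := by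
    refine h.eq_zero hiz ?_
    rw [jv_mul, jv_mul, jv_mul, jv_pow _ j1, jv_pow _ j2, he, hd, jv_i2, jv_i2, iv_eps,
      iv_iz_da pd_one]
    simp
  have t2 : pt (u ^ (j + 1) * (G ^ (j + 1 + 1) * (σ * d))) = 0 := by
    refine h.eq_zero (v := (1, 0)) (by simp) ?_
    rw [jv_mul, jv_mul, jv_mul, jv_pow _ j3, jv_pow _ j4, hσ, hd, jv_i2, jv_i2, iv_e_sg, iv_e_da]
    simp
  have t3 : c • (F * e) * u ^ j * (G ^ (j + 1 + 1) * (e * d)) = 0 := by
    rw [← even_comm (iup j), even_comm iGp, mul_assoc, smul_mul_assoc, mul_assoc F, mul_assoc e d,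
      ← mul_assoc e, odd_sq ie]
    simp
  have t4 : c • (F * e) * u ^ j * (G ^ (j + 1 + 1) * (σ * d)) =
      (-(2 * c ^ (j + 3))) • (SS β Y z ^ j *
        (i2 (Polynomial.aeval (c • vp (1 : HM N)) (PP N (j + 1))) * RR β z Y)) := by
    have a1 : u ^ j * σ = (c • SS β Y z) ^ j * σ := by
      apply pow_mul_congr
      · rw [map_smul, inv_SS]
      · rw [hu, sub_mul, smul_mul_assoc c (F * σ), mul_assoc, odd_sq iσ]
        simp
    have a2 : G ^ (j + 1 + 1) * (σ * d) =
        i2 (Polynomial.aeval (c • vp (1 : HM N)) (PP N (j + 1))) * (σ * d) := by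
      rw [hG, hσ, hd, ← map_pow, ← map_mul, ← map_mul, geo_sg_da, map_mul]
    have a3 : F * e * (σ * d) = (-(2 * c ^ 2)) • RR β z Y := by
      rw [RR, mul_assoc, he, hσ, hd, ← map_mul, ← map_mul, ← mul_smul_comm, ← map_smul]
      congr 2
      rw [sg, da, Matrix.one_mulVec, iocv_smul, iocv_smul, smul_mul_smul_comm, mul_smul_comm,
        io_swap (cv (Complex.I • z)) (cv z), io_mul eps, map_neg, map_mul, inv_io, inv_io,
        neg_mul_neg, neg_mul, mul_assoc, smul_neg, ← neg_smul, ← hc]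
      congr 1
      ring
    set P : AA V N := i2 (Polynomial.aeval (c • vp (1 : HM N)) (PP N (j + 1)))
    have iP : inv P = P := by
      rw [inv_i2, ← Polynomial.aeval_algHom_apply, map_smul, inv_vp]
    have iS : inv (SS β Y z ^ j) = SS β Y z ^ j := by rw [map_pow, inv_SS]
    rw [a2, mul_assoc, even_comm iP, ← mul_assoc (u ^ j), ← mul_assoc (u ^ j), a1, smul_pow,
      smul_mul_assoc (c ^ j), smul_mul_assoc (c ^ j), smul_mul_assoc (c ^ j), smul_mul_smul_comm,
      mul_assoc (SS β Y z ^ j), mul_assoc (SS β Y z ^ j), ← mul_assoc (F * e), ← even_comm iS,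
      mul_assoc (SS β Y z ^ j), ← mul_assoc (F * e), a3, smul_mul_assoc, mul_smul_comm, smul_smul,
      ← even_comm iP]
    congr 1
    ring
  rw [s1, add_pow_sq_zero iw hww]
  simp only [add_mul, mul_add, smul_mul_assoc (Real.log _), mul_smul_comm (Real.log _), map_add,
    map_smul, smul_mul_assoc ((j + 1 : ℕ) : ℝ)]
  rw [t1, t2, t3, t4, map_smul, smul_smul]
  simp only [smul_zero, map_zero, zero_add]
  congr 1
  ring

/-- The constant of the pointwise formula. -/
noncomputable def cP (k m n : ℕ) (t : ℝ) : ℝ :=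
  ((2 * k + 1 : ℕ) : ℝ) * (PP (n + 1) (2 * k + 1)).coeff m * kap k m * t / ((n + 1 : ℕ) : ℝ)

theorem cP_ne_zero {k m n : ℕ} (hn : k + m = n) {t : ℝ} (ht : t ≠ 0) : cP k m n t ≠ 0 := by
  have h1 := (PP_coeff (n + 1) (2 * k + 1)).2 m (by omega)
  have h2 := kap_pos k m
  unfold cP
  positivity

theorem pt_value {k m n : ℕ} (hn : k + m = n) {Y : J → HM (n + 1)} (hY : ∀ a, (Y a)ᴴ = Y a)
    {τ : FH (n + 1) →ₗ[ℝ] ℝ} (hτ : TopLike τ) {pt : AA V (n + 1) →ₗ[ℝ] Ext V} (h : IsPt τ pt)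
    {z : CV (n + 1)} (hz : z ≠ 0) :
    pt (dA β Y (fun H => i2 (Zf H z)) ^ (2 * k + 1) * i2 (Zf 1 z * da 1 z)) =
      (cP k m n (τ (vp 1 ^ (n + 1) * io eps)) * (qf 1 z)⁻¹ ^ (n + k + 2)) •
        (gg β Y z ^ k * FV β Y z) := by
  have h0 := (pd_one.pos hz).ne'
  rw [pt_reduce β h hz, Polynomial.aeval_eq_sum_range]
  simp only [map_sum, map_smul, map_pow, smul_pow, Finset.sum_mul, Finset.mul_sum, smul_mul_assoc,
    mul_smul_comm, pt_rec β z h hY, pt_base β z h, smul_smul]
  rw [Finset.sum_eq_single m, smul_smul, show m + k = n by omega]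
  · congr 1
    have h1 := top_base z hτ n
    have h2 : (2 * (n + 1 : ℕ) : ℝ) ≠ 0 := by positivity
    rw [eq_div_of_mul_eq h2 ((mul_comm _ _).trans h1), cP, show n + k + 2 = 2 * k + m + 2 by omega]
    simp only [inv_pow]
    field_simp
    ring
  · intro l _ hl
    rw [hτ.of_deg (j := 2 * (l + k) + 1 + 1 + 1) (by rw [finrank_WH]; omega)
      (io_mul_mem_deg _ (mul_mem_deg (mul_mem_deg (pow_mem_deg (vp_deg 1) _) (io_mem_deg _))
        (io_mem_deg _)))]
    simp
  · intro hm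
    rw [Polynomial.coeff_eq_zero_of_natDegree_lt (by simpa using hm)]
    simp

end BD

end Pool.Agent.Lib.MP_cdc9ab_al
end

-- part Pool.Agent.Lib.MP_cdc9ab_al.BDerC
section

open scoped Matrix.Norms.Operator ContDiff Matrix Topology TensorProduct
open Finset Filter MeasureTheory

namespace Pool.Agent.Lib.MP_cdc9ab_al

namespace BD

variable {N : ℕ} {V : Type} [AddCommGroup V] [Module ℝ V]

/-- Matrices with coefficients in the exterior algebra. -/
abbrev BB (V : Type) [AddCommGroup V] [Module ℝ V] (N : ℕ) : Type := Ext V ⊗[ℝ] HM N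

/-- The bilinear form of a matrix with coefficients in the exterior algebra. -/
noncomputable def Bq : BB V N →ₗ[ℝ] CV N →ₗ[ℝ] CV N →ₗ[ℝ] Ext V :=
  TensorProduct.lift (LinearMap.mk₂ ℝ
    (fun x M => (cv0.compl₂ (mv M)).compr₂ (LinearMap.toSpanSingleton ℝ _ x))
    (fun x y M => by ext u v; simp)
    (fun c x M => by ext u v; simp [smul_comm c])
    (fun x M M' => by ext u v; simp [add_smul])
    (fun c x M => by ext u v; simp [mul_smul]))

theorem Bq_tmul (x : Ext V) (M : HM N) (u v : CV N) : Bq (x ⊗ₜ M) u v = rin u (M *ᵥ v) • x := rfl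

/-- The real trace. -/
noncomputable def Tr (b : BB V N) : Ext V := ∑ i, Bq b (rb i) (rb i)

theorem Tr_add (b b' : BB V N) : Tr (b + b') = Tr b + Tr b' := by
  simp [Tr, Finset.sum_add_distrib]

theorem Tr_smul (c : ℝ) (b : BB V N) : Tr (c • b) = c • Tr b := by simp [Tr, Finset.smul_sum]

theorem Tr_sum {J : Type} (s : Finset J) (b : J → BB V N) :
    Tr (∑ a ∈ s, b a) = ∑ a ∈ s, Tr (b a) := by
  simp only [Tr, map_sum, LinearMap.sum_apply]
  exact Finset.sum_comm

theorem Tr_tmul (x : Ext V) (M : HM N) : Tr (x ⊗ₜ M) = (2 * M.trace.re) • x := by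
  simp only [Tr, Bq_tmul, ← Finset.sum_smul]
  congr 1
  rw [Fintype.sum_prod_type, Matrix.trace, Complex.re_sum, Finset.mul_sum]
  refine Finset.sum_congr rfl fun i _ => ?_
  simp [rb, rin, two_mul]

theorem Tr_left (x : Ext V) (b : BB V N) : Tr ((x ⊗ₜ 1) * b) = x * Tr b := by
  induction b using TensorProduct.induction_on with
  | zero => simp [Tr]
  | tmul y M => rw [Algebra.TensorProduct.tmul_mul_tmul, one_mul, Tr_tmul, Tr_tmul, mul_smul_comm]
  | add b b' h h' => rw [mul_add, Tr_add, Tr_add, h, h', mul_add]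

theorem Bq_mul (b b' : BB V N) (u v : CV N) :
    ∑ i, Bq b u (rb i) * Bq b' (rb i) v = Bq (b * b') u v := by
  induction b using TensorProduct.induction_on with
  | zero => simp
  | add b c h h' => simp only [map_add, LinearMap.add_apply, add_mul, Finset.sum_add_distrib, h, h']
  | tmul x M =>
    induction b' using TensorProduct.induction_on with
    | zero => simp
    | add b c h h' =>
      simp only [map_add, LinearMap.add_apply, mul_add, Finset.sum_add_distrib, h, h']
    | tmul y M' =>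
      simp only [Algebra.TensorProduct.tmul_mul_tmul, Bq_tmul, smul_mul_smul_comm,
        ← Finset.sum_smul]
      congr 1
      conv_rhs => rw [← Matrix.mulVec_mulVec, ← sum_rb (M' *ᵥ v), ← mv_apply, ← cv0_apply,
        map_sum, map_sum]
      refine Finset.sum_congr rfl fun i _ => ?_
      rw [map_smul, map_smul, smul_eq_mul, mul_comm]
      rfl

/-- The parity involution. -/
noncomputable def invB : BB V N →ₐ[ℝ] BB V N := Algebra.TensorProduct.map inv (AlgHom.id ℝ _)

theorem invB_tmul (x : Ext V) (M : HM N) : invB (x ⊗ₜ M) = inv x ⊗ₜ M := rfl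

theorem inv_Bq (b : BB V N) (u v : CV N) : inv (Bq b u v) = Bq (invB b) u v := by
  induction b using TensorProduct.induction_on with
  | zero => simp
  | tmul x M => rw [invB_tmul, Bq_tmul, Bq_tmul, map_smul]
  | add b c h h' => simp only [map_add, LinearMap.add_apply, h, h']

variable {J : Type} [Fintype J] (β : J → V) (Y : J → HM N)

/-- The tautological odd matrix. -/
noncomputable def th : BB V N := ∑ a, io (β a) ⊗ₜ Y a

/-- The scalar `i`. -/
noncomputable def Jc : BB V N := 1 ⊗ₜ (Complex.I • 1)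

/-- The curvature matrix. -/
noncomputable def nu : BB V N := Jc * th β Y ^ 2

theorem Jc_comm (b : BB V N) : Commute Jc b := by
  induction b using TensorProduct.induction_on with
  | zero => simp
  | tmul x M => simp [Commute, SemiconjBy, Jc]
  | add b c h h' => exact h.add_right h'

theorem invB_th : invB (th β Y) = (-1 : ℝ) • th β Y := by
  simp only [th, map_sum, invB_tmul, inv_io, Finset.smul_sum, neg_one_smul,
    TensorProduct.neg_tmul]

theorem invB_Jc : invB (Jc : BB V N) = Jc := by simp [Jc, invB_tmul]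

theorem invB_nu : invB (nu β Y) = nu β Y := by
  rw [nu, map_mul, map_pow, invB_th, invB_Jc, smul_pow, neg_one_sq, one_smul]

theorem nu_eq : nu β Y = ∑ a, ∑ b, (io (β a) * io (β b)) ⊗ₜ (Complex.I • (Y a * Y b)) := by
  simp [nu, th, Jc, pow_two, Finset.sum_mul, Finset.mul_sum]
  exact Finset.sum_comm

theorem Bq_th (z : CV N) : Bq (th β Y) z z = FV β Y z := by
  simp only [th, FV, map_sum, LinearMap.sum_apply, Bq_tmul, qf]

theorem Bq_nu (u v : CV N) : Bq (nu β Y) u v =
    ∑ a, ∑ b, rin u (Complex.I • (Y a * Y b) *ᵥ v) • (io (β a) * io (β b)) := by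
  simp only [nu_eq, map_sum, LinearMap.sum_apply, Bq_tmul, Matrix.smul_mulVec]

theorem Bq_nu_symm {Y : J → HM N} (hY : ∀ a, (Y a)ᴴ = Y a) (u v : CV N) :
    Bq (nu β Y) u v = Bq (nu β Y) v u := by
  rw [Bq_nu, Bq_nu, Finset.sum_comm]
  refine Finset.sum_congr rfl fun a _ => Finset.sum_congr rfl fun b _ => ?_
  rw [io_swap, smul_neg, ← neg_smul, rin_comm v, rin_I_left, rin_mulVec,
    Matrix.conjTranspose_mul, hY, hY, Matrix.mulVec_smul]

theorem Tr_cyc (b : BB V N) : Tr (th β Y * b) = Tr (invB b * th β Y) := by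
  induction b using TensorProduct.induction_on with
  | zero => simp
  | add b c h h' => rw [mul_add, map_add, add_mul, Tr_add, Tr_add, h, h']
  | tmul x M =>
    simp only [th, invB_tmul, Finset.sum_mul, Finset.mul_sum, Tr_sum,
      Algebra.TensorProduct.tmul_mul_tmul, Tr_tmul, io_mul, Matrix.trace_mul_comm M]

theorem Tr_nu_pow (l : ℕ) : Tr (nu β Y ^ l * nu β Y) = 0 := by
  have h1 : Commute (th β Y) (nu β Y) :=
    (Jc_comm _).symm.mul_right ((Commute.refl _).pow_right 2)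
  have h2 : Commute (th β Y) (nu β Y ^ l * (Jc * th β Y)) :=
    (h1.pow_right l).mul_right ((Jc_comm _).symm.mul_right (Commute.refl _))
  have h3 := Tr_cyc β Y (nu β Y ^ l * (Jc * th β Y))
  rw [map_mul, map_mul, map_pow, invB_nu, invB_Jc, invB_th, mul_smul_comm, mul_smul_comm,
    smul_mul_assoc, Tr_smul, neg_one_smul, h2.eq, eq_neg_iff_add_eq_zero, ← two_smul ℝ, mul_assoc,
    mul_assoc, ← pow_two] at h3
  exact (smul_eq_zero.mp h3).resolve_left two_ne_zero

theorem wsum_succ {r : ℕ} (c : (Fin (r + 1) → J) → ℝ) :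
    wsum β c = ∑ a, io (β a) * wsum β fun w : Fin r → J => c (Fin.cons a w) := by
  unfold wsum
  rw [← (Fin.consEquiv fun _ => J).sum_comp, Fintype.sum_prod_type]
  simp only [Finset.mul_sum, mul_smul_comm, List.ofFn_succ, List.prod_cons]
  rfl

theorem Tr_th_pow (r : ℕ) : ∀ M : HM N, Tr ((1 ⊗ₜ M) * th β Y ^ r) =
    wsum β fun a : Fin r → J => 2 * (M * (List.ofFn fun i => Y (a i)).prod).trace.re := by
  induction r with
  | zero => intro M; simp [wsum, Tr_tmul]
  | succ r ih =>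
    intro M
    have e : (1 ⊗ₜ M) * th β Y = ∑ a, (io (β a) ⊗ₜ 1) * ((1 : Ext V) ⊗ₜ[ℝ] (M * Y a)) := by
      simp [th, Finset.mul_sum]
    rw [pow_succ', ← mul_assoc, e, Finset.sum_mul, Tr_sum, wsum_succ]
    refine Finset.sum_congr rfl fun a _ => ?_
    rw [mul_assoc, Tr_left, ih]
    simp only [List.ofFn_succ, List.prod_cons, Fin.cons_zero, Fin.cons_succ, mul_assoc]

theorem Tr_final (k : ℕ) : Tr (nu β Y ^ k * th β Y) = (2 : ℝ) •
    wsum β fun a : Fin (2 * k + 1) → J =>
      (Complex.I ^ k * (List.ofFn fun i => Y (a i)).prod.trace).re := by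
  rw [nu, (Jc_comm _).mul_pow, ← pow_mul, mul_assoc, ← pow_succ, Jc,
    Algebra.TensorProduct.tmul_pow, one_pow, Tr_th_pow, wsum, wsum, Finset.smul_sum]
  refine Finset.sum_congr rfl fun a _ => ?_
  rw [smul_pow, one_pow, smul_mul_assoc, one_mul, Matrix.trace_smul, smul_eq_mul, smul_smul]

/-! ### Integration by parts -/

/-- The shell carrying the cut-off functions. -/
def shell (N : ℕ) : Set (CV N) := {z | qf 1 z ∈ Set.Icc (1 : ℝ) 2}

theorem contDiff_q : ContDiff ℝ ∞ fun z : CV N => qf 1 z :=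
  contDiff_iff_contDiffAt.2 fun _ => contDiffAt_qf contDiffAt_const contDiffAt_id

theorem isCompact_shell : IsCompact (shell N) := by
  refine Metric.isCompact_of_isClosed_isBounded (isClosed_Icc.preimage contDiff_q.continuous) ?_
  rw [isBounded_iff_forall_norm_le]
  refine ⟨2, fun z hz => (pi_norm_le_iff_of_nonneg (by norm_num)).2 fun i => ?_⟩
  have h1 : (z i).re * (z i).re + (z i).im * (z i).im ≤ 2 := by
    refine le_trans ?_ hz.2
    rw [qf_one, rin_eq]
    exact Finset.single_le_sum (f := fun i => (z i).re * (z i).re + (z i).im * (z i).im)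
      (fun j _ => add_nonneg (mul_self_nonneg _) (mul_self_nonneg _)) (Finset.mem_univ i)
  rw [← Complex.normSq_apply, Complex.normSq_eq_norm_sq] at h1
  nlinarith [norm_nonneg (z i)]

theorem shell_ne_zero {z : CV N} (hz : z ∈ shell N) : z ≠ 0 := by
  rintro rfl
  have := hz.1
  simp [qf] at this
  linarith

theorem isCut_deriv {ψ : ℝ → ℝ} (h : IsCut ψ) : IsCut (deriv ψ) := by
  refine ⟨h.1.iterate_deriv 1, fun t ht => ?_⟩
  have : ψ =ᶠ[𝓝 t] fun _ => 0 := by
    filter_upwards [isClosed_Icc.isOpen_compl.mem_nhds ht] with s hs using h.2 s hs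
  rw [this.deriv_eq, deriv_const]

theorem isCut_iter {ψ : ℝ → ℝ} (h : IsCut ψ) (l : ℕ) : IsCut (deriv^[l] ψ) := by
  induction l with
  | zero => exact h
  | succ l ih => rw [Function.iterate_succ_apply']; exact isCut_deriv ih

theorem cut_supp {E : Type} [AddCommGroup E] [Module ℝ E] {ψ : ℝ → ℝ} (h : IsCut ψ)
    (G : CV N → E) : HasCompactSupport fun z => ψ (qf 1 z) • G z :=
  HasCompactSupport.intro isCompact_shell fun z hz => by rw [h.2 _ hz, zero_smul]

theorem cut_integrable {E : Type} [NormedAddCommGroup E] [NormedSpace ℝ E] {ψ : ℝ → ℝ}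
    (h : IsCut ψ) {G : CV N → E} (hG : Continuous G) : Integrable fun z => ψ (qf 1 z) • G z :=
  ((h.1.continuous.comp contDiff_q.continuous).smul hG).integrable_of_hasCompactSupport
    (cut_supp h G)

variable [FiniteDimensional ℝ V]

theorem fderiv_pow_even {X : Type} [NormedAddCommGroup X] [NormedSpace ℝ X] {w : X → Ext V} {x : X}
    (hw : DifferentiableAt ℝ w x) (hx : inv (w x) = w x) (v : X) (l : ℕ) :
    fderiv ℝ (fun y => w y ^ l) x v = (l : ℝ) • (w x ^ (l - 1) * fderiv ℝ w x v) := by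
  induction l with
  | zero => simp
  | succ l ih =>
    simp only [pow_succ, fderiv_fun_mul' (hw.fun_pow l) hw, add_apply, smul_apply, smul_eq_mul,
      MulOpposite.smul_eq_mul_unop, MulOpposite.unop_op, ih, Nat.add_sub_cancel]
    rcases l with _ | l
    · simp
    · rw [Nat.add_sub_cancel, smul_mul_assoc, ← even_comm hx, ← mul_assoc, ← pow_succ']
      push_cast
      module

theorem contDiff_Bq (b : BB V N) : ContDiff ℝ ∞ fun z : CV N => Bq b z z :=
  contDiff_iff_contDiffAt.2 fun _ => contDiffAt_bil (Bq b) contDiffAt_id contDiffAt_id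

theorem fderiv_Bq (b : BB V N) (z v : CV N) :
    fderiv ℝ (fun z : CV N => Bq b z z) z v = Bq b z v + Bq b v z := by
  let B : CV N →L[ℝ] CV N →L[ℝ] Ext V := LinearMap.toContinuousLinearMap
    ((LinearMap.toContinuousLinearMap (𝕜 := ℝ) (E := CV N) (F' := Ext V)).toLinearMap ∘ₗ Bq b)
  exact congrArg (fun T => T v)
    (B.hasFDerivAt_of_bilinear (hasFDerivAt_id z) (hasFDerivAt_id z)).fderiv

variable {Y}

theorem ibp (hY : ∀ a, (Y a)ᴴ = Y a) {ψ : ℝ → ℝ} (hψ : IsCut ψ) (b : BB V N) (l : ℕ) :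
    (2 : ℝ) • (∫ z, deriv ψ (qf 1 z) • (Bq b z z * Bq (nu β Y) z z ^ l)) +
      (Tr b * (∫ z, ψ (qf 1 z) • Bq (nu β Y) z z ^ l) + (2 * l : ℝ) •
        ∫ z, ψ (qf 1 z) • (Bq (nu β Y * b) z z * Bq (nu β Y) z z ^ (l - 1))) = 0 := by
  have hg := contDiff_Bq (nu β Y)
  have hl : ∀ u, ContDiff ℝ ∞ fun z => Bq b u z := fun u =>
    (LinearMap.toContinuousLinearMap (Bq b u)).contDiff
  have hw : ∀ i, ContDiff ℝ ∞ fun z => ψ (qf 1 z) • (Bq b (rb i) z * Bq (nu β Y) z z ^ l) :=
    fun i => (hψ.1.comp contDiff_q).smul ((hl _).mul (hg.pow l))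
  have h1 : ∀ i, ∫ z, fderiv ℝ
      (fun z => ψ (qf 1 z) • (Bq b (rb i) z * Bq (nu β Y) z z ^ l)) z (rb i) = 0 := fun i =>
    integral_fderiv_eq_zero volume ((hw i).of_le (by simp)) (cut_supp hψ _) (rb i)
  have h2 : ∀ i, Integrable fun z => fderiv ℝ
      (fun z => ψ (qf 1 z) • (Bq b (rb i) z * Bq (nu β Y) z z ^ l)) z (rb i) := fun i =>
    (((hw i).continuous_fderiv infty_ne_zero).clm_apply
      continuous_const).integrable_of_hasCompactSupport
      ((cut_supp hψ _).fderiv_apply (𝕜 := ℝ) (rb i))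
  have h3 := integral_finsetSum (μ := volume) Finset.univ fun i _ => h2 i
  simp only [h1, Finset.sum_const_zero] at h3
  have i1 := cut_integrable (isCut_deriv hψ) ((contDiff_Bq b).mul (hg.pow l)).continuous
  have i2 := cut_integrable hψ (hg.pow l).continuous
  have i3 := cut_integrable hψ ((contDiff_Bq (nu β Y * b)).mul (hg.pow (l - 1))).continuous
  have i2' : Integrable fun z => Tr b * (ψ (qf 1 z) • Bq (nu β Y) z z ^ l) := i2.const_mul _
  have i3' : Integrable fun z => (2 * l : ℝ) • ψ (qf 1 z) •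
      (Bq (nu β Y * b) z z * Bq (nu β Y) z z ^ (l - 1)) := i3.smul (2 * l : ℝ)
  have i1' : Integrable fun z => (2 : ℝ) • deriv ψ (qf 1 z) •
      (Bq b z z * Bq (nu β Y) z z ^ l) := i1.smul (2 : ℝ)
  rw [← h3, ← integral_smul, ← integral_smul,
    show Tr b * ∫ z, ψ (qf 1 z) • Bq (nu β Y) z z ^ l =
      ∫ z, Tr b * (ψ (qf 1 z) • Bq (nu β Y) z z ^ l) from
      integral_lin (LinearMap.mulLeft ℝ (Tr b)) i2,
    ← integral_add i2' i3', ← integral_add i1' (i2'.fun_add i3')]
  congr 1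
  funext z
  have hq := hasFDerivAt_comp_qf pd_one
    (hψ.1.differentiable infty_ne_zero (qf 1 z)).hasDerivAt
  have hgz := hg.differentiable infty_ne_zero z
  have hev : ∀ u v, inv (Bq (nu β Y) u v) = Bq (nu β Y) u v := fun u v => by rw [inv_Bq, invB_nu]
  have h4 : ∀ i, fderiv ℝ
      (fun z => ψ (qf 1 z) • (Bq b (rb i) z * Bq (nu β Y) z z ^ l)) z (rb i) =
      (2 * deriv ψ (qf 1 z)) • ((rin (rb i) z • Bq b (rb i) z) * Bq (nu β Y) z z ^ l) +
        (ψ (qf 1 z) • (Bq b (rb i) (rb i) * Bq (nu β Y) z z ^ l) + (2 * l * ψ (qf 1 z)) •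
          (Bq (nu β Y) z (rb i) * Bq b (rb i) z * Bq (nu β Y) z z ^ (l - 1))) := by
    intro i
    have hli := (hl (rb i)).differentiable infty_ne_zero z
    rw [fderiv_fun_smul hq.differentiableAt (hli.fun_mul (hgz.fun_pow l)), hq.fderiv,
      fderiv_fun_mul' hli (hgz.fun_pow l)]
    simp only [add_apply, smul_apply, smul_eq_mul, MulOpposite.smul_eq_mul_unop,
      MulOpposite.unop_op, ContinuousLinearMap.smulRight_apply, fderiv_pow_even hgz (hev z z),
      fderiv_Bq, Bq_nu_symm β hY (rb i) z]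
    rw [show fderiv ℝ (fun z => Bq b (rb i) z) z (rb i) = Bq b (rb i) (rb i) from
      congrArg (fun T => T (rb i)) (LinearMap.toContinuousLinearMap (Bq b (rb i))).fderiv,
      show LinearMap.toContinuousLinearMap (cv0 ((2 * deriv ψ (qf 1 z)) • (1 : HM N) *ᵥ z)) (rb i)
        = 2 * deriv ψ (qf 1 z) * rin (rb i) z by
          change rin _ _ = _
          rw [rin_smul_left, Matrix.one_mulVec, rin_comm],
      even_comm (hev z (rb i)), mul_assoc (Bq b (rb i) z), even_comm (hev z (rb i)), ← two_smul ℝ,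
      smul_mul_assoc]
    simp only [mul_smul_comm]
    module
  simp only [h4, Finset.sum_add_distrib, ← Finset.smul_sum, ← Finset.sum_mul, Bq_mul,
    smul_smul, mul_smul_comm]
  have h5 : ∑ i, rin (rb i) z • Bq b (rb i) z = Bq b z z := by
    conv_rhs => rw [← congrArg (fun u => Bq b u z) (sum_rb z)]
    simp only [map_sum, map_smul, LinearMap.sum_apply, LinearMap.smul_apply]
  rw [h5]
  rfl

theorem sphere (hY : ∀ a, (Y a)ᴴ = Y a) {ψ : ℝ → ℝ} (hψ : IsCut ψ) (l : ℕ) : ∀ b : BB V N,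
    ∫ z, deriv^[l + 1] ψ (qf 1 z) • (Bq b z z * Bq (nu β Y) z z ^ l) =
      ((-1) ^ (l + 1) * (l.factorial : ℝ) / 2 * ∫ z : CV N, ψ (qf 1 z)) • Tr (nu β Y ^ l * b) := by
  induction l with
  | zero =>
    intro b
    have h := ibp β hY hψ b 0
    simp only [pow_zero, Nat.cast_zero, mul_zero, zero_smul, add_zero, integral_smul_const,
      mul_smul_comm, mul_one] at h
    simp only [zero_add, Function.iterate_one, pow_zero, mul_one, one_mul]
    linear_combination (norm := module) (2⁻¹ : ℝ) • h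
  | succ l ih =>
    intro b
    have h := ibp β hY (isCut_iter hψ (l + 1)) b (l + 1)
    rw [Nat.add_sub_cancel, ih, ← mul_assoc, ← pow_succ] at h
    simp only [pow_succ' (Bq (nu β Y) _ _)] at h
    rw [ih, Tr_nu_pow, smul_zero, mul_zero, zero_add, ← Function.iterate_succ_apply' deriv] at h
    simp only [pow_succ' (Bq (nu β Y) _ _)]
    rw [Nat.factorial_succ]
    push_cast at h ⊢
    linear_combination (norm := module) (2⁻¹ : ℝ) • h

end BD

end Pool.Agent.Lib.MP_cdc9ab_al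
end

-- part Pool.Agent.Lib.MP_cdc9ab_al.BDer
section

open scoped Matrix.Norms.Operator ContDiff Matrix ENNReal
open Finset MeasureTheory

namespace Pool.Agent.Lib.MP_cdc9ab_al

namespace BD

variable {N : ℕ} {V : Type} [AddCommGroup V] [Module ℝ V] [FiniteDimensional ℝ V]
  {J : Type} [Fintype J] (β : J → V) (Y : J → HM N)

theorem meas_shell : MeasurableSet (shell N) := isCompact_shell.isClosed.measurableSet

theorem dd_integral {c : CV N → ℝ} (hc : Continuous c) {Ψ : HM N × CV N → Ext V}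
    (hΨ : ∀ p ∈ HP N ×ˢ {z : CV N | z ≠ 0}, ContDiffAt ℝ ∞ Ψ p) :
    dd β Y (fun H => ∫ z in shell N, c z • Ψ (H, z)) 1 =
      ∫ z in shell N, c z • dd β Y (fun H => Ψ (H, z)) 1 := by
  have := FiniteDimensional.complete ℝ (Ext V)
  have hc' : IntegrableOn c (shell N) := hc.continuousOn.integrableOn_compact isCompact_shell
  have hm : ∀ z ∈ shell N, ((1 : HM N), z) ∈ HP N ×ˢ {z : CV N | z ≠ 0} :=
    fun z hz => ⟨pd_one.2, shell_ne_zero hz⟩
  have hi : ∀ a, Integrable (fun z => c z • fderiv ℝ (fun H => Ψ (H, z)) 1 (Y a))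
      (volume.restrict (shell N)) := fun a =>
    param_integrable isCompact_shell meas_shell hc' fun z hz =>
      ((ContDiffAt.fderiv (f := fun z H => Ψ (H, z)) (g := fun _ => 1)
        ((hΨ _ (hm z hz)).comp (z, 1) (contDiffAt_snd.prodMk contDiffAt_fst)) contDiffAt_const
        infty_add_one_le).clm_apply contDiffAt_const).continuousAt.continuousWithinAt
  simp only [dd, Finset.smul_sum, ← mul_smul_comm]
  refine Eq.trans ?_ (integral_finsetSum _ fun a _ => (hi a).const_mul (io (β a))).symm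
  refine Finset.sum_congr rfl fun a _ => ?_
  rw [param_fderiv (ρ := fun z => z) isCompact_shell meas_shell continuousOn_id hc'
    (isOpen_HP.prod isOpen_ne) hΨ hm]
  exact integral_lin (LinearMap.mulLeft ℝ (io (β a))) (hi a)

variable {τ : FH N →ₗ[ℝ] ℝ} {pt : AA V N →ₗ[ℝ] Ext V}

theorem pt_dd (h : IsPt τ pt) {w : HM N → AA V N} (hw : DifferentiableAt ℝ w 1) :
    dd β Y (fun H => pt (w H)) 1 = -pt (dA β Y w) := by
  rw [dA_eq, map_sum, dd, ← Finset.sum_neg_distrib]
  refine Finset.sum_congr rfl fun a _ => ?_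
  rw [h.left, inv_io, neg_mul, neg_neg]
  exact congrArg _ (fderiv_lin pt hw _)

theorem contDiffAt_i2 {Z : Type} [NormedAddCommGroup Z] [NormedSpace ℝ Z] {w : Z → FH N} {x : Z}
    (hw : ContDiffAt ℝ ∞ w x) : ContDiffAt ℝ ∞ (fun y => (i2 (w y) : AA V N)) x :=
  contDiffAt_lin (B := AA V N) (i2 (V := V) (N := N)).toLinearMap hw

theorem contDiffAt_DZ {z : CV N} (hz : z ≠ 0) :
    ContDiffAt ℝ ∞ (fun z => dA β Y fun H => i2 (Zf H z)) z :=
  contDiffAt_dd _ Y (f := fun z H => i2 (Zf H z)) (g := fun _ => 1)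
    (contDiffAt_i2 (contDiffAt_Zf contDiffAt_snd contDiffAt_fst (pd_one.pos hz).ne'))
    contDiffAt_const

theorem mixR_int (h : IsPt τ pt) {c : CV N → ℝ} (hc : Continuous c) (p : ℕ) :
    ∀ C : CV N → AA V N, (∀ z, z ≠ 0 → ContDiffAt ℝ ∞ C z) → (∀ z, z ≠ 0 → inv (C z) = C z) →
      mixR β Y 1 p (fun H => ∫ z in shell N,
        c z • pt (C z * i2 ((List.ofFn fun i => Zf (H i) z).prod * da 1 z))) =
      ∫ z in shell N, c z •
        pt (C z * (-dA β Y fun H => i2 (Zf H z)) ^ p * i2 (Zf 1 z * da 1 z)) := by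
  induction p with
  | zero => intro C _ _; simp [mixR]
  | succ p ih =>
    intro C h1 h2
    have := ih (fun z => C z * -dA β Y fun H => i2 (Zf H z))
      (fun z hz => (h1 z hz).mul (contDiffAt_DZ β Y hz).neg) fun z hz => by
        rw [map_mul, map_neg, h2 z hz, inv_dA_odd β Y (diff_Zf hz) fun H => inv_Zf H z]
    simp only [pow_succ', ← mul_assoc (C _)]
    rw [← this, mixR_succ]
    refine mixR_congr β Y isOpen_HP pd_one.2 fun H hH => ?_
    simp only [stp, List.ofFn_succ (n := p + 1), List.prod_cons, Fin.cons_zero, Fin.cons_succ,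
      mul_assoc (Zf _ _), map_mul i2 (Zf _ _)]
    rw [dd_integral β Y hc (Ψ := fun q => pt (C q.2 * (i2 (Zf q.1 q.2) *
      i2 ((List.ofFn fun i => Zf (H i) q.2).prod * da 1 q.2))))]
    · refine setIntegral_congr_fun meas_shell fun z hz => ?_
      have hz := shell_ne_zero hz
      have hd := differentiableAt_i2 (V := V) (diff_Zf hz)
      simp only
      rw [pt_dd β Y h ((differentiableAt_const _).fun_mul (hd.fun_mul (differentiableAt_const _))),
        dA, dd_const_mul _ _ _ (hd.fun_mul (differentiableAt_const _)), dd_mul_const _ _ _ hd,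
        h2 z hz, mul_neg, neg_mul, map_neg, mul_assoc]
      rfl
    · rintro ⟨G, z⟩ ⟨hG, hz⟩
      refine contDiffAt_lin pt (((h1 z hz).comp (G, z) contDiffAt_snd).mul
        ((contDiffAt_i2 (contDiffAt_Zf contDiffAt_fst contDiffAt_snd (hG z hz).ne')).mul
          (contDiffAt_i2 ((contDiffAt_list_prod fun i => ?_).mul
            (contDiffAt_da contDiffAt_const contDiffAt_snd (pd_one.pos hz).ne')))))
      exact contDiffAt_Zf contDiffAt_const contDiffAt_snd (hH i z hz).ne'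

theorem int_shell {E : Type} [NormedAddCommGroup E] [NormedSpace ℝ E] {χ : ℝ → ℝ} (hχ : IsCut χ)
    (G : CV N → E) : ∫ z in shell N, χ (qf 1 z) • G z = ∫ z, χ (qf 1 z) • G z :=
  setIntegral_eq_integral_of_forall_compl_eq_zero fun z hz => by rw [hχ.2 _ hz, zero_smul]

theorem bor_eq (h : IsPt τ pt) {χ : ℝ → ℝ} (hχ : IsCut χ) {p : ℕ} (H : Fin p → HM N) :
    algebraMap ℝ (Ext V) (Bor τ χ H) = ∫ z in shell N,
      χ (qf 1 z) • pt (1 * i2 ((List.ofFn fun i => Zf (H i) z).prod * da 1 z)) := by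
  have := FiniteDimensional.complete ℝ (Ext V)
  rw [int_shell hχ]
  simp only [one_mul, h.right, Algebra.algebraMap_eq_smul_one, smul_smul, integral_smul_const]
  rfl

/-- The basic bump function. -/
noncomputable def bump (t : ℝ) : ℝ := expNegInvGlue (t - 1) * expNegInvGlue (2 - t)

theorem isCut_bump : IsCut bump := by
  refine ⟨(expNegInvGlue.contDiff.comp (contDiff_id.sub contDiff_const)).mul
    (expNegInvGlue.contDiff.comp (contDiff_const.sub contDiff_id)), fun t ht => ?_⟩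
  rw [Set.mem_Icc, not_and_or, not_le, not_le] at ht
  rcases ht with ht | ht
  · rw [bump, expNegInvGlue.zero_of_nonpos (by linarith), zero_mul]
  · rw [bump, expNegInvGlue.zero_of_nonpos (x := 2 - t) (by linarith), mul_zero]

theorem bump_pos (n : ℕ) : 0 < ∫ z : CV (n + 1), bump (qf 1 z) := by
  refine Continuous.integral_pos_of_hasCompactSupport_nonneg_nonzero
    (x := Pi.single 0 (6 / 5 : ℂ)) (isCut_bump.1.continuous.comp contDiff_q.continuous)
    (HasCompactSupport.intro isCompact_shell fun z hz => isCut_bump.2 _ hz)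
    (fun z => mul_nonneg (expNegInvGlue.nonneg _) (expNegInvGlue.nonneg _)) ?_
  have : qf 1 (Pi.single 0 (6 / 5 : ℂ) : CV (n + 1)) = 36 / 25 := by
    rw [qf_one, rin_eq, Fin.sum_univ_succ]
    simp
    norm_num
  rw [this]
  exact (mul_pos (expNegInvGlue.pos_of_pos (by norm_num))
    (expNegInvGlue.pos_of_pos (by norm_num))).ne'

end BD

open BD in
theorem bor_mixR (k m n : ℕ) (hk : 1 ≤ k) (hn : k + m = n) {τ : FH (n + 1) →ₗ[ℝ] ℝ}
    (hτ : TopLike τ) (hτ0 : τ ≠ 0) :
    ∃ χ : ℝ → ℝ, IsCut χ ∧ ∃ c : ℝ, c ≠ 0 ∧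
      ∀ {V I : Type} [AddCommGroup V] [Module ℝ V] [FiniteDimensional ℝ V] [Fintype I]
        (β : I → V) (Y : I → HM (n + 1)), (∀ a, (Y a)ᴴ = Y a) →
        mixR β Y 1 (2 * k + 1) (fun H => algebraMap ℝ _ (Bor τ χ H)) =
          c • wsum β fun a : Fin (2 * k + 1) → I =>
            (Complex.I ^ k * (List.ofFn fun i => Y (a i)).prod.trace).re := by
  have hψ := isCut_iter isCut_bump (k + 1)
  have hχ : IsCut fun t => t ^ (n + k + 2) * deriv^[k + 1] bump t :=
    ⟨(contDiff_id.pow _).mul hψ.1, fun t ht => by simp only [hψ.2 t ht, mul_zero]⟩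
  have h1 := cP_ne_zero hn (top_ne_zero hτ hτ0)
  have h2 := bump_pos n
  refine ⟨_, hχ, -cP k m n (τ (vp 1 ^ (n + 1) * io eps)) *
    ((-1) ^ (k + 1) * (k.factorial : ℝ) / 2 * ∫ z : CV (n + 1), bump (qf 1 z)) * 2, ?_, ?_⟩
  · have : (k.factorial : ℝ) ≠ 0 := by positivity
    simp [h1, h2.ne', this]
  intro V I _ _ _ _ β Y hY
  obtain ⟨pt, h⟩ := exists_pt (V := V) hτ
  simp only [bor_eq h hχ]
  rw [mixR_int β Y h (c := fun z => qf 1 z ^ (n + k + 2) * deriv^[k + 1] bump (qf 1 z))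
    (hχ.1.continuous.comp contDiff_q.continuous) _ (fun _ => 1)
    (fun _ _ => contDiffAt_const) (fun _ _ => map_one _), mul_smul, mul_smul, ← Tr_final,
    ← sphere β hY isCut_bump, ← int_shell hψ, ← integral_smul]
  refine setIntegral_congr_fun meas_shell fun z hz => ?_
  have hz := shell_ne_zero hz
  have h0 := (pd_one.pos hz).ne'
  simp only [one_mul]
  rw [Odd.neg_pow (odd_two_mul_add_one k), neg_mul, map_neg, pt_value β hn hY hτ h hz, Bq_th,
    Bq_nu, even_comm (x := gg β Y z ^ k) (by rw [map_pow, inv_gg]), ← neg_smul, smul_smul,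
    smul_smul]
  congr 1
  simp only [inv_pow]
  field_simp

end Pool.Agent.Lib.MP_cdc9ab_al
end
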