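import Pool.Agent.Lib.MP_cdc9ab_al.KeyDom
import Pool.Agent.Lib.MP_cdc9ab_al.Sqrt

-- part Pool.Agent.Lib.MP_cdc9ab_al.BBasic
section

open scoped Matrix.Norms.Operator ContDiff Matrix Topology
open Finset Filter Complex

namespace Pool.Agent.Lib.MP_cdc9ab_al

variable {N : ℕ}

theorem cv0_apply (u v : CV N) : cv0 u v = rin u v := rfl
theorem cv_apply (u : CV N) (x : WH N) : cv u x = rin u x.2 := rfl
theorem eps_apply (x : WH N) : eps x = x.1 := rfl

theorem rin_eq (u v : CV N) : rin u v = ∑ i, ((u i).re * (v i).re + (u i).im * (v i).im) := by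
  simp [rin, dotProduct]

theorem rin_comm (u v : CV N) : rin u v = rin v u := by
  simp only [rin_eq, mul_comm]

theorem rin_add_left (u u' v : CV N) : rin (u + u') v = rin u v + rin u' v := by simp [rin]
theorem rin_add_right (u v v' : CV N) : rin u (v + v') = rin u v + rin u v' := by simp [rin]
theorem rin_neg_left (u v : CV N) : rin (-u) v = -rin u v := by simp [rin]
theorem rin_neg_right (u v : CV N) : rin u (-v) = -rin u v := by simp [rin]
theorem rin_smul_left (c : ℝ) (u v : CV N) : rin (c • u) v = c * rin u v := by simp [rin]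
theorem rin_smul_right (c : ℝ) (u v : CV N) : rin u (c • v) = c * rin u v := by simp [rin]
@[simp] theorem rin_zero_left (v : CV N) : rin 0 v = 0 := by simp [rin]
@[simp] theorem rin_zero_right (v : CV N) : rin v 0 = 0 := by simp [rin]

theorem rin_I_left (u v : CV N) : rin (I • u) v = -rin u (I • v) := by
  simp only [rin_eq, ← Finset.sum_neg_distrib]
  exact Finset.sum_congr rfl fun i _ => by simp

theorem I_smul_I_smul (u : CV N) : I • I • u = -u := by
  rw [smul_smul, I_mul_I, neg_one_smul]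

theorem rin_I_I (u v : CV N) : rin (I • u) (I • v) = rin u v := by
  rw [rin_I_left, I_smul_I_smul, rin_neg_right, neg_neg]

theorem rin_mulVec (A : HM N) (u v : CV N) : rin (A *ᵥ u) v = rin u (Aᴴ *ᵥ v) := by
  rw [rin, rin, Matrix.star_mulVec, Matrix.dotProduct_mulVec]

theorem rin_self_pos {u : CV N} (hu : u ≠ 0) : 0 < rin u u := by
  rw [rin_eq]
  obtain ⟨i, hi⟩ := Function.ne_iff.mp hu
  refine Finset.sum_pos' (fun j _ => add_nonneg (mul_self_nonneg _) (mul_self_nonneg _))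
    ⟨i, Finset.mem_univ _, ?_⟩
  rw [← Complex.normSq_apply]
  exact Complex.normSq_pos.mpr hi

theorem sum_rb (v : CV N) : ∑ i, rin (rb i) v • rb i = v := by
  funext j
  rw [Finset.sum_apply, Fintype.sum_prod_type, Finset.sum_eq_single j]
  · apply Complex.ext <;> simp [rb, rin]
  · intro k _ hk
    simp [rb, hk.symm]
  · simp

/-- Moving an operator to the other side in a trace-like sum. -/
theorem sum_rb_adj {M : Type} [AddCommGroup M] [Module ℝ M] (Φ : CV N →ₗ[ℝ] CV N →ₗ[ℝ] M)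
    (A A' : CV N → CV N) (h : ∀ u v, rin (A u) v = rin u (A' v)) :
    ∑ i, Φ (A (rb i)) (rb i) = ∑ i, Φ (rb i) (A' (rb i)) := by
  have e1 : ∀ i, Φ (A (rb i)) (rb i) = ∑ j, rin (rb j) (A (rb i)) • Φ (rb j) (rb i) := by
    intro i
    conv_lhs => rw [← sum_rb (A (rb i))]
    simp [map_sum, LinearMap.sum_apply]
  have e2 : ∀ j, Φ (rb j) (A' (rb j)) = ∑ i, rin (rb i) (A' (rb j)) • Φ (rb j) (rb i) := by
    intro j
    conv_lhs => rw [← sum_rb (A' (rb j))]
    simp [map_sum]
  simp only [e1, e2]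
  rw [Finset.sum_comm]
  refine Finset.sum_congr rfl fun j _ => Finset.sum_congr rfl fun i _ => ?_
  rw [rin_comm, h]

theorem sum_cv_rb (v : CV N) : ∑ i, rin (rb i) v • cv (rb i) = cv v := by
  conv_rhs => rw [← sum_rb v]
  simp [map_sum]

/-- The one-form defined by a vector. -/
noncomputable def iocv : CV N →ₗ[ℝ] FH N := ExteriorAlgebra.ι ℝ ∘ₗ cv

theorem iocv_apply (u : CV N) : iocv u = io (cv u) := rfl
theorem iocv_smul (c : ℝ) (u : CV N) : io (cv (c • u)) = c • io (cv u) := iocv.map_smul c u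
theorem iocv_neg (u : CV N) : io (cv (-u)) = -io (cv u) := iocv.map_neg u
theorem iocv_add (u v : CV N) : io (cv (u + v)) = io (cv u) + io (cv v) := iocv.map_add u v
theorem iocv_sub (u v : CV N) : io (cv (u - v)) = io (cv u) - io (cv v) := iocv.map_sub u v

/-- The bilinear map `(u, v) ↦ cv u ∧ cv v`. -/
noncomputable def wedge : CV N →ₗ[ℝ] CV N →ₗ[ℝ] FH N :=
  (LinearMap.mul ℝ (FH N)).compl₁₂ iocv iocv

theorem wedge_apply (u v : CV N) : wedge u v = io (cv u) * io (cv v) := rfl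

/-- A self-adjoint operator gives the zero two-form. -/
theorem sum_wedge_symm (S : CV N →ₗ[ℝ] CV N) (h : ∀ u v, rin (S u) v = rin u (S v)) :
    ∑ i, io (cv (rb i)) * io (cv (S (rb i))) = 0 := by
  have h1 := sum_rb_adj wedge S S h
  simp only [wedge_apply] at h1
  have h2 : ∑ i, io (cv (rb i)) * io (cv (S (rb i))) =
      -∑ i, io (cv (rb i)) * io (cv (S (rb i))) := by
    conv_rhs => rw [← h1, ← Finset.sum_neg_distrib]
    exact Finset.sum_congr rfl fun i _ => io_swap _ _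
  rw [eq_neg_iff_add_eq_zero, ← two_smul ℝ] at h2
  exact (smul_eq_zero.mp h2).resolve_left two_ne_zero

/-! ### Quadratic forms -/

theorem qf_one (z : CV N) : qf 1 z = rin z z := by simp [qf]

theorem PD.pos {H : HM N} (hH : PD H) {z : CV N} (hz : z ≠ 0) : 0 < qf H z := hH.2 z hz

theorem PD.rin_symm {H : HM N} (hH : PD H) (u v : CV N) : rin (H *ᵥ u) v = rin u (H *ᵥ v) := by
  rw [rin_mulVec, hH.1]

theorem PD.rin_I {H : HM N} (hH : PD H) (z : CV N) : rin (I • H *ᵥ z) z = 0 := by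
  have h1 : rin (I • H *ᵥ z) z = -rin (I • H *ᵥ z) z := by
    conv_lhs => rw [rin_I_left, hH.rin_symm, Matrix.mulVec_smul, rin_comm]
  linarith

theorem pd_one : PD (1 : HM N) :=
  ⟨Matrix.conjTranspose_one, fun z hz => by rw [qf_one]; exact rin_self_pos hz⟩

theorem qf_conj (g H : HM N) (z : CV N) : qf (gᴴ * H * g) z = qf H (g *ᵥ z) := by
  rw [qf, qf, rin_mulVec, Matrix.mulVec_mulVec, Matrix.mulVec_mulVec]

theorem mulVec_ne_zero {g : HM N} (hg : IsUnit g) {z : CV N} (hz : z ≠ 0) : g *ᵥ z ≠ 0 :=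
  fun h0 => hz ((Matrix.mulVec_injective_iff_isUnit.mpr hg) (by rw [h0, Matrix.mulVec_zero]))

theorem PD.conj {H g : HM N} (hH : PD H) (hg : IsUnit g) : PD (gᴴ * H * g) :=
  ⟨by rw [Matrix.conjTranspose_mul, Matrix.conjTranspose_mul, hH.1,
      Matrix.conjTranspose_conjTranspose, mul_assoc],
    fun z hz => by rw [qf_conj]; exact hH.pos (mulVec_ne_zero hg hz)⟩

theorem qf_smul (H : HM N) (c : ℂ) (z : CV N) : qf H (c • z) = normSq c * qf H z := by
  rw [qf, qf, rin, rin, Matrix.mulVec_smul, star_smul, smul_dotProduct, dotProduct_smul,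
    smul_smul, star_def, ← normSq_eq_conj_mul_self, smul_eq_mul, re_ofReal_mul]

/-- Multiplication of a matrix and a vector as a real bilinear map. -/
noncomputable def mv : HM N →ₗ[ℝ] CV N →ₗ[ℝ] CV N :=
  LinearMap.mk₂ ℝ Matrix.mulVec Matrix.add_mulVec Matrix.smul_mulVec Matrix.mulVec_add
    (fun c A v => Matrix.mulVec_smul A c v)

theorem mv_apply (A : HM N) (v : CV N) : mv A v = A *ᵥ v := rfl

section smooth
variable {Z : Type} [NormedAddCommGroup Z] [NormedSpace ℝ Z] {n : WithTop ℕ∞} {x : Z}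

theorem contDiffAt_bil {A B C : Type} [NormedAddCommGroup A] [NormedSpace ℝ A]
    [FiniteDimensional ℝ A] [NormedAddCommGroup B] [NormedSpace ℝ B] [FiniteDimensional ℝ B]
    [NormedAddCommGroup C] [NormedSpace ℝ C] (T : A →ₗ[ℝ] B →ₗ[ℝ] C) {f : Z → A} {g : Z → B}
    (hf : ContDiffAt ℝ n f x) (hg : ContDiffAt ℝ n g x) :
    ContDiffAt ℝ n (fun y => T (f y) (g y)) x :=
  (contDiffAt_lin ((LinearMap.toContinuousLinearMap (𝕜 := ℝ) (E := B) (F' := C)).toLinearMap ∘ₗ T)
    hf).clm_apply hg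

variable {H : Z → HM N} {z : Z → CV N}

theorem contDiffAt_mulVec (hH : ContDiffAt ℝ n H x) (hz : ContDiffAt ℝ n z x) :
    ContDiffAt ℝ n (fun y => H y *ᵥ z y) x := contDiffAt_bil mv hH hz

theorem contDiffAt_qf (hH : ContDiffAt ℝ n H x) (hz : ContDiffAt ℝ n z x) :
    ContDiffAt ℝ n (fun y => qf (H y) (z y)) x :=
  contDiffAt_bil cv0 hz (contDiffAt_mulVec hH hz)

theorem contDiffAt_iocv (hz : ContDiffAt ℝ n z x) :
    ContDiffAt ℝ n (fun y => io (cv (z y))) x :=
  contDiffAt_lin iocv hz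

theorem contDiffAt_sg (hH : ContDiffAt ℝ n H x) (hz : ContDiffAt ℝ n z x)
    (h0 : qf (H x) (z x) ≠ 0) : ContDiffAt ℝ n (fun y => sg (H y) (z y)) x :=
  contDiffAt_iocv (((contDiffAt_qf hH hz).inv h0).smul ((contDiffAt_mulVec hH hz).const_smul I))

theorem contDiffAt_da (hH : ContDiffAt ℝ n H x) (hz : ContDiffAt ℝ n z x)
    (h0 : qf (H x) (z x) ≠ 0) : ContDiffAt ℝ n (fun y => da (H y) (z y)) x :=
  contDiffAt_iocv ((contDiffAt_const.mul ((contDiffAt_qf hH hz).inv h0)).smul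
    (contDiffAt_mulVec hH hz))

theorem contDiffAt_vp (hH : ContDiffAt ℝ n H x) : ContDiffAt ℝ n (fun y => vp (H y)) x :=
  ContDiffAt.sum fun _ _ => contDiffAt_const.mul
    (contDiffAt_iocv ((contDiffAt_mulVec hH contDiffAt_const).const_smul I))

theorem contDiffAt_om (hH : ContDiffAt ℝ n H x) (hz : ContDiffAt ℝ n z x)
    (h0 : qf (H x) (z x) ≠ 0) : ContDiffAt ℝ n (fun y => om (H y) (z y)) x :=
  (((contDiffAt_qf hH hz).inv h0).smul (contDiffAt_vp hH)).sub
    ((contDiffAt_da hH hz h0).mul (contDiffAt_sg hH hz h0))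

theorem contDiffAt_Xf (hH : ContDiffAt ℝ n H x) (hz : ContDiffAt ℝ n z x)
    (h0 : qf (H x) (z x) ≠ 0) : ContDiffAt ℝ n (fun y => Xf (H y) (z y)) x :=
  (((contDiffAt_qf hH hz).log h0).smul (contDiffAt_const (c := io eps))).add
    (contDiffAt_sg hH hz h0)

theorem contDiffAt_geo {w : Z → FH N} (hw : ContDiffAt ℝ n w x) :
    ContDiffAt ℝ n (fun y => geo (w y)) x := ContDiffAt.sum fun j _ => hw.pow j

theorem contDiffAt_Zf (hH : ContDiffAt ℝ n H x) (hz : ContDiffAt ℝ n z x)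
    (h0 : qf (H x) (z x) ≠ 0) : ContDiffAt ℝ n (fun y => Zf (H y) (z y)) x :=
  (contDiffAt_Xf hH hz h0).mul (contDiffAt_geo (contDiffAt_om hH hz h0))

theorem contDiffAt_bF (τ : FH N →ₗ[ℝ] ℝ) {p : ℕ} {G : Z → Fin p → HM N}
    (hG : ∀ i, ContDiffAt ℝ n (fun y => G y i) x) (hz : ContDiffAt ℝ n z x)
    (h0 : ∀ i, qf (G x i) (z x) ≠ 0) (h1 : z x ≠ 0) :
    ContDiffAt ℝ n (fun y => bF τ (G y) (z y)) x :=
  contDiffAt_lin τ ((contDiffAt_list_prod fun i => contDiffAt_Zf (hG i) hz (h0 i)).mul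
    (contDiffAt_da contDiffAt_const hz (pd_one.pos h1).ne'))

end smooth

theorem isOpen_HP : IsOpen (HP N) := by
  have hK : IsCompact (Metric.sphere (0 : CV N) 1) := isCompact_sphere _ _
  have hc : Continuous fun p : HM N × CV N => qf p.1 p.2 := continuous_iff_continuousAt.mpr
    fun p => (contDiffAt_qf (n := 0) contDiffAt_fst contDiffAt_snd).continuousAt
  rw [isOpen_iff_mem_nhds]
  intro h hh
  have := hK.eventually_forall_of_forall_eventually (x₀ := h)
    (P := fun k v => 0 < qf k v) (fun v hv => by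
      have hv0 : v ≠ 0 := by
        rintro rfl
        simp at hv
      exact hc.continuousAt.eventually (lt_mem_nhds (hh v hv0)))
  filter_upwards [this] with k hk v hv
  have hn : ‖v‖ ≠ 0 := norm_ne_zero_iff.mpr hv
  have h1 := hk (((‖v‖⁻¹ : ℝ) : ℂ) • v) (by simp [norm_smul, hn])
  rw [qf_smul] at h1
  exact (mul_pos_iff_of_pos_left (normSq_pos.mpr (by simpa using hv))).mp h1

/-! ### Degrees -/

theorem sg_deg (H : HM N) (z : CV N) : sg H z ∈ Deg _ 1 := io_mem_deg _
theorem da_deg (H : HM N) (z : CV N) : da H z ∈ Deg _ 1 := io_mem_deg _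
theorem vp_deg (H : HM N) : vp H ∈ Deg _ 2 :=
  Submodule.sum_mem _ fun _ _ => mul_mem_deg (io_mem_deg _) (io_mem_deg _)
theorem om_deg (H : HM N) (z : CV N) : om H z ∈ Deg _ 2 :=
  sub_mem (Submodule.smul_mem _ _ (vp_deg H)) (mul_mem_deg (da_deg H z) (sg_deg H z))
theorem Xf_deg (H : HM N) (z : CV N) : Xf H z ∈ Deg _ 1 :=
  add_mem (Submodule.smul_mem _ _ (io_mem_deg _)) (sg_deg H z)

theorem inv_sg (H : HM N) (z : CV N) : inv (sg H z) = -sg H z := inv_io _
theorem inv_da (H : HM N) (z : CV N) : inv (da H z) = -da H z := inv_io _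
theorem inv_vp (H : HM N) : inv (vp H) = vp H := by rw [inv_of_deg (vp_deg H)]; simp
theorem inv_om (H : HM N) (z : CV N) : inv (om H z) = om H z := by
  rw [inv_of_deg (om_deg H z)]; simp
theorem inv_Xf (H : HM N) (z : CV N) : inv (Xf H z) = -Xf H z := by
  rw [inv_of_deg (Xf_deg H z)]; simp
theorem map_geo (f : FH N →ₐ[ℝ] FH N) (x : FH N) : f (geo x) = geo (f x) := by
  simp [geo, map_sum]
theorem inv_geo_om (H : HM N) (z : CV N) : inv (geo (om H z)) = geo (om H z) := by
  simp [geo, map_sum, inv_om]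
theorem inv_Zf (H : HM N) (z : CV N) : inv (Zf H z) = -Zf H z := by
  rw [Zf, map_mul, inv_Xf, inv_geo_om, neg_mul]

theorem finrank_WH : Module.finrank ℝ (WH N) = 2 * N + 1 := by
  rw [Module.finrank_prod, Module.finrank_self, Module.finrank_pi_fintype]
  simp [Complex.finrank_real_complex]; ring

theorem geo_mul {x : FH N} (hx : x ∈ Deg _ 2) : geo x * (1 - x) = 1 := by
  rw [geo, geom_sum_mul_neg, deg_eq_zero _ (pow_mem_deg hx (N + 1)), sub_zero]
  rw [Subspace.dual_finrank_eq, finrank_WH]; omega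

theorem ctr_pow_eq_zero {V : Type} [AddCommGroup V] [Module ℝ V] (φ : Module.Dual ℝ V)
    {x : Ext V} (hx : ctr φ x = 0) (j : ℕ) : ctr φ (x ^ j) = 0 := by
  induction j with
  | zero => simp
  | succ j ih => rw [pow_succ, ctr_mul, ih, hx]; simp

theorem iv_geo (v : WH N) {x : FH N} (hx : iv v x = 0) : iv v (geo x) = 0 := by
  rw [geo, map_sum]
  exact Finset.sum_eq_zero fun j _ => ctr_pow_eq_zero _ hx j

/-! ### Contractions -/

theorem iv_iocv (v : WH N) (u : CV N) : iv v (io (cv u)) = algebraMap ℝ _ (rin u v.2) :=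
  iv_io _ _

theorem iv_eps (v : WH N) : iv v (io eps) = algebraMap ℝ _ v.1 := iv_io _ _

variable {H : HM N} {z : CV N}

theorem iv_vp (hH : PD H) (v : WH N) : iv v (vp H) = (2 : ℝ) • io (cv (I • H *ᵥ v.2)) := by
  rw [vp, map_sum]
  simp only [iv_io_mul, iv_iocv, cv_apply, Finset.sum_sub_distrib]
  have e1 : ∑ i, rin (rb i) v.2 • io (cv (I • H *ᵥ rb i)) = io (cv (I • H *ᵥ v.2)) := by
    conv_rhs => rw [← sum_rb v.2, Matrix.mulVec_sum, Finset.smul_sum, map_sum, io_sum]
    refine Finset.sum_congr rfl fun i _ => ?_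
    rw [Matrix.mulVec_smul, smul_comm I, iocv_smul]
  have e2 : ∑ i, io (cv (rb i)) * algebraMap ℝ (FH N) (rin (I • H *ᵥ rb i) v.2) =
      -io (cv (I • H *ᵥ v.2)) := by
    rw [← sum_cv_rb (I • H *ᵥ v.2), io_sum, ← Finset.sum_neg_distrib]
    refine Finset.sum_congr rfl fun i _ => ?_
    rw [← Algebra.commutes, ← Algebra.smul_def, io_smul, rin_I_left, hH.rin_symm,
      Matrix.mulVec_smul, neg_smul]
  rw [e1, e2, two_smul, sub_neg_eq_add]

theorem iv_sg (v : WH N) :
    iv v (sg H z) = algebraMap ℝ _ ((qf H z)⁻¹ * rin (I • H *ᵥ z) v.2) := by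
  rw [sg, iv_iocv, rin_smul_left]

theorem iv_da (v : WH N) :
    iv v (da H z) = algebraMap ℝ _ (2 * (qf H z)⁻¹ * rin (H *ᵥ z) v.2) := by
  rw [da, iv_iocv, rin_smul_left]

theorem iv_z_sg (hH : PD H) (t : ℝ) : iv (t, z) (sg H z) = 0 := by
  rw [iv_sg, hH.rin_I]; simp

theorem iv_iz_sg (hH : PD H) (hz : z ≠ 0) (t : ℝ) : iv (t, I • z) (sg H z) = 1 := by
  rw [iv_sg, rin_I_I, rin_comm, ← qf, inv_mul_cancel₀ (hH.pos hz).ne', map_one]

theorem iv_z_da (hH : PD H) (hz : z ≠ 0) (t : ℝ) :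
    iv (t, z) (da H z) = algebraMap ℝ _ 2 := by
  rw [iv_da, rin_comm, ← qf, mul_assoc, inv_mul_cancel₀ (hH.pos hz).ne', mul_one]

theorem iv_iz_da (hH : PD H) (t : ℝ) : iv (t, I • z) (da H z) = 0 := by
  have := hH.rin_I z
  rw [rin_I_left, neg_eq_zero] at this
  rw [iv_da, this]; simp

theorem iv_z_om (hH : PD H) (hz : z ≠ 0) (t : ℝ) : iv (t, z) (om H z) = 0 := by
  rw [om, map_sub, map_smul, iv_vp hH, ctr_mul, iv_z_da hH hz, iv_z_sg hH, mul_zero, add_zero,
    ← Algebra.smul_def, sg, iocv_smul, smul_comm, sub_self]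

theorem iv_iz_om (hH : PD H) (hz : z ≠ 0) (t : ℝ) : iv (t, I • z) (om H z) = 0 := by
  rw [om, map_sub, map_smul, iv_vp hH, ctr_mul, iv_iz_da hH, iv_iz_sg hH hz, zero_mul, zero_add,
    mul_one, inv_da, da, iocv_smul, Matrix.mulVec_smul, I_smul_I_smul, iocv_neg,
    smul_smul, mul_comm, smul_neg, sub_self]

theorem iv_e_sg (t : ℝ) : iv (t, 0) (sg H z) = 0 := by rw [iv_sg]; simp
theorem iv_e_da (t : ℝ) : iv (t, 0) (da H z) = 0 := by rw [iv_da]; simp
theorem iv_e_vp (hH : PD H) (t : ℝ) : iv (t, 0) (vp H) = 0 := by rw [iv_vp hH]; simp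
theorem iv_e_om (hH : PD H) (t : ℝ) : iv (t, 0) (om H z) = 0 := by
  rw [om, map_sub, map_smul, iv_e_vp hH, ctr_mul, iv_e_sg, iv_e_da]; simp

/-! ### Differentials -/

theorem hasFDerivAt_qf (hH : PD H) (z : CV N) :
    HasFDerivAt (qf H) (LinearMap.toContinuousLinearMap (cv0 ((2 : ℝ) • H *ᵥ z))) z := by
  let B : CV N →L[ℝ] CV N →L[ℝ] ℝ := LinearMap.toContinuousLinearMap
    ((LinearMap.toContinuousLinearMap (𝕜 := ℝ) (E := CV N) (F' := ℝ)).toLinearMap ∘ₗ cv0)
  have h := B.hasFDerivAt_of_bilinear (hasFDerivAt_id z)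
    (LinearMap.toContinuousLinearMap (mv H)).hasFDerivAt
  refine h.congr_fderiv (ContinuousLinearMap.ext fun v => Eq.symm ?_)
  change rin ((2 : ℝ) • H *ᵥ z) v = rin z (H *ᵥ v) + rin v (H *ᵥ z)
  rw [rin_smul_left, hH.rin_symm, rin_comm v, hH.rin_symm]; ring

theorem sum_fderiv_cv {f : CV N → ℝ} {u : CV N}
    (hf : HasFDerivAt f (LinearMap.toContinuousLinearMap (cv0 u)) z) :
    ∑ i, fderiv ℝ f z (rb i) • cv (rb i) = cv u := by
  rw [hf.fderiv, ← sum_cv_rb u]
  exact Finset.sum_congr rfl fun i _ => by rw [rin_comm]; rfl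

theorem hasFDerivAt_comp_qf (hH : PD H) {g : ℝ → ℝ} {g' : ℝ} (hg : HasDerivAt g g' (qf H z)) :
    HasFDerivAt (fun y => g (qf H y))
      (LinearMap.toContinuousLinearMap (cv0 ((2 * g') • H *ᵥ z))) z := by
  refine (hg.comp_hasFDerivAt z (hasFDerivAt_qf hH z)).congr_fderiv
    (ContinuousLinearMap.ext fun v => Eq.symm ?_)
  change rin _ v = g' * rin _ v
  rw [rin_smul_left, rin_smul_left]; ring

/-- `d (g (q) w) = g' (q) dq w + g (q) dw`. -/
theorem dW_comp_smul (hH : PD H) {g : ℝ → ℝ} {g' : ℝ} (hg : HasDerivAt g g' (qf H z))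
    {w : CV N → FH N} (hw : DifferentiableAt ℝ w z) :
    dW (fun y => g (qf H y) • w y) z =
      io (cv ((2 * g') • H *ᵥ z)) * w z + g (qf H z) • dW w z := by
  have h := hasFDerivAt_comp_qf hH hg
  rw [dW, dd_fun_smul _ _ h.differentiableAt hw, sum_fderiv_cv h]; rfl

theorem dW_log_smul (hH : PD H) (hz : z ≠ 0) {w : CV N → FH N} (hw : DifferentiableAt ℝ w z) :
    dW (fun y => Real.log (qf H y) • w y) z = da H z * w z + Real.log (qf H z) • dW w z :=
  dW_comp_smul hH (Real.hasDerivAt_log (hH.pos hz).ne') hw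

theorem dW_iocv (S : CV N →ₗ[ℝ] CV N) (z : CV N) :
    dW (fun y => io (cv (S y))) z = ∑ i, io (cv (rb i)) * io (cv (S (rb i))) := by
  refine Finset.sum_congr rfl fun i _ => ?_
  have := fderiv_lin (iocv ∘ₗ S) (w := id) (x := z) differentiableAt_id (rb i)
  rw [fderiv_id] at this
  exact congrArg _ this

theorem differentiableAt_iocv (S : CV N →ₗ[ℝ] CV N) (z : CV N) :
    DifferentiableAt ℝ (fun y => io (cv (S y))) z :=
  differentiableAt_lin (iocv ∘ₗ S) differentiableAt_id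

theorem dW_sg (hH : PD H) (hz : z ≠ 0) : dW (sg H) z = om H z := by
  have h0 := (hH.pos hz).ne'
  let S : CV N →ₗ[ℝ] CV N := (LinearMap.lsmul ℂ (CV N) I).restrictScalars ℝ ∘ₗ mv H
  have e : sg H = fun y => (qf H y)⁻¹ • io (cv (S y)) := by
    funext y; rw [sg, iocv_smul]; rfl
  rw [e, dW_comp_smul hH (hasDerivAt_inv h0) (differentiableAt_iocv S z), dW_iocv, om, da, sg]
  simp only [iocv_smul, smul_mul_assoc, mul_smul_comm, smul_smul]
  rw [sub_eq_add_neg, add_comm, ← neg_smul]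
  congr 2
  field_simp

theorem dW_da (hH : PD H) (hz : z ≠ 0) : dW (da H) z = 0 := by
  have h0 := (hH.pos hz).ne'
  have e : da H = fun y => (2 * (qf H y)⁻¹) • io (cv (mv H y)) := by
    funext y; rw [da, iocv_smul]; rfl
  rw [e, dW_comp_smul hH ((hasDerivAt_inv h0).const_mul 2) (differentiableAt_iocv _ z), dW_iocv,
    sum_wedge_symm _ hH.rin_symm, iocv_smul, smul_mul_assoc, mv_apply, io_mul_io]
  simp

theorem dW_om (hH : PD H) (hz : z ≠ 0) : dW (om H) z = 0 := by
  have : om H =ᶠ[𝓝 z] dW (sg H) := by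
    filter_upwards [isOpen_ne.mem_nhds hz] with y hy using (dW_sg hH hy).symm
  rw [dW, dd_congr _ _ this]
  exact dd_dd _ _ (contDiffAt_sg contDiffAt_const contDiffAt_id (hH.pos hz).ne')

theorem dd_pow_closed {V X J : Type} [AddCommGroup V] [Module ℝ V] [FiniteDimensional ℝ V]
    [NormedAddCommGroup X] [NormedSpace ℝ X] [Fintype J] (β : J → V) (b : J → X)
    {w : X → Ext V} {x : X} (hw : DifferentiableAt ℝ w x) (h : dd β b w x = 0) (j : ℕ) :
    dd β b (fun y => w y ^ j) x = 0 := by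
  induction j with
  | zero => simp
  | succ j ih =>
    simp only [pow_succ]
    rw [dd_mul β b (hw.fun_pow j) hw, ih, h]; simp

theorem differentiableAt_om (hH : PD H) (hz : z ≠ 0) : DifferentiableAt ℝ (om H) z :=
  (contDiffAt_om (n := 1) contDiffAt_const contDiffAt_id (hH.pos hz).ne').differentiableAt
    one_ne_zero

theorem dW_geo_om (hH : PD H) (hz : z ≠ 0) : dW (fun y => geo (om H y)) z = 0 := by
  simp only [geo]
  rw [dW, dd_sum _ _ _ fun j _ => (differentiableAt_om hH hz).fun_pow j]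
  exact Finset.sum_eq_zero fun j _ =>
    dd_pow_closed _ _ (differentiableAt_om hH hz) (dW_om hH hz) j

/-! ### Complex linear maps -/

/-- The action of a matrix on `WH N`. -/
noncomputable def lift (g : HM N) : WH N →ₗ[ℝ] WH N := LinearMap.prodMap LinearMap.id (mv g)

theorem pull_lift_iocv (g : HM N) (u : CV N) :
    pull (lift g) (io (cv u)) = io (cv (gᴴ *ᵥ u)) := by
  rw [pull_io]
  congr 1
  refine LinearMap.ext fun x => ?_
  change rin u (g *ᵥ x.2) = rin (gᴴ *ᵥ u) x.2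
  rw [rin_mulVec, Matrix.conjTranspose_conjTranspose]

theorem pull_lift_eps (g : HM N) : pull (lift g) (io eps) = io eps := by
  rw [pull_io]; rfl

theorem pull_lift_sg (g H : HM N) (z : CV N) :
    pull (lift g) (sg H (g *ᵥ z)) = sg (gᴴ * H * g) z := by
  rw [sg, sg, pull_lift_iocv, qf_conj, Matrix.mulVec_smul, Matrix.mulVec_smul,
    Matrix.mulVec_mulVec, Matrix.mulVec_mulVec]

theorem pull_lift_da (g H : HM N) (z : CV N) :
    pull (lift g) (da H (g *ᵥ z)) = da (gᴴ * H * g) z := by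
  rw [da, da, pull_lift_iocv, qf_conj, Matrix.mulVec_smul, Matrix.mulVec_mulVec,
    Matrix.mulVec_mulVec]

theorem pull_lift_vp (g H : HM N) : pull (lift g) (vp H) = vp (gᴴ * H * g) := by
  let S : CV N →ₗ[ℝ] CV N := (LinearMap.lsmul ℂ (CV N) I).restrictScalars ℝ ∘ₗ mv (gᴴ * H)
  have h := sum_rb_adj (wedge.compl₂ S) (fun u => gᴴ *ᵥ u) (fun u => g *ᵥ u) fun u v => by
    rw [rin_mulVec, Matrix.conjTranspose_conjTranspose]
  rw [vp, vp, map_sum]
  simp only [map_mul, pull_lift_iocv, Matrix.mulVec_smul, Matrix.mulVec_mulVec]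
  simp only [← Matrix.mulVec_mulVec _ _ g]
  exact h

theorem pull_lift_om (g H : HM N) (z : CV N) :
    pull (lift g) (om H (g *ᵥ z)) = om (gᴴ * H * g) z := by
  rw [om, om, map_sub, map_smul, map_mul, pull_lift_vp, pull_lift_da, pull_lift_sg, qf_conj]

theorem pull_lift_Zf (g H : HM N) (z : CV N) :
    pull (lift g) (Zf H (g *ᵥ z)) = Zf (gᴴ * H * g) z := by
  rw [Zf, Zf, Xf, Xf, map_mul, map_add, map_smul, pull_lift_eps, pull_lift_sg, qf_conj,
    map_geo, pull_lift_om]

theorem det_mv (g : HM N) : LinearMap.det (mv g) = normSq g.det := by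
  have : mv g = (Matrix.toLin' g).restrictScalars ℝ := by
    refine LinearMap.ext fun v => ?_
    simp [mv_apply]
  rw [this, LinearMap.det_restrictScalars, LinearMap.det_toLin', Algebra.norm_complex_apply]

theorem det_lift (g : HM N) : LinearMap.det (lift g) = normSq g.det := by
  rw [lift, LinearMap.det_prodMap, LinearMap.det_id, one_mul, det_mv]

/-- The complex structure. -/
noncomputable def JW : WH N →ₗ[ℝ] WH N :=
  LinearMap.prodMap 0 ((LinearMap.lsmul ℂ (CV N) I).restrictScalars ℝ)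

theorem dEnd_iocv (u : CV N) : dEnd JW (io (cv u)) = -io (cv (I • u)) := by
  rw [dEnd_io, ← io_neg]
  congr 1
  refine LinearMap.ext fun x => ?_
  change rin u (I • x.2) = -rin (I • u) x.2
  rw [rin_I_left, neg_neg]

theorem dEnd_eps : dEnd JW (io (eps (N := N))) = 0 := by
  rw [dEnd_io, ← io_zero]
  congr 1

theorem dEnd_sg (H : HM N) (z : CV N) : dEnd JW (sg H z) = (2 : ℝ)⁻¹ • da H z := by
  rw [sg, da, dEnd_iocv, smul_comm, I_smul_I_smul, smul_neg, iocv_neg, neg_neg, iocv_smul,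
    iocv_smul, smul_smul]
  congr 1; ring

theorem dEnd_da (H : HM N) (z : CV N) : dEnd JW (da H z) = (-2 : ℝ) • sg H z := by
  rw [sg, da, dEnd_iocv, smul_comm, iocv_smul, iocv_smul, smul_smul, ← neg_smul]
  congr 1; ring

theorem dEnd_vp (hH : PD H) : dEnd JW (vp H) = 0 := by
  let S : CV N →ₗ[ℝ] CV N := (LinearMap.lsmul ℂ (CV N) I).restrictScalars ℝ ∘ₗ mv H
  have h := sum_rb_adj (wedge.compl₂ S) (fun u => I • u) (fun u => -(I • u)) fun u v => by
    rw [rin_I_left, rin_neg_right]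
  rw [vp, map_sum]
  simp only [dEnd_mul, dEnd_iocv, I_smul_I_smul, map_neg, neg_neg, Finset.sum_add_distrib,
    neg_mul, Finset.sum_neg_distrib]
  have h3 : ∑ i, io (cv (I • rb i)) * io (cv (I • H *ᵥ rb i)) =
      ∑ i, io (cv (rb i)) * io (cv (H *ᵥ rb i)) := by
    refine h.trans (Finset.sum_congr rfl fun i _ => ?_)
    change io (cv (rb i)) * io (cv (I • H *ᵥ (-(I • rb i)))) = _
    rw [Matrix.mulVec_neg, Matrix.mulVec_smul, smul_neg, I_smul_I_smul, neg_neg]
  rw [h3, neg_add_cancel]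

theorem dEnd_om (hH : PD H) (z : CV N) : dEnd JW (om H z) = 0 := by
  rw [om, map_sub, map_smul, dEnd_vp hH, dEnd_mul, dEnd_sg, dEnd_da, smul_mul_assoc,
    mul_smul_comm, odd_sq (inv_sg H z), odd_sq (inv_da H z)]
  simp

theorem dEnd_geo {x : FH N} (hx : dEnd JW x = 0) : dEnd JW (geo x) = 0 := by
  rw [geo, map_sum]
  refine Finset.sum_eq_zero fun j _ => ?_
  induction j with
  | zero => rw [pow_zero, dEnd_one]
  | succ j ih => rw [pow_succ, dEnd_mul, hx, ih (by simp at *; omega)]; simp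

theorem trace_JW : LinearMap.trace ℝ _ (JW (N := N)) = 0 := by
  let c : WH N →ₗ[ℝ] WH N := LinearMap.prodMap LinearMap.id
    (LinearMap.pi fun i => Complex.conjAe.toLinearMap ∘ₗ LinearMap.proj i)
  have hc : c * c = 1 := by
    refine LinearMap.ext fun x => Prod.ext rfl (funext fun i => ?_)
    simp [c]
  have h2 : c * JW * c = -JW := by
    refine LinearMap.ext fun x => Prod.ext (by simp [JW, c]) (funext fun i => ?_)
    simp [c, JW]
  have h3 := congrArg (LinearMap.trace ℝ _) h2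
  rw [LinearMap.trace_mul_comm, ← mul_assoc, hc, one_mul, map_neg] at h3
  linarith

end Pool.Agent.Lib.MP_cdc9ab_al
end

-- part Pool.Agent.Lib.MP_cdc9ab_al.BChart
section

/-! Reduction of top degree functionals to the affine chart. -/

open scoped Matrix.Norms.Operator ContDiff Matrix Topology
open Finset Filter Complex

namespace Pool.Agent.Lib.MP_cdc9ab_al.Bnd

section kills
variable {X : Type} [AddCommGroup X] [Module ℝ X]

/-- The functional kills the contractions with `v`. -/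
def Kills (τ : Ext (Module.Dual ℝ X) →ₗ[ℝ] ℝ) (v : X) : Prop := ∀ x, τ (iv v x) = 0

theorem Kills.io_mul_iv {τ : Ext (Module.Dual ℝ X) →ₗ[ℝ] ℝ} {v : X} (h : Kills τ v)
    (φ : Module.Dual ℝ X) (x : Ext (Module.Dual ℝ X)) : τ (io φ * iv v x) = φ v * τ x := by
  have := h (io φ * x)
  rw [iv_io_mul, map_sub, map_smul, smul_eq_mul] at this
  linarith

theorem Kills.mul {τ : Ext (Module.Dual ℝ X) →ₗ[ℝ] ℝ} {v : X} (h : Kills τ v)
    {φ : Module.Dual ℝ X} (hφ : φ v = 0) : Kills (τ ∘ₗ LinearMap.mulLeft ℝ (io φ)) v := fun x => by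
  have := h.io_mul_iv φ x
  rwa [hφ, zero_mul] at this

theorem Kills.eq {τ : Ext (Module.Dual ℝ X) →ₗ[ℝ] ℝ} {v : X} (h : Kills τ v)
    {φ : Module.Dual ℝ X} (hφ : φ v = 1) (x : Ext (Module.Dual ℝ X)) :
    τ x = (τ ∘ₗ LinearMap.mulLeft ℝ (io φ)) (iv v x) := by
  have := h.io_mul_iv φ x
  rw [hφ, one_mul] at this
  exact this.symm

theorem iv_three (a b c : X) (x : Ext (Module.Dual ℝ X)) :
    iv c (iv b (iv a (iv a x))) = 0 ∧ iv c (iv b (iv a (iv b x))) = 0 ∧
      iv c (iv b (iv a (iv c x))) = 0 ∧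
        ∀ d, iv c (iv b (iv a (iv d x))) = -iv d (iv c (iv b (iv a x))) := by
  have h1 : ∀ (u v : X) y, iv u (iv v y) = -iv v (iv u y) := fun u v y => ctr_comm _ _ _
  have h2 : ∀ (u : X) y, iv u (iv u y) = 0 := fun u y => ctr_ctr _ _
  refine ⟨by rw [h2, map_zero, map_zero], by rw [h1 a b, map_neg, h2, neg_zero, map_zero],
    by rw [h1 a c, map_neg, h1 b c, neg_neg, h2], fun d => ?_⟩
  rw [h1 a d, map_neg, h1 b d, neg_neg, h1 c d]

end kills

variable {n : ℕ}

/-- The projection onto the chart directions. -/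
noncomputable def prj (n : ℕ) : WH (n + 1) →ₗ[ℝ] CV n where
  toFun x := Fin.tail x.2
  map_add' _ _ := rfl
  map_smul' _ _ := rfl

theorem prj_inc (v : CV n) : prj n (inc n v) = v := by
  funext i
  simp [prj, inc, Fin.tail]

/-- The first basis vector. -/
noncomputable def e0 (n : ℕ) : CV (n + 1) := Fin.cons 1 0

theorem rin_e0 (v : CV (n + 1)) : rin (e0 n) v = (v 0).re := by
  simp [rin_eq, Fin.sum_univ_succ, e0]

theorem rin_I_e0 (v : CV (n + 1)) : rin (I • e0 n) v = (v 0).im := by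
  simp [rin_eq, Fin.sum_univ_succ, e0]

theorem wh_decomp (v : WH (n + 1)) : v = v.1 • ((1, 0) : WH (n + 1)) +
    (v.2 0).re • ((0, e0 n) : WH (n + 1)) + (v.2 0).im • ((0, I • e0 n) : WH (n + 1)) +
      inc n (prj n v) := by
  refine Prod.ext (by simp [inc]) (funext fun i => ?_)
  refine Fin.cases ?_ (fun j => ?_) i
  · apply Complex.ext <;> simp [inc, e0]
  · simp [inc, prj, e0, Fin.tail]

theorem cons_eq (w : CV n) : ((0, Fin.cons 1 w) : WH (n + 1)) = (0, e0 n) + inc n w := by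
  refine Prod.ext (by simp [inc]) (funext fun i => ?_)
  refine Fin.cases ?_ (fun j => ?_) i <;> simp [inc, e0]

theorem I_cons_eq (w : CV n) :
    ((0, I • Fin.cons 1 w) : WH (n + 1)) = (0, I • e0 n) + inc n (I • w) := by
  refine Prod.ext (by simp [inc]) (funext fun i => ?_)
  refine Fin.cases ?_ (fun j => ?_) i <;> simp [inc, e0]

theorem cons_ne_zero (w : CV n) : (Fin.cons 1 w : CV (n + 1)) ≠ 0 := fun h => by
  simpa using congrFun h 0

/-- The reduction of a form to the chart. -/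
noncomputable def rd (w : CV n) (x : FH (n + 1)) : Ext (Module.Dual ℝ (CV n)) :=
  pull (inc n) (iv ((0, I • Fin.cons 1 w) : WH (n + 1))
    (iv ((0, Fin.cons 1 w) : WH (n + 1)) (iv ((1, 0) : WH (n + 1)) x)))

theorem top_down {τ : FH (n + 1) →ₗ[ℝ] ℝ} (hτ : TopLike τ) :
    ∃ σ : Ext (Module.Dual ℝ (CV n)) →ₗ[ℝ] ℝ, TopLike σ ∧ ∀ w x, τ x = σ (rd w x) := by
  let τ1 := τ ∘ₗ LinearMap.mulLeft ℝ (io eps)
  let τ2 := τ1 ∘ₗ LinearMap.mulLeft ℝ (io (cv (e0 n)))
  let τ3 := τ2 ∘ₗ LinearMap.mulLeft ℝ (io (cv (I • e0 n)))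
  have k0 : ∀ v, Kills τ v := hτ
  refine ⟨τ3 ∘ₗ (pull (prj n)).toLinearMap, fun v x => ?_, fun w x => ?_⟩
  · have h : Kills τ3 (inc n v) := (((k0 _).mul rfl).mul (by simp [cv_apply, rin_e0, inc])).mul
      (by simp [cv_apply, rin_I_e0, inc])
    have := h (pull (prj n) x)
    rwa [iv_pull, prj_inc] at this
  · have h3 : ∀ y, τ3 y = τ3 (pull (prj n) (pull (inc n) y)) := by
      intro y
      rw [pull_pull]
      set T : FH (n + 1) := io eps * (io (cv (e0 n)) * io (cv (I • e0 n))) with hT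
      have e : ∀ y, τ3 y = τ (T * y) := fun y => by simp only [τ3, τ2, τ1, hT, mul_assoc]; rfl
      have hinv : inv T = -T := by simp [hT]
      rw [e, e]
      congr 1
      induction y using ext_induction with
      | h0 r => rw [AlgHom.commutes]
      | h1 x y hx hy => rw [map_add, mul_add, mul_add, hx, hy]
      | h2 φ y hy =>
        have hφ : φ = φ (1, 0) • eps + φ (0, e0 n) • cv (e0 n) +
            φ (0, I • e0 n) • cv (I • e0 n) + φ ∘ₗ (inc n ∘ₗ prj n) := by
          refine LinearMap.ext fun v => ?_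
          conv_lhs => rw [wh_decomp v]
          simp only [map_add, map_smul, smul_eq_mul, LinearMap.add_apply, LinearMap.smul_apply,
            cv_apply, eps_apply, rin_e0, rin_I_e0, LinearMap.comp_apply]
          ring
        have z1 : T * io eps = 0 := by
          rw [mul_io, hinv, hT, mul_neg, ← mul_assoc, io_mul_io, zero_mul, neg_zero]
        have z2 : T * io (cv (e0 n)) = 0 := by
          rw [hT, mul_assoc, mul_assoc, io_swap (cv (I • e0 n)), mul_neg, ← mul_assoc (io (cv _)),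
            io_mul_io, zero_mul, neg_zero, mul_zero]
        have z3 : T * io (cv (I • e0 n)) = 0 := by
          rw [hT, mul_assoc, mul_assoc, io_mul_io, mul_zero, mul_zero]
        have : T * io φ = T * io (φ ∘ₗ (inc n ∘ₗ prj n)) := by
          conv_lhs => rw [hφ]
          simp only [io_add, io_smul, mul_add, mul_smul_comm, z1, z2, z3, smul_zero, zero_add]
        rw [map_mul, pull_io, ← mul_assoc, ← mul_assoc, this, mul_io, hinv, mul_assoc, mul_assoc,
          neg_mul, neg_mul, hy]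
    have k1 : Kills τ1 (0, Fin.cons 1 w) := (k0 _).mul rfl
    have k2 : Kills τ2 (0, I • Fin.cons 1 w) :=
      ((k0 _).mul rfl).mul (by simp [cv_apply, rin_e0])
    rw [(k0 (1, 0)).eq (φ := eps) rfl, k1.eq (φ := cv (e0 n)) (by simp [cv_apply, rin_e0]),
      k2.eq (φ := cv (I • e0 n)) (by simp [cv_apply, rin_I_e0])]
    exact h3 _

theorem top_up {σ : Ext (Module.Dual ℝ (CV n)) →ₗ[ℝ] ℝ} (hσ : TopLike σ) :
    ∃ τ : FH (n + 1) →ₗ[ℝ] ℝ, TopLike τ ∧ ∀ w x, τ x = σ (rd w x) := by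
  have h0 : ∀ v y, σ (pull (inc n) (iv (inc n v) y)) = 0 := fun v y => by
    rw [← iv_pull]; exact hσ _ _
  refine ⟨σ ∘ₗ (pull (inc n)).toLinearMap ∘ₗ iv (0, I • e0 n) ∘ₗ iv (0, e0 n) ∘ₗ iv (1, 0),
    fun v x => ?_, fun w x => ?_⟩
  · change σ (pull (inc n) (iv (0, I • e0 n) (iv (0, e0 n) (iv (1, 0) (iv v x))))) = 0
    rw [wh_decomp v]
    simp only [iv_add, iv_smul, map_add, map_smul]
    obtain ⟨h1, h2, h3, h4⟩ := iv_three ((1, 0) : WH (n + 1)) (0, e0 n) (0, I • e0 n) x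
    rw [h1, h2, h3, h4, map_neg, map_neg, h0]
    simp
  · change σ (pull (inc n) (iv (0, I • e0 n) (iv (0, e0 n) (iv (1, 0) x)))) = _
    rw [rd, I_cons_eq, iv_add, map_add, map_add, h0, add_zero, cons_eq, iv_add, map_add, map_add,
      map_add, ctr_comm _ (Module.Dual.eval ℝ _ (inc n _)) _, map_neg, map_neg, h0]
    simp

end Pool.Agent.Lib.MP_cdc9ab_al.Bnd
end

-- part Pool.Agent.Lib.MP_cdc9ab_al.BVan
section

/-! A vanishing integral for products of connection and curvature forms. -/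

open scoped Matrix.Norms.Operator ContDiff Matrix Topology
open Finset Filter Complex MeasureTheory

namespace Pool.Agent.Lib.MP_cdc9ab_al.Bnd

variable {N : ℕ}

/-- Smooth closed forms off the origin which are killed by the rotation field. -/
structure Cl (P : CV N → FH N) : Prop where
  sm : ∀ z, z ≠ 0 → ContDiffAt ℝ ∞ P z
  cl : ∀ z, z ≠ 0 → dW P z = 0
  iz : ∀ z, z ≠ 0 → iv ((0, I • z) : WH N) (P z) = 0

theorem Cl.df {P : CV N → FH N} (h : Cl P) {z : CV N} (hz : z ≠ 0) : DifferentiableAt ℝ P z :=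
  (h.sm z hz).differentiableAt infty_ne_zero

theorem Cl.mul {P Q : CV N → FH N} (h : Cl P) (h' : Cl Q) : Cl fun z => P z * Q z where
  sm z hz := (h.sm z hz).mul (h'.sm z hz)
  cl z hz := by
    have h1 := h.cl z hz
    have h2 := h'.cl z hz
    rw [dW] at h1 h2 ⊢
    rw [dd_mul _ _ (h.df hz) (h'.df hz), h1, h2, zero_mul, mul_zero, add_zero]
  iz z hz := by rw [ctr_mul, h.iz z hz, h'.iz z hz, zero_mul, mul_zero, add_zero]

theorem Cl.sub {P Q : CV N → FH N} (h : Cl P) (h' : Cl Q) : Cl fun z => P z - Q z where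
  sm z hz := (h.sm z hz).sub (h'.sm z hz)
  cl z hz := by
    have h1 := h.cl z hz
    have h2 := h'.cl z hz
    rw [dW] at h1 h2 ⊢
    rw [dd_sub _ _ (h.df hz) (h'.df hz), h1, h2, sub_zero]
  iz z hz := by rw [map_sub, h.iz z hz, h'.iz z hz, sub_zero]

theorem cl_const (r : ℝ) : Cl fun _ : CV N => algebraMap ℝ (FH N) r where
  sm _ _ := contDiffAt_const
  cl _ _ := dd_const _ _ _ _
  iz _ _ := ctr_algebraMap _ _

theorem Cl.congr {P Q : CV N → FH N} (h : Cl P) (e : ∀ z, z ≠ 0 → Q z = P z) : Cl Q := by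
  have e' : ∀ z, z ≠ 0 → Q =ᶠ[𝓝 z] P := fun z hz => by
    filter_upwards [isOpen_ne.mem_nhds hz] with y hy using e y hy
  exact ⟨fun z hz => (h.sm z hz).congr_of_eventuallyEq (e' z hz),
    fun z hz => (dd_congr _ _ (e' z hz)).trans (h.cl z hz), fun z hz => by rw [e z hz, h.iz z hz]⟩

theorem cl_da {H : HM N} (hH : PD H) : Cl (da H) :=
  ⟨fun _ hz => contDiffAt_da contDiffAt_const contDiffAt_id (hH.pos hz).ne',
    fun _ hz => dW_da hH hz, fun _ _ => iv_iz_da hH 0⟩

theorem cl_om {H : HM N} (hH : PD H) : Cl (om H) :=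
  ⟨fun _ hz => contDiffAt_om contDiffAt_const contDiffAt_id (hH.pos hz).ne',
    fun _ hz => dW_om hH hz, fun _ hz => iv_iz_om hH hz 0⟩

theorem cl_prod {m : ℕ} {P : Fin m → CV N → FH N} (h : ∀ i, Cl (P i)) :
    Cl fun z => (List.ofFn fun i => P i z).prod := by
  induction m with
  | zero => exact (cl_const 1).congr fun z _ => by simp
  | succ m ih =>
    exact ((h 0).mul (ih fun i => h i.succ)).congr fun z _ => by
      rw [List.ofFn_succ, List.prod_cons]

theorem cl_iv_prod {m : ℕ} {H : Fin m → HM N} (h : ∀ i, PD (H i)) :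
    Cl fun z => iv ((0, z) : WH N) (List.ofFn fun i => da (H i) z).prod := by
  induction m with
  | zero => exact (cl_const 0).congr fun z _ => by simp
  | succ m ih =>
    exact (((cl_const 2).mul (cl_prod fun i => cl_da (h i.succ))).sub
      ((cl_da (h 0)).mul (ih fun i => h i.succ))).congr fun z hz => by
      rw [List.ofFn_succ, List.prod_cons, ctr_mul, iv_z_da (h 0) hz, inv_da, neg_mul,
        sub_eq_add_neg]

theorem iv_prod_zero {m : ℕ} (v : WH N) {x : Fin m → FH N} (h : ∀ i, iv v (x i) = 0) :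
    iv v (List.ofFn x).prod = 0 := by
  induction m with
  | zero => simp
  | succ m ih =>
    rw [List.ofFn_succ, List.prod_cons, ctr_mul, h 0, ih fun i => h i.succ, zero_mul, mul_zero,
      add_zero]

theorem qf_zero (H : HM N) : qf H 0 = 0 := by simp [qf]

theorem continuous_qf1 : Continuous (qf (1 : HM N)) := continuous_iff_continuousAt.2 fun z =>
  (hasFDerivAt_qf pd_one z).continuousAt

theorem norm_sq_le (z : CV N) : ‖z‖ ^ 2 ≤ qf 1 z := by
  have h0 : 0 ≤ qf 1 z := by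
    rw [qf_one, rin_eq]
    exact sum_nonneg fun j _ => add_nonneg (mul_self_nonneg _) (mul_self_nonneg _)
  rw [← Real.le_sqrt (norm_nonneg _) h0, pi_norm_le_iff_of_nonneg (Real.sqrt_nonneg _)]
  intro i
  rw [Real.le_sqrt (norm_nonneg _) h0, ← Complex.normSq_eq_norm_sq, Complex.normSq_apply, qf_one,
    rin_eq]
  exact single_le_sum (f := fun i => (z i).re * (z i).re + (z i).im * (z i).im)
    (fun j _ => add_nonneg (mul_self_nonneg _) (mul_self_nonneg _)) (mem_univ i)

theorem cut_zero {χ : ℝ → ℝ} (hχ : IsCut χ) : ∀ᶠ z in 𝓝 (0 : CV N), χ (qf 1 z) = 0 := by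
  have : ∀ᶠ z in 𝓝 (0 : CV N), qf 1 z < 1 :=
    continuous_qf1.continuousAt.eventually (gt_mem_nhds (by rw [qf_zero]; exact one_pos))
  exact this.mono fun z hz => hχ.2 _ fun h => h.1.not_gt hz

theorem stokes_cut (lam : FH N →ₗ[ℝ] ℝ) {χ : ℝ → ℝ} (hχ : IsCut χ) {R : CV N → FH N}
    (hR : ∀ z, z ≠ 0 → ContDiffAt ℝ ∞ R z) :
    ∫ z, χ (qf 1 z) * lam (da 1 z * dW R z) = 0 := by
  have h1 : ∀ z, z ≠ 0 → ContDiffAt ℝ ∞ (fun y => da 1 y * R y) z := fun z hz =>
    ((cl_da pd_one).sm z hz).mul (hR z hz)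
  have h0 : (fun y => χ (qf 1 y) • (da 1 y * R y)) =ᶠ[𝓝 0] fun _ => 0 :=
    (cut_zero hχ).mono fun y hy => by simp only [hy, zero_smul]
  have hs := stokes (volume : Measure (CV N)) (fun i => cv (rb i)) rb lam
    (w := fun y => χ (qf 1 y) • (da 1 y * R y)) (contDiff_iff_contDiffAt.2 fun z => by
      by_cases hz : z = 0
      · subst hz
        exact contDiffAt_const.congr_of_eventuallyEq h0
      · exact ((hχ.1.contDiffAt.comp z (contDiffAt_qf contDiffAt_const contDiffAt_id)).smul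
          (h1 z hz)).of_le (by exact_mod_cast le_top))
    (HasCompactSupport.intro (isCompact_closedBall 0 2) fun z hz => by
      rw [hχ.2 _ fun h => hz ?_, zero_smul]
      rw [mem_closedBall_zero_iff]
      nlinarith [norm_sq_le z, h.2, norm_nonneg z])
  rw [← neg_eq_zero, ← integral_neg, ← hs]
  refine integral_congr_ae (Eventually.of_forall fun z => ?_)
  by_cases hz : z = 0
  · subst hz
    simp only [dd_congr _ _ h0, dd_const, map_zero, (cut_zero hχ).self_of_nhds, zero_mul, neg_zero]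
  · have hd := dW_comp_smul pd_one
      ((hχ.1.differentiable infty_ne_zero) (qf 1 z)).hasDerivAt
      ((h1 z hz).differentiableAt infty_ne_zero)
    have hda := dW_da pd_one hz
    rw [dW] at hd hda
    have h3 : ∀ c : ℝ, io (cv (c • (1 : HM N) *ᵥ z)) * da 1 z = 0 := fun c => by
      rw [da, iocv_smul, iocv_smul, smul_mul_smul_comm, io_mul_io, smul_zero]
    simp only [hd, dW]
    rw [dd_mul _ _ ((cl_da pd_one).df hz) ((hR z hz).differentiableAt infty_ne_zero), hda, inv_da,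
      ← mul_assoc, h3]
    simp

variable {τ : FH N →ₗ[ℝ] ℝ}

theorem vanish1 (hτ : TopLike τ) {χ : ℝ → ℝ} (hχ : IsCut χ) {P : CV N → FH N} (hP : Cl P)
    {H H' : HM N} (hH : PD H) (hH' : PD H') :
    ∫ z, χ (qf 1 z) * τ (io eps * (da 1 z * ((da H z - da H' z) * (P z * sg 1 z)))) = 0 := by
  have h1 : ∀ z, z ≠ 0 → ContDiffAt ℝ ∞ (fun y => P y * sg 1 y) z := fun z hz =>
    (hP.sm z hz).mul (contDiffAt_sg contDiffAt_const contDiffAt_id (pd_one.pos hz).ne')
  have h2 : ∀ {K : HM N}, PD K → ∀ z, z ≠ 0 →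
      ContDiffAt ℝ ∞ (fun y => Real.log (qf K y) • (P y * sg 1 y)) z := fun hK z hz => by
    have := ((contDiffAt_qf contDiffAt_const contDiffAt_id).log (hK.pos hz).ne').smul (h1 z hz)
    exact this
  rw [← stokes_cut (τ ∘ₗ LinearMap.mulLeft ℝ (io eps)) hχ
    (R := fun y => Real.log (qf H y) • (P y * sg 1 y) - Real.log (qf H' y) • (P y * sg 1 y))
    fun z hz => (h2 hH z hz).sub (h2 hH' z hz)]
  refine integral_congr_ae (Eventually.of_forall fun z => ?_)
  by_cases hz : z = 0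
  · subst hz
    simp only [(cut_zero hχ).self_of_nhds, zero_mul]
  · have d1 := (h1 z hz).differentiableAt infty_ne_zero
    have e1 := dW_log_smul hH hz d1
    have e2 := dW_log_smul hH' hz d1
    have e3 : τ (io eps * (da 1 z * dW (fun y => P y * sg 1 y) z)) = 0 := by
      have c1 := hP.cl z hz
      have c2 := dW_sg pd_one hz
      rw [dW] at c1 c2 ⊢
      have d2 : DifferentiableAt ℝ (sg 1) z := (contDiffAt_sg contDiffAt_const contDiffAt_id
        (pd_one.pos hz).ne').differentiableAt infty_ne_zero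
      rw [dd_mul _ _ (hP.df hz) d2, c1, c2, zero_mul, zero_add]
      refine hτ.eq_zero_of_iv (v := (0, I • z)) (fun h => hz ?_) ?_
      · simpa using congrArg Prod.snd h
      · have c3 := inv_ctr (Module.Dual.eval ℝ (WH N) (0, I • z)) (P z)
        rw [hP.iz z hz, map_zero, eq_comm, neg_eq_zero] at c3
        rw [ctr_mul, ctr_mul, ctr_mul, c3, iv_iz_om pd_one hz, iv_iz_da pd_one, iv_eps]
        simp
    rw [dW] at e1 e2
    simp only
    rw [dW, dd_sub _ _ ((h2 hH z hz).differentiableAt infty_ne_zero)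
      ((h2 hH' z hz).differentiableAt infty_ne_zero), e1, e2]
    simp only [LinearMap.comp_apply, LinearMap.mulLeft_apply, sub_mul, mul_sub, mul_add, map_sub,
      map_add, mul_smul_comm, map_smul, e3, smul_zero, add_zero]

theorem vanish2 (hτ : TopLike τ) {χ : ℝ → ℝ} (hχ : IsCut χ) {p m : ℕ} {H : Fin (p + 2) → HM N}
    {G : Fin m → HM N} (hH : ∀ i, PD (H i)) (hG : ∀ i, PD (G i)) :
    ∫ z, χ (qf 1 z) * τ (io eps * ((List.ofFn fun i => da (H i) z).prod *
      (List.ofFn fun l => om (G l) z).prod * sg 1 z)) = 0 := by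
  let K : Fin (p + 1) → HM N := Fin.cons (H 0) fun i => H i.succ.succ
  have hK : ∀ i, PD (K i) := fun i => Fin.cases (hH 0) (fun _ => hH _) i
  have h := vanish1 hτ hχ ((cl_iv_prod hK).mul (cl_prod fun l => cl_om (hG l))) (hH 1) (hH 0)
  rw [← mul_eq_zero_iff_left (two_ne_zero), ← integral_const_mul, ← h]
  refine integral_congr_ae (Eventually.of_forall fun z => ?_)
  by_cases hz : z = 0
  · subst hz
    simp only [(cut_zero hχ).self_of_nhds, zero_mul, mul_zero]
  · have e1 : (List.ofFn fun i => da (H i) z).prod =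
        -((da (H 1) z - da (H 0) z) * (List.ofFn fun i => da (K i) z).prod) := by
      rw [List.ofFn_succ, List.prod_cons, List.ofFn_succ, List.prod_cons, List.ofFn_succ (n := p),
        List.prod_cons, ← mul_assoc, ← mul_assoc, sub_mul]
      simp only [K, Fin.cons_zero, Fin.cons_succ, Fin.succ_zero_eq_one]
      rw [odd_sq (inv_da _ _), sub_zero, odd_comm (inv_da (H 1) z), inv_da, neg_mul, neg_mul,
        neg_neg]
    have e2 := hτ.io_mul_iv (cv ((2 * (qf 1 z)⁻¹) • ((1 : HM N) *ᵥ z))) ((0, z) : WH N)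
      (io eps * ((List.ofFn fun i => da (H i) z).prod *
        (List.ofFn fun l => om (G l) z).prod * sg 1 z))
    have e3 : cv ((2 * (qf 1 z)⁻¹) • ((1 : HM N) *ᵥ z)) ((0, z) : WH N) = 2 := by
      rw [cv_apply, rin_smul_left, rin_comm, ← qf, mul_assoc, inv_mul_cancel₀ (pd_one.pos hz).ne',
        mul_one]
    rw [e3, ← da] at e2
    simp only
    rw [mul_left_comm, ← e2, e1]
    congr 2
    rw [ctr_mul, ctr_mul, ctr_mul, map_neg, ctr_mul, map_sub, iv_z_da (hH 0) hz, iv_z_da (hH 1) hz,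
      iv_z_sg pd_one, iv_prod_zero _ fun l => iv_z_om (hG l) hz 0, iv_eps, map_sub, inv_da, inv_da,
      inv_io, ← mul_assoc (io eps),
      show io eps * da 1 z = -(da 1 z * io eps) from io_swap _ _]
    simp only [map_zero]
    noncomm_ring

theorem pull_I_sg (H : HM N) (z : CV N) :
    pull (lift (I • 1)) (sg H z) = (2 : ℝ)⁻¹ • da H z := by
  rw [sg, da, pull_lift_iocv, iocv_smul, smul_smul, ← iocv_smul]
  congr 2
  rw [Matrix.conjTranspose_smul, Matrix.conjTranspose_one, Matrix.smul_mulVec, Matrix.one_mulVec,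
    smul_comm, smul_smul (star I)]
  simp

theorem pull_I_da (H : HM N) (z : CV N) :
    pull (lift (I • 1)) (da H z) = (-2 : ℝ) • sg H z := by
  rw [sg, da, pull_lift_iocv, iocv_smul, smul_smul, ← iocv_smul]
  congr 2
  rw [Matrix.conjTranspose_smul, Matrix.conjTranspose_one, Matrix.smul_mulVec, Matrix.one_mulVec,
    smul_comm]
  simp

theorem conj_smul_one (c : ℂ) (H : HM N) :
    (c • (1 : HM N))ᴴ * H * (c • (1 : HM N)) = normSq c • H := by
  rw [Matrix.conjTranspose_smul, Matrix.conjTranspose_one, smul_mul_assoc, one_mul, mul_smul_comm,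
    mul_one, smul_smul, ← Complex.coe_smul, star_def, mul_conj]

theorem pull_I_om (H : HM N) (z : CV N) : pull (lift (I • 1)) (om H z) = om H z := by
  rw [om, map_sub, map_smul, map_mul, pull_lift_vp, pull_I_sg, pull_I_da, conj_smul_one,
    smul_mul_smul_comm, odd_comm (inv_sg H z), inv_da]
  simp

theorem det_lift_smul (c : ℂ) : LinearMap.det (lift (c • (1 : HM N))) = normSq c ^ N := by
  rw [det_lift, Matrix.det_smul, Matrix.det_one, mul_one, map_pow, Fintype.card_fin]

/-- The homogeneous function attached to a family of matrices. -/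
noncomputable def bS (τ : FH N →ₗ[ℝ] ℝ) {p m : ℕ} (H : Fin p → HM N) (G : Fin m → HM N)
    (z : CV N) : ℝ :=
  τ (io eps * ((List.ofFn fun i => sg (H i) z).prod * (List.ofFn fun l => om (G l) z).prod *
    da 1 z))

theorem vanish3 (hτ : TopLike τ) {χ : ℝ → ℝ} (hχ : IsCut χ) {p m : ℕ} {H : Fin (p + 2) → HM N}
    {G : Fin m → HM N} (hH : ∀ i, PD (H i)) (hG : ∀ i, PD (G i)) :
    ∫ z, χ (qf 1 z) * bS τ H G z = 0 := by
  have h := congrArg (fun t => (2 : ℝ)⁻¹ ^ (p + 2) * -2 * t) (vanish2 hτ hχ hH hG)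
  simp only [mul_zero] at h
  rw [← h, ← integral_const_mul]
  refine integral_congr_ae (Eventually.of_forall fun z => ?_)
  have e := hτ.pull (lift (I • 1)) (io eps * ((List.ofFn fun i => sg (H i) z).prod *
    (List.ofFn fun l => om (G l) z).prod * da 1 z))
  rw [det_lift_smul, normSq_I, one_pow, one_mul] at e
  have e1 : ∀ (r : ℕ) (x : Fin r → FH N), (List.ofFn fun i => (2 : ℝ)⁻¹ • x i).prod =
      (2 : ℝ)⁻¹ ^ r • (List.ofFn x).prod := by
    intro r x
    induction r with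
    | zero => simp
    | succ r ih =>
      rw [List.ofFn_succ, List.ofFn_succ, List.prod_cons, List.prod_cons, ih, smul_mul_smul_comm,
        pow_succ']
  simp only [bS]
  rw [← e, mul_left_comm]
  simp only [map_mul, map_list_prod, List.map_ofFn, Function.comp_def, pull_lift_eps, pull_I_sg,
    pull_I_da, pull_I_om, e1, smul_mul_assoc, mul_smul_comm, map_smul, smul_eq_mul]
  ring

theorem qf_smul' (r : ℝ) (H : HM N) (z : CV N) : qf (r • H) z = r * qf H z := by
  rw [qf, qf, Matrix.smul_mulVec, rin_smul_right]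

theorem sg_smul' {r : ℝ} (hr : r ≠ 0) (H : HM N) (z : CV N) : sg (r • H) z = sg H z := by
  rw [sg, sg, qf_smul', Matrix.smul_mulVec, smul_comm I, smul_smul]
  congr 3
  field_simp

theorem da_smul' {r : ℝ} (hr : r ≠ 0) (H : HM N) (z : CV N) : da (r • H) z = da H z := by
  rw [da, da, qf_smul', Matrix.smul_mulVec, smul_smul]
  congr 3
  field_simp

theorem om_smul' {r : ℝ} (hr : r ≠ 0) (H : HM N) (z : CV N) : om (r • H) z = om H z := by
  have : vp (r • H) = r • vp H := by
    simp only [vp, Matrix.smul_mulVec, smul_comm I r, iocv_smul, mul_smul_comm, smul_sum]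
  rw [om, om, sg_smul' hr, da_smul' hr, qf_smul', this, smul_smul]
  congr 2
  field_simp

theorem bS_smul (hτ : TopLike τ) {p m : ℕ} (H : Fin p → HM N) (G : Fin m → HM N) (c : ℂ)
    (hc : c ≠ 0) (z : CV N) : normSq c ^ N * bS τ H G (c • z) = bS τ H G z := by
  have hr : normSq c ≠ 0 := (normSq_pos.2 hc).ne'
  have e : c • z = (c • (1 : HM N)) *ᵥ z := by rw [Matrix.smul_mulVec, Matrix.one_mulVec]
  rw [bS, bS, ← det_lift_smul, ← hτ.pull, e]
  simp only [map_mul, map_list_prod, List.map_ofFn, Function.comp_def, pull_lift_eps, pull_lift_sg,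
    pull_lift_da, pull_lift_om, conj_smul_one, sg_smul' hr, da_smul' hr, om_smul' hr]

theorem bS_cont (τ : FH N →ₗ[ℝ] ℝ) {p m : ℕ} {H : Fin p → HM N} {G : Fin m → HM N}
    (hH : ∀ i, PD (H i)) (hG : ∀ i, PD (G i)) : ContinuousOn (bS τ H G) {z | z ≠ 0} :=
  fun z hz => (contDiffAt_lin (n := ∞) τ (contDiffAt_const.mul
    (((contDiffAt_list_prod fun i => contDiffAt_sg contDiffAt_const contDiffAt_id
      ((hH i).pos hz).ne').mul ((cl_prod fun l => cl_om (hG l)).sm z hz)).mul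
        ((cl_da pd_one).sm z hz)))).continuousAt.continuousWithinAt

end Pool.Agent.Lib.MP_cdc9ab_al.Bnd
end
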