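import Mathlib

/-! A weak Bezout bound for nondegenerate real zeros, and the area inequality with multiplicity. -/

open scoped ContDiff ENNReal Topology
open Finset MeasureTheory

namespace Pool.Agent.Lib.MP_cdc9ab_al

section bezout

open MvPolynomial

variable {ι : Type} [Fintype ι]

theorem hasStrictFDerivAt_eval (p : MvPolynomial ι ℝ) (z : ι → ℝ) :
    HasStrictFDerivAt (fun x => eval x p)
      (∑ i, eval z (pderiv i p) • ContinuousLinearMap.proj (R := ℝ) (φ := fun _ : ι => ℝ) i) z := by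
  classical
  induction p using MvPolynomial.induction_on with
  | C a => simpa using hasStrictFDerivAt_const a z
  | add p q hp hq =>
    simp only [map_add, add_smul, sum_add_distrib]
    exact hp.add hq
  | mul_X p n hp =>
    simp only [map_mul, eval_X]
    refine (hp.mul (hasStrictFDerivAt_apply (𝕜 := ℝ) n z)).congr_fderiv ?_
    ext v
    simp [pderiv_X, Pi.single_apply, mul_add, sum_add_distrib, mul_sum, apply_ite, mul_comm,
      mul_left_comm]

omit [Fintype ι] in
theorem totalDegree_pderiv_le (i : ι) (p : MvPolynomial ι ℝ) :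
    (pderiv i p).totalDegree ≤ p.totalDegree := by
  classical
  conv_lhs => rw [p.as_sum, map_sum]
  refine (totalDegree_finsetSum _ _).trans (Finset.sup_le fun s hs => ?_)
  rw [pderiv_monomial]
  refine (totalDegree_monomial_le _ _).trans (le_trans ?_ (le_totalDegree hs))
  exact Finsupp.degree_mono tsub_le_self

/-- Every coordinate is algebraic, of bounded degree, over the components of a square system. -/
theorem exists_elim (D : ℕ) (G : ι → MvPolynomial ι ℝ) (hG : ∀ j, (G j).totalDegree ≤ D) (i : ι) :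
    ∃ P : Polynomial (MvPolynomial ι ℝ), P ≠ 0 ∧
      P.natDegree ≤ (1 + Fintype.card ι * D) ^ Fintype.card ι ∧
      ∀ x : ι → ℝ, (P.map (eval fun j => eval x (G j))).eval (x i) = 0 := by
  classical
  set m := Fintype.card ι with hm
  set α := (1 + m * D) ^ m with hα
  let p : Fin (α + 1) × (ι → Fin (α + 1)) → MvPolynomial ι ℝ := fun k =>
    X i ^ (k.1 : ℕ) * ∏ j, G j ^ (k.2 j : ℕ)
  have hp : ∀ k, (p k).totalDegree ≤ α * (1 + m * D) := by
    intro k
    refine (totalDegree_mul _ _).trans ?_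
    have h1 : (X i ^ (k.1 : ℕ) : MvPolynomial ι ℝ).totalDegree ≤ α := by
      rw [totalDegree_X_pow]; exact Nat.lt_succ_iff.1 k.1.2
    have h2 : (∏ j, G j ^ (k.2 j : ℕ)).totalDegree ≤ ∑ _j : ι, α * D :=
      (totalDegree_finsetProd _ _).trans (sum_le_sum fun j _ => (totalDegree_pow _ _).trans
        (Nat.mul_le_mul (Nat.lt_succ_iff.1 (k.2 j).2) (hG j)))
    rw [sum_const, card_univ, smul_eq_mul, ← hm] at h2
    nlinarith
  let f : (Fin (α + 1) × (ι → Fin (α + 1)) → ℝ) →ₗ[ℝ] ((ι → Fin (α * (1 + m * D) + 1)) → ℝ) :=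
    LinearMap.pi fun s => lcoeff ℝ (Finsupp.equivFunOnFinite.symm fun j => (s j : ℕ)) ∘ₗ
      Fintype.linearCombination ℝ p
  obtain ⟨c, hc, hc0⟩ := (Submodule.ne_bot_iff _).1 (f.ker_ne_bot_of_finrank_lt (by
    simp only [Module.finrank_fintype_fun_eq_card, Fintype.card_prod, Fintype.card_fun,
      Fintype.card_fin, ← hm]
    calc (α * (1 + m * D) + 1) ^ m ≤ ((α + 1) * (1 + m * D)) ^ m := by
          gcongr; nlinarith [Nat.zero_le (m * D)]
      _ = α * (α + 1) ^ m := by rw [mul_pow, ← hα, mul_comm]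
      _ < (α + 1) * (α + 1) ^ m := by gcongr; exact Nat.lt_succ_self α))
  have h0 : ∑ k, c k • p k = 0 := by
    ext s
    by_cases hs : ∀ j, s j ≤ α * (1 + m * D)
    · have := congrFun (LinearMap.mem_ker.1 hc) fun j => ⟨s j, Nat.lt_succ_of_le (hs j)⟩
      simpa [f, Fintype.linearCombination_apply, coeff_sum] using this
    · push Not at hs
      obtain ⟨j, hj⟩ := hs
      rw [coeff_sum, coeff_zero]
      refine sum_eq_zero fun k _ => ?_
      rw [coeff_smul, coeff_eq_zero_of_totalDegree_lt, smul_zero]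
      refine (hp k).trans_lt (hj.trans_le ?_)
      exact single_le_sum (f := fun j => s j) (fun _ _ => Nat.zero_le _)
        (Finsupp.mem_support_iff.2 (by omega))
  refine ⟨∑ k, Polynomial.monomial (k.1 : ℕ)
    (monomial (Finsupp.equivFunOnFinite.symm fun j => (k.2 j : ℕ)) (c k)), fun h => hc0 ?_, ?_,
    fun x => ?_⟩
  · funext k
    have := congrArg (fun P : Polynomial (MvPolynomial ι ℝ) =>
      coeff (Finsupp.equivFunOnFinite.symm fun j => (k.2 j : ℕ)) (P.coeff k.1)) h
    simp only [Polynomial.finsetSum_coeff, Polynomial.coeff_monomial, coeff_sum,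
      Polynomial.coeff_zero, coeff_zero] at this
    rw [Finset.sum_eq_single k (fun k' _ hk => ?_) (by simp)] at this
    · simpa using this
    · split_ifs with h1
      · rw [coeff_monomial, if_neg fun h2 => hk ?_]
        refine Prod.ext (Fin.ext h1) (funext fun j => Fin.ext ?_)
        exact congrFun (Finsupp.equivFunOnFinite.symm.injective h2) j
      · rfl
  · exact Polynomial.natDegree_sum_le_of_forall_le _ _ fun k _ =>
      (Polynomial.natDegree_monomial_le _).trans (Nat.lt_succ_iff.1 k.1.2)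
  · have := congrArg (eval x) h0
    simp only [map_sum, smul_eval, p, map_mul, map_pow, eval_X, map_prod, map_zero] at this
    rw [← this, Polynomial.map_sum, Polynomial.eval_finsetSum]
    refine sum_congr rfl fun k _ => ?_
    rw [Polynomial.map_monomial, Polynomial.eval_monomial, eval_monomial,
      Finsupp.prod_fintype _ _ (by simp)]
    simp only [Finsupp.equivFunOnFinite_symm_apply_apply]
    ring

/-- The Bezout bound for square systems. -/
theorem bezout_sq (D : ℕ) (G : ι → MvPolynomial ι ℝ) (hG : ∀ j, (G j).totalDegree ≤ D)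
    (Z : Finset (ι → ℝ)) (hZ : ∀ z ∈ Z, (∀ j, eval z (G j) = 0) ∧
      ∀ v : ι → ℝ, (∀ j, ∑ i, eval z (pderiv i (G j)) * v i = 0) → v = 0) :
    Z.card ≤ ((1 + Fintype.card ι * D) ^ Fintype.card ι) ^ Fintype.card ι := by
  classical
  choose P h1 h2 h3 using exists_elim D G hG
  obtain ⟨V, h4, h5⟩ := Z.finite_toSet.t2_separation
  have h6 : ∀ᶠ y in 𝓝 (0 : ι → ℝ), ∀ z ∈ Z, ∃ x ∈ V z, (fun j => eval x (G j)) = y := by
    refine (Filter.eventually_all_finset Z).2 fun z hz => ?_
    have h7 := hasStrictFDerivAt_pi.2 fun j => hasStrictFDerivAt_eval (G j) z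
    have h8 := h7.map_nhds_eq_of_surj (by
      rw [← LinearMap.ker_eq_bot_iff_range_eq_top, LinearMap.ker_eq_bot']
      intro v hv
      exact (hZ z hz).2 v fun j => by simpa using congrFun hv j)
    rw [show (fun j => eval z (G j)) = 0 from funext (hZ z hz).1] at h8
    rw [← h8]
    exact Filter.image_mem_map ((h4 z).2.mem_nhds (h4 z).1)
  obtain ⟨ε, hε, h7⟩ := Metric.eventually_nhds_iff_ball.1 h6
  obtain ⟨y, hy, h8⟩ : ∃ y ∈ Metric.ball (0 : ι → ℝ) ε, eval y (∏ i, (P i).leadingCoeff) ≠ 0 := by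
    by_contra hc
    push Not at hc
    refine (prod_ne_zero_iff (s := univ)).2 (fun i _ => Polynomial.leadingCoeff_ne_zero.2 (h1 i))
      (funext_set (fun _ => Metric.ball (0 : ℝ) ε) (fun _ => ?_) fun x hx => ?_)
    · rw [Real.ball_eq_Ioo]; exact Set.Ioo_infinite (by linarith)
    · rw [map_zero]; exact hc x (by rwa [ball_pi _ hε])
  choose! x h9 h10 using h7 y hy
  have h11 : ∀ i, (P i).map (eval y) ≠ 0 := fun i h => h8 (by
    rw [map_prod]
    refine prod_eq_zero (mem_univ i) ?_
    simpa using congrArg (fun Q => Polynomial.coeff Q (P i).natDegree) h)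
  calc Z.card ≤ (Fintype.piFinset fun i => ((P i).map (eval y)).roots.toFinset).card := by
        refine card_le_card_of_injOn x (fun z hz => ?_) fun z hz z' hz' e => ?_
        · simp only [Finset.mem_coe, Fintype.mem_piFinset, Multiset.mem_toFinset]
          exact fun i => (Polynomial.mem_roots (h11 i)).2 (h10 z hz ▸ h3 i (x z))
        · by_contra hne
          exact Set.disjoint_left.1 (h5 hz hz' hne) (h9 z hz) (e ▸ h9 z' hz')
    _ ≤ _ := by
        rw [Fintype.card_piFinset, ← card_univ (α := ι)]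
        exact prod_le_pow_card _ _ _ fun i _ => (Multiset.toFinset_card_le _).trans
          ((Polynomial.card_roots' _).trans (Polynomial.natDegree_map_le.trans (h2 i)))

end bezout

theorem bezout (ι κ : Type) [Fintype ι] [Fintype κ] (d : ℕ) :
    ∃ N : ℕ, ∀ F : κ → MvPolynomial ι ℝ, (∀ j, (F j).totalDegree ≤ d) →
      ∀ Z : Finset (ι → ℝ), (∀ z ∈ Z, (∀ j, MvPolynomial.eval z (F j) = 0) ∧
        ∀ v : ι → ℝ, (∀ j, ∑ i, MvPolynomial.eval z (MvPolynomial.pderiv i (F j)) * v i = 0) →
          v = 0) → Z.card ≤ N := by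
  refine ⟨_, fun F hF Z hZ => bezout_sq (d + d) (fun i => ∑ j, F j * MvPolynomial.pderiv i (F j))
    (fun i => (MvPolynomial.totalDegree_finsetSum _ _).trans (Finset.sup_le fun j _ =>
      (MvPolynomial.totalDegree_mul _ _).trans
        (add_le_add (hF j) ((totalDegree_pderiv_le _ _).trans (hF j))))) Z fun z hz =>
    ⟨fun i => by simp [(hZ z hz).1], fun v hv => (hZ z hz).2 v fun j => ?_⟩⟩
  have h1 : ∑ j, (∑ i, MvPolynomial.eval z (MvPolynomial.pderiv i (F j)) * v i) ^ 2 = 0 := by
    have h2 : ∑ i, v i * ∑ k, MvPolynomial.eval z (MvPolynomial.pderiv k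
        (∑ j, F j * MvPolynomial.pderiv i (F j))) * v k = 0 := sum_eq_zero fun i _ => by
      rw [hv i, mul_zero]
    rw [← h2]
    simp only [map_sum, Derivation.leibniz, smul_eq_mul, map_add, map_mul, (hZ z hz).1, zero_mul,
      zero_add, sq, sum_mul, mul_sum]
    rw [sum_comm]
    refine sum_congr rfl fun i _ => ?_
    rw [sum_comm]
    exact sum_congr rfl fun _ _ => sum_congr rfl fun _ _ => by ring
  exact pow_eq_zero_iff two_ne_zero |>.1
    ((sum_eq_zero_iff_of_nonneg fun _ _ => sq_nonneg _).1 h1 j (mem_univ j))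

theorem area_le {n : ℕ} (U : Set (Fin n → ℝ)) (hU : IsOpen U) (Φ : (Fin n → ℝ) → (Fin n → ℝ))
    (hΦ : ∀ s ∈ U, ContDiffAt ℝ 1 Φ s) (B : Set (Fin n → ℝ)) (hB : ∀ s ∈ U, Φ s ∈ B) (N : ℕ)
    (hN : ∀ (y : Fin n → ℝ) (Z : Finset (Fin n → ℝ)),
      (∀ s ∈ Z, s ∈ U ∧ Φ s = y ∧ (fderiv ℝ Φ s).det ≠ 0) → Z.card ≤ N) :
    ∫⁻ s in U, ‖(fderiv ℝ Φ s).det‖ₑ ≤ N * volume B := by
  classical
  let U' := {s ∈ U | (fderiv ℝ Φ s).det ≠ 0}
  have h1 : ∀ s ∈ U', ∃ V, IsOpen V ∧ s ∈ V ∧ V ⊆ U' ∧ Set.InjOn Φ V := by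
    intro s hs
    have h2 := (hΦ s hs.1).hasStrictFDerivAt one_ne_zero
    let e := (fderiv ℝ Φ s).toContinuousLinearEquivOfDetNeZero hs.2
    have h3 : HasStrictFDerivAt Φ (e : (Fin n → ℝ) →L[ℝ] (Fin n → ℝ)) s := h2
    have h4 : ∀ᶠ t in 𝓝 s, (fderiv ℝ Φ t).det ≠ 0 :=
      (ContinuousLinearMap.continuous_det.continuousAt.comp
        ((hΦ s hs.1).continuousAt_fderiv one_ne_zero)).eventually_ne hs.2
    obtain ⟨V, h5, h6, h7⟩ := mem_nhds_iff.1
      (h3.eventually_left_inverse.and (h4.and (hU.mem_nhds hs.1)))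
    exact ⟨V, h6, h7, fun t ht => ⟨(h5 ht).2.2, (h5 ht).2.1⟩,
      Set.LeftInvOn.injOn fun t ht => (h5 ht).1⟩
  choose! V h2 h3 h4 h5 using h1
  obtain ⟨T, h6, h7, h8⟩ := TopologicalSpace.countable_cover_nhdsWithin (f := V) (s := U')
    fun s hs => mem_nhdsWithin_of_mem_nhds ((h2 s hs).mem_nhds (h3 s hs))
  have := h7.to_subtype
  obtain ⟨e, he⟩ := exists_surjective_nat (Option T)
  let V' : ℕ → Set (Fin n → ℝ) := fun k => (e k).elim ∅ fun t => V t
  have h9 : ∀ k, MeasurableSet (V' k) ∧ V' k ⊆ U' ∧ Set.InjOn Φ (V' k) := fun k => by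
    simp only [V']
    cases e k with
    | none => simp
    | some t => exact ⟨(h2 t (h6 t.2)).measurableSet, h4 t (h6 t.2), h5 t (h6 t.2)⟩
  let W := disjointed V'
  have hW : ∀ k, MeasurableSet (W k) := MeasurableSet.disjointed fun k => (h9 k).1
  have hW1 : ∀ k, W k ⊆ U' := fun k => (disjointed_subset V' k).trans (h9 k).2.1
  have hW2 : ∀ k, Set.InjOn Φ (W k) := fun k => (h9 k).2.2.mono (disjointed_subset V' k)
  have hW3 : ∀ k, ∀ x ∈ W k, HasFDerivWithinAt Φ (fderiv ℝ Φ x) (W k) x := fun k x hx =>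
    ((hΦ x (hW1 k hx).1).differentiableAt one_ne_zero).hasFDerivAt.hasFDerivWithinAt
  have hI : ∀ k, MeasurableSet (Φ '' W k) := fun k =>
    measurable_image_of_fderivWithin (hW k) (hW3 k) (hW2 k)
  have h10 : U' ⊆ ⋃ k, W k := fun s hs => by
    obtain ⟨t, ht, h⟩ := Set.mem_iUnion₂.1 (h8 hs)
    obtain ⟨k, hk⟩ := he (some ⟨t, ht⟩)
    rw [iUnion_disjointed]
    exact Set.mem_iUnion.2 ⟨k, by simpa [V', hk] using h⟩
  calc ∫⁻ s in U, ‖(fderiv ℝ Φ s).det‖ₑ
      ≤ ∫⁻ s in ⋃ k, W k, ‖(fderiv ℝ Φ s).det‖ₑ := by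
        rw [← lintegral_indicator hU.measurableSet, ← lintegral_indicator (.iUnion hW)]
        refine lintegral_mono fun s => ?_
        by_cases hs : s ∈ U'
        · rw [Set.indicator_of_mem hs.1, Set.indicator_of_mem (h10 hs)]
        · by_cases hs' : s ∈ U
          · have : (fderiv ℝ Φ s).det = 0 := by simpa [U', hs'] using hs
            simp [Set.indicator_of_mem hs', this]
          · simp [Set.indicator_of_notMem hs']
    _ ≤ ∑' k, ∫⁻ s in W k, ‖(fderiv ℝ Φ s).det‖ₑ := lintegral_iUnion_le _ _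
    _ = ∑' k, ∫⁻ y, (Φ '' W k).indicator 1 y := by
        refine tsum_congr fun k => ?_
        rw [lintegral_indicator_one (hI k),
          ← lintegral_abs_det_fderiv_eq_addHaar_image volume (hW k) (hW3 k) (hW2 k)]
        simp only [Real.enorm_eq_ofReal_abs]
    _ = ∫⁻ y, ∑' k, (Φ '' W k).indicator 1 y :=
        (lintegral_tsum fun k => (measurable_one.indicator (hI k)).aemeasurable).symm
    _ ≤ ∫⁻ y, (⋃ k, Φ '' W k).indicator (fun _ => (N : ℝ≥0∞)) y := by
        refine lintegral_mono fun y => ENNReal.summable.tsum_le_of_sum_le fun s => ?_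
        by_cases hy : y ∈ ⋃ k, Φ '' W k
        · rw [Set.indicator_of_mem hy]
          have h11 : ∀ k, y ∈ Φ '' W k → ∃ x ∈ W k, Φ x = y := fun _ h => h
          choose! x h12 h13 using h11
          have h14 := hN y ((s.filter fun k => y ∈ Φ '' W k).image x) fun t ht => by
            obtain ⟨k, hk, rfl⟩ := mem_image.1 ht
            have hk' := (mem_filter.1 hk).2
            exact ⟨(hW1 k (h12 k hk')).1, h13 k hk', (hW1 k (h12 k hk')).2⟩
          rw [card_image_of_injOn fun k hk l hl e => by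
            by_contra hne
            exact Set.disjoint_left.1 (disjoint_disjointed V' hne)
              (h12 k (mem_filter.1 hk).2) (e ▸ h12 l (mem_filter.1 hl).2)] at h14
          simp only [Set.indicator_apply, Pi.one_apply, sum_boole]
          exact_mod_cast h14
        · rw [sum_eq_zero fun k _ => Set.indicator_of_notMem
            (fun h => hy (Set.mem_iUnion.2 ⟨k, h⟩)) _]
          exact zero_le
    _ = N * volume (⋃ k, Φ '' W k) := lintegral_indicator_const (.iUnion hI) _
    _ ≤ N * volume B := by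
        gcongr
        refine Set.iUnion_subset fun k => ?_
        rintro _ ⟨x, hx, rfl⟩
        exact hB x (hW1 k hx).1

end Pool.Agent.Lib.MP_cdc9ab_al
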