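import Pool.Agent.Lib.MP_cdc9ab_al.KeyDom

-- part Pool.Agent.Lib.MP_cdc9ab_al.CartanAlg
section

open scoped Matrix.Norms.Operator ContDiff Matrix
open Finset

namespace Pool.Agent.Lib.MP_cdc9ab_al.Cartan

variable {D : ℕ}

/-- Structure constants. -/
abbrev Br (D : ℕ) : Type := Fin D → Mat D

/-- The adjoint map of a bracket. -/
noncomputable def av : Br D →ₗ[ℝ] (Fin D → ℝ) →ₗ[ℝ] Mat D :=
  LinearMap.mk₂ ℝ (fun μ x => ∑ a, x a • μ a)
    (fun _ _ _ => by simp [Finset.sum_add_distrib])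
    (fun c _ _ => by simp [Finset.smul_sum, smul_comm c])
    (fun _ _ _ => by simp [add_smul, Finset.sum_add_distrib])
    (fun _ _ _ => by simp [Finset.smul_sum, mul_smul])

theorem av_apply (μ : Br D) (x) : av μ x = ∑ a, x a • μ a := rfl

theorem av_single (μ : Br D) (a : Fin D) : av μ (Pi.single a 1) = μ a := by
  simp [av_apply, Pi.single_apply]

theorem av_of_lin (f : (Fin D → ℝ) →ₗ[ℝ] Mat D) (x) :
    av (fun a => f (Pi.single a 1)) x = f x := by
  rw [av_apply]
  conv_rhs => rw [pi_eq_sum_univ' x]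
  simp only [map_sum, map_smul]

theorem br_ext {μ ν : Br D} (h : ∀ x, av μ x = av ν x) : μ = ν :=
  funext fun a => by rw [← av_single μ, h, av_single]

theorem mat_ext {A B : Mat D} (h : ∀ x, A *ᵥ x = B *ᵥ x) : A = B := by
  ext i j
  simpa using congrFun (h (Pi.single j 1)) i

theorem vec_ext {u v : Fin D → ℝ} (h : ∀ z, z ⬝ᵥ u = z ⬝ᵥ v) : u = v :=
  funext fun a => by simpa using h (Pi.single a 1)

/-- The Jacobi identity. -/
def Jac (μ : Br D) : Prop :=
  ∀ x y, av μ x * av μ y - av μ y * av μ x = av μ (av μ x *ᵥ y)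

/-- Antisymmetry. -/
def Alt (μ : Br D) : Prop := ∀ x y, av μ x *ᵥ y = -(av μ y *ᵥ x)

/-- Mixed trace form. -/
noncomputable def Kl (ν μ : Br D) : Mat D := Matrix.of fun b a => (ν a * μ b).trace

theorem tr_av (ν μ : Br D) (x z) : (av ν x * av μ z).trace = z ⬝ᵥ Kl ν μ *ᵥ x := by
  simp only [av_apply, Finset.sum_mul, Finset.mul_sum, Matrix.trace_sum, Matrix.smul_mul,
    Matrix.mul_smul, Matrix.trace_smul, dotProduct, Matrix.mulVec, Kl, Matrix.of_apply,
    smul_eq_mul]
  exact Finset.sum_congr rfl fun _ _ => Finset.sum_congr rfl fun _ _ => by ring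

/-- The action of the general linear group. -/
noncomputable def act (g : Mat D) (μ : Br D) : Br D :=
  fun a => g * av μ (g⁻¹ *ᵥ Pi.single a 1) * g⁻¹

/-- The infinitesimal action. -/
noncomputable def der (A : Mat D) (μ : Br D) : Br D :=
  fun a => A * μ a - μ a * A - av μ (A *ᵥ Pi.single a 1)

theorem av_act (g : Mat D) (μ : Br D) (x) : av (act g μ) x = g * av μ (g⁻¹ *ᵥ x) * g⁻¹ :=
  av_of_lin (LinearMap.mulRight ℝ g⁻¹ ∘ₗ LinearMap.mulLeft ℝ g ∘ₗ av μ ∘ₗ Matrix.mulVecLin g⁻¹) x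

theorem av_der (A : Mat D) (μ : Br D) (x) :
    av (der A μ) x = A * av μ x - av μ x * A - av μ (A *ᵥ x) := by
  have := av_of_lin (LinearMap.mulLeft ℝ A ∘ₗ av μ - LinearMap.mulRight ℝ A ∘ₗ av μ -
    av μ ∘ₗ Matrix.mulVecLin A) x
  simp only [LinearMap.sub_apply, LinearMap.comp_apply, LinearMap.mulLeft_apply,
    LinearMap.mulRight_apply, Matrix.mulVecLin_apply, av_single] at this
  exact this

theorem act_act (g h : Mat D) (μ : Br D) : act g (act h μ) = act (g * h) μ :=
  br_ext fun x => by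
    simp only [av_act, Matrix.mul_inv_rev, Matrix.mulVec_mulVec, mul_assoc]

theorem act_one (μ : Br D) : act 1 μ = μ := br_ext fun x => by simp [av_act]

theorem act_smul {g : Mat D} (hg : IsUnit g.det) {c : ℝ} (hc : c ≠ 0) (μ : Br D) :
    act (c⁻¹ • g) μ = c • act g μ := by
  have h : (c⁻¹ • g)⁻¹ = c • g⁻¹ := Matrix.inv_eq_right_inv (by
    rw [Matrix.smul_mul, Matrix.mul_smul, smul_smul, inv_mul_cancel₀ hc, one_smul,
      Matrix.mul_nonsing_inv _ hg])
  refine br_ext fun x => ?_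
  rw [map_smul, LinearMap.smul_apply, av_act, av_act, h, Matrix.smul_mulVec, map_smul]
  simp only [Matrix.smul_mul, Matrix.mul_smul, smul_smul]
  congr 1
  field_simp

theorem Jac.act {μ : Br D} (h : Jac μ) {g : Mat D} (hg : IsUnit g.det) : Jac (act g μ) := by
  intro x y
  simp only [av_act]
  rw [Matrix.mulVec_mulVec, ← mul_assoc g⁻¹, ← mul_assoc g⁻¹, Matrix.nonsing_inv_mul _ hg, one_mul,
    ← Matrix.mulVec_mulVec, ← h]
  have e : ∀ A B : Mat D, g * A * g⁻¹ * (g * B * g⁻¹) = g * (A * B) * g⁻¹ := fun A B => by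
    rw [show g * A * g⁻¹ * (g * B * g⁻¹) = g * A * (g⁻¹ * g) * B * g⁻¹ by noncomm_ring,
      Matrix.nonsing_inv_mul _ hg]
    noncomm_ring
  rw [e, e]
  noncomm_ring

theorem Alt.act {μ : Br D} (h : Alt μ) (g : Mat D) : Alt (act g μ) := by
  intro x y
  simp only [av_act, ← Matrix.mulVec_mulVec]
  rw [h, Matrix.mulVec_neg]

theorem tr_act {g : Mat D} (hg : IsUnit g.det) (μ : Br D) (x z) :
    (av (act g μ) x * av (act g μ) z).trace = (av μ (g⁻¹ *ᵥ x) * av μ (g⁻¹ *ᵥ z)).trace := by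
  rw [av_act, av_act]
  generalize av μ (g⁻¹ *ᵥ x) = A
  generalize av μ (g⁻¹ *ᵥ z) = B
  rw [show g * A * g⁻¹ * (g * B * g⁻¹) = g * (A * (g⁻¹ * g) * B * g⁻¹) by noncomm_ring,
    Matrix.trace_mul_comm, Matrix.nonsing_inv_mul _ hg, mul_one, mul_assoc,
    Matrix.nonsing_inv_mul _ hg, mul_one]

theorem Kl_act {g : Mat D} (hg : IsUnit g.det) (μ : Br D) :
    Kl (act g μ) (act g μ) = g⁻¹ᵀ * Kl μ μ * g⁻¹ :=
  mat_ext fun x => vec_ext fun z => by
    rw [← tr_av, tr_act hg, tr_av, ← Matrix.mulVec_mulVec, ← Matrix.mulVec_mulVec,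
      Matrix.dotProduct_mulVec z, Matrix.vecMul_transpose]

theorem det_Kl_act {g : Mat D} (hg : IsUnit g.det) (μ : Br D) :
    (Kl (act g μ) (act g μ)).det * g.det ^ 2 = (Kl μ μ).det := by
  rw [Kl_act hg, Matrix.det_mul, Matrix.det_mul, Matrix.det_transpose]
  have := Matrix.det_nonsing_inv_mul_det g hg
  calc _ = (Kl μ μ).det * (g⁻¹.det * g.det) ^ 2 := by ring
    _ = _ := by rw [this]; ring

section nondeg
variable {μ : Br D} (hK : (Kl μ μ).det ≠ 0)
include hK

theorem nd_zero {x} (h : ∀ z, (av μ x * av μ z).trace = 0) : x = 0 := by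
  have h1 : Kl μ μ *ᵥ x = 0 := vec_ext fun z => by rw [← tr_av, h, dotProduct_zero]
  rw [← Matrix.one_mulVec x, ← Matrix.nonsing_inv_mul _ (isUnit_iff_ne_zero.2 hK),
    ← Matrix.mulVec_mulVec, h1, Matrix.mulVec_zero]

theorem nd_solve (v z) : (av μ ((Kl μ μ)⁻¹ *ᵥ v) * av μ z).trace = z ⬝ᵥ v := by
  rw [tr_av, Matrix.mulVec_mulVec, Matrix.mul_nonsing_inv _ (isUnit_iff_ne_zero.2 hK),
    Matrix.one_mulVec]

theorem av_inj {x y} (h : av μ x = av μ y) : x = y :=
  sub_eq_zero.1 (nd_zero hK fun z => by rw [map_sub, h, sub_self, zero_mul, Matrix.trace_zero])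

omit hK in
theorem tr1 (A B C : Mat D) : ((A * B - B * A) * C).trace = (B * (C * A - A * C)).trace := by
  rw [sub_mul, mul_sub, Matrix.trace_sub, Matrix.trace_sub, mul_assoc, Matrix.trace_mul_comm A,
    mul_assoc, mul_assoc]

omit hK in
theorem tr2 (A B C : Mat D) : ((A * B - B * A) * C).trace = (A * (B * C - C * B)).trace := by
  rw [sub_mul, mul_sub, Matrix.trace_sub, Matrix.trace_sub, mul_assoc, mul_assoc,
    Matrix.trace_mul_comm B, mul_assoc]

theorem der_inner (hJ : Jac μ) (A : Mat D) (hA : der A μ = 0) : ∃ y, A = av μ y := by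
  set y := (Kl μ μ)⁻¹ *ᵥ fun b => (A * μ b).trace with hy
  have h1 : ∀ z, (av μ y * av μ z).trace = (A * av μ z).trace := fun z => by
    rw [hy, nd_solve hK]
    simp [av_apply, Finset.mul_sum, Matrix.trace_sum, dotProduct]
  refine ⟨y, mat_ext fun x => sub_eq_zero.1 (nd_zero hK fun z => ?_)⟩
  have h2 := av_der A μ x
  rw [hA, map_zero, LinearMap.zero_apply, eq_comm, sub_eq_zero] at h2
  rw [map_sub, ← h2, ← hJ, sub_mul, Matrix.trace_sub, tr2, tr2, hJ, h1, sub_self]

theorem h2_zero (hJ : Jac μ) (ν : Br D)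
    (h : ∀ x y, av μ x * av ν y - av ν y * av μ x + (av ν x * av μ y - av μ y * av ν x) =
      av ν (av μ x *ᵥ y) + av μ (av ν x *ᵥ y)) : ∃ A, ν = der A μ := by
  set φ := (Kl μ μ)⁻¹ * Kl ν μ with hφ
  have h1 : ∀ x z, (av μ (φ *ᵥ x) * av μ z).trace = (av ν x * av μ z).trace := fun x z => by
    rw [hφ, ← Matrix.mulVec_mulVec, nd_solve hK, tr_av]
  refine ⟨-φ, br_ext fun x => mat_ext fun y => sub_eq_zero.1 (nd_zero hK fun z => ?_)⟩
  have h2 := congrArg (fun M => (M * av μ z).trace) (h x y)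
  simp only [add_mul, Matrix.trace_add] at h2
  rw [tr1, tr2, hJ, hJ, ← h1, ← h1, ← h1, ← hJ, ← hJ, ← tr1, ← tr2, hJ, hJ] at h2
  rw [av_der]
  simp only [Matrix.sub_mulVec, Matrix.neg_mulVec, map_sub, map_neg, neg_mul, mul_neg,
    ← Matrix.mulVec_mulVec, sub_mul, Matrix.trace_sub, Matrix.trace_neg]
  linarith

end nondeg

/-- The Euclidean inner product of brackets. -/
noncomputable def ip (μ ν : Br D) : ℝ := ∑ a, (μ a * (ν a)ᵀ).trace

theorem tr_mul_transpose (A B : Mat D) : (A * Bᵀ).trace = ∑ i, ∑ j, A i j * B i j := by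
  simp [Matrix.trace, Matrix.mul_apply]

theorem tr_self_nonneg (A : Mat D) : 0 ≤ (A * Aᵀ).trace := by
  rw [tr_mul_transpose]
  exact sum_nonneg fun _ _ => sum_nonneg fun _ _ => mul_self_nonneg _

theorem sq_le_tr (A : Mat D) (i j) : A i j ^ 2 ≤ (A * Aᵀ).trace := by
  rw [tr_mul_transpose, sq]
  refine le_trans ?_ (single_le_sum (f := fun i => ∑ j, A i j * A i j)
    (fun _ _ => sum_nonneg fun _ _ => mul_self_nonneg _) (mem_univ i))
  exact single_le_sum (f := fun j => A i j * A i j) (fun _ _ => mul_self_nonneg _) (mem_univ j)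

theorem sq_le_ip (μ : Br D) (a i j) : μ a i j ^ 2 ≤ ip μ μ :=
  (sq_le_tr _ i j).trans (single_le_sum (f := fun a => (μ a * (μ a)ᵀ).trace)
    (fun _ _ => tr_self_nonneg _) (mem_univ a))

theorem ip_self_nonneg (μ : Br D) : 0 ≤ ip μ μ := sum_nonneg fun _ _ => tr_self_nonneg _

theorem eq_zero_of_ip {μ : Br D} (h : ip μ μ = 0) : μ = 0 := by
  funext a
  ext i j
  have := sq_le_ip μ a i j
  rw [h] at this
  exact pow_eq_zero_iff two_ne_zero |>.1 (le_antisymm this (sq_nonneg _))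

theorem ip_comm (μ ν : Br D) : ip μ ν = ip ν μ :=
  sum_congr rfl fun a _ => by
    rw [← Matrix.trace_transpose, Matrix.transpose_mul, Matrix.transpose_transpose]

theorem ip_der (A : Mat D) (μ ν : Br D) : ip (der A μ) ν = ip μ (der Aᵀ ν) := by
  simp only [ip, der, sub_mul, mul_sub, Matrix.transpose_sub, Matrix.trace_sub,
    Finset.sum_sub_distrib, Matrix.transpose_mul, Matrix.transpose_transpose]
  congr 1
  · congr 1
    · exact sum_congr rfl fun a _ => by rw [mul_assoc, Matrix.trace_mul_comm, mul_assoc]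
    · exact sum_congr rfl fun a _ => by rw [mul_assoc]
  · simp only [av_apply, Matrix.mulVec_single_one, Finset.sum_mul, Finset.mul_sum,
      Matrix.trace_sum, Matrix.transpose_sum, Matrix.transpose_smul, Matrix.smul_mul,
      Matrix.mul_smul, Matrix.trace_smul, Matrix.col_apply, Matrix.transpose_apply]
    exact Finset.sum_comm

theorem der_comm (A B : Mat D) (μ : Br D) :
    der A (der B μ) = der (A * B - B * A) μ + der B (der A μ) :=
  br_ext fun x => by
    simp only [map_add, LinearMap.add_apply, av_der, Matrix.sub_mulVec, map_sub,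
      Matrix.mulVec_mulVec]
    noncomm_ring

theorem der_zero (A : Mat D) : der A (0 : Br D) = 0 := by
  funext a
  simp [der]

theorem der_transpose {μ : Br D} (hc : ∀ A : Mat D, A.trace = 0 → ip (der A μ) μ = 0)
    {A : Mat D} (hA : der A μ = 0) : der Aᵀ μ = 0 := by
  apply eq_zero_of_ip
  rw [ip_der, Matrix.transpose_transpose, der_comm, hA, der_zero, add_zero, ip_comm]
  exact hc _ (by rw [Matrix.trace_sub, Matrix.trace_mul_comm, sub_self])

theorem diag_sym (K : Mat D) (h : Kᵀ = K) :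
    ∃ (U : Mat D) (l : Fin D → ℝ), Uᵀ * U = 1 ∧ Uᵀ * K * U = Matrix.diagonal l := by
  have hK : K.IsHermitian := h
  refine ⟨hK.eigenvectorUnitary, hK.eigenvalues, ?_, ?_⟩
  · exact hK.eigenvectorUnitary.2.1
  · have := hK.conjStarAlgAut_star_eigenvectorUnitary
    rw [Unitary.conjStarAlgAut_apply] at this
    simp only [Unitary.coe_star, star_star] at this
    exact this

theorem simul_diag (G K : Mat D) (hG : Gᵀ = G) (hK : Kᵀ = K)
    (hpos : ∀ x, x ≠ 0 → 0 < x ⬝ᵥ G *ᵥ x) :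
    ∃ (P : Mat D) (s : Fin D → ℝ), Pᵀ * G * P = 1 ∧ Pᵀ * K * P = Matrix.diagonal s := by
  obtain ⟨U, l, h1, h2⟩ := diag_sym G hG
  have hl : ∀ a, 0 < l a := by
    intro a
    have := hpos (U *ᵥ Pi.single a 1) fun h => by
      have h3 := congrArg (fun v => (Uᵀ *ᵥ v) a) h
      simp only [Matrix.mulVec_mulVec, h1, Matrix.one_mulVec, Matrix.mulVec_zero] at h3
      simp at h3
    rw [← Matrix.vecMul_transpose, ← Matrix.dotProduct_mulVec, Matrix.vecMul_transpose,
      Matrix.mulVec_mulVec, Matrix.mulVec_mulVec, h2] at this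
    simpa using this
  set Q := U * Matrix.diagonal fun a => (√(l a))⁻¹ with hQ
  have h3 : Qᵀ * G * Q = 1 := by
    rw [hQ, Matrix.transpose_mul, Matrix.diagonal_transpose,
      show ∀ A : Mat D, A * Uᵀ * G * (U * A) = A * (Uᵀ * G * U) * A from fun A => by noncomm_ring,
      h2, Matrix.diagonal_mul_diagonal, Matrix.diagonal_mul_diagonal, ← Matrix.diagonal_one]
    congr 1
    funext a
    have := Real.mul_self_sqrt (hl a).le
    have h0 := (Real.sqrt_pos.2 (hl a)).ne'
    field_simp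
    linarith
  clear_value Q
  obtain ⟨V, s, h4, h5⟩ := diag_sym (Qᵀ * K * Q) (by
    rw [Matrix.transpose_mul, Matrix.transpose_mul, Matrix.transpose_transpose, hK, mul_assoc])
  refine ⟨Q * V, s, ?_, ?_⟩
  · rw [Matrix.transpose_mul,
      show Vᵀ * Qᵀ * G * (Q * V) = Vᵀ * (Qᵀ * G * Q) * V by noncomm_ring, h3, mul_one, h4]
  · rw [Matrix.transpose_mul, ← h5]
    noncomm_ring

theorem ldata_of_transpose {μ : Br D} (hK : (Kl μ μ).det ≠ 0) (hJ : Jac μ) (hA : Alt μ)
    (hT : ∀ a, ∃ y, (μ a)ᵀ = av μ y) : ∃ (g : Mat D) (L : LData D), IsUnit g.det ∧ L.ad = act g μ := by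
  choose y hy using hT
  set S : Mat D := (Matrix.of y)ᵀ with hS
  have hS1 : ∀ x, (av μ x)ᵀ = av μ (S *ᵥ x) := by
    intro x
    have e : S *ᵥ x = ∑ a, x a • y a := by
      funext b
      simp [hS, Matrix.mulVec, dotProduct, mul_comm]
    rw [e, map_sum, av_apply]
    simp only [Matrix.transpose_sum, Matrix.transpose_smul, hy, map_smul]
  set G := Kl μ fun a => (μ a)ᵀ with hGdef
  have hG : ∀ x z, (av μ x * (av μ z)ᵀ).trace = z ⬝ᵥ G *ᵥ x := fun x z => by
    rw [hGdef, ← tr_av]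
    simp only [av_apply, Matrix.transpose_sum, Matrix.transpose_smul]
  have hGs : Gᵀ = G := by
    ext a b
    simp only [hGdef, Kl, Matrix.transpose_apply, Matrix.of_apply]
    rw [← Matrix.trace_transpose, Matrix.transpose_mul, Matrix.transpose_transpose]
  obtain ⟨P, s, h1, h2⟩ := simul_diag G (Kl μ μ) hGs (by
    ext a b
    simp only [Kl, Matrix.transpose_apply, Matrix.of_apply]
    rw [Matrix.trace_mul_comm]) (fun x hx => by
    rw [← hG]
    refine lt_of_le_of_ne (tr_self_nonneg _) fun h => hx (av_inj hK ?_)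
    rw [map_zero]
    ext i j
    have := sq_le_tr (av μ x) i j
    rw [← h] at this
    exact pow_eq_zero_iff two_ne_zero |>.1 (le_antisymm this (sq_nonneg _)))
  have hc : ∀ x, G * av μ x = av μ x * G := fun x => mat_ext fun u => vec_ext fun z => by
    rw [← Matrix.mulVec_mulVec, ← Matrix.mulVec_mulVec, ← hG, Matrix.dotProduct_mulVec z,
      ← Matrix.mulVec_transpose, hS1 x, ← hG, ← hJ, ← hJ, tr1, ← hS1 x, Matrix.transpose_sub,
      Matrix.transpose_mul, Matrix.transpose_mul, Matrix.transpose_transpose]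
  set Q := Pᵀ * G with hQ
  have h1' : P * Q = 1 := mul_eq_one_comm.1 h1
  have hQu : IsUnit Q.det := Matrix.isUnit_det_of_right_inverse h1
  have hQi : Q⁻¹ = P := Matrix.inv_eq_right_inv h1
  set ν := act Q μ with hν
  have t1 : ∀ x, (av ν x)ᵀ = av ν ((Q * S * P) *ᵥ x) := fun x => by
    rw [hν, av_act, av_act, hQi, Matrix.mulVec_mulVec, ← mul_assoc, ← mul_assoc, h1', one_mul,
      Matrix.transpose_mul, Matrix.transpose_mul, hS1, Matrix.mulVec_mulVec, hQ,
      Matrix.transpose_mul, hGs, Matrix.transpose_transpose, ← mul_assoc _ G, ← hc]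
    noncomm_ring
  have t2 : ∀ x z, (av ν x * av ν z).trace = z ⬝ᵥ Matrix.diagonal s *ᵥ x := fun x z => by
    rw [tr_av, hν, Kl_act hQu, hQi, h2]
  have t3 : ∀ x z, (av ν x * (av ν z)ᵀ).trace = z ⬝ᵥ x := fun x z => by
    rw [t1, hν, tr_act hQu, hQi, Matrix.mulVec_mulVec, ← mul_assoc, ← mul_assoc, h1', one_mul,
      ← Matrix.mulVec_mulVec, ← hS1, hG, ← Matrix.vecMul_transpose, ← Matrix.dotProduct_mulVec,
      Matrix.mulVec_mulVec, Matrix.mulVec_mulVec, h1, Matrix.one_mulVec]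
  have hKν : (Kl ν ν).det ≠ 0 := fun h => hK (by rw [← det_Kl_act hQu, ← hν, h, zero_mul])
  set S' := Q * S * P
  have t4 : Matrix.diagonal s * S' = 1 := mat_ext fun z => vec_ext fun x => by
    rw [← Matrix.mulVec_mulVec, ← t2, ← t1, Matrix.trace_mul_comm, t3, Matrix.one_mulVec,
      dotProduct_comm]
  have t5 : S' * S' = 1 := mat_ext fun x => av_inj hKν (by
    rw [← Matrix.mulVec_mulVec, ← t1, ← t1, Matrix.transpose_transpose, Matrix.one_mulVec])
  have t6 : S' = Matrix.diagonal s := by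
    rw [← one_mul S', ← t4, mul_assoc, t5, mul_one]
  refine ⟨Q, ⟨ν, s, fun a => ?_, fun a b => ?_, fun a b c => ?_, fun a => ?_, fun a b => ?_⟩,
    hQu, rfl⟩
  · rw [t6, Matrix.diagonal_mul_diagonal] at t4
    have := congrFun (congrFun t4 a) a
    simp only [Matrix.diagonal_apply_eq, Matrix.one_apply_eq] at this
    exact mul_self_eq_one_iff.1 this
  · have := (hJ.act hQu) (Pi.single a 1) (Pi.single b 1)
    rw [av_single, av_single, Matrix.mulVec_single_one] at this
    exact this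
  · have := congrFun ((hA.act Q) (Pi.single a 1) (Pi.single b 1)) c
    rw [av_single, av_single, Matrix.mulVec_single_one, Matrix.mulVec_single_one] at this
    exact this
  · rw [← av_single ν, t1, t6, Matrix.diagonal_mulVec_single, ← map_smul, ← Pi.single_smul,
      smul_eq_mul]
  · rw [← av_single ν a, ← av_single ν b, t3]
    simp [Pi.single_apply]

end Pool.Agent.Lib.MP_cdc9ab_al.Cartan
end

-- part Pool.Agent.Lib.MP_cdc9ab_al.Cartan
section

open scoped Matrix.Norms.Operator ContDiff Matrix Topology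
open Finset Filter

namespace Pool.Agent.Lib.MP_cdc9ab_al.Cartan

variable {D : ℕ}

/-- A bilinear map between finite dimensional spaces as a continuous bilinear map. -/
noncomputable def toC2 {E F G : Type} [NormedAddCommGroup E] [NormedSpace ℝ E]
    [FiniteDimensional ℝ E] [NormedAddCommGroup F] [NormedSpace ℝ F] [FiniteDimensional ℝ F]
    [NormedAddCommGroup G] [NormedSpace ℝ G] (B : E →ₗ[ℝ] F →ₗ[ℝ] G) : E →L[ℝ] F →L[ℝ] G :=
  LinearMap.toContinuousLinearMap
    ((LinearMap.toContinuousLinearMap : (F →ₗ[ℝ] G) ≃ₗ[ℝ] F →L[ℝ] G).toLinearMap ∘ₗ B)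

theorem toC2_apply {E F G : Type} [NormedAddCommGroup E] [NormedSpace ℝ E]
    [FiniteDimensional ℝ E] [NormedAddCommGroup F] [NormedSpace ℝ F] [FiniteDimensional ℝ F]
    [NormedAddCommGroup G] [NormedSpace ℝ G] (B : E →ₗ[ℝ] F →ₗ[ℝ] G) (x y) :
    toC2 B x y = B x y := rfl

@[fun_prop]
theorem continuous_av {X : Type} [TopologicalSpace X] {f : X → Br D} {g : X → Fin D → ℝ}
    (hf : Continuous f) (hg : Continuous g) : Continuous fun t => av (f t) (g t) := by
  simp only [av_apply]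
  fun_prop

theorem closed_jac : IsClosed {μ : Br D | Jac μ} := by
  simp only [Jac, Set.ofPred_forall]
  refine isClosed_iInter fun x => isClosed_iInter fun y => isClosed_eq (by fun_prop) ?_
  exact continuous_av continuous_id
    ((continuous_av continuous_id continuous_const).matrix_mulVec continuous_const)

theorem closed_alt : IsClosed {μ : Br D | Alt μ} := by
  simp only [Alt, Set.ofPred_forall]
  exact isClosed_iInter fun x => isClosed_iInter fun y => isClosed_eq
    ((continuous_av continuous_id continuous_const).matrix_mulVec continuous_const)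
    ((continuous_av continuous_id continuous_const).matrix_mulVec continuous_const).neg

theorem continuous_act (g : Mat D) : Continuous (act g) := by
  unfold act
  fun_prop

theorem continuous_ip : Continuous fun μ : Br D => ip μ μ := by
  simp only [ip, tr_mul_transpose]
  fun_prop

theorem continuous_det : Continuous fun μ : Br D => (Kl μ μ).det := by
  refine Continuous.matrix_det (continuous_matrix fun b a => ?_)
  simp only [Kl, Matrix.of_apply]
  exact Continuous.matrix_trace (by fun_prop)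

theorem strict_act (μ : Br D) : ∃ T : (Mat D × Br D) →L[ℝ] Br D,
    HasStrictFDerivAt (fun p : Mat D × Br D => act p.1 p.2) T (1, μ) ∧
      ∀ A w, T (A, w) = der A μ + w := by
  obtain ⟨I, h1, hI⟩ : ∃ I : (Mat D × Br D) →L[ℝ] Mat D,
      HasStrictFDerivAt (fun p : Mat D × Br D => p.1⁻¹) I (1, μ) ∧ ∀ p, I p = -p.1 := by
    have := (hasStrictFDerivAt_ringInverse (𝕜 := ℝ) (1 : (Mat D)ˣ)).comp (1, μ)
      (hasStrictFDerivAt_fst (𝕜 := ℝ) (p := ((1 : Mat D), μ)))
    simp only [Matrix.nonsing_inv_eq_ringInverse]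
    refine ⟨_, this, fun p => ?_⟩
    show -(((1⁻¹ : (Mat D)ˣ) : Mat D) * p.1 * ((1⁻¹ : (Mat D)ˣ) : Mat D)) = _
    simp
  have h2 := fun a : Fin D => ((hasStrictFDerivAt_fst (𝕜 := ℝ) (p := ((1 : Mat D), μ))).mul'
    ((toC2 av).hasStrictFDerivAt_of_bilinear (hasStrictFDerivAt_snd (p := ((1 : Mat D), μ)))
      ((LinearMap.toContinuousLinearMap (LinearMap.flip (Matrix.mulVecBilin ℝ ℝ)
        (Pi.single a 1 : Fin D → ℝ))).hasStrictFDerivAt.comp (1, μ) h1))).mul' h1
  refine ⟨_, hasStrictFDerivAt_pi.2 h2, fun A w => ?_⟩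
  funext a
  show (1 * av μ ((1 : Mat D)⁻¹ *ᵥ Pi.single a 1)) * I (A, w) +
    (1 * (av μ (I (A, w) *ᵥ Pi.single a 1) + av w ((1 : Mat D)⁻¹ *ᵥ Pi.single a 1)) +
      A * av μ ((1 : Mat D)⁻¹ *ᵥ Pi.single a 1)) * (1 : Mat D)⁻¹ = der A μ a + w a
  simp only [hI, inv_one, Matrix.one_mulVec, av_single, Matrix.neg_mulVec, map_neg, der]
  noncomm_ring

/-- The polarised Jacobi identity. -/
noncomputable def JJ : Br D →ₗ[ℝ] Br D →ₗ[ℝ] (Fin D → Fin D → Mat D) :=
  LinearMap.mk₂ ℝ (fun μ ν a b => μ a * ν b - ν b * μ a - av ν (μ a *ᵥ Pi.single b 1))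
    (fun _ _ _ => by
      funext a b
      simp only [Pi.add_apply, Matrix.add_mulVec, map_add]
      noncomm_ring)
    (fun c _ _ => by
      funext a b
      simp only [Pi.smul_apply, Matrix.smul_mulVec, map_smul, smul_sub, Matrix.smul_mul,
        Matrix.mul_smul])
    (fun _ _ _ => by
      funext a b
      simp only [Pi.add_apply, map_add, LinearMap.add_apply]
      noncomm_ring)
    (fun c _ _ => by
      funext a b
      simp only [Pi.smul_apply, map_smul, smul_sub, Matrix.smul_mul, Matrix.mul_smul,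
        LinearMap.smul_apply])

theorem JJ_sum (μ ν : Br D) (x y) : ∑ a, ∑ b, (x a * y b) • JJ μ ν a b =
    av μ x * av ν y - av ν y * av μ x - av ν (av μ x *ᵥ y) := by
  have h : ∀ a, ∑ b, y b • JJ μ ν a b = μ a * av ν y - av ν y * μ a - av ν (μ a *ᵥ y) := by
    intro a
    have := av_of_lin (LinearMap.mulLeft ℝ (μ a) ∘ₗ av ν - LinearMap.mulRight ℝ (μ a) ∘ₗ av ν -
      av ν ∘ₗ Matrix.mulVecLin (μ a)) y
    simp only [LinearMap.sub_apply, LinearMap.comp_apply, LinearMap.mulLeft_apply,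
      LinearMap.mulRight_apply, Matrix.mulVecLin_apply, av_single] at this
    exact this
  simp only [mul_smul, ← Finset.smul_sum, h]
  simp only [av_apply μ, smul_sub, Finset.sum_sub_distrib, Finset.sum_mul, Finset.mul_sum,
    Matrix.smul_mul, Matrix.mul_smul, Matrix.sum_mulVec, Matrix.smul_mulVec, map_sum, map_smul]

theorem JJ_of_jac {μ : Br D} (h : Jac μ) : JJ μ μ = 0 := by
  funext a b
  have := h (Pi.single a 1) (Pi.single b 1)
  rw [av_single, av_single] at this
  exact sub_eq_zero.2 this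

theorem rigid {μ : Br D} (hK : (Kl μ μ).det ≠ 0) (hJ : Jac μ) :
    ∀ᶠ ν in 𝓝 μ, Jac ν → ∃ g : Mat D, IsUnit g.det ∧ ν = act g μ := by
  set δ : Br D →ₗ[ℝ] (Fin D → Fin D → Mat D) := JJ μ + JJ.flip μ with hδ
  obtain ⟨W, hW⟩ := (LinearMap.ker δ).exists_isCompl
  obtain ⟨T, hT, hT'⟩ := strict_act μ
  have : CompleteSpace W := W.closed_of_finiteDimensional.completeSpace_coe
  have ha : HasStrictFDerivAt (fun w : W => μ + (w : Br D)) W.subtypeL 0 :=
    W.subtypeL.hasStrictFDerivAt.const_add μ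
  have hb : HasStrictFDerivAt (fun p : Mat D × W => (p.1, μ + (p.2 : Br D)))
      ((ContinuousLinearMap.fst ℝ (Mat D) W).prod
        (W.subtypeL.comp (ContinuousLinearMap.snd ℝ (Mat D) W))) (1, 0) :=
    hasStrictFDerivAt_fst.prodMk
      ((W.subtypeL.comp (ContinuousLinearMap.snd ℝ (Mat D) W)).hasStrictFDerivAt.const_add μ)
  have hT2 : HasStrictFDerivAt (fun p : Mat D × Br D => act p.1 p.2) T
      ((fun p : Mat D × W => (p.1, μ + (p.2 : Br D))) (1, 0)) := by simpa using hT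
  have hmap := (hT2.comp ((1 : Mat D), (0 : W)) hb).map_nhds_eq_of_surj (by
    rw [LinearMap.range_eq_top]
    intro ν
    obtain ⟨z, hz, w, hw, rfl⟩ := Submodule.mem_sup.1 (hW.sup_eq_top ▸ Submodule.mem_top (x := ν))
    obtain ⟨A, rfl⟩ := h2_zero hK hJ z fun x y => by
      have h1 := JJ_sum μ z x y
      have h2 := JJ_sum z μ x y
      have h3 : ∀ a b, JJ μ z a b + JJ z μ a b = 0 := fun a b =>
        congrFun (congrFun (LinearMap.mem_ker.1 hz) a) b
      have h4 := congrArg₂ (· + ·) h1 h2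
      simp only [← Finset.sum_add_distrib, ← smul_add, h3, smul_zero, Finset.sum_const_zero] at h4
      rw [← sub_eq_zero, h4]
      abel
    exact ⟨(A, ⟨w, hw⟩), hT' A w⟩)
  have hc := ((toC2 JJ).hasStrictFDerivAt_of_bilinear ha ha).hasFDerivAt.eventually_ne (c := 0) (by
    obtain ⟨K, -, hK⟩ := LinearMap.exists_antilipschitzWith (δ ∘ₗ W.subtype) (by
      rw [LinearMap.ker_comp, ← Submodule.disjoint_iff_comap_eq_bot]
      exact hW.disjoint.symm)
    refine ⟨K, ?_⟩
    convert hK using 1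
    funext w
    simp [toC2_apply, hδ]
    rfl)
  rw [eventually_nhdsWithin_iff] at hc
  have hd : ∀ᶠ g : Mat D in 𝓝 1, IsUnit g.det := by
    have : ∀ᶠ g : Mat D in 𝓝 1, g.det ≠ 0 :=
      (continuous_id.matrix_det).continuousAt.eventually_ne (by simp)
    exact this.mono fun g hg => isUnit_iff_ne_zero.2 hg
  have he := hd.prod_nhds hc
  simp only [Function.comp_def, Submodule.coe_zero, add_zero, act_one] at hmap
  refine Eventually.filter_mono hmap.ge (eventually_map.2 ?_)
  filter_upwards [he] with p hp hj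
  refine ⟨p.1, hp.1, ?_⟩
  have h1 := hj.act (Matrix.isUnit_nonsing_inv_det _ hp.1)
  rw [act_act, Matrix.nonsing_inv_mul _ hp.1, act_one] at h1
  have h2 : p.2 = 0 := by
    by_contra h
    exact hp.2 h (JJ_of_jac h1)
  rw [h2, Submodule.coe_zero, add_zero]

/-- The inner product as a bilinear map. -/
noncomputable def ipL : Br D →ₗ[ℝ] Br D →ₗ[ℝ] ℝ :=
  LinearMap.mk₂ ℝ ip
    (fun _ _ _ => by simp [ip, add_mul, Finset.sum_add_distrib])
    (fun _ _ _ => by simp [ip, Finset.mul_sum])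
    (fun _ _ _ => by simp [ip, mul_add, Finset.sum_add_distrib])
    (fun _ _ _ => by simp [ip, Finset.mul_sum])

theorem critical {μ : Br D}
    (h : ∀ g : Mat D, IsUnit g.det → 0 < ip (act g μ) (act g μ) →
      ip μ μ ^ D ≤ ip (act g μ) (act g μ) ^ D * g.det ^ 2)
    (A : Mat D) (hA : A.trace = 0) : ip (der A μ) μ = 0 := by
  rcases (ip_self_nonneg μ).eq_or_lt with h0 | h0
  · rw [eq_zero_of_ip h0.symm]; simp [ip]
  have hD : D ≠ 0 := by
    rintro rfl
    simp [ip] at h0
  obtain ⟨T, hT, hT'⟩ := strict_act μ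
  have h1 : HasDerivAt (fun t : ℝ => ((1 : Mat D) + t • A, μ)) (A, 0) 0 := by
    have := (((hasDerivAt_id (0 : ℝ)).smul_const A).const_add 1).prodMk
      (hasDerivAt_const (0 : ℝ) μ)
    rw [one_smul] at this
    exact this
  have h2 : HasDerivAt (fun t : ℝ => act (1 + t • A) μ) (der A μ) 0 := by
    have := HasFDerivAt.comp_hasDerivAt (l := fun p : Mat D × Br D => act p.1 p.2) (l' := T) 0
      (by rw [zero_smul, add_zero]; exact hT.hasFDerivAt) h1
    exact this.congr_deriv ((hT' A 0).trans (add_zero _))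
  have h3 : HasDerivAt (fun t : ℝ => ip (act (1 + t • A) μ) (act (1 + t • A) μ))
      (2 * ip (der A μ) μ) 0 := by
    refine ((toC2 ipL).hasDerivAt_of_bilinear (fun _ => h2) (fun _ => h2)).congr_deriv ?_
    rw [zero_smul, add_zero, act_one]
    change ip μ (der A μ) + ip (der A μ) μ = _
    rw [ip_comm μ]
    ring
  have h4 : HasDerivAt (fun t : ℝ => ((1 : Mat D) + t • A).det) 0 0 := by
    obtain ⟨q, hq⟩ : ∃ q : Polynomial ℝ, ∀ t : ℝ,
        ((1 : Mat D) + t • A).det = 1 + q.eval t * t ^ 2 :=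
      ⟨_, fun t => by rw [Matrix.det_one_add_smul, hA, zero_mul, add_zero]⟩
    simp only [hq]
    exact (((q.hasDerivAt (0 : ℝ)).mul (hasDerivAt_pow 2 (0 : ℝ))).const_add 1).congr_deriv
      (by simp)
  have h5 : IsLocalMin (fun t : ℝ => ip (act (1 + t • A) μ) (act (1 + t • A) μ) ^ D *
      ((1 : Mat D) + t • A).det ^ 2) 0 := by
    filter_upwards [h3.continuousAt.eventually (lt_mem_nhds (by simpa [act_one] using h0)),
      h4.continuousAt.eventually_ne (y := 0) (by simp)] with t ht ht'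
    simpa [act_one] using h _ (isUnit_iff_ne_zero.2 ht') ht
  have h6 := h5.hasDerivAt_eq_zero ((h3.pow D).mul (h4.pow 2))
  simpa [act_one, hD, h0.ne'] using h6

theorem core {μ0 : Br D} (hK : (Kl μ0 μ0).det ≠ 0) (hJ : Jac μ0) (hA : Alt μ0) :
    ∃ (g : Mat D) (L : LData D), IsUnit g.det ∧ L.ad = act g μ0 := by
  set O : Set (Br D) := {ν | ∃ g : Mat D, IsUnit g.det ∧ ν = act g μ0} with hO
  have h0 : μ0 ∈ O := ⟨1, by simp, (act_one μ0).symm⟩
  have hinv : ∀ g : Mat D, IsUnit g.det → Set.MapsTo (act g) (closure O) (closure O) := by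
    intro g hg
    refine Set.MapsTo.closure ?_ (continuous_act g)
    rintro _ ⟨h, hh, rfl⟩
    exact ⟨g * h, by rw [Matrix.det_mul]; exact hg.mul hh, act_act g h μ0⟩
  have hJO : closure O ⊆ {μ | Jac μ} := closure_minimal (by
    rintro _ ⟨h, hh, rfl⟩; exact hJ.act hh) closed_jac
  have hAO : closure O ⊆ {μ | Alt μ} := closure_minimal (by
    rintro _ ⟨h, -, rfl⟩; exact hA.act h) closed_alt
  have hC : IsCompact (closure O ∩ {μ | ip μ μ ≤ ip μ0 μ0}) := by
    refine (isCompact_univ_pi fun _ => isCompact_univ_pi fun _ => isCompact_univ_pi fun _ =>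
      isCompact_Icc (a := -√(ip μ0 μ0)) (b := √(ip μ0 μ0))).of_isClosed_subset
      (isClosed_closure.inter (isClosed_le continuous_ip continuous_const)) ?_
    rintro μ ⟨-, hμ⟩ a - i - j -
    exact abs_le.1 (Real.abs_le_sqrt ((sq_le_ip μ a i j).trans hμ))
  obtain ⟨μ, ⟨hμ, hμ'⟩, hmax⟩ := hC.exists_isMaxOn ⟨μ0, subset_closure h0, le_refl (ip μ0 μ0)⟩
    (continuous_det.abs).continuousOn
  have hKμ : (Kl μ μ).det ≠ 0 := by
    have : |(Kl μ0 μ0).det| ≤ |(Kl μ μ).det| := hmax ⟨subset_closure h0, le_refl (ip μ0 μ0)⟩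
    exact abs_pos.1 ((abs_pos.2 hK).trans_le this)
  have hcrit := critical (μ := μ) fun g hg hpos => by
    rcases (ip_self_nonneg μ).eq_or_lt with h1 | h1
    · have := hg.ne_zero
      have h2 := det_Kl_act hg μ
      rw [eq_zero_of_ip h1.symm] at hpos
      simp [ip, act] at hpos
    set n := ip (act g μ) (act g μ) with hn
    set c := √(ip μ μ / n) with hc
    have hc0 : 0 < c := Real.sqrt_pos.2 (div_pos h1 hpos)
    have hc2 : c ^ 2 * n = ip μ μ := by
      rw [hc, Real.sq_sqrt (div_pos h1 hpos).le]; field_simp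
    have hu : IsUnit (c⁻¹ • g).det := by
      rw [Matrix.det_smul]
      exact (IsUnit.mk0 _ (by positivity)).mul hg
    have h2 : |(Kl (act (c⁻¹ • g) μ) (act (c⁻¹ • g) μ)).det| ≤ |(Kl μ μ).det| :=
      hmax ⟨hinv _ hu hμ, by
        change ipL (act (c⁻¹ • g) μ) (act (c⁻¹ • g) μ) ≤ _
        rw [act_smul hg hc0.ne', map_smul, map_smul, LinearMap.smul_apply, smul_eq_mul,
          smul_eq_mul, ← mul_assoc, ← sq]
        exact hc2.le.trans hμ'⟩
    have h3 := congrArg abs (det_Kl_act hu μ)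
    rw [abs_mul, abs_of_nonneg (sq_nonneg (c⁻¹ • g).det)] at h3
    have h4 : 1 ≤ (c⁻¹ • g).det ^ 2 := by
      have h5 := abs_pos.2 hKμ
      refine le_of_mul_le_mul_left (a := |(Kl μ μ).det|) ?_ h5
      rw [mul_one]
      conv_lhs => rw [← h3]
      exact mul_le_mul_of_nonneg_right h2 (sq_nonneg _)
    rw [Matrix.det_smul, Fintype.card_fin, mul_pow, inv_pow, inv_pow,
      le_inv_mul_iff₀ (by positivity), mul_one] at h4
    rw [← hc2, mul_pow, mul_comm, ← pow_mul, mul_comm 2 D, pow_mul]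
    exact mul_le_mul_of_nonneg_left h4 (by positivity)
  obtain ⟨g, L, hg, hL⟩ := ldata_of_transpose hKμ (hJO hμ) (hAO hμ) fun a =>
    der_inner hKμ (hJO hμ) _ (der_transpose hcrit (br_ext fun x => by
      rw [av_der, ← av_single μ a, hJO hμ, sub_self, map_zero, LinearMap.zero_apply]))
  obtain ⟨ν, h1, h, hh, rfl⟩ := mem_closure_iff_nhds.1 hμ _ (rigid hKμ (hJO hμ))
  obtain ⟨k, hk, e⟩ := h1 (hJ.act hh)
  refine ⟨g * (k⁻¹ * h), L, ?_, ?_⟩
  · rw [Matrix.det_mul, Matrix.det_mul]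
    exact hg.mul ((Matrix.isUnit_nonsing_inv_det _ hk).mul hh)
  · rw [← act_act, ← act_act, e, act_act k⁻¹, Matrix.nonsing_inv_mul _ hk, act_one, hL]

end Pool.Agent.Lib.MP_cdc9ab_al.Cartan

namespace Pool.Agent.Lib.MP_cdc9ab_al

attribute [local instance 100] LieRing.ofAssociativeRing in
open Cartan in
theorem exists_ldata (g : Type) [LieRing g] [LieAlgebra ℝ g] [FiniteDimensional ℝ g]
    [LieAlgebra.IsSemisimple ℝ g] :
    ∃ (D : ℕ) (L : LData D) (e : Module.Basis (Fin D) ℝ g),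
      ∀ a, L.ad a = LinearMap.toMatrix e e (LieAlgebra.ad ℝ g (e a)) := by
  set e := Module.finBasis ℝ g
  set μ : Br (Module.finrank ℝ g) := fun a => LinearMap.toMatrix e e (LieAlgebra.ad ℝ g (e a))
    with hμ
  have h1 : ∀ x, av μ x = LinearMap.toMatrix e e (LieAlgebra.ad ℝ g (e.equivFun.symm x)) := by
    intro x
    simp only [av_apply, hμ, Module.Basis.equivFun_symm_apply, map_sum, map_smul]
  have h2 : ∀ x y, av μ x *ᵥ y = e.equivFun ⁅e.equivFun.symm x, e.equivFun.symm y⁆ := by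
    intro x y
    have := LinearMap.toMatrix_mulVec_repr e e (LieAlgebra.ad ℝ g (e.equivFun.symm x))
      (e.equivFun.symm y)
    rw [← Module.Basis.equivFun_apply, LinearEquiv.apply_symm_apply] at this
    rw [h1, this]
    rfl
  have hJ : Jac μ := fun x y => by
    rw [h2, h1, h1, h1, LinearEquiv.symm_apply_apply, LieHom.map_lie, Ring.lie_def,
      map_sub, LinearMap.toMatrix_mul, LinearMap.toMatrix_mul]
  have hA : Alt μ := fun x y => by rw [h2, h2, ← map_neg, lie_skew]
  have hK : (Kl μ μ).det ≠ 0 := by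
    intro h
    obtain ⟨v, hv, h3⟩ := Matrix.exists_mulVec_eq_zero_iff.2 h
    apply hv
    have h4 := (LieAlgebra.IsKilling.killingForm_nondegenerate ℝ g).1 (e.equivFun.symm v) fun z => by
      have := tr_av μ μ v (e.equivFun z)
      rw [h3, dotProduct_zero, h1, h1, LinearEquiv.symm_apply_apply, ← LinearMap.toMatrix_mul,
        ← LinearMap.trace_eq_matrix_trace] at this
      exact this
    exact e.equivFun.symm.injective (h4.trans (map_zero _).symm)
  obtain ⟨p, L, hp, hL⟩ := core hK hJ hA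
  have hp' := Matrix.isUnit_nonsing_inv_det _ hp
  refine ⟨_, L, e.map (Matrix.toLinearEquiv e p⁻¹ hp'), fun a => ?_⟩
  set e' := e.map (Matrix.toLinearEquiv e p⁻¹ hp') with he'
  have h3 : e.toMatrix e' = p⁻¹ := by
    ext i j
    simp [he', Module.Basis.toMatrix_apply, Matrix.toLin_self, Finsupp.single_apply]
  have h4 : e'.toMatrix e = p := by
    rw [← Matrix.nonsing_inv_nonsing_inv p hp, ← h3]
    exact (Matrix.inv_eq_left_inv (Module.Basis.toMatrix_mul_toMatrix_flip e' e)).symm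
  rw [← basis_toMatrix_mul_linearMap_toMatrix_mul_basis_toMatrix e' e e' e, h3, h4, hL, Cartan.act, h1]
  congr 4
  simp [he', Matrix.toLin_self]

end Pool.Agent.Lib.MP_cdc9ab_al
end
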