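import Pool.Agent.Lib.MP_cdc9ab_al.GromovCount
import Pool.Agent.Lib.MP_cdc9ab_al.Sqrt
import Pool.Agent.Lib.MP_cdc9ab_al.BBound
import Pool.Agent.Lib.MP_cdc9ab_al.BDer


open scoped Matrix.Norms.Operator ContDiff Matrix Topology
open Finset Filter Complex

namespace Pool.Agent.Lib.MP_cdc9ab_al

section wsum
variable {V I : Type} [AddCommGroup V] [Module ℝ V] [Fintype I] (β : I → V) {n : ℕ}

theorem wsum_add (c c' : (Fin n → I) → ℝ) :
    wsum β (fun a => c a + c' a) = wsum β c + wsum β c' := by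
  simp only [wsum, add_smul, Finset.sum_add_distrib]

theorem wsum_mul (r : ℝ) (c : (Fin n → I) → ℝ) : wsum β (fun a => r * c a) = r • wsum β c := by
  simp only [wsum, mul_smul, Finset.smul_sum]

theorem wsum_sum {J : Type} (s : Finset J) (c : J → (Fin n → I) → ℝ) :
    wsum β (fun a => ∑ j ∈ s, c j a) = ∑ j ∈ s, wsum β (c j) := by
  simp only [wsum, Finset.sum_smul]
  exact Finset.sum_comm

theorem prod_io_rev (v : Fin n → V) : (List.ofFn fun i => io (v i.rev)).prod =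
    (∏ i ∈ range n, (-1 : ℝ) ^ i) • (List.ofFn fun i => io (v i)).prod := by
  induction n with
  | zero => simp
  | succ n ih =>
    rw [List.ofFn_succ, List.prod_cons, List.ofFn_succ' (fun i => io (v i)), List.prod_concat,
      Finset.prod_range_succ]
    simp only [Fin.rev_succ, Fin.rev_zero]
    have h := prod_mem_deg (x := fun i : Fin n => io (v i.castSucc)) fun i => io_mem_deg _
    rw [ih fun i => v i.castSucc, mul_smul_comm, io_mul, inv_of_deg h, one_mul, smul_mul_assoc,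
      smul_smul]

theorem sign_rev (k : ℕ) : ∏ i ∈ range (2 * k + 1), (-1 : ℝ) ^ i = (-1) ^ k := by
  induction k with
  | zero => simp
  | succ k ih =>
    rw [show 2 * (k + 1) + 1 = 2 * k + 1 + 1 + 1 by ring, Finset.prod_range_succ,
      Finset.prod_range_succ, ih]
    simp [pow_succ, pow_mul]

theorem wsum_rev (k : ℕ) (c : (Fin (2 * k + 1) → I) → ℝ) :
    wsum β (fun a => c (fun i => a i.rev)) = (-1 : ℝ) ^ k • wsum β c := by
  rw [wsum, wsum, Finset.smul_sum, ← Equiv.sum_comp (Equiv.arrowCongr Fin.revPerm (Equiv.refl I))]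
  refine Finset.sum_congr rfl fun a _ => ?_
  rw [smul_comm, ← sign_rev, ← prod_io_rev fun i => β (a i)]
  simp [Equiv.arrowCongr]

end wsum

theorem transpose_prod_rev {ι : Type} [Fintype ι] [DecidableEq ι] {n : ℕ}
    (M : Fin n → Matrix ι ι ℝ) (hM : ∀ i, (M i)ᵀ = M i) :
    (List.ofFn fun i => M i.rev).prod = (List.ofFn M).prodᵀ := by
  induction n with
  | zero => simp
  | succ n ih =>
    rw [List.ofFn_succ, List.prod_cons, List.ofFn_succ' M, List.prod_concat, Matrix.transpose_mul,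
      hM, ← ih (fun i => M i.castSucc) fun i => hM _]
    simp only [Fin.rev_succ, Fin.rev_zero]

theorem spectral_proj {ι : Type} [Fintype ι] [DecidableEq ι] (B : Matrix ι ι ℂ) (hB : Bᴴ = B) :
    ∃ (s : Finset ℝ) (P : ℝ → Matrix ι ι ℂ), B = ∑ μ ∈ s, (μ : ℂ) • P μ ∧
      ∀ μ, (P μ)ᴴ = P μ ∧ P μ * P μ = P μ ∧ ∀ M, B * M = M * B → P μ * M = M * P μ := by
  have hH : B.IsHermitian := hB
  obtain ⟨U, l, h1, h2, h3⟩ : ∃ (U : Matrix ι ι ℂ) (l : ι → ℝ),
      B = U * Matrix.diagonal (fun i => (l i : ℂ)) * Uᴴ ∧ Uᴴ * U = 1 ∧ U * Uᴴ = 1 :=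
    ⟨hH.eigenvectorUnitary.1, hH.eigenvalues, hH.spectral_theorem, hH.eigenvectorUnitary.2.1,
      hH.eigenvectorUnitary.2.2⟩
  let d : ℝ → Matrix ι ι ℂ := fun μ => Matrix.diagonal fun i => if l i = μ then 1 else 0
  refine ⟨Finset.univ.image l, fun μ => U * d μ * Uᴴ, ?_, fun μ => ⟨?_, ?_, fun M hM => ?_⟩⟩
  · simp only [← Matrix.smul_mul, ← Finset.sum_mul]
    rw [h1]
    congr 1
    ext i j
    simp [d, Matrix.sum_apply, mul_comm]
  · have : (d μ)ᴴ = d μ := by
      rw [Matrix.diagonal_conjTranspose]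
      congr 1
      funext i
      by_cases e : l i = μ <;> simp [e]
    rw [Matrix.conjTranspose_mul, Matrix.conjTranspose_mul, this,
      Matrix.conjTranspose_conjTranspose, ← mul_assoc]
  · have : d μ * d μ = d μ := by
      rw [Matrix.diagonal_mul_diagonal]
      congr 1
      funext i
      by_cases e : l i = μ <;> simp [e]
    calc U * d μ * Uᴴ * (U * d μ * Uᴴ) = U * (d μ * (Uᴴ * U) * d μ) * Uᴴ := by
          simp only [mul_assoc]
      _ = _ := by rw [h2, mul_one, this]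
  · have h4 : Matrix.diagonal (fun i => (l i : ℂ)) * (Uᴴ * M * U) =
        Uᴴ * M * U * Matrix.diagonal (fun i => (l i : ℂ)) := by
      calc _ = Uᴴ * U * Matrix.diagonal (fun i => (l i : ℂ)) * Uᴴ * M * U := by
            rw [h2, one_mul]; simp only [mul_assoc]
        _ = Uᴴ * (B * M) * U := by rw [h1]; simp only [mul_assoc]
        _ = Uᴴ * M * U * Matrix.diagonal (fun i => (l i : ℂ)) * (Uᴴ * U) := by
            rw [hM, h1]; simp only [mul_assoc]
        _ = _ := by rw [h2, mul_one]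
    have h5 : d μ * (Uᴴ * M * U) = Uᴴ * M * U * d μ := by
      ext i j
      have := congrFun (congrFun h4 i) j
      rw [Matrix.diagonal_mul, Matrix.mul_diagonal] at this
      rw [Matrix.diagonal_mul, Matrix.mul_diagonal]
      by_cases e : (Uᴴ * M * U) i j = 0
      · simp [e]
      · have : l i = l j := by
          rw [mul_comm] at this
          exact_mod_cast mul_left_cancel₀ e this
        rw [this, mul_comm]
    calc U * d μ * Uᴴ * M = U * (d μ * (Uᴴ * M * U)) * Uᴴ := by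
          simp only [mul_assoc]; rw [h3, mul_one]
      _ = U * Uᴴ * M * U * d μ * Uᴴ := by rw [h5]; simp only [mul_assoc]
      _ = _ := by rw [h3, one_mul]; simp only [mul_assoc]

section core
variable {ι : Type} [Fintype ι] [DecidableEq ι]

/-- Complexification of matrices. -/
noncomputable def cM : Matrix ι ι ℝ →ₐ[ℝ] Matrix ι ι ℂ := (Algebra.ofId ℝ ℂ).mapMatrix

theorem cM_transpose (M : Matrix ι ι ℝ) : cM Mᵀ = (cM M)ᴴ := by
  ext i j; simp [cM]

theorem trace_cM (M : Matrix ι ι ℝ) : (cM M).trace = (M.trace : ℂ) := by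
  simp [cM, Matrix.trace]

theorem exists_embed (k : ℕ) :
    ∃ J : Matrix (Fin (k + Fintype.card ι + 1)) ι ℂ, Jᴴ * J = 1 := by
  let e : ι → Fin (k + Fintype.card ι + 1) := fun i =>
    ⟨Fintype.equivFin ι i, by have := (Fintype.equivFin ι i).2; omega⟩
  have he : Function.Injective e := fun i j h =>
    (Fintype.equivFin ι).injective (Fin.ext (Fin.mk.inj h))
  refine ⟨Matrix.of fun a i => if a = e i then 1 else 0, ?_⟩
  ext i j
  simp [Matrix.mul_apply, Matrix.one_apply, he.eq_iff, eq_comm]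

variable {N : ℕ} {Q : Matrix (Fin N) ι ℂ} {P : Matrix ι ι ℂ}

/-- Extension by the identity. -/
noncomputable def ext1 (Q : Matrix (Fin N) ι ℂ) (M : Matrix ι ι ℂ) : HM N :=
  Q * M * Qᴴ + (1 - Q * Qᴴ)

theorem ext1_one : ext1 Q 1 = 1 := by simp [ext1]

omit [DecidableEq ι] in
theorem ext1_conjTranspose (M : Matrix ι ι ℂ) : (ext1 Q M)ᴴ = ext1 Q Mᴴ := by
  simp [ext1, Matrix.conjTranspose_mul, Matrix.mul_assoc]

omit [DecidableEq ι] in
theorem ext1_mul (hQ : Qᴴ * Q = P) (hQP : Q * P = Q) (M M' : Matrix ι ι ℂ) :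
    ext1 Q M * ext1 Q M' = ext1 Q (M * P * M') := by
  have hP : Pᴴ = P := by rw [← hQ]; simp [Matrix.conjTranspose_mul]
  have h1 : P * Qᴴ = Qᴴ := by
    rw [← hP, ← Matrix.conjTranspose_mul, hQP]
  have h2 : Qᴴ * (1 - Q * Qᴴ) = 0 := by
    rw [Matrix.mul_sub, ← Matrix.mul_assoc, hQ, h1, Matrix.mul_one, sub_self]
  have h3 : (1 - Q * Qᴴ) * Q = 0 := by
    rw [Matrix.sub_mul, Matrix.mul_assoc, hQ, hQP, Matrix.one_mul, sub_self]
  have h4 : (1 - Q * Qᴴ) * (1 - Q * Qᴴ) = 1 - Q * Qᴴ := by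
    rw [mul_sub, mul_one, ← Matrix.mul_assoc, h3, Matrix.zero_mul, sub_zero]
  rw [ext1, ext1, ext1, add_mul, mul_add, mul_add, h4, Matrix.mul_assoc (Q * M) Qᴴ (1 - Q * Qᴴ), h2,
    ← Matrix.mul_assoc (1 - _), ← Matrix.mul_assoc (1 - _), h3, ← hQ]
  simp [Matrix.mul_assoc]

omit [DecidableEq ι] in
theorem ext1_mul_left (hQ : Qᴴ * Q = P) (hQP : Q * P = Q) {M : Matrix ι ι ℂ}
    (hM : P * M = M * P) (M' : Matrix ι ι ℂ) : ext1 Q M * ext1 Q M' = ext1 Q (M * M') := by
  rw [ext1_mul hQ hQP, ← hM, ext1, ext1, Matrix.mul_assoc P, ← Matrix.mul_assoc Q P, hQP]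

omit [DecidableEq ι] in
theorem ext1_mul_right (hQ : Qᴴ * Q = P) (hQP : Q * P = Q) (M : Matrix ι ι ℂ) {M' : Matrix ι ι ℂ}
    (hM : P * M' = M' * P) : ext1 Q M * ext1 Q M' = ext1 Q (M * M') := by
  have hP : Pᴴ = P := by rw [← hQ]; simp [Matrix.conjTranspose_mul]
  have h1 : P * Qᴴ = Qᴴ := by
    rw [← hP, ← Matrix.conjTranspose_mul, hQP]
  rw [ext1_mul hQ hQP, mul_assoc M, hM, ext1, ext1, ← mul_assoc M, ← Matrix.mul_assoc Q _ P,
    Matrix.mul_assoc _ P, h1]

theorem rin_self_nonneg (u : CV N) : 0 ≤ rin u u := by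
  by_cases h : u = 0
  · simp [h]
  · exact (rin_self_pos h).le

theorem ext1_pd (hQ : Qᴴ * Q = P) (hQP : Q * P = Q) {S : Matrix ι ι ℂ} (hS : IsUnit S) :
    PD (ext1 Q (Sᴴ * S)) := by
  refine ⟨by rw [ext1_conjTranspose, Matrix.conjTranspose_mul,
    Matrix.conjTranspose_conjTranspose], fun z hz => ?_⟩
  have hE : (ext1 Q 0)ᴴ * ext1 Q 0 = 1 - Q * Qᴴ := by
    rw [ext1_conjTranspose, ext1_mul hQ hQP]; simp [ext1]
  have h1 : qf (ext1 Q (Sᴴ * S)) z = (star (S *ᵥ Qᴴ *ᵥ z) ⬝ᵥ (S *ᵥ Qᴴ *ᵥ z)).re +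
      rin (ext1 Q 0 *ᵥ z) (ext1 Q 0 *ᵥ z) := by
    rw [rin_mulVec, Matrix.mulVec_mulVec z (ext1 Q 0)ᴴ, hE, qf, ext1, Matrix.add_mulVec,
      rin_add_right]
    congr 1
    rw [rin, Matrix.star_mulVec, Matrix.star_mulVec, Matrix.conjTranspose_conjTranspose,
      ← Matrix.dotProduct_mulVec, ← Matrix.dotProduct_mulVec]
    simp only [Matrix.mulVec_mulVec, Matrix.mul_assoc]
  have h2 : ∀ v : ι → ℂ, (star v ⬝ᵥ v).re = ∑ i, normSq (v i) := by
    intro v
    simp [dotProduct, normSq_apply]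
  rw [h1, h2]
  by_cases h : ext1 Q 0 *ᵥ z = 0
  · have h3 : S *ᵥ Qᴴ *ᵥ z ≠ 0 := by
      intro h0
      have h4 : Qᴴ *ᵥ z = 0 := (Matrix.mulVec_injective_iff_isUnit.mpr hS)
        (by rw [h0, Matrix.mulVec_zero])
      have h5 : ext1 Q 0 *ᵥ z = z := by
        rw [ext1, Matrix.add_mulVec, Matrix.sub_mulVec, ← Matrix.mulVec_mulVec z Q, h4]
        simp
      exact hz (h5.symm.trans h)
    obtain ⟨i, hi⟩ := Function.ne_iff.mp h3
    exact add_pos_of_pos_of_nonneg (Finset.sum_pos' (fun _ _ => normSq_nonneg _)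
      ⟨i, Finset.mem_univ _, normSq_pos.mpr hi⟩) (rin_self_nonneg _)
  · exact add_pos_of_nonneg_of_pos (Finset.sum_nonneg fun _ _ => normSq_nonneg _) (rin_self_pos h)

theorem prod_conj (hQ : Qᴴ * Q = P) (hQP : Q * P = Q) {n : ℕ} (T : Fin (n + 1) → Matrix ι ι ℂ)
    (hT : ∀ i, P * T i = T i * P) :
    (List.ofFn fun i => Q * T i * Qᴴ).prod = Q * (List.ofFn T).prod * Qᴴ := by
  induction n with
  | zero => simp
  | succ n ih =>
    rw [List.ofFn_succ, List.prod_cons, ih (fun i => T i.succ) fun i => hT _,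
      List.ofFn_succ (f := T), List.prod_cons]
    calc _ = Q * (T 0 * (Qᴴ * Q)) * (List.ofFn fun i => T (Fin.succ i)).prod * Qᴴ := by
          simp only [Matrix.mul_assoc]
      _ = _ := by rw [hQ, ← hT, ← Matrix.mul_assoc Q P, hQP]; simp only [Matrix.mul_assoc]

end core

variable {D : ℕ} {L : LData D}

/-- The symmetric part. -/
noncomputable def symL : Mat D →ₗ[ℝ] Mat D :=
  (2⁻¹ : ℝ) • (LinearMap.id + (Matrix.transposeLinearEquiv (Fin D) (Fin D) ℝ ℝ).toLinearMap)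

theorem symL_apply (h : Mat D) : symL h = (2⁻¹ : ℝ) • (h + hᵀ) := rfl

theorem symL_of_symm {h : Mat D} (hh : hᵀ = h) : symL h = h := by
  rw [symL_apply, hh]; module

theorem symL_mem {h : Mat D} (hh : h ∈ Pos D) : symL h ∈ Pos D := by
  rw [symL_apply, smul_add]
  exact convex_pos hh (transpose_mem_pos hh) (by norm_num) (by norm_num) (by norm_num)

theorem symL_transpose (h : Mat D) : (symL h)ᵀ = symL h := by
  simp [symL_apply, add_comm]

theorem symL_act (g h : Mat D) : symL (act g h) = gᵀ * symL h * g := by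
  simp [symL_apply, Matrix.transpose_mul, mul_add, add_mul, mul_assoc]

theorem Rep.isUnit (R : Rep D) {g : Mat D} (hg : IsUnit g) : IsUnit (cM (R.ρ g)) := by
  have hd := (Matrix.isUnit_iff_isUnit_det _).mp hg
  refine IsUnit.of_mul_eq_one (cM (R.ρ g⁻¹)) ?_
  rw [← map_mul, ← R.ρ_mul, Matrix.mul_nonsing_inv _ hd, R.ρ_one, map_one]

theorem Rep.lin_aff (R : Rep D) {W : Type} [NormedAddCommGroup W] [NormedSpace ℝ W]
    (Φ : Matrix R.ι R.ι ℝ →ₗ[ℝ] W) (w : W) :
    (∀ h, ContDiffAt ℝ ∞ (fun h => Φ (R.ρ (symL h)) + w) h) ∧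
    ∀ A, Aᵀ = A → fderiv ℝ (fun h => Φ (R.ρ (symL h)) + w) 1 A = Φ (R.T A) := by
  have e : ∀ M, Φ M = ∑ i, ∑ j, M i j • Φ (Matrix.single i j 1) := by
    intro M
    conv_lhs => rw [Matrix.matrix_eq_sum_single M]
    simp only [map_sum, ← map_smul, Matrix.smul_single, smul_eq_mul, mul_one]
  have hs : ∀ i j h, ContDiffAt ℝ ∞ (fun h => R.ρ (symL h) i j) h := fun i j h =>
    (R.smooth i j).contDiffAt.comp h (contDiffAt_lin symL contDiffAt_id)
  have hd : ∀ i j, HasFDerivAt (fun h => R.ρ (symL h) i j) ((fderiv ℝ (fun g => R.ρ g i j)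
      (symL 1)).comp (LinearMap.toContinuousLinearMap (symL (D := D)))) 1 := fun i j =>
    ((R.smooth i j).differentiable infty_ne_zero _).hasFDerivAt.comp 1
      (LinearMap.toContinuousLinearMap (symL (D := D))).hasFDerivAt
  have e' : (fun h => Φ (R.ρ (symL h)) + w) =
      fun h => (∑ i, ∑ j, R.ρ (symL h) i j • Φ (Matrix.single i j 1)) + w :=
    funext fun h => by rw [← e]
  rw [e']
  refine ⟨fun h => (ContDiffAt.sum fun i _ => ContDiffAt.sum fun j _ =>
    (hs i j h).smul contDiffAt_const).add contDiffAt_const, fun A hA => ?_⟩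
  have h3 := ((HasFDerivAt.fun_sum (u := univ) fun i _ => HasFDerivAt.fun_sum (u := univ)
    fun j _ => (hd i j).smul_const (Φ (Matrix.single i j 1))).add_const w).fderiv
  refine (congrArg (fun T => T A) h3).trans ?_
  rw [e (R.T A)]
  simp only [_root_.sum_apply, ContinuousLinearMap.smulRight_apply,
    symL_of_symm Matrix.transpose_one]
  refine Finset.sum_congr rfl fun i _ => Finset.sum_congr rfl fun j _ => ?_
  rw [← R.deriv]
  exact congrArg (fun B => fderiv ℝ (fun g => R.ρ g i j) 1 B • Φ (Matrix.single i j 1))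
    (symL_of_symm hA)

theorem good_proj (R : Rep D) (k : ℕ) (hk : 1 ≤ k) (P : Matrix R.ι R.ι ℂ) (hP : Pᴴ = P)
    (hPP : P * P = P) (h1 : ∀ g ∈ L.Gam, P * cM (R.ρ g) = cM (R.ρ g) * P)
    (h2 : ∀ a, P * cM (R.T (L.Y a)) = cM (R.T (L.Y a)) * P) :
    L.Good (2 * k + 1) (wsum eb fun a : Fin (2 * k + 1) → Fin D =>
      (I ^ k * (P * (List.ofFn fun i => cM (R.T (L.Y (a i)))).prod).trace).re) := by
  obtain ⟨J, hJ⟩ := exists_embed (ι := R.ι) k
  obtain ⟨τ, hτ, hτ0⟩ := exists_topLike (WH (k + Fintype.card R.ι + 1))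
  obtain ⟨χ, hχ, c, hc, hmix⟩ := bor_mixR k _ _ hk rfl hτ hτ0
  obtain ⟨C, hC⟩ := bor_bdd hτ hχ hk
  obtain ⟨sq, hsq⟩ := exists_sqrt D
  obtain ⟨Q, hQ, hQP⟩ : ∃ Q : Matrix (Fin (k + Fintype.card R.ι + 1)) R.ι ℂ,
      Qᴴ * Q = P ∧ Q * P = Q := ⟨J * P, by
    rw [Matrix.conjTranspose_mul, hP, Matrix.mul_assoc, ← Matrix.mul_assoc Jᴴ, hJ,
      Matrix.one_mul, hPP], by rw [Matrix.mul_assoc, hPP]⟩
  let Hm : Mat D → HM (k + Fintype.card R.ι + 1) := fun h => ext1 Q (cM (R.ρ (symL h)))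
  have hpd : ∀ h ∈ Pos D, PD (Hm h) := by
    intro h hh
    obtain ⟨-, s1, s2, s3⟩ := hsq _ (symL_mem hh) (symL_transpose h)
    have := ext1_pd hQ hQP (R.isUnit (isUnit_of_pos s1))
    rwa [← cM_transpose, ← R.ρ_transp, s2, ← map_mul, ← R.ρ_mul, s3] at this
  have hact : ∀ g ∈ L.Gam, ∀ h, Hm (act g h) =
      (ext1 Q (cM (R.ρ g)))ᴴ * Hm h * ext1 Q (cM (R.ρ g)) := by
    intro g hg h
    rw [ext1_conjTranspose, ← cM_transpose, ← R.ρ_transp,
      ext1_mul_left hQ hQP (h1 _ (LData.transpose_mem_gam hg)), ext1_mul_right hQ hQP _ (h1 g hg),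
      ← map_mul, ← map_mul, ← R.ρ_mul, ← R.ρ_mul, ← symL_act]
  have hun : ∀ g ∈ L.Gam, IsUnit (ext1 Q (cM (R.ρ g))) := by
    intro g hg
    have hd := (Matrix.isUnit_iff_isUnit_det _).mp (LData.isUnit_of_gam hg)
    refine IsUnit.of_mul_eq_one (ext1 Q (cM (R.ρ g⁻¹))) ?_
    rw [ext1_mul_left hQ hQP (h1 g hg), ← map_mul, ← R.ρ_mul, Matrix.mul_nonsing_inv _ hd,
      R.ρ_one, map_one, ext1_one]
  let Φ : Matrix R.ι R.ι ℝ →ₗ[ℝ] HM (k + Fintype.card R.ι + 1) :=
    { toFun := fun M => Q * cM M * Qᴴ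
      map_add' := fun M M' => by rw [map_add, Matrix.mul_add, Matrix.add_mul]
      map_smul' := fun r M => by rw [map_smul, Matrix.mul_smul, Matrix.smul_mul]; rfl }
  have hsm : ∀ h, ContDiffAt ℝ ∞ Hm h := (R.lin_aff Φ (1 - Q * Qᴴ)).1
  have hH1 : Hm 1 = 1 := by
    simp only [Hm, symL_of_symm Matrix.transpose_one, R.ρ_one, map_one, ext1_one]
  have hder : ∀ a, fderiv ℝ Hm 1 (L.Y a) = Q * cM (R.T (L.Y a)) * Qᴴ := fun a =>
    (R.lin_aff Φ (1 - Q * Qᴴ)).2 _ (L.Y_transpose a)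
  have hsB : SmOn (HP _) (Bor τ χ (p := 2 * k + 1 + 1)) := fun H hH => bor_smooth τ hχ H hH
  have key : L.Good (2 * k + 1) (c • wsum eb fun a : Fin (2 * k + 1) → Fin D =>
      (I ^ k * (P * (List.ofFn fun i => cM (R.T (L.Y (a i)))).prod).trace).re) := by
    refine ⟨fun h => Bor τ χ fun i => Hm (h i), ⟨fun h hh => ?_,
      fun h hh => bor_coc hτ hχ (fun i => Hm (h i)) fun i => hpd _ (hh i), ?_,
      C, fun h hh => hC _ fun i => hpd _ (hh i)⟩, ?_⟩
    · have e1 : ContDiffAt ℝ ∞ (fun (h : Fin (2 * k + 1 + 1) → Mat D) i => Hm (h i)) h :=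
        contDiffAt_pi.mpr fun i => (hsm _).comp h (contDiffAt_apply ℝ _ i h)
      exact ContDiffAt.comp (g := Bor τ χ) h (hsB _ fun i => (hpd _ (hh i)).2) e1
    · rintro _ ⟨g, hg, rfl⟩ h hh
      exact (congrArg _ (funext fun i => hact g hg (h i))).trans
        (bor_inv hτ hχ _ (fun i => hpd _ (hh i)) _ (hun g hg))
    · have := mixR_comp (fun a => Q * cM (R.T (L.Y a)) * Qᴴ) eb L.Y isOpen_pos (φ := Hm)
        one_mem_pos (fun h hh => (hpd h hh).2) ((hsm 1).differentiableAt infty_ne_zero)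
        (fun i j => if i = j then 1 else 0) (fun j => (hder j).trans (by simp)) hsB.alg
      refine this.trans ?_
      simp only [ite_smul, one_smul, zero_smul, Finset.sum_ite_eq, Finset.mem_univ, if_true, hH1]
      rw [hmix eb _ fun a => by
        rw [Matrix.conjTranspose_mul, Matrix.conjTranspose_mul, Matrix.conjTranspose_conjTranspose,
          ← cM_transpose, ← R.T_transp, L.Y_transpose, Matrix.mul_assoc]]
      congr 2
      funext a
      rw [prod_conj hQ hQP _ fun i => h2 (a i), Matrix.trace_mul_comm, ← Matrix.mul_assoc, hQ]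
  have := key.smul c⁻¹
  rwa [smul_smul, inv_mul_cancel₀ hc, one_smul] at this

theorem borel {D : ℕ} (L : LData D) (R : Rep D) (A : Matrix R.ι R.ι ℝ) (k : ℕ) (hk : 1 ≤ k)
    (hA : ∀ x, A * R.T (L.adv x) = R.T (L.adv x) * A) :
    L.Good (2 * k + 1) (L.trForm R A (2 * k + 1)) := by
  have hA' : ∀ x, Aᵀ * R.T (L.adv x) = R.T (L.adv x) * Aᵀ := by
    intro x
    rw [L.adv_eq_transpose x, R.T_transp, ← Matrix.transpose_mul, ← Matrix.transpose_mul, hA]
  have hG : ∀ M : Matrix R.ι R.ι ℝ, (∀ x, M * R.T (L.adv x) = R.T (L.adv x) * M) →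
      ∀ g ∈ L.Gam, M * R.ρ g = R.ρ g * M := by
    intro M hM g hg
    induction hg using Submonoid.closure_induction with
    | mem x hx =>
      obtain ⟨y, rfl⟩ := hx
      rw [R.exp]
      exact Commute.exp_right (hM y)
    | one => rw [R.ρ_one, mul_one, one_mul]
    | mul x y _ _ hx hy => rw [R.ρ_mul, ← mul_assoc, hx, mul_assoc, hy, mul_assoc]
  set B : Matrix R.ι R.ι ℂ := cM (A + Aᵀ) + I • cM (A - Aᵀ)
  have hB : Bᴴ = B := by
    rw [Matrix.conjTranspose_add, Matrix.conjTranspose_smul, ← cM_transpose, ← cM_transpose,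
      Matrix.transpose_add, Matrix.transpose_sub, Matrix.transpose_transpose, add_comm Aᵀ,
      ← neg_sub A, map_neg, star_def, conj_I, neg_smul_neg]
  have hBc : ∀ M, A * M = M * A → Aᵀ * M = M * Aᵀ → B * cM M = cM M * B := by
    intro M e1 e2
    simp only [B, add_mul, mul_add, smul_mul_assoc, mul_smul_comm, ← map_mul, sub_mul, mul_sub,
      e1, e2]
  have hY : ∀ a, L.Y a = L.adv (L.ip a • Pi.single a 1) := fun a => by
    rw [L.adv_smul, L.adv_single]; rfl
  obtain ⟨s, P, hs, hP⟩ := spectral_proj B hB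
  let W : (Fin (2 * k + 1) → Fin D) → Matrix R.ι R.ι ℝ := fun a =>
    (List.ofFn fun i => R.T (L.Y (a i))).prod
  have hW : ∀ a, (List.ofFn fun i => cM (R.T (L.Y (a i)))).prod = cM (W a) := by
    intro a
    rw [map_list_prod, List.map_ofFn]; rfl
  have h1 : L.Good (2 * k + 1) (wsum eb fun a => (I ^ k * (B * cM (W a)).trace).re) := by
    have : (wsum eb fun a => (I ^ k * (B * cM (W a)).trace).re) =
        ∑ μ ∈ s, μ • wsum eb fun a => (I ^ k * (P μ * cM (W a)).trace).re := by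
      simp only [← wsum_mul, ← wsum_sum]
      congr 1
      funext a
      rw [hs, Finset.sum_mul, Matrix.trace_sum, Finset.mul_sum, re_sum]
      refine Finset.sum_congr rfl fun μ _ => ?_
      rw [smul_mul_assoc, Matrix.trace_smul, smul_eq_mul, mul_left_comm, re_ofReal_mul]
    rw [this]
    refine (L.goodSub _).sum_mem fun μ _ => LData.Good.smul _ ?_
    have := good_proj R k hk (P μ) (hP μ).1 (hP μ).2.1
      (fun g hg => (hP μ).2.2 _ (hBc _ (hG _ hA g hg) (hG _ hA' g hg)))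
      (fun a => (hP μ).2.2 _ (hBc _ (by rw [hY]; exact hA _) (by rw [hY]; exact hA' _)))
    simpa only [hW] using this
  have h2 : (wsum eb fun a => (Aᵀ * W a).trace) = (-1 : ℝ) ^ k • L.trForm R A (2 * k + 1) := by
    rw [LData.trForm, ← wsum_rev]
    congr 1
    funext a
    rw [transpose_prod_rev (fun i => R.T (L.Y (a i))) fun i => by
      rw [← R.T_transp, L.Y_transpose], ← Matrix.trace_transpose, Matrix.transpose_mul,
      Matrix.transpose_transpose, Matrix.trace_mul_comm]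
  have h3 : (wsum eb fun a => (I ^ k * (B * cM (W a)).trace).re) =
      (((I ^ k).re - (I ^ k).im) + ((I ^ k).re + (I ^ k).im) * (-1) ^ k) •
        L.trForm R A (2 * k + 1) := by
    rw [add_smul, mul_smul, ← h2, LData.trForm, ← wsum_mul, ← wsum_mul, ← wsum_add]
    congr 1
    funext a
    simp only [B, add_mul, sub_mul, smul_mul_assoc, ← map_mul, Matrix.trace_add,
      Matrix.trace_smul, trace_cM, Matrix.trace_sub, smul_eq_mul, W]
    simp
    ring
  have h4 : ((I ^ k).re - (I ^ k).im) + ((I ^ k).re + (I ^ k).im) * (-1) ^ k ≠ 0 := by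
    obtain ⟨j, rfl | rfl⟩ := Nat.even_or_odd' k
    · rw [pow_mul, pow_mul, I_sq]
      obtain ⟨i, rfl | rfl⟩ := Nat.even_or_odd' j <;> simp [pow_succ, pow_mul]
    · rw [pow_succ, pow_succ, pow_mul, pow_mul, I_sq]
      obtain ⟨i, rfl | rfl⟩ := Nat.even_or_odd' j <;> simp [pow_succ, pow_mul]
  have := h1.smul (((I ^ k).re - (I ^ k).im) + ((I ^ k).re + (I ^ k).im) * (-1) ^ k)⁻¹
  rwa [h3, smul_smul, inv_mul_cancel₀ h4, one_smul] at this

end Pool.Agent.Lib.MP_cdc9ab_al
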