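import Pool.Agent.Lib.MP_cdc9ab_al.KeyDom
import Pool.Agent.Lib.MP_cdc9ab_al.Sqrt

-- part Pool.Agent.Lib.MP_cdc9ab_al.Smooth
section

open scoped Matrix.Norms.Operator ContDiff Matrix ENNReal Topology
open Finset MeasureTheory Filter

namespace Pool.Agent.Lib.MP_cdc9ab_al

namespace Smoothing

/-! ### The prism operator -/

section prism
variable {X : Type}

theorem cob_cons {p : ℕ} (c : (Fin (p + 1) → X) → ℝ) (y : X) (h : Fin (p + 1) → X) :
    cob c (Fin.cons y h : Fin (p + 2) → X) = c h - cob (fun w => c (Fin.cons y w)) h := by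
  unfold cob
  rw [Fin.sum_univ_succ, sub_eq_add_neg, ← Finset.sum_neg_distrib]
  congr 1
  · simp only [Fin.val_zero, pow_zero, one_smul]
    congr 1
  · refine Finset.sum_congr rfl fun i _ => ?_
    have h1 : (Fin.cons y h : Fin (p + 2) → X) ∘ i.succ.succAbove =
        Fin.cons y (h ∘ i.succAbove) := by
      ext j
      refine Fin.cases ?_ (fun j => ?_) j <;> simp
    rw [h1, Fin.val_succ, pow_succ, mul_neg_one, neg_smul]

theorem cob_sub {p : ℕ} (c c' : (Fin p → X) → ℝ) (h : Fin (p + 1) → X) :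
    cob (fun w => c w - c' w) h = cob c h - cob c' h := by
  simp [cob, mul_sub, Finset.sum_sub_distrib]

/-- The prism operator between the two projections. -/
def pr : (n : ℕ) → ((Fin (n + 1) → X) → ℝ) → (Fin n → X × X) → ℝ
  | 0, _, _ => 0
  | n + 1, c, z => c (Fin.cons (z 0).1 fun i => (z i).2) -
      pr n (fun w => c (Fin.cons (z 0).1 w)) (Fin.tail z)

theorem pr_cons {n : ℕ} (c : (Fin (n + 2) → X) → ℝ) (a : X × X) (z : Fin n → X × X) :
    pr (n + 1) c (Fin.cons a z) = c (Fin.cons a.1 (Fin.cons a.2 fun i => (z i).2)) -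
      pr n (fun w => c (Fin.cons a.1 w)) z := by
  have e : (fun i => ((Fin.cons a z : Fin (n + 1) → X × X) i).2) =
      Fin.cons a.2 fun i => (z i).2 := by
    ext i
    refine Fin.cases ?_ (fun j => ?_) i <;> simp
  rw [pr, Fin.cons_zero, Fin.tail_cons, e]

theorem pr_sub (n : ℕ) : ∀ (c c' : (Fin (n + 1) → X) → ℝ) (z : Fin n → X × X),
    pr n (fun w => c w - c' w) z = pr n c z - pr n c' z := by
  induction n with
  | zero => intro c c' z; simp [pr]
  | succ n ih =>
    intro c c' z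
    simp only [pr]
    rw [ih]
    ring

theorem pr_zero (n : ℕ) (z : Fin n → X × X) : pr n (fun _ => 0) z = 0 := by
  simpa using pr_sub n (fun _ => 0) (fun _ => 0) z

theorem pr_cob (n : ℕ) : ∀ (c : (Fin (n + 1) → X) → ℝ) (z : Fin (n + 1) → X × X),
    pr (n + 1) (cob c) z + cob (pr n c) z = c (fun i => (z i).2) - c (fun i => (z i).1) := by
  induction n with
  | zero =>
    intro c z
    rw [pr, cob_cons]
    have e : (Fin.cons (z 0).1 ((fun i => (z i).2) ∘ Fin.succ) : Fin 1 → X) =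
        fun i => (z i).1 := by
      ext i
      refine Fin.cases ?_ (fun j => j.elim0) i
      simp
    simp [pr, cob, e]
  | succ n ih =>
    intro c z
    obtain ⟨a, z, rfl⟩ : ∃ a z', z = Fin.cons a z' := ⟨z 0, Fin.tail z, (Fin.cons_self_tail z).symm⟩
    have e1 : (fun i => ((Fin.cons a z : Fin (n + 2) → X × X) i).2) =
        Fin.cons a.2 fun i => (z i).2 := by
      ext i
      refine Fin.cases ?_ (fun j => ?_) i <;> simp
    have e2 : (fun i => ((Fin.cons a z : Fin (n + 2) → X × X) i).1) =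
        Fin.cons a.1 fun i => (z i).1 := by
      ext i
      refine Fin.cases ?_ (fun j => ?_) i <;> simp
    have h := ih (fun w => c (Fin.cons a.1 w)) z
    rw [pr_cons, cob_cons, cob_cons, cob_cons, e1, e2]
    simp only [cob_cons, pr_cons]
    rw [pr_sub, cob_sub]
    have e3 : cob (fun w : Fin n → X × X => c (Fin.cons a.1 (Fin.cons a.2 fun i => (w i).2))) z =
        cob (fun w => c (Fin.cons a.1 (Fin.cons a.2 w))) fun i => (z i).2 := rfl
    rw [e3]
    linarith

theorem pr_map (a : X → X) (n : ℕ) : ∀ (c : (Fin (n + 1) → X) → ℝ) (z : Fin n → X × X),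
    pr n c (fun i => (a (z i).1, a (z i).2)) = pr n (fun w => c fun i => a (w i)) z := by
  induction n with
  | zero => intro c z; rfl
  | succ n ih =>
    intro c z
    have e : ∀ {m : ℕ} (y : X) (w : Fin m → X),
        (fun i => a ((Fin.cons y w : Fin (m + 1) → X) i)) = Fin.cons (a y) fun i => a (w i) := by
      intro m y w
      ext i
      refine Fin.cases ?_ (fun j => ?_) i <;> simp
    simp only [pr, e]
    congr 1
    exact ih (fun w => c (Fin.cons (a (z 0).1) w)) (Fin.tail z)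

theorem pr_continuous [TopologicalSpace X] (n : ℕ) : ∀ (Z : Type) [TopologicalSpace Z]
    (c : Z → (Fin (n + 1) → X) → ℝ), Continuous (fun p : Z × (Fin (n + 1) → X) => c p.1 p.2) →
    Continuous fun p : Z × (Fin n → X × X) => pr n (c p.1) p.2 := by
  induction n with
  | zero => intro Z _ c _; exact continuous_const
  | succ n ih =>
    intro Z _ c hc
    simp only [pr]
    refine Continuous.sub ?_ ?_
    · exact hc.comp (f := fun p : Z × (Fin (n + 1) → X × X) =>
        (p.1, (Fin.cons (p.2 0).1 fun i => (p.2 i).2 : Fin (n + 2) → X)))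
        (continuous_fst.prodMk (Continuous.finCons (by fun_prop) (by fun_prop)))
    · have h := ih (Z × X) (fun q w => c q.1 (Fin.cons q.2 w))
        (hc.comp (f := fun p : (Z × X) × (Fin (n + 1) → X) =>
          (p.1.1, (Fin.cons p.1.2 p.2 : Fin (n + 2) → X)))
          (continuous_fst.fst.prodMk (Continuous.finCons (by fun_prop) (by fun_prop))))
      exact h.comp (f := fun p : Z × (Fin (n + 1) → X × X) => ((p.1, (p.2 0).1), Fin.tail p.2))
        (Continuous.prodMk (by fun_prop) (continuous_pi fun i => by unfold Fin.tail; fun_prop))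

end prism

/-! ### Averaging against product kernels -/

section avg
variable {G : Type} [TopologicalSpace G] [T2Space G] [SecondCountableTopology G]
  [MeasurableSpace G] [BorelSpace G] (μ : Measure G) [SigmaFinite μ] [IsLocallyFiniteMeasure μ]

/-- The average of a cochain against a product kernel. -/
noncomputable def av {m : ℕ} (κ : Fin m → G → ℝ) (c : (Fin m → G) → ℝ) : ℝ :=
  ∫ g : Fin m → G, c g * ∏ i, κ i (g i) ∂(Measure.pi fun _ => μ)

omit [TopologicalSpace G] [T2Space G] [SecondCountableTopology G] [BorelSpace G]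
  [IsLocallyFiniteMeasure μ] in
theorem av_face {m : ℕ} (κ : Fin (m + 1) → G → ℝ) (i : Fin (m + 1)) (hκ : ∫ g, κ i g ∂μ = 1)
    (c : (Fin m → G) → ℝ) :
    av μ κ (fun g => c (g ∘ i.succAbove)) = av μ (fun j => κ (i.succAbove j)) c := by
  have h := (measurePreserving_piFinSuccAbove (fun _ : Fin (m + 1) => μ) i).integral_comp'
    (fun z : G × (Fin m → G) => κ i z.1 * (c z.2 * ∏ j, κ (i.succAbove j) (z.2 j)))
  rw [integral_prod_mul (κ i) (fun y : Fin m → G => c y * ∏ j, κ (i.succAbove j) (y j)), hκ,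
    one_mul] at h
  unfold av
  rw [← h]
  congr 1
  funext g
  rw [Fin.prod_univ_succAbove _ i]
  exact mul_left_comm _ _ _

omit [SecondCountableTopology G] [MeasurableSpace G] [BorelSpace G] in
theorem prod_support {m : ℕ} {κ : Fin m → G → ℝ} (hs : ∀ i, HasCompactSupport (κ i)) :
    HasCompactSupport fun g : Fin m → G => ∏ i, κ i (g i) := by
  refine HasCompactSupport.intro (isCompact_univ_pi fun i => (hs i).isCompact) fun g hg => ?_
  rw [Set.mem_univ_pi] at hg
  push Not at hg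
  obtain ⟨i, hi⟩ := hg
  exact Finset.prod_eq_zero (Finset.mem_univ i) (image_eq_zero_of_notMem_tsupport hi)

theorem av_integrable {m : ℕ} {κ : Fin m → G → ℝ} (hκ : ∀ i, Continuous (κ i))
    (hs : ∀ i, HasCompactSupport (κ i)) {c : (Fin m → G) → ℝ} (hc : Continuous c) :
    Integrable (fun g : Fin m → G => c g * ∏ i, κ i (g i)) (Measure.pi fun _ => μ) :=
  (hc.mul (continuous_finsetProd _ fun i _ => (hκ i).comp (continuous_apply i))
    ).integrable_of_hasCompactSupport (prod_support hs).mul_left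

theorem av_cob {m : ℕ} {κ : Fin (m + 1) → G → ℝ} (hκ : ∀ i, Continuous (κ i))
    (hs : ∀ i, HasCompactSupport (κ i)) (h1 : ∀ i, ∫ g, κ i g ∂μ = 1)
    (c : Fin (m + 1) → (Fin m → G) → ℝ) (hc : ∀ i, Continuous (c i)) :
    av μ κ (fun g => ∑ i : Fin (m + 1), (-1 : ℝ) ^ (i : ℕ) • c i (g ∘ i.succAbove)) =
      ∑ i : Fin (m + 1), (-1 : ℝ) ^ (i : ℕ) • av μ (fun j => κ (i.succAbove j)) (c i) := by
  simp only [← av_face μ κ _ (h1 _)]
  unfold av
  simp only [Finset.sum_mul, smul_mul_assoc]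
  rw [integral_finsetSum]
  · simp only [integral_smul]
  · intro i _
    exact (av_integrable μ hκ hs ((hc i).comp (f := fun g : Fin (m + 1) → G => g ∘ i.succAbove)
      (continuous_pi fun j => continuous_apply _))).smul ((-1 : ℝ) ^ (i : ℕ))

theorem av_add_const {m : ℕ} {κ : Fin m → G → ℝ} (hκ : ∀ i, Continuous (κ i))
    (hs : ∀ i, HasCompactSupport (κ i)) (h1 : ∀ i, ∫ g, κ i g ∂μ = 1) (t : ℝ)
    {c : (Fin m → G) → ℝ} (hc : Continuous c) :
    av μ κ (fun g => t + c g) = t + av μ κ c := by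
  unfold av
  simp only [add_mul]
  rw [integral_add (av_integrable μ hκ hs continuous_const) (av_integrable μ hκ hs hc),
    integral_const_mul, integral_fintype_prod_eq_prod]
  simp [h1]

theorem av_continuous {m : ℕ} {κ : Fin m → G → ℝ} (hκ : ∀ i, Continuous (κ i))
    (hs : ∀ i, HasCompactSupport (κ i)) {Z : Type} [TopologicalSpace Z]
    {c : Z → (Fin m → G) → ℝ} (hc : Continuous fun p : Z × (Fin m → G) => c p.1 p.2) :
    Continuous fun z => av μ κ (c z) := by
  rw [← continuousOn_univ]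
  refine continuousOn_integral_of_compact_support (prod_support hs).isCompact ?_ ?_
  · exact (hc.mul (continuous_finsetProd _ fun i _ =>
      (hκ i).comp ((continuous_apply i).comp continuous_snd))).continuousOn
  · intro p x _ hx
    rw [image_eq_zero_of_notMem_tsupport hx, mul_zero]

end avg

theorem av_mul {G : Type} [Group G] [TopologicalSpace G] [IsTopologicalGroup G]
    [SecondCountableTopology G] [MeasurableSpace G] [BorelSpace G] (μ : Measure G) [SigmaFinite μ]
    [μ.IsMulLeftInvariant] {m : ℕ} (κ : Fin m → G → ℝ) (c : (Fin m → G) → ℝ) (x : Fin m → G) :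
    av μ κ c = av μ (fun i g => κ i (x i * g)) fun g => c (x * g) :=
  (integral_mul_left_eq_self (fun g : Fin m → G => c g * ∏ i, κ i (g i)) x).symm

/-! ### The kernel -/

section kernel
variable {D : ℕ} {L : LData D} (r : Retr L)

/-- A smooth bump function invariant under orthogonal matrices. -/
noncomputable def bump (u : Mat D) : ℝ := expNegInvGlue (D + 1 - (uᵀ * u).trace)

theorem bump_smooth : ContDiff ℝ ∞ (bump : Mat D → ℝ) := by
  have h1 : ContDiff ℝ ∞ fun u : Mat D => uᵀ :=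
    (LinearMap.toContinuousLinearMap
      (Matrix.transposeLinearEquiv (Fin D) (Fin D) ℝ ℝ).toLinearMap).contDiff
  have h2 : ContDiff ℝ ∞ fun u : Mat D => u.trace :=
    (LinearMap.toContinuousLinearMap (Matrix.traceLinearMap (Fin D) ℝ ℝ)).contDiff
  exact expNegInvGlue.contDiff.comp (contDiff_const.sub (h2.comp (h1.mul contDiff_id)))

theorem bump_one : bump (1 : Mat D) ≠ 0 := by
  refine (expNegInvGlue.pos_of_pos ?_).ne'
  simp

theorem bump_orth {k : Mat D} (hk : k * kᵀ = 1) (u : Mat D) : bump (kᵀ * u) = bump u := by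
  unfold bump
  rw [Matrix.transpose_mul, Matrix.transpose_transpose, mul_assoc, ← mul_assoc k, hk, one_mul]

theorem bump_bound {u : Mat D} (hu : bump u ≠ 0) (i j : Fin D) : |u i j| ≤ D + 1 := by
  have h1 : (uᵀ * u).trace < D + 1 := by
    by_contra h
    exact hu (expNegInvGlue.zero_of_nonpos (by linarith))
  have h2 : u i j * u i j ≤ (uᵀ * u).trace := by
    simp only [Matrix.trace, Matrix.diag, Matrix.mul_apply, Matrix.transpose_apply]
    refine le_trans ?_ (Finset.single_le_sum (f := fun j => ∑ i, u i j * u i j)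
      (fun j _ => Finset.sum_nonneg fun i _ => mul_self_nonneg _) (Finset.mem_univ j))
    exact Finset.single_le_sum (f := fun i => u i j * u i j) (fun i _ => mul_self_nonneg _)
      (Finset.mem_univ i)
  have h3 : (0 : ℝ) ≤ D := by positivity
  rw [abs_le]
  constructor <;> nlinarith

/-- The unnormalised kernel. -/
noncomputable def ker0 (p : Mat D × Mat D) : ℝ := bump ((r.q p.1)⁻¹ * p.2)

theorem ker0_nonneg (p : Mat D × Mat D) : 0 ≤ ker0 r p := expNegInvGlue.nonneg _

theorem ker0_smooth {p : Mat D × Mat D} (hp : p.1 ∈ Pos D) : ContDiffAt ℝ ∞ (ker0 r) p := by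
  obtain ⟨u, hu⟩ := LData.isUnit_of_gam (r.mem _ hp)
  have h1 : ContDiffAt ℝ ∞ (fun h : Mat D => (r.q h)⁻¹) p.1 := by
    simp only [Matrix.nonsing_inv_eq_ringInverse]
    refine ContDiffAt.comp (g := Ring.inverse) p.1 ?_ (r.smooth _ hp)
    rw [← hu]
    exact contDiffAt_ringInverse ℝ u
  exact bump_smooth.contDiffAt.comp p ((h1.comp p contDiffAt_fst).mul contDiffAt_snd)

theorem ker0_act {γ h : Mat D} (hγ : γ ∈ L.Gam) (hh : h ∈ Pos D) (y : Mat D) :
    ker0 r (act γ h, y) = ker0 r (h, γ * y) := by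
  obtain ⟨k, hk, e⟩ := r.equiv γ hγ h hh
  have hd := (Matrix.isUnit_iff_isUnit_det _).mp (LData.isUnit_of_gam hγ)
  have e1 : (r.q (act γ h))⁻¹ = kᵀ * (r.q h)⁻¹ * γ := by
    rw [← Matrix.inv_eq_left_inv hk.2, ← Matrix.mul_inv_rev, ← e, Matrix.mul_inv_rev, mul_assoc,
      Matrix.nonsing_inv_mul _ hd, mul_one]
  unfold ker0
  simp only
  rw [e1, mul_assoc, mul_assoc, bump_orth (LData.K_mul_transpose hk)]

theorem ker0_bound {h₀ : Mat D} (hh : h₀ ∈ Pos D) : ∃ R : ℝ, ∀ᶠ h in 𝓝 h₀, h ∈ Pos D ∧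
    ∀ y, ker0 r (h, y) ≠ 0 → ∀ i j, |y i j| ≤ R := by
  have hc := (r.smooth _ hh).continuousAt
  have h1 : ∀ᶠ h in 𝓝 h₀, ∀ i l, |r.q h i l| < |r.q h₀ i l| + 1 := by
    simp only [eventually_all]
    intro i l
    have : ContinuousAt (fun h => |r.q h i l|) h₀ :=
      ((continuous_apply_apply i l).continuousAt.comp hc).abs
    exact this.eventually (gt_mem_nhds (lt_add_one _))
  refine ⟨∑ i, ∑ l, (|r.q h₀ i l| + 1) * (D + 1), ?_⟩
  filter_upwards [isOpen_pos.mem_nhds hh, h1] with h h2 h3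
  refine ⟨h2, fun y hy i j => ?_⟩
  have hd := (Matrix.isUnit_iff_isUnit_det _).mp (LData.isUnit_of_gam (r.mem _ h2))
  have e : y = r.q h * ((r.q h)⁻¹ * y) := by
    rw [← mul_assoc, Matrix.mul_nonsing_inv _ hd, one_mul]
  rw [e, Matrix.mul_apply]
  refine (Finset.abs_sum_le_sum_abs _ _).trans (le_trans ?_ (Finset.single_le_sum
    (f := fun i => ∑ l, (|r.q h₀ i l| + 1) * ((D : ℝ) + 1))
    (fun i _ => Finset.sum_nonneg fun l _ => by positivity) (Finset.mem_univ i)))
  refine Finset.sum_le_sum fun l _ => ?_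
  rw [abs_mul]
  exact mul_le_mul (h3 i l).le (bump_bound hy l j) (abs_nonneg _) (by positivity)

variable {G : Type} [Group G] [TopologicalSpace G] [IsTopologicalGroup G] [T2Space G]
  [SecondCountableTopology G] [MeasurableSpace G] [BorelSpace G] (μ : Measure G)
  [μ.IsHaarMeasure] [SigmaFinite μ] [IsLocallyFiniteMeasure μ] (ρ : G →* Mat D)

/-- The normalising factor. -/
noncomputable def mass (h : Mat D) : ℝ := ∫ g, ker0 r (h, ρ g) ∂μ

/-- The normalised kernel. -/
noncomputable def kern (h y : Mat D) : ℝ := ker0 r (h, y) / mass r μ ρ h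

variable {ρ} (hρ : Continuous ρ) (hprop : ∀ R : ℝ, IsCompact {g : G | ∀ i j, |ρ g i j| ≤ R})
  (hrange : Set.range ρ = L.Gam)

omit [IsTopologicalGroup G] [T2Space G] [SecondCountableTopology G] [MeasurableSpace G]
  [BorelSpace G] in
include hρ in
theorem ker0_cont {h : Mat D} (hh : h ∈ Pos D) : Continuous fun g => ker0 r (h, ρ g) :=
  continuous_iff_continuousAt.2 fun _ => ContinuousAt.comp (f := fun g => (h, ρ g))
    (ker0_smooth r hh).continuousAt (continuous_const.prodMk hρ).continuousAt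

omit [IsTopologicalGroup G] [SecondCountableTopology G] [MeasurableSpace G] [BorelSpace G] in
include hprop in
theorem ker0_supp {h : Mat D} (hh : h ∈ Pos D) : HasCompactSupport fun g => ker0 r (h, ρ g) := by
  obtain ⟨R, hR⟩ := ker0_bound r hh
  refine HasCompactSupport.intro (hprop R) fun g hg => ?_
  by_contra h0
  exact hg (hR.self_of_nhds.2 _ h0)

omit [IsTopologicalGroup G] [SecondCountableTopology G] [SigmaFinite μ]
  [IsLocallyFiniteMeasure μ] in
include hρ hprop hrange in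
theorem mass_pos {h : Mat D} (hh : h ∈ Pos D) : 0 < mass r μ ρ h := by
  obtain ⟨g, hg⟩ : r.q h ∈ Set.range ρ := hrange ▸ r.mem h hh
  refine (ker0_cont r hρ hh).integral_pos_of_hasCompactSupport_nonneg_nonzero (x := g)
    (ker0_supp r hprop hh) (fun g => ker0_nonneg r _) ?_
  have hd := (Matrix.isUnit_iff_isUnit_det _).mp (LData.isUnit_of_gam (r.mem _ hh))
  unfold ker0
  simp only
  rw [hg, Matrix.nonsing_inv_mul _ hd]
  exact bump_one

omit [IsTopologicalGroup G] [SecondCountableTopology G] [μ.IsHaarMeasure] [SigmaFinite μ] in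
include hρ hprop in
theorem mass_smooth {h : Mat D} (hh : h ∈ Pos D) : ContDiffAt ℝ ∞ (mass r μ ρ) h := by
  obtain ⟨R, hR⟩ := ker0_bound r hh
  have h1 := param_smooth (μ := μ) (c := fun _ => (1 : ℝ)) (U := Prod.fst ⁻¹' Pos D) (hprop R)
    (hprop R).measurableSet hρ.continuousOn (integrableOn_const (hprop R).measure_ne_top)
    (isOpen_pos.preimage continuous_fst) (Ψ := ker0 r) (fun p hp => ker0_smooth r hp) (x₀ := h)
    (fun _ _ => hh)
  refine h1.congr_of_eventuallyEq ?_
  filter_upwards [hR] with x hx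
  simp only [one_smul]
  refine (setIntegral_eq_integral_of_forall_compl_eq_zero fun g hg => ?_).symm
  by_contra h0
  exact hg (hx.2 _ h0)

omit [T2Space G] [SecondCountableTopology G] [SigmaFinite μ] [IsLocallyFiniteMeasure μ] in
include hrange in
theorem kern_act (a : G) {h : Mat D} (hh : h ∈ Pos D) (g : G) :
    kern r μ ρ (act (ρ a) h) (ρ g) = kern r μ ρ h (ρ (a * g)) := by
  have ha : ρ a ∈ L.Gam := by
    rw [← SetLike.mem_coe, ← hrange]
    exact ⟨a, rfl⟩
  unfold kern mass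
  simp only [ker0_act r ha hh, ← map_mul]
  rw [integral_mul_left_eq_self (fun g => ker0 r (h, ρ g)) a]

omit [IsTopologicalGroup G] [T2Space G] [SecondCountableTopology G] [BorelSpace G]
  [μ.IsHaarMeasure] [SigmaFinite μ] [IsLocallyFiniteMeasure μ] in
include hρ in
theorem kern_cont {h : Mat D} (hh : h ∈ Pos D) : Continuous fun g => kern r μ ρ h (ρ g) :=
  (ker0_cont r hρ hh).div_const _

omit [IsTopologicalGroup G] [SecondCountableTopology G] [BorelSpace G]
  [μ.IsHaarMeasure] [SigmaFinite μ] [IsLocallyFiniteMeasure μ] in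
include hprop in
theorem kern_supp {h : Mat D} (hh : h ∈ Pos D) : HasCompactSupport fun g => kern r μ ρ h (ρ g) := by
  simp only [kern, div_eq_mul_inv]
  exact (ker0_supp r hprop hh).mul_right

omit [IsTopologicalGroup G] [SecondCountableTopology G] [SigmaFinite μ]
  [IsLocallyFiniteMeasure μ] in
include hρ hprop hrange in
theorem kern_one {h : Mat D} (hh : h ∈ Pos D) : ∫ g, kern r μ ρ h (ρ g) ∂μ = 1 := by
  unfold kern
  rw [integral_div]
  exact div_self (mass_pos r μ hρ hprop hrange hh).ne'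

omit [IsTopologicalGroup G] in
include hρ hprop hrange in
theorem av_smooth {m : ℕ} {f : (Fin m → G) → ℝ} (hf : Continuous f) {h : Fin m → Mat D}
    (hh : ∀ i, h i ∈ Pos D) :
    ContDiffAt ℝ ∞ (fun h : Fin m → Mat D => av μ (fun i g => kern r μ ρ (h i) (ρ g)) f) h := by
  choose R hR using fun i => ker0_bound r (hh i)
  have hK := isCompact_univ_pi fun i => hprop (R i)
  have h1 := param_smooth (μ := Measure.pi fun _ : Fin m => μ) (c := f)
    (ρ := fun (g : Fin m → G) i => ρ (g i))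
    (U := {p : (Fin m → Mat D) × (Fin m → Mat D) | ∀ i, p.1 i ∈ Pos D}) hK hK.measurableSet
    (by fun_prop) (hf.continuousOn.integrableOn_compact hK)
    (by
      simp only [Set.ofPred_forall]
      exact isOpen_iInter_of_finite fun i =>
        isOpen_pos.preimage ((continuous_apply i).comp continuous_fst))
    (Ψ := fun p => ∏ i, kern r μ ρ (p.1 i) (p.2 i))
    (fun p hp => contDiffAt_prod fun i _ => by
      have a1 : ContDiffAt ℝ ∞ (fun p : (Fin m → Mat D) × (Fin m → Mat D) => p.1 i) p :=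
        (contDiffAt_apply ℝ _ i _).comp p contDiffAt_fst
      have a2 : ContDiffAt ℝ ∞ (fun p : (Fin m → Mat D) × (Fin m → Mat D) => p.2 i) p :=
        (contDiffAt_apply ℝ _ i _).comp p contDiffAt_snd
      exact ContDiffAt.div
        (ContDiffAt.comp (f := fun p : (Fin m → Mat D) × (Fin m → Mat D) => (p.1 i, p.2 i)) p
          (ker0_smooth r (hp i)) (a1.prodMk a2))
        (ContDiffAt.comp (f := fun p : (Fin m → Mat D) × (Fin m → Mat D) => p.1 i) p
          (mass_smooth r μ hρ hprop (hp i)) a1)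
        (mass_pos r μ hρ hprop hrange (hp i)).ne')
    (x₀ := h) (fun _ _ => hh)
  refine h1.congr_of_eventuallyEq ?_
  have h2 : ∀ᶠ x : Fin m → Mat D in 𝓝 h, ∀ i, x i ∈ Pos D ∧
      ∀ y, ker0 r (x i, y) ≠ 0 → ∀ a b, |y a b| ≤ R i :=
    eventually_all.2 fun i => (continuous_apply i).continuousAt.eventually (hR i)
  filter_upwards [h2] with x hx
  refine (setIntegral_eq_integral_of_forall_compl_eq_zero fun g hg => ?_).symm
  rw [Set.mem_univ_pi] at hg
  push Not at hg
  obtain ⟨i, hi⟩ := hg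
  have h0 : ker0 r (x i, ρ (g i)) = 0 := by
    by_contra h0
    exact hi ((hx i).2 _ h0)
  rw [Finset.prod_eq_zero (Finset.mem_univ i) (by simp only [kern, h0, zero_div]), mul_zero]

end kernel

end Smoothing

open Smoothing in
theorem smoothing {G : Type} [Group G] [TopologicalSpace G] [IsTopologicalGroup G] [T2Space G]
    [LocallyCompactSpace G] [SecondCountableTopology G] {D : ℕ} (L : LData D) (r : Retr L)
    (ρ : G →* Mat D) (hρ : Continuous ρ)
    (hprop : ∀ R : ℝ, IsCompact {g : G | ∀ i j, |ρ g i j| ≤ R}) (hrange : Set.range ρ = L.Gam)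
    (n : ℕ) (f : (Fin (n + 1) → G) → ℝ) (hf : Continuous f)
    (hinv : ∀ (h : G) (x : Fin (n + 1) → G), f (fun j => h * x j) = f x)
    (hcoc : ∀ x : Fin (n + 2) → G, cob f x = 0) :
    ∃ F : (Fin (n + 1) → Mat D) → ℝ, IsSCoc (Pos D) L.acts F ∧
      ∃ g : (Fin n → G) → ℝ, Continuous g ∧
        (∀ (h : G) (x : Fin n → G), g (fun j => h * x j) = g x) ∧
        ∀ x : Fin (n + 1) → G, F (fun i => act (ρ (x i)⁻¹) 1) = f x + cob g x := by
  borelize G
  let μ : Measure G := Measure.haar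
  have k1 : ∀ {h}, h ∈ Pos D → _ := kern_cont r μ hρ
  have k2 : ∀ {h}, h ∈ Pos D → _ := kern_supp r μ hprop
  have k3 : ∀ {h}, h ∈ Pos D → _ := kern_one r μ hρ hprop hrange
  have hP : Continuous (pr n f) :=
    (pr_continuous n Unit (fun _ => f) (hf.comp continuous_snd)).comp (Continuous.prodMk_right ())
  have hP' : Continuous fun p : (Fin n → G) × (Fin n → G) =>
      pr n f fun i => (p.1 i, p.1 i * p.2 i) := hP.comp (by fun_prop)
  refine ⟨fun h => av μ (fun i g => kern r μ ρ (h i) (ρ g)) f,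
    ⟨fun h hh => av_smooth r μ hρ hprop hrange hf hh, fun h hh => ?_, ?_⟩,
    fun x => av μ (fun _ g => kern r μ ρ 1 (ρ g)) fun g => pr n f fun i => (x i, x i * g i),
    av_continuous μ (fun _ => k1 one_mem_pos) (fun _ => k2 one_mem_pos) hP', fun a x => ?_,
    fun x => ?_⟩
  · have h1 := av_cob μ (κ := fun i g => kern r μ ρ (h i) (ρ g)) (fun i => k1 (hh i))
      (fun i => k2 (hh i)) (fun i => k3 (hh i)) (fun _ => f) fun _ => hf
    have h2 : (fun g : Fin (n + 2) → G =>
        ∑ i : Fin (n + 2), (-1 : ℝ) ^ (i : ℕ) • f (g ∘ i.succAbove)) = fun _ => 0 := funext hcoc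
    rw [h2] at h1
    refine h1.symm.trans ?_
    simp [av]
  · rintro _ ⟨γ, hγ, rfl⟩ h hh
    obtain ⟨a, rfl⟩ : γ ∈ Set.range ρ := hrange ▸ hγ
    rw [av_mul μ (fun i g => kern r μ ρ (h i) (ρ g)) f fun _ => a]
    exact congrArg₂ (av μ) (funext fun i => funext fun g => kern_act r μ hrange a (hh i) g)
      (funext fun g => (hinv a g).symm)
  · refine congrArg (av μ _) (funext fun g => ?_)
    have := pr_map (fun y => a * y) n f fun i => (x i, x i * g i)
    simp only [hinv, ← mul_assoc] at this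
    exact this
  · beta_reduce
    rw [av_mul μ _ f x]
    simp only [kern_act r μ hrange _ one_mem_pos, inv_mul_cancel_left]
    have h0 : cob f = fun _ => 0 := funext hcoc
    have h1 : (fun g : Fin (n + 1) → G => f (x * g)) = fun g => f x +
        ∑ i : Fin (n + 1), (-1 : ℝ) ^ (i : ℕ) • (fun g' : Fin n → G =>
          pr n f fun j => (x (i.succAbove j), x (i.succAbove j) * g' j)) (g ∘ i.succAbove) := by
      funext g
      have := pr_cob n f fun i => (x i, x i * g i)
      rw [h0, pr_zero, zero_add] at this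
      exact (sub_eq_iff_eq_add'.1 this.symm)
    rw [h1, av_add_const μ (fun _ => k1 one_mem_pos) (fun _ => k2 one_mem_pos)
      (fun _ => k3 one_mem_pos)]
    · exact congrArg (f x + ·) (av_cob μ (fun _ => k1 one_mem_pos) (fun _ => k2 one_mem_pos)
        (fun _ => k3 one_mem_pos) (fun i g' =>
          pr n f fun j => (x (i.succAbove j), x (i.succAbove j) * g' j))
        fun i => hP.comp (by fun_prop))
    · exact continuous_finsetSum _ fun i _ => (hP.comp (f := fun (g : Fin (n + 1) → G) j =>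
        (x (i.succAbove j), x (i.succAbove j) * g (i.succAbove j))) (by fun_prop)).const_smul
        ((-1 : ℝ) ^ (i : ℕ))

end Pool.Agent.Lib.MP_cdc9ab_al
end

-- part Pool.Agent.Lib.MP_cdc9ab_al.Retr
section

open scoped Matrix.Norms.Operator ContDiff Matrix
open Finset

namespace Pool.Agent.Lib.MP_cdc9ab_al

namespace LData
variable {D : ℕ} (L : LData D)

/-- The symmetric part of the adjoint representation. -/
noncomputable def Zv (y : Fin D → ℝ) : Mat D := ∑ a, y a • L.Y a

theorem Zv_eq_adv (y) : L.Zv y = L.adv (fun a => y a * L.ip a) := by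
  simp [Zv, adv, Y, smul_smul]

theorem Zv_transpose (y) : (L.Zv y)ᵀ = L.Zv y := by
  simp [Zv, Matrix.transpose_sum, Y_transpose]

theorem Zv_smul (t : ℝ) (y) : L.Zv (t • y) = t • L.Zv y := by
  simp [Zv, Finset.smul_sum, smul_smul]

theorem Zv_zero : L.Zv 0 = 0 := by simp [Zv]

theorem Zv_single (a : Fin D) : L.Zv (Pi.single a 1) = L.Y a := by
  simp [Zv, Pi.single_apply]

theorem exp_Zv_mem (y) : NormedSpace.exp (L.Zv y) ∈ L.Gam := by
  rw [Zv_eq_adv]; exact L.exp_mem_gam _

theorem exp_Zv_transpose (y) : (NormedSpace.exp (L.Zv y))ᵀ = NormedSpace.exp (L.Zv y) := by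
  rw [← Matrix.exp_transpose, Zv_transpose]

theorem adv_symm {y} (h : (L.adv y)ᵀ = L.adv y) : L.adv y = L.Zv y := by
  rw [adv_transpose] at h
  have h1 := L.adv_injective h
  rw [Zv_eq_adv]
  congr 1
  funext a
  have := congrFun h1 a
  rw [Matrix.mulVec_diagonal] at this
  simp only [ip]
  linarith

variable {L} in
/-- A positive symmetric automorphism is the exponential of an element of `p`. -/
theorem Aut.log {p : Mat D} (hp : L.Aut p) (h1 : p ∈ Pos D) (h2 : pᵀ = p) :
    ∃ y, NormedSpace.exp (L.Zv y) = p := by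
  obtain ⟨U, μ, hU1, hU2, hU3⟩ := spectral h1 h2
  set Z := U * Matrix.diagonal μ * Uᵀ with hZ
  have hZs : Zᵀ = Z := by simp [hZ, Matrix.transpose_mul, mul_assoc]
  have hcol : ∀ (ν : Fin D → ℝ) i, (U * Matrix.diagonal ν * Uᵀ) *ᵥ (U *ᵥ Pi.single i 1) =
      ν i • (U *ᵥ Pi.single i 1) := by
    intro ν i
    rw [Matrix.mulVec_mulVec, mul_assoc, hU1, mul_one, ← Matrix.mulVec_mulVec,
      Matrix.diagonal_mulVec_single, ← Matrix.mulVec_smul, ← Pi.single_smul]
    simp
  have hconj : ∀ (ν : Fin D → ℝ) (A : Mat D),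
      Uᵀ * (U * Matrix.diagonal ν * Uᵀ * A) * U = Matrix.diagonal ν * (Uᵀ * A * U) ∧
      Uᵀ * (A * (U * Matrix.diagonal ν * Uᵀ)) * U = (Uᵀ * A * U) * Matrix.diagonal ν := by
    intro ν A
    constructor
    · rw [← mul_assoc, ← mul_assoc, ← mul_assoc, hU1, one_mul]
      simp only [mul_assoc]
    · simp only [mul_assoc, hU1, mul_one]
  have hcan : ∀ A B : Mat D, Uᵀ * A * U = Uᵀ * B * U → A = B := by
    intro A B h
    have := congrArg (fun M => U * M * Uᵀ) h
    simpa only [← mul_assoc, hU2, one_mul, mul_assoc _ U Uᵀ, mul_one] using this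
  have hder : ∀ i, Z * L.adv (U *ᵥ Pi.single i 1) - L.adv (U *ᵥ Pi.single i 1) * Z =
      L.adv (Z *ᵥ (U *ᵥ Pi.single i 1)) := by
    intro i
    have e1 := hp.2 (U *ᵥ Pi.single i 1)
    rw [hU3, hcol, adv_smul, Matrix.smul_mul] at e1
    have e2 := congrArg (fun M => Uᵀ * M * U) e1
    simp only [Matrix.mul_smul, Matrix.smul_mul, (hconj _ _).1, (hconj _ _).2] at e2
    apply hcan
    rw [hZ, hcol, adv_smul, mul_sub, sub_mul, (hconj _ _).1, (hconj _ _).2, Matrix.mul_smul,
      Matrix.smul_mul]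
    set A := Uᵀ * L.adv (U *ᵥ Pi.single i 1) * U
    ext j k
    have e3 := congrFun (congrFun e2 j) k
    simp only [Matrix.diagonal_mul, Matrix.mul_diagonal, Matrix.smul_apply, smul_eq_mul,
      Matrix.sub_apply] at e3 ⊢
    by_cases hA : A j k = 0
    · simp [hA]
    · have e4 : Real.exp (μ j) = Real.exp (μ i + μ k) := by
        rw [Real.exp_add]
        apply mul_right_cancel₀ hA
        linarith
      rw [Real.exp_eq_exp] at e4
      rw [e4]; ring
  obtain ⟨y, hy⟩ := L.der_inner Z fun x => by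
    have hx : x = ∑ i, (Uᵀ *ᵥ x) i • (U *ᵥ Pi.single i 1) := by
      simp only [← Matrix.mulVec_smul, ← Matrix.mulVec_sum]
      rw [← pi_eq_sum_univ', Matrix.mulVec_mulVec, hU2, Matrix.one_mulVec]
    rw [hx]
    simp only [← advL_apply, map_sum, map_smul, Matrix.mulVec_sum, Matrix.mulVec_smul,
      Finset.mul_sum, Finset.sum_mul, Matrix.mul_smul, Matrix.smul_mul, ← Finset.sum_sub_distrib,
      ← smul_sub]
    exact Finset.sum_congr rfl fun i _ => by simp only [advL_apply]; rw [hder]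
  refine ⟨y, ?_⟩
  rw [← L.adv_symm (hy ▸ hZs), ← hy, hZ, exp_spec hU1, ← hU3]

variable {L} in
/-- Polar decomposition in the adjoint group. -/
theorem polar {g : Mat D} (hg : g ∈ L.Gam) :
    ∃ y, ∃ k ∈ L.K, g = NormedSpace.exp (L.Zv y) * k := by
  have hgt := transpose_mem_gam hg
  have h1 : g * gᵀ ∈ Pos D := by
    have := act_mem_pos (isUnit_of_gam hgt) (one_mem_pos (D := D))
    simpa using this
  obtain ⟨y, hy⟩ := (aut_of_gam (L.Gam.mul_mem hg hgt)).log h1
    (by rw [Matrix.transpose_mul, Matrix.transpose_transpose])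
  set e := NormedSpace.exp (L.Zv ((1 / 2 : ℝ) • y)) with he
  have hem : e ∈ L.Gam := L.exp_Zv_mem _
  have hes : eᵀ = e := L.exp_Zv_transpose _
  have hee : e * e = g * gᵀ := by rw [he, Zv_smul, exp_half, hy]
  have hd := (Matrix.isUnit_iff_isUnit_det e).mp (isUnit_of_gam hem)
  refine ⟨(1 / 2 : ℝ) • y, e⁻¹ * g, ⟨L.Gam.mul_mem (inv_mem_gam hem) hg, ?_⟩, ?_⟩
  · rw [mul_eq_one_comm, Matrix.transpose_mul, Matrix.transpose_nonsing_inv, hes, mul_assoc,
      ← mul_assoc g, ← hee, mul_assoc, Matrix.mul_nonsing_inv _ hd, mul_one,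
      Matrix.nonsing_inv_mul _ hd]
  · rw [← mul_assoc, Matrix.mul_nonsing_inv _ hd, one_mul]

/-- Critical frames. -/
def Crit (h g : Mat D) : Prop := ∀ a, (L.Y a * (gᵀ * h * g)).trace = 0

variable {L} in
theorem Crit.mul_K {h g k : Mat D} (hc : L.Crit h g) (hk : k ∈ L.K) : L.Crit h (g * k) := by
  intro a
  have h1 := K_conj_Y (transpose_mem_K hk) a
  rw [Matrix.transpose_transpose] at h1
  rw [Matrix.transpose_mul, show L.Y a * (kᵀ * gᵀ * h * (g * k)) =
    (L.Y a * kᵀ * (gᵀ * h * g)) * k by simp only [mul_assoc], Matrix.trace_mul_comm,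
    ← mul_assoc k, ← mul_assoc k, h1]
  simp [Finset.sum_mul, Matrix.trace_sum, hc _]

variable {L} in
theorem Crit.trace_Zv {h g : Mat D} (hc : L.Crit h g) (y) :
    (L.Zv y * (gᵀ * h * g)).trace = 0 := by
  simp [Zv, Finset.sum_mul, Matrix.trace_sum, hc _]

end LData

variable {D : ℕ}

/-- The trace against a fixed matrix. -/
noncomputable def trL (W : Mat D) : Mat D →L[ℝ] ℝ :=
  LinearMap.toContinuousLinearMap (Matrix.traceLinearMap _ ℝ ℝ ∘ₗ LinearMap.mulLeft ℝ W)

theorem trL_apply (W A : Mat D) : trL W A = (W * A).trace := rfl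

theorem hasDerivAt_moment (W Z m : Mat D) (t : ℝ) :
    HasDerivAt (fun t : ℝ => (W * (NormedSpace.exp (t • Z) * m * NormedSpace.exp (t • Z))).trace)
      (W * (Z * NormedSpace.exp (t • Z) * m * NormedSpace.exp (t • Z) +
        NormedSpace.exp (t • Z) * m * (NormedSpace.exp (t • Z) * Z))).trace t := by
  have h1 := hasDerivAt_exp_smul_const (𝕂 := ℝ) Z t
  have h2 := hasDerivAt_exp_smul_const' (𝕂 := ℝ) Z t
  exact (trL W).hasFDerivAt.comp_hasDerivAt t ((h2.mul_const m).mul h1)

theorem trace_second {Z : Mat D} (hZ : Zᵀ = Z) (e m : Mat D) (he : eᵀ = e) :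
    (Z * (Z * e * m * e + e * m * (e * Z))).trace = 2 * ((e * Z)ᵀ * m * (e * Z)).trace := by
  rw [mul_add, Matrix.trace_add, Matrix.trace_mul_comm Z, Matrix.transpose_mul, hZ, he, two_mul]
  simp only [mul_assoc]

theorem exists_coercive {h : Mat D} (hh : h ∈ Pos D) :
    ∃ c > 0, ∀ v : Fin D → ℝ, c * ‖v‖ ^ 2 ≤ v ⬝ᵥ h *ᵥ v := by
  by_cases hD : Subsingleton (Fin D → ℝ)
  · exact ⟨1, one_pos, fun v => by rw [Subsingleton.elim v 0]; simp⟩
  have : Nontrivial (Fin D → ℝ) := not_subsingleton_iff_nontrivial.mp hD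
  have hc : Continuous fun v : Fin D → ℝ => v ⬝ᵥ h *ᵥ v :=
    continuous_id.dotProduct (continuous_const.matrix_mulVec continuous_id)
  obtain ⟨w, hw, hmin⟩ := (isCompact_sphere (0 : Fin D → ℝ) 1).exists_isMinOn
    (NormedSpace.sphere_nonempty.mpr zero_le_one) hc.continuousOn
  have hw0 : w ≠ 0 := by rintro rfl; simp at hw
  refine ⟨_, hh w hw0, fun v => ?_⟩
  by_cases hv : v = 0
  · simp [hv]
  have hn : ‖v‖ ≠ 0 := norm_ne_zero_iff.mpr hv
  have h1 : w ⬝ᵥ h *ᵥ w ≤ (‖v‖⁻¹ • v) ⬝ᵥ h *ᵥ (‖v‖⁻¹ • v) := hmin (by simp [norm_smul, hn])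
  rw [Matrix.mulVec_smul, dotProduct_smul, smul_dotProduct, smul_eq_mul, smul_eq_mul] at h1
  have h2 := mul_le_mul_of_nonneg_right h1 (sq_nonneg ‖v‖)
  refine h2.trans (le_of_eq ?_)
  field_simp

namespace LData
variable (L : LData D)

variable {L} in
/-- Critical frames are unique up to `K`. -/
theorem Crit.unique {h g₁ g₂ : Mat D} (hh : h ∈ Pos D) (h₁ : g₁ ∈ L.Gam) (h₂ : g₂ ∈ L.Gam)
    (c₁ : L.Crit h g₁) (c₂ : L.Crit h g₂) : ∃ k ∈ L.K, g₂ = g₁ * k := by
  have hd := (Matrix.isUnit_iff_isUnit_det g₁).mp (isUnit_of_gam h₁)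
  obtain ⟨y, k, hk, e⟩ := polar (L.Gam.mul_mem (inv_mem_gam h₁) h₂)
  have e1 : g₂ = g₁ * NormedSpace.exp (L.Zv y) * k := by
    rw [mul_assoc, ← e, ← mul_assoc, Matrix.mul_nonsing_inv _ hd, one_mul]
  have c₃ := c₂.mul_K (transpose_mem_K hk)
  rw [e1, mul_assoc _ k, K_mul_transpose hk, mul_one] at c₃
  set Z := L.Zv y with hZ
  set m := g₁ᵀ * h * g₁ with hm
  have hmp : m ∈ Pos D := by
    have := act_mem_pos (isUnit_of_gam h₁) hh
    rwa [act_apply] at this
  have hZs : Zᵀ = Z := L.Zv_transpose y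
  have hes : ∀ t : ℝ, (NormedSpace.exp (t • Z))ᵀ = NormedSpace.exp (t • Z) := fun t => by
    rw [← Matrix.exp_transpose, Matrix.transpose_smul, hZs]
  obtain ⟨t, -, ht⟩ := exists_hasDerivAt_eq_zero (a := 0) (b := 1) zero_lt_one
    (fun t _ => (hasDerivAt_moment Z Z m t).continuousAt.continuousWithinAt) (by
      have a1 := c₁.trace_Zv y
      have a2 := c₃.trace_Zv y
      rw [Matrix.transpose_mul, L.exp_Zv_transpose] at a2
      simp only [zero_smul, one_smul, NormedSpace.exp_zero, one_mul, mul_one]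
      rw [a1, ← a2, hm]
      simp only [mul_assoc, hZ]) (fun t _ => hasDerivAt_moment Z Z m t)
  rw [trace_second hZs _ _ (hes t)] at ht
  have h0 := eq_zero_of_trace_conj hmp (x := NormedSpace.exp (t • Z) * Z) (by linarith)
  have h1 : Z = 0 := (Matrix.isUnit_exp (t • Z)).mul_right_eq_zero.mp h0
  refine ⟨k, hk, ?_⟩
  rw [e1, h1, NormedSpace.exp_zero, mul_one]

/-- Existence of critical frames. -/
theorem exists_crit (hL : L.Proper) {h : Mat D} (hh : h ∈ Pos D) : ∃ g ∈ L.Gam, L.Crit h g := by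
  obtain ⟨c, hc, hco⟩ := exists_coercive hh
  let F : Mat D → ℝ := fun g => (gᵀ * h * g).trace
  have hF : Continuous F :=
    ((continuous_id.matrix_transpose.matrix_mul continuous_const).matrix_mul
      continuous_id).matrix_trace
  have hlow : ∀ (g : Mat D) i j, c * |g i j| ^ 2 ≤ F g := by
    intro g i j
    have h1 : |g i j| ≤ ‖g.col j‖ := norm_le_pi_norm (g.col j) i
    have h2 := Finset.single_le_sum (f := fun j => g.col j ⬝ᵥ h *ᵥ g.col j)
      (fun j _ => pos_nonneg hh _) (Finset.mem_univ j)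
    rw [← trace_conj_eq] at h2
    refine le_trans ?_ ((hco _).trans h2)
    gcongr
  set R := 1 + F 1 / c with hR
  have hF1 : 0 ≤ F 1 := trace_conj_nonneg hh 1
  have hR1 : 1 ≤ R := by
    have := div_nonneg hF1 hc.le
    linarith
  have h1 : (1 : Mat D) ∈ {g : Mat D | g ∈ L.Gam ∧ ∀ i j, |g i j| ≤ R} := by
    refine ⟨L.Gam.one_mem, fun i j => le_trans ?_ hR1⟩
    rw [Matrix.one_apply]
    split_ifs <;> simp
  obtain ⟨g, hg, hmin⟩ := (hL R).exists_isMinOn ⟨1, h1⟩ hF.continuousOn
  have hglob : ∀ g' ∈ L.Gam, F g ≤ F g' := by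
    intro g' hg'
    by_cases hb : ∀ i j, |g' i j| ≤ R
    · exact hmin ⟨hg', hb⟩
    · push Not at hb
      obtain ⟨i, j, hij⟩ := hb
      have h2 : F g ≤ F 1 := hmin h1
      have h3 := hlow g' i j
      have h4 : c * R = c + F 1 := by rw [hR]; field_simp
      have h5 : R ≤ |g' i j| ^ 2 := by nlinarith
      nlinarith
  refine ⟨g, hg.1, fun a => ?_⟩
  have hd := hasDerivAt_moment 1 (L.Y a) (gᵀ * h * g) 0
  have hloc : IsLocalMin (fun t : ℝ => ((1 : Mat D) * (NormedSpace.exp (t • L.Y a) * (gᵀ * h * g) *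
      NormedSpace.exp (t • L.Y a))).trace) 0 := by
    refine Filter.Eventually.of_forall fun t => ?_
    have hm := L.exp_Zv_mem (t • Pi.single a 1)
    have hs := L.exp_Zv_transpose (t • Pi.single a 1)
    rw [Zv_smul, Zv_single] at hm hs
    have := hglob _ (L.Gam.mul_mem hg.1 hm)
    simp only [F, Matrix.transpose_mul, hs] at this
    simpa only [zero_smul, NormedSpace.exp_zero, one_mul, mul_one, mul_assoc] using this
  have h0 := hloc.hasDerivAt_eq_zero hd
  simp only [zero_smul, NormedSpace.exp_zero, one_mul, mul_one, Matrix.trace_add] at h0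
  rw [Matrix.trace_mul_comm _ (L.Y a)] at h0
  linarith

theorem exists_crit_symm (hL : L.Proper) {h : Mat D} (hh : h ∈ Pos D) :
    ∃ q ∈ L.Gam, qᵀ = q ∧ q ∈ Pos D ∧ L.Crit h q := by
  obtain ⟨g, hg, hc⟩ := L.exists_crit hL hh
  obtain ⟨y, k, hk, e⟩ := polar hg
  have c₃ := hc.mul_K (transpose_mem_K hk)
  rw [e, mul_assoc _ k, K_mul_transpose hk, mul_one] at c₃
  exact ⟨_, L.exp_Zv_mem y, L.exp_Zv_transpose y, exp_mem_pos (L.Zv_transpose y), c₃⟩

theorem contDiff_Zv : ContDiff ℝ ∞ L.Zv :=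
  ContDiff.sum fun a _ => (contDiff_apply ℝ ℝ a).smul contDiff_const

/-- A smooth local family of critical frames. -/
theorem exists_crit_smooth {h₀ q₀ : Mat D} (hh : h₀ ∈ Pos D) (hq : q₀ ∈ L.Gam)
    (hc : L.Crit h₀ q₀) : ∃ γ : Mat D → Mat D, ContDiffAt ℝ ∞ γ h₀ ∧ γ h₀ = q₀ ∧
      ∀ᶠ h in nhds h₀, γ h ∈ L.Gam ∧ L.Crit h (γ h) := by
  have hexp : ContDiff ℝ ∞ (NormedSpace.exp : Mat D → Mat D) :=
    contDiff_iff_contDiffAt.2 fun x => (NormedSpace.exp_analytic (𝕂 := ℝ) x).contDiffAt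
  have hE : ContDiff ℝ ∞ fun y => NormedSpace.exp (L.Zv y) := hexp.comp L.contDiff_Zv
  let Φ : Mat D × (Fin D → ℝ) → Fin D → ℝ := fun z a =>
    (L.Y a * (NormedSpace.exp (L.Zv z.2) * (q₀ᵀ * z.1 * q₀) * NormedSpace.exp (L.Zv z.2))).trace +
      (1 - L.ip a) * z.2 a
  have hΦ : ContDiff ℝ ∞ Φ := by
    refine contDiff_pi.2 fun a => ContDiff.add ?_
      (contDiff_const.mul ((contDiff_apply ℝ ℝ a).comp contDiff_snd))
    exact (trL (L.Y a)).contDiff.comp (((hE.comp contDiff_snd).mul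
      ((contDiff_const.mul contDiff_fst).mul contDiff_const)).mul (hE.comp contDiff_snd))
  let F : Mat D × (Fin D → ℝ) → Mat D × (Fin D → ℝ) := fun z => (z.1, Φ z)
  have hF : ContDiff ℝ ∞ F := contDiff_fst.prodMk hΦ
  set m := q₀ᵀ * h₀ * q₀ with hm
  have hmp : m ∈ Pos D := by
    have := act_mem_pos (isUnit_of_gam hq) hh
    rwa [act_apply] at this
  have hF0 : F (h₀, 0) = (h₀, 0) := by
    refine Prod.ext rfl (funext fun a => ?_)
    simp only [F, Φ, Zv_zero, NormedSpace.exp_zero, one_mul, mul_one, Pi.zero_apply, mul_zero,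
      add_zero]
    exact hc a
  obtain ⟨G, hG1, hG2, hG3⟩ := local_inv (hF.contDiffAt (x := (h₀, 0))) (fun v hv => by
    have hd := (hF.differentiable (by simp) (h₀, 0)).hasFDerivAt
    have h1 : v.1 = 0 := by
      have e1 := (hasFDerivAt_fst.comp _ hd).unique (hasFDerivAt_fst (𝕜 := ℝ) (p := (h₀, 0)))
      have e2 := congrArg (fun T => T v) e1
      simp only [ContinuousLinearMap.comp_apply, hv, map_zero] at e2
      exact e2.symm
    have hline : HasDerivAt (fun t : ℝ => ((h₀, t • v.2) : Mat D × (Fin D → ℝ))) v 0 := by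
      have := (hasDerivAt_const (0 : ℝ) h₀).prodMk ((hasDerivAt_id (0 : ℝ)).smul_const v.2)
      rwa [one_smul, ← h1] at this
    have h2 := hd.comp_hasDerivAt_of_eq 0 hline (by simp)
    rw [hv] at h2
    have h3 : ∀ a, (L.Y a * (L.Zv v.2 * m + m * L.Zv v.2)).trace + (1 - L.ip a) * v.2 a = 0 := by
      intro a
      have e1 := (((ContinuousLinearMap.proj (R := ℝ) (φ := fun _ : Fin D => ℝ) a).comp
        (ContinuousLinearMap.snd ℝ (Mat D) (Fin D → ℝ))).hasFDerivAt).comp_hasDerivAt 0 h2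
      have e2 := (hasDerivAt_moment (L.Y a) (L.Zv v.2) m 0).add
        ((hasDerivAt_id (0 : ℝ)).const_mul ((1 - L.ip a) * v.2 a))
      simp only [zero_smul, NormedSpace.exp_zero, one_mul, mul_one] at e2
      rw [map_zero] at e1
      refine HasDerivAt.unique e2 (e1.congr_of_eventuallyEq (Filter.Eventually.of_forall fun t => ?_))
      simp only [F, Φ, Zv_smul, Function.comp_apply, ContinuousLinearMap.comp_apply,
        ContinuousLinearMap.coe_snd', ContinuousLinearMap.proj_apply, Pi.add_apply, id,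
        Pi.smul_apply, smul_eq_mul]
      ring
    have h4 : ∀ a, (L.Y a * (L.Zv v.2 * m + m * L.Zv v.2)).trace = 0 ∧
        (1 - L.ip a) * v.2 a = 0 := by
      intro a
      have := h3 a
      rcases L.s_sq a with hs | hs
      · have hip : L.ip a = 1 := by simp [ip, hs]
        rw [hip] at this ⊢
        constructor <;> linarith
      · have hip : L.Y a = 0 := by simp [Y, ip, hs]
        rw [hip, zero_mul, Matrix.trace_zero] at this ⊢
        constructor <;> linarith
    have h5 : (L.Zv v.2 * (L.Zv v.2 * m + m * L.Zv v.2)).trace = 0 := by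
      conv_lhs => enter [1, 1]; rw [Zv]
      simp only [Finset.sum_mul, Matrix.trace_sum, Matrix.smul_mul, Matrix.trace_smul, (h4 _).1,
        smul_zero, Finset.sum_const_zero]
    have h6 := trace_second (L.Zv_transpose v.2) 1 m Matrix.transpose_one
    simp only [one_mul, mul_one] at h6
    have h7 := eq_zero_of_trace_conj hmp (x := L.Zv v.2) (by linarith)
    rw [Zv_eq_adv, ← adv_zero] at h7
    have h8 := L.adv_injective h7
    refine Prod.ext h1 (funext fun a => ?_)
    have := congrFun h8 a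
    have := (h4 a).2
    simp only [Pi.zero_apply, Prod.snd_zero] at *
    linarith)
  rw [hF0] at hG1 hG2 hG3
  have hι : ContDiffAt ℝ ∞ (fun h : Mat D => ((h, 0) : Mat D × (Fin D → ℝ))) h₀ :=
    contDiffAt_id.prodMk contDiffAt_const
  have hG4 : ContDiffAt ℝ ∞ (fun h : Mat D => G (h, 0)) h₀ :=
    ContDiffAt.comp (g := G) h₀ hG1 hι
  refine ⟨fun h => q₀ * NormedSpace.exp (L.Zv (G (h, 0)).2), contDiffAt_const.mul
    (hE.contDiffAt.comp h₀ hG4.snd), ?_, ?_⟩
  · simp only [hG2, Zv_zero, NormedSpace.exp_zero, mul_one]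
  · filter_upwards [hι.continuousAt.eventually hG3] with h hh
    refine ⟨L.Gam.mul_mem hq (L.exp_Zv_mem _), fun a => ?_⟩
    have e1 : (G (h, 0)).1 = h := congrArg Prod.fst hh
    have e2 := congrFun (congrArg Prod.snd hh) a
    simp only [F, Φ, e1, Pi.zero_apply] at e2
    rcases L.s_sq a with hs | hs
    · have hip : L.ip a = 1 := by simp [ip, hs]
      rw [hip, sub_self, zero_mul, add_zero] at e2
      rw [Matrix.transpose_mul, exp_Zv_transpose, ← e2]
      simp only [mul_assoc]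
    · have hip : L.Y a = 0 := by simp [Y, ip, hs]
      rw [hip, zero_mul, Matrix.trace_zero]

end LData

theorem exists_retr {D : ℕ} (L : LData D) (hL : L.Proper) : Nonempty (Retr L) := by
  classical
  have hex : ∀ h : Mat D, ∃ q, h ∈ Pos D → q ∈ L.Gam ∧ qᵀ = q ∧ q ∈ Pos D ∧ L.Crit h q := by
    intro h
    by_cases hh : h ∈ Pos D
    · obtain ⟨q, hq⟩ := L.exists_crit_symm hL hh
      exact ⟨q, fun _ => hq⟩
    · exact ⟨0, fun h' => absurd h' hh⟩
  choose q hq using hex
  have hsq : ∀ h ∈ Pos D, ∀ g ∈ L.Gam, L.Crit h g → g * gᵀ = q h * q h := by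
    intro h hh g hg hc
    obtain ⟨k, hk, e⟩ := LData.Crit.unique hh (hq h hh).1 hg (hq h hh).2.2.2 hc
    rw [e, Matrix.transpose_mul, (hq h hh).2.1, mul_assoc, ← mul_assoc k,
      LData.K_mul_transpose hk, one_mul]
  refine ⟨⟨q, fun h hh => ?_, fun h hh => (hq h hh).1, fun h hh => (hq h hh).2.1,
    fun h hh => (hq h hh).2.2.1, fun h hh a => ?_, fun g hg h hh => ?_, ?_⟩⟩
  · obtain ⟨γ, hγ1, hγ2, hγ3⟩ := L.exists_crit_smooth hh (hq h hh).1 (hq h hh).2.2.2
    obtain ⟨sq, hs⟩ := exists_sqrt D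
    have hpos : ∀ h ∈ Pos D, q h * q h ∈ Pos D ∧ (q h * q h)ᵀ = q h * q h := by
      intro h hh
      have := act_mem_pos (isUnit_of_pos (hq h hh).2.2.1) (one_mem_pos (D := D))
      rw [act_apply, mul_one, (hq h hh).2.1] at this
      exact ⟨this, by rw [Matrix.transpose_mul, (hq h hh).2.1]⟩
    let T : Mat D →L[ℝ] Mat D :=
      LinearMap.toContinuousLinearMap (Matrix.transposeLinearEquiv _ _ ℝ ℝ).toLinearMap
    have h1 : ContDiffAt ℝ ∞ (fun h => γ h * (γ h)ᵀ) h :=
      hγ1.mul (T.contDiff.contDiffAt.comp _ hγ1)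
    have h2 : ContDiffAt ℝ ∞ sq (γ h * (γ h)ᵀ) := by
      rw [hγ2, (hq h hh).2.1]
      exact (hs _ (hpos h hh).1 (hpos h hh).2).1
    refine (h2.comp h h1).congr_of_eventuallyEq ?_
    filter_upwards [hγ3, isOpen_pos.mem_nhds hh] with h' h3 h4
    have h5 := hs _ (hpos h' h4).1 (hpos h' h4).2
    rw [Function.comp_apply, hsq h' h4 _ h3.1 h3.2]
    exact sqrt_unique' (hq h' h4).2.2.1 h5.2.1 h5.2.2.2.symm
  · have := (hq h hh).2.2.2 a
    rwa [(hq h hh).2.1] at this
  · have hp := act_mem_pos (LData.isUnit_of_gam hg) hh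
    refine LData.Crit.unique hh (hq h hh).1 (L.Gam.mul_mem hg (hq _ hp).1) (hq h hh).2.2.2
      fun a => ?_
    have := (hq _ hp).2.2.2 a
    rw [Matrix.transpose_mul, ← this, act_apply]
    simp only [mul_assoc]
  · have := hsq 1 one_mem_pos 1 L.Gam.one_mem fun a => by
      rw [← L.Zv_single, L.Zv_eq_adv]
      simp [L.trace_adv]
    rw [Matrix.transpose_one] at this
    exact sqrt_unique' (hq 1 one_mem_pos).2.2.1 one_mem_pos this.symm

end Pool.Agent.Lib.MP_cdc9ab_al
end
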