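import Pool.Agent.Lib.MP_cdc9ab_al.Sqrt

-- part Pool.Agent.Lib.MP_cdc9ab_al.SetupSlice
section

open scoped Matrix.Norms.Operator ContDiff Matrix Topology
open Finset Filter

namespace Pool.Agent.Lib.MP_cdc9ab_al

namespace LData
variable {D : ℕ} (L : LData D)

/-- The coordinates of the orthogonal projection to inner derivations. -/
noncomputable def coord : Mat D →ₗ[ℝ] (Fin D → ℝ) where
  toFun m b := (m * (L.ad b)ᵀ).trace
  map_add' m n := by funext b; simp [add_mul]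
  map_smul' c m := by funext b; simp

theorem coord_adv (x) : L.coord (L.adv x) = x := by
  funext b; exact L.trace_adv_mul x b

/-- The linearised automorphism equation together with the slice condition. -/
noncomputable def lin : Mat D →ₗ[ℝ] (Fin D → Mat D) × (Fin D → ℝ) :=
  LinearMap.prod
    { toFun := fun n b => n * L.ad b - L.ad b * n - L.adv (n *ᵥ Pi.single b 1)
      map_add' := fun m n => by
        funext b
        simp only [Matrix.add_mulVec, adv_add, add_mul, mul_add, Pi.add_apply]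
        abel
      map_smul' := fun c m => by
        funext b
        simp only [Matrix.smul_mulVec, adv_smul, Matrix.smul_mul, Matrix.mul_smul, Pi.smul_apply,
          smul_sub, RingHom.id_apply] } L.coord

theorem lin_ker : LinearMap.ker L.lin = ⊥ := by
  rw [LinearMap.ker_eq_bot']
  intro n hn
  have h1 : ∀ b, n * L.ad b - L.ad b * n - L.adv (n *ᵥ Pi.single b 1) = 0 :=
    fun b => congrFun (congrArg Prod.fst hn) b
  have h2 : L.coord n = 0 := congrArg Prod.snd hn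
  obtain ⟨y, rfl⟩ := L.der_inner n fun x => by
    have hx : x = ∑ b, x b • (Pi.single b 1 : Fin D → ℝ) := by
      funext c; simp [Pi.single_apply]
    have h3 : L.adv (n *ᵥ x) = ∑ b, x b • L.adv (n *ᵥ Pi.single b 1) := by
      conv_lhs => rw [hx]
      rw [← Matrix.mulVecLin_apply, map_sum, ← advL_apply, map_sum]
      simp only [map_smul, Matrix.mulVecLin_apply, advL_apply]
    rw [h3, adv, Finset.mul_sum, Finset.sum_mul, ← Finset.sum_sub_distrib]
    refine Finset.sum_congr rfl fun b _ => ?_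
    rw [Matrix.mul_smul, Matrix.smul_mul, ← smul_sub, sub_eq_zero.mp (h1 b)]
  rw [coord_adv] at h2
  rw [h2, adv_zero]

theorem slice_zero : ∀ᶠ n in 𝓝 (0 : Mat D), L.coord n = 0 → L.Aut (1 + n) → n = 0 := by
  obtain ⟨K, hK0, hK⟩ := L.lin.exists_antilipschitzWith L.lin_ker
  have hc : ∀ b, Continuous fun n : Mat D => L.adv (n *ᵥ Pi.single b 1) := fun b =>
    (L.advL ∘ₗ (LinearMap.flip (Matrix.mulVecBilin ℝ ℝ)
      (Pi.single b 1))).continuous_of_finiteDimensional
  have hε : (0 : ℝ) < 1 / (2 * K) := by positivity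
  have h1 : ∀ᶠ n in 𝓝 (0 : Mat D), ∀ b, ‖L.adv (n *ᵥ Pi.single b 1)‖ < 1 / (2 * K) := by
    refine eventually_all.2 fun b => ?_
    refine (hc b).norm.continuousAt.eventually (gt_mem_nhds ?_)
    show ‖L.adv ((0 : Mat D) *ᵥ Pi.single b 1)‖ < _
    rw [Matrix.zero_mulVec, adv_zero, norm_zero]
    exact hε
  filter_upwards [h1] with n hn h0 ha
  have h2 : ‖L.lin n‖ ≤ 1 / (2 * K) * ‖n‖ := by
    rw [Prod.norm_def]
    refine max_le ((pi_norm_le_iff_of_nonneg (by positivity)).2 fun b => ?_) ?_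
    · have h3 := ha.2 (Pi.single b 1)
      rw [Matrix.add_mulVec, Matrix.one_mulVec, adv_add, adv_single] at h3
      have h4 : (L.lin n).1 b = L.adv (n *ᵥ Pi.single b 1) * n := by
        show n * L.ad b - L.ad b * n - L.adv (n *ᵥ Pi.single b 1) = _
        rw [← sub_eq_zero, ← sub_eq_zero.mpr h3]
        noncomm_ring
      rw [h4]
      exact (norm_mul_le _ _).trans (mul_le_mul_of_nonneg_right (hn b).le (norm_nonneg _))
    · show ‖L.coord n‖ ≤ _
      rw [h0, norm_zero]; positivity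
  have h5 := hK.le_mul_dist n 0
  rw [map_zero, dist_zero_right, dist_zero_right] at h5
  have h6 : (K : ℝ) * (1 / (2 * K) * ‖n‖) = ‖n‖ / 2 := by
    have : (K : ℝ) ≠ 0 := by positivity
    field_simp
  have h7 := mul_le_mul_of_nonneg_left h2 K.2
  rw [← norm_eq_zero]
  have := norm_nonneg n
  change (K : ℝ) * _ ≤ (K : ℝ) * _ at h7
  linarith

/-- The slice lemma. -/
theorem slice {X : Type} [NormedAddCommGroup X] [NormedSpace ℝ X] [CompleteSpace X]
    {f : X → Mat D} {f' : X →L[ℝ] Mat D} {x₀ : X} (hf : HasStrictFDerivAt f f' x₀)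
    (h1 : f x₀ = 1) (ha : ∀ᶠ x in 𝓝 x₀, L.Aut (f x)) (hr : ∀ y, ∃ v, f' v = L.adv y)
    {U : Set X} (hU : U ∈ 𝓝 x₀) : ∀ᶠ a in 𝓝 (1 : Mat D), L.Aut a → a ∈ f '' U := by
  let π : Mat D →L[ℝ] Mat D :=
    LinearMap.toContinuousLinearMap (LinearMap.id - L.advL ∘ₗ L.coord)
  have hπ : ∀ m, π m = m - L.adv (L.coord m) := fun m => rfl
  have hA := hf.comp (x₀, (0 : Mat D)) (hasStrictFDerivAt_fst (𝕜 := ℝ) (p := (x₀, (0 : Mat D))))
  have hB := ((π.comp (ContinuousLinearMap.snd ℝ X (Mat D))).hasStrictFDerivAt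
    (x := (x₀, (0 : Mat D)))).const_add 1
  have hΨ := hA.mul' hB
  have hm := hΨ.map_nhds_eq_of_surj (by
    rw [LinearMap.range_eq_top]
    intro M
    obtain ⟨v, hv⟩ := hr (L.coord M)
    refine ⟨(v, M), ?_⟩
    show f x₀ * π M + f' v * (1 + π 0) = M
    rw [h1, hv, map_zero, hπ, add_zero, mul_one, one_mul, sub_add_cancel])
  have e1 : ((fun p : X × Mat D => f p.1) *
      fun p => 1 + (π.comp (ContinuousLinearMap.snd ℝ X (Mat D))) p) (x₀, 0) = 1 := by
    simp [h1]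
  rw [e1] at hm
  refine hm.ge ?_
  rw [Filter.mem_map]
  have t1 : Tendsto (fun p : X × Mat D => p.1) (𝓝 (x₀, 0)) (𝓝 x₀) := continuous_fst.tendsto _
  have t2 : Tendsto (fun p : X × Mat D => π p.2) (𝓝 (x₀, 0)) (𝓝 0) := by
    exact (π.continuous.comp continuous_snd).tendsto' (x₀, (0 : Mat D)) 0 (map_zero π)
  filter_upwards [t1.eventually ha, t1.eventually hU, t2.eventually L.slice_zero] with p h2 h3 h4 h5
  have h6 : L.Aut (f p.1 * (1 + π p.2)) := h5
  have hd := (Matrix.isUnit_iff_isUnit_det _).mp h2.1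
  have h7 := h2.inv.mul h6
  rw [← mul_assoc, Matrix.nonsing_inv_mul _ hd, one_mul] at h7
  have h8 := h4 (by rw [hπ, map_sub, coord_adv, sub_self]) h7
  refine ⟨p.1, h3, ?_⟩
  show f p.1 = f p.1 * (1 + π p.2)
  rw [h8, add_zero, mul_one]

theorem gam_nhds : ∀ᶠ a in 𝓝 (1 : Mat D), L.Aut a → a ∈ L.Gam := by
  let A : (Fin D → ℝ) →L[ℝ] Mat D := LinearMap.toContinuousLinearMap L.advL
  have h0 : HasStrictFDerivAt (NormedSpace.exp : Mat D → Mat D) (1 : Mat D →L[ℝ] Mat D) (A 0) := by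
    rw [map_zero]; exact hasStrictFDerivAt_exp_zero
  have h1 := h0.comp 0 A.hasStrictFDerivAt
  have := L.slice h1 (by simp) (Eventually.of_forall fun x => L.aut_exp x)
    (fun y => ⟨y, rfl⟩) univ_mem
  filter_upwards [this] with a ha h
  obtain ⟨x, -, rfl⟩ := ha h
  exact L.exp_mem_gam x

theorem isClosed_aut : IsClosed {a : Mat D | L.Aut a} := by
  have : {a : Mat D | L.Aut a} = {a | aᵀ * Matrix.diagonal L.s * a = Matrix.diagonal L.s} ∩
      ⋂ x, {a | a * L.adv x = L.adv (a *ᵥ x) * a} := by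
    ext a
    simp only [Set.mem_ofPred_eq, Set.mem_inter_iff, Set.mem_iInter]
    refine ⟨fun h => ⟨h.killing, h.2⟩, fun h => ⟨?_, h.2⟩⟩
    have h1 : Matrix.diagonal L.s * aᵀ * Matrix.diagonal L.s * a = 1 := by
      rw [mul_assoc, mul_assoc, ← mul_assoc aᵀ, h.1, diag_s_mul]
    exact IsUnit.of_mul_eq_one _ (mul_eq_one_comm.mp h1)
  rw [this]
  refine (isClosed_eq (by fun_prop) continuous_const).inter (isClosed_iInter fun x => ?_)
  have hc : Continuous fun n : Mat D => L.adv (n *ᵥ x) :=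
    (L.advL ∘ₗ (LinearMap.flip (Matrix.mulVecBilin ℝ ℝ) x)).continuous_of_finiteDimensional
  exact isClosed_eq (by fun_prop) (hc.mul continuous_id)

theorem isCompact_aut (R : ℝ) : IsCompact {a : Mat D | L.Aut a ∧ ∀ i j, |a i j| ≤ R} := by
  have h : IsCompact (Set.pi Set.univ fun _ : Fin D => Set.pi Set.univ fun _ : Fin D =>
      Set.Icc (-R) R) := isCompact_univ_pi fun _ => isCompact_univ_pi fun _ => isCompact_Icc
  have h2 : {a : Mat D | L.Aut a ∧ ∀ i j, |a i j| ≤ R} = (Set.pi Set.univ fun _ : Fin D =>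
      Set.pi Set.univ fun _ : Fin D => Set.Icc (-R) R) ∩ {a : Mat D | L.Aut a} := by
    ext a
    exact ⟨fun h => ⟨fun i _ j _ => abs_le.1 (h.2 i j), h.1⟩,
      fun h => ⟨h.2, fun i j => abs_le.2 (h.1 i trivial j trivial)⟩⟩
  rw [h2]
  exact h.inter_right L.isClosed_aut

/-- The topological part of the setup. -/
theorem setup_top {G : Type} [TopologicalSpace G] [Group G] [IsTopologicalGroup G]
    [LocallyCompactSpace G] [ConnectedSpace G] (hz : Finite (Subgroup.center G))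
    (ρ : G →* Mat D) (hρ : Continuous ρ) (ha : ∀ g, L.Aut (ρ g))
    (hk : ∀ g, ρ g = 1 → g ∈ Subgroup.center G)
    (hs : ∀ U ∈ 𝓝 (1 : G), ∀ᶠ a in 𝓝 (1 : Mat D), L.Aut a → a ∈ ρ '' U) :
    (∀ R : ℝ, IsCompact {g : G | ∀ i j, |ρ g i j| ≤ R}) ∧ Set.range ρ = L.Gam := by
  have hinv : ∀ g, ρ g⁻¹ = (ρ g)⁻¹ := fun g =>
    (Matrix.inv_eq_left_inv (by rw [← map_mul, inv_mul_cancel, map_one])).symm
  constructor
  · intro R
    obtain ⟨U, hU, hUc⟩ := exists_compact_mem_nhds (1 : G) |>.imp fun _ h => And.symm h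
    have hW := hs U hU
    set W := {a : Mat D | L.Aut a → a ∈ ρ '' U}
    obtain ⟨t, ht1, ht2⟩ := (L.isCompact_aut R).elim_nhds_subcover
      (fun a => {b | a⁻¹ * b ∈ W}) (fun a h => by
        have hd := (Matrix.isUnit_iff_isUnit_det _).mp h.1.1
        have : Tendsto (fun b => a⁻¹ * b) (𝓝 a) (𝓝 1) := by
          rw [← Matrix.nonsing_inv_mul _ hd]
          exact (continuous_const.mul continuous_id).tendsto a
        exact this hW)
    have hex : ∀ a : Mat D, ∃ h : G, a ∈ Set.range ρ → ρ h = a := fun a => by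
      by_cases h : a ∈ Set.range ρ
      · obtain ⟨g, hg⟩ := h
        exact ⟨g, fun _ => hg⟩
      · exact ⟨1, fun h' => absurd h' h⟩
    choose h hh using hex
    have hC : IsCompact (⋃ a ∈ t, ⋃ z : Subgroup.center G, (fun u => h a * z * u) '' U) :=
      t.isCompact_biUnion fun a _ => isCompact_iUnion fun z => hUc.image (by fun_prop)
    refine hC.of_isClosed_subset ?_ fun g hg => ?_
    · simp only [Set.ofPred_forall]
      exact isClosed_iInter fun i => isClosed_iInter fun j =>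
        isClosed_le (hρ.matrix_elem i j).abs continuous_const
    · obtain ⟨a, hat, hb⟩ := Set.mem_iUnion₂.1 (ht2 (a := ρ g) ⟨ha g, hg⟩)
      have haa := (ht1 a hat).1
      have hd := (Matrix.isUnit_iff_isUnit_det _).mp haa.1
      obtain ⟨u, hu, hu'⟩ := hb (haa.inv.mul (ha g))
      have e1 : ρ g = a * ρ u := by
        rw [hu', ← mul_assoc, Matrix.mul_nonsing_inv _ hd, one_mul]
      have e2 : ρ (g * u⁻¹) = a := by
        rw [map_mul, e1, mul_assoc, ← map_mul, mul_inv_cancel, map_one, mul_one]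
      have e3 := hh a ⟨_, e2⟩
      have e4 : (h a)⁻¹ * (g * u⁻¹) ∈ Subgroup.center G := hk _ (by
        rw [map_mul, e2, hinv, e3, Matrix.nonsing_inv_mul _ hd])
      refine Set.mem_iUnion₂.2 ⟨a, hat, Set.mem_iUnion.2 ⟨⟨_, e4⟩, u, hu, ?_⟩⟩
      simp only []
      group
  · apply Set.Subset.antisymm
    · let H : Subgroup G :=
        { carrier := {g | ρ g ∈ L.Gam}
          mul_mem' := fun {a b} h1 h2 => by
            show ρ (a * b) ∈ L.Gam
            rw [map_mul]; exact L.Gam.mul_mem h1 h2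
          one_mem' := by
            show ρ 1 ∈ L.Gam
            rw [map_one]; exact L.Gam.one_mem
          inv_mem' := fun {a} h1 => by
            show ρ a⁻¹ ∈ L.Gam
            rw [hinv]; exact inv_mem_gam h1 }
      have h1 : (H : Set G) ∈ 𝓝 (1 : G) := by
        have t : Tendsto ρ (𝓝 1) (𝓝 1) := by simpa using hρ.tendsto 1
        filter_upwards [t.eventually L.gam_nhds] with g hg
        exact hg (ha g)
      have h2 := H.isOpen_of_mem_nhds h1
      have h3 : (H : Set G) = Set.univ :=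
        IsClopen.eq_univ ⟨H.isClosed_of_isOpen h2, h2⟩ ⟨1, H.one_mem⟩
      rintro _ ⟨g, rfl⟩
      exact (h3.symm ▸ Set.mem_univ g : g ∈ (H : Set G))
    · show L.Gam ≤ MonoidHom.mrange ρ
      refine Submonoid.closure_le.2 ?_
      rintro _ ⟨x, rfl⟩
      have t1 : Tendsto (fun N : ℕ => NormedSpace.exp (L.adv ((1 / ((N : ℝ) + 1)) • x))) atTop
          (𝓝 1) := by
        have t2 : Tendsto (fun N : ℕ => (1 / ((N : ℝ) + 1)) • L.adv x) atTop (𝓝 0) := by
          simpa using (tendsto_one_div_add_atTop_nhds_zero_nat (𝕜 := ℝ)).smul_const (L.adv x)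
        have t3 := (NormedSpace.exp_continuous (𝔸 := Mat D)).tendsto 0
        rw [NormedSpace.exp_zero] at t3
        simp only [adv_smul]
        exact t3.comp t2
      obtain ⟨N, hN⟩ := (t1.eventually (hs _ univ_mem)).exists
      obtain ⟨g, -, hg⟩ := hN (L.aut_exp _)
      refine ⟨g ^ (N + 1), ?_⟩
      show _ = NormedSpace.exp (L.adv x)
      rw [map_pow, hg, ← Matrix.exp_nsmul, adv_smul, ← Nat.cast_smul_eq_nsmul ℝ, smul_smul]
      have : ((N + 1 : ℕ) : ℝ) * (1 / ((N : ℝ) + 1)) = 1 := by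
        push_cast; field_simp
      rw [this, one_smul]

end LData

end Pool.Agent.Lib.MP_cdc9ab_al
end

-- part Pool.Agent.Lib.MP_cdc9ab_al.Setup
section

open scoped Matrix.Norms.Operator ContDiff Matrix Manifold Topology
open Filter

namespace Pool.Agent.Lib.MP_cdc9ab_al

section manifold
variable {E : Type} [NormedAddCommGroup E] [NormedSpace ℝ E]
  {F : Type} [NormedAddCommGroup F] [NormedSpace ℝ F]
  {F' : Type} [NormedAddCommGroup F'] [NormedSpace ℝ F']
  {M : Type} [TopologicalSpace M] [ChartedSpace E M]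
  {N : Type} [TopologicalSpace N] [ChartedSpace F N]
  {P : Type} [TopologicalSpace P] [ChartedSpace F' P]

variable (E F) in
/-- The manifold derivative as a map between the model spaces. -/
noncomputable def md (f : M → N) (x : M) : E →L[ℝ] F := mfderiv 𝓘(ℝ, E) 𝓘(ℝ, F) f x

variable (F) in
theorem md_comp {f : N → P} {g : M → N} {x : M} (hf : MDifferentiableAt 𝓘(ℝ, F) 𝓘(ℝ, F') f (g x))
    (hg : MDifferentiableAt 𝓘(ℝ, E) 𝓘(ℝ, F) g x) :
    md E F' (fun y => f (g y)) x = (md F F' f (g x)).comp (md E F g x) :=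
  mfderiv_comp x hf hg

theorem md_id (x : M) : md E E (fun y : M => y) x = ContinuousLinearMap.id ℝ E :=
  mfderiv_id

theorem md_congr {f g : M → N} {x : M} (h : f =ᶠ[𝓝 x] g) : md E F f x = md E F g x :=
  h.mfderiv_eq

theorem md_const (c : N) (x : M) : md E F (fun _ : M => c) x = 0 :=
  mfderiv_const

theorem md_eq_fderiv (f : E → F) (x : E) : md E F f x = fderiv ℝ f x :=
  mfderiv_eq_fderiv

theorem const_of_md [IsManifold 𝓘(ℝ, E) 1 M] [IsManifold 𝓘(ℝ, F) 1 N] {f : M → N} {x : M}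
    (h : ∀ᶠ y in 𝓝 x, MDifferentiableAt 𝓘(ℝ, E) 𝓘(ℝ, F) f y ∧ md E F f y = 0) :
    ∀ᶠ y in 𝓝 x, f y = f x := by
  set φ := chartAt E x
  set ψ := chartAt F (f x)
  have hx : x ∈ φ.source := mem_chart_source E x
  have hc : ContinuousAt f x := h.self_of_nhds.1.continuousAt
  have h1 : ∀ᶠ y in 𝓝 x, f y ∈ ψ.source :=
    hc.eventually (ψ.open_source.mem_nhds (mem_chart_source F (f x)))
  have t1 : Tendsto φ.symm (𝓝 (φ x)) (𝓝 x) := φ.tendsto_symm hx
  have h2 : ∀ᶠ z in 𝓝 (φ x), HasFDerivAt (fun z => ψ (f (φ.symm z))) (0 : E →L[ℝ] F) z := by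
    filter_upwards [t1.eventually h, t1.eventually h1,
      φ.open_target.mem_nhds (φ.map_source hx)] with z a1 a2 a3
    have b1 := mdifferentiableAt_atlas_symm (I := 𝓘(ℝ, E)) (chart_mem_atlas E x) a3
    have b2 := mdifferentiableAt_atlas (I := 𝓘(ℝ, F)) (chart_mem_atlas F (f x)) a2
    have b3 := a1.1.comp z b1
    have b4 := (b2.comp z b3).differentiableAt
    have b5 : fderiv ℝ (fun z => ψ (f (φ.symm z))) z = 0 := by
      rw [← md_eq_fderiv, md_comp F (f := ψ) (g := fun z => f (φ.symm z)) b2 b3,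
        md_comp E (f := f) (g := φ.symm) a1.1 b1, a1.2]
      simp
    rw [← b5]
    exact b4.hasFDerivAt
  obtain ⟨ε, hε, h3⟩ := Metric.eventually_nhds_iff_ball.1 h2
  have h4 : ∀ z ∈ Metric.ball (φ x) ε, ψ (f (φ.symm z)) = ψ (f (φ.symm (φ x))) := fun z hz =>
    Metric.isOpen_ball.is_const_of_fderiv_eq_zero (𝕜 := ℝ) (convex_ball _ _).isPreconnected
      (fun y hy => (h3 y hy).differentiableAt.differentiableWithinAt)
      (fun y hy => (h3 y hy).fderiv) hz (Metric.mem_ball_self hε)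
  filter_upwards [h1, φ.open_source.mem_nhds hx,
    (φ.continuousAt hx).eventually (Metric.ball_mem_nhds _ hε)] with y a1 a2 a3
  have := h4 _ a3
  rw [φ.left_inv a2, φ.left_inv hx] at this
  exact ψ.injOn a1 (mem_chart_source F (f x)) this

end manifold

section group
variable {E : Type} [NormedAddCommGroup E] [NormedSpace ℝ E]
  {G : Type} [TopologicalSpace G] [ChartedSpace E G] [Group G] [LieGroup 𝓘(ℝ, E) ∞ G]

variable (E) in
theorem sm_lr (a b : G) : ContMDiff 𝓘(ℝ, E) 𝓘(ℝ, E) ∞ fun x : G => a * x * b :=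
  (contMDiff_const.mul contMDiff_id).mul contMDiff_const

variable (E) in
theorem d_lr (a b x : G) : MDifferentiableAt 𝓘(ℝ, E) 𝓘(ℝ, E) (fun x : G => a * x * b) x :=
  (sm_lr E a b).mdifferentiableAt (by simp)

variable (E) in
theorem d_l (a x : G) : MDifferentiableAt 𝓘(ℝ, E) 𝓘(ℝ, E) (fun x : G => a * x) x := by
  simpa using d_lr E a 1 x

theorem md_lr (a b c d x : G) : (md E E (fun y : G => a * y * b) (c * x * d)).comp
    (md E E (fun y : G => c * y * d) x) = md E E (fun y : G => (a * c) * y * (d * b)) x := by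
  rw [← md_comp E (f := fun y : G => a * y * b) (g := fun y : G => c * y * d) (d_lr E _ _ _)
    (d_lr E _ _ _)]
  simp only [mul_assoc]

omit [LieGroup 𝓘(ℝ, E) ∞ G] in
theorem md_lr_one (x : G) : md E E (fun y : G => 1 * y * 1) x = ContinuousLinearMap.id ℝ E := by
  simp only [one_mul, mul_one]
  exact md_id x

variable (E) in
/-- The adjoint representation. -/
noncomputable def Ad (g : G) : E →L[ℝ] E := md E E (fun x : G => g * x * g⁻¹) 1

omit [LieGroup 𝓘(ℝ, E) ∞ G] in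
theorem Ad_one : Ad E (1 : G) = ContinuousLinearMap.id ℝ E := by
  rw [Ad, inv_one, md_lr_one]

theorem Ad_mul (g h : G) : Ad E (g * h) = (Ad E g).comp (Ad E h) := by
  have := md_lr (E := E) g g⁻¹ h h⁻¹ 1
  rw [mul_one, mul_inv_cancel] at this
  rw [Ad, Ad, Ad, this, mul_inv_rev]

theorem Ad_smooth : ContMDiff 𝓘(ℝ, E) 𝓘(ℝ, E →L[ℝ] E) 1 (Ad E : G → E →L[ℝ] E) := by
  intro g₀
  have h := ContMDiffAt.mfderiv (I := 𝓘(ℝ, E)) (I' := 𝓘(ℝ, E)) (J := 𝓘(ℝ, E)) (x₀ := g₀) (m := 1)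
    (n := ∞) (fun g x : G => g * x * g⁻¹) (fun _ => 1)
    ((contMDiffAt_fst.mul contMDiffAt_snd).mul contMDiffAt_fst.inv) contMDiffAt_const
    (by rw [one_add_one_eq_two]; exact WithTop.coe_le_coe.2 le_top)
  refine h.congr_of_eventuallyEq (Eventually.of_forall fun g => Eq.symm ?_)
  refine (inTangentCoordinates_eq (I := 𝓘(ℝ, E)) (I' := 𝓘(ℝ, E)) (fun _ : G => (1 : G))
    (fun x : G => x * 1 * x⁻¹) (Ad E) (x₀ := g₀) (x := g) (mem_chart_source E _) (by simp)).trans ?_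
  ext v
  simp only [mul_one, mul_inv_cancel, ContinuousLinearMap.comp_apply]
  rw [(tangentBundleCore 𝓘(ℝ, E) G).coordChange_self _ _ (mem_chart_source E _),
    (tangentBundleCore 𝓘(ℝ, E) G).coordChange_self _ _ (mem_chart_source E _)]

theorem center_of_Ad [ConnectedSpace G] {g : G} (hg : Ad E g = ContinuousLinearMap.id ℝ E) :
    g ∈ Subgroup.center G := by
  let u : G → G := fun x => g * x * g⁻¹ * x⁻¹
  have hu : ContMDiff 𝓘(ℝ, E) 𝓘(ℝ, E) ∞ u := (sm_lr E g g⁻¹).mul contMDiff_id.inv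
  have hd : ∀ x, MDifferentiableAt 𝓘(ℝ, E) 𝓘(ℝ, E) u x := fun x => hu.mdifferentiableAt (by simp)
  have u1 : u 1 = 1 := by simp [u]
  have h1 : md E E u 1 = 0 := by
    have hm : MDifferentiableAt (𝓘(ℝ, E).prod 𝓘(ℝ, E)) 𝓘(ℝ, E) (fun p : G × G => p.1 * p.2)
        (u 1, 1) := (contMDiff_mul 𝓘(ℝ, E) ∞).mdifferentiableAt (by simp)
    have hp := (hd 1).hasMFDerivAt.prodMk (hasMFDerivAt_id (I := 𝓘(ℝ, E)) (1 : G))
    have h2 := (HasMFDerivAt.comp (f := fun x => (u x, id x)) 1 hm.hasMFDerivAt hp).mfderiv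
    have h3 : ((fun p : G × G => p.1 * p.2) ∘ fun x => (u x, id x)) = fun x => g * x * g⁻¹ := by
      funext x; simp [u]
    rw [h3] at h2
    ext v
    have h4 : Ad E g v = mfderiv (𝓘(ℝ, E).prod 𝓘(ℝ, E)) 𝓘(ℝ, E) (fun p : G × G => p.1 * p.2)
        (u 1, 1) (md E E u 1 v, v) := congrArg (fun T => T v) h2
    rw [hg] at h4
    have h5 : v = md E E (fun z : G => z * 1) (u 1) (md E E u 1 v) +
      md E E (fun z : G => u 1 * z) 1 v := h4.trans (mfderiv_prod_eq_add_apply hm)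
    simp only [u1, mul_one, one_mul, md_id, ContinuousLinearMap.id_apply] at h5
    simpa using h5
  have h2 : ∀ x, md E E u x = 0 := by
    intro x
    have e : u = fun y => (g * x * g⁻¹) * u (x⁻¹ * y * 1) * x⁻¹ := by
      funext y; simp only [u]; group
    have d1 : MDifferentiableAt 𝓘(ℝ, E) 𝓘(ℝ, E) (fun y => u (x⁻¹ * y * 1)) x :=
      (hd _).comp x (d_lr E _ _ _)
    rw [e, md_comp E (f := fun y : G => (g * x * g⁻¹) * y * x⁻¹) (d_lr E _ _ _) d1,
      md_comp E (f := u) (hd _) (d_lr E _ _ _), mul_one, inv_mul_cancel, h1]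
    simp
  have h3 : IsLocallyConstant u := (IsLocallyConstant.iff_eventually_eq u).2 fun x =>
    const_of_md (Eventually.of_forall fun y => ⟨hd y, h2 y⟩)
  rw [Subgroup.mem_center_iff]
  intro x
  have := h3.apply_eq_of_preconnectedSpace x 1
  rw [u1] at this
  calc x * g = u x * (x * g) := by rw [this, one_mul]
    _ = g * x := by simp only [u]; group

variable [LieGroup 𝓘(ℝ, E) (minSmoothness ℝ 3) G] [CompleteSpace E]

theorem Ad_lie (g : G) (v w : GroupLieAlgebra 𝓘(ℝ, E) G) :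
    Ad E g (⁅v, w⁆ : GroupLieAlgebra 𝓘(ℝ, E) G) =
      (⁅(show GroupLieAlgebra 𝓘(ℝ, E) G from Ad E g v),
        (show GroupLieAlgebra 𝓘(ℝ, E) G from Ad E g w)⁆ : GroupLieAlgebra 𝓘(ℝ, E) G) := by
  have hinv : ∀ x : G, (md E E (fun y : G => g * y * g⁻¹) x).inverse =
      md E E (fun y : G => g⁻¹ * y * g) (g * x * g⁻¹) := fun x => by
    refine ContinuousLinearMap.inverse_eq ?_ ?_
    · have := md_lr (E := E) g g⁻¹ g⁻¹ g (g * x * g⁻¹)
      rw [show g⁻¹ * (g * x * g⁻¹) * g = x by group, mul_inv_cancel, md_lr_one] at this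
      exact this
    · rw [md_lr, inv_mul_cancel, md_lr_one]
  have hX : ∀ (v : E) (x : G), mulInvariantVectorField (I := 𝓘(ℝ, E)) (G := G) v x =
      md E E (fun y : G => x * y * 1) 1 v := fun v x => by
    simp only [mul_one]; rfl
  have hp : ∀ v : E, VectorField.mpullback 𝓘(ℝ, E) 𝓘(ℝ, E) (fun y : G => g * y * g⁻¹)
      (mulInvariantVectorField (I := 𝓘(ℝ, E)) (G := G) (Ad E g v)) =
      mulInvariantVectorField (I := 𝓘(ℝ, E)) (G := G) v := fun v => by
    funext x
    show (md E E (fun y : G => g * y * g⁻¹) x).inverse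
      (mulInvariantVectorField (I := 𝓘(ℝ, E)) (G := G) (Ad E g v) (g * x * g⁻¹)) = _
    rw [hX, hX, hinv]
    have a1 := md_lr (E := E) (g * x * g⁻¹) 1 g g⁻¹ 1
    have a2 := md_lr (E := E) g⁻¹ g (g * x * g⁻¹ * g) (g⁻¹ * 1) 1
    rw [show g * 1 * g⁻¹ = 1 by group] at a1
    rw [show g * x * g⁻¹ * g * 1 * (g⁻¹ * 1) = g * x * g⁻¹ by group, ← a1,
      show g⁻¹ * (g * x * g⁻¹ * g) = x by group, show g⁻¹ * 1 * g = 1 by group] at a2
    exact congrArg (fun T => T v) a2
  have h := VectorField.mpullback_mlieBracket (I := 𝓘(ℝ, E)) (I' := 𝓘(ℝ, E)) (n := ∞)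
    (f := fun y : G => g * y * g⁻¹) (x₀ := 1)
    (mdifferentiableAt_mulInvariantVectorField (I := 𝓘(ℝ, E)) (G := G) (Ad E g v))
    (mdifferentiableAt_mulInvariantVectorField (I := 𝓘(ℝ, E)) (G := G) (Ad E g w))
    (sm_lr E g g⁻¹ 1) (by
      rw [minSmoothness_of_isRCLikeNormedField]; exact WithTop.coe_le_coe.2 le_top)
  rw [hp v, hp w] at h
  let B : G → E := VectorField.mlieBracket 𝓘(ℝ, E)
    (mulInvariantVectorField (I := 𝓘(ℝ, E)) (G := G) (Ad E g v))
    (mulInvariantVectorField (I := 𝓘(ℝ, E)) (G := G) (Ad E g w))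
  have h2 : (md E E (fun y : G => g * y * g⁻¹) 1).inverse (B (g * 1 * g⁻¹)) =
    (⁅v, w⁆ : GroupLieAlgebra 𝓘(ℝ, E) G) := h
  rw [hinv, show g * 1 * g⁻¹ = 1 by group] at h2
  have h3 : Ad E g⁻¹ (B 1) = (⁅v, w⁆ : GroupLieAlgebra 𝓘(ℝ, E) G) := by
    rw [← h2, Ad, inv_inv]
  rw [← h3]
  show ((Ad E g).comp (Ad E g⁻¹)) (B 1) = B 1
  rw [← Ad_mul, mul_inv_cancel, Ad_one]
  rfl

theorem md_injective (hz : Finite (Subgroup.center G)) {A : Type} [NormedRing A]
    [NormedAlgebra ℝ A] (ρ : G →* A) (hρ : ContMDiff 𝓘(ℝ, E) 𝓘(ℝ, A) 1 ρ) (hk : ∀ g, ρ g = 1 → g ∈ Subgroup.center G)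
    (v : E) (hv : md E A ρ 1 v = 0) : v = 0 := by
  have : T1Space G := ChartedSpace.t1Space E G
  have hd : ∀ x, MDifferentiableAt 𝓘(ℝ, E) 𝓘(ℝ, A) ρ x :=
    fun x => hρ.mdifferentiableAt (by simp)
  obtain ⟨γ, h0, hγ⟩ := exists_isMIntegralCurveAt_of_contMDiffAt_boundaryless (I := 𝓘(ℝ, E))
    (v := mulInvariantVectorField (I := 𝓘(ℝ, E)) (G := G) v) (x₀ := (1 : G)) 0
    ((contMDiffAt_mulInvariantVectorField v).of_le (by simp))
  have hX : ∀ x : G, md E A ρ x (md E E (fun y : G => x * y) 1 v) = 0 := fun x => by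
    have a1 := md_comp E (f := ρ) (g := fun y : G => x * y) (x := 1) (hd _) (d_l E _ _)
    let B : A →L[ℝ] A := ContinuousLinearMap.mul ℝ A (ρ x)
    have a2 := md_comp A (f := B) (g := ρ) (x := 1) B.mdifferentiableAt (hd _)
    have e : (fun y => ρ (x * y)) = fun y => B (ρ y) := funext fun y => map_mul ρ x y
    rw [e, a2, mul_one] at a1
    have := congrArg (fun T => T v) a1
    simp only [ContinuousLinearMap.comp_apply, hv, map_zero] at this
    exact this.symm
  have hγ' : ∀ᶠ t in 𝓝 (0 : ℝ), MDifferentiableAt 𝓘(ℝ, ℝ) 𝓘(ℝ, E) γ t ∧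
      md ℝ E γ t = (1 : ℝ →L[ℝ] ℝ).smulRight (md E E (fun y : G => γ t * y) 1 v) :=
    hγ.mono fun t ht => ⟨ht.mdifferentiableAt, ht.mfderiv⟩
  have h1 : ∀ᶠ t in 𝓝 (0 : ℝ), ρ (γ t) = ρ (γ 0) := by
    refine const_of_md (E := ℝ) (F := A) (f := fun t => ρ (γ t)) ?_
    filter_upwards [hγ'] with t ht
    refine ⟨(hd _).comp t ht.1, ?_⟩
    rw [md_comp E (f := ρ) (hd _) ht.1, ht.2]
    ext
    simp [hX]
  have h2 : ∀ᶠ x in 𝓝 (1 : G), x ∈ Subgroup.center G → x = 1 := by
    have hf : ((Subgroup.center G : Set G) \ {1}).Finite := (Set.toFinite _).subset Set.sdiff_subset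
    filter_upwards [hf.isClosed.isOpen_compl.mem_nhds (by simp : (1 : G) ∈ _ᶜ)] with x hx hc
    by_contra hne
    exact hx ⟨hc, hne⟩
  have t : Tendsto γ (𝓝 0) (𝓝 1) := h0 ▸ hγ'.self_of_nhds.1.continuousAt
  have h3 : γ =ᶠ[𝓝 0] fun _ => 1 := by
    filter_upwards [h1, t.eventually h2] with s a1 a2
    exact a2 (hk _ (by rw [a1, h0, map_one]))
  have h4 := hγ'.self_of_nhds.2
  rw [md_congr h3, md_const, h0] at h4
  have h5 := congrArg (fun T => T 1) h4
  simp only [one_mul, md_id] at h5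
  simpa using h5.symm

theorem chart_deriv (hz : Finite (Subgroup.center G)) {A : Type} [NormedRing A]
    [NormedAlgebra ℝ A] (T : (E →L[ℝ] E) →L[ℝ] A) (ρ : G →* A) (h : ∀ g, ρ g = T (Ad E g))
    (hk : ∀ g, ρ g = 1 → g ∈ Subgroup.center G) :
    ContDiffAt ℝ 1 (fun z => ρ ((chartAt E (1 : G)).symm z)) (chartAt E (1 : G) 1) ∧
      Function.Injective
        (fderiv ℝ (fun z => ρ ((chartAt E (1 : G)).symm z)) (chartAt E (1 : G) 1)) := by
  have hρ : ContMDiff 𝓘(ℝ, E) 𝓘(ℝ, A) 1 ρ := by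
    rw [show (ρ : G → A) = T ∘ Ad E from funext h]
    exact T.contMDiff.comp Ad_smooth
  have h1 : (1 : G) ∈ (chartAt E (1 : G)).source := mem_chart_source E 1
  have hs : ContMDiffAt 𝓘(ℝ, E) 𝓘(ℝ, E) 1 (chartAt E (1 : G)).symm (chartAt E (1 : G) 1) :=
    (contMDiffOn_chart_symm (I := 𝓘(ℝ, E)) (n := 1) (x := (1 : G))).contMDiffAt
      ((chartAt E (1 : G)).open_target.mem_nhds ((chartAt E (1 : G)).map_source h1))
  refine ⟨contMDiffAt_iff_contDiffAt.1 ((hρ _).comp _ hs), ?_⟩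
  have hA : fderiv ℝ (fun z => ρ ((chartAt E (1 : G)).symm z)) (chartAt E (1 : G) 1) =
      md E A ρ 1 := by
    rw [md, (hρ.mdifferentiableAt (x := 1) (by simp)).mfderiv]
    simp [writtenInExtChartAt]
    rfl
  rw [hA]
  exact (injective_iff_map_eq_zero _).2 (md_injective hz ρ hρ hk)

end group

theorem setup (E : Type) [NormedAddCommGroup E] [NormedSpace ℝ E] [FiniteDimensional ℝ E]
    (G : Type) [TopologicalSpace G] [ChartedSpace E G] [Group G]
    [LieGroup (modelWithCornersSelf ℝ E) ((⊤ : ℕ∞) : WithTop ℕ∞) G]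
    [LieGroup (modelWithCornersSelf ℝ E) (minSmoothness ℝ 3) G]
    (hc : ConnectedSpace G) (hz : Finite (Subgroup.center G))
    {D : ℕ} (L : LData D)
    (e : Module.Basis (Fin D) ℝ (GroupLieAlgebra (modelWithCornersSelf ℝ E) G))
    (he : ∀ a, L.ad a = LinearMap.toMatrix e e
      (LieAlgebra.ad ℝ (GroupLieAlgebra (modelWithCornersSelf ℝ E) G) (e a))) :
    T2Space G ∧ ∃ ρ : G →* Mat D, Continuous ρ ∧
      (∀ R : ℝ, IsCompact {g : G | ∀ i j, |ρ g i j| ≤ R}) ∧ Set.range ρ = L.Gam := by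
  have : CompleteSpace E := FiniteDimensional.complete ℝ E
  have : IsTopologicalGroup G := topologicalGroup_of_lieGroup 𝓘(ℝ, E) ∞
  have : T1Space G := ChartedSpace.t1Space E G
  have : ProperSpace E := FiniteDimensional.proper ℝ E
  have : LocallyCompactSpace G := ChartedSpace.locallyCompactSpace E G
  let e' : Module.Basis (Fin D) ℝ E := e
  let T : (E →L[ℝ] E) →L[ℝ] Mat D := LinearMap.toContinuousLinearMap
    ((LinearMap.toMatrix e' e').toLinearMap ∘ₗ ContinuousLinearMap.coeLM ℝ)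
  have hT : ∀ A : E →L[ℝ] E, T A = LinearMap.toMatrix e' e' (A : E →ₗ[ℝ] E) := fun A => rfl
  let ρ : G →* Mat D :=
    { toFun := fun g => T (Ad E g)
      map_one' := by rw [Ad_one, hT]; exact LinearMap.toMatrix_id e'
      map_mul' := fun g h => by
        rw [Ad_mul, hT, hT, hT]; exact LinearMap.toMatrix_comp e' e' e' _ _ }
  have hρ : Continuous ρ := T.continuous.comp Ad_smooth.continuous
  have hk : ∀ g, ρ g = 1 → g ∈ Subgroup.center G := fun g hg => by
    refine center_of_Ad (E := E) (ContinuousLinearMap.coe_injective ?_)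
    apply (LinearMap.toMatrix e' e').injective
    exact hg.trans (LinearMap.toMatrix_id e').symm
  have hadv : ∀ v : GroupLieAlgebra 𝓘(ℝ, E) G, L.adv (e.repr v) =
      LinearMap.toMatrix e e (LieAlgebra.ad ℝ (GroupLieAlgebra 𝓘(ℝ, E) G) v) := fun v => by
    conv_rhs => rw [← e.sum_repr v]
    simp only [LData.adv, he, map_sum, map_smul]
  have ha : ∀ g, L.Aut (ρ g) := fun g => by
    refine ⟨(Group.isUnit g).map ρ, fun x => ?_⟩
    obtain ⟨v, rfl⟩ : ∃ v, x = e.repr v := ⟨e.equivFun.symm x, by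
      rw [← Module.Basis.equivFun_apply, LinearEquiv.apply_symm_apply]⟩
    let A : GroupLieAlgebra 𝓘(ℝ, E) G →ₗ[ℝ] GroupLieAlgebra 𝓘(ℝ, E) G := (Ad E g : E →ₗ[ℝ] E)
    have hA : ρ g = LinearMap.toMatrix e e A := rfl
    rw [hA, LinearMap.toMatrix_mulVec_repr, hadv, hadv, ← LinearMap.toMatrix_comp,
      ← LinearMap.toMatrix_comp]
    congr 1
    ext w
    exact Ad_lie g v w
  refine ⟨inferInstance, ρ, hρ, L.setup_top hz ρ hρ ha hk fun U hU => ?_⟩
  obtain ⟨hf, hi⟩ := chart_deriv hz T ρ (fun _ => rfl) hk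
  set φ := chartAt E (1 : G)
  have h1 : (1 : G) ∈ φ.source := mem_chart_source E 1
  let A : E →ₗ[ℝ] Mat D := (fderiv ℝ (fun z => ρ (φ.symm z)) (φ 1) :)
  have hr : LinearMap.range A = LinearMap.range L.advL := by
    refine Submodule.eq_of_le_of_finrank_eq ?_ ?_
    · rintro _ ⟨v, rfl⟩
      obtain ⟨y, hy⟩ := L.tangent (hf.differentiableAt (by simp))
        (Eventually.of_forall fun z => ha _) v
      rw [φ.left_inv h1, map_one, one_mul] at hy
      exact ⟨y, hy.symm⟩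
    · rw [LinearMap.finrank_range_of_inj (f := A) hi,
        LinearMap.finrank_range_of_inj (f := L.advL) L.adv_injective,
        Module.finrank_eq_card_basis e', Module.finrank_fintype_fun_eq_card]
  have := L.slice (hf.hasStrictFDerivAt (by simp)) (by rw [φ.left_inv h1, map_one])
    (Eventually.of_forall fun z => ha _) (fun y => hr.ge ⟨y, rfl⟩) (φ.tendsto_symm h1 hU)
  filter_upwards [this] with a h2 h3
  obtain ⟨z, hz1, hz2⟩ := h2 h3
  exact ⟨_, hz1, hz2⟩

end Pool.Agent.Lib.MP_cdc9ab_al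
end
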