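import Pool.Agent.Lib.MP_cdc9ab_al.Gen6
import Pool.Agent.Lib.MP_cdc9ab_al.Link
import Pool.Agent.Lib.MP_cdc9ab_al.Retr
import Pool.Agent.Lib.MP_cdc9ab_al.Cartan
import Pool.Agent.Lib.MP_cdc9ab_al.Setup

-- part Pool.Agent.Lib.MP_cdc9ab_al.Gen7
section

open scoped Matrix.Norms.Operator ContDiff Matrix TensorProduct
open Finset Function

namespace Pool.Agent.Lib.MP_cdc9ab_al

variable {D : ℕ}

/-- Coefficients of monomials. -/
noncomputable def coef (m : Fin D →₀ ℕ) : CC D →ₗ[ℝ] Lam D := Finsupp.lapply m ∘ₗ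
  (TensorProduct.equivFinsuppOfBasisLeft (MvPolynomial.basisMonomials (Fin D) ℝ)).toLinearMap

theorem coef_tm (m : Fin D →₀ ℕ) (p : SP D) (y : Lam D) : coef m (tm p y) = p.coeff m • y :=
  TensorProduct.equivFinsuppOfBasisLeft_apply_tmul_apply _ p y m

theorem coef_ext {z : CC D} (h : ∀ m, coef m z = 0) : z = 0 :=
  (TensorProduct.equivFinsuppOfBasisLeft (N := Lam D)
    (MvPolynomial.basisMonomials (Fin D) ℝ)).map_eq_zero_iff.mp (Finsupp.ext h)

theorem coef_hat (m : Fin D →₀ ℕ) (T : EL D) (z : CC D) : coef m (hat T z) = T (coef m z) :=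
  LinearMap.congr_fun (cc_ext (S := coef m ∘ₗ hat T) (T := T ∘ₗ coef m) fun p y => by
    simp [coef_tm]) z

theorem coef_vv (a : Fin D) (z : CC D) : coef 0 (til (vv a) z) = 0 :=
  LinearMap.congr_fun (cc_ext (S := coef 0 ∘ₗ til (vv a)) (T := 0) fun p y => by
    simp [coef_tm, vv_apply, MvPolynomial.coeff_X_mul']) z

theorem coef_dlt (j : Fin D → ℝ) (z : CC D) : coef 0 (dlt j z) = 0 := by simp [dlt, coef_vv]

theorem coef_Tot (MS M : Mat D) (z : CC D) : coef 0 (Tot MS M z) = Gm M (coef 0 z) := by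
  simp [Tot, gam, coef_vv, coef_hat]

/-- The polynomial part. -/
noncomputable def sc0 : CC D →ₗ[ℝ] SP D := TensorProduct.lift
  ((LinearMap.lsmul ℝ (SP D)).flip.compl₂ (aug : Lam D →ₐ[ℝ] ℝ).toLinearMap)

theorem sc0_tm (p : SP D) (y : Lam D) : sc0 (tm p y) = aug y • p := rfl

theorem hat_Qp (z : CC D) : hat Qp z = z - tm (sc0 z) 1 :=
  LinearMap.congr_fun (cc_ext (S := hat Qp) (T := 1 - tm.flip 1 ∘ₗ sc0) fun p y => by
    simp [sc0_tm, Qp_apply, Algebra.algebraMap_eq_smul_one]) z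

theorem NN_kap : Sh (hat NN : EC D) kap 1 := Tot_zero (D := D) ▸ Tot_kap 0 1 1 (by simp)

theorem Nt_kap : Sh (Nt : EC D) kap (-1) := Tot_kap _ 1 (-1) (by rw [two_smul]; simp)

theorem Nt_add : (Tot 1 1 : EC D) = (1 / 2 : ℝ) • (Nt + hat NN) := by
  rw [Nt, Tot, Tot, gam_smul, map_smul, NN]; module

theorem pp_comm (a b : Fin D) : Commute (pp a) (pp b) := (osc_vp.yy a b).trans (one_smul _ _)

theorem coeff_gam (M : Mat D) (p : SP D) : (gam vv pp M p).coeff 0 = 0 := by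
  simp [gam, vv_apply, MvPolynomial.coeff_sum, MvPolynomial.coeff_X_mul']

theorem prod_comm_gam {R : Type} [Ring R] [Algebra ℝ R] (y : Fin D → R) (G : R) (M : Mat D)
    (h : ∀ a, G * y a = y a * G - ∑ c, M a c • y c) {n : ℕ} (a : Fin n → Fin D) :
    (List.ofFn fun i => y (a i)).prod * G = G * (List.ofFn fun i => y (a i)).prod +
      ∑ m, ∑ c, M (a m) c • (List.ofFn fun i => y (update a m c i)).prod := by
  induction n with
  | zero => simp
  | succ n ih =>
    have e : ∀ (m : Fin n) c i, update a m.succ c (Fin.succ i) =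
        update (fun i => a (Fin.succ i)) m c i := fun m c i => by
      by_cases h : i = m <;> simp [h]
    simp only [List.ofFn_succ, List.prod_cons, Fin.sum_univ_succ, update_self, e,
      update_of_ne (Fin.succ_ne_zero _), update_of_ne (Fin.succ_ne_zero _).symm]
    rw [mul_assoc, ih, ← mul_assoc G, h, mul_add, sub_mul, mul_assoc, mul_sum, sum_mul]
    simp only [mul_sum, mul_smul_comm, smul_mul_assoc]
    abel

namespace LData
variable (L : LData D)

theorem wt_one : L.Wt fun _ => 1 := ⟨by simp, by simp⟩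

theorem coef_mem_H {z : CC D} (hz : z ∈ L.Inv fun _ => 1) : coef 0 z ∈ L.H :=
  L.mem_H.mpr fun x => by
    have := coef_Tot (L.MS (fun _ => 1) x) ((1 : ℝ) • -(L.ad x)ᵀ) z
    rw [Gm_smul_ad, one_smul ℝ (L.LL x)] at this
    rw [← this, ← map_zero (coef 0), ← (L.mem_Inv _).mp hz x]; rfl

theorem coef_DD {z : CC D} (hz : z ∈ L.Inv fun _ => 1) : coef 0 (L.DD (fun _ => 1) z) = 0 := by
  simp [DD, coef_dlt, coef_hat, L.dL_of_mem_H (L.coef_mem_H hz)]

theorem inv_kap : ∀ z ∈ L.Inv fun _ => 1, kap z ∈ L.Inv fun _ => 1 :=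
  L.inv_of_sh _ fun x => Tot_kap _ _ 0 (by ext; simp [MS])

/-- The commutator of the differential with the Koszul homotopy. -/
noncomputable def UU : EC D := hat L.dL * kap + kap * hat L.dL

theorem UU_eq : L.UU = ∑ a, hat (ml (L.de a)) * til (pp a) := by
  simp only [UU, kap, mul_sum, sum_mul, ← sum_add_distrib, ← dL_ee, map_add, map_mul, add_mul]
  exact sum_congr rfl fun a _ => by rw [mul_assoc (hat (ee a)), (til_hat _ _).eq]; simp [mul_assoc]

theorem inv_UU : ∀ z ∈ L.Inv fun _ => 1, L.UU z ∈ L.Inv fun _ => 1 := fun z hz =>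
  add_mem (L.inv_hat _ L.LL_dL _ (L.inv_kap z hz)) (L.inv_kap _ (L.inv_hat _ L.LL_dL z hz))

theorem Nt_UU : Sh Nt L.UU 0 :=
  (((Sh.hat L.NN_dL _).mul Nt_kap).cast (by simp)).add
    ((Nt_kap.mul (Sh.hat L.NN_dL _)).cast (by simp))

theorem NN_UU : Sh (hat NN) L.UU 2 := by
  have h : Sh (hat NN) (hat L.dL) 1 := Tot_zero (D := D) ▸ Sh.hat L.NN_dL 0
  exact ((h.mul NN_kap).cast (by norm_num)).add ((NN_kap.mul h).cast (by norm_num))

theorem Tot_UU : Sh (Tot 1 1) L.UU 1 := by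
  have h1 := L.Nt_UU
  have h2 := L.NN_UU
  unfold Sh at *
  rw [Nt_add, smul_mul_assoc, mul_smul_comm, add_mul, mul_add, h1, h2]; module

theorem Nt_DD (j : Fin D → ℝ) : Sh Nt (L.DD j) 1 := (Sh.hat L.NN_dL _).sub (Nt_dlt j)

theorem EE_apply (z : CC D) : Tot 1 1 z - L.UU z =
    -(L.DD (fun _ => 1) (kap z) + kap (L.DD (fun _ => 1) z)) := by
  simp only [← dlt_kap, UU, DD, LinearMap.add_apply, LinearMap.sub_apply, Module.End.mul_apply,
    map_sub]
  abel

/-- Homogeneous invariant elements. -/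
noncomputable def Wn (ν : ℝ) : Submodule ℝ (CC D) :=
  L.Inv (fun _ => 1) ⊓ LinearMap.ker (Nt - ν • 1)

theorem mem_Wn {ν : ℝ} {z : CC D} : z ∈ L.Wn ν ↔ z ∈ L.Inv (fun _ => 1) ∧ Nt z = ν • z := by
  simp [Wn, sub_eq_zero]

theorem E_surj {ν : ℝ} (hν : 0 < ν) :
    ∀ t ∈ L.Wn ν, t ∈ (L.Wn ν).map (Tot 1 1 - L.UU) := by
  have key : ∀ k m : ℕ, (exists_NN_pol (D := D)).choose ≤ m + k → ∀ t ∈ L.Wn ν,
      hat NN t = (m : ℝ) • t → t ∈ (L.Wn ν).map (Tot 1 1 - L.UU) := by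
    intro k
    induction k with
    | zero =>
      intro m hm t _ hN
      rw [eig_zero hat_pol hN fun n hn h => by
        have : m = n := by exact_mod_cast h
        omega]
      exact zero_mem _
    | succ k ih =>
      intro m hm t ht hN
      obtain ⟨h1, h2⟩ := L.mem_Wn.mp ht
      have h3 := ih (m + 2) (by omega) (L.UU t)
        (L.mem_Wn.mpr ⟨L.inv_UU t h1, by simpa using eig_shift L.Nt_UU h2⟩)
        (by simpa using eig_shift L.NN_UU hN)
      have h4 := add_mem h3 (Submodule.mem_map_of_mem (f := Tot 1 1 - L.UU) ht)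
      rw [LinearMap.sub_apply, add_sub_cancel, LinearMap.congr_fun Nt_add t, LinearMap.smul_apply,
        LinearMap.add_apply, h2, hN, ← add_smul, smul_smul] at h4
      have h5 : 1 / 2 * (ν + m) ≠ 0 := by positivity
      exact (Submodule.smul_mem_iff _ h5).mp h4
  refine fun t ht => eig_ind (hat NN) (L.Wn ν) (fun z hz => ?_) _ _
    (fun n _ => key _ n (Nat.le_add_left _ _)) t ht (by rw [hat_pol]; rfl)
  obtain ⟨h1, h2⟩ := L.mem_Wn.mp hz
  have h3 : Sh (Nt : EC D) (hat NN) 0 := Sh.hat (Sh.of_commute (Commute.refl NN)) _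
  exact L.mem_Wn.mpr ⟨L.inv_hat _ (fun x => (L.NN_LL x).symm) z h1, by simpa using eig_shift h3 h2⟩

theorem coef_UU_zero {r : ℕ} {μ : ℝ} (h : μ < 2 * r) {z : CC D}
    (hz : NN (coef 0 ((L.UU ^ r) z)) = μ • coef 0 ((L.UU ^ r) z)) : coef 0 ((L.UU ^ r) z) = 0 := by
  apply Bf_def
  generalize ha : coef 0 ((L.UU ^ r) z) = a at hz
  conv_lhs => enter [2]; rw [← ha]
  refine eig_ind (hat NN) ⊤ (fun _ _ => trivial) _ (LinearMap.ker (Bf a ∘ₗ coef 0 ∘ₗ L.UU ^ r))
    (fun n _ y _ hy => ?_) z trivial (by rw [hat_pol]; rfl)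
  have h1 := congrArg (coef 0) (eig_shift (L.NN_UU.pow r) hy)
  have h2 := Bf_NN a (coef 0 ((L.UU ^ r) y))
  rw [coef_hat, map_smul] at h1
  rw [hz, h1, map_smul, map_smul, LinearMap.smul_apply, smul_eq_mul, smul_eq_mul] at h2
  have h3 : (0 : ℝ) ≤ n := n.cast_nonneg
  exact (mul_eq_mul_right_iff.mp h2).resolve_left (by linarith)

theorem kap_UU : Commute kap L.UU := by
  rw [UU_eq]
  refine Commute.sum_left _ _ _ fun a _ => Commute.sum_right _ _ _ fun b _ => ?_
  have h1 : Commute (ge a) (L.de b) := (L.de_comm b _).symm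
  have h2 := pp_comm a b
  exact (((h1.map ml).map hat).mul_right (til_hat _ _).symm).mul_left
    ((til_hat _ _).mul_right (h2.map til))

theorem coef_UU_kap (r : ℕ) (q : SP D) : coef 0 ((L.UU ^ r) (kap (tm q 1))) =
    ∑ c : Fin (r + 1) → Fin D, ((List.ofFn fun i => pp (c i)).prod q).coeff 0 • L.gw c := by
  have h : L.UU ^ r * kap = (List.ofFn fun i => ∑ a, hat (ml (L.GG r i a)) * til (pp a)).prod := by
    rw [← (L.kap_UU.pow_right r).eq, List.ofFn_succ, List.prod_cons, UU_eq]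
    simp [GG, kap, ee]
  rw [← Module.End.mul_apply, h, prod_ofFn_sum, LinearMap.sum_apply, map_sum]
  refine sum_congr rfl fun c _ => ?_
  have h1 : (List.ofFn fun i => hat (ml (L.GG r i (c i)))).prod = hat (ml (L.gw c)) := by
    rw [gw, map_list_prod, map_list_prod, List.map_ofFn, List.map_ofFn]; rfl
  have h2 : (List.ofFn fun i => til (pp (c i))).prod = til (List.ofFn fun i => pp (c i)).prod := by
    rw [map_list_prod, List.map_ofFn]; rfl
  rw [prod_ofFn_mul _ _ fun _ _ => (til_hat _ _).symm, h1, h2, Module.End.mul_apply, til_tmul,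
    hat_tmul, coef_tm, ml_apply, mul_one]

variable (S : Subalgebra ℝ (Lam D))
  (htr : ∀ (R : Rep D) (A : Matrix R.ι R.ι ℝ) (k : ℕ), 1 ≤ k →
    (∀ x, A * R.T (L.adv x) = R.T (L.adv x) * A) → L.trForm R A (2 * k + 1) ∈ S)
include htr

theorem ph_UU_kap (r : ℕ) (q : SP D) (hq : tm q 1 ∈ L.Inv fun _ => 1) :
    L.ph (coef 0 ((L.UU ^ r) (kap (tm q 1)))) ∈ S := by
  rcases Nat.eq_zero_or_pos r with rfl | hr
  · rw [pow_zero, Module.End.one_apply, L.H_one (L.coef_mem_H (L.inv_kap _ hq)), map_zero]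
    · exact zero_mem _
    · rw [← coef_hat, eig_shift NN_kap (μ := 0) (by simp [NN, Gm_one])]; simp
  rw [coef_UU_kap]
  refine L.ph_gw_mem S htr r hr _ (fun σ a => ?_) fun x a => ?_
  · rw [(σ.ofFn_comp_perm fun i => pp (a i)).symm.prod_eq'
      (List.pairwise_ofFn.mpr fun i j _ => pp_comm _ _)]
    rfl
  · have h1 : gam vv pp (L.MS (fun _ => 1) x) q = 0 := by
      simpa [Lt, Tot, Gm_one, sc0_tm] using congrArg sc0 ((L.mem_Inv _).mp hq x)
    have h2 := congrArg (fun T : ES D => (T q).coeff 0)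
      (prod_comm_gam pp _ _ (osc_vp.gam_y (L.MS (fun _ => 1) x)) a)
    simp only [Module.End.mul_apply, h1, map_zero, LinearMap.add_apply, MvPolynomial.coeff_add,
      coeff_gam] at h2
    simpa [MvPolynomial.coeff_sum, MS] using h2.symm

theorem transgress (n : ℕ) (hn : 0 < n) {y : CC D} (hy : y ∈ L.Wn (n + 1)) (q : SP D)
    (hq : tm q 1 ∈ L.Inv fun _ => 1) (h : L.DD (fun _ => 1) y = -tm q 1) :
    L.ph (coef 0 y) ∈ S := by
  obtain ⟨h1, h2⟩ := L.mem_Wn.mp hy
  obtain ⟨t, ht, h3⟩ := L.E_surj (ν := n) (by exact_mod_cast hn) (kap y)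
    (L.mem_Wn.mpr ⟨L.inv_kap y h1, by simpa using eig_shift Nt_kap h2⟩)
  obtain ⟨h4, h5⟩ := L.mem_Wn.mp ht
  have h6 : Nt (y + L.DD (fun _ => 1) t) = ((n : ℝ) + 1) • (y + L.DD (fun _ => 1) t) := by
    rw [map_add, h2, eig_shift (L.Nt_DD _) h5, smul_add]
  have h7 : Tot 1 1 (y + L.DD (fun _ => 1) t) = L.UU (y + L.DD (fun _ => 1) t) + kap (tm q 1) := by
    rw [← sub_eq_iff_eq_add', EE_apply, map_add, map_add, map_add, h, ← h3, LinearMap.sub_apply,
      EE_apply, DD_DD h4]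
    simp [DD_DD (L.inv_kap t h4)]
  rw [← add_zero (coef 0 y), ← L.coef_DD h4, ← map_add]
  generalize y + L.DD (fun _ => 1) t = w at *
  have h8 : ∀ r : ℕ, NN (coef 0 ((L.UU ^ r) w)) = ((n : ℝ) + 1) • coef 0 ((L.UU ^ r) w) := fun r => by
    have := congrArg (coef 0) (eig_shift (L.Nt_UU.pow r) h6)
    rwa [Nt, coef_Tot, mul_zero, add_zero, map_smul] at this
  have key : ∀ k r : ℕ, r + k = n + 1 → L.ph (coef 0 ((L.UU ^ r) w)) ∈ S := by
    intro k
    induction k with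
    | zero =>
      intro r hr
      rw [L.coef_UU_zero (by rw [show r = n + 1 from hr]; push_cast; linarith [n.cast_nonneg (α := ℝ)])
        (h8 r), map_zero]
      exact zero_mem _
    | succ k ih =>
      intro r hr
      have a1 := congrArg (fun T : EC D => coef 0 (T w)) (L.Tot_UU.pow r)
      simp only [Module.End.mul_apply, LinearMap.add_apply, LinearMap.smul_apply, coef_Tot, h7,
        map_add, map_smul, mul_one] at a1
      rw [show Gm 1 = NN from rfl, h8, ← sub_eq_iff_eq_add, ← sub_smul, ← Module.End.mul_apply,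
        ← pow_succ] at a1
      have a2 := add_mem (ih (r + 1) (by omega)) (L.ph_UU_kap S htr r q hq)
      rw [← map_add, ← a1, map_smul] at a2
      have a3 : (n : ℝ) + 1 - r ≠ 0 := by
        have : (r : ℝ) + (k + 1) = n + 1 := by exact_mod_cast hr
        have : (0 : ℝ) ≤ k := k.cast_nonneg
        linarith
      simpa [smul_smul, inv_mul_cancel₀ a3] using S.smul_mem a2 ((n : ℝ) + 1 - r)⁻¹
  simpa using key (n + 1) 0 (by simp)

end LData

end Pool.Agent.Lib.MP_cdc9ab_al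
end

-- part Pool.Agent.Lib.MP_cdc9ab_al.Gen8
section

open scoped Matrix.Norms.Operator ContDiff Matrix
open Finset Function

namespace Pool.Agent.Lib.MP_cdc9ab_al

namespace LData
variable {D : ℕ} (L : LData D)

/-- Homogeneous invariant forms of positive degree. -/
def Hp : Set (Lam D) := {η | η ∈ L.H ∧ ∃ μ : ℝ, 1 ≤ μ ∧ NN η = μ • η}

theorem mp_neg_mem {η : Lam D} (h : η ∈ L.Hp) : mp (-1) η ∈ L.Hp := by
  obtain ⟨h1, μ, h2, h3⟩ := h
  refine ⟨L.mem_H.mpr fun a => ?_, μ, h2, ?_⟩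
  · have := L.mem_H.mp h1 a
    rw [LL] at *
    rw [← mp_Gm (by simp), this, map_zero]
  · rw [NN] at *
    rw [← mp_Gm (by simp), h3, map_smul]

/-- Elements killed by the contractions with invariant forms. -/
noncomputable def Nn : Submodule ℝ (CC D) := ⨅ η : L.Hp, LinearMap.ker (hat (ell η.1))

theorem mem_Nn {z : CC D} : z ∈ L.Nn ↔ ∀ η ∈ L.Hp, hat (ell η) z = 0 := by simp [Nn]

theorem Nn_stable {T : EC D} (h : ∀ η ∈ L.Hp, hat (ell η) * T = T * hat (ell (mp (-1) η))) :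
    ∀ z ∈ L.Nn, T z ∈ L.Nn := fun z hz => L.mem_Nn.mpr fun η hη => by
  rw [← Module.End.mul_apply, h η hη, Module.End.mul_apply, L.mem_Nn.mp hz _ (L.mp_neg_mem hη),
    map_zero]

theorem ell_dlt (j : Fin D → ℝ) (η : Lam D) :
    hat (ell η) * dlt j = dlt j * hat (ell (mp (-1) η)) := by
  simp only [dlt, mul_sum, sum_mul, mul_smul_comm, smul_mul_assoc]
  refine sum_congr rfl fun a _ => congrArg _ ?_
  rw [← mul_assoc, ← (til_hat _ _).eq, mul_assoc, mul_assoc, ← map_mul, ← map_mul, ell_ii]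

theorem Nn_Kh : ∀ z ∈ L.Nn, hat L.Kh z ∈ L.Nn := L.Nn_stable fun η hη => by
  have h := L.ell_LL (L.mp_neg_mem hη).1
  rw [← map_mul, ← map_mul, Kh, mul_assoc, ← (L.commute_Gr (L.commute_Cas h)).eq, ← mul_assoc,
    ← mul_assoc]
  congr 2
  simp only [hh, mul_sum, sum_mul, mul_smul_comm, smul_mul_assoc]
  exact sum_congr rfl fun a _ => by rw [← mul_assoc, ell_ii, mul_assoc, (h a).eq, mul_assoc]

theorem Nn_Pr : ∀ z ∈ L.Nn, hat L.Pr z ∈ L.Nn := fun z hz => L.mem_Nn.mpr fun η hη => by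
  rw [← Module.End.mul_apply, ← map_mul, (L.commute_Pr (L.commute_Cas (L.ell_LL hη.1))).eq, map_mul,
    Module.End.mul_apply, L.mem_Nn.mp hz _ hη, map_zero]

theorem Qp_of_ell {y : Lam D} (hy : y ∈ L.H) (h : ∀ η ∈ L.Hp, ell η y = 0) : Qp y = 0 := by
  have h1 := NN_ind L.H (LinearMap.ker (Bf.flip y ∘ₗ NN)) (L.H_stable L.NN_LL) (fun n η hη hN => by
    rcases Nat.eq_zero_or_pos n with rfl | hn
    · simp [hN]
    · simp [hN, Bf_apply, h η ⟨hη, n, by exact_mod_cast hn, hN⟩]) _ (L.H_stable L.NN_LL y hy)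
  rw [Qp_apply, sub_eq_zero]
  exact eq_alg_of_NN (Bf_def _ (by simpa [Bf_NN] using h1))

theorem ph_H (S : Subalgebra ℝ (Lam D))
    (htr : ∀ (R : Rep D) (A : Matrix R.ι R.ι ℝ) (k : ℕ), 1 ≤ k →
      (∀ x, A * R.T (L.adv x) = R.T (L.adv x) * A) → L.trForm R A (2 * k + 1) ∈ S) :
    ∀ ξ ∈ L.H, L.ph ξ ∈ S := by
  refine ctr_ind L.H (S.toSubmodule.comap L.ph.toLinearMap) (L.H_stable L.NN_LL) (by simp)
    fun n ξ hξ hN ih => ?_
  rcases Nat.eq_zero_or_pos n with rfl | hn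
  · rw [L.H_one hξ (by simpa using hN)]; exact zero_mem _
  let G : Set (Lam D) := {x | ∃ η ∈ L.H, ∃ η' ∈ L.H, ∃ μ ≤ (n : ℝ), ∃ μ' ≤ (n : ℝ),
    NN η = μ • η ∧ NN η' = μ' • η' ∧ x = η * η'}
  obtain ⟨w, hw, h1, h2⟩ := orth_deg (Submodule.span ℝ G) (fun x hx =>
    (Submodule.span_le (p := (Submodule.span ℝ G).comap NN)).mpr (by
      rintro _ ⟨η, a1, η', a2, μ, a3, μ', a4, a5, a6, rfl⟩
      change Gm 1 (η * η') ∈ Submodule.span ℝ G
      rw [Gm_mul, show Gm 1 = NN from rfl, a5, a6, smul_mul_assoc, mul_smul_comm, ← add_smul]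
      exact Submodule.smul_mem _ _ (Submodule.subset_span
        (s := G) ⟨η, a1, η', a2, μ, a3, μ', a4, a5, a6, rfl⟩)) hx) hN
  obtain ⟨h3, h4⟩ : w ∈ L.H ⊓ S.toSubmodule.comap L.ph.toLinearMap := Submodule.span_le.mpr (by
    rintro _ ⟨η, a1, η', a2, μ, a3, μ', a4, a5, a6, rfl⟩
    refine ⟨L.mul_mem_H a1 a2, ?_⟩
    change L.ph (η * η') ∈ S
    rw [map_mul]
    exact S.mul_mem (ih μ a3 η a1 a5) (ih μ' a4 η' a2 a6)) hw
  rw [← sub_add_cancel ξ w]
  refine add_mem ?_ h4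
  have h5 := L.H.sub_mem hξ h3
  generalize ξ - w = b at *
  have h6 : ∀ η ∈ L.Hp, ∀ a, ii a (ell η b) = 0 := by
    rintro η ⟨a1, μ, a2, a3⟩ a
    have a4 : NN (ell η b) = (n + 1 + -μ) • ell η b := eig_shift (by
      have := ell_Gm η 1
      rwa [Matrix.transpose_one, show Gm 1 = NN from rfl, a3, map_smul, sub_eq_add_neg,
        ← neg_smul] at this) h2
    by_cases hμ : μ ≤ n
    · rw [Bf_def (ell η b) (by
        rw [← Bf_mul]
        exact h1 _ (Submodule.subset_span (s := G) ⟨η, a1, _, L.H_stable (L.ell_LL a1) b h5, μ, hμ,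
          _, by linarith, a3, a4, rfl⟩)), map_zero]
    · refine eig_zero exists_NN_pol.choose_spec (eig_shift (NN_ii a) a4) fun m _ hm => ?_
      have : (0 : ℝ) ≤ m := m.cast_nonneg
      linarith
  have i1 : tm 1 b ∈ L.Inv fun _ => 1 := L.one_tmul_mem _ fun x => by simp [L.mem_H.mp h5]
  have i2 := L.wt_one.inv_dlt _ i1
  have i3 : L.DD (fun _ => 1) (tm 1 b) = -dlt (fun _ => 1) (tm 1 b) := by
    simp [DD, L.dL_of_mem_H h5]
  have i4 := L.wt_one.star i2 (by rw [← neg_eq_zero, ← map_neg, ← i3, DD_DD i1])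
  have i5 : dlt (fun _ => 1) (tm 1 b) ∈ L.Nn := L.mem_Nn.mpr fun η hη => by
    rw [← Module.End.mul_apply, ell_dlt]
    simp [dlt, h6 _ (L.mp_neg_mem hη)]
  have i6 := L.wt_one.inv_XX _ (L.inv_hat _ L.LL_Kh _ i2)
  have d1 := L.Nn_stable fun η _ => ell_dlt (fun _ => 1) η
  have i7 := L.XX_stable (fun _ => 1) _ (fun z hz => L.Nn_Kh _ (d1 z hz)) _ (L.Nn_Kh _ i5)
  have i8 : coef 0 (L.XX (fun _ => 1) (hat L.Kh (dlt (fun _ => 1) (tm 1 b)))) = 0 :=
    L.XX_stable (fun _ => 1) (LinearMap.ker (coef 0)) (fun z _ => by simp [coef_hat, coef_dlt]) _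
      (by simp [coef_hat, coef_dlt])
  have i9 := eig_shift (L.Nt_XX fun _ => 1) (eig_shift (show Sh Nt _ _ from Sh.hat L.NN_Kh _)
    (eig_shift (Nt_dlt fun _ => 1) (x := tm 1 b) (μ := n + 1) (by rw [Nt_one, h2, map_smul])))
  generalize L.XX (fun _ => 1) (hat L.Kh (dlt (fun _ => 1) (tm 1 b))) = v at *
  have j1 := L.Nn_Pr _ (add_mem i5 (d1 _ i7))
  have j2 := L.inv_hat _ (fun x => L.commute_Pr (L.LL_Cas x)) _ (add_mem i2 (L.wt_one.inv_dlt _ i6))
  have j3 : hat Qp (hat L.Pr (dlt (fun _ => 1) (tm 1 b) + dlt (fun _ => 1) v)) = 0 :=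
    coef_ext fun m => by
      rw [coef_hat]
      refine L.Qp_of_ell (by rw [coef_hat]; exact L.Pr_mem _) fun η hη => ?_
      rw [← coef_hat, L.mem_Nn.mp j1 η hη, map_zero]
  rw [hat_Qp, sub_eq_zero] at j3
  generalize sc0 (hat L.Pr (dlt (fun _ => 1) (tm 1 b) + dlt (fun _ => 1) v)) = q at j3
  rw [j3] at i4 j2
  have j4 : L.XX (fun _ => 1) (tm q 1) = tm q 1 := by
    simpa [dlt, ii_one] using LinearMap.congr_fun (L.XX_mul fun _ => 1) (tm q 1)
  have j5 := L.transgress S htr n hn (y := tm 1 b + v)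
    (L.mem_Wn.mpr ⟨add_mem i1 i6, by rw [map_add, i9, Nt_one, h2, map_smul, smul_add]; simp⟩) q j2
    (by rw [map_add, i3, i4, j4]; abel)
  simpa [i8, coef_tm] using j5

theorem mp_Om {k : Mat D} (hk : k ∈ L.K) (c : Fin D) : mp k (L.Om c) = ∑ b, k b c • L.Om b := by
  have h1 : mp k (L.de c) = ∑ b, k b c • L.de b := by
    have h : ∀ a' b', ∑ a, ∑ b, L.ad a c b * (k a' a * k b' b) = ∑ e, k e c * L.ad a' e b' := by
      intro a' b'
      have := congrFun (congrFun ((aut_of_gam (transpose_mem_gam hk.1)).2 (Pi.single a' 1)) c) b'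
      rw [adv_single] at this
      simp only [adv, Matrix.mul_apply, Matrix.transpose_apply, Matrix.sum_apply, Matrix.smul_apply,
        smul_eq_mul, sum_mul, Matrix.mulVec_single_one, Matrix.col_apply] at this
      rw [this, sum_comm]
      exact sum_congr rfl fun _ _ => sum_congr rfl fun _ _ => by ring
    simp only [de, map_smul, map_sum, map_mul, mp_ge, sum_mul_sum, smul_mul_smul_comm,
      smul_comm (k _ c) (-1 / 2 : ℝ), ← smul_sum]
    congr 1
    simp only [smul_sum, smul_smul]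
    conv_lhs => enter [2, a]; rw [sum_comm]; enter [2, a']; rw [sum_comm]
    conv_lhs => rw [sum_comm]; enter [2, a']; rw [sum_comm]
    conv_rhs => rw [sum_comm]; enter [2, a']; rw [sum_comm]
    simp only [← sum_smul, h]
  have h2 : k * Matrix.diagonal L.ip = Matrix.diagonal L.ip * k := by
    ext a b; simp [K_ip hk]
  simp only [Om_eq, fo, map_smul, ← mp_mul, h2]
  simp only [mp_mul, h1, map_sum, map_smul, smul_sum, smul_comm (-2 : ℝ)]

theorem mp_CW {k : Mat D} (hk : k ∈ L.K) {j : ℕ} (t : (Fin j → Fin D) → ℝ) :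
    mp k (L.CW t) = L.CW (tens (fun _ => k) *ᵥ t) := by
  simp only [CW, map_sum, map_smul, map_list_prod, List.map_ofFn, comp_def, L.mp_Om hk,
    prod_ofFn_sum, prod_ofFn_smul, Matrix.mulVec, dotProduct, tens_apply, smul_sum, sum_smul,
    smul_smul]
  rw [sum_comm]
  simp only [mul_comm]

theorem mp_ph {k : Mat D} (hk : k ∈ L.K) {ξ : Lam D} (h : ξ ∈ L.H) : mp k (L.ph ξ) = L.ph ξ := by
  have h2 : k * Matrix.diagonal L.ip = Matrix.diagonal L.ip * k := by
    ext a b; simp [K_ip hk]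
  rw [← mp_mul, h2, mp_mul, L.mp_of_mem_H h hk.1]

end LData

theorem gen {D : ℕ} (L : LData D) (S : Subalgebra ℝ (Ext (Fin D → ℝ)))
    (hcw : ∀ (j : ℕ) (t : (Fin j → Fin D) → ℝ), L.KInv t → L.CW t ∈ S)
    (htr : ∀ (R : Rep D) (A : Matrix R.ι R.ι ℝ) (k : ℕ), 1 ≤ k →
      (∀ x, A * R.T (L.adv x) = R.T (L.adv x) * A) → L.trForm R A (2 * k + 1) ∈ S)
    (a : Ext (Fin D → ℝ))
    (hor : ExteriorAlgebra.map (Matrix.toLin' (Matrix.diagonal L.ip)) a = a)
    (hinv : ∀ k ∈ L.K, ExteriorAlgebra.map (Matrix.toLin' k) a = a) : a ∈ S := by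
  have h1 : a ∈ L.UA := L.AA_le a (L.mem_AA.mpr ⟨hor, fun x => by
    rcases L.s_sq x with h | h
    · simp [LData.jk, h]
    · rw [L.LL_eq_smul, LinearMap.smul_apply, Gm_eq_zero_of_fix fun t => hinv _ ?_]
      · simp
      · rw [← L.adv_single, ← L.adv_smul]
        exact L.exp_mem_K _ (by simp [L.adv_smul, L.adv_single, L.transp, h])⟩)
  obtain ⟨n, f, g, hs⟩ := Submodule.mem_span_set'.mp h1
  choose j c ξ hξ hg using fun i => (g i).2
  let Ψ : ((i : Fin n) → (Fin (j i) → Fin D) → ℝ) →ₗ[ℝ] Lam D :=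
    { toFun := fun t => ∑ i, L.CW (t i) * L.ph (ξ i)
      map_add' := fun _ _ => by simp [LData.CW, add_smul, sum_add_distrib, add_mul]
      map_smul' := fun _ _ => by simp [LData.CW, mul_smul, ← smul_sum] }
  have hΨ : ∀ t, Ψ t = ∑ i, L.CW (t i) * L.ph (ξ i) := fun _ => rfl
  let B : LinearMap.BilinForm ℝ ((i : Fin n) → (Fin (j i) → Fin D) → ℝ) :=
    ∑ i, (dotProductBilin ℝ ℝ).compl₁₂ (LinearMap.proj i) (LinearMap.proj i)
  have hB : ∀ x y, B x y = ∑ i, x i ⬝ᵥ y i := fun _ _ => by simp [B]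
  have h2 : Ψ (fun i => Pi.single (c i) (f i)) = a := by
    rw [hΨ, ← hs]
    exact sum_congr rfl fun i _ => by simp [hg, LData.CW, Pi.single_apply, ite_smul]
  obtain ⟨t, h3, h4⟩ := exists_fixed B (fun x y => by simp only [hB, dotProduct_comm])
    (fun x hx => by
      have h0 : ∀ i ∈ univ, 0 ≤ x i ⬝ᵥ x i := fun _ _ => sum_nonneg fun _ _ => mul_self_nonneg _
      rw [hB, sum_eq_zero_iff_of_nonneg h0] at hx
      exact funext fun i => dotProduct_self_eq_zero.mp (hx i (mem_univ _))) Ψ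
    (fun (k : L.K) t i => tens (fun _ => k.1) *ᵥ t i) (fun k x => by
      simp only [hB]
      refine sum_congr rfl fun i _ => ?_
      rw [Matrix.dotProduct_mulVec, Matrix.vecMul_mulVec, ← tens_transp, ← map_mul,
        show ((fun _ => k.1ᵀ) * fun _ => k.1 : Fin (j i) → Mat D) = 1 from funext fun _ => k.2.2,
        map_one, Matrix.vecMul_one]) (fun i => Pi.single (c i) (f i)) fun k x hx => by
      rw [h2] at hx ⊢
      rw [← hinv k k.2, ← hx, hΨ, hΨ, map_sum]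
      exact sum_congr rfl fun i _ => by rw [map_mul, L.mp_CW k.2, L.mp_ph k.2 (hξ i)]
  rw [← h2, ← h3, hΨ]
  exact S.sum_mem fun i _ => S.mul_mem (hcw _ _ fun k hk b => congrFun (congrFun (h4 ⟨k, hk⟩) i) b)
    (L.ph_H S htr _ (hξ i))

end Pool.Agent.Lib.MP_cdc9ab_al
end

-- part Pool.Agent.Lib.MP_cdc9ab_al.Final
section

open scoped Matrix.Norms.Operator ContDiff Matrix Topology
open Finset Filter

namespace Pool.Agent.Lib.MP_cdc9ab_al

/-- Every smooth invariant cocycle is, along the retraction, cohomologous to a bounded one. -/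
theorem exists_bounded {D : ℕ} (L : LData D) (r : Retr L) {n : ℕ}
    {F : (Fin (n + 1) → Mat D) → ℝ} (hF : IsSCoc (Pos D) L.acts F) :
    ∃ g : (Fin n → Mat D) → ℝ, SmOn (Pos D) g ∧
      (∀ A ∈ L.acts, ∀ h, (∀ i, h i ∈ Pos D) → g (fun i => A (h i)) = g h) ∧
      ∃ C : ℝ, ∀ h, (∀ i, h i ∈ Pos D) → |F (fun i => r.rr (h i)) - cob g h| ≤ C := by
  have hdeg := mixR_deg eb L.Y isOpen_pos one_mem_pos (p := n) (m := 0)
    (Φ := fun h => algebraMap ℝ _ (F h)) fun _ _ => algebraMap_mem_deg _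
  rw [zero_add] at hdeg
  obtain ⟨B, ⟨b1, b2, b3, C, b4⟩, hB⟩ := LData.good_of_mem (gen L L.goodAlg
    (fun j t ht => (gromov L r j t ht).mem) (fun R A k hk hA => (borel L R A k hk hA).mem) _
    (LData.mixR_hor hF.smooth) fun k hk => LData.mixR_kinv hF hk) hdeg
  obtain ⟨g, g1, g2, g3⟩ := r.vanish (F := fun h => F h - B h)
    ⟨fun h hh => (hF.smooth h hh).sub (b1 h hh),
      fun h hh => by rw [cob_sub, hF.coc h hh, b2 h hh, sub_zero],
      fun A hA h hh => by rw [hF.inv A hA h hh, b3 A hA h hh]⟩ (by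
      have := mixR_add eb L.Y isOpen_pos one_mem_pos
        (SmOn.alg (V := Fin D → ℝ) (f := fun h => F h - B h)
          fun h hh => (hF.smooth h hh).sub (b1 h hh)) (SmOn.alg b1)
      simp only [← map_add, sub_add_cancel] at this
      rw [hB] at this
      exact left_eq_add.mp ((add_comm _ _).trans this.symm).symm)
  refine ⟨g, g1, g2, C, fun h hh => ?_⟩
  rw [← g3 h hh, sub_sub_cancel]
  exact b4 _ fun i => r.rr_mem (hh i)

theorem final_group {G : Type} [Group G] [TopologicalSpace G] [IsTopologicalGroup G] [T2Space G]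
    [LocallyCompactSpace G] [SecondCountableTopology G] {D : ℕ} (L : LData D)
    (ρ : G →* Mat D) (hρ : Continuous ρ)
    (hprop : ∀ R : ℝ, IsCompact {g : G | ∀ i j, |ρ g i j| ≤ R}) (hrange : Set.range ρ = L.Gam)
    (n : ℕ) (f : (Fin (n + 1) → G) → ℝ) (hf : Continuous f)
    (hinv : ∀ (h : G) (x : Fin (n + 1) → G), f (fun j => h * x j) = f x)
    (hcoc : ∀ x : Fin (n + 2) → G, cob f x = 0) :
    ∃ g : (Fin n → G) → ℝ, Continuous g ∧
      (∀ (h : G) (x : Fin n → G), g (fun j => h * x j) = g x) ∧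
      ∃ C : ℝ, ∀ x : Fin (n + 1) → G, |f x + cob g x| ≤ C := by
  have hmem : ∀ x, ρ x ∈ L.Gam := fun x => by
    rw [← SetLike.mem_coe, ← hrange]; exact ⟨x, rfl⟩
  have hL : L.Proper := by
    intro R
    convert (hprop R).image hρ using 1
    ext m
    constructor
    · rintro ⟨h1, h2⟩
      rw [← SetLike.mem_coe, ← hrange] at h1
      obtain ⟨x, rfl⟩ := h1
      exact ⟨x, h2, rfl⟩
    · rintro ⟨x, hx, rfl⟩
      exact ⟨hmem x, hx⟩
  obtain ⟨r⟩ := exists_retr L hL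
  obtain ⟨F, hF, g1, c1, i1, e1⟩ := smoothing L r ρ hρ hprop hrange n f hf hinv hcoc
  obtain ⟨g2, s2, i2, C, e2⟩ := exists_bounded L r hF
  let o : G → Mat D := fun x => act (ρ x⁻¹) 1
  have ho : ∀ x, o x ∈ Pos D := fun x => act_mem_pos (LData.isUnit_of_gam (hmem _)) one_mem_pos
  have hoc : Continuous o := by
    have h1 : Continuous fun x : G => ρ x⁻¹ := hρ.comp continuous_inv
    simp only [o, act_apply]
    exact (h1.matrix_transpose.mul continuous_const).mul h1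
  have hr : ∀ x, r.rr (o x) = o x := fun x => by
    rw [r.rr_act (hmem _) one_mem_pos, r.rr_one]
  refine ⟨fun x => g1 x - g2 fun i => o (x i), c1.sub ?_, fun h x => ?_, C, fun x => ?_⟩
  · refine continuous_iff_continuousAt.mpr fun x => ?_
    exact ContinuousAt.comp (g := g2) (s2 _ fun i => ho (x i)).continuousAt
      (continuous_pi fun i => hoc.comp (continuous_apply i)).continuousAt
  · beta_reduce
    rw [i1, ← i2 _ ⟨ρ h⁻¹, hmem _, rfl⟩ _ fun i => ho (x i)]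
    simp only [o, mul_inv_rev, map_mul, act_mul]
  · have := e2 _ fun i => ho (x i)
    simp only [hr] at this
    rwa [cob_sub, ← add_sub_assoc, ← e1, cob_comp o]

end Pool.Agent.Lib.MP_cdc9ab_al
end
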