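import Pool.Agent.Lib.MP_cdc9ab_al.Sqrt
import Pool.Agent.Lib.MP_cdc9ab_al.Bezout

-- part Pool.Agent.Lib.MP_cdc9ab_al.GromovPoly
section

/-! Polynomial maps between finite-dimensional spaces, and the cube parametrisation. -/

open scoped ContDiff
open Finset MvPolynomial Module

namespace Pool.Agent.Lib.MP_cdc9ab_al.Gro

section poly
variable {E : Type} [NormedAddCommGroup E] [NormedSpace ℝ E] [FiniteDimensional ℝ E]
  {V W U : Type} [AddCommGroup V] [Module ℝ V] [AddCommGroup W] [Module ℝ W]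
  [AddCommGroup U] [Module ℝ U]

/-- Polynomial functions of degree at most `d`. -/
def Poly0 (d : ℕ) (f : E → ℝ) : Prop :=
  ∃ F : MvPolynomial (Fin (finrank ℝ E)) ℝ, F.totalDegree ≤ d ∧
    ∀ x, f x = eval ((finBasis ℝ E).equivFun x) F

/-- Polynomial maps of degree at most `d`. -/
def Poly (d : ℕ) (f : E → V) : Prop := ∀ φ : V →ₗ[ℝ] ℝ, Poly0 d fun x => φ (f x)

theorem Poly0.add {d : ℕ} {f g : E → ℝ} (hf : Poly0 d f) (hg : Poly0 d g) :
    Poly0 d fun x => f x + g x := by
  obtain ⟨F, h1, h2⟩ := hf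
  obtain ⟨G, h3, h4⟩ := hg
  exact ⟨F + G, (totalDegree_add _ _).trans (max_le h1 h3), fun x => by rw [map_add, ← h2, ← h4]⟩

theorem Poly0.mul {d e : ℕ} {f g : E → ℝ} (hf : Poly0 d f) (hg : Poly0 e g) :
    Poly0 (d + e) fun x => f x * g x := by
  obtain ⟨F, h1, h2⟩ := hf
  obtain ⟨G, h3, h4⟩ := hg
  exact ⟨F * G, (totalDegree_mul _ _).trans (add_le_add h1 h3), fun x => by rw [map_mul, ← h2, ← h4]⟩

theorem Poly0.const (d : ℕ) (c : ℝ) : Poly0 d fun _ : E => c :=
  ⟨C c, by simp, fun x => by simp⟩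

theorem Poly0.sum {d : ℕ} {I : Type} (s : Finset I) {f : I → E → ℝ} (h : ∀ i, Poly0 d (f i)) :
    Poly0 d fun x => ∑ i ∈ s, f i x := by
  classical
  induction s using Finset.induction_on with
  | empty => simpa using Poly0.const d 0
  | insert a s ha ih => simpa only [sum_insert ha] using (h a).add ih

theorem Poly0.contDiff {d : ℕ} {f : E → ℝ} (hf : Poly0 d f) : ContDiff ℝ ∞ f := by
  obtain ⟨F, -, h⟩ := hf
  have h1 : ContDiff ℝ ∞ fun x : Fin (finrank ℝ E) → ℝ => eval x F :=
    contDiffOn_univ.1 (AnalyticOnNhd.eval_mvPolynomial F).contDiffOn_of_completeSpace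
  rw [funext h]
  exact h1.comp (finBasis ℝ E).equivFunL.contDiff

theorem Poly.mono {d e : ℕ} {f : E → V} (hf : Poly d f) (h : d ≤ e) : Poly e f := fun φ =>
  (hf φ).imp fun _ k => ⟨k.1.trans h, k.2⟩

theorem Poly.const (d : ℕ) (c : V) : Poly d fun _ : E => c := fun _ => Poly0.const d _

theorem Poly.add {d : ℕ} {f g : E → V} (hf : Poly d f) (hg : Poly d g) :
    Poly d fun x => f x + g x := fun φ => by simpa only [map_add] using (hf φ).add (hg φ)

theorem Poly.map {d : ℕ} {f : E → V} (hf : Poly d f) (T : V →ₗ[ℝ] W) : Poly d fun x => T (f x) :=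
  fun φ => hf (φ ∘ₗ T)

theorem Poly.sub {d : ℕ} {f g : E → V} (hf : Poly d f) (hg : Poly d g) :
    Poly d fun x => f x - g x := by
  simpa [sub_eq_add_neg] using hf.add (hg.map (-LinearMap.id))

theorem Poly.sum {d : ℕ} {I : Type} (s : Finset I) {f : I → E → V} (h : ∀ i, Poly d (f i)) :
    Poly d fun x => ∑ i ∈ s, f i x := fun φ => by
  simpa only [map_sum] using Poly0.sum s fun i => h i φ

theorem Poly.id : Poly 1 fun x : E => x := fun φ => by
  have h : ∀ i, Poly0 1 fun x : E => (finBasis ℝ E).equivFun x i * φ (finBasis ℝ E i) := fun i =>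
    Poly0.mul (d := 1) (e := 0) ⟨X i, by simp, fun x => by simp⟩ (Poly0.const 0 _)
  have := Poly0.sum univ h
  convert this using 2 with x
  conv_lhs => rw [← (finBasis ℝ E).sum_equivFun x, map_sum]
  simp only [map_smul, smul_eq_mul]

theorem Poly.bil [FiniteDimensional ℝ V] {d e : ℕ} {f : E → V} {g : E → W} (hf : Poly d f)
    (hg : Poly e g) (B : V →ₗ[ℝ] W →ₗ[ℝ] U) : Poly (d + e) fun x => B (f x) (g x) := fun φ => by
  have := Poly0.sum univ fun i =>
    (hf ((finBasis ℝ V).coord i)).mul (hg (φ ∘ₗ B (finBasis ℝ V i)))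
  convert this using 2 with x
  beta_reduce
  conv_lhs => rw [← (finBasis ℝ V).sum_repr (f x)]
  simp only [map_sum, map_smul, LinearMap.sum_apply, LinearMap.smul_apply, smul_eq_mul]
  rfl

theorem Poly.smul {d e : ℕ} {f : E → ℝ} {g : E → W} (hf : Poly d f) (hg : Poly e g) :
    Poly (d + e) fun x => f x • g x := hf.bil hg (LinearMap.lsmul ℝ W)

theorem Poly.mul {A : Type} [Ring A] [Algebra ℝ A] [FiniteDimensional ℝ A] {d e : ℕ} {f g : E → A}
    (hf : Poly d f) (hg : Poly e g) : Poly (d + e) fun x => f x * g x :=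
  hf.bil hg (LinearMap.mul ℝ A)

theorem Poly.prod {d : ℕ} {f : E → V} {g : E → W} (hf : Poly d f) (hg : Poly d g) :
    Poly d fun x => (f x, g x) := by
  simpa using (hf.map (LinearMap.inl ℝ V W)).add (hg.map (LinearMap.inr ℝ V W))

theorem Poly.pi {d : ℕ} {I : Type} [Fintype I] {f : E → I → V} (h : ∀ i, Poly d fun x => f x i) :
    Poly d f := by
  classical
  have := Poly.sum univ fun i => (h i).map (LinearMap.single ℝ (fun _ : I => V) i)
  simpa [univ_sum_single] using this

theorem Poly.contDiff {V : Type} [NormedAddCommGroup V] [NormedSpace ℝ V] [FiniteDimensional ℝ V]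
    {d : ℕ} {f : E → V} (hf : Poly d f) : ContDiff ℝ ∞ f := by
  have : f = fun x => ∑ i, (finBasis ℝ V).coord i (f x) • finBasis ℝ V i :=
    funext fun x => ((finBasis ℝ V).sum_repr (f x)).symm
  rw [this]
  exact ContDiff.sum fun i _ => (hf _).contDiff.smul contDiff_const

theorem bezoutV (E V : Type) [NormedAddCommGroup E] [NormedSpace ℝ E] [FiniteDimensional ℝ E]
    [NormedAddCommGroup V] [NormedSpace ℝ V] [FiniteDimensional ℝ V] (d : ℕ) :
    ∃ N : ℕ, ∀ f : E → V, Poly d f → ∀ Z : Finset E,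
      (∀ z ∈ Z, f z = 0 ∧ ∀ v, fderiv ℝ f z v = 0 → v = 0) → Z.card ≤ N := by
  obtain ⟨N, hN⟩ := bezout (Fin (finrank ℝ E)) (Fin (finrank ℝ V)) d
  refine ⟨N, fun f hf Z hZ => ?_⟩
  choose F h1 h2 using fun k => hf ((finBasis ℝ V).coord k)
  rw [← card_map (finBasis ℝ E).equivFun.toEquiv.toEmbedding]
  refine hN F h1 _ fun z' hz' => ?_
  obtain ⟨z, hz, rfl⟩ := mem_map.1 hz'
  refine ⟨fun k => ((h2 k z).symm.trans ?_), fun v hv => ?_⟩
  · simp only [(hZ z hz).1, map_zero]
  · rw [← (finBasis ℝ E).equivFun.symm.map_eq_zero_iff]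
    refine (hZ z hz).2 _ ((finBasis ℝ V).ext_elem fun k => ?_)
    have a1 := ((finBasis ℝ V).coord k).toContinuousLinearMap.hasFDerivAt.comp z
      (hf.contDiff.differentiable (by simp) z).hasFDerivAt
    have a2 := (hasStrictFDerivAt_eval (F k) _).hasFDerivAt.comp z
      (finBasis ℝ E).equivFunL.toContinuousLinearMap.hasFDerivAt
    have a3 := DFunLike.congr_fun ((a1.congr_of_eventuallyEq
      (Filter.Eventually.of_forall fun x => (h2 k x).symm)).unique a2)
      ((finBasis ℝ E).equivFun.symm v)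
    have a4 : (finBasis ℝ E).equivFunL.toContinuousLinearMap
        ((finBasis ℝ E).equivFun.symm v) = v := (finBasis ℝ E).equivFun.apply_symm_apply v
    rw [ContinuousLinearMap.comp_apply, ContinuousLinearMap.comp_apply, a4] at a3
    refine a3.trans ?_
    simp only [_root_.sum_apply, smul_apply,
      ContinuousLinearMap.proj_apply, smul_eq_mul, map_zero]
    exact hv k

theorem poly_conePt (p : ℕ) : ∀ (d : ℕ) (h : Fin p → V) (y : E → V) (s : E → Fin p → ℝ),
    Poly d y → Poly 1 s → Poly (d + p) fun x => conePt p h (y x) (s x) := by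
  induction p with
  | zero => intro d h y s hy _; exact hy
  | succ p ih =>
    intro d h y s hy hs
    have := ih (d + 1) (Fin.tail h) (fun x => h 0 + s x 0 • (y x - h 0)) (fun x => Fin.tail (s x))
      ((Poly.const _ _).add (((hs.map (LinearMap.proj 0)).smul (hy.sub (Poly.const _ _))).mono
        (by omega))) (Poly.pi fun i => hs.map (LinearMap.proj i.succ))
    exact this.mono (by omega)

end poly

theorem map_conePt {V W : Type} [AddCommGroup V] [Module ℝ V] [AddCommGroup W] [Module ℝ W]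
    (T : V →ₗ[ℝ] W) (p : ℕ) : ∀ (h : Fin p → V) (y : V) (s : Fin p → ℝ),
    T (conePt p h y s) = conePt p (fun i => T (h i)) (T y) s := by
  induction p with
  | zero => intro h y s; rfl
  | succ p ih =>
    intro h y s
    simp only [conePt, ih, map_add, map_smul, map_sub]
    rfl

theorem conePt_pos (p : ℕ) : ∀ (h : Fin p → ℝ) (y : ℝ) (s : Fin p → ℝ), (∀ i, 0 ≤ h i) → 0 ≤ y →
    (0 < y ∨ ∃ i, 0 < h i) → (∀ i, s i ∈ Set.Ioo (0 : ℝ) 1) → 0 < conePt p h y s := by
  induction p with
  | zero =>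
    intro h y s _ _ h3 _
    exact h3.resolve_right fun ⟨i, _⟩ => i.elim0
  | succ p ih =>
    intro h y s h1 h2 h3 h4
    obtain ⟨a1, a2⟩ := h4 0
    have a3 := h1 0
    have e : h 0 + s 0 • (y - h 0) = (1 - s 0) * h 0 + s 0 * y := by rw [smul_eq_mul]; ring
    have b1 := mul_nonneg (sub_pos.2 a2).le a3
    have b2 := mul_nonneg a1.le h2
    refine ih _ _ _ (fun i => h1 _) (by rw [e]; linarith) ?_ fun i => h4 _
    rw [e]
    rcases h3 with k | ⟨i, k⟩
    · have := mul_pos a1 k
      exact Or.inl (by linarith)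
    · refine Fin.cases (fun k => Or.inl ?_) (fun i k => Or.inr ⟨i, k⟩) i k
      have := mul_pos (sub_pos.2 a2) k
      linarith

/-- Barycentric coordinates of the cube parametrisation. -/
noncomputable def bary (n : ℕ) (s : Fin n → ℝ) : Fin (n + 1) → ℝ :=
  conePt n (fun i => Pi.single i.succ 1) (Pi.single 0 1) s

theorem bary_pos {n : ℕ} {s : Fin n → ℝ} (hs : ∀ i, s i ∈ Set.Ioo (0 : ℝ) 1) (l : Fin (n + 1)) :
    0 < bary n s l := by
  have := map_conePt (LinearMap.proj l : (Fin (n + 1) → ℝ) →ₗ[ℝ] ℝ) n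
    (fun i => Pi.single i.succ 1) (Pi.single 0 1) s
  refine lt_of_lt_of_eq (conePt_pos n _ _ s (fun i => ?_) ?_ ?_ hs) this.symm
  · simp only [LinearMap.proj_apply, Pi.single_apply]; split_ifs <;> norm_num
  · simp only [LinearMap.proj_apply, Pi.single_apply]; split_ifs <;> norm_num
  · refine Fin.cases (Or.inl (by simp)) (fun i => Or.inr ⟨i, by simp⟩) l

theorem conePt_eq {V : Type} [AddCommGroup V] [Module ℝ V] {n : ℕ} (H : Fin (n + 1) → V)
    (s : Fin n → ℝ) : conePt n (Fin.tail H) (H 0) s = ∑ l, bary n s l • H l := by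
  have := map_conePt (Fintype.linearCombination ℝ H) n
    (fun i => Pi.single i.succ 1) (Pi.single 0 1) s
  simp only [Fintype.linearCombination_apply_single, one_smul] at this
  exact this.symm

theorem poly_bary {E : Type} [NormedAddCommGroup E] [NormedSpace ℝ E] [FiniteDimensional ℝ E]
    {n : ℕ} {s : E → Fin n → ℝ} (hs : Poly 1 s) : Poly n fun x => bary n (s x) := by
  simpa only [zero_add, bary] using poly_conePt n 0 _ _ s (Poly.const 0 _) hs

end Pool.Agent.Lib.MP_cdc9ab_al.Gro
end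

-- part Pool.Agent.Lib.MP_cdc9ab_al.Gen1
section

open scoped Matrix.Norms.Operator ContDiff Matrix
open Finset Polynomial

namespace Pool.Agent.Lib.MP_cdc9ab_al

section osc
variable {R : Type} [Ring R] [Algebra ℝ R] {D : ℕ}

/-- Canonical commutation (`ε = 1`) or anticommutation (`ε = -1`) relations. -/
structure Osc (ε : ℝ) (x y : Fin D → R) : Prop where
  xx : ∀ a b, x a * x b = ε • (x b * x a)
  yy : ∀ a b, y a * y b = ε • (y b * y a)
  yx : ∀ a b, y a * x b = (if a = b then 1 else 0) + ε • (x b * y a)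
  ee : ε * ε = 1

/-- Second quantisation. -/
noncomputable def gam (x y : Fin D → R) (M : Mat D) : R := ∑ b, ∑ c, M b c • (x b * y c)

variable {ε : ℝ} {x y : Fin D → R}

theorem gam_add (M N : Mat D) : gam x y (M + N) = gam x y M + gam x y N := by
  simp [gam, add_smul, sum_add_distrib]

theorem gam_smul (r : ℝ) (M : Mat D) : gam x y (r • M) = r • gam x y M := by
  simp [gam, smul_sum, mul_smul]

theorem gam_neg (M : Mat D) : gam x y (-M) = -gam x y M := by simp [gam]

theorem gam_sub (M N : Mat D) : gam x y (M - N) = gam x y M - gam x y N := by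
  simp [gam, sub_smul, sum_sub_distrib]

theorem gam_sum {I : Type} (s : Finset I) (M : I → Mat D) :
    gam x y (∑ i ∈ s, M i) = ∑ i ∈ s, gam x y (M i) := by
  classical
  induction s using Finset.induction_on with
  | empty => simp [gam]
  | insert a s ha ih => rw [sum_insert ha, sum_insert ha, gam_add, ih]

theorem gam_one : gam x y 1 = ∑ a, x a * y a := by
  simp [gam, Matrix.one_apply, ite_smul]

theorem Osc.gam_x (h : Osc ε x y) (M : Mat D) (a : Fin D) :
    gam x y M * x a = x a * gam x y M + ∑ b, M b a • x b := by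
  have : ∀ b c, x b * y c * x a = x a * (x b * y c) + if c = a then x b else 0 := by
    intro b c
    rw [mul_assoc, h.yx, mul_add, mul_smul_comm, ← mul_assoc, h.xx b a, smul_mul_assoc, smul_smul,
      h.ee, one_smul, mul_assoc, add_comm]
    split_ifs <;> simp
  simp only [gam, sum_mul, mul_sum, smul_mul_assoc, mul_smul_comm, this, smul_add, sum_add_distrib,
    smul_ite, smul_zero, sum_ite_eq', mem_univ, if_true]

theorem Osc.gam_y (h : Osc ε x y) (M : Mat D) (a : Fin D) :
    gam x y M * y a = y a * gam x y M - ∑ c, M a c • y c := by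
  have : ∀ b c, x b * y c * y a = y a * (x b * y c) - if b = a then y c else 0 := by
    intro b c
    rw [← mul_assoc, h.yx, add_mul, smul_mul_assoc, mul_assoc (x b) (y a), h.yy a c,
      mul_smul_comm, smul_smul, h.ee, one_smul, mul_assoc]
    by_cases hab : a = b
    · simp [hab]
    · simp [hab, Ne.symm hab]
  simp only [gam, sum_mul, mul_sum, smul_mul_assoc, mul_smul_comm, this, smul_sub, sum_sub_distrib,
    smul_ite, smul_zero]
  congr 1
  rw [sum_comm]
  simp

theorem Osc.gam_gam (h : Osc ε x y) (M N : Mat D) :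
    gam x y M * gam x y N = gam x y N * gam x y M + gam x y (M * N - N * M) := by
  have : ∀ b c, gam x y M * (x b * y c) = x b * y c * gam x y M +
      (∑ a, M a b • (x a * y c) - ∑ a, M c a • (x b * y a)) := by
    intro b c
    rw [← mul_assoc, h.gam_x, add_mul, mul_assoc, h.gam_y, mul_sub, sum_mul, mul_sum, mul_assoc]
    simp only [smul_mul_assoc, mul_smul_comm]
    abel
  conv_lhs => rw [gam.eq_1 x y N]
  conv_rhs => rw [gam.eq_1 x y N, gam_sub]
  simp only [mul_sum, sum_mul, mul_smul_comm, smul_mul_assoc, this, smul_add, sum_add_distrib,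
    smul_sub, sum_sub_distrib, smul_sum, smul_smul]
  congr 2
  · simp only [gam, Matrix.mul_apply, sum_smul]
    rw [sum_comm]
    conv_rhs => rw [sum_comm]
    refine sum_congr rfl fun c _ => ?_
    rw [sum_comm]
    exact sum_congr rfl fun a _ => sum_congr rfl fun b _ => by rw [mul_comm]
  · simp only [gam, Matrix.mul_apply, sum_smul]
    exact sum_congr rfl fun b _ => sum_comm

omit [Algebra ℝ R] in
theorem prod_ofFn_sum {I : Type} [Fintype I] {n : ℕ} (f : Fin n → I → R) :
    (List.ofFn fun i => ∑ a, f i a).prod =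
      ∑ a : Fin n → I, (List.ofFn fun i => f i (a i)).prod := by
  induction n with
  | zero => simp
  | succ n ih =>
    rw [List.ofFn_succ, List.prod_cons, ih, sum_mul_sum, ← sum_product', univ_product_univ,
      ← (Fin.consEquiv fun _ => I).sum_comp]
    exact sum_congr rfl fun a _ => by simp [List.ofFn_succ, Fin.consEquiv]

omit [Algebra ℝ R] in
theorem pow_sum_eq {I : Type} [Fintype I] (n : ℕ) (f : I → R) :
    (∑ a, f a) ^ n = ∑ a : Fin n → I, (List.ofFn fun i => f (a i)).prod := by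
  rw [← prod_ofFn_sum fun _ a => f a, List.ofFn_const, List.prod_replicate]

theorem prod_ofFn_smul {n : ℕ} (c : Fin n → ℝ) (f : Fin n → R) :
    (List.ofFn fun i => c i • f i).prod = (∏ i, c i) • (List.ofFn f).prod := by
  induction n with
  | zero => simp
  | succ n ih =>
    rw [List.ofFn_succ, List.prod_cons, ih, List.ofFn_succ, List.prod_cons, Fin.prod_univ_succ,
      smul_mul_smul_comm]

end osc

section eig
variable {E : Type} [AddCommGroup E] [Module ℝ E]

/-- The polynomial with roots `0, …, M - 1`. -/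
noncomputable def Pol (M : ℕ) : ℝ[X] := ∏ n ∈ range M, (X - C (n : ℝ))

theorem eig_ind (N : Module.End ℝ E) (W : Submodule ℝ E) (hW : ∀ x ∈ W, N x ∈ W) (M : ℕ) :
    ∀ U : Submodule ℝ E, (∀ n : ℕ, n < M → ∀ x ∈ W, N x = (n : ℝ) • x → x ∈ U) →
      ∀ x ∈ W, aeval N (Pol M) x = 0 → x ∈ U := by
  induction M with
  | zero => intro U _ x _ hx; simp only [Pol, range_zero, prod_empty, map_one] at hx
            exact (show x = 0 from hx) ▸ U.zero_mem
  | succ M ih =>
    intro U hU x hx h0
    set T : Module.End ℝ E := N - (M : ℝ) • 1 with hT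
    have hTa : ∀ z, T z = N z - (M : ℝ) • z := fun z => rfl
    have h1 : T x ∈ (W ⊓ U).map T := by
      refine ih _ (fun n hn z hz hN => ?_) _ (W.sub_mem (hW x hx) (W.smul_mem _ hx)) ?_
      · have hne : (n : ℝ) - M ≠ 0 := sub_ne_zero.mpr (by exact_mod_cast hn.ne)
        refine ⟨((n : ℝ) - M)⁻¹ • z, ⟨W.smul_mem _ hz, U.smul_mem _ (hU n (by omega) z hz hN)⟩, ?_⟩
        rw [map_smul, hTa, hN, ← sub_smul, smul_smul, inv_mul_cancel₀ hne, one_smul]
      · rw [Pol, prod_range_succ, map_mul] at h0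
        simpa [Pol, hTa, Module.algebraMap_end_apply, Nat.cast_smul_eq_nsmul] using h0
    obtain ⟨z, ⟨hz1, hz2⟩, hz3⟩ := h1
    have h2 : x - z ∈ U := hU M (by omega) _ (W.sub_mem hx hz1) (by
      rw [← sub_eq_zero, ← hTa, map_sub, hz3, sub_self])
    simpa using U.add_mem h2 hz2

theorem eig_zero {N : Module.End ℝ E} {M : ℕ} (h : aeval N (Pol M) = 0) {x : E} {μ : ℝ}
    (hx : N x = μ • x) (hμ : ∀ n : ℕ, n < M → μ ≠ n) : x = 0 := by
  have h1 := Module.End.aeval_apply_of_mem_apply_eq_smul (p := Pol M) hx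
  rw [h, LinearMap.zero_apply, eq_comm, smul_eq_zero] at h1
  refine h1.resolve_left ?_
  simp only [Pol, eval_prod, eval_sub, eval_X, eval_C]
  exact prod_ne_zero_iff.mpr fun n hn => sub_ne_zero.mpr (hμ n (mem_range.mp hn))

theorem eig_neg {N : Module.End ℝ E} {M : ℕ} (h : aeval N (Pol M) = 0) {x : E} {μ : ℝ}
    (hx : N x = μ • x) (hμ : μ < 0) : x = 0 :=
  eig_zero h hx fun n _ => by have : (0 : ℝ) ≤ n := n.cast_nonneg; linarith

theorem eig_shift {N T : Module.End ℝ E} {c : ℝ} (h : N * T = T * N + c • T) {x : E} {μ : ℝ}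
    (hx : N x = μ • x) : N (T x) = (μ + c) • T x := by
  have := LinearMap.congr_fun h x
  simp only [Module.End.mul_apply, LinearMap.add_apply, LinearMap.smul_apply, hx, map_smul] at this
  rw [this, add_smul]

theorem aeval_mem (T : Module.End ℝ E) (W : Submodule ℝ E) (hW : ∀ x ∈ W, T x ∈ W) (p : ℝ[X]) :
    ∀ x ∈ W, aeval T p x ∈ W := by
  induction p using Polynomial.induction_on with
  | C a => intro x hx; simpa [Module.algebraMap_end_apply] using W.smul_mem a hx
  | add p q hp hq => intro x hx; simpa using W.add_mem (hp x hx) (hq x hx)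
  | monomial n a h =>
    intro x hx
    rw [pow_succ, ← mul_assoc, map_mul]
    simpa using h _ (hW x hx)

theorem pow_mem' (T : Module.End ℝ E) (W : Submodule ℝ E) (hW : ∀ x ∈ W, T x ∈ W) (n : ℕ) :
    ∀ x ∈ W, (T ^ n) x ∈ W := by
  simpa using aeval_mem T W hW (X ^ n)

theorem commute_aeval {R : Type} [Ring R] [Algebra ℝ R] {S T : R} (h : Commute S T) (p : ℝ[X]) :
    Commute S (aeval T p) := by
  induction p using Polynomial.induction_on with
  | C a => rw [aeval_C]; exact (Algebra.commutes a S).symm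
  | add p q hp hq => simpa using hp.add_right hq
  | monomial n a h' => rw [pow_succ, ← mul_assoc, map_mul]; simpa using h'.mul_right h

variable [FiniteDimensional ℝ E]

theorem orth_decomp (B : LinearMap.BilinForm ℝ E) (hs : ∀ x y, B x y = B y x)
    (hp : ∀ x, B x x = 0 → x = 0) (W : Submodule ℝ E) (x : E) :
    ∃ w ∈ W, ∀ u ∈ W, B u (x - w) = 0 := by
  have hr : B.IsRefl := fun x y h => by rw [hs, h]
  have h1 := B.isCompl_orthogonal_of_restrict_nondegenerate (W := W) hr
    ⟨fun x hx => Subtype.ext (hp _ (hx x)), fun x hx => Subtype.ext (hp _ (hx x))⟩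
  obtain ⟨w, hw, z, hz, e⟩ := Submodule.mem_sup.mp (h1.sup_eq_top ▸ Submodule.mem_top (x := x))
  exact ⟨w, hw, fun u hu => by rw [← e, add_sub_cancel_left]; exact hz u hu⟩

theorem exists_fixed {F K : Type} [AddCommGroup F] [Module ℝ F] (B : LinearMap.BilinForm ℝ E)
    (hs : ∀ x y, B x y = B y x) (hp : ∀ x, B x x = 0 → x = 0) (Ψ : E →ₗ[ℝ] F) (ρ : K → E → E)
    (hρ : ∀ k x, B (ρ k x) (ρ k x) = B x x) (t : E) (hfix : ∀ k x, Ψ x = Ψ t → Ψ (ρ k x) = Ψ t) :
    ∃ t', Ψ t' = Ψ t ∧ ∀ k, ρ k t' = t' := by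
  obtain ⟨w, hw, h⟩ := orth_decomp B hs hp (LinearMap.ker Ψ) t
  have h1 : Ψ (t - w) = Ψ t := by rw [map_sub, LinearMap.mem_ker.mp hw, sub_zero]
  refine ⟨t - w, h1, fun k => ?_⟩
  have h2 := h (ρ k (t - w) - (t - w)) (by rw [LinearMap.mem_ker, map_sub, hfix k _ h1, h1, sub_self])
  rw [← sub_eq_zero]
  apply hp
  have h3 := hρ k (t - w)
  generalize ρ k (t - w) = u at *
  generalize t - w = v at *
  simp only [map_sub, LinearMap.sub_apply] at h2 ⊢
  rw [hs v u]; linarith

/-- A Green operator which is a polynomial in `T`. -/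
theorem exists_green (T : Module.End ℝ E) (h : ∀ x, T (T x) = 0 → T x = 0) :
    ∃ g : ℝ[X], T * (1 - T * aeval T g) = 0 := by
  obtain ⟨q, hq, hd⟩ := exists_eq_pow_rootMultiplicity_mul_and_not_dvd (minpoly ℝ T)
    (minpoly.ne_zero (Algebra.IsIntegral.isIntegral T)) 0
  have h0 : q.coeff 0 ≠ 0 := fun h0 => hd (by simpa [X_dvd_iff] using h0)
  have h1 : ∀ m x, (T ^ m) x = 0 → T x = 0 := by
    intro m
    induction m with
    | zero => intro x hx; simp only [pow_zero, Module.End.one_apply] at hx; simp [hx]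
    | succ m ih => intro x hx; exact h x (ih _ (by simpa [pow_succ] using hx))
  have h2 : T * aeval T q = 0 := by
    ext x
    have h3 := minpoly.aeval ℝ T
    rw [hq, map_mul] at h3
    exact h1 _ _ (by simpa using LinearMap.congr_fun h3 x)
  refine ⟨C (-(q.coeff 0)⁻¹) * q.divX, ?_⟩
  have h4 : 1 - T * aeval T (C (-(q.coeff 0)⁻¹) * q.divX) = (q.coeff 0)⁻¹ • aeval T q := by
    have h5 : aeval T q = T * aeval T q.divX + q.coeff 0 • 1 := by
      conv_lhs => rw [← X_mul_divX_add q]
      rw [map_add, map_mul, aeval_X, aeval_C, Algebra.algebraMap_eq_smul_one]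
    rw [h5, map_mul, aeval_C, ← Algebra.smul_def, smul_add, smul_smul, inv_mul_cancel₀ h0,
      one_smul, mul_smul_comm, neg_smul]
    abel
  rw [h4, mul_smul_comm, h2, smul_zero]

end eig

end Pool.Agent.Lib.MP_cdc9ab_al
end

-- part Pool.Agent.Lib.MP_cdc9ab_al.Gen2
section

open scoped Matrix.Norms.Operator ContDiff Matrix
open Finset Polynomial

namespace Pool.Agent.Lib.MP_cdc9ab_al

/-- The exterior algebra on the coordinates. -/
abbrev Lam (D : ℕ) : Type := Ext (Fin D → ℝ)

/-- Its endomorphisms. -/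
abbrev EL (D : ℕ) : Type := Module.End ℝ (Lam D)

variable {D : ℕ}

/-- Generators. -/
noncomputable abbrev ge (a : Fin D) : Lam D := io (eb a)

/-- Left multiplication. -/
noncomputable abbrev ml : Lam D →ₐ[ℝ] EL D := Algebra.lmul ℝ (Lam D)

/-- Creation operators. -/
noncomputable def ee (a : Fin D) : EL D := ml (ge a)

/-- Annihilation operators. -/
noncomputable def ii (a : Fin D) : EL D := ctr (LinearMap.proj a)

theorem ee_apply (a : Fin D) (x : Lam D) : ee a x = ge a * x := rfl

theorem ml_apply (y x : Lam D) : ml y x = y * x := rfl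

theorem io_eq (v : Fin D → ℝ) : io v = ∑ a, v a • ge a := by
  conv_lhs => rw [pi_eq_sum_univ' v]
  simp [ge, eb]

theorem io_anti (v w : Fin D → ℝ) : io v * io w = -(io w * io v) :=
  eq_neg_of_add_eq_zero_left (ExteriorAlgebra.ι_add_mul_swap v w)

theorem osc_ei : Osc (-1) (ee (D := D)) ii where
  xx a b := by rw [ee, ee, ← map_mul ml, ← map_mul ml, io_anti]; simp
  yy a b := LinearMap.ext fun x => by
    simpa [ii] using CliffordAlgebra.contractLeft_comm _ _ x
  yx a b := LinearMap.ext fun x => by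
    have := CliffordAlgebra.contractLeft_ι_mul (Q := 0) (d := LinearMap.proj a) (eb b) x
    simp only [Module.End.mul_apply, LinearMap.add_apply, LinearMap.smul_apply, ee_apply, ii]
    refine this.trans ?_
    by_cases h : a = b <;> simp [h, eb, sub_eq_add_neg] <;> rfl
  ee := by norm_num

theorem ii_mul (a b : Fin D) (x : Lam D) :
    ii a (ge b * x) = (if a = b then x else 0) - ge b * ii a x := by
  have := LinearMap.congr_fun (osc_ei.yx a b) x
  simp only [Module.End.mul_apply, LinearMap.add_apply, LinearMap.smul_apply, ee_apply] at this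
  rw [this]; split_ifs <;> simp [sub_eq_add_neg]

theorem ii_one (a : Fin D) : ii a 1 = 0 := CliffordAlgebra.contractLeft_one _ _

theorem ii_alg (a : Fin D) (r : ℝ) : ii a (algebraMap ℝ _ r) = 0 :=
  CliffordAlgebra.contractLeft_algebraMap _ _ _

theorem lam_ind (U : Submodule ℝ (Lam D)) (h1 : 1 ∈ U) (h : ∀ a, ∀ x ∈ U, ge a * x ∈ U)
    (x : Lam D) : x ∈ U := by
  induction x using CliffordAlgebra.left_induction with
  | algebraMap r => rw [Algebra.algebraMap_eq_smul_one]; exact U.smul_mem _ h1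
  | add x y hx hy => exact U.add_mem hx hy
  | ι_mul x m hx =>
    change io m * x ∈ U
    rw [io_eq, sum_mul]
    exact U.sum_mem fun a _ => by rw [smul_mul_assoc]; exact U.smul_mem _ (h a x hx)

theorem lam_ext {F : Type} [AddCommGroup F] [Module ℝ F] (S T : Lam D →ₗ[ℝ] F) (h1 : S 1 = T 1)
    (h : ∀ a x, S x = T x → S (ge a * x) = T (ge a * x)) : S = T :=
  LinearMap.ext fun x => lam_ind (LinearMap.eqLocus S T) h1 h x

/-- The derivation attached to a matrix. -/
noncomputable def Gm (M : Mat D) : EL D := gam ee ii M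

theorem Gm_one (M : Mat D) : Gm M 1 = 0 := by simp [Gm, gam, ii_one]

theorem Gm_ge_mul (M : Mat D) (a : Fin D) (x : Lam D) :
    Gm M (ge a * x) = ge a * Gm M x + (∑ b, M b a • ge b) * x := by
  have := LinearMap.congr_fun (osc_ei.gam_x M a) x
  simpa [sum_mul, ee_apply, Gm] using this

theorem Gm_ge (M : Mat D) (a : Fin D) : Gm M (ge a) = ∑ b, M b a • ge b := by
  simpa [Gm_one] using Gm_ge_mul M a 1

theorem Gm_io (M : Mat D) (v : Fin D → ℝ) : Gm M (io v) = io (M *ᵥ v) := by
  rw [io_eq, io_eq, map_sum]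
  simp only [map_smul, Gm_ge, smul_sum, smul_smul, Matrix.mulVec, dotProduct, sum_smul]
  rw [sum_comm]
  simp only [mul_comm]

theorem Gm_mul (M : Mat D) (x y : Lam D) : Gm M (x * y) = Gm M x * y + x * Gm M y := by
  have := lam_ext (Gm M ∘ₗ LinearMap.mulRight ℝ y)
    (LinearMap.mulRight ℝ y ∘ₗ Gm M + LinearMap.mulRight ℝ (Gm M y)) (by simp [Gm_one])
    fun a x hx => by
      simp only [LinearMap.comp_apply, LinearMap.mulRight_apply, LinearMap.add_apply] at hx ⊢
      rw [mul_assoc, Gm_ge_mul, Gm_ge_mul, hx]; noncomm_ring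
  simpa using LinearMap.congr_fun this x

theorem Gm_ml (M : Mat D) (y : Lam D) : Gm M * ml y = ml y * Gm M + ml (Gm M y) :=
  LinearMap.ext fun x => by
    simp only [Module.End.mul_apply, ml_apply, Gm_mul, LinearMap.add_apply, add_comm]

/-- The degree operator. -/
noncomputable def NN : EL D := Gm 1

theorem NN_eq : (NN : EL D) = ∑ a, ee a * ii a := gam_one

theorem NN_ee (a : Fin D) : NN * ee a = ee a * NN + (1 : ℝ) • ee a := by
  simpa [Matrix.one_apply, ite_smul, NN, Gm] using osc_ei.gam_x 1 a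

theorem NN_ii (a : Fin D) : NN * ii a = ii a * NN + (-1 : ℝ) • ii a := by
  simpa [Matrix.one_apply, ite_smul, sub_eq_add_neg, NN, Gm] using osc_ei.gam_y 1 a

theorem NN_Gm (M : Mat D) : Commute NN (Gm M) := by
  have := osc_ei.gam_gam 1 M
  rw [one_mul, mul_one, sub_self, show gam ee ii (0 : Mat D) = 0 by simp [gam], add_zero] at this
  exact this

theorem aug_ge (a : Fin D) : aug (ge a) = 0 := by simp [ExteriorAlgebra.algebraMapInv]

theorem aug_alg (r : ℝ) : aug (algebraMap ℝ (Lam D) r) = r := by simp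

theorem aug_Gm (M : Mat D) (x : Lam D) : aug (Gm M x) = 0 := by
  simp [Gm, gam, ee_apply, aug_ge]

/-- The part of positive degree. -/
noncomputable def Qp : EL D := 1 - Algebra.linearMap ℝ _ ∘ₗ (aug : Lam D →ₐ[ℝ] ℝ).toLinearMap

theorem Qp_apply (x : Lam D) : Qp x = x - algebraMap ℝ _ (aug x) := rfl

theorem Gm_alg (M : Mat D) (r : ℝ) : Gm M (algebraMap ℝ _ r) = 0 := by
  rw [Algebra.algebraMap_eq_smul_one, map_smul, Gm_one, smul_zero]

theorem exists_pol : ∃ M : ℕ,
    aeval (NN : EL D) (∏ n ∈ range M, (X - C ((n : ℝ) + 1))) * Qp = 0 := by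
  let P : ℕ → ℝ[X] := fun M => ∏ n ∈ range M, (X - C ((n : ℝ) + 1))
  let f : ℕ →o Submodule ℝ (Lam D) := ⟨fun M => LinearMap.ker (aeval NN (P M) * Qp),
    monotone_nat_of_le_succ fun M x hx => by
      simp only [LinearMap.mem_ker, P] at hx ⊢
      rw [prod_range_succ, mul_comm, map_mul, mul_assoc, Module.End.mul_apply, hx, map_zero]⟩
  obtain ⟨M, hM⟩ := monotone_stabilizes_iff_noetherian.mpr inferInstance f
  refine ⟨M, LinearMap.ext fun x => ?_⟩
  let G : Set (Lam D) := {y | ∃ n : ℕ, NN y = (n : ℝ) • y ∧ (n = 0 → Qp y = 0)}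
  have h1 : x ∈ Submodule.span ℝ G := by
    refine lam_ind _ (Submodule.subset_span (s := G)
      ⟨0, by simp [NN, Gm_one], fun _ => by simp [Qp]⟩) (fun a x hx => ?_) x
    refine (Submodule.span_le (p := (Submodule.span ℝ G).comap (ee a))).mpr ?_ hx
    rintro y ⟨n, hn, -⟩
    exact Submodule.subset_span ⟨n + 1, by rw [eig_shift (NN_ee a) hn]; simp, by simp⟩
  refine (Submodule.span_le (p := f M)).mpr ?_ h1
  rintro y ⟨n, hn, h0⟩
  have h2 : y ∈ f n := by
    change aeval NN (P n) (Qp y) = 0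
    rcases n with _ | n
    · rw [h0 rfl, map_zero]
    · have h3 : aug y = 0 := by
        have := aug_Gm 1 y
        rw [show Gm 1 y = NN y from rfl, hn, map_smul, smul_eq_zero] at this
        exact this.resolve_left (by positivity)
      rw [Qp_apply, h3, map_zero, sub_zero, Module.End.aeval_apply_of_mem_apply_eq_smul hn]
      simp [P, prod_range_succ]
  rcases le_total n M with h | h
  · exact f.monotone h h2
  · rwa [hM n h]

theorem NN_Qp : (NN : EL D) * Qp = NN := LinearMap.ext fun x => by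
  simp only [Module.End.mul_apply, Qp_apply, map_sub, NN, Gm_alg, sub_zero]

theorem Qp_NN : Qp * (NN : EL D) = NN := LinearMap.ext fun x => by
  simp only [Module.End.mul_apply, Qp_apply, NN, aug_Gm, map_zero, sub_zero]

theorem exists_NN_pol : ∃ M : ℕ, aeval (NN : EL D) (Pol M) = 0 := by
  obtain ⟨M, h⟩ := exists_pol (D := D)
  refine ⟨M + 1, ?_⟩
  rw [Pol, prod_range_succ', map_mul]
  simp only [Nat.cast_add, Nat.cast_one, Nat.cast_zero, map_zero, sub_zero, aeval_X]
  rw [← Qp_NN, ← mul_assoc, Qp_NN, h, zero_mul]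

theorem eq_alg_of_NN {x : Lam D} (hx : NN x = 0) : x = algebraMap ℝ _ (aug x) := by
  obtain ⟨M, h⟩ := exists_pol (D := D)
  have h1 : NN (Qp x) = (0 : ℝ) • Qp x := by
    rw [← Module.End.mul_apply, NN_Qp, hx, zero_smul]
  have h2 := LinearMap.congr_fun h x
  rw [Module.End.mul_apply, Module.End.aeval_apply_of_mem_apply_eq_smul h1, LinearMap.zero_apply,
    smul_eq_zero] at h2
  refine sub_eq_zero.mp (h2.resolve_left ?_)
  simp only [eval_prod, eval_sub, eval_X, eval_C]
  exact prod_ne_zero_iff.mpr fun n _ => by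
    have : (0 : ℝ) ≤ n := n.cast_nonneg
    linarith

theorem NN_neg {x : Lam D} {μ : ℝ} (hx : NN x = μ • x) (hμ : μ < 0) : x = 0 :=
  eig_neg exists_NN_pol.choose_spec hx hμ

theorem NN_ind (W U : Submodule ℝ (Lam D)) (hW : ∀ x ∈ W, NN x ∈ W)
    (h : ∀ n : ℕ, ∀ x ∈ W, NN x = (n : ℝ) • x → x ∈ U) : ∀ x ∈ W, x ∈ U := fun x hx =>
  eig_ind NN W hW _ U (fun n _ => h n) x hx (by rw [exists_NN_pol.choose_spec]; rfl)

/-- Induction by contraction. -/
theorem ctr_ind (W U : Submodule ℝ (Lam D)) (hW : ∀ x ∈ W, NN x ∈ W) (h1 : 1 ∈ U)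
    (h : ∀ n : ℕ, ∀ x ∈ W, NN x = ((n : ℝ) + 1) • x →
      (∀ μ : ℝ, μ ≤ n → ∀ y ∈ W, NN y = μ • y → y ∈ U) → x ∈ U) : ∀ x ∈ W, x ∈ U := by
  have key : ∀ n : ℕ, ∀ μ : ℝ, μ ≤ n → ∀ y ∈ W, NN y = μ • y → y ∈ U := by
    intro n
    induction n with
    | zero =>
      intro μ hμ y _ hN
      rcases hμ.lt_or_eq with h0 | h0
      · rw [NN_neg hN (by simpa using h0)]; exact U.zero_mem
      · rw [eq_alg_of_NN (x := y) (by simpa [h0] using hN), Algebra.algebraMap_eq_smul_one]
        exact U.smul_mem _ h1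
    | succ n ih =>
      intro μ hμ y hy hN
      by_cases h2 : μ ≤ n
      · exact ih μ h2 y hy hN
      by_cases h3 : μ = n + 1
      · exact h n y hy (h3 ▸ hN) ih
      rw [eig_zero exists_NN_pol.choose_spec hN fun m _ hm => ?_]
      · exact U.zero_mem
      · subst hm
        have a1 : n < m := by exact_mod_cast not_le.mp h2
        have a2 : m ≤ n + 1 := by exact_mod_cast hμ
        exact h3 (by rw [show m = n + 1 by omega]; simp)
  exact NN_ind W U hW fun n x hx hN => key n n le_rfl x hx hN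

/-- Contraction with a multivector. -/
noncomputable def cc : Lam D →ₐ[ℝ] EL D :=
  ExteriorAlgebra.lift ℝ ⟨∑ a, (LinearMap.proj a : (Fin D → ℝ) →ₗ[ℝ] ℝ).smulRight (ii a),
    fun v => by
      have h : ∀ a b, (v a • ii a) * (v b • ii b) = -((v b • ii b) * (v a • ii a)) :=
        fun a b => by
          rw [smul_mul_smul_comm, smul_mul_smul_comm, osc_ei.yy, mul_comm]; simp
      have h2 : (∑ a, v a • ii a) * (∑ a, v a • ii a) =
          -((∑ a, v a • ii a) * (∑ a, v a • ii a)) := by
        conv_lhs => rw [sum_mul_sum, sum_comm]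
        rw [sum_mul_sum, ← sum_neg_distrib]
        refine sum_congr rfl fun a _ => ?_
        rw [← sum_neg_distrib]
        exact sum_congr rfl fun b _ => h b a
      have h3 : (2 : ℝ) • ((∑ a, v a • ii a) * (∑ a, v a • ii a)) = 0 := by
        rw [two_smul]; exact add_eq_zero_iff_eq_neg.mpr h2
      simpa using h3⟩

/-- The transpose of left multiplication. -/
noncomputable def ell : Lam D →ₗ[ℝ] EL D := cc.toLinearMap ∘ₗ CliffordAlgebra.reverse

theorem ell_one : ell (1 : Lam D) = 1 := by simp [ell]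

theorem ell_ge_mul (a : Fin D) (x : Lam D) : ell (ge a * x) = ell x * ii a := by
  have : cc (ge a) = ii a := by simp [cc, eb, Pi.single_apply, ite_smul]
  rw [← this]
  simp only [ell, LinearMap.comp_apply, AlgHom.toLinearMap_apply, ← map_mul]
  rw [CliffordAlgebra.reverse.map_mul]
  exact congrArg (fun z => cc (_ * z)) (CliffordAlgebra.reverse_ι _)

theorem ell_mul (x y : Lam D) : ell (x * y) = ell y * ell x := by
  simp [ell, CliffordAlgebra.reverse.map_mul]

/-- The inner product. -/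
noncomputable def Bf : LinearMap.BilinForm ℝ (Lam D) :=
  ell.compr₂ (aug : Lam D →ₐ[ℝ] ℝ).toLinearMap

theorem Bf_apply (x y : Lam D) : Bf x y = aug (ell x y) := rfl

theorem Bf_mul (η x y : Lam D) : Bf (η * x) y = Bf x (ell η y) := by
  rw [Bf_apply, ell_mul]; rfl

theorem Bf_ee (a : Fin D) (x y : Lam D) : Bf (ge a * x) y = Bf x (ii a y) := by
  rw [Bf_apply, ell_ge_mul]; rfl

theorem Bf_one (y : Lam D) : Bf 1 y = aug y := by rw [Bf_apply, ell_one]; rfl

theorem Bf_ii (a : Fin D) (x y : Lam D) : Bf (ii a x) y = Bf x (ge a * y) := by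
  have := lam_ext (Bf ∘ₗ ii a) (Bf.compl₂ (ee a))
    (LinearMap.ext fun y => by simp [ii_one, Bf_one, ee_apply, aug_ge]) fun b x hx =>
    LinearMap.ext fun y => by
      have h1 := LinearMap.congr_fun hx (ii b y)
      simp only [LinearMap.comp_apply, LinearMap.compl₂_apply, ee_apply] at h1 ⊢
      rw [ii_mul, map_sub, LinearMap.sub_apply, Bf_ee, h1, Bf_ee, ii_mul, map_sub]
      by_cases h : a = b
      · simp [h]
      · simp [h, Ne.symm h]
  exact LinearMap.congr_fun₂ this x y

theorem Bf_symm (x y : Lam D) : Bf x y = Bf y x := by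
  have h1 : Bf.flip (1 : Lam D) = (aug : Lam D →ₐ[ℝ] ℝ).toLinearMap :=
    lam_ext _ _ (by simp [Bf_one]) fun a x _ => by simp [Bf_ee, ii_one, aug_ge]
  have := lam_ext Bf Bf.flip (by rw [h1]; exact LinearMap.ext Bf_one) fun a x hx =>
    LinearMap.ext fun y => by
      have h2 := LinearMap.congr_fun hx (ii a y)
      simp only [LinearMap.BilinForm.flip_apply] at h2 ⊢
      rw [Bf_ee, h2, Bf_ii]
  exact LinearMap.congr_fun₂ this x y

theorem Bf_Gm (M : Mat D) (x y : Lam D) : Bf (Gm M x) y = Bf x (Gm Mᵀ y) := by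
  simp only [Gm, gam, LinearMap.sum_apply, map_sum, LinearMap.smul_apply, map_smul,
    Module.End.mul_apply, ee_apply, Bf_ee, Bf_ii, Matrix.transpose_apply]
  exact sum_comm

theorem Bf_pos_eig (n : ℕ) : ∀ x : Lam D, NN x = (n : ℝ) • x → x ≠ 0 → 0 < Bf x x := by
  induction n with
  | zero =>
    intro x hx h0
    have h1 := eq_alg_of_NN (x := x) (by simpa using hx)
    have h2 : aug x ≠ 0 := fun h => h0 (by rw [h1, h, map_zero])
    have h3 : Bf x x = aug x * aug x := by
      conv_lhs => enter [1, 2]; rw [h1, Algebra.algebraMap_eq_smul_one]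
      simp [Bf_one]
    rw [h3]; exact mul_self_pos.mpr h2
  | succ n ih =>
    intro x hx h0
    have h1 : ((n + 1 : ℕ) : ℝ) * Bf x x = ∑ a, Bf (ii a x) (ii a x) := by
      rw [← smul_eq_mul, ← LinearMap.smul_apply, ← map_smul, ← hx, NN_eq]
      simp [ee_apply, Bf_ee]
    have h2 : ∀ a, NN (ii a x) = (n : ℝ) • ii a x := fun a => by
      rw [eig_shift (NN_ii a) hx]; simp
    have h3 : ∃ a, ii a x ≠ 0 := by
      by_contra hc
      push Not at hc
      have : NN x = 0 := by simp [NN_eq, hc]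
      rw [hx, smul_eq_zero] at this
      exact h0 (this.resolve_left (by positivity))
    obtain ⟨a, ha⟩ := h3
    have h4 : 0 < ∑ a, Bf (ii a x) (ii a x) := sum_pos' (fun b _ => by
      by_cases hb : ii b x = 0
      · simp [hb]
      · exact (ih _ (h2 b) hb).le) ⟨a, mem_univ _, ih _ (h2 a) ha⟩
    rw [← h1] at h4
    exact (mul_pos_iff_of_pos_left (by positivity)).mp h4

theorem Bf_pos (x : Lam D) (h0 : x ≠ 0) : 0 < Bf x x := by
  have key : ∀ M : ℕ, ∀ x : Lam D, aeval NN (Pol M) x = 0 → x ≠ 0 → 0 < Bf x x := by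
    intro M
    induction M with
    | zero => intro x hx h0; exact absurd (by simpa [Pol] using hx) h0
    | succ M ih =>
      intro x hx h0
      obtain ⟨w, hw, hw'⟩ : ∃ w, aeval NN (Pol M) w = 0 ∧ NN (x - w) = (M : ℝ) • (x - w) := by
        let c := (Pol M).eval (M : ℝ)
        have hc : c ≠ 0 := by
          simp only [c, Pol, eval_prod, eval_sub, eval_X, eval_C]
          exact prod_ne_zero_iff.mpr fun n hn =>
            sub_ne_zero.mpr (by exact_mod_cast (mem_range.mp hn).ne')
        have h1 : NN (aeval NN (Pol M) x) = (M : ℝ) • aeval NN (Pol M) x := by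
          rw [Pol, prod_range_succ, mul_comm, map_mul] at hx
          simpa [Pol, sub_eq_zero, Module.algebraMap_end_apply, Nat.cast_smul_eq_nsmul] using hx
        refine ⟨x - c⁻¹ • aeval NN (Pol M) x, ?_, ?_⟩
        · rw [map_sub, map_smul, Module.End.aeval_apply_of_mem_apply_eq_smul h1, smul_smul,
            inv_mul_cancel₀ hc, one_smul, sub_self]
        · rw [sub_sub_cancel, map_smul, h1, smul_comm]
      have horth : Bf w (x - w) = 0 :=
        eig_ind NN ⊤ (fun _ _ => trivial) M (LinearMap.ker (Bf.flip (x - w)))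
          (fun n hn y _ hy => by
            have h1 := Bf_Gm 1 y (x - w)
            rw [Matrix.transpose_one, show Gm 1 = NN from rfl, hy, hw'] at h1
            simp only [map_smul, LinearMap.smul_apply, smul_eq_mul] at h1
            have h2 : (n : ℝ) ≠ M := by exact_mod_cast hn.ne
            exact (mul_eq_mul_right_iff.mp h1).resolve_left h2) w trivial hw
      have h3 : Bf x x = Bf w w + Bf (x - w) (x - w) := by
        have e : x = w + (x - w) := by abel
        generalize x - w = z at *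
        rw [e]; simp [horth, Bf_symm z w]
      rw [h3]
      by_cases a1 : w = 0
      · subst a1; simpa using Bf_pos_eig M _ hw' (by simpa using h0)
      by_cases a2 : x - w = 0
      · simpa [a2] using ih w hw a1
      · exact add_pos (ih w hw a1) (Bf_pos_eig M _ hw' a2)
  exact key _ x (by rw [exists_NN_pol.choose_spec]; rfl) h0

theorem Bf_def (x : Lam D) (h : Bf x x = 0) : x = 0 := by
  by_contra h0; exact (Bf_pos x h0).ne' h

theorem Bf_nonneg (x : Lam D) : 0 ≤ Bf x x := by
  by_cases h : x = 0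
  · simp [h]
  · exact (Bf_pos x h).le

theorem Bf_ext {x y : Lam D} (h : ∀ z, Bf z x = Bf z y) : x = y :=
  sub_eq_zero.mp (Bf_def _ (by rw [map_sub, h, sub_self]))

end Pool.Agent.Lib.MP_cdc9ab_al
end

-- part Pool.Agent.Lib.MP_cdc9ab_al.Gen3
section

open scoped Matrix.Norms.Operator ContDiff Matrix
open Finset Polynomial

namespace Pool.Agent.Lib.MP_cdc9ab_al

variable {D : ℕ}

/-- The action of a matrix on forms. -/
noncomputable abbrev mp (g : Mat D) : Lam D →ₐ[ℝ] Lam D := ExteriorAlgebra.map (Matrix.toLin' g)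

theorem mp_io (g : Mat D) (v : Fin D → ℝ) : mp g (io v) = io (g *ᵥ v) := by simp

theorem mp_ge (g : Mat D) (a : Fin D) : mp g (ge a) = ∑ b, g b a • ge b := by
  rw [mp_io, io_eq]; simp [eb, Matrix.col]

theorem mp_diag_ge (w : Fin D → ℝ) (a : Fin D) : mp (Matrix.diagonal w) (ge a) = w a • ge a := by
  rw [mp_ge]; simp [Matrix.diagonal_apply, ite_smul]

theorem mp_mul (g h : Mat D) (x : Lam D) : mp (g * h) x = mp g (mp h x) := by
  rw [← AlgHom.comp_apply, ExteriorAlgebra.map_comp_map, ← Matrix.toLin'_mul]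

theorem mp_one (x : Lam D) : mp 1 x = x := by simp [mp]

theorem mp_Gm {g M : Mat D} (h : g * M = M * g) (x : Lam D) : mp g (Gm M x) = Gm M (mp g x) := by
  have := lam_ext ((mp g).toLinearMap ∘ₗ Gm M) (Gm M ∘ₗ (mp g).toLinearMap) (by simp [Gm_one])
    fun a x hx => by
      simp only [LinearMap.comp_apply, AlgHom.toLinearMap_apply] at hx ⊢
      rw [map_mul (mp g), Gm_mul, Gm_mul, map_add, map_mul (mp g), map_mul (mp g), hx, Gm_io, mp_io,
        mp_io, Gm_io, Matrix.mulVec_mulVec, Matrix.mulVec_mulVec, h]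
  exact LinearMap.congr_fun this x

theorem ii_mp_diag (w : Fin D → ℝ) (a : Fin D) (x : Lam D) :
    ii a (mp (Matrix.diagonal w) x) = w a • mp (Matrix.diagonal w) (ii a x) := by
  have := lam_ext (ii a ∘ₗ (mp (Matrix.diagonal w)).toLinearMap)
    (w a • (mp (Matrix.diagonal w)).toLinearMap ∘ₗ ii a) (by simp [ii_one])
    fun b x hx => by
      simp only [LinearMap.comp_apply, AlgHom.toLinearMap_apply, LinearMap.smul_apply] at hx ⊢
      rw [map_mul, mp_diag_ge, smul_mul_assoc, map_smul, ii_mul, ii_mul, hx, map_sub, map_mul,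
        mp_diag_ge]
      split_ifs with h
      · subst h; simp [smul_sub]
      · simp [smul_smul, mul_comm]
  exact LinearMap.congr_fun this x

theorem ge_mul_comm (b : Fin D) (x : Lam D) : ge b * x = mp (-1) x * ge b := by
  have := lam_ext (ee b) (LinearMap.mulRight ℝ (ge b) ∘ₗ (mp (-1)).toLinearMap)
    (by simp [ee_apply]) fun a x hx => by
      simp only [LinearMap.comp_apply, AlgHom.toLinearMap_apply, LinearMap.mulRight_apply,
        ee_apply] at hx ⊢
      rw [map_mul, mul_assoc, ← hx, ← mul_assoc, io_anti, mp_io, Matrix.neg_mulVec,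
        Matrix.one_mulVec]
      simp [mul_assoc]
  exact LinearMap.congr_fun this x

theorem ge_ge_comm (a b : Fin D) (x : Lam D) : ge a * ge b * x = x * (ge a * ge b) := by
  rw [mul_assoc, ge_mul_comm b, ← mul_assoc, ge_mul_comm a, ← mp_mul, mul_assoc]
  simp [mp_one]

theorem ell_ii (η : Lam D) (b : Fin D) : ell η * ii b = ii b * ell (mp (-1) η) :=
  LinearMap.ext fun y => Bf_ext fun z => by
    simp only [Module.End.mul_apply]
    rw [← Bf_mul, ← Bf_ee, ← Bf_ee, ← Bf_mul, ← mul_assoc, ge_mul_comm, mul_assoc]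

theorem ell_Gm (η : Lam D) (M : Mat D) : Gm M * ell η = ell η * Gm M - ell (Gm Mᵀ η) :=
  LinearMap.ext fun y => Bf_ext fun z => by
    have h : ∀ u v, Bf u (Gm M v) = Bf (Gm Mᵀ u) v := fun u v => by
      rw [Bf_Gm, Matrix.transpose_transpose]
    simp only [Module.End.mul_apply, LinearMap.sub_apply, map_sub]
    rw [h, ← Bf_mul, ← Bf_mul, ← Bf_mul, h, Gm_mul]; simp

theorem hasDerivAt_mp (A : Mat D) (y : Lam D) (t : ℝ) :
    HasDerivAt (fun t : ℝ => mp (NormedSpace.exp (t • A)) y)
      (mp (NormedSpace.exp (t • A)) (Gm A y)) t := by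
  let U : Submodule ℝ (Lam D) :=
    { carrier := {y | HasDerivAt (fun t : ℝ => mp (NormedSpace.exp (t • A)) y)
        (mp (NormedSpace.exp (t • A)) (Gm A y)) t}
      add_mem' := fun {a b} ha hb => by
        have := HasDerivAt.fun_add ha hb
        simp only [Set.mem_ofPred_eq, map_add]; exact this
      zero_mem' := by simpa using hasDerivAt_const t (0 : Lam D)
      smul_mem' := fun c a ha => by
        have := HasDerivAt.fun_const_smul c ha
        simp only [Set.mem_ofPred_eq, map_smul]; exact this }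
  refine lam_ind U ?_ (fun a x hx => ?_) y
  · simpa [U, Gm_one] using hasDerivAt_const t (1 : Lam D)
  · let M : Mat D →L[ℝ] Lam D := LinearMap.toContinuousLinearMap
      (ExteriorAlgebra.ι ℝ ∘ₗ (LinearMap.flip (Matrix.mulVecBilin ℝ ℝ) (eb a)))
    have hM : ∀ g, M g = io (g *ᵥ eb a) := fun _ => rfl
    have h1 := M.hasFDerivAt.comp_hasDerivAt t (hasDerivAt_exp_smul_const (𝕂 := ℝ) A t)
    have h2 := HasDerivAt.mul h1 hx
    change HasDerivAt _ _ _
    simp only [map_mul, Gm_mul, map_add, Gm_io, mp_io, Matrix.mulVec_mulVec]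
    exact h2

theorem Gm_eq_zero_of_fix {A : Mat D} {y : Lam D}
    (h : ∀ t : ℝ, mp (NormedSpace.exp (t • A)) y = y) : Gm A y = 0 := by
  have h1 := hasDerivAt_mp A y 0
  simp only [h] at h1
  simpa [mp_one] using h1.unique (hasDerivAt_const 0 y)

theorem fix_of_Gm_eq_zero {A : Mat D} {y : Lam D} (h : Gm A y = 0) :
    mp (NormedSpace.exp A) y = y := by
  have h1 : ∀ t, HasDerivAt (fun t : ℝ => mp (NormedSpace.exp (t • A)) y) 0 t := fun t => by
    simpa [h] using hasDerivAt_mp A y t
  simpa [mp_one] using is_const_of_deriv_eq_zero (fun t => (h1 t).differentiableAt)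
    (fun t => (h1 t).deriv) 1 0

namespace LData
variable (L : LData D)

theorem ad_swap (a b c : Fin D) : L.ad a b c = L.s a * L.ad a c b := by
  simpa using congrFun (congrFun (L.transp a) c) b

theorem ad_par (a b c : Fin D) : L.s a * L.s b * L.s c * L.ad a c b = -L.ad a c b := by
  have h1 := L.ad_swap a c b
  have h2 := L.anti a c b
  have h3 := L.ad_swap c b a
  have h4 := L.anti c b a
  have h5 := L.ad_swap b a c
  have h6 := L.anti b a c
  rcases L.s_sq a with a1 | a1 <;> rcases L.s_sq b with a2 | a2 <;> rcases L.s_sq c with a3 | a3 <;>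
  simp only [a1, a2, a3] at * <;> linarith

/-- Lie derivatives. -/
noncomputable def LL (a : Fin D) : EL D := Gm (-(L.ad a)ᵀ)

/-- Differentials of the generators. -/
noncomputable def de (c : Fin D) : Lam D :=
  (-1 / 2 : ℝ) • ∑ a, ∑ b, L.ad a c b • (ge a * ge b)

/-- The Chevalley-Eilenberg differential. -/
noncomputable def dL : EL D := (1 / 2 : ℝ) • ∑ a, ee a * L.LL a

/-- The homotopy. -/
noncomputable def hh : EL D := ∑ a, L.s a • (ii a * L.LL a)

/-- The Casimir operator. -/
noncomputable def Cas : EL D := ∑ a, L.s a • (L.LL a * L.LL a)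

/-- Invariant forms. -/
noncomputable def H : Submodule ℝ (Lam D) := ⨅ a, LinearMap.ker (L.LL a)

theorem mem_H {x : Lam D} : x ∈ L.H ↔ ∀ a, L.LL a x = 0 := by simp [H]

theorem LL_ee (x a : Fin D) : L.LL x * ee a = ee a * L.LL x - ∑ b, L.ad x a b • ee b := by
  simpa [LL, Gm, sub_eq_add_neg] using osc_ei.gam_x (-(L.ad x)ᵀ) a

theorem LL_ii (x a : Fin D) : L.LL x * ii a = ii a * L.LL x + ∑ c, L.ad x c a • ii c := by
  simpa [LL, Gm] using osc_ei.gam_y (-(L.ad x)ᵀ) a

theorem LL_LL (x a : Fin D) : L.LL x * L.LL a = L.LL a * L.LL x + ∑ c, L.ad x c a • L.LL c := by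
  have h : -(L.ad x)ᵀ * -(L.ad a)ᵀ - -(L.ad a)ᵀ * -(L.ad x)ᵀ =
      ∑ c, L.ad x c a • -(L.ad c)ᵀ := by
    have := congrArg Matrix.transpose (L.jac x a)
    simp only [Matrix.transpose_sub, Matrix.transpose_mul, Matrix.transpose_sum,
      Matrix.transpose_smul] at this
    simp only [neg_mul_neg, smul_neg, sum_neg_distrib, ← this, neg_sub]
  have := osc_ei.gam_gam (-(L.ad x)ᵀ) (-(L.ad a)ᵀ)
  rw [h, gam_sum] at this
  simp only [gam_smul] at this
  exact this

theorem LL_eq (a : Fin D) : L.LL a = -∑ b, ∑ c, L.ad a c b • (ee b * ii c) := by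
  simp [LL, Gm, gam]

theorem LL_eq_smul (a : Fin D) : L.LL a = -L.s a • Gm (L.ad a) := by
  rw [LL, L.transp, ← neg_smul, Gm, gam_smul]; rfl

theorem Bf_LL (a : Fin D) (x y : Lam D) : Bf (L.LL a x) y = L.s a * Bf x (L.LL a y) := by
  conv_rhs => rw [LL_eq_smul]
  rw [LL, Bf_Gm, Matrix.transpose_neg, Matrix.transpose_transpose, Gm, gam_neg]
  simp [← mul_assoc, s_mul_s, Gm]

theorem dL_ii (a : Fin D) : L.dL * ii a + ii a * L.dL = L.LL a := by
  have h : ∀ b, ee b * L.LL b * ii a + ii a * (ee b * L.LL b) =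
      (if a = b then L.LL b else 0) - ∑ c, L.ad a c b • (ee b * ii c) := by
    intro b
    rw [mul_assoc, LL_ii, ← mul_assoc, osc_ei.yx, mul_add, mul_sum, add_mul]
    simp only [mul_smul_comm, L.anti b a, neg_smul, sum_neg_distrib, one_smul, neg_mul, mul_assoc]
    split_ifs <;> simp <;> abel
  simp only [dL, smul_mul_assoc, mul_smul_comm, ← smul_add, sum_mul, mul_sum, ← sum_add_distrib, h]
  rw [sum_sub_distrib, sum_ite_eq, if_pos (mem_univ _), sub_eq_add_neg, ← LL_eq, ← two_smul ℝ,
    smul_smul]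
  norm_num

theorem LL_dL (x : Fin D) : Commute (L.LL x) L.dL := by
  refine Commute.smul_right ?_ _
  have h : ∀ a, L.LL x * (ee a * L.LL a) = ee a * L.LL a * L.LL x +
      (∑ c, L.ad x c a • (ee a * L.LL c) - ∑ b, L.ad x a b • (ee b * L.LL a)) := by
    intro a
    rw [← mul_assoc, LL_ee, sub_mul, mul_assoc, LL_LL, mul_add, mul_sum, sum_mul, mul_assoc]
    simp only [mul_smul_comm, smul_mul_assoc]; abel
  simp only [Commute, SemiconjBy, mul_sum, sum_mul, h, sum_add_distrib, sum_sub_distrib]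
  rw [sum_comm (f := fun a c => L.ad x c a • (ee a * L.LL c)), sub_self, add_zero]

theorem dL_ee (c : Fin D) : L.dL * ee c + ee c * L.dL = ml (L.de c) := by
  have h : ∀ a, ee a * L.LL a * ee c + ee c * (ee a * L.LL a) =
      -∑ b, L.ad a c b • (ee a * ee b) := by
    intro a
    rw [mul_assoc, LL_ee, ← mul_assoc (ee c), osc_ei.xx c a, mul_sub, mul_sum]
    simp only [mul_smul_comm, neg_smul, one_smul, neg_mul, mul_assoc]; abel
  simp only [dL, smul_mul_assoc, mul_smul_comm, ← smul_add, sum_mul, mul_sum, ← sum_add_distrib, h]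
  simp only [de, map_neg, map_smul, map_sum, map_mul, ee, sum_neg_distrib, smul_neg, neg_div,
    neg_smul]

theorem dL_one : L.dL 1 = 0 := by simp [dL, LL, Gm_one]

theorem dL_ge_mul (c : Fin D) (x : Lam D) : L.dL (ge c * x) = L.de c * x - ge c * L.dL x :=
  eq_sub_of_add_eq (LinearMap.congr_fun (L.dL_ee c) x)

theorem dL_ge (c : Fin D) : L.dL (ge c) = L.de c := by simpa [dL_one] using L.dL_ge_mul c 1

theorem de_comm (c : Fin D) (x : Lam D) : L.de c * x = x * L.de c := by
  simp only [de, smul_mul_assoc, mul_smul_comm, sum_mul, mul_sum, ge_ge_comm]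

theorem NN_LL (a : Fin D) : Commute NN (L.LL a) := NN_Gm _

theorem NN_dL : NN * L.dL = L.dL * NN + (1 : ℝ) • L.dL := by
  simp only [dL, mul_smul_comm, smul_mul_assoc, mul_sum, sum_mul, one_smul, ← smul_add,
    ← sum_add_distrib]
  refine congrArg _ (sum_congr rfl fun a _ => ?_)
  rw [← mul_assoc, NN_ee, add_mul, mul_assoc, (L.NN_LL a).eq, one_smul, mul_assoc]

theorem NN_hh : NN * L.hh = L.hh * NN + (-1 : ℝ) • L.hh := by
  simp only [hh, mul_smul_comm, smul_mul_assoc, mul_sum, sum_mul, smul_sum, ← sum_add_distrib]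
  refine sum_congr rfl fun a _ => ?_
  rw [← mul_assoc, NN_ii, add_mul, mul_assoc, (L.NN_LL a).eq, mul_assoc, smul_add, smul_mul_assoc,
    smul_comm]

theorem NN_de (c : Fin D) : NN (L.de c) = (2 : ℝ) • L.de c := by
  have h : NN (ge c) = (1 : ℝ) • ge c := by simp [NN, Gm_io]
  rw [← dL_ge, eig_shift L.NN_dL h]; norm_num

theorem dL_dL : L.dL * L.dL = 0 := by
  refine LinearMap.ext fun x => ctr_ind ⊤ (LinearMap.ker (L.dL * L.dL)) (fun _ _ => trivial)
    (by simp [dL_one]) (fun n x _ hx ih => ?_) x trivial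
  have h1 : ∀ a, ii a (L.dL (L.dL x)) = 0 := by
    intro a
    have h2 := ih _ (by simp) (ii a x) trivial (eig_shift (NN_ii a) hx)
    have h3 := fun y => LinearMap.congr_fun (L.dL_ii a) y
    have h4 := LinearMap.congr_fun (L.LL_dL a).eq x
    simp only [LinearMap.add_apply, Module.End.mul_apply, LinearMap.mem_ker] at h2 h3 h4
    have h5 := h3 (L.dL x)
    rw [h4, ← h3 x, map_add, h2, zero_add] at h5
    simpa using h5
  have h2 := eig_shift L.NN_dL (eig_shift L.NN_dL hx)
  rw [NN_eq] at h2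
  simp only [LinearMap.sum_apply, Module.End.mul_apply, h1, map_zero, sum_const_zero] at h2
  exact (smul_eq_zero.mp h2.symm).resolve_left (by positivity)

theorem dL_hh : L.dL * L.hh + L.hh * L.dL = L.Cas := by
  simp only [hh, Cas, mul_sum, sum_mul, ← sum_add_distrib, mul_smul_comm, smul_mul_assoc,
    ← smul_add]
  refine sum_congr rfl fun a _ => congrArg _ ?_
  rw [mul_assoc, (L.LL_dL a).eq, ← mul_assoc, ← mul_assoc, ← add_mul, dL_ii]

theorem LL_hh (x : Fin D) : Commute (L.LL x) L.hh := by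
  have h : ∀ a, L.LL x * (ii a * L.LL a) = ii a * L.LL a * L.LL x +
      (∑ c, L.ad x c a • (ii c * L.LL a) + ∑ c, L.ad x c a • (ii a * L.LL c)) := by
    intro a
    rw [← mul_assoc, LL_ii, add_mul, mul_assoc, LL_LL, mul_add, mul_sum, sum_mul, mul_assoc]
    simp only [mul_smul_comm, smul_mul_assoc]; abel
  simp only [Commute, SemiconjBy, hh, mul_sum, sum_mul, mul_smul_comm, smul_mul_assoc, h, smul_add,
    sum_add_distrib, smul_sum, smul_smul]
  rw [sum_comm (f := fun a c => (L.s a * L.ad x c a) • (ii c * L.LL a)), ← sum_add_distrib,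
    add_eq_left]
  refine sum_eq_zero fun a _ => ?_
  rw [← sum_add_distrib]
  refine sum_eq_zero fun c _ => ?_
  have h1 := L.ad_par x a c
  have h2 := L.ad_swap x a c
  have : L.s c * L.ad x a c + L.s a * L.ad x c a = 0 := by
    rcases L.s_sq a with a1 | a1 <;> rcases L.s_sq x with a2 | a2 <;>
    rcases L.s_sq c with a3 | a3 <;> simp only [a1, a2, a3] at * <;> linarith
  rw [← add_smul, this, zero_smul]

theorem commute_Cas {T : EL D} (h : ∀ a, Commute T (L.LL a)) : Commute T L.Cas :=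
  Commute.sum_right _ _ _ fun a _ => ((h a).mul_right (h a)).smul_right _

theorem LL_Cas (x : Fin D) : Commute (L.LL x) L.Cas := by
  rw [← dL_hh]
  exact ((L.LL_dL x).mul_right (L.LL_hh x)).add_right ((L.LL_hh x).mul_right (L.LL_dL x))

theorem Bf_Cas (x y : Lam D) : Bf (L.Cas x) y = ∑ a, Bf (L.LL a x) (L.LL a y) := by
  simp only [Cas, LinearMap.sum_apply, map_sum, LinearMap.smul_apply, map_smul,
    Module.End.mul_apply, smul_eq_mul]
  exact sum_congr rfl fun a _ => by rw [Bf_LL, ← mul_assoc, s_mul_s, one_mul]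

theorem mem_H_of_Cas {x : Lam D} (h : Bf (L.Cas x) x = 0) : x ∈ L.H := by
  rw [Bf_Cas, sum_eq_zero_iff_of_nonneg fun _ _ => Bf_nonneg _] at h
  exact L.mem_H.mpr fun a => Bf_def _ (h a (mem_univ _))

theorem Cas_of_mem_H {x : Lam D} (h : x ∈ L.H) : L.Cas x = 0 := by
  simp [Cas, L.mem_H.mp h]

theorem Bf_Cas_of_mem_H {x : Lam D} (h : x ∈ L.H) (y : Lam D) : Bf (L.Cas y) x = 0 := by
  simp [Bf_Cas, L.mem_H.mp h]

theorem exists_Gr : ∃ g : ℝ[X], L.Cas * (1 - L.Cas * aeval L.Cas g) = 0 :=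
  exists_green _ fun x hx => Bf_def _
    (L.Bf_Cas_of_mem_H (L.mem_H_of_Cas (by rw [hx]; simp)) _)

/-- The Green operator. -/
noncomputable def Gr : EL D := aeval L.Cas L.exists_Gr.choose

/-- The projection on the invariants. -/
noncomputable def Pr : EL D := 1 - L.Cas * L.Gr

/-- The contracting homotopy. -/
noncomputable def Kh : EL D := L.hh * L.Gr

theorem commute_Gr {T : EL D} (h : Commute T L.Cas) : Commute T L.Gr := commute_aeval h _

theorem commute_Pr {T : EL D} (h : Commute T L.Cas) : Commute T L.Pr :=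
  (Commute.one_right T).sub_right (h.mul_right (L.commute_Gr h))

theorem dL_Kh : L.dL * L.Kh + L.Kh * L.dL = 1 - L.Pr := by
  have := (L.commute_Gr (L.commute_Cas fun a => (L.LL_dL a).symm)).eq
  rw [Kh, Pr, mul_assoc, ← this, ← dL_hh]; noncomm_ring

theorem LL_Kh (x : Fin D) : Commute (L.LL x) L.Kh :=
  (L.LL_hh x).mul_right (L.commute_Gr (L.LL_Cas x))

theorem NN_Kh : NN * L.Kh = L.Kh * NN + (-1 : ℝ) • L.Kh := by
  rw [Kh, ← mul_assoc, NN_hh, add_mul, mul_assoc, (L.commute_Gr (L.commute_Cas L.NN_LL)).eq,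
    smul_mul_assoc, mul_assoc]

theorem Pr_mem (x : Lam D) : L.Pr x ∈ L.H :=
  L.mem_H_of_Cas (by
    rw [show L.Cas (L.Pr x) = 0 from LinearMap.congr_fun L.exists_Gr.choose_spec x]; simp)

theorem Pr_eq_zero {x : Lam D} (h : ∀ η ∈ L.H, Bf η x = 0) : L.Pr x = 0 := by
  apply Bf_def
  have h1 := h _ (L.Pr_mem x)
  have h2 := L.Bf_Cas_of_mem_H (L.Pr_mem x) (L.Gr x)
  conv_lhs => enter [2]; rw [Pr]
  simp only [LinearMap.sub_apply, Module.End.one_apply, Module.End.mul_apply, map_sub]
  rw [h1, Bf_symm, h2, sub_zero]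

theorem dL_of_mem_H {x : Lam D} (h : x ∈ L.H) : L.dL x = 0 := by simp [dL, L.mem_H.mp h]

theorem Gm_adv_of_mem_H {x : Lam D} (h : x ∈ L.H) (v : Fin D → ℝ) : Gm (L.adv v) x = 0 := by
  have h1 : ∀ a, Gm (L.ad a) x = 0 := fun a => by
    have := L.mem_H.mp h a
    rw [LL_eq_smul, LinearMap.smul_apply, smul_eq_zero] at this
    exact this.resolve_left (by rcases L.s_sq a with h | h <;> simp [h])
  have : Gm (L.adv v) = ∑ a, v a • Gm (L.ad a) := by simp only [adv, Gm, gam_sum, gam_smul]
  simp [this, h1]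

theorem mp_of_mem_H {x : Lam D} (h : x ∈ L.H) {g : Mat D} (hg : g ∈ L.Gam) : mp g x = x := by
  induction hg using Submonoid.closure_induction with
  | mem y hy => obtain ⟨v, rfl⟩ := hy; exact fix_of_Gm_eq_zero (L.Gm_adv_of_mem_H h v)
  | one => exact mp_one x
  | mul a b _ _ ha hb => rw [mp_mul, hb, ha]

theorem ell_LL {η : Lam D} (h : η ∈ L.H) (a : Fin D) : Commute (ell η) (L.LL a) := by
  have := ell_Gm η (-(L.ad a)ᵀ)
  rw [Matrix.transpose_neg, Matrix.transpose_transpose, ← adv_single, ← adv_neg,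
    L.Gm_adv_of_mem_H h, map_zero, sub_zero, adv_single] at this
  exact this.symm

theorem mul_mem_H {x y : Lam D} (hx : x ∈ L.H) (hy : y ∈ L.H) : x * y ∈ L.H :=
  L.mem_H.mpr fun a => by
    have h1 := L.mem_H.mp hx a
    have h2 := L.mem_H.mp hy a
    rw [LL] at *
    rw [Gm_mul, h1, h2, zero_mul, mul_zero, add_zero]

theorem H_stable {T : EL D} (h : ∀ a, Commute T (L.LL a)) : ∀ x ∈ L.H, T x ∈ L.H := fun x hx =>
  L.mem_H.mpr fun a => by
    rw [← Module.End.mul_apply, ← (h a).eq, Module.End.mul_apply, L.mem_H.mp hx, map_zero]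

theorem H_one {x : Lam D} (h : x ∈ L.H) (hN : NN x = x) : x = 0 := by
  have h1 : x = io fun a => aug (ii a x) := by
    rw [io_eq]
    conv_lhs => rw [← hN, NN_eq, LinearMap.sum_apply]
    refine sum_congr rfl fun a _ => ?_
    have h2 : NN (ii a x) = 0 := by
      rw [eig_shift (NN_ii a) (μ := 1) (by simpa using hN)]; simp
    rw [Module.End.mul_apply, ee_apply]
    conv_lhs => rw [eq_alg_of_NN h2, ← Algebra.commutes, ← Algebra.smul_def]
  generalize (fun a => aug (ii a x)) = c at h1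
  subst h1
  have h2 : L.adv c = L.adv 0 := by
    rw [adv_zero]
    ext i j
    have := L.Gm_adv_of_mem_H h (Pi.single j 1)
    rw [Gm_io, ExteriorAlgebra.ι_eq_zero_iff, adv_mulVec, neg_eq_zero] at this
    simpa using congrFun this i
  rw [L.adv_injective h2]; simp

end LData

end Pool.Agent.Lib.MP_cdc9ab_al
end
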