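import Pool.Agent.Lib.MP_cdc9ab_al.GromovCount
import Pool.Agent.Lib.MP_cdc9ab_al.VanEst
import Pool.Agent.Lib.MP_cdc9ab_al.Gen3

-- part Pool.Agent.Lib.MP_cdc9ab_al.GromovBound
section

/-! The uniform bound for the integral of the Chern-Weil form over straight simplices. -/

open scoped Matrix.Norms.Operator ContDiff Matrix Topology ENNReal
open Finset Function Filter MeasureTheory

namespace Pool.Agent.Lib.MP_cdc9ab_al.Gro

theorem nondeg {E V W : Type} [NormedAddCommGroup E] [NormedSpace ℝ E] [NormedAddCommGroup V]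
    [NormedSpace ℝ V] [NormedAddCommGroup W] [NormedSpace ℝ W] [FiniteDimensional ℝ W]
    {g : E → V} {k : E → W} {z : W → E} (p : E →L[ℝ] W) {s y : W}
    (hg : DifferentiableAt ℝ g (z s)) (hk : DifferentiableAt ℝ k (z s))
    (hz : DifferentiableAt ℝ z s) (hp : ∀ u, p (z u) = u) (h0 : ∀ᶠ u in 𝓝 s, g (z u) = 0)
    (h1 : ∀ v, p v = 0 → fderiv ℝ g (z s) v = 0 → v = 0)
    (hd : (fderiv ℝ (fun u => k (z u)) s).det ≠ 0) {v : E}
    (hv : fderiv ℝ (fun x => (g x, k x - y)) (z s) v = 0) : v = 0 := by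
  rw [(hg.hasFDerivAt.prodMk (hk.hasFDerivAt.sub_const y)).fderiv] at hv
  have a1 : fderiv ℝ g (z s) v = 0 := congrArg Prod.fst hv
  have a2 : fderiv ℝ k (z s) v = 0 := congrArg Prod.snd hv
  have a3 : (fderiv ℝ g (z s)).comp (fderiv ℝ z s) = 0 :=
    (hg.hasFDerivAt.comp s hz.hasFDerivAt).unique
      ((hasFDerivAt_const (0 : V) s).congr_of_eventuallyEq h0)
  have a4 : p.comp (fderiv ℝ z s) = ContinuousLinearMap.id ℝ W :=
    (p.hasFDerivAt.comp s hz.hasFDerivAt).unique
      ((hasFDerivAt_id s).congr_of_eventuallyEq (Eventually.of_forall hp))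
  have a5 : v = fderiv ℝ z s (p v) := sub_eq_zero.1 (h1 _
    (by rw [map_sub, sub_eq_zero]; exact (DFunLike.congr_fun a4 (p v)).symm)
    (by rw [map_sub, a1, sub_eq_zero]; exact (DFunLike.congr_fun a3 (p v)).symm))
  have a6 : fderiv ℝ (fun u => k (z u)) s (p v) = 0 := by
    rw [show fderiv ℝ (fun u => k (z u)) s = _ from (hk.hasFDerivAt.comp s hz.hasFDerivAt).fderiv,
      ContinuousLinearMap.comp_apply, ← a5, a2]
  have a7 : p v = 0 := ((fderiv ℝ (fun u => k (z u)) s).toContinuousLinearEquivOfDetNeZero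
    hd).map_eq_zero_iff.1 a6
  rw [a5, a7, map_zero]

variable {D n j : ℕ} {L : LData D} {r : Retr L} {ν ρ : Mat D → Mat D}

/-- The open cube. -/
abbrev cube (n : ℕ) : Set (Fin n → ℝ) := Set.pi Set.univ fun _ => Set.Ioo 0 1

theorem isOpen_cube : IsOpen (cube n) := isOpen_set_pi Set.finite_univ fun _ _ => isOpen_Ioo

/-- The square roots of the barycentric coordinates. -/
noncomputable def sg (n : ℕ) (s : Fin n → ℝ) (l : Fin (n + 1)) : ℝ := √(bary n s l)

theorem sg_pos {s : Fin n → ℝ} (hs : s ∈ cube n) (l : Fin (n + 1)) : 0 < sg n s l :=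
  Real.sqrt_pos.2 (bary_pos (fun i => hs i trivial) l)

theorem sg_sq {s : Fin n → ℝ} (hs : s ∈ cube n) (l : Fin (n + 1)) :
    sg n s l * sg n s l = bary n s l :=
  Real.mul_self_sqrt (bary_pos (fun i => hs i trivial) l).le

theorem contDiffAt_sg {s : Fin n → ℝ} (hs : s ∈ cube n) (l : Fin (n + 1)) :
    ContDiffAt ℝ ∞ (fun u => sg n u l) s :=
  ((poly_bary Poly.id).map (LinearMap.proj l)).contDiff.contDiffAt.sqrt
    (bary_pos (fun i => hs i trivial) l).ne'

theorem pt_sg (H : Fin (n + 1) → Mat D) {s : Fin n → ℝ} (hs : s ∈ cube n) :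
    pt H (sg n s) = conePt n (Fin.tail H) (H 0) s := by
  rw [conePt_eq, pt]
  simp only [sg_sq hs]

theorem contDiffAt_pt (H : Fin (n + 1) → Mat D) {s : Fin n → ℝ} (hs : s ∈ cube n) :
    ContDiffAt ℝ ∞ (fun u => pt H (sg n u)) s :=
  ContDiffAt.sum fun l _ => ((contDiffAt_sg hs l).mul (contDiffAt_sg hs l)).smul contDiffAt_const

theorem pt_pos {H : Fin (n + 1) → Mat D} (hH : ∀ l, H l ∈ Pos D) {s : Fin n → ℝ}
    (hs : s ∈ cube n) : pt H (sg n s) ∈ Pos D := fun v hv => by
  rw [pt, Matrix.sum_mulVec, dotProduct_sum]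
  refine sum_pos (fun l _ => ?_) univ_nonempty
  rw [Matrix.smul_mulVec, dotProduct_smul]
  exact mul_pos (mul_pos (sg_pos hs l) (sg_pos hs l)) (hH l v hv)

/-- The solution of the polynomial system over a point of the cube. -/
noncomputable def zz (r : Retr L) (ν : Mat D → Mat D) (H : Fin (n + 1) → Mat D) (s : Fin n → ℝ) :
    Var D n := (s, sg n s, r.q (pt H (sg n s)), ν (pt H (sg n s)))

/-- The map to the Stiefel manifold. -/
noncomputable def ph (a : Fin (n + 1) → Mat D) (x : Var D n) (l : Fin (n + 1)) : Mat D :=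
  x.2.1 l • (a l * (x.2.2.1 * x.2.2.2))

theorem poly_ph (a : Fin (n + 1) → Mat D) : Poly 3 (ph a) := by
  obtain ⟨-, h2, h3, h4⟩ := poly_vars (D := D) (n := n)
  exact Poly.pi fun l => (h2 l).smul ((Poly.const 0 _).mul (h3.mul h4))

variable {H a : Fin (n + 1) → Mat D} {s : Fin n → ℝ}

theorem Corr.smooth_zz (C : Corr r ν ρ) (hH : ∀ l, H l ∈ Pos D) (hs : s ∈ cube n) :
    ContDiffAt ℝ ∞ (zz r ν H) s :=
  contDiffAt_id.prodMk ((contDiffAt_pi.2 (contDiffAt_sg hs)).prodMk
    (((r.smooth _ (pt_pos hH hs)).comp s (contDiffAt_pt H hs)).prodMk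
      ((C.s1 _ (pt_pos hH hs)).comp s (contDiffAt_pt H hs))))

theorem Corr.eqs_zz (C : Corr r ν ρ) (hH : ∀ l, H l ∈ Pos D) (hs : s ∈ cube n) :
    eqs L H (zz r ν H s) = 0 := by
  have hh := pt_pos hH hs
  refine Prod.ext (funext fun l => sub_eq_zero.2 (sg_sq hs l)) (Prod.ext (funext fun b =>
    sub_eq_zero.2 ?_) (Prod.ext (sub_eq_zero.2 (r.symm _ hh)) (Prod.ext (funext (r.moment _ hh))
      (sub_eq_zero.2 ?_))))
  · have := (LData.aut_of_gam (r.mem _ hh)).2 (Pi.single b 1)
    rwa [L.adv_single] at this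
  · show ν _ * (r.q _ * symL D (pt H (sg n s)) * r.q _) * ν _ = 1
    rw [← C.sq _ hh, mul_assoc, mul_assoc (ρ _), C.inv _ hh, mul_one]
    exact mul_eq_one_comm.1 (C.inv _ hh)

theorem Corr.count (C : Corr r ν ρ) (n : ℕ) : ∃ N : ℕ, ∀ H a : Fin (n + 1) → Mat D,
    (∀ l, H l ∈ Pos D) → ∀ (T : (Fin (n + 1) → Mat D) →ₗ[ℝ] (Fin n → ℝ)) (y : Fin n → ℝ)
    (Z : Finset (Fin n → ℝ)), (∀ s ∈ Z, s ∈ cube n ∧ T (ph a (zz r ν H s)) = y ∧
      (fderiv ℝ (fun s => T (ph a (zz r ν H s))) s).det ≠ 0) → Z.card ≤ N := by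
  classical
  obtain ⟨N, hN⟩ := bezoutV (Var D n) (Val D n × (Fin n → ℝ)) (n + 6)
  refine ⟨N, fun H a hH T y Z hZ => ?_⟩
  have hk := (poly_ph a).map T
  rw [← card_image_of_injective Z (f := zz r ν H) fun u v h => congrArg Prod.fst h]
  refine hN (fun x => (eqs L H x, T (ph a x) - y))
    ((poly_eqs L H).prod ((hk.mono (by omega)).sub (Poly.const _ _))) _ fun z hz => ?_
  obtain ⟨s, hs, rfl⟩ := mem_image.1 hz
  obtain ⟨h1, h2, h3⟩ := hZ s hs
  refine ⟨Prod.ext (C.eqs_zz hH h1) (sub_eq_zero.2 h2), fun v hv => ?_⟩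
  exact nondeg (ContinuousLinearMap.fst ℝ _ _) (sm_diff (poly_eqs L H).contDiff.contDiffAt)
    (sm_diff hk.contDiff.contDiffAt) (sm_diff (C.smooth_zz hH h1)) (fun _ => rfl)
    (mem_of_superset (isOpen_cube.mem_nhds h1) fun u hu => C.eqs_zz hH hu)
    (fun v => eqs_nondeg C (sg_pos h1) (pt_pos hH h1)) h3 hv

theorem Corr.stiefel (C : Corr r ν ρ) (hH : ∀ l, H l ∈ Pos D)
    (ha : ∀ l, (a l)ᵀ * a l = symL D (H l)) (hs : s ∈ cube n) :
    ∑ l, (ph a (zz r ν H s) l)ᵀ * ph a (zz r ν H s) l = 1 := by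
  rw [← C.orth (pt_pos hH hs)]
  conv_rhs => rw [pt, map_sum, mul_sum, sum_mul, ← pt]
  refine sum_congr rfl fun l _ => ?_
  rw [map_smul, ← ha]
  simp only [ph, zz, Matrix.transpose_smul, Matrix.transpose_mul (a l), smul_mul_assoc,
    mul_smul_comm, smul_smul, mul_assoc]

/-- The universal form. -/
noncomputable def Uf (L : LData D) (t : (Fin j → Fin D) → ℝ) (A : Fin (n + 1) → Mat D) :
    Ext (Module.Dual ℝ (Fin (n + 1) → Mat D)) :=
  Pt t fun c => tw (fc _) fun u v => L.grQ A (fb _ u) (fb _ v) c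

theorem poly_grQ (L : LData D) (v w : Fin (n + 1) → Mat D) :
    Poly 2 fun A : Fin (n + 1) → Mat D => L.grQ A v w := by
  have h0 : ∀ l, Poly 1 fun A : Fin (n + 1) → Mat D => (A l)ᵀ := fun l =>
    (Poly.id (E := Fin (n + 1) → Mat D)).map (trL D ∘ₗ LinearMap.proj l)
  have h1 : ∀ v : Fin (n + 1) → Mat D,
      Poly 1 fun A : Fin (n + 1) → Mat D => L.grK (∑ l, (A l)ᵀ * v l) := fun v =>
    (Poly.sum _ fun l => (h0 l).mul (Poly.const 0 (v l))).map L.grK
  simp only [L.grQ_apply]
  exact (((h1 v).mul (h1 w)).add (Poly.const _ _)).map L.grP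

theorem continuous_Uf (L : LData D) (t : (Fin j → Fin D) → ℝ) : Continuous (Uf (n := n) L t) :=
  (contDiff_Pt t).continuous.comp ((Poly.pi fun p : _ × _ =>
    poly_grQ L (fb _ p.1) (fb _ p.2)).map (twL (fc _))).contDiff.continuous

theorem Corr.pull_eq (C : Corr r ν ρ) (t : (Fin j → Fin D) → ℝ) (hH : ∀ l, H l ∈ Pos D)
    (ha : ∀ l, (a l)ᵀ * a l = symL D (H l)) (hs : s ∈ cube n) :
    pull (fderiv ℝ (fun u => pt H (sg n u)) s : (Fin n → ℝ) →ₗ[ℝ] Mat D)
      (Pt t (curv L (fun h => r.q h * ν h) (fun h => ρ h * (r.q h)⁻¹) (pt H (sg n s)))) =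
    pull (fderiv ℝ (fun u => ph a (zz r ν H u)) s : (Fin n → ℝ) →ₗ[ℝ] (Fin (n + 1) → Mat D))
      (Uf L t (ph a (zz r ν H s))) := by
  have hh := pt_pos hH hs
  have hc := sm_diff (contDiffAt_pt H hs)
  have hγ := sm_diff (C.frame.s1 _ hh)
  have hΦ := sm_diff ((poly_ph a).contDiff.contDiffAt.comp s (C.smooth_zz hH hs))
  have hl : ∀ l, DifferentiableAt ℝ (fun u => ph a (zz r ν H u) l) s := differentiableAt_pi.1 hΦ
  have e0 : ∀ w l, fderiv ℝ (fun u => ph a (zz r ν H u)) s w l =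
      fderiv ℝ (fun u => ph a (zz r ν H u) l) s w := fun w l =>
    (fderiv_lin (LinearMap.proj l) hΦ w).symm
  have e1 : ∀ w l, fderiv ℝ (fun u => ph a (zz r ν H u)) s w l =
      fderiv ℝ (fun u => sg n u l) s w • (a l * (r.q (pt H (sg n s)) * ν (pt H (sg n s)))) +
      ph a (zz r ν H s) l * mc (fun h => r.q h * ν h) (fun h => ρ h * (r.q h)⁻¹) (pt H (sg n s))
        (fderiv ℝ (fun u => pt H (sg n u)) s w) := fun w l => by
    have := (sm_diff (contDiffAt_sg hs l)).hasFDerivAt.smul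
      ((hγ.hasFDerivAt.comp s hc.hasFDerivAt).const_mul (a l))
    rw [e0, show fderiv ℝ (fun u => ph a (zz r ν H u) l) s = _ from this.fderiv, add_comm,
      mc_apply, ← mul_assoc (ph _ _ _)]
    simp only [ph, zz, smul_mul_assoc, mul_assoc (a l), mul_eq_one_comm.1 (C.frame.inv _ hh),
      mul_one]
    rfl
  have e2 : ∀ w, ∑ l, ((fderiv ℝ (fun u => ph a (zz r ν H u)) s w l)ᵀ * ph a (zz r ν H s) l +
      (ph a (zz r ν H s) l)ᵀ * fderiv ℝ (fun u => ph a (zz r ν H u)) s w l) = 0 := fun w => by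
    have h1 : fderiv ℝ (fun u => ∑ l, (ph a (zz r ν H u) l)ᵀ * ph a (zz r ν H u) l) s = 0 :=
      ((hasFDerivAt_const (1 : Mat D) s).congr_of_eventuallyEq
        (mem_of_superset (isOpen_cube.mem_nhds hs) fun u hu => C.stiefel hH ha hu)).fderiv
    have h2 := DFunLike.congr_fun ((fderiv_fun_sum fun l _ =>
      (differentiableAt_lin (trL D) (hl l)).fun_mul (hl l)).symm.trans h1) w
    rw [_root_.sum_apply] at h2
    exact (sum_congr rfl fun l _ => by rw [e0]; exact (fderiv_tr_mul (hl l) (hl l) w).symm).trans h2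
  rw [Uf, map_Pt, map_Pt]
  refine congrArg _ (funext fun c => ?_)
  refine (pull_curv ..).trans (Eq.trans (tw_congr _ fun u v => ?_)
    (tw_pull _ ((L.grQ (ph a (zz r ν H s))).compr₂ (LinearMap.proj c))).symm)
  exact (congrFun (L.grQ_eq (sg n s) _ _ _ _ _ _ _ _ (fun _ => rfl) (e1 _) (e1 _)
    (C.stiefel hH ha hs) (e2 _) (e2 _)) c).symm

theorem Corr.bound (C : Corr r ν ρ) (t : (Fin j → Fin D) → ℝ) (n : ℕ) :
    ∃ B : ℝ≥0∞, B ≠ ⊤ ∧ ∀ H : Fin (n + 1) → Mat D, (∀ l, H l ∈ Pos D) →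
      ∫⁻ s in cube n, ‖evalForm (Pt t (curv L (fun h => r.q h * ν h) (fun h => ρ h * (r.q h)⁻¹)
        (conePt n (Fin.tail H) (H 0) s)))
        (fun i => fderiv ℝ (conePt n (Fin.tail H) (H 0)) s (Pi.single i 1))‖ₑ ≤ B := by
  obtain ⟨N, hN⟩ := C.count n
  obtain ⟨sq, hsq⟩ := exists_sqrt D
  let K : Set (Fin (n + 1) → Mat D) := Set.pi Set.univ fun _ =>
    (Set.pi Set.univ fun _ => Set.pi Set.univ fun _ => Set.Icc (-1) 1 : Set (Fin D → Fin D → ℝ))
  have hK : IsCompact K :=
    isCompact_univ_pi fun _ => isCompact_univ_pi fun _ => isCompact_univ_pi fun _ => isCompact_Icc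
  let T : (Fin n → Fin (Module.finrank ℝ (Fin (n + 1) → Mat D))) → _ →ₗ[ℝ] (Fin n → ℝ) :=
    fun I => LinearMap.pi fun k => fc (Fin (n + 1) → Mat D) (I k)
  have hM := fun I : Fin n → Fin (Module.finrank ℝ (Fin (n + 1) → Mat D)) =>
    hK.exists_bound_of_continuousOn (f := fun A => evalForm (Uf L t A) fun k => fb _ (I k))
      ((continuous_lin (aug.toLinearMap ∘ₗ ctrs n _)).comp (continuous_Uf L t)).continuousOn
  choose M hM using hM
  refine ⟨∑ I, ENNReal.ofReal (M I) * (N * volume (T I '' K)), ENNReal.sum_ne_top.2 fun I _ =>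
    ENNReal.mul_ne_top ENNReal.ofReal_ne_top (ENNReal.mul_ne_top (ENNReal.natCast_ne_top N)
      (hK.image (continuous_lin _)).measure_lt_top.ne), fun H hH => ?_⟩
  have h1 := fun l => hsq _ (symL_pos (hH l)) (symL_transpose _)
  obtain ⟨a, ha⟩ : ∃ a : Fin (n + 1) → Mat D, ∀ l, (a l)ᵀ * a l = symL D (H l) :=
    ⟨fun l => sq (symL D (H l)), fun l => by rw [(h1 l).2.2.1, (h1 l).2.2.2]⟩
  have hΦ : ∀ s ∈ cube n, ContDiffAt ℝ ∞ (fun u => ph a (zz r ν H u)) s := fun s hs =>
    (poly_ph a).contDiff.contDiffAt.comp s (C.smooth_zz hH hs)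
  have hm : ∀ s ∈ cube n, ph a (zz r ν H s) ∈ K := fun s hs l _ i _ k _ => by
    have := congrFun (congrFun (C.stiefel hH ha hs) k) k
    rw [Matrix.sum_apply, Matrix.one_apply_eq] at this
    simp only [Matrix.mul_apply, Matrix.transpose_apply] at this
    exact abs_le.1 (abs_le_one_iff_mul_self_le_one.2 (this ▸ (single_le_sum
      (fun i _ => mul_self_nonneg (ph a (zz r ν H s) l i k)) (mem_univ i)).trans (single_le_sum
        (fun l _ => sum_nonneg fun i _ => mul_self_nonneg (ph a (zz r ν H s) l i k)) (mem_univ l))))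
  calc _ ≤ ∫⁻ s in cube n, ∑ I, ENNReal.ofReal (M I) *
        ‖(fderiv ℝ (fun u => T I (ph a (zz r ν H u))) s).det‖ₑ := by
        refine setLIntegral_mono' isOpen_cube.measurableSet fun s hs => ?_
        have e : fderiv ℝ (conePt n (Fin.tail H) (H 0)) s = fderiv ℝ (fun u => pt H (sg n u)) s :=
          EventuallyEq.fderiv_eq
            (mem_of_superset (isOpen_cube.mem_nhds hs) fun u hu => (pt_sg H hu).symm)
        have e' := congrArg (fun x => evalForm x fun i : Fin n => Pi.single i 1)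
          (C.pull_eq t hH ha hs)
        simp only [evalForm_pull, ContinuousLinearMap.coe_coe] at e'
        rw [e, ← pt_sg H hs, e', ← ofReal_norm]
        refine (ENNReal.ofReal_le_ofReal (abs_evalForm_le _ _)).trans ?_
        rw [ENNReal.ofReal_sum_of_nonneg fun _ _ => mul_nonneg (abs_nonneg _) (abs_nonneg _)]
        refine sum_le_sum fun I _ => ?_
        rw [ENNReal.ofReal_mul (abs_nonneg _), mul_comm, ← ofReal_norm]
        refine mul_le_mul' (ENNReal.ofReal_le_ofReal (hM I _ (hm s hs))) (le_of_eq ?_)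
        rw [ContinuousLinearMap.det, ← LinearMap.det_toMatrix', Real.norm_eq_abs]
        congr 3
        ext k i
        rw [LinearMap.toMatrix'_apply, ContinuousLinearMap.coe_coe,
          fderiv_lin (T I) (sm_diff (hΦ s hs))]
        rfl
    _ ≤ _ := by
        refine (lintegral_finsetSum _ fun I _ => ((ContinuousLinearMap.continuous_det.measurable.comp
          (measurable_fderiv ℝ _)).enorm).const_mul _).trans_le (sum_le_sum fun I _ => ?_)
        rw [lintegral_const_mul' _ _ ENNReal.ofReal_ne_top]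
        exact mul_le_mul' le_rfl (area_le _ isOpen_cube _
          (fun s hs => (contDiffAt_lin (T I) (hΦ s hs)).of_le (mod_cast le_top)) _
          (fun s hs => Set.mem_image_of_mem _ (hm s hs)) N (hN H a hH (T I)))

end Pool.Agent.Lib.MP_cdc9ab_al.Gro
end

-- part Pool.Agent.Lib.MP_cdc9ab_al.Gromov
section

/-! Chern-Weil classes of the maximal compact subgroup are bounded. -/

open scoped Matrix.Norms.Operator ContDiff Matrix
open Finset

namespace Pool.Agent.Lib.MP_cdc9ab_al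

open Gro

theorem gromov {D : ℕ} (L : LData D) (r : Retr L) (j : ℕ) (t : (Fin j → Fin D) → ℝ)
    (ht : L.KInv t) : L.Good (2 * j) (L.CW t) := by
  obtain ⟨ν, ρ, C⟩ := exists_corr r
  have F := C.frame
  have ht' : L.KInv fun a => (-8 : ℝ) ^ j * t a := fun k hk a => by
    beta_reduce
    rw [← ht k hk a, mul_sum]
    exact sum_congr rfl fun b _ => mul_left_comm _ _ _
  obtain ⟨B, hB, hb⟩ := C.bound (fun a => (-8 : ℝ) ^ j * t a) (2 * j)
  obtain ⟨f, h1, h2⟩ := cone_good (Pos D) isOpen_pos convex_pos L.acts L.acts_mem_pos (2 * j) _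
    (fun x hx => (contDiff_Pt _).contDiffAt.comp x (contDiffAt_curv (F.s1 x hx) (F.s2 x hx)))
    (fun x _ => Pt_mem _ fun c => tw_mem _ _)
    (fun x hx => closed ht' (F.s1 x hx) (F.s2 x hx)
      (Filter.mem_of_superset (isOpen_pos.mem_nhds hx) F.inv))
    (by rintro _ ⟨g, hg, rfl⟩ x hx; exact F.invariant ht' hg hx) B hB hb
  refine ⟨f, h1, (h2 L.Y 1 one_mem_pos).trans ((map_Pt _ _ _).trans ?_)⟩
  simp only [F.value]
  rw [Pt_smul, Pt, smul_sum]
  refine sum_congr rfl fun a _ => ?_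
  rw [smul_smul, ← mul_assoc, ← mul_pow]
  norm_num

end Pool.Agent.Lib.MP_cdc9ab_al
end

-- part Pool.Agent.Lib.MP_cdc9ab_al.Gen4
section

open scoped Matrix.Norms.Operator ContDiff Matrix TensorProduct
open Finset Polynomial

namespace Pool.Agent.Lib.MP_cdc9ab_al

section sh
variable {R : Type} [Ring R] [Algebra ℝ R] {N T T' : R} {c c' : ℝ}

/-- `T` shifts the eigenvalues of `N` by `c`. -/
def Sh (N T : R) (c : ℝ) : Prop := N * T = T * N + c • T

theorem Sh.mul (h : Sh N T c) (h' : Sh N T' c') : Sh N (T * T') (c + c') := by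
  unfold Sh at *
  rw [← mul_assoc, h, add_mul, mul_assoc, h', mul_add, add_smul, mul_smul_comm, smul_mul_assoc,
    mul_assoc]
  abel

theorem Sh.add (h : Sh N T c) (h' : Sh N T' c) : Sh N (T + T') c := by
  unfold Sh at *
  rw [mul_add, h, h', add_mul, smul_add]; abel

theorem Sh.sub (h : Sh N T c) (h' : Sh N T' c) : Sh N (T - T') c := by
  unfold Sh at *
  rw [mul_sub, h, h', sub_mul, smul_sub]; abel

theorem Sh.cast (h : Sh N T c) (e : c = c') : Sh N T c' := e ▸ h

theorem Sh.pow (h : Sh N T c) (n : ℕ) : Sh N (T ^ n) (n * c) := by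
  induction n with
  | zero => simp [Sh]
  | succ n ih => rw [pow_succ]; exact (ih.mul h).cast (by push_cast; ring)

theorem Sh.sum {I : Type} (s : Finset I) (f : I → R) (h : ∀ i ∈ s, Sh N (f i) c) :
    Sh N (∑ i ∈ s, f i) c := by
  unfold Sh at *
  rw [mul_sum, sum_mul, smul_sum, ← sum_add_distrib]
  exact sum_congr rfl h

theorem Sh.of_commute (h : Commute N T) : Sh N T 0 := by simpa [Sh] using h.eq

theorem Sh.smul_left (h : Sh N T 0) (r : ℝ) : Sh (r • N) T 0 := by
  unfold Sh at *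
  rw [smul_mul_assoc, h, mul_smul_comm]; simp

theorem prod_ofFn_mul {R : Type} [Monoid R] {n : ℕ} (f g : Fin n → R)
    (h : ∀ i j, Commute (f i) (g j)) :
    (List.ofFn fun i => f i * g i).prod = (List.ofFn f).prod * (List.ofFn g).prod := by
  induction n with
  | zero => simp
  | succ n ih =>
    have hc : Commute (g 0) (List.ofFn fun i : Fin n => f i.succ).prod :=
      Commute.list_prod_right _ _ fun x hx => by
        obtain ⟨i, rfl⟩ := List.mem_ofFn.mp hx
        exact (h _ _).symm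
    simp only [List.ofFn_succ, List.prod_cons]
    rw [ih _ _ fun i j => h _ _, mul_assoc, mul_assoc, ← mul_assoc (g 0), hc.eq, mul_assoc]

variable {E : Type} [AddCommGroup E] [Module ℝ E]

theorem Sh.nilp {N T : Module.End ℝ E} {M : ℕ} (h : Sh N T c) (hc : c ≤ -1)
    (hN : aeval N (Pol M) = 0) : T ^ M = 0 :=
  LinearMap.ext fun x => eig_ind N ⊤ (fun _ _ => trivial) M (LinearMap.ker (T ^ M))
    (fun n hn y _ hy => eig_neg hN (eig_shift (h.pow M) hy) (by
      have h1 : (n : ℝ) < M := by exact_mod_cast hn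
      have h2 : (0 : ℝ) ≤ M := M.cast_nonneg
      nlinarith)) x trivial (by rw [hN]; rfl)

end sh

/-- Polynomials. -/
abbrev SP (D : ℕ) : Type := MvPolynomial (Fin D) ℝ

/-- The Cartan complex. -/
def CC (D : ℕ) : Type := SP D ⊗[ℝ] Lam D

noncomputable instance (D : ℕ) : AddCommGroup (CC D) :=
  inferInstanceAs (AddCommGroup (SP D ⊗[ℝ] Lam D))

noncomputable instance (D : ℕ) : Module ℝ (CC D) := inferInstanceAs (Module ℝ (SP D ⊗[ℝ] Lam D))

/-- Operators on polynomials. -/
abbrev ES (D : ℕ) : Type := Module.End ℝ (SP D)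

/-- Operators on the complex. -/
abbrev EC (D : ℕ) : Type := Module.End ℝ (CC D)

variable {D : ℕ}

/-- Pure tensors. -/
noncomputable def tm : SP D →ₗ[ℝ] Lam D →ₗ[ℝ] CC D := TensorProduct.mk ℝ (SP D) (Lam D)

theorem cc_ext {F : Type} [AddCommGroup F] [Module ℝ F] {S T : CC D →ₗ[ℝ] F}
    (h : ∀ p y, S (tm p y) = T (tm p y)) : S = T := TensorProduct.ext' h

/-- Operators acting on the form part. -/
noncomputable def hat : EL D →ₐ[ℝ] EC D := Module.End.lTensorAlgHom ℝ (Lam D) (SP D)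

/-- Operators acting on the polynomial part. -/
noncomputable def til : ES D →ₐ[ℝ] EC D := Module.End.rTensorAlgHom ℝ (SP D) (Lam D)

@[simp] theorem hat_tmul (T : EL D) (p : SP D) (y : Lam D) : hat T (tm p y) = tm p (T y) := rfl

@[simp] theorem til_tmul (S : ES D) (p : SP D) (y : Lam D) : til S (tm p y) = tm (S p) y := rfl

theorem til_hat (S : ES D) (T : EL D) : Commute (til S) (hat T) :=
  cc_ext fun _ _ => rfl

/-- Multiplication by polynomials. -/
noncomputable abbrev ms : SP D →ₐ[ℝ] ES D := Algebra.lmul ℝ (SP D)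

/-- Multiplication by the variables. -/
noncomputable def vv (a : Fin D) : ES D := ms (MvPolynomial.X a)

/-- Partial derivatives. -/
noncomputable def pp (a : Fin D) : ES D := (MvPolynomial.pderiv a).toLinearMap

theorem vv_apply (a : Fin D) (p : SP D) : vv a p = MvPolynomial.X a * p := rfl

theorem pp_apply (a : Fin D) (p : SP D) : pp a p = MvPolynomial.pderiv a p := rfl

theorem osc_vp : Osc 1 (vv (D := D)) pp where
  xx a b := by rw [vv, vv, ← map_mul ms, ← map_mul ms, mul_comm, one_smul]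
  yy a b := LinearMap.ext fun p => by
    simp only [one_smul, Module.End.mul_apply, pp_apply]
    ext m
    rw [MvPolynomial.coeff_pderiv, MvPolynomial.coeff_pderiv, MvPolynomial.coeff_pderiv,
      MvPolynomial.coeff_pderiv, add_right_comm]
    by_cases h : a = b
    · subst h; rfl
    · simp [h, Ne.symm h]; ring
  yx a b := LinearMap.ext fun p => by
    by_cases h : a = b
    · simp [pp_apply, vv_apply, h, add_comm]
    · simp [pp_apply, vv_apply, h, MvPolynomial.pderiv_X_of_ne (Ne.symm h)]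
  ee := by norm_num

theorem gam_vp_one (M : Mat D) : gam vv pp M (1 : SP D) = 0 := by simp [gam, pp_apply]

/-- The total derivation. -/
noncomputable def Tot (MS M : Mat D) : EC D := til (gam vv pp MS) + hat (Gm M)

theorem Tot_zero : Tot (0 : Mat D) 1 = hat NN := by simp [Tot, gam, NN]

theorem Sh.hat {M : Mat D} {T : EL D} {c : ℝ} (h : Sh (Gm M) T c) (MS : Mat D) :
    Sh (Tot MS M) (hat T) c := by
  unfold Sh at *
  rw [Tot, add_mul, mul_add, ← map_mul, h, (til_hat _ _).eq, map_add, map_mul, map_smul, add_assoc]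

/-- The Koszul differential. -/
noncomputable def dlt (j : Fin D → ℝ) : EC D := ∑ a, j a • (til (vv a) * hat (ii a))

/-- The Koszul homotopy. -/
noncomputable def kap : EC D := ∑ a, hat (ee a) * til (pp a)

theorem Tot_dlt (j : Fin D → ℝ) (MS M : Mat D) (c : ℝ)
    (h : ∀ a b, j a * MS b a - j b * M b a = if a = b then c * j a else 0) :
    Sh (Tot MS M) (dlt j) c := by
  have h1 : ∀ a, Tot MS M * (til (vv a) * hat (ii a)) = til (vv a) * hat (ii a) * Tot MS M +
      (∑ b, MS b a • (til (vv b) * hat (ii a)) - ∑ b, M a b • (til (vv a) * hat (ii b))) := by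
    intro a
    rw [Tot, add_mul, mul_add, ← mul_assoc, ← map_mul, osc_vp.gam_x, ← mul_assoc,
      ← (til_hat _ _).eq, mul_assoc (til _), ← map_mul, Gm, osc_ei.gam_y, mul_assoc,
      ← (til_hat _ _).eq]
    simp only [map_add, map_sub, map_mul, map_sum, map_smul, add_mul, mul_sub, sum_mul, mul_sum,
      smul_mul_assoc, mul_smul_comm, mul_assoc]
    abel
  simp only [Sh, dlt, mul_sum, sum_mul, mul_smul_comm, smul_mul_assoc, h1, smul_add,
    sum_add_distrib, smul_sub, sum_sub_distrib, smul_sum, smul_smul]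
  congr 1
  rw [sum_comm (f := fun a b => (j a * M a b) • (til (vv a) * hat (ii b))), ← sum_sub_distrib]
  refine sum_congr rfl fun a _ => ?_
  simp only [← sum_sub_distrib, ← sub_smul, h, ite_smul, zero_smul, sum_ite_eq, mem_univ, if_true]

theorem Tot_kap (MS M : Mat D) (c : ℝ) (h : M - MS = c • 1) : Sh (Tot MS M) kap c := by
  have h1 : ∀ a, Tot MS M * (hat (ee a) * til (pp a)) = hat (ee a) * til (pp a) * Tot MS M +
      (∑ b, M b a • (hat (ee b) * til (pp a)) - ∑ b, MS a b • (hat (ee a) * til (pp b))) := by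
    intro a
    rw [Tot, add_mul, mul_add, ← mul_assoc, (til_hat _ _).eq, mul_assoc, ← map_mul, osc_vp.gam_y,
      ← mul_assoc, ← map_mul, Gm, osc_ei.gam_x, mul_assoc (hat _) _ (hat _), (til_hat _ _).eq]
    simp only [map_add, map_sub, map_mul, map_sum, map_smul, add_mul, mul_sub, sum_mul, mul_sum,
      smul_mul_assoc, mul_smul_comm, mul_assoc]
    abel
  simp only [Sh, kap, mul_sum, sum_mul, h1, sum_add_distrib, sum_sub_distrib, smul_sum]
  congr 1
  rw [sum_comm (f := fun a b => MS a b • (hat (ee a) * til (pp b))), ← sum_sub_distrib]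
  refine sum_congr rfl fun a _ => ?_
  have h2 : ∀ b, M b a - MS b a = if b = a then c else 0 := fun b => by
    simpa [Matrix.one_apply] using congrFun (congrFun h b) a
  simp only [← sum_sub_distrib, ← sub_smul, h2, ite_smul, zero_smul, sum_ite_eq', mem_univ, if_true]

theorem anti_sum {E : Type} [AddCommGroup E] [Module ℝ E] (f : Fin D → Fin D → E)
    (h : ∀ a b, f a b = -f b a) : ∑ a, ∑ b, f a b = 0 := by
  have h1 : ∑ a, ∑ b, f a b = -∑ a, ∑ b, f a b := by
    conv_lhs => rw [sum_comm]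
    simp only [← sum_neg_distrib]
    exact sum_congr rfl fun a _ => sum_congr rfl fun b _ => h b a
  have h2 : (2 : ℝ) • ∑ a, ∑ b, f a b = 0 := by rw [two_smul]; exact add_eq_zero_iff_eq_neg.mpr h1
  simpa using h2

theorem anti_sum' {E : Type} [AddCommGroup E] [Module ℝ E] (f : Fin D → Fin D → Fin D → E)
    (h : ∀ a b c, f a b c = -f b a c) : ∑ a, ∑ b, ∑ c, f a b c = 0 :=
  anti_sum _ fun a b => by
    rw [← sum_neg_distrib]; exact sum_congr rfl fun c _ => h a b c

theorem dlt_dlt (j : Fin D → ℝ) : dlt j * dlt j = 0 := by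
  rw [dlt, sum_mul_sum]
  refine anti_sum (E := EC D) _ fun a b => ?_
  have h : ∀ a b : Fin D, til (vv a) * hat (ii a) * (til (vv b) * hat (ii b)) =
      til (vv a * vv b) * hat (ii a * ii b) := fun a b => by
    rw [mul_assoc, ← mul_assoc (hat _), ← (til_hat _ _).eq, map_mul, map_mul]
    simp only [mul_assoc]
  rw [smul_mul_smul_comm, smul_mul_smul_comm, h, h, osc_vp.xx, osc_ei.yy, mul_comm (j a)]
  simp

theorem dlt_kap : dlt (fun _ : Fin D => 1) * kap + kap * dlt (fun _ => 1) = Tot 1 1 := by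
  have h : ∀ a b : Fin D, til (vv a) * hat (ii a) * (hat (ee b) * til (pp b)) +
      hat (ee b) * til (pp b) * (til (vv a) * hat (ii a)) =
      if a = b then til (vv a * pp a) + hat (ee a * ii a) else 0 := fun a b => by
    have h1 : til (vv a) * hat (ii a) * (hat (ee b) * til (pp b)) =
        til (vv a * pp b) * hat (ii a * ee b) := by
      rw [mul_assoc, ← mul_assoc (hat _), ← map_mul, ← (til_hat _ _).eq, map_mul til, mul_assoc]
    have h2 : hat (ee b) * til (pp b) * (til (vv a) * hat (ii a)) =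
        til (pp b * vv a) * hat (ee b * ii a) := by
      rw [mul_assoc, ← mul_assoc (til _), ← map_mul, ← mul_assoc, ← (til_hat _ _).eq, map_mul hat,
        mul_assoc]
    rw [h1, h2, osc_vp.yx, osc_ei.yx]
    by_cases hab : a = b
    · subst hab; simp [mul_add, add_mul]; abel
    · simp [hab, Ne.symm hab]
  simp only [dlt, kap, one_smul, sum_mul_sum]
  rw [sum_comm (f := fun b a => hat (ee b) * til (pp b) * (til (vv a) * hat (ii a)))]
  simp only [← sum_add_distrib, h, sum_ite_eq, mem_univ, if_true, Tot, Gm, gam_one, map_sum]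

theorem hat_pol : aeval (hat NN : EC D) (Pol (exists_NN_pol (D := D)).choose) = 0 := by
  rw [aeval_algHom_apply, exists_NN_pol.choose_spec, map_zero]

theorem NN_dlt (j : Fin D → ℝ) : Sh (hat NN) (dlt j) (-1) :=
  Tot_zero ▸ Tot_dlt j 0 1 (-1) fun a b => by
    by_cases h : a = b <;> simp [h, Matrix.one_apply, eq_comm]

/-- The total degree. -/
noncomputable def Nt : EC D := Tot ((2 : ℝ) • 1) 1

theorem Nt_dlt (j : Fin D → ℝ) : Sh Nt (dlt j) 1 :=
  Tot_dlt j _ 1 1 fun a b => by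
    by_cases h : a = b
    · subst h; simp; ring
    · simp [h, eq_comm]

theorem Nt_one (y : Lam D) : Nt (tm 1 y) = tm 1 (NN y) := by simp [Nt, Tot, gam_vp_one, NN]

namespace LData
variable (L : LData D) (j : Fin D → ℝ)

/-- Admissible weights. -/
structure Wt : Prop where
  jj : ∀ a, j a * j a = j a
  cl : ∀ x b c, j x * j c * L.ad x c b = j x * j b * L.ad x c b

/-- The action on the variables. -/
noncomputable def MS (x : Fin D) : Mat D := Matrix.of fun b c => -(j x * j b * L.ad x c b)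

/-- The total Lie derivatives. -/
noncomputable def Lt (x : Fin D) : EC D := Tot (L.MS j x) (j x • -(L.ad x)ᵀ)

/-- Invariant elements. -/
noncomputable def Inv : Submodule ℝ (CC D) := ⨅ x, LinearMap.ker (L.Lt j x)

/-- The Cartan differential. -/
noncomputable def DD : EC D := hat L.dL - dlt j

/-- The perturbation series. -/
noncomputable def XX : EC D :=
  ∑ i ∈ range (exists_NN_pol (D := D)).choose, (hat L.Kh * dlt j) ^ i

theorem Gm_smul_ad (r : ℝ) (x : Fin D) : Gm (r • -(L.ad x)ᵀ) = r • L.LL x := gam_smul _ _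

theorem mem_Inv {z : CC D} : z ∈ L.Inv j ↔ ∀ x, L.Lt j x z = 0 := by simp [Inv]

theorem inv_of_sh {T : EC D} (h : ∀ x, Sh (L.Lt j x) T 0) : ∀ z ∈ L.Inv j, T z ∈ L.Inv j :=
  fun z hz => (L.mem_Inv j).mpr fun x => by
    simpa using eig_shift (h x) (μ := 0) (by simpa using (L.mem_Inv j).mp hz x)

theorem inv_hat {T : EL D} (h : ∀ x, Commute (L.LL x) T) : ∀ z ∈ L.Inv j, hat T z ∈ L.Inv j :=
  L.inv_of_sh j fun x => Sh.hat (L.Gm_smul_ad _ x ▸ (Sh.of_commute (h x)).smul_left _) _

theorem one_tmul_mem {y : Lam D} (h : ∀ x, j x • L.LL x y = 0) : tm 1 y ∈ L.Inv j :=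
  (L.mem_Inv j).mpr fun x => by
    rw [Lt, Tot, Gm_smul_ad, LinearMap.add_apply, hat_tmul, til_tmul, LinearMap.smul_apply, h]
    simp [gam_vp_one]

theorem XX_stable (W : Submodule ℝ (CC D)) (h1 : ∀ z ∈ W, hat L.Kh (dlt j z) ∈ W) :
    ∀ z ∈ W, L.XX j z ∈ W := fun z hz => by
  rw [XX, LinearMap.sum_apply]
  exact W.sum_mem fun i _ => pow_mem' _ W h1 i z hz

theorem Kd_nilp : (hat L.Kh * dlt j) ^ (exists_NN_pol (D := D)).choose = 0 :=
  ((Tot_zero (D := D) ▸ Sh.hat L.NN_Kh 0).mul (NN_dlt j)).nilp (by norm_num) hat_pol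

theorem XX_mul : L.XX j * (1 - hat L.Kh * dlt j) = 1 := by
  rw [XX, geom_sum_mul_neg, Kd_nilp, sub_zero]

theorem mul_XX : (1 - hat L.Kh * dlt j) * L.XX j = 1 := by
  rw [XX, mul_neg_geom_sum, Kd_nilp, sub_zero]

theorem Nt_XX : Sh Nt (L.XX j) 0 :=
  Sh.sum _ _ fun i _ => (((Sh.hat L.NN_Kh _).mul (Nt_dlt j)).pow i).cast (by simp)

theorem XX_ms (p : SP D) : Commute (L.XX j) (til (ms p)) :=
  Commute.sum_left _ _ _ fun i _ => ((til_hat _ _).symm.mul_left
    (Commute.sum_left _ _ _ fun _ _ => Commute.smul_left (Commute.mul_left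
      (((Commute.all _ p).map ms).map til) (til_hat _ _).symm) _)).pow_left i

variable {L j}

theorem Wt.inv_dlt (hj : L.Wt j) : ∀ z ∈ L.Inv j, dlt j z ∈ L.Inv j :=
  L.inv_of_sh j fun x => Tot_dlt j _ _ 0 fun a b => by
    have h1 := hj.cl x b a
    have h2 := hj.jj b
    simp only [MS, Matrix.of_apply, Matrix.smul_apply, Matrix.neg_apply, Matrix.transpose_apply,
      smul_eq_mul, zero_mul, ite_self]
    linear_combination (-j b) * h1 - j x * L.ad x a b * h2

theorem Wt.inv_XX (hj : L.Wt j) : ∀ z ∈ L.Inv j, L.XX j z ∈ L.Inv j :=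
  L.XX_stable j _ fun z hz => L.inv_hat j L.LL_Kh _ (hj.inv_dlt z hz)

theorem Wt.inv_DD (hj : L.Wt j) : ∀ z ∈ L.Inv j, L.DD j z ∈ L.Inv j := fun z hz =>
  sub_mem (L.inv_hat j L.LL_dL z hz) (hj.inv_dlt z hz)

theorem d_dlt {z : CC D} (hz : z ∈ L.Inv j) : hat L.dL (dlt j z) = -dlt j (hat L.dL z) := by
  have h1 : hat L.dL * dlt j + dlt j * hat L.dL =
      ∑ a, til (vv a) * L.Lt j a - ∑ a, til (vv a * gam vv pp (L.MS j a)) := by
    simp only [dlt, mul_sum, sum_mul, ← sum_add_distrib, ← sum_sub_distrib]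
    refine sum_congr rfl fun a _ => ?_
    rw [Lt, Tot, Gm_smul_ad, mul_add, map_mul, add_sub_cancel_left, ← L.dL_ii, mul_smul_comm,
      smul_mul_assoc, ← mul_assoc, ← (til_hat _ _).eq]
    simp only [map_smul, map_add, map_mul, mul_add, smul_add, mul_smul_comm, mul_assoc]
  have h2 : ∑ a, vv a * gam vv pp (L.MS j a) = 0 := by
    simp only [gam, mul_sum]
    refine anti_sum' _ fun a b c => ?_
    simp only [mul_smul_comm, MS, Matrix.of_apply, ← mul_assoc]
    rw [osc_vp.xx a b, L.anti a b c, mul_comm (j a)]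
    simp
  rw [← map_sum, h2, map_zero, sub_zero] at h1
  have h3 := LinearMap.congr_fun h1 z
  simp only [LinearMap.add_apply, Module.End.mul_apply, LinearMap.sum_apply,
    (L.mem_Inv j).mp hz, map_zero, sum_const_zero] at h3
  exact eq_neg_of_add_eq_zero_left h3

theorem DD_DD {z : CC D} (hz : z ∈ L.Inv j) : L.DD j (L.DD j z) = 0 := by
  have h1 := LinearMap.congr_fun (congrArg hat L.dL_dL) z
  have h2 := LinearMap.congr_fun (dlt_dlt j) z
  simp only [map_mul, Module.End.mul_apply, map_zero, LinearMap.zero_apply] at h1 h2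
  simp [DD, d_dlt hz, h1, h2]

/-- The basic perturbation formula. -/
theorem Wt.star (hj : L.Wt j) {z : CC D} (hz : z ∈ L.Inv j) (h0 : L.DD j z = 0) :
    z = L.XX j (hat L.Pr (z + dlt j (L.XX j (hat L.Kh z)))) + L.DD j (L.XX j (hat L.Kh z)) := by
  have hw := hj.inv_XX _ (L.inv_hat j L.LL_Kh z hz)
  have h1 := LinearMap.congr_fun (L.mul_XX j) (hat L.Kh z)
  rw [Module.End.mul_apply] at h1
  generalize L.XX j (hat L.Kh z) = w at *
  have h2 := fun y => LinearMap.congr_fun (congrArg hat L.dL_Kh) y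
  have h3 := LinearMap.congr_fun (dlt_dlt j) w
  have h4 := LinearMap.congr_fun (L.XX_mul j) (z - L.DD j w)
  have h5 := d_dlt hw
  rw [Module.End.mul_apply, Module.End.one_apply] at h4
  rw [← sub_eq_iff_eq_add, ← h4]
  clear h4
  congr 1
  simp only [DD, map_add, map_mul, map_sub, map_one, LinearMap.add_apply, LinearMap.sub_apply,
    Module.End.mul_apply, Module.End.one_apply, LinearMap.zero_apply] at *
  have h6 := h2 z
  have h7 := h2 (dlt j w)
  rw [h5, map_neg] at h7
  rw [← h1, map_sub, sub_eq_zero.mp h0] at h6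
  rw [h3, map_zero]
  linear_combination (norm := abel) -h6 - h7

end LData

end Pool.Agent.Lib.MP_cdc9ab_al
end

-- part Pool.Agent.Lib.MP_cdc9ab_al.Gen5
section

open scoped Matrix.Norms.Operator ContDiff Matrix TensorProduct
open Finset Polynomial

namespace Pool.Agent.Lib.MP_cdc9ab_al

variable {D : ℕ}

theorem Bf_NN (x y : Lam D) : Bf (NN x) y = Bf x (NN y) := by
  simpa [NN] using Bf_Gm 1 x y

theorem orth_deg (W : Submodule ℝ (Lam D)) (hW : ∀ x ∈ W, NN x ∈ W) {a : Lam D} {μ : ℝ}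
    (ha : NN a = μ • a) : ∃ w ∈ W, (∀ u ∈ W, Bf u (a - w) = 0) ∧ NN (a - w) = μ • (a - w) := by
  obtain ⟨w, hw, h⟩ := orth_decomp Bf Bf_symm Bf_def W a
  refine ⟨w, hw, h, sub_eq_zero.mp (Bf_def _ ?_)⟩
  have h1 : NN (a - w) - μ • (a - w) ∈ W := by
    rw [map_sub, ha, smul_sub, sub_sub_sub_cancel_left]
    exact W.sub_mem (W.smul_mem _ hw) (hW w hw)
  generalize hy : NN (a - w) - μ • (a - w) = y at h1
  conv_lhs => enter [2]; rw [← hy]
  rw [map_sub, map_smul, ← Bf_NN, h _ h1, h _ (hW _ h1)]; simp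

/-- The filtration by the form degree. -/
noncomputable def Fil (ν : ℝ) : Submodule ℝ (CC D) :=
  Submodule.span ℝ {z | ∃ p y, ∃ μ ≤ ν, NN y = μ • y ∧ z = tm p y}

theorem Fil_map {F : Type} [AddCommGroup F] [Module ℝ F] {ν : ℝ} (T : CC D →ₗ[ℝ] F)
    (U : Submodule ℝ F) (h : ∀ p y, ∀ μ ≤ ν, NN y = μ • y → T (tm p y) ∈ U) :
    ∀ z ∈ Fil ν, T z ∈ U := fun _ hz =>
  (Submodule.span_le (p := U.comap T)).mpr (by rintro _ ⟨p, y, μ, h1, h2, rfl⟩; exact h p y μ h1 h2) hz

theorem tm_mem_Fil (p : SP D) {y : Lam D} {μ ν : ℝ} (h1 : μ ≤ ν) (h2 : NN y = μ • y) :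
    tm p y ∈ Fil ν := Submodule.subset_span ⟨p, y, μ, h1, h2, rfl⟩

theorem Fil_hat {T : EL D} {c ν ν' : ℝ} (h : Sh NN T c) (hν : ν + c ≤ ν') :
    ∀ z ∈ Fil ν, hat T z ∈ Fil ν' :=
  Fil_map _ _ fun p y μ h1 h2 =>
    tm_mem_Fil p (by linarith) (eig_shift h h2)

theorem Fil_dlt (j : Fin D → ℝ) (ν : ℝ) : ∀ z ∈ Fil ν, dlt j z ∈ Fil ν :=
  Fil_map _ _ fun p y μ h1 h2 => by
    rw [dlt, LinearMap.sum_apply]
    exact Submodule.sum_mem _ fun a _ => Submodule.smul_mem _ _ 
      (tm_mem_Fil (vv a p) (by linarith) (eig_shift (NN_ii a) h2))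

namespace LData
variable (L : LData D)

/-- Indicator of `k`. -/
noncomputable def jk (a : Fin D) : ℝ := (1 - L.s a) / 2

/-- Restriction to `p`. -/
noncomputable abbrev ph : Lam D →ₐ[ℝ] Lam D := mp (Matrix.diagonal L.ip)

/-- The curvature. -/
noncomputable def fo (c : Fin D) : Lam D := L.ph (L.de c)

theorem wt_jk : L.Wt L.jk where
  jj a := by rcases L.s_sq a with h | h <;> simp [jk, h]
  cl x b c := by
    have := L.ad_par x b c
    rcases L.s_sq x with a1 | a1 <;> rcases L.s_sq b with a2 | a2 <;>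
    rcases L.s_sq c with a3 | a3 <;> simp only [jk, a1, a2, a3] at * <;> linarith

theorem jk_ip (a : Fin D) : L.jk a * L.ip a = 0 := by
  rcases L.s_sq a with h | h <;> simp [jk, ip, h]

theorem fo_eq (c : Fin D) : L.fo c = (-1 / 2 : ℝ) • L.Om c := by
  simp only [fo, de, Om, map_smul, map_sum, map_mul, mp_diag_ge, smul_mul_smul_comm, smul_smul]
  exact congrArg _ (sum_congr rfl fun a _ => sum_congr rfl fun b _ => by rw [mul_comm])

theorem Om_eq (c : Fin D) : L.Om c = (-2 : ℝ) • L.fo c := by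
  rw [fo_eq, smul_smul]; norm_num

theorem jk_fo (c : Fin D) : L.jk c • L.fo c = L.fo c := by
  rw [fo_eq, smul_comm]
  simp only [Om, smul_sum, smul_smul]
  refine sum_congr rfl fun a _ => sum_congr rfl fun b _ => ?_
  congr 1
  have := L.ad_par a b c
  rcases L.s_sq a with a1 | a1 <;> rcases L.s_sq b with a2 | a2 <;>
  rcases L.s_sq c with a3 | a3 <;> simp only [jk, ip, a1, a2, a3] at * <;> linarith

theorem fo_comm (c : Fin D) (x : Lam D) : L.fo c * x = x * L.fo c := by
  simp only [fo_eq, Om, smul_mul_assoc, mul_smul_comm, sum_mul, mul_sum, ge_ge_comm]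

theorem ph_ph (x : Lam D) : L.ph (L.ph x) = L.ph x := by
  rw [← mp_mul, Matrix.diagonal_mul_diagonal]; simp only [ip_mul_ip]

theorem Bf_ph (x y : Lam D) : Bf (L.ph x) y = Bf x (L.ph y) := by
  have := lam_ext (Bf ∘ₗ L.ph.toLinearMap) (Bf.compl₂ L.ph.toLinearMap)
    (LinearMap.ext fun y => by
      have := lam_ext (aug : Lam D →ₐ[ℝ] ℝ).toLinearMap (aug.toLinearMap ∘ₗ L.ph.toLinearMap)
        (by simp) fun a x _ => by
          simp only [LinearMap.comp_apply, AlgHom.toLinearMap_apply, map_mul, mp_diag_ge, map_smul,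
            aug_ge, smul_zero, zero_mul]
      simpa [Bf_one] using LinearMap.congr_fun this y)
    fun b x hx => LinearMap.ext fun y => by
      have h1 := LinearMap.congr_fun hx (ii b y)
      simp only [LinearMap.comp_apply, LinearMap.compl₂_apply, AlgHom.toLinearMap_apply] at h1 ⊢
      rw [map_mul, mp_diag_ge, smul_mul_assoc, map_smul, LinearMap.smul_apply, Bf_ee, Bf_ee, h1,
        ii_mp_diag, map_smul]
  exact LinearMap.congr_fun₂ this x y

theorem ph_of_ii {y : Lam D} (hy : ∀ x, L.jk x • ii x y = 0) : L.ph y = y := by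
  let U : Submodule ℝ (Lam D) := ⨅ y : {y : Lam D // ∀ x, L.jk x • ii x y = 0},
    LinearMap.ker (Bf.flip y.1 ∘ₗ (1 - L.ph.toLinearMap))
  have hU : ∀ z, z ∈ U ↔ ∀ y : Lam D, (∀ x, L.jk x • ii x y = 0) → Bf (L.ph z) y = Bf z y := by
    intro z
    simp only [U, Submodule.mem_iInf, LinearMap.mem_ker, Subtype.forall, LinearMap.comp_apply,
      LinearMap.sub_apply, map_sub, sub_eq_zero]
    exact forall₂_congr fun _ _ => eq_comm
  refine Bf_ext fun z => ?_
  rw [← Bf_ph]
  refine (hU z).mp (lam_ind U ((hU 1).mpr fun _ _ => by simp) (fun c z hz => (hU _).mpr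
    fun y hy => ?_) z) y hy
  have h1 := (hU z).mp hz (ii c y) fun x => by
    have := LinearMap.congr_fun (osc_ei.yy x c) y
    simp only [Module.End.mul_apply, LinearMap.smul_apply] at this
    rw [this, smul_comm, ← map_smul, hy]; simp
  have h2 : L.ip c • ii c y = ii c y := by
    rw [← add_zero (_ • _), ← hy c, ← add_smul]
    simp only [ip, jk]; ring_nf; simp
  rw [map_mul, mp_diag_ge, smul_mul_assoc, map_smul, LinearMap.smul_apply, Bf_ee, Bf_ee,
    ← map_smul, h2, h1]

theorem jk_ii_ph (x : Fin D) (y : Lam D) : L.jk x • ii x (L.ph y) = 0 := by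
  rw [ii_mp_diag, smul_smul, jk_ip, zero_smul]

theorem ph_dL (y : Lam D) : L.ph (L.dL y) = ∑ a, L.jk a • (L.fo a * L.ph (ii a y)) := by
  have := lam_ext (L.ph.toLinearMap ∘ₗ L.dL)
    (∑ a, L.jk a • (ml (L.fo a) ∘ₗ L.ph.toLinearMap ∘ₗ ii a)) (by simp [dL_one, ii_one])
    fun c x hx => by
      simp only [LinearMap.comp_apply, AlgHom.toLinearMap_apply, LinearMap.sum_apply,
        LinearMap.smul_apply, ml_apply] at hx ⊢
      simp only [dL_ge_mul, map_sub, map_mul, hx, ii_mul, mul_sub, smul_sub, sum_sub_distrib,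
        mul_sum, mul_smul_comm, apply_ite L.ph, map_zero, mul_ite, mul_zero, smul_ite, smul_zero,
        sum_ite_eq', mem_univ, if_true, ← mul_assoc, fun a => L.fo_comm a (L.ph (ge c))]
      rw [← smul_mul_assoc, jk_fo, fo]
  simpa [ml_apply] using LinearMap.congr_fun this y

/-- The Chern-Weil homomorphism. -/
noncomputable def FA : SP D →ₐ[ℝ] Lam D := (Subalgebra.center ℝ (Lam D)).val.comp
  (MvPolynomial.aeval fun c => ⟨L.fo c, Subalgebra.mem_center_iff.mpr fun x => (L.fo_comm c x).symm⟩)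

theorem FA_X (c : Fin D) : L.FA (MvPolynomial.X c) = L.fo c := by simp [FA]

/-- Evaluation of the Cartan complex. -/
noncomputable def Phi : CC D →ₗ[ℝ] Lam D :=
  TensorProduct.lift ((LinearMap.mul ℝ (Lam D)).compl₁₂ L.FA.toLinearMap L.ph.toLinearMap)

theorem Phi_tm (p : SP D) (y : Lam D) : L.Phi (tm p y) = L.FA p * L.ph y := rfl

theorem Phi_DD (z : CC D) : L.Phi (L.DD L.jk z) = 0 := by
  have : L.Phi ∘ₗ L.DD L.jk = 0 := cc_ext fun p y => by
    simp only [DD, dlt, LinearMap.comp_apply, LinearMap.sub_apply, LinearMap.sum_apply,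
      LinearMap.smul_apply, Module.End.mul_apply, hat_tmul, til_tmul, map_sub, map_sum, map_smul,
      Phi_tm, ph_dL, vv_apply, map_mul, FA_X, mul_sum, mul_smul_comm, ← mul_assoc,
      fun a => L.fo_comm a (L.FA p), sub_self, LinearMap.zero_apply]
  exact LinearMap.congr_fun this z

theorem Phi_ms (p : SP D) (z : CC D) : L.Phi (til (ms p) z) = L.FA p * L.Phi z := by
  have : L.Phi ∘ₗ til (ms p) = ml (L.FA p) ∘ₗ L.Phi := cc_ext fun q y => by
    simp [Phi_tm, mul_assoc]
  exact LinearMap.congr_fun this z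

theorem ph_Phi (z : CC D) : L.ph (L.Phi z) = L.Phi z := by
  have h : L.ph.comp L.FA = L.FA := MvPolynomial.algHom_ext fun c => by simp [FA_X, fo, ph_ph]
  have : L.ph.toLinearMap ∘ₗ L.Phi = L.Phi := cc_ext fun p y => by
    simp only [LinearMap.comp_apply, AlgHom.toLinearMap_apply, Phi_tm, map_mul, ph_ph]
    rw [← AlgHom.comp_apply, h]
  exact LinearMap.congr_fun this z

theorem Phi_Tot {MS M : Mat D} (h1 : Matrix.diagonal L.ip * M = M * Matrix.diagonal L.ip)
    (h2 : ∀ a, Gm M (L.fo a) = ∑ b, MS b a • L.fo b) (z : CC D) :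
    L.Phi (Tot MS M z) = Gm M (L.Phi z) := by
  have h : ∀ p, L.FA (gam vv pp MS p) = Gm M (L.FA p) := by
    intro p
    induction p using MvPolynomial.induction_on with
    | C r =>
      rw [← MvPolynomial.algebraMap_eq, AlgHom.commutes, Gm_alg, Algebra.algebraMap_eq_smul_one,
        map_smul, gam_vp_one]; simp
    | add p q hp hq => simp only [map_add, hp, hq]
    | mul_X p a hp =>
      have := LinearMap.congr_fun (osc_vp.gam_x MS a) p
      simp only [Module.End.mul_apply, LinearMap.add_apply, LinearMap.sum_apply,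
        LinearMap.smul_apply, vv_apply] at this
      rw [mul_comm p, this]
      simp only [map_add, map_sum, map_smul, map_mul, FA_X, hp, Gm_mul, h2, sum_mul,
        smul_mul_assoc, add_comm]
  have : L.Phi ∘ₗ Tot MS M = Gm M ∘ₗ L.Phi := cc_ext fun p y => by
    simp only [Tot, LinearMap.comp_apply, LinearMap.add_apply, hat_tmul, til_tmul, map_add, Phi_tm,
      h, Gm_mul, mp_Gm h1]
  exact LinearMap.congr_fun this z

theorem diag_jk (x : Fin D) : Matrix.diagonal L.ip * (L.jk x • -(L.ad x)ᵀ) =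
    (L.jk x • -(L.ad x)ᵀ) * Matrix.diagonal L.ip := by
  ext b c
  have := L.ad_par x b c
  simp only [Matrix.diagonal_mul, Matrix.mul_diagonal, Matrix.smul_apply, Matrix.neg_apply,
    Matrix.transpose_apply, smul_eq_mul]
  rcases L.s_sq x with a1 | a1 <;> rcases L.s_sq b with a2 | a2 <;>
  rcases L.s_sq c with a3 | a3 <;> simp only [jk, ip, a1, a2, a3] at * <;> linarith

theorem ph_LL (x : Fin D) (y : Lam D) : L.jk x • L.LL x (L.ph y) = L.jk x • L.ph (L.LL x y) := by
  have := mp_Gm (L.diag_jk x) y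
  rw [Gm_smul_ad] at this
  simpa using this.symm

theorem ph_NN (y : Lam D) : NN (L.ph y) = L.ph (NN y) := (mp_Gm (by simp) y).symm

theorem Phi_Lt (x : Fin D) (z : CC D) : L.Phi (L.Lt L.jk x z) = L.jk x • L.LL x (L.Phi z) := by
  rw [Lt, L.Phi_Tot (L.diag_jk x), Gm_smul_ad, LinearMap.smul_apply]
  intro a
  have h1 := LinearMap.congr_fun (L.LL_dL x).eq (ge a)
  simp only [Module.End.mul_apply] at h1
  rw [Gm_smul_ad, LinearMap.smul_apply, fo, ph_LL, ← dL_ge, h1, LL, Gm_ge]
  simp only [map_sum, map_smul, dL_ge, smul_sum, smul_smul, MS, Matrix.of_apply]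
  refine sum_congr rfl fun b _ => ?_
  rw [← fo, ← jk_fo, smul_smul, smul_smul]
  congr 1
  have := L.wt_jk.jj b
  simp only [Matrix.neg_apply, Matrix.transpose_apply]
  linear_combination (L.jk x * L.ad x a b) * this

theorem Phi_Nt (z : CC D) : L.Phi (Nt z) = NN (L.Phi z) :=
  L.Phi_Tot (by simp) (fun a => by
    rw [show Gm 1 = NN from rfl, fo, ph_NN, NN_de, map_smul]
    simp [Matrix.one_apply, ite_smul, fo]) z

/-- Basic forms. -/
noncomputable def AA : Submodule ℝ (Lam D) :=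
  LinearMap.eqLocus L.ph.toLinearMap LinearMap.id ⊓ ⨅ x, LinearMap.ker (L.jk x • L.LL x)

theorem mem_AA {a : Lam D} : a ∈ L.AA ↔ L.ph a = a ∧ ∀ x, L.jk x • L.LL x a = 0 := by
  simp only [AA, Submodule.mem_inf, Submodule.mem_iInf, LinearMap.mem_ker, LinearMap.smul_apply]
  rfl

theorem dL_of_mem_AA {a : Lam D} (ha : a ∈ L.AA) : L.dL a = 0 := by
  obtain ⟨h1, h2⟩ := L.mem_AA.mp ha
  have h3 : ∀ x, L.jk x • ii x a = 0 := fun x => by rw [← h1, jk_ii_ph]
  rw [← L.ph_of_ii (y := L.dL a), ph_dL]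
  · exact sum_eq_zero fun x _ => by rw [← mul_smul_comm, ← map_smul, h3]; simp
  · intro x
    have := congrArg (fun T => L.jk x • T a) (L.dL_ii x)
    simp only [LinearMap.add_apply, Module.End.mul_apply, smul_add] at this
    rwa [← map_smul, h3, h2, map_zero, zero_add] at this

/-- The span of the products. -/
noncomputable def UA : Submodule ℝ (Lam D) := Submodule.span ℝ
  {y | ∃ (j : ℕ) (c : Fin j → Fin D), ∃ ξ ∈ L.H, y = (List.ofFn fun i => L.Om (c i)).prod * L.ph ξ}

theorem ph_mem_UA {ξ : Lam D} (h : ξ ∈ L.H) : L.ph ξ ∈ L.UA :=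
  Submodule.subset_span ⟨0, Fin.elim0, ξ, h, by simp⟩

theorem FA_mul_mem (p : SP D) : ∀ y ∈ L.UA, L.FA p * y ∈ L.UA := by
  induction p using MvPolynomial.induction_on with
  | C r =>
    intro y hy
    rw [← MvPolynomial.algebraMap_eq, AlgHom.commutes, ← Algebra.smul_def]
    exact L.UA.smul_mem _ hy
  | add p q hp hq => intro y hy; rw [map_add, add_mul]; exact L.UA.add_mem (hp y hy) (hq y hy)
  | mul_X p a hp =>
    intro y hy
    rw [map_mul, mul_assoc, FA_X, fo_eq, smul_mul_assoc]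
    refine hp _ (L.UA.smul_mem _ ?_)
    refine (Submodule.span_le (p := L.UA.comap (ml (L.Om a)))).mpr ?_ hy
    rintro _ ⟨j, c, ξ, hξ, rfl⟩
    exact Submodule.subset_span ⟨j + 1, Fin.cons a c, ξ, hξ, by simp [mul_assoc]⟩

theorem AA_le : ∀ a ∈ L.AA, a ∈ L.UA := by
  refine ctr_ind _ _ (fun a ha => ?_) (by simpa using L.ph_mem_UA (ξ := 1) (by
    simp [mem_H, LL, Gm_one])) fun n a ha hN ih => ?_
  · obtain ⟨h1, h2⟩ := L.mem_AA.mp ha
    refine L.mem_AA.mpr ⟨by rw [← ph_NN, h1], fun x => ?_⟩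
    rw [← Module.End.mul_apply, ← (L.NN_LL x).eq, Module.End.mul_apply, ← map_smul, h2, map_zero]
  obtain ⟨_, ⟨ξ, hξ, rfl⟩, h1, h2⟩ := orth_deg (L.H.map L.ph.toLinearMap) (by
    rintro _ ⟨ξ, hξ, rfl⟩
    exact ⟨NN ξ, L.H_stable L.NN_LL ξ hξ, (L.ph_NN ξ).symm⟩) hN
  have h3 : a - L.ph.toLinearMap ξ ∈ L.AA := L.AA.sub_mem ha (L.mem_AA.mpr ⟨L.ph_ph ξ, fun x => by
    rw [AlgHom.toLinearMap_apply, ph_LL, L.mem_H.mp hξ]; simp⟩)
  rw [← sub_add_cancel a (L.ph.toLinearMap ξ)]
  refine L.UA.add_mem ?_ (L.ph_mem_UA hξ)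
  generalize a - L.ph.toLinearMap ξ = b at *
  obtain ⟨h4, h5⟩ := L.mem_AA.mp h3
  have h6 : L.Pr b = 0 := L.Pr_eq_zero fun η hη => by
    rw [← h4, ← Bf_ph]; exact h1 _ ⟨η, hη, rfl⟩
  have h7 : L.DD L.jk (tm 1 b) = 0 := by
    simp only [DD, dlt, LinearMap.sub_apply, LinearMap.sum_apply, LinearMap.smul_apply,
      Module.End.mul_apply, hat_tmul, til_tmul, L.dL_of_mem_AA h3, map_zero, zero_sub, neg_eq_zero]
    exact sum_eq_zero fun x _ => by rw [← map_smul, ← h4, jk_ii_ph, map_zero]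
  have h8 := congrArg L.Phi (L.wt_jk.star (L.one_tmul_mem _ h5) h7)
  rw [map_add, Phi_DD, add_zero, map_add, hat_tmul, h6, map_zero, zero_add, Phi_tm, map_one,
    one_mul, h4] at h8
  rw [h8]
  refine Fil_map (ν := n) (L.Phi ∘ₗ L.XX L.jk ∘ₗ hat L.Pr) _ (fun p y μ hμ hy => ?_) _
    (Fil_dlt _ _ _ (L.XX_stable _ _ (fun z hz => Fil_hat L.NN_Kh (by simp) _ (Fil_dlt _ _ z hz)) _
      (Fil_hat (ν := n + 1) L.NN_Kh (by simp) _ (tm_mem_Fil 1 le_rfl h2))))
  have e : tm p (L.Pr y) = til (ms p) (tm 1 (L.Pr y)) := by simp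
  simp only [LinearMap.comp_apply, hat_tmul]
  rw [e, ← Module.End.mul_apply, (L.XX_ms _ p).eq, Module.End.mul_apply, Phi_ms]
  refine L.FA_mul_mem p _ (ih μ hμ _ (L.mem_AA.mpr ⟨L.ph_Phi _, fun x => ?_⟩) ?_)
  · rw [← Phi_Lt, (L.mem_Inv _).mp (L.wt_jk.inv_XX _ (L.one_tmul_mem _ fun x => by
      rw [L.mem_H.mp (L.Pr_mem y), smul_zero])), map_zero]
  · have h9 := eig_shift (Sh.of_commute (L.commute_Pr (L.commute_Cas L.NN_LL))) hy
    rw [← Phi_Nt, eig_shift (L.Nt_XX _) (μ := μ) (by rw [Nt_one, h9, add_zero, map_smul]),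
      add_zero, map_smul]

end LData

end Pool.Agent.Lib.MP_cdc9ab_al
end

-- part Pool.Agent.Lib.MP_cdc9ab_al.Gen6
section

open scoped Matrix.Norms.Operator ContDiff Matrix
open Finset Function

namespace Pool.Agent.Lib.MP_cdc9ab_al

variable {D n : ℕ}

/-- Matrices on the tensor power. -/
abbrev MT (n D : ℕ) : Type := Matrix (Fin n → Fin D) (Fin n → Fin D) ℝ

/-- Tensor products of matrices. -/
noncomputable def tens : (Fin n → Mat D) →* MT n D where
  toFun M := Matrix.of fun i j => ∏ l, M l (i l) (j l)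
  map_one' := by
    ext i j
    simp [Matrix.one_apply, prod_ite_zero, funext_iff]
  map_mul' M N := by
    ext i j
    simp [Matrix.mul_apply, prod_univ_sum, prod_mul_distrib]

theorem tens_apply (M : Fin n → Mat D) (i j) : tens M i j = ∏ l, M l (i l) (j l) := rfl

theorem tens_transp (M : Fin n → Mat D) : tens (fun l => (M l)ᵀ) = (tens M)ᵀ := rfl

theorem trace_tens (M : Fin n → Mat D) : (tens M).trace = ∏ l, (M l).trace := by
  simp [Matrix.trace, tens_apply, prod_univ_sum]

theorem tens_update (B : Fin n → Mat D) (l : Fin n) (A : Mat D) (i j) :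
    tens (update B l A) i j = A (i l) (j l) * ∏ m ∈ univ.erase l, B m (i m) (j m) := by
  rw [tens_apply, ← mul_prod_erase _ _ (mem_univ l), update_self]
  exact congrArg _ (prod_congr rfl fun m hm => by rw [update_of_ne (ne_of_mem_erase hm)])

/-- Linearity in one slot. -/
noncomputable def updL (B : Fin n → Mat D) (l : Fin n) : Mat D →ₗ[ℝ] MT n D where
  toFun A := tens (update B l A)
  map_add' A A' := by ext i j; simp [tens_update, add_mul]
  map_smul' r A := by ext i j; simp [tens_update, mul_assoc]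

/-- The action on one slot. -/
noncomputable def slot (l : Fin n) : Mat D →ₐ[ℝ] MT n D :=
  AlgHom.ofLinearMap (updL 1 l) (by simp [updL]) fun A B => by
    change tens (Pi.mulSingle l (A * B)) = tens (Pi.mulSingle l A) * tens (Pi.mulSingle l B)
    rw [Pi.mulSingle_mul, map_mul]

theorem slot_apply (l : Fin n) (A : Mat D) : slot l A = tens (Pi.mulSingle l A) := rfl

theorem slot_comm {l m : Fin n} (h : l ≠ m) (A B : Mat D) : Commute (slot l A) (slot m B) :=
  (Pi.mulSingle_commute (f := fun _ => Mat D) h A B).map tens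

/-- The infinitesimal action on the tensor power. -/
noncomputable def TT (n : ℕ) : Mat D →ₗ[ℝ] MT n D := ∑ l, (slot l).toLinearMap

theorem TT_apply (A : Mat D) : TT n A = ∑ l, slot l A := by simp [TT]

theorem TT_lie (A B : Mat D) : TT n A * TT n B - TT n B * TT n A = TT n (A * B - B * A) := by
  simp only [TT_apply, sum_mul_sum]
  rw [sum_comm (f := fun l m => slot l B * slot m A), ← sum_sub_distrib]
  refine sum_congr rfl fun l _ => ?_
  rw [← sum_sub_distrib, sum_eq_single l (fun m _ h => by rw [(slot_comm h B A).eq, sub_self])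
    (by simp), map_sub, map_mul, map_mul]

theorem exp_TT (A : Mat D) : tens (fun _ => NormedSpace.exp A) = NormedSpace.exp (TT n A) := by
  have h : ∀ s : Finset (Fin n), NormedSpace.exp (∑ l ∈ s, slot l A) =
      tens fun l => if l ∈ s then NormedSpace.exp A else 1 := by
    intro s
    induction s using Finset.induction_on with
    | empty => rw [sum_empty, NormedSpace.exp_zero]; exact (map_one tens).symm
    | insert a s ha ih =>
      have h1 : slot a (NormedSpace.exp A) = NormedSpace.exp (slot a A) :=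
        NormedSpace.map_exp (slot a) (slot a).toLinearMap.continuous_of_finiteDimensional A
      rw [sum_insert ha, Matrix.exp_add_of_commute _ _ (Commute.sum_right _ _ _ fun l hl =>
        slot_comm (by rintro rfl; exact ha hl) A A), ih, ← h1, slot_apply, ← map_mul]
      congr 1
      funext l
      by_cases h : l = a
      · subst h; simp [ha]
      · simp [h]
  simpa [TT_apply] using (h univ).symm

/-- Matrix entries. -/
noncomputable def ent (a b : Fin D) : Mat D →L[ℝ] ℝ :=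
  LinearMap.toContinuousLinearMap (Matrix.entryLinearMap ℝ ℝ a b)

/-- The tensor power representation. -/
noncomputable def rep (n D : ℕ) : Rep D where
  ι := Fin n → Fin D
  fin := inferInstance
  dec := inferInstance
  ρ g := tens fun _ => g
  T := TT n
  ρ_one := map_one tens
  ρ_mul g h := map_mul tens (fun _ => g) fun _ => h
  ρ_transp _ := rfl
  T_transp A := by
    simp only [TT_apply, Matrix.transpose_sum, slot_apply, ← tens_transp]
    refine sum_congr rfl fun l _ => congrArg _ (funext fun m => ?_)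
    by_cases h : m = l
    · subst h; simp
    · simp [h]
  exp := exp_TT
  smooth i j := contDiff_prod (t := univ) (f := fun l => ent (i l) (j l))
    fun l _ => (ent (i l) (j l)).contDiff
  deriv i j A := by
    have := HasFDerivAt.finsetProd (u := univ) (x := (1 : Mat D))
      fun l _ => (ent (i l) (j l)).hasFDerivAt
    refine (congrArg (fun T => T A) this.fderiv).trans ?_
    simp only [TT_apply, _root_.sum_apply, Matrix.sum_apply]
    refine sum_congr rfl fun l _ => ?_
    change _ = tens (update 1 l A) i j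
    rw [tens_update, mul_comm]; rfl

theorem prod_ofFn_single {R : Type} [Monoid R] (f : Fin n → R) (i : Fin n)
    (h : ∀ j, j ≠ i → f j = 1) : (List.ofFn f).prod = f i := by
  induction n with
  | zero => exact i.elim0
  | succ n ih =>
    rw [List.ofFn_succ, List.prod_cons]
    cases i using Fin.cases with
    | zero =>
      rw [List.prod_eq_one fun x hx => ?_, mul_one]
      obtain ⟨j, rfl⟩ := List.mem_ofFn.mp hx
      exact h _ (Fin.succ_ne_zero j)
    | succ i =>
      rw [h 0 (Fin.succ_ne_zero i).symm, one_mul]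
      exact ih _ i fun j hj => h _ fun e => hj (Fin.succ_injective _ e)

section theta
variable {I : Type} [Fintype I] [DecidableEq I]

/-- Scalar matrices. -/
noncomputable abbrev sc : Lam D →ₐ[ℝ] Matrix I I (Lam D) := Matrix.scalarAlgHom I ℝ

/-- Constant matrices. -/
noncomputable abbrev mm : Matrix I I ℝ →ₐ[ℝ] Matrix I I (Lam D) := (Algebra.ofId ℝ (Lam D)).mapMatrix

theorem sc_mm (y : Lam D) (M : Matrix I I ℝ) : Commute (sc y) (mm M) := by
  ext i j
  simp [Algebra.ofId_apply, Algebra.commutes]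

theorem trace_sc_mm (y : Lam D) (M : Matrix I I ℝ) : (sc y * mm M).trace = M.trace • y := by
  simp [Matrix.trace, Algebra.ofId_apply, Algebra.smul_def, ← Algebra.commutes, sum_mul]

theorem tau_prod (A : Matrix I I ℝ) (T : Fin D → Matrix I I ℝ) (G : Fin n → Fin D → Lam D) :
    (mm A * (List.ofFn fun i => ∑ a, sc (G i a) * mm (T a)).prod).trace =
      ∑ c : Fin n → Fin D, (A * (List.ofFn fun i => T (c i)).prod).trace •
        (List.ofFn fun i => G i (c i)).prod := by
  rw [prod_ofFn_sum, mul_sum, Matrix.trace_sum]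
  refine sum_congr rfl fun c _ => ?_
  rw [prod_ofFn_mul _ _ fun _ _ => sc_mm _ _, ← trace_sc_mm, map_mul, ← mul_assoc (sc _),
    (sc_mm _ A).eq, mul_assoc, map_list_prod, map_list_prod, List.map_ofFn, List.map_ofFn]
  rfl

end theta

namespace LData
variable (L : LData D)

/-- One generator followed by differentials of generators. -/
noncomputable def GG (k : ℕ) : Fin (k + 1) → Fin D → Lam D := Fin.cons ge fun _ => L.de

/-- The corresponding products. -/
noncomputable def gw {k : ℕ} (c : Fin (k + 1) → Fin D) : Lam D :=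
  (List.ofFn fun i => L.GG k i (c i)).prod

theorem theta {I : Type} [Fintype I] [DecidableEq I] (A : Matrix I I ℝ) (T : Fin D → Matrix I I ℝ)
    (hT : ∀ a b, T a * T b - T b * T a = ∑ c, L.ad a c b • T c) (k : ℕ) :
    ∑ c : Fin (2 * k + 1) → Fin D, (A * (List.ofFn fun i => T (c i)).prod).trace •
        (List.ofFn fun i => ge (c i)).prod =
      (-1 : ℝ) ^ k • ∑ c : Fin (k + 1) → Fin D,
        (A * (List.ofFn fun i => T (c i)).prod).trace • L.gw c := by
  have h1 : (∑ a, sc (ge a) * mm (T a)) ^ 2 = (-1 : ℝ) • ∑ a, sc (L.de a) * mm (T a) := by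
    have h2 : ∀ a b, sc (ge a) * mm (T a) * (sc (ge b) * mm (T b)) =
        (1 / 2 : ℝ) • (sc (ge a * ge b) * mm (T a * T b + T b * T a)) +
        (1 / 2 : ℝ) • (sc (ge a * ge b) * mm (T a * T b - T b * T a)) := fun a b => by
      rw [mul_assoc, ← mul_assoc (mm _), ← (sc_mm _ _).eq, ← smul_add, ← mul_add, ← map_add,
        add_add_sub_cancel, ← two_smul ℝ, map_smul, mul_smul_comm, smul_smul, map_mul, map_mul]
      simp only [mul_assoc, one_div, ne_eq, OfNat.ofNat_ne_zero, not_false_eq_true, inv_mul_cancel₀,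
        one_smul]
    rw [sq, sum_mul_sum]
    simp only [h2, sum_add_distrib]
    rw [anti_sum _ fun a b => by rw [io_anti, add_comm, map_neg, neg_mul, smul_neg], zero_add]
    simp only [hT, de, map_sum, map_smul, mul_sum, sum_mul, smul_sum, mul_smul_comm,
      smul_mul_assoc, smul_smul]
    conv_rhs => rw [sum_comm]; enter [2, a]; rw [sum_comm]
    refine sum_congr rfl fun a _ => sum_congr rfl fun b _ => sum_congr rfl fun c _ => ?_
    congr 1; ring
  simp only [gw]
  rw [← tau_prod A T fun _ => ge, ← tau_prod A T (L.GG k), List.ofFn_const,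
    List.prod_replicate, List.ofFn_succ, List.prod_cons, pow_succ', pow_mul, h1, smul_pow,
    mul_smul_comm, mul_smul_comm, Matrix.trace_smul]
  simp [GG]

theorem trForm_eq (R : Rep D) (A : Matrix R.ι R.ι ℝ) (n : ℕ) : L.trForm R A n =
    L.ph (∑ c : Fin n → Fin D, (A * (List.ofFn fun i => R.T (L.ad (c i))).prod).trace •
      (List.ofFn fun i => ge (c i)).prod) := by
  simp only [trForm, wsum, Y, map_smul, map_sum, map_list_prod, List.map_ofFn, comp_def,
    mp_diag_ge, prod_ofFn_smul, mul_smul_comm, Matrix.trace_smul, smul_smul, smul_eq_mul,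
    mul_comm]

/-- The intertwiner attached to a tensor. -/
noncomputable def A0 (t : (Fin n → Fin D) → ℝ) : MT n D := ∑ a, t a • tens fun l => (L.ad (a l))ᵀ

theorem trace_A0 (t : (Fin n → Fin D) → ℝ) (hs : ∀ (σ : Equiv.Perm (Fin n)) a, t (a ∘ σ) = t a) :
    ∃ N : ℝ, N ≠ 0 ∧ ∀ c : Fin n → Fin D,
      (L.A0 t * (List.ofFn fun i => TT n (L.ad (c i))).prod).trace = N * t c := by
  classical
  refine ⟨(univ.filter fun σ : Fin n → Fin n => Surjective σ).card,
    Nat.cast_ne_zero.mpr (card_ne_zero.mpr ⟨id, by simp [surjective_id]⟩), fun c => ?_⟩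
  simp only [TT_apply, prod_ofFn_sum, mul_sum, Matrix.trace_sum]
  rw [← nsmul_eq_mul, ← sum_const, sum_filter]
  refine sum_congr rfl fun σ _ => ?_
  have h1 : (List.ofFn fun i => slot (σ i) (L.ad (c i))).prod = tens fun l =>
      (List.ofFn fun i => (Pi.mulSingle (σ i) (L.ad (c i)) : Fin n → Mat D) l).prod := by
    have := map_list_prod tens (List.ofFn fun i => Pi.mulSingle (σ i) (L.ad (c i)))
    rw [List.map_ofFn] at this
    refine this.symm.trans (congrArg _ (funext fun l => ?_))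
    rw [Pi.list_prod_apply, List.map_ofFn]; rfl
  simp only [h1, A0, sum_mul, smul_mul_assoc, ← map_mul, Matrix.trace_sum, Matrix.trace_smul,
    trace_tens, Pi.mul_apply, smul_eq_mul]
  split_ifs with h
  · let e := Equiv.ofBijective σ (Finite.surjective_iff_bijective.mp h)
    have h2 : ∀ l, (List.ofFn fun i => (Pi.mulSingle (σ i) (L.ad (c i)) : Fin n → Mat D) l).prod =
        L.ad (c (e.symm l)) := fun l => by
      obtain ⟨i, rfl⟩ := e.surjective l
      rw [prod_ofFn_single _ i fun j hj => Pi.mulSingle_eq_of_ne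
        (fun h => hj (e.injective h).symm) _, e.symm_apply_apply]
      exact Pi.mulSingle_eq_same _ _
    simp only [h2, Matrix.trace_mul_comm (_ : Mat D)ᵀ, L.orth, prod_ite_zero, prod_const_one,
      mem_univ, forall_const, ← funext_iff, mul_ite, mul_one, mul_zero]
    rw [← hs e.symm c]
    exact (sum_ite_eq _ _ _).trans (if_pos (mem_univ _))
  · simp only [Surjective, not_forall, not_exists] at h
    obtain ⟨l, hl⟩ := h
    refine sum_eq_zero fun a _ => mul_eq_zero_of_right _ (prod_eq_zero (mem_univ l) ?_)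
    rw [List.prod_eq_one fun x hx => ?_, mul_one, Matrix.trace_transpose, ← adv_single, trace_adv]
    obtain ⟨i, rfl⟩ := List.mem_ofFn.mp hx
    exact Pi.mulSingle_eq_of_ne (fun h => hl i h.symm) _

theorem A0_comm (t : (Fin n → Fin D) → ℝ)
    (hi : ∀ x a, ∑ m, ∑ c, L.ad x c (a m) * t (update a m c) = 0) (v : Fin D → ℝ) :
    L.A0 t * TT n (L.adv v) = TT n (L.adv v) * L.A0 t := by
  suffices h : ∀ x, L.A0 t * TT n (L.ad x)ᵀ = TT n (L.ad x)ᵀ * L.A0 t by
    rw [L.adv_eq_transpose v, adv]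
    simp only [Matrix.transpose_sum, Matrix.transpose_smul, map_sum, map_smul, mul_sum, sum_mul,
      mul_smul_comm, smul_mul_assoc, h]
  intro x
  have h1 : ∀ (a : Fin n → Fin D) m, (tens fun l => (L.ad (a l))ᵀ) * slot m (L.ad x)ᵀ -
      slot m (L.ad x)ᵀ * (tens fun l => (L.ad (a l))ᵀ) =
      ∑ c, L.ad x c (a m) • tens fun l => (L.ad (update a m c l))ᵀ := by
    intro a m
    have h2 := congrArg (fun A => updL (fun l => (L.ad (a l))ᵀ) m Aᵀ) (L.jac x (a m))
    simp only [Matrix.transpose_sub, Matrix.transpose_mul, Matrix.transpose_sum,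
      Matrix.transpose_smul, map_sub, map_sum, map_smul] at h2
    have e1 : ∀ (B : Fin n → Mat D) A, B * Pi.mulSingle m A = update B m (B m * A) := fun B A =>
      funext fun l => by by_cases h : l = m <;> simp [h]
    have e2 : ∀ (B : Fin n → Mat D) A, Pi.mulSingle m A * B = update B m (A * B m) := fun B A =>
      funext fun l => by by_cases h : l = m <;> simp [h]
    have e3 : ∀ c, (fun l => (L.ad (update a m c l))ᵀ) =
        update (fun l => (L.ad (a l))ᵀ) m (L.ad c)ᵀ := fun c =>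
      funext fun l => by by_cases h : l = m <;> simp [h]
    rw [slot_apply, ← map_mul, ← map_mul, e1, e2]
    simp only [e3]
    exact h2
  have h3 : ∀ m, ∑ a, ∑ c, (t a * L.ad x c (a m)) • tens (fun l => (L.ad (update a m c l))ᵀ) =
      ∑ a, (∑ c, L.ad x (a m) c * t (update a m c)) • tens fun l => (L.ad (a l))ᵀ := by
    intro m
    simp only [sum_smul]
    have hinv : Involutive fun p : (Fin n → Fin D) × Fin D => (update p.1 m p.2, p.1 m) :=
      fun p => by simp
    rw [← sum_product', ← sum_product', univ_product_univ]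
    exact Fintype.sum_bijective _ hinv.bijective _ _ fun p => by simp [mul_comm]
  rw [← sub_eq_zero, A0, sum_mul, mul_sum, ← sum_sub_distrib]
  simp only [smul_mul_assoc, mul_smul_comm, ← smul_sub]
  simp only [TT_apply, sum_mul, mul_sum, ← sum_sub_distrib, h1, smul_sum, smul_smul]
  rw [sum_comm]
  simp only [h3]
  rw [sum_comm]
  refine sum_eq_zero fun a _ => ?_
  simp only [← sum_smul, L.ad_swap x (a _), mul_assoc, ← mul_sum, hi, mul_zero, zero_smul]

theorem trForm_theta (R : Rep D) (A : Matrix R.ι R.ι ℝ) (hT : ∀ X Y, R.T X * R.T Y - R.T Y * R.T X =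
    R.T (X * Y - Y * X)) (k : ℕ) (t : (Fin (k + 1) → Fin D) → ℝ) (N : ℝ)
    (h : ∀ c : Fin (k + 1) → Fin D, (A * (List.ofFn fun i => R.T (L.ad (c i))).prod).trace = N * t c) :
    L.trForm R A (2 * k + 1) = ((-1) ^ k * N) • L.ph (∑ c, t c • L.gw c) := by
  rw [trForm_eq, L.theta A (fun a => R.T (L.ad a)) (fun a b =>
    (hT _ _).trans (by rw [L.jac, map_sum]; simp only [map_smul])) k]
  simp only [h, mul_smul, ← smul_sum, map_smul]

theorem ph_gw_mem (S : Subalgebra ℝ (Lam D))
    (htr : ∀ (R : Rep D) (A : Matrix R.ι R.ι ℝ) (k : ℕ), 1 ≤ k →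
      (∀ x, A * R.T (L.adv x) = R.T (L.adv x) * A) → L.trForm R A (2 * k + 1) ∈ S)
    (k : ℕ) (hk : 1 ≤ k) (t : (Fin (k + 1) → Fin D) → ℝ)
    (hs : ∀ (σ : Equiv.Perm (Fin (k + 1))) a, t (a ∘ σ) = t a)
    (hi : ∀ x a, ∑ m, ∑ c, L.ad x c (a m) * t (update a m c) = 0) :
    L.ph (∑ c, t c • L.gw c) ∈ S := by
  obtain ⟨N, hN, h2⟩ := L.trace_A0 t hs
  have h1 := htr (rep (k + 1) D) (L.A0 t) k hk (L.A0_comm t hi)
  replace h1 := L.trForm_theta (rep (k + 1) D) (L.A0 t) TT_lie k t N h2 ▸ h1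
  have h4 := S.smul_mem h1 ((-1) ^ k * N)⁻¹
  rwa [smul_smul, inv_mul_cancel₀ (by positivity), one_smul] at h4

end LData

end Pool.Agent.Lib.MP_cdc9ab_al
end
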