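import Mathlib
import Pool.Agent.Lib.MP_cdc9ab_al.Param

-- part Pool.Agent.Lib.MP_cdc9ab_al.Defs
section

open scoped Matrix.Norms.Operator ContDiff Matrix
open Finset

namespace Pool.Agent.Lib.MP_cdc9ab_al

/-- The real exterior algebra. -/
abbrev Ext (V : Type) [AddCommGroup V] [Module ℝ V] : Type := ExteriorAlgebra ℝ V

section norm
variable (V : Type) [AddCommGroup V] [Module ℝ V] [FiniteDimensional ℝ V]

scoped instance extFinite : FiniteDimensional ℝ (Ext V) :=
  Module.Finite.of_basis (Module.finBasis ℝ V).ExteriorAlgebra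

noncomputable scoped instance extNormedRing : NormedRing (Ext V) :=
  NormedRing.induced (Ext V) _ (Algebra.leftMulMatrix (Module.finBasis ℝ (Ext V)))
    (Algebra.leftMulMatrix_injective _)

noncomputable scoped instance extNormedAlgebra : NormedAlgebra ℝ (Ext V) :=
  NormedAlgebra.induced ℝ (Ext V) _ (Algebra.leftMulMatrix (Module.finBasis ℝ (Ext V)))

scoped instance extComplete : CompleteSpace (Ext V) := FiniteDimensional.complete ℝ _

end norm

section forms
variable {V : Type} [AddCommGroup V] [Module ℝ V]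

/-- Degree one elements. -/
noncomputable abbrev io (v : V) : Ext V := ExteriorAlgebra.ι ℝ v

/-- The scalar part. -/
noncomputable abbrev aug : Ext V →ₐ[ℝ] ℝ := ExteriorAlgebra.algebraMapInv

/-- Contraction. -/
noncomputable abbrev ctr (φ : Module.Dual ℝ V) : Ext V →ₗ[ℝ] Ext V :=
  CliffordAlgebra.contractLeft φ

/-- Iterated contraction, the first functional being applied last. -/
noncomputable def ctrs : (n : ℕ) → (Fin n → Module.Dual ℝ V) → Ext V →ₗ[ℝ] Ext V
  | 0, _ => LinearMap.id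
  | n + 1, φ => ctr (φ 0) ∘ₗ ctrs n (Fin.tail φ)

/-- The value (up to a sign depending on `n`) of a form on `n` vectors. -/
noncomputable def evalForm {X : Type} [AddCommGroup X] [Module ℝ X] {n : ℕ}
    (x : Ext (Module.Dual ℝ X)) (v : Fin n → X) : ℝ :=
  aug (ctrs n (fun i => Module.Dual.eval ℝ X (v i)) x)

/-- Sum over words. -/
noncomputable def wsum {I : Type} [Fintype I] {n : ℕ} (β : I → V) (c : (Fin n → I) → ℝ) : Ext V :=
  ∑ a : Fin n → I, c a • (List.ofFn fun i => io (β (a i))).prod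

variable [FiniteDimensional ℝ V] {X : Type} [NormedAddCommGroup X] [NormedSpace ℝ X]
  {I : Type} [Fintype I]

/-- Exterior derivative with respect to a frame `(β i, b i)`. -/
noncomputable def dd (β : I → V) (b : I → X) (w : X → Ext V) (x : X) : Ext V :=
  ∑ i, io (β i) * fderiv ℝ w x (b i)

/-- The van Est derivative: differentiate the slots `0, …, p - 1` one after the other at `y`. -/
noncomputable def mixR (β : I → V) (b : I → X) (y : X) :
    (p : ℕ) → ((Fin (p + 1) → X) → Ext V) → Ext V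
  | 0, Φ => Φ (fun _ => y)
  | p + 1, Φ => mixR β b y p (fun h => dd β b (fun z => Φ (Fin.cons z h)) y)

end forms

section canon
variable {X Y : Type} [NormedAddCommGroup X] [NormedSpace ℝ X] [FiniteDimensional ℝ X]

/-- A fixed basis. -/
noncomputable def fb (X : Type) [NormedAddCommGroup X] [NormedSpace ℝ X] [FiniteDimensional ℝ X] :
    Fin (Module.finrank ℝ X) → X := Module.finBasis ℝ X

/-- The dual basis. -/
noncomputable def fc (X : Type) [NormedAddCommGroup X] [NormedSpace ℝ X] [FiniteDimensional ℝ X] :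
    Fin (Module.finrank ℝ X) → Module.Dual ℝ X := (Module.finBasis ℝ X).coord

/-- The exterior derivative of differential forms on `X`. -/
noncomputable def dX (w : X → Ext (Module.Dual ℝ X)) (x : X) : Ext (Module.Dual ℝ X) :=
  dd (fc X) (fb X) w x

/-- Pull back of forms along a linear map. -/
noncomputable def pull {X Y : Type} [AddCommGroup X] [Module ℝ X] [AddCommGroup Y] [Module ℝ Y]
    (A : X →ₗ[ℝ] Y) : Ext (Module.Dual ℝ Y) →ₐ[ℝ] Ext (Module.Dual ℝ X) :=
  ExteriorAlgebra.map A.dualMap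

/-- Restriction of covectors to a frame. -/
noncomputable def resFr {X I : Type} [AddCommGroup X] [Module ℝ X] (b : I → X) :
    Module.Dual ℝ X →ₗ[ℝ] (I → ℝ) :=
  LinearMap.pi fun i => Module.Dual.eval ℝ X (b i)

end canon

/-- Simplicial coboundary. -/
def cob {X A : Type} [AddCommGroup A] [Module ℝ A] {p : ℕ} (c : (Fin p → X) → A)
    (h : Fin (p + 1) → X) : A :=
  ∑ i : Fin (p + 1), (-1 : ℝ) ^ (i : ℕ) • c (h ∘ i.succAbove)

/-- The iterated cone parametrisation of a linear simplex by a cube. -/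
noncomputable def conePt {X : Type} [AddCommGroup X] [Module ℝ X] :
    (p : ℕ) → (Fin p → X) → X → (Fin p → ℝ) → X
  | 0, _, y, _ => y
  | p + 1, h, y, s => conePt p (Fin.tail h) (h 0 + s 0 • (y - h 0)) (Fin.tail s)

/-- Smooth bounded invariant cocycles on the set `P`. -/
structure IsBCoc {X : Type} [NormedAddCommGroup X] [NormedSpace ℝ X] (P : Set X)
    (G : Set (X →L[ℝ] X)) {n : ℕ} (f : (Fin (n + 1) → X) → ℝ) : Prop where
  smooth : ∀ h, (∀ i, h i ∈ P) → ContDiffAt ℝ ∞ f h
  coc : ∀ h : Fin (n + 2) → X, (∀ i, h i ∈ P) → cob f h = 0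
  inv : ∀ A ∈ G, ∀ h, (∀ i, h i ∈ P) → f (fun i => A (h i)) = f h
  bdd : ∃ C : ℝ, ∀ h, (∀ i, h i ∈ P) → |f h| ≤ C

/-- Real square matrices. -/
abbrev Mat (D : ℕ) : Type := Matrix (Fin D) (Fin D) ℝ

/-- Matrices with positive definite symmetric part. -/
def Pos (D : ℕ) : Set (Mat D) := {h | ∀ v : Fin D → ℝ, v ≠ 0 → 0 < v ⬝ᵥ h *ᵥ v}

/-- The map `h ↦ gᵀ h g`. -/
noncomputable def act {D : ℕ} (g : Mat D) : Mat D →L[ℝ] Mat D :=
  ContinuousLinearMap.mulLeftRight ℝ (Mat D) gᵀ g

/-- A semisimple Lie algebra in a basis adapted to a Cartan decomposition: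
`s a = 1` on `p`, `s a = -1` on `k`. -/
structure LData (D : ℕ) where
  ad : Fin D → Mat D
  s : Fin D → ℝ
  s_sq : ∀ a, s a = 1 ∨ s a = -1
  jac : ∀ a b, ad a * ad b - ad b * ad a = ∑ c, ad a c b • ad c
  anti : ∀ a b c, ad a c b = -ad b c a
  transp : ∀ a, (ad a)ᵀ = s a • ad a
  orth : ∀ a b, (ad a * (ad b)ᵀ).trace = if a = b then 1 else 0

namespace LData
variable {D : ℕ} (L : LData D)

/-- The adjoint representation. -/
noncomputable def adv (x : Fin D → ℝ) : Mat D := ∑ a, x a • L.ad a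

/-- Automorphisms of the Lie algebra. -/
def Aut (g : Mat D) : Prop := IsUnit g ∧ ∀ x, g * L.adv x = L.adv (g *ᵥ x) * g

/-- The adjoint group. -/
def Gam : Submonoid (Mat D) :=
  Submonoid.closure (Set.range fun x => NormedSpace.exp (L.adv x))

/-- The orthogonal elements of the adjoint group. -/
def K : Set (Mat D) := {k | k ∈ L.Gam ∧ kᵀ * k = 1}

/-- The adjoint group is closed. -/
def Proper : Prop := ∀ R : ℝ, IsCompact {g : Mat D | g ∈ L.Gam ∧ ∀ i j, |g i j| ≤ R}

/-- Indicator of `p`. -/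
noncomputable def ip (a : Fin D) : ℝ := (1 + L.s a) / 2

/-- The frame of `p` (zero on `k`). -/
noncomputable def Y (a : Fin D) : Mat D := L.ip a • L.ad a

/-- The action of the adjoint group on matrices. -/
def acts : Set (Mat D →L[ℝ] Mat D) := act '' (L.Gam : Set (Mat D))

end LData

/-- The coordinate covectors. -/
def eb {D : ℕ} (a : Fin D) : Fin D → ℝ := Pi.single a 1

namespace LData
variable {D : ℕ} (L : LData D)

/-- Classes of bounded cocycles. -/
def Good (n : ℕ) (x : Ext (Fin D → ℝ)) : Prop :=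
  ∃ f : (Fin (n + 1) → Mat D) → ℝ, IsBCoc (Pos D) L.acts f ∧
    mixR eb L.Y 1 n (fun h => algebraMap ℝ _ (f h)) = x

/-- The curvature forms. -/
noncomputable def Om (c : Fin D) : Ext (Fin D → ℝ) :=
  ∑ a, ∑ b, (L.ip a * L.ip b * L.ad a c b) • (io (eb a) * io (eb b))

/-- Chern-Weil forms. -/
noncomputable def CW {j : ℕ} (t : (Fin j → Fin D) → ℝ) : Ext (Fin D → ℝ) :=
  ∑ a : Fin j → Fin D, t a • (List.ofFn fun i => L.Om (a i)).prod

/-- Invariant tensors. -/
def KInv {j : ℕ} (t : (Fin j → Fin D) → ℝ) : Prop :=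
  ∀ k ∈ L.K, ∀ a, ∑ b : Fin j → Fin D, (∏ i, k (a i) (b i)) * t b = t a

end LData

/-- The equivariant choice of a minimal frame. -/
structure Retr {D : ℕ} (L : LData D) where
  q : Mat D → Mat D
  smooth : ∀ h ∈ Pos D, ContDiffAt ℝ ∞ q h
  mem : ∀ h ∈ Pos D, q h ∈ L.Gam
  symm : ∀ h ∈ Pos D, (q h)ᵀ = q h
  pos : ∀ h ∈ Pos D, q h ∈ Pos D
  moment : ∀ h ∈ Pos D, ∀ a, (L.Y a * (q h * h * q h)).trace = 0
  equiv : ∀ g ∈ L.Gam, ∀ h ∈ Pos D, ∃ k ∈ L.K, g * q (act g h) = q h * k
  one : q 1 = 1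

/-- Polynomial representations of the matrix monoid. -/
structure Rep (D : ℕ) where
  ι : Type
  fin : Fintype ι
  dec : DecidableEq ι
  ρ : Mat D → Matrix ι ι ℝ
  T : Mat D →ₗ[ℝ] Matrix ι ι ℝ
  ρ_one : ρ 1 = 1
  ρ_mul : ∀ g h, ρ (g * h) = ρ g * ρ h
  ρ_transp : ∀ g, ρ gᵀ = (ρ g)ᵀ
  T_transp : ∀ A, T Aᵀ = (T A)ᵀ
  exp : ∀ A, ρ (NormedSpace.exp A) = NormedSpace.exp (T A)
  smooth : ∀ i j, ContDiff ℝ ∞ fun g => ρ g i j
  deriv : ∀ i j A, fderiv ℝ (fun g => ρ g i j) 1 A = T A i j

attribute [instance] Rep.fin Rep.dec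

/-- Trace forms on `p`. -/
noncomputable def LData.trForm {D : ℕ} (L : LData D) (R : Rep D) (A : Matrix R.ι R.ι ℝ) (n : ℕ) :
    Ext (Fin D → ℝ) :=
  wsum eb fun a : Fin n → Fin D => (A * (List.ofFn fun i => R.T (L.Y (a i))).prod).trace

end Pool.Agent.Lib.MP_cdc9ab_al
end

-- part Pool.Agent.Lib.MP_cdc9ab_al.Alg
section

open scoped Matrix
open Finset

namespace Pool.Agent.Lib.MP_cdc9ab_al

variable {V W : Type} [AddCommGroup V] [Module ℝ V] [AddCommGroup W] [Module ℝ W]

/-- The parity involution. -/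
noncomputable abbrev inv : Ext V →ₐ[ℝ] Ext V := CliffordAlgebra.involute

/-- The elements of degree `n`. -/
abbrev Deg (V : Type) [AddCommGroup V] [Module ℝ V] (n : ℕ) : Submodule ℝ (Ext V) := ⋀[ℝ]^n V

theorem ext_induction {C : Ext V → Prop} (h0 : ∀ r : ℝ, C (algebraMap ℝ _ r))
    (h1 : ∀ x y, C x → C y → C (x + y)) (h2 : ∀ v x, C x → C (io v * x)) (x : Ext V) : C x := by
  induction x using CliffordAlgebra.left_induction with
  | algebraMap r => exact h0 r
  | add x y hx hy => exact h1 x y hx hy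
  | ι_mul x v hx => exact h2 v x hx

@[simp] theorem inv_io (v : V) : inv (io v) = -io v := CliffordAlgebra.involute_ι v
@[simp] theorem inv_inv' (x : Ext V) : inv (inv x) = x := CliffordAlgebra.involute_involute x
@[simp] theorem io_mul_io (v : V) : io v * io v = 0 := ExteriorAlgebra.ι_sq_zero v
theorem io_swap (v w : V) : io v * io w = -(io w * io v) :=
  eq_neg_of_add_eq_zero_left (ExteriorAlgebra.ι_add_mul_swap v w)
@[simp] theorem aug_io (v : V) : aug (io v) = 0 := by simp [ExteriorAlgebra.algebraMapInv]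
theorem io_add (v w : V) : io (v + w) = io v + io w := map_add _ v w
theorem io_sub (v w : V) : io (v - w) = io v - io w := map_sub _ v w
theorem io_neg (v : V) : io (-v) = -io v := map_neg _ v
theorem io_smul (c : ℝ) (v : V) : io (c • v) = c • io v := map_smul _ c v
theorem io_zero : io (0 : V) = 0 := map_zero _
theorem io_sum {I : Type} (s : Finset I) (v : I → V) : io (∑ i ∈ s, v i) = ∑ i ∈ s, io (v i) :=
  map_sum _ v s

theorem io_mul (v : V) (x : Ext V) : io v * x = inv x * io v := by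
  induction x using ext_induction with
  | h0 r => rw [AlgHom.commutes, Algebra.commutes]
  | h1 x y hx hy => rw [mul_add, hx, hy, map_add, add_mul]
  | h2 w x hx =>
    rw [← mul_assoc, io_swap, neg_mul, mul_assoc, hx, map_mul, inv_io, neg_mul, neg_mul, mul_assoc]

theorem mul_io (v : V) (x : Ext V) : x * io v = io v * inv x := by
  rw [io_mul, inv_inv']

theorem even_comm {x : Ext V} (hx : inv x = x) (y : Ext V) : x * y = y * x := by
  induction y using ext_induction with
  | h0 r => rw [Algebra.commutes]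
  | h1 y z hy hz => rw [mul_add, add_mul, hy, hz]
  | h2 w y hy => rw [← mul_assoc, mul_io, hx, mul_assoc, hy, mul_assoc]

theorem odd_comm {x : Ext V} (hx : inv x = -x) (y : Ext V) : x * y = inv y * x := by
  induction y using ext_induction with
  | h0 r => rw [AlgHom.commutes, Algebra.commutes]
  | h1 y z hy hz => rw [mul_add, map_add, add_mul, hy, hz]
  | h2 w y hy =>
    rw [← mul_assoc, mul_io, hx, mul_assoc, neg_mul, hy, map_mul, inv_io]
    noncomm_ring

theorem odd_sq {x : Ext V} (hx : inv x = -x) : x * x = 0 := by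
  have h := odd_comm hx x
  rw [hx, neg_mul, eq_neg_iff_add_eq_zero, ← two_smul ℝ] at h
  exact (smul_eq_zero.mp h).resolve_left two_ne_zero

theorem ctr_io_mul (φ : Module.Dual ℝ V) (v : V) (x : Ext V) :
    ctr φ (io v * x) = φ v • x - io v * ctr φ x := CliffordAlgebra.contractLeft_ι_mul φ v x

@[simp] theorem ctr_algebraMap (φ : Module.Dual ℝ V) (r : ℝ) :
    ctr φ (algebraMap ℝ (Ext V) r) = 0 := CliffordAlgebra.contractLeft_algebraMap _ φ r

@[simp] theorem ctr_one (φ : Module.Dual ℝ V) : ctr φ (1 : Ext V) = 0 :=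
  CliffordAlgebra.contractLeft_one _ φ

@[simp] theorem ctr_io (φ : Module.Dual ℝ V) (v : V) :
    ctr φ (io v) = algebraMap ℝ (Ext V) (φ v) := CliffordAlgebra.contractLeft_ι _ φ v

theorem ctr_ctr (φ : Module.Dual ℝ V) (x : Ext V) : ctr φ (ctr φ x) = 0 :=
  CliffordAlgebra.contractLeft_contractLeft φ x

theorem ctr_comm (φ ψ : Module.Dual ℝ V) (x : Ext V) : ctr φ (ctr ψ x) = -ctr ψ (ctr φ x) :=
  CliffordAlgebra.contractLeft_comm φ ψ x

theorem ctr_add (φ ψ : Module.Dual ℝ V) (x : Ext V) : ctr (φ + ψ) x = ctr φ x + ctr ψ x := by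
  simp [ctr]

theorem ctr_smul (c : ℝ) (φ : Module.Dual ℝ V) (x : Ext V) : ctr (c • φ) x = c • ctr φ x := by
  simp [ctr]

theorem ctr_zero (x : Ext V) : ctr 0 x = 0 := by simp [ctr]

theorem ctr_sum {I : Type} (s : Finset I) (φ : I → Module.Dual ℝ V) (x : Ext V) :
    ctr (∑ i ∈ s, φ i) x = ∑ i ∈ s, ctr (φ i) x := by
  simp [ctr, map_sum]

theorem ctr_mul (φ : Module.Dual ℝ V) (x y : Ext V) :
    ctr φ (x * y) = ctr φ x * y + inv x * ctr φ y := by
  induction x using ext_induction with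
  | h0 r => simp [Algebra.algebraMap_eq_smul_one]
  | h1 x z hx hz => simp only [add_mul, map_add, hx, hz]; abel
  | h2 v x hx =>
    rw [mul_assoc, ctr_io_mul, hx, ctr_io_mul, map_mul, inv_io, sub_mul, smul_mul_assoc]
    noncomm_ring

theorem inv_ctr (φ : Module.Dual ℝ V) (x : Ext V) : inv (ctr φ x) = -ctr φ (inv x) := by
  induction x using ext_induction with
  | h0 r => simp
  | h1 x z hx hz => simp only [map_add, hx, hz]; abel
  | h2 v x hx =>
    rw [ctr_io_mul, map_mul, inv_io, neg_mul, map_neg, ctr_io_mul, map_sub, map_smul, map_mul,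
      inv_io, hx]
    noncomm_ring

@[simp] theorem map_io (f : V →ₗ[ℝ] W) (v : V) : ExteriorAlgebra.map f (io v) = io (f v) :=
  ExteriorAlgebra.map_apply_ι f v

theorem map_map {U : Type} [AddCommGroup U] [Module ℝ U] (f : V →ₗ[ℝ] W) (g : W →ₗ[ℝ] U)
    (x : Ext V) :
    ExteriorAlgebra.map g (ExteriorAlgebra.map f x) = ExteriorAlgebra.map (g ∘ₗ f) x := by
  rw [← ExteriorAlgebra.map_comp_map]; rfl

theorem map_id' (x : Ext V) : ExteriorAlgebra.map (LinearMap.id : V →ₗ[ℝ] V) x = x := by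
  rw [ExteriorAlgebra.map_id]; rfl

theorem inv_map (f : V →ₗ[ℝ] W) (x : Ext V) :
    inv (ExteriorAlgebra.map f x) = ExteriorAlgebra.map f (inv x) := by
  induction x using ext_induction with
  | h0 r => simp
  | h1 x z hx hz => simp only [map_add, hx, hz]
  | h2 v x hx => simp only [map_mul, map_io, inv_io, hx, map_neg]

theorem aug_map (f : V →ₗ[ℝ] W) (x : Ext V) : aug (ExteriorAlgebra.map f x) = aug x := by
  induction x using ext_induction with
  | h0 r => simp
  | h1 x z hx hz => simp only [map_add, hx, hz]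
  | h2 v x hx => simp only [map_mul, map_io, aug_io, zero_mul]

theorem ctr_map (f : V →ₗ[ℝ] W) (φ : Module.Dual ℝ W) (x : Ext V) :
    ctr φ (ExteriorAlgebra.map f x) = ExteriorAlgebra.map f (ctr (φ ∘ₗ f) x) := by
  induction x using ext_induction with
  | h0 r => simp
  | h1 x z hx hz => simp only [map_add, hx, hz]
  | h2 v x hx =>
    rw [map_mul, map_io, ctr_io_mul, ctr_io_mul, hx, map_sub, map_smul, map_mul, map_io]; rfl

theorem ctrs_succ {n : ℕ} (φ : Fin (n + 1) → Module.Dual ℝ V) (x : Ext V) :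
    ctrs (n + 1) φ x = ctr (φ 0) (ctrs n (Fin.tail φ) x) := rfl

theorem ctrs_map (f : V →ₗ[ℝ] W) {n : ℕ} (φ : Fin n → Module.Dual ℝ W) (x : Ext V) :
    ctrs n φ (ExteriorAlgebra.map f x) =
      ExteriorAlgebra.map f (ctrs n (fun i => φ i ∘ₗ f) x) := by
  induction n with
  | zero => rfl
  | succ n ih => rw [ctrs_succ, ctrs_succ, ih, ctr_map]; rfl

/-! ### Degrees -/

theorem algebraMap_mem_deg (r : ℝ) : algebraMap ℝ (Ext V) r ∈ Deg V 0 := by
  rw [Deg, ExteriorAlgebra.exteriorPower, pow_zero]; exact Submodule.algebraMap_mem r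

theorem one_mem_deg : (1 : Ext V) ∈ Deg V 0 := by simp

theorem io_mem_deg (v : V) : io v ∈ Deg V 1 := by
  rw [Deg, ExteriorAlgebra.exteriorPower, pow_one]; exact ⟨v, rfl⟩

theorem mul_mem_deg {m n : ℕ} {x y : Ext V} (hx : x ∈ Deg V m) (hy : y ∈ Deg V n) :
    x * y ∈ Deg V (m + n) := by
  rw [Deg, ExteriorAlgebra.exteriorPower, pow_add]; exact Submodule.mul_mem_mul hx hy

theorem io_mul_mem_deg {n : ℕ} (v : V) {x : Ext V} (hx : x ∈ Deg V n) :
    io v * x ∈ Deg V (n + 1) := by
  rw [add_comm]; exact mul_mem_deg (io_mem_deg v) hx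

theorem deg_induction {C : (n : ℕ) → (x : Ext V) → x ∈ Deg V n → Prop}
    (h0 : ∀ r : ℝ, C 0 (algebraMap ℝ _ r) (algebraMap_mem_deg r))
    (h1 : ∀ n x y hx hy, C n x hx → C n y hy → C n (x + y) (add_mem hx hy))
    (h2 : ∀ n v x hx, C n x hx → C (n + 1) (io v * x) (io_mul_mem_deg v hx)) {n : ℕ} {x : Ext V}
    (hx : x ∈ Deg V n) : C n x hx := by
  induction hx using Submodule.pow_induction_on_left' with
  | algebraMap r => exact h0 r
  | add x y i hx hy ihx ihy => exact h1 i x y hx hy ihx ihy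
  | mem_mul m hm i x hx ih => obtain ⟨v, rfl⟩ := hm; exact h2 i v x hx ih

theorem pow_mem_deg {m : ℕ} {x : Ext V} (hx : x ∈ Deg V m) (j : ℕ) : x ^ j ∈ Deg V (m * j) := by
  induction j with
  | zero => simp
  | succ j ih => rw [pow_succ, mul_add, mul_one]; exact mul_mem_deg ih hx

theorem prod_mem_deg {m n : ℕ} {x : Fin n → Ext V} (hx : ∀ i, x i ∈ Deg V m) :
    (List.ofFn x).prod ∈ Deg V (m * n) := by
  induction n with
  | zero => simp
  | succ n ih =>
    rw [List.ofFn_succ, List.prod_cons, mul_add, mul_one, add_comm]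
    exact mul_mem_deg (hx 0) (ih fun i => hx _)

theorem eq_of_deg_zero {x : Ext V} (hx : x ∈ Deg V 0) : x = algebraMap ℝ _ (aug x) := by
  rw [Deg, ExteriorAlgebra.exteriorPower, pow_zero] at hx
  obtain ⟨r, rfl⟩ := Submodule.mem_one.mp hx
  simp

theorem aug_of_deg {n : ℕ} {x : Ext V} (hx : x ∈ Deg V (n + 1)) : aug x = 0 := by
  have : ∀ m, ∀ x ∈ Deg V m, m ≠ 0 → aug x = 0 := by
    intro m x hx
    induction hx using deg_induction with
    | h0 r => simp
    | h1 n x y _ _ hx hy => intro h; rw [map_add, hx h, hy h, add_zero]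
    | h2 n v x _ _ => intro _; simp
  exact this _ x hx (Nat.succ_ne_zero n)

theorem inv_of_deg {n : ℕ} {x : Ext V} (hx : x ∈ Deg V n) : inv x = (-1 : ℝ) ^ n • x := by
  induction hx using deg_induction with
  | h0 r => simp
  | h1 n x y _ _ hx hy => rw [map_add, hx, hy, smul_add]
  | h2 n v x _ hx => rw [map_mul, inv_io, hx, pow_succ]; simp

theorem ctr_of_deg_zero (φ : Module.Dual ℝ V) {x : Ext V} (hx : x ∈ Deg V 0) : ctr φ x = 0 := by
  rw [eq_of_deg_zero hx, ctr_algebraMap]

theorem ctr_mem_deg (φ : Module.Dual ℝ V) {n : ℕ} {x : Ext V} (hx : x ∈ Deg V (n + 1)) :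
    ctr φ x ∈ Deg V n := by
  have : ∀ m, ∀ x ∈ Deg V m, ctr φ x ∈ Deg V (m - 1) := by
    intro m x hx
    induction hx using deg_induction with
    | h0 r => simp
    | h1 n x y _ _ hx hy => rw [map_add]; exact add_mem hx hy
    | h2 n v x hx ih =>
      rw [ctr_io_mul, Nat.add_sub_cancel]
      refine sub_mem (Submodule.smul_mem _ _ hx) ?_
      cases n with
      | zero => rw [ctr_of_deg_zero φ hx, mul_zero]; exact zero_mem _
      | succ n => exact io_mul_mem_deg v ih
  exact this _ x hx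

theorem map_mem_deg (f : V →ₗ[ℝ] W) {n : ℕ} {x : Ext V} (hx : x ∈ Deg V n) :
    ExteriorAlgebra.map f x ∈ Deg W n := by
  induction hx using deg_induction with
  | h0 r => rw [AlgHom.commutes]; exact algebraMap_mem_deg r
  | h1 n x y _ _ hx hy => rw [map_add]; exact add_mem hx hy
  | h2 n v x _ hx => rw [map_mul, map_io]; exact io_mul_mem_deg _ hx

theorem map_smul_of_deg (c : ℝ) (f : V →ₗ[ℝ] W) {n : ℕ} {x : Ext V} (hx : x ∈ Deg V n) :
    ExteriorAlgebra.map (c • f) x = c ^ n • ExteriorAlgebra.map f x := by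
  induction hx using deg_induction with
  | h0 r => simp
  | h1 n x y _ _ hx hy => rw [map_add, hx, hy, map_add, smul_add]
  | h2 n v x _ hx =>
    rw [map_mul, map_mul, hx, map_io, map_io, LinearMap.smul_apply, io_smul, smul_mul_smul_comm,
      pow_succ']

/-- The degree operator. -/
theorem sum_io_ctr {I : Type} [Fintype I] (β : I → V) (φ : I → Module.Dual ℝ V)
    (h : ∀ v, ∑ i, φ i v • β i = v) {n : ℕ} {x : Ext V} (hx : x ∈ Deg V n) :
    ∑ i, io (β i) * ctr (φ i) x = (n : ℝ) • x := by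
  induction hx using deg_induction with
  | h0 r => simp
  | h1 n x y _ _ hx hy => simp only [map_add, mul_add, Finset.sum_add_distrib, hx, hy, smul_add]
  | h2 n v x _ hx =>
    simp only [ctr_io_mul, mul_sub, Finset.sum_sub_distrib]
    have e1 : ∑ i, io (β i) * φ i v • x = io v * x := by
      conv_rhs => rw [← h v]
      rw [io_sum, Finset.sum_mul]
      exact Finset.sum_congr rfl fun i _ => by rw [io_smul, mul_smul_comm, smul_mul_assoc]
    have e2 : ∑ i, io (β i) * (io v * ctr (φ i) x) = -(io v * ∑ i, io (β i) * ctr (φ i) x) := by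
      rw [Finset.mul_sum, ← Finset.sum_neg_distrib]
      exact Finset.sum_congr rfl fun i _ => by rw [← mul_assoc, io_swap, neg_mul, mul_assoc]
    rw [e1, e2, hx]
    push_cast
    rw [mul_smul_comm, add_smul, one_smul]; abel

theorem deg_span (n : ℕ) :
    Deg V n = Submodule.span ℝ (Set.range fun v : Fin n → V => (List.ofFn fun i => io (v i)).prod) := by
  rw [Deg, ← ExteriorAlgebra.ιMulti_span_fixedDegree]
  congr 2

theorem deg_eq_zero [FiniteDimensional ℝ V] {n : ℕ} (hn : Module.finrank ℝ V < n) {x : Ext V}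
    (hx : x ∈ Deg V n) : x = 0 := by
  rw [deg_span] at hx
  induction hx using Submodule.span_induction with
  | mem x hx =>
    obtain ⟨v, rfl⟩ := hx
    have := (ExteriorAlgebra.ιMulti ℝ n).map_linearDependent v fun h => by
      have := h.fintype_card_le_finrank
      simp at this; omega
    rwa [ExteriorAlgebra.ιMulti_apply] at this
  | zero => rfl
  | add x y _ _ hx hy => rw [hx, hy, add_zero]
  | smul c x _ hx => rw [hx, smul_zero]

/-- Every element is a finite sum of homogeneous ones. -/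
theorem homog_induction {C : Ext V → Prop} (h0 : ∀ n, ∀ x ∈ Deg V n, C x)
    (h1 : ∀ x y, C x → C y → C (x + y)) (x : Ext V) : C x := by
  have : x ∈ ⨆ n, Deg V n := by
    induction x using ext_induction with
    | h0 r => exact Submodule.mem_iSup_of_mem 0 (algebraMap_mem_deg r)
    | h1 x y hx hy => exact add_mem hx hy
    | h2 v x hx =>
      induction hx using Submodule.iSup_induction' with
      | mem i x hx => exact Submodule.mem_iSup_of_mem (i + 1) (io_mul_mem_deg v hx)
      | zero => simp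
      | add x y _ _ hx hy => rw [mul_add]; exact add_mem hx hy
  induction this using Submodule.iSup_induction' with
  | mem i x hx => exact h0 i x hx
  | zero => exact h0 0 0 (zero_mem _)
  | add x y _ _ hx hy => exact h1 x y hx hy

/-! ### Products -/

theorem ctr_prod_odd (φ : Module.Dual ℝ V) {n : ℕ} (x c : Fin (n + 1) → Ext V)
    (hx : ∀ i, inv (x i) = -x i) (hc : ∀ i, inv (c i) = c i) (h : ∀ i, ctr φ (x i) = c i) :
    ctr φ (List.ofFn x).prod =
      ∑ j : Fin (n + 1), (-1 : ℝ) ^ (j : ℕ) • (c j * (List.ofFn fun i => x (j.succAbove i)).prod) := by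
  induction n with
  | zero => simp [h]
  | succ n ih =>
    rw [List.ofFn_succ, List.prod_cons, ctr_mul, hx, h,
      ih (fun i => x i.succ) (fun i => c i.succ) (fun i => hx _) (fun i => hc _) (fun i => h _),
      Fin.sum_univ_succ (n := n + 1), Finset.mul_sum]
    congr 1
    · simp
    · refine Finset.sum_congr rfl fun j _ => ?_
      rw [List.ofFn_succ (n := n), List.prod_cons]
      simp only [Fin.succ_succAbove_zero, Fin.succ_succAbove_succ, Fin.val_succ, pow_succ]
      rw [mul_smul_comm, ← mul_assoc, ← mul_assoc, even_comm (hc _)]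
      simp

theorem aug_ctrs_prod {n : ℕ} (φ : Fin n → Module.Dual ℝ V) (v : Fin n → V) :
    |aug (ctrs n φ (List.ofFn fun i => io (v i)).prod)| =
      |(Matrix.of fun i j => φ i (v j)).det| := by
  have hcomm : ∀ (m : ℕ) (ψ : Fin m → Module.Dual ℝ V) (χ : Module.Dual ℝ V) (x : Ext V),
      ctr χ (ctrs m ψ x) = (-1 : ℝ) ^ m • ctrs m ψ (ctr χ x) := by
    intro m
    induction m with
    | zero => intro ψ χ x; simp [ctrs]
    | succ m ih =>
      intro ψ χ x
      rw [ctrs_succ, ctrs_succ, ctr_comm, ih, map_smul, pow_succ]; simp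
  have key : ∀ (m : ℕ) (φ : Fin m → Module.Dual ℝ V) (v : Fin m → V),
      aug (ctrs m φ (List.ofFn fun i => io (v i)).prod) =
      (∏ i ∈ Finset.range m, (-1 : ℝ) ^ i) * (Matrix.of fun i j => φ i (v j)).det := by
    intro m
    induction m with
    | zero => intro φ v; simp [ctrs]
    | succ m ih =>
      intro φ v
      rw [ctrs_succ, hcomm, ctr_prod_odd (φ 0) (fun i => io (v i))
        (fun i => algebraMap ℝ _ (φ 0 (v i))) (fun i => inv_io _) (fun i => AlgHom.commutes _ _)
        (fun i => ctr_io _ _), map_sum, map_smul, map_sum, Matrix.det_succ_row_zero,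
        Finset.prod_range_succ, smul_eq_mul, Finset.mul_sum, Finset.mul_sum]
      refine Finset.sum_congr rfl fun j _ => ?_
      rw [← Algebra.smul_def, map_smul, map_smul, map_smul, map_smul, ih]
      simp only [smul_eq_mul, Matrix.of_apply]
      have : (Matrix.of fun i j => φ i (v j)).submatrix Fin.succ j.succAbove =
        Matrix.of fun i k => Fin.tail φ i (v (j.succAbove k)) := rfl
      rw [this]; ring
  rw [key, abs_mul, Finset.abs_prod]
  simp

theorem abs_evalForm_prod {X : Type} [AddCommGroup X] [Module ℝ X] {n : ℕ}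
    (φ : Fin n → Module.Dual ℝ X) (v : Fin n → X) :
    |evalForm (List.ofFn fun i => io (φ i)).prod v| = |(Matrix.of fun i j => φ j (v i)).det| :=
  aug_ctrs_prod _ _

section pull
variable {X Y : Type} [AddCommGroup X] [Module ℝ X] [AddCommGroup Y] [Module ℝ Y]

/-- Contraction with a vector. -/
noncomputable abbrev iv (v : X) : Ext (Module.Dual ℝ X) →ₗ[ℝ] Ext (Module.Dual ℝ X) :=
  ctr (Module.Dual.eval ℝ X v)

theorem pull_io (A : X →ₗ[ℝ] Y) (φ : Module.Dual ℝ Y) : pull A (io φ) = io (φ ∘ₗ A) :=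
  map_io _ _

theorem iv_pull (A : X →ₗ[ℝ] Y) (v : X) (x : Ext (Module.Dual ℝ Y)) :
    iv v (pull A x) = pull A (iv (A v) x) := ctr_map _ _ _

theorem evalForm_pull (A : X →ₗ[ℝ] Y) {n : ℕ} (x : Ext (Module.Dual ℝ Y)) (v : Fin n → X) :
    evalForm (pull A x) v = evalForm x (fun i => A (v i)) := by
  rw [evalForm, pull, ctrs_map, aug_map]; rfl

theorem pull_pull {Z : Type} [AddCommGroup Z] [Module ℝ Z] (A : X →ₗ[ℝ] Y) (B : Y →ₗ[ℝ] Z)
    (x : Ext (Module.Dual ℝ Z)) : pull A (pull B x) = pull (B ∘ₗ A) x := map_map _ _ _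

theorem pull_id (x : Ext (Module.Dual ℝ X)) : pull LinearMap.id x = x := map_id' x

theorem evalForm_add {n : ℕ} (x y : Ext (Module.Dual ℝ X)) (v : Fin n → X) :
    evalForm (x + y) v = evalForm x v + evalForm y v := by simp [evalForm]

theorem evalForm_smul {n : ℕ} (c : ℝ) (x : Ext (Module.Dual ℝ X)) (v : Fin n → X) :
    evalForm (c • x) v = c * evalForm x v := by simp [evalForm]

theorem evalForm_sum {I : Type} {n : ℕ} (s : Finset I) (x : I → Ext (Module.Dual ℝ X))
    (v : Fin n → X) : evalForm (∑ i ∈ s, x i) v = ∑ i ∈ s, evalForm (x i) v := by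
  simp [evalForm, map_sum]

end pull

end Pool.Agent.Lib.MP_cdc9ab_al
end

-- part Pool.Agent.Lib.MP_cdc9ab_al.Calc
section

open scoped ContDiff Topology
open Finset Filter

namespace Pool.Agent.Lib.MP_cdc9ab_al

section lin
variable {A B X : Type} [NormedAddCommGroup A] [NormedSpace ℝ A] [FiniteDimensional ℝ A]
  [NormedAddCommGroup B] [NormedSpace ℝ B] [NormedAddCommGroup X] [NormedSpace ℝ X]

theorem hasFDerivAt_lin (T : A →ₗ[ℝ] B) {w : X → A} {x : X} (hw : DifferentiableAt ℝ w x) :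
    HasFDerivAt (fun y => T (w y)) ((LinearMap.toContinuousLinearMap T).comp (fderiv ℝ w x)) x :=
  (LinearMap.toContinuousLinearMap T).hasFDerivAt.comp x hw.hasFDerivAt

theorem fderiv_lin (T : A →ₗ[ℝ] B) {w : X → A} {x : X} (hw : DifferentiableAt ℝ w x) (v : X) :
    fderiv ℝ (fun y => T (w y)) x v = T (fderiv ℝ w x v) := by
  rw [(hasFDerivAt_lin T hw).fderiv]; rfl

theorem differentiableAt_lin (T : A →ₗ[ℝ] B) {w : X → A} {x : X} (hw : DifferentiableAt ℝ w x) :
    DifferentiableAt ℝ (fun y => T (w y)) x := (hasFDerivAt_lin T hw).differentiableAt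

theorem contDiffAt_lin {n : WithTop ℕ∞} (T : A →ₗ[ℝ] B) {w : X → A} {x : X}
    (hw : ContDiffAt ℝ n w x) : ContDiffAt ℝ n (fun y => T (w y)) x :=
  (LinearMap.toContinuousLinearMap T).contDiff.contDiffAt.comp x hw

theorem continuous_lin (T : A →ₗ[ℝ] B) : Continuous T :=
  LinearMap.continuous_of_finiteDimensional T

theorem fderiv_mem (S : Submodule ℝ A) {w : X → A} {x : X} (hw : ∀ᶠ y in 𝓝 x, w y ∈ S) (v : X) :
    fderiv ℝ w x v ∈ S := by
  by_cases hd : DifferentiableAt ℝ w x
  · obtain ⟨S', hS⟩ := S.exists_isCompl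
    let T : A →ₗ[ℝ] A := S'.subtype ∘ₗ S'.projectionOnto S hS.symm
    have hT : ∀ a, T a = 0 ↔ a ∈ S := by
      intro a
      simp [T]
    rw [← hT, ← fderiv_lin T hd]
    have : (fun y => T (w y)) =ᶠ[𝓝 x] fun _ => 0 := by
      filter_upwards [hw] with y hy using (hT _).mpr hy
    rw [this.fderiv_eq]; simp
  · rw [fderiv_zero_of_not_differentiableAt hd]; exact S.zero_mem

theorem integral_mem {T : Type} [MeasurableSpace T] (μ : MeasureTheory.Measure T)
    (S : Submodule ℝ A) {w : T → A} (hw : ∀ᵐ t ∂μ, w t ∈ S) : ∫ t, w t ∂μ ∈ S := by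
  by_cases hd : MeasureTheory.Integrable w μ
  · obtain ⟨S', hS⟩ := S.exists_isCompl
    let T : A →ₗ[ℝ] A := S'.subtype ∘ₗ S'.projectionOnto S hS.symm
    have hT : ∀ a, T a = 0 ↔ a ∈ S := by
      intro a
      simp [T]
    have := FiniteDimensional.complete ℝ A
    have := (LinearMap.toContinuousLinearMap T).integral_comp_comm hd
    rw [← hT]
    refine this.symm.trans (MeasureTheory.integral_eq_zero_of_ae ?_)
    filter_upwards [hw] with t ht using (hT _).mpr ht
  · rw [MeasureTheory.integral_undef hd]; exact S.zero_mem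

theorem integral_lin [FiniteDimensional ℝ B] {T : Type} [MeasurableSpace T]
    {μ : MeasureTheory.Measure T} (f : A →ₗ[ℝ] B) {w : T → A}
    (hw : MeasureTheory.Integrable w μ) : f (∫ t, w t ∂μ) = ∫ t, f (w t) ∂μ := by
  have := FiniteDimensional.complete ℝ A
  have := FiniteDimensional.complete ℝ B
  exact ((LinearMap.toContinuousLinearMap f).integral_comp_comm hw).symm

end lin

variable {V : Type} [AddCommGroup V] [Module ℝ V] [FiniteDimensional ℝ V]
  {X : Type} [NormedAddCommGroup X] [NormedSpace ℝ X] {I : Type} [Fintype I]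
  (β : I → V) (b : I → X)

theorem dd_congr {w w' : X → Ext V} {x : X} (h : w =ᶠ[𝓝 x] w') : dd β b w x = dd β b w' x := by
  simp only [dd, h.fderiv_eq]

@[simp] theorem dd_const (c : Ext V) (x : X) : dd β b (fun _ => c) x = 0 := by simp [dd]

theorem dd_add {w w' : X → Ext V} {x : X} (h : DifferentiableAt ℝ w x)
    (h' : DifferentiableAt ℝ w' x) :
    dd β b (fun y => w y + w' y) x = dd β b w x + dd β b w' x := by
  simp only [dd, fderiv_fun_add h h', add_apply, mul_add, Finset.sum_add_distrib]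

theorem dd_sub {w w' : X → Ext V} {x : X} (h : DifferentiableAt ℝ w x)
    (h' : DifferentiableAt ℝ w' x) :
    dd β b (fun y => w y - w' y) x = dd β b w x - dd β b w' x := by
  simp only [dd, fderiv_fun_sub h h', sub_apply, mul_sub, Finset.sum_sub_distrib]

theorem dd_neg (w : X → Ext V) (x : X) : dd β b (fun y => -w y) x = -dd β b w x := by
  simp only [dd, fderiv_fun_neg, neg_apply, mul_neg, Finset.sum_neg_distrib]

theorem dd_smul (c : ℝ) (w : X → Ext V) (x : X) :
    dd β b (fun y => c • w y) x = c • dd β b w x := by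
  have : fderiv ℝ (fun y => c • w y) x = c • fderiv ℝ w x :=
    congrFun (fderiv_const_smul_field (𝕜 := ℝ) (f := w) c) x
  simp only [dd, this, smul_apply, mul_smul_comm, Finset.smul_sum]

theorem dd_sum {J : Type} (s : Finset J) {w : J → X → Ext V} {x : X}
    (h : ∀ j ∈ s, DifferentiableAt ℝ (w j) x) :
    dd β b (fun y => ∑ j ∈ s, w j y) x = ∑ j ∈ s, dd β b (w j) x := by
  simp only [dd, fderiv_fun_sum h, _root_.sum_apply, Finset.mul_sum]
  exact Finset.sum_comm

theorem dd_mul {w w' : X → Ext V} {x : X} (h : DifferentiableAt ℝ w x)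
    (h' : DifferentiableAt ℝ w' x) :
    dd β b (fun y => w y * w' y) x = dd β b w x * w' x + inv (w x) * dd β b w' x := by
  simp only [dd, fderiv_fun_mul' h h', add_apply, smul_apply, smul_eq_mul,
    MulOpposite.smul_eq_mul_unop, MulOpposite.unop_op, mul_add, Finset.sum_add_distrib,
    Finset.sum_mul, Finset.mul_sum]
  rw [add_comm]
  congr 1
  · exact Finset.sum_congr rfl fun i _ => by rw [mul_assoc]
  · exact Finset.sum_congr rfl fun i _ => by rw [← mul_assoc, io_mul, mul_assoc]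

theorem dd_const_mul (c : Ext V) {w : X → Ext V} {x : X} (h : DifferentiableAt ℝ w x) :
    dd β b (fun y => c * w y) x = inv c * dd β b w x := by
  rw [dd_mul β b (differentiableAt_const c) h, dd_const, zero_mul, zero_add]

theorem dd_mul_const (c : Ext V) {w : X → Ext V} {x : X} (h : DifferentiableAt ℝ w x) :
    dd β b (fun y => w y * c) x = dd β b w x * c := by
  rw [dd_mul β b h (differentiableAt_const c), dd_const, mul_zero, add_zero]

theorem dd_fun_smul {f : X → ℝ} {w : X → Ext V} {x : X} (hf : DifferentiableAt ℝ f x)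
    (h : DifferentiableAt ℝ w x) :
    dd β b (fun y => f y • w y) x =
      io (∑ i, fderiv ℝ f x (b i) • β i) * w x + f x • dd β b w x := by
  simp only [dd, fderiv_fun_smul hf h, add_apply, smul_apply, mul_add, Finset.sum_add_distrib,
    ContinuousLinearMap.smulRight_apply, mul_smul_comm, io_sum, io_smul, Finset.sum_mul,
    smul_mul_assoc, Finset.smul_sum]
  rw [add_comm]

theorem dd_scalar {f : X → ℝ} {x : X} (hf : DifferentiableAt ℝ f x) :
    dd β b (fun y => algebraMap ℝ (Ext V) (f y)) x = io (∑ i, fderiv ℝ f x (b i) • β i) := by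
  simp only [Algebra.algebraMap_eq_smul_one]
  rw [dd_fun_smul β b hf (differentiableAt_const _)]; simp

theorem contDiffAt_dd {Z : Type} [NormedAddCommGroup Z] [NormedSpace ℝ Z] {f : Z → X → Ext V}
    {g : Z → X} {z : Z} (hf : ContDiffAt ℝ ∞ (Function.uncurry f) (z, g z))
    (hg : ContDiffAt ℝ ∞ g z) : ContDiffAt ℝ ∞ (fun z => dd β b (f z) (g z)) z := by
  unfold dd
  exact ContDiffAt.sum fun i _ => contDiffAt_const.mul
    ((hf.fderiv hg infty_add_one_le).clm_apply contDiffAt_const)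

theorem contDiffAt_dd' {w : X → Ext V} {x : X} (hw : ContDiffAt ℝ ∞ w x) :
    ContDiffAt ℝ ∞ (dd β b w) x :=
  contDiffAt_dd β b (f := fun _ => w) (g := id) (hw.comp (x, x) contDiffAt_snd) contDiffAt_id

theorem dd_dd {w : X → Ext V} {x : X} (hw : ContDiffAt ℝ ∞ w x) : dd β b (dd β b w) x = 0 := by
  have h1 : DifferentiableAt ℝ (fderiv ℝ w) x :=
    (hw.fderiv_right infty_add_one_le).differentiableAt infty_ne_zero
  have h2 : ∀ j, DifferentiableAt ℝ (fun y => fderiv ℝ w y (b j)) x := fun j =>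
    h1.clm_apply (differentiableAt_const _)
  have hs := hw.isSymmSndFDerivAt (by simp; exact WithTop.coe_le_coe.mpr le_top)
  have e : dd β b (dd β b w) x =
      ∑ j, ∑ i, -(io (β j) * (io (β i) * fderiv ℝ (fderiv ℝ w) x (b i) (b j))) := by
    show dd β b (fun y => ∑ j, io (β j) * fderiv ℝ w y (b j)) x = _
    rw [dd_sum β b _ fun j _ => (differentiableAt_const _).fun_mul (h2 j)]
    refine Finset.sum_congr rfl fun j _ => ?_
    rw [dd_const_mul β b _ (h2 j), inv_io, dd, Finset.mul_sum]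
    refine Finset.sum_congr rfl fun i _ => ?_
    rw [fderiv_clm_apply h1 (differentiableAt_const _)]
    simp
  have e2 : dd β b (dd β b w) x = -dd β b (dd β b w) x := by
    conv_lhs => rw [e, Finset.sum_comm]
    rw [e, ← Finset.sum_neg_distrib]
    refine Finset.sum_congr rfl fun j _ => ?_
    rw [← Finset.sum_neg_distrib]
    refine Finset.sum_congr rfl fun i _ => ?_
    rw [← mul_assoc, io_swap, hs.eq (b j) (b i), neg_mul, mul_assoc]
  rw [eq_neg_iff_add_eq_zero, ← two_smul ℝ] at e2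
  exact (smul_eq_zero.mp e2).resolve_left two_ne_zero

theorem map_dd {W : Type} [AddCommGroup W] [Module ℝ W] [FiniteDimensional ℝ W] (f : V →ₗ[ℝ] W)
    {w : X → Ext V} {x : X} (h : DifferentiableAt ℝ w x) :
    ExteriorAlgebra.map f (dd β b w x) =
      dd (fun i => f (β i)) b (fun y => ExteriorAlgebra.map f (w y)) x := by
  simp only [dd, map_sum, map_mul, map_io]
  refine Finset.sum_congr rfl fun i _ => ?_
  exact congrArg _ (fderiv_lin (ExteriorAlgebra.map f).toLinearMap h _).symm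

theorem inv_dd {w : X → Ext V} {x : X} (h : DifferentiableAt ℝ w x) :
    inv (dd β b w x) = -dd β b (fun y => inv (w y)) x := by
  simp only [dd, map_sum, map_mul, inv_io, neg_mul, Finset.sum_neg_distrib]
  congr 1
  refine Finset.sum_congr rfl fun i _ => ?_
  exact congrArg _ (fderiv_lin (inv (V := V)).toLinearMap h _).symm

/-- Change of frame and chain rule. -/
theorem dd_comp {X' J : Type} [NormedAddCommGroup X'] [NormedSpace ℝ X'] [Fintype J]
    (β' : J → V) (b' : J → X') {φ : X' → X} {x : X'} (hφ : DifferentiableAt ℝ φ x)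
    (M : I → J → ℝ) (hM : ∀ j, fderiv ℝ φ x (b' j) = ∑ i, M i j • b i)
    {w : X → Ext V} (hw : DifferentiableAt ℝ w (φ x)) :
    dd β' b' (fun y => w (φ y)) x = dd (fun i => ∑ j, M i j • β' j) b w (φ x) := by
  have := fderiv_fun_comp x hw hφ
  simp only [dd, this, ContinuousLinearMap.comp_apply, hM, map_sum, map_smul, Finset.mul_sum,
    Finset.sum_mul, mul_smul_comm, smul_mul_assoc]
  exact Finset.sum_comm

theorem dd_mem_deg {n : ℕ} {w : X → Ext V} {x : X} (h : ∀ᶠ y in 𝓝 x, w y ∈ Deg V n) :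
    dd β b w x ∈ Deg V (n + 1) :=
  Submodule.sum_mem _ fun _ _ => io_mul_mem_deg _ (fderiv_mem _ h _)

theorem contDiffAt_list_prod {n : WithTop ℕ∞} {m : ℕ} {w : Fin m → X → Ext V} {x : X}
    (h : ∀ i, ContDiffAt ℝ n (w i) x) :
    ContDiffAt ℝ n (fun y => (List.ofFn fun i => w i y).prod) x := by
  induction m with
  | zero => simpa using contDiffAt_const
  | succ m ih =>
    simp only [List.ofFn_succ, List.prod_cons]
    exact (h 0).mul (ih fun i => h _)

theorem differentiableAt_list_prod {m : ℕ} {w : Fin m → X → Ext V} {x : X}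
    (h : ∀ i, DifferentiableAt ℝ (w i) x) :
    DifferentiableAt ℝ (fun y => (List.ofFn fun i => w i y).prod) x := by
  induction m with
  | zero => simp
  | succ m ih =>
    simp only [List.ofFn_succ, List.prod_cons]
    exact (h 0).mul (ih fun i => h _)

theorem dd_prod_odd {n : ℕ} (w : Fin (n + 1) → X → Ext V) {x : X}
    (hd : ∀ i, DifferentiableAt ℝ (w i) x)
    (hx : ∀ i, inv (w i x) = -w i x) (hc : ∀ i, inv (dd β b (w i) x) = dd β b (w i) x) :
    dd β b (fun y => (List.ofFn fun i => w i y).prod) x =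
      ∑ j : Fin (n + 1), (-1 : ℝ) ^ (j : ℕ) •
        (dd β b (w j) x * (List.ofFn fun i => w (j.succAbove i) x).prod) := by
  induction n with
  | zero => simp
  | succ n ih =>
    simp only [List.ofFn_succ (n := n + 1), List.prod_cons]
    rw [dd_mul β b (hd 0) (differentiableAt_list_prod fun i => hd _), hx,
      ih (fun i => w i.succ) (fun i => hd _) (fun i => hx _) (fun i => hc _),
      Fin.sum_univ_succ (n := n + 1), Finset.mul_sum]
    congr 1
    · simp
    · refine Finset.sum_congr rfl fun j _ => ?_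
      rw [List.ofFn_succ (n := n), List.prod_cons]
      simp only [Fin.succ_succAbove_zero, Fin.succ_succAbove_succ, Fin.val_succ, pow_succ]
      rw [mul_smul_comm, ← mul_assoc, ← mul_assoc, even_comm (hc _)]
      simp

theorem dd_prod_closed {m : ℕ} {w : Fin m → X → Ext V} {x : X}
    (hd : ∀ i, DifferentiableAt ℝ (w i) x) (h : ∀ i, dd β b (w i) x = 0) :
    dd β b (fun y => (List.ofFn fun i => w i y).prod) x = 0 := by
  induction m with
  | zero => simp
  | succ m ih =>
    simp only [List.ofFn_succ, List.prod_cons]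
    rw [dd_mul β b (hd 0) (differentiableAt_list_prod fun i => hd _), h,
      ih (fun i => hd _) (fun i => h _)]
    simp

section canon
variable [FiniteDimensional ℝ X]

theorem sum_fc_smul (v : X) : ∑ i, fc X i v • fb X i = v :=
  (Module.finBasis ℝ X).sum_repr v

theorem sum_smul_fc (φ : Module.Dual ℝ X) : ∑ i, φ (fb X i) • fc X i = φ :=
  (Module.finBasis ℝ X).sum_dual_apply_smul_coord φ

/-- One-forms from continuous linear functionals. -/
noncomputable def ioL : (X →L[ℝ] ℝ) →ₗ[ℝ] Ext (Module.Dual ℝ X) :=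
  ExteriorAlgebra.ι ℝ ∘ₗ ContinuousLinearMap.coeLM ℝ

theorem ioL_apply (φ : X →L[ℝ] ℝ) : ioL φ = io (φ : Module.Dual ℝ X) := rfl

theorem dX_scalar {f : X → ℝ} {x : X} (hf : DifferentiableAt ℝ f x) :
    dX (fun y => algebraMap ℝ _ (f y)) x = ioL (fderiv ℝ f x) := by
  rw [dX, dd_scalar _ _ hf, ioL_apply]
  exact congrArg _ (sum_smul_fc (fderiv ℝ f x : Module.Dual ℝ X))

theorem dX_fun_smul {f : X → ℝ} {w : X → Ext (Module.Dual ℝ X)} {x : X}
    (hf : DifferentiableAt ℝ f x) (h : DifferentiableAt ℝ w x) :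
    dX (fun y => f y • w y) x = ioL (fderiv ℝ f x) * w x + f x • dX w x := by
  rw [dX, dd_fun_smul _ _ hf h, ioL_apply]
  congr 3
  exact sum_smul_fc (fderiv ℝ f x : Module.Dual ℝ X)

/-- The differential of an exact one-form vanishes. -/
theorem dX_ioL_fderiv {f : X → ℝ} {x : X} (hf : ∀ᶠ y in 𝓝 x, ContDiffAt ℝ ∞ f y) :
    dX (fun y => ioL (fderiv ℝ f y)) x = 0 := by
  have : (fun y => ioL (fderiv ℝ f y)) =ᶠ[𝓝 x] dX (fun y => algebraMap ℝ _ (f y)) := by
    filter_upwards [hf] with y hy using (dX_scalar (hy.differentiableAt infty_ne_zero)).symm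
  rw [dX, dd_congr _ _ this]
  exact dd_dd _ _ (contDiffAt_lin (Algebra.linearMap ℝ (Ext (Module.Dual ℝ X))) hf.self_of_nhds)

/-- Any frame representing a linear map computes the pulled back differential. -/
theorem dd_eq_map_dX {W : Type} [AddCommGroup W] [Module ℝ W] [FiniteDimensional ℝ W]
    (f : Module.Dual ℝ X →ₗ[ℝ] W) {X' J : Type} [NormedAddCommGroup X'] [NormedSpace ℝ X']
    [Fintype J] (β' : J → W) (b' : J → X') {φ : X' → X} {x : X'} (hφ : DifferentiableAt ℝ φ x)
    (hf : ∀ ψ, f ψ = ∑ j, ψ (fderiv ℝ φ x (b' j)) • β' j)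
    {w : X → Ext (Module.Dual ℝ X)} (hw : DifferentiableAt ℝ w (φ x)) :
    dd β' b' (fun y => ExteriorAlgebra.map f (w (φ y))) x =
      ExteriorAlgebra.map f (dX w (φ x)) := by
  rw [dX, map_dd _ _ f hw, dd_comp (fb X) β' b' hφ (fun i j => fc X i (fderiv ℝ φ x (b' j)))
    (fun j => (sum_fc_smul _).symm) (w := fun y => ExteriorAlgebra.map f (w y))
    (differentiableAt_lin (ExteriorAlgebra.map f).toLinearMap hw)]
  simp only [hf]

/-- Pull back along a map with constant derivative commutes with `d`. -/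
theorem dX_pull {Y : Type} [NormedAddCommGroup Y] [NormedSpace ℝ Y] [FiniteDimensional ℝ Y]
    (A : Y →L[ℝ] X) {φ : Y → X} {y : Y} (hφ : HasFDerivAt φ A y)
    {w : X → Ext (Module.Dual ℝ X)} (hw : DifferentiableAt ℝ w (φ y)) :
    dX (fun z => pull (A : Y →ₗ[ℝ] X) (w (φ z))) y = pull (A : Y →ₗ[ℝ] X) (dX w (φ y)) := by
  refine dd_eq_map_dX _ _ _ hφ.differentiableAt (fun ψ => ?_) hw
  rw [hφ.fderiv]
  exact (sum_smul_fc (ψ ∘ₗ (A : Y →ₗ[ℝ] X))).symm

theorem sum_fc_iv {n : ℕ} {x : Ext (Module.Dual ℝ X)} (hx : x ∈ Deg _ n) :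
    ∑ i, io (fc X i) * iv (fb X i) x = (n : ℝ) • x :=
  sum_io_ctr _ _ (fun φ => sum_smul_fc φ) hx

end canon

end Pool.Agent.Lib.MP_cdc9ab_al
end

-- part Pool.Agent.Lib.MP_cdc9ab_al.BDefs
section

open scoped Matrix.Norms.Operator ContDiff Matrix ENNReal
open Finset MeasureTheory

namespace Pool.Agent.Lib.MP_cdc9ab_al

/-- Smooth invariant cocycles on the set `P`. -/
structure IsSCoc {X : Type} [NormedAddCommGroup X] [NormedSpace ℝ X] (P : Set X)
    (G : Set (X →L[ℝ] X)) {n : ℕ} (f : (Fin (n + 1) → X) → ℝ) : Prop where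
  smooth : ∀ h, (∀ i, h i ∈ P) → ContDiffAt ℝ ∞ f h
  coc : ∀ h : Fin (n + 2) → X, (∀ i, h i ∈ P) → cob f h = 0
  inv : ∀ A ∈ G, ∀ h, (∀ i, h i ∈ P) → f (fun i => A (h i)) = f h

/-- Functions which are polynomials of degree at most `d` along every line. -/
def PolyFn {E : Type} [AddCommGroup E] [Module ℝ E] (d : ℕ) (f : E → ℝ) : Prop :=
  ∀ x v : E, ∃ p : Polynomial ℝ, p.natDegree ≤ d ∧ ∀ t : ℝ, f (x + t • v) = p.eval t

/-- Functionals on forms which kill all contractions (multiples of the top coefficient). -/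
def TopLike {X : Type} [AddCommGroup X] [Module ℝ X] (τ : Ext (Module.Dual ℝ X) →ₗ[ℝ] ℝ) : Prop :=
  ∀ (v : X) (x : Ext (Module.Dual ℝ X)), τ (iv v x) = 0

/-- Complex vectors. -/
abbrev CV (N : ℕ) : Type := Fin N → ℂ

/-- Complex matrices. -/
abbrev HM (N : ℕ) : Type := Matrix (Fin N) (Fin N) ℂ

/-- Complex vectors with one extra real direction. -/
abbrev WH (N : ℕ) : Type := ℝ × CV N

/-- Forms on `WH N`. -/
abbrev FH (N : ℕ) : Type := Ext (Module.Dual ℝ (WH N))

variable {N : ℕ}

/-- The real inner product. -/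
noncomputable def rin (u v : CV N) : ℝ := (star u ⬝ᵥ v).re

/-- The real inner product as a bilinear map. -/
noncomputable def cv0 : CV N →ₗ[ℝ] Module.Dual ℝ (CV N) :=
  LinearMap.mk₂ ℝ rin (fun _ _ _ => by simp [rin]) (fun _ _ _ => by simp [rin])
    (fun _ _ _ => by simp [rin]) (fun _ _ _ => by simp [rin])

/-- The covector on `WH N` defined by a vector. -/
noncomputable def cv : CV N →ₗ[ℝ] Module.Dual ℝ (WH N) :=
  (LinearMap.snd ℝ ℝ (CV N)).dualMap ∘ₗ cv0

/-- The extra covector. -/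
noncomputable def eps : Module.Dual ℝ (WH N) := LinearMap.fst ℝ ℝ (CV N)

/-- The real orthonormal basis. -/
noncomputable def rb (i : Fin N × Bool) : CV N := Pi.single i.1 (if i.2 then Complex.I else 1)

/-- The exterior derivative in the complex directions. -/
noncomputable def dW (w : CV N → FH N) (z : CV N) : FH N := dd (fun i => cv (rb i)) rb w z

/-- The quadratic form of a matrix. -/
noncomputable def qf (H : HM N) (z : CV N) : ℝ := rin z (H *ᵥ z)

/-- Matrices with positive definite Hermitian part. -/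
def HP (N : ℕ) : Set (HM N) := {H | ∀ z, z ≠ 0 → 0 < qf H z}

/-- Positive definite Hermitian matrices. -/
def PD (H : HM N) : Prop := Hᴴ = H ∧ H ∈ HP N

/-- The connection form. -/
noncomputable def sg (H : HM N) (z : CV N) : FH N :=
  io (cv ((qf H z)⁻¹ • (Complex.I • H *ᵥ z)))

/-- The differential of `log (qf H)`. -/
noncomputable def da (H : HM N) (z : CV N) : FH N := io (cv ((2 * (qf H z)⁻¹) • (H *ᵥ z)))

/-- The constant symplectic form. -/
noncomputable def vp (H : HM N) : FH N := ∑ i, io (cv (rb i)) * io (cv (Complex.I • H *ᵥ rb i))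

/-- The curvature form. -/
noncomputable def om (H : HM N) (z : CV N) : FH N :=
  (qf H z)⁻¹ • vp H - da H z * sg H z

/-- The odd factor. -/
noncomputable def Xf (H : HM N) (z : CV N) : FH N := Real.log (qf H z) • io eps + sg H z

/-- The inverse of `1 - x` for nilpotent `x`. -/
noncomputable def geo (x : FH N) : FH N := ∑ j ∈ range (N + 1), x ^ j

/-- One factor of the integrand. -/
noncomputable def Zf (H : HM N) (z : CV N) : FH N := Xf H z * geo (om H z)

/-- The integrand. -/
noncomputable def bF (τ : FH N →ₗ[ℝ] ℝ) {p : ℕ} (H : Fin p → HM N) (z : CV N) : ℝ :=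
  τ ((List.ofFn fun i => Zf (H i) z).prod * da 1 z)

/-- Smooth cut-off functions supported in `[1, 2]`. -/
def IsCut (χ : ℝ → ℝ) : Prop := ContDiff ℝ ∞ χ ∧ ∀ t, t ∉ Set.Icc (1 : ℝ) 2 → χ t = 0

/-- The Borel cocycle. -/
noncomputable def Bor (τ : FH N →ₗ[ℝ] ℝ) (χ : ℝ → ℝ) {p : ℕ} (H : Fin p → HM N) : ℝ :=
  ∫ z : CV N, χ (qf 1 z) * bF τ H z

/-- The inclusion of the affine chart directions. -/
noncomputable def inc (n : ℕ) : CV n →ₗ[ℝ] WH (n + 1) where
  toFun w := (0, Fin.cons 0 w)
  map_add' u v := by ext i <;> [simp; (refine Fin.cases ?_ (fun j => ?_) i <;> simp)]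
  map_smul' c v := by ext i <;> [simp; (refine Fin.cases ?_ (fun j => ?_) i <;> simp)]

/-- The density on the affine chart. -/
noncomputable def chD {n : ℕ} (τ : Ext (Module.Dual ℝ (CV n)) →ₗ[ℝ] ℝ) {p m : ℕ}
    (G : Fin p → HM (n + 1)) (G' : Fin m → HM (n + 1)) (w : CV n) : ℝ :=
  τ (pull (inc n) ((List.ofFn fun j => sg (G j) (Fin.cons 1 w)).prod *
    (List.ofFn fun l => om (G' l) (Fin.cons 1 w)).prod))

/-- The Gaussian weight with covariance `H`. -/
noncomputable def gw (H : HM N) (y : CV N) : ℝ≥0∞ := ENNReal.ofReal (Real.exp (-qf H⁻¹ y))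

end Pool.Agent.Lib.MP_cdc9ab_al
end

-- part Pool.Agent.Lib.MP_cdc9ab_al.Top
section

open scoped ContDiff Topology
open Finset Filter MeasureTheory

namespace Pool.Agent.Lib.MP_cdc9ab_al

variable {X : Type} [AddCommGroup X] [Module ℝ X] {τ : Ext (Module.Dual ℝ X) →ₗ[ℝ] ℝ}

theorem iv_io_mul (v : X) (φ : Module.Dual ℝ X) (x : Ext (Module.Dual ℝ X)) :
    iv v (io φ * x) = φ v • x - io φ * iv v x := ctr_io_mul _ _ _

theorem iv_io (v : X) (φ : Module.Dual ℝ X) : iv v (io φ) = algebraMap ℝ _ (φ v) := ctr_io _ _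

theorem iv_add (u v : X) (x : Ext (Module.Dual ℝ X)) : iv (u + v) x = iv u x + iv v x := by
  rw [iv, map_add, ctr_add]

theorem iv_smul (c : ℝ) (v : X) (x : Ext (Module.Dual ℝ X)) : iv (c • v) x = c • iv v x := by
  rw [iv, map_smul, ctr_smul]

theorem iv_zero (x : Ext (Module.Dual ℝ X)) : iv (0 : X) x = 0 := by
  rw [iv, map_zero, ctr_zero]

theorem iv_sum {I : Type} (s : Finset I) (v : I → X) (x : Ext (Module.Dual ℝ X)) :
    iv (∑ i ∈ s, v i) x = ∑ i ∈ s, iv (v i) x := by
  rw [iv, map_sum, ctr_sum]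

theorem TopLike.io_mul_iv (hτ : TopLike τ) (φ : Module.Dual ℝ X) (v : X)
    (x : Ext (Module.Dual ℝ X)) : τ (io φ * iv v x) = φ v * τ x := by
  have := hτ v (io φ * x)
  rw [iv_io_mul, map_sub, map_smul, smul_eq_mul] at this
  linarith

theorem TopLike.eq_zero_of_iv (hτ : TopLike τ) {v : X} (hv : v ≠ 0) {x : Ext (Module.Dual ℝ X)}
    (hx : iv v x = 0) : τ x = 0 := by
  obtain ⟨φ, hφ⟩ : ∃ φ : Module.Dual ℝ X, φ v ≠ 0 := by
    by_contra h
    push Not at h
    exact hv ((Module.forall_dual_apply_eq_zero_iff ℝ v).mp h)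
  have := hτ.io_mul_iv φ v x
  rw [hx, mul_zero, map_zero] at this
  exact (mul_eq_zero.mp this.symm).resolve_left hφ

/-- Integration by parts for contractions. -/
theorem TopLike.iv_mul (hτ : TopLike τ) (v : X) (x y : Ext (Module.Dual ℝ X)) :
    τ (iv v x * y) = -τ (inv x * iv v y) := by
  have := hτ v (x * y)
  rw [ctr_mul, map_add] at this
  linarith

section fin
variable [FiniteDimensional ℝ X]

theorem TopLike.of_deg (hτ : TopLike τ) {j : ℕ} (hj : j ≠ Module.finrank ℝ X)
    {x : Ext (Module.Dual ℝ X)} (hx : x ∈ Deg _ j) : τ x = 0 := by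
  let b := Module.finBasis ℝ X
  have h1 := sum_io_ctr (fun i => b.coord i) (fun i => Module.Dual.eval ℝ X (b i))
    (fun φ => b.sum_dual_apply_smul_coord φ) hx
  have h2 := congrArg τ h1
  rw [map_sum, map_smul, smul_eq_mul] at h2
  have h3 : ∀ i, τ (io (b.coord i) * ctr (Module.Dual.eval ℝ X (b i)) x) = τ x := by
    intro i
    rw [hτ.io_mul_iv]; simp
  simp only [h3, Finset.sum_const, Finset.card_univ, Fintype.card_fin, nsmul_eq_mul] at h2
  by_contra h
  exact hj (by exact_mod_cast (mul_right_cancel₀ h h2).symm)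

theorem TopLike.pull (hτ : TopLike τ) (A : X →ₗ[ℝ] X) (x : Ext (Module.Dual ℝ X)) :
    τ (pull A x) = LinearMap.det A * τ x := by
  induction x using homog_induction with
  | h1 x y hx hy => rw [map_add, map_add, map_add, hx, hy, mul_add]
  | h0 j x hx =>
    by_cases hj : j = Module.finrank ℝ X
    · subst hj
      let e := (Module.finBasis ℝ X).dualBasis
      let f := τ.compAlternatingMap (ExteriorAlgebra.ιMulti ℝ (Module.finrank ℝ X))
      rw [Deg, ← ExteriorAlgebra.ιMulti_span_fixedDegree] at hx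
      induction hx using Submodule.span_induction with
      | mem x hx =>
        obtain ⟨v, rfl⟩ := hx
        rw [Pool.Agent.Lib.MP_cdc9ab_al.pull, ExteriorAlgebra.map_apply_ιMulti]
        change f _ = _ * f v
        rw [f.eq_smul_basis_det e]
        simp only [AlternatingMap.smul_apply, smul_eq_mul]
        rw [e.det_comp, LinearMap.det_dualMap]; ring
      | zero => simp
      | add x y _ _ hx hy => rw [map_add, map_add, map_add, hx, hy, mul_add]
      | smul c x _ hx => rw [map_smul, map_smul, map_smul, hx, smul_eq_mul, smul_eq_mul]; ring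
    · rw [hτ.of_deg hj hx, mul_zero]
      exact hτ.of_deg hj (map_mem_deg _ hx)

/-- The derivation induced by an endomorphism. -/
noncomputable def dEnd (A : X →ₗ[ℝ] X) : Ext (Module.Dual ℝ X) →ₗ[ℝ] Ext (Module.Dual ℝ X) :=
  ∑ i, LinearMap.mulLeft ℝ (io ((Module.finBasis ℝ X).coord i ∘ₗ A)) ∘ₗ
    iv (Module.finBasis ℝ X i)

theorem dEnd_apply (A : X →ₗ[ℝ] X) (x : Ext (Module.Dual ℝ X)) :
    dEnd A x = ∑ i, io ((Module.finBasis ℝ X).coord i ∘ₗ A) * iv (Module.finBasis ℝ X i) x := by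
  simp [dEnd, LinearMap.sum_apply]

theorem dEnd_io (A : X →ₗ[ℝ] X) (φ : Module.Dual ℝ X) : dEnd A (io φ) = io (φ ∘ₗ A) := by
  rw [dEnd_apply]
  have h := congrArg A.dualMap ((Module.finBasis ℝ X).sum_dual_apply_smul_coord φ)
  rw [map_sum] at h
  rw [show φ ∘ₗ A = A.dualMap φ from rfl, ← h, io_sum]
  refine Finset.sum_congr rfl fun i _ => ?_
  rw [iv_io, map_smul, io_smul, ← Algebra.commutes, Algebra.smul_def]; rfl

theorem dEnd_mul (A : X →ₗ[ℝ] X) (x y : Ext (Module.Dual ℝ X)) :
    dEnd A (x * y) = dEnd A x * y + x * dEnd A y := by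
  simp only [dEnd_apply, ctr_mul, mul_add, Finset.sum_add_distrib, Finset.sum_mul, Finset.mul_sum]
  congr 1
  · exact Finset.sum_congr rfl fun i _ => by rw [mul_assoc]
  · exact Finset.sum_congr rfl fun i _ => by rw [← mul_assoc, ← mul_io, mul_assoc]

theorem dEnd_one (A : X →ₗ[ℝ] X) : dEnd A 1 = 0 := by simp [dEnd_apply]

theorem TopLike.dEnd (hτ : TopLike τ) (A : X →ₗ[ℝ] X) (x : Ext (Module.Dual ℝ X)) :
    τ (dEnd A x) = LinearMap.trace ℝ X A * τ x := by
  rw [dEnd_apply, map_sum, LinearMap.trace_eq_matrix_trace ℝ (Module.finBasis ℝ X), Matrix.trace,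
    Finset.sum_mul]
  refine Finset.sum_congr rfl fun i _ => ?_
  rw [hτ.io_mul_iv]
  simp [LinearMap.toMatrix_apply]

theorem exists_topLike (X : Type) [AddCommGroup X] [Module ℝ X] [FiniteDimensional ℝ X] :
    ∃ τ : Ext (Module.Dual ℝ X) →ₗ[ℝ] ℝ, TopLike τ ∧ τ ≠ 0 := by
  let b := Module.finBasis ℝ X
  have hz : ∀ (m : ℕ) (φ : Fin m → Module.Dual ℝ (Module.Dual ℝ X)) (i : Fin m) x,
      ctrs m φ (ctr (φ i) x) = 0 := by
    have hcomm : ∀ (m : ℕ) (ψ : Fin m → Module.Dual ℝ (Module.Dual ℝ X)) χ x,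
        ctr χ (ctrs m ψ x) = (-1 : ℝ) ^ m • ctrs m ψ (ctr χ x) := by
      intro m
      induction m with
      | zero => intro ψ χ x; simp [ctrs]
      | succ m ih =>
        intro ψ χ x
        rw [ctrs_succ, ctrs_succ, ctr_comm, ih, map_smul, pow_succ]; simp
    intro m
    induction m with
    | zero => intro φ i; exact i.elim0
    | succ m ih =>
      intro φ i x
      refine Fin.cases ?_ (fun j => ?_) i
      · rw [ctrs_succ, hcomm, ctr_ctr]; simp
      · rw [ctrs_succ]
        have := ih (Fin.tail φ) j x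
        rw [show φ j.succ = Fin.tail φ j from rfl, this, map_zero]
  refine ⟨(aug (V := Module.Dual ℝ X)).toLinearMap ∘ₗ
    ctrs _ (fun i => Module.Dual.eval ℝ X (b i)), fun v x => ?_, fun h => ?_⟩
  · rw [← b.sum_repr v, iv_sum, map_sum]
    refine Finset.sum_eq_zero fun i _ => ?_
    rw [iv_smul, map_smul, LinearMap.comp_apply,
      hz _ (fun i => Module.Dual.eval ℝ X (b i)) i, map_zero, smul_zero]
  · have h1 := aug_ctrs_prod (fun i => Module.Dual.eval ℝ X (b i)) (fun i => b.coord i)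
    have h2 := LinearMap.congr_fun h (List.ofFn fun i => io (b.coord i)).prod
    simp only [LinearMap.comp_apply, AlgHom.toLinearMap_apply, LinearMap.zero_apply] at h2
    rw [h2] at h1
    have : (Matrix.of fun i j => Module.Dual.eval ℝ X (b i) (b.coord j)) = 1 := by
      ext i j
      simp [Matrix.one_apply, Finsupp.single_apply]
    rw [this] at h1
    simp at h1

end fin

/-- Stokes' theorem for compactly supported forms. -/
theorem stokes {V Y I : Type} [AddCommGroup V] [Module ℝ V] [FiniteDimensional ℝ V]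
    [NormedAddCommGroup Y] [NormedSpace ℝ Y] [FiniteDimensional ℝ Y] [MeasurableSpace Y]
    [BorelSpace Y] (μ : Measure Y) [μ.IsAddHaarMeasure] [Fintype I] (β : I → V) (b : I → Y)
    (lam : Ext V →ₗ[ℝ] ℝ) {w : Y → Ext V} (hw : ContDiff ℝ 1 w) (hs : HasCompactSupport w) :
    ∫ y, lam (dd β b w y) ∂μ = 0 := by
  have h1 : ∀ i, Integrable (fun x => fderiv ℝ w x (b i)) μ := fun i =>
    ((hw.continuous_fderiv one_ne_zero).clm_apply continuous_const).integrable_of_hasCompactSupport
      (hs.fderiv_apply (𝕜 := ℝ) (b i))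
  have h2 : ∀ i y, lam (io (β i) * fderiv ℝ w y (b i)) =
      (lam ∘ₗ LinearMap.mulLeft ℝ (io (β i))) (fderiv ℝ w y (b i)) := fun _ _ => rfl
  simp only [dd, map_sum, h2]
  have h3 : ∀ i, Integrable (fun y =>
      (lam ∘ₗ LinearMap.mulLeft ℝ (io (β i))) (fderiv ℝ w y (b i))) μ := fun i =>
    (LinearMap.toContinuousLinearMap (lam ∘ₗ LinearMap.mulLeft ℝ (io (β i)))).integrable_comp
      (h1 i)
  rw [integral_finsetSum _ fun i _ => h3 i]
  refine Finset.sum_eq_zero fun i _ => ?_
  rw [← integral_lin _ (h1 i), integral_fderiv_eq_zero μ hw hs, map_zero]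

end Pool.Agent.Lib.MP_cdc9ab_al
end

-- part Pool.Agent.Lib.MP_cdc9ab_al.KeyDom
section

/-! Domination of forms by weighted averages, and closure under products. -/

open scoped ENNReal
open Finset MeasureTheory

namespace Pool.Agent.Lib.MP_cdc9ab_al.Key

variable {V : Type} [AddCommGroup V] [Module ℝ V]

/-- Weakly measurable maps to the exterior algebra. -/
def WM {F : Type} [MeasurableSpace F] (g : F → Ext V) : Prop :=
  ∀ lam : Ext V →ₗ[ℝ] ℝ, Measurable fun f => lam (g f)

/-- `Z • x` is dominated by the weighted average of `g`. -/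
def Dom {F : Type} [MeasurableSpace F] (μ : Measure F) (c Z : ℝ≥0∞) (x : Ext V)
    (wt : F → ℝ≥0∞) (g : F → Ext V) : Prop :=
  ∀ lam : Ext V →ₗ[ℝ] ℝ, Z * ‖lam x‖ₑ ≤ c * ∫⁻ f, wt f * ‖lam (g f)‖ₑ ∂μ

variable {F F' : Type} [MeasurableSpace F] [MeasurableSpace F']

theorem WM.comp {g : F → Ext V} (hg : WM g) {h : F' → F} (hh : Measurable h) :
    WM fun f => g (h f) := fun lam => (hg lam).comp hh

theorem WM.const (x : Ext V) : WM fun _ : F => x := fun _ => measurable_const

theorem WM.io {v : F → V} (hv : ∀ φ : V →ₗ[ℝ] ℝ, Measurable fun f => φ (v f)) :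
    WM fun f => io (v f) := fun lam => hv (lam ∘ₗ ExteriorAlgebra.ι ℝ)

variable [FiniteDimensional ℝ V]

theorem WM.mul {g g' : F → Ext V} (hg : WM g) (hg' : WM g') : WM fun f => g f * g' f := by
  intro lam
  let b := Module.finBasis ℝ (Ext V)
  have : (fun f => lam (g f * g' f)) =
      fun f => ∑ i, b.coord i (g f) * (lam ∘ₗ LinearMap.mulLeft ℝ (b i)) (g' f) := by
    funext f
    conv_lhs => rw [← b.sum_repr (g f), Finset.sum_mul, map_sum]
    simp
  rw [this]
  exact Finset.measurable_sum _ fun i _ => (hg _).mul (hg' _)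

theorem WM.prod {p : ℕ} {g : Fin p → F → Ext V} (hg : ∀ j, WM (g j)) :
    WM fun f => (List.ofFn fun j => g j f).prod := by
  induction p with
  | zero => simpa using WM.const (1 : Ext V)
  | succ p ih =>
    simp only [List.ofFn_succ, List.prod_cons]
    exact (hg 0).mul (ih fun j => hg j.succ)

theorem Dom.mul {μ : Measure F} {μ' : Measure F'} [SFinite μ'] {c c' Z Z' : ℝ≥0∞} {x x' : Ext V}
    {wt : F → ℝ≥0∞} {wt' : F' → ℝ≥0∞} {g : F → Ext V} {g' : F' → Ext V}
    (h : Dom μ c Z x wt g) (h' : Dom μ' c' Z' x' wt' g') (hc' : c' ≠ ⊤)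
    (hw : Measurable wt) (hw' : Measurable wt') (hg : WM g) (hg' : WM g') :
    Dom (μ.prod μ') (c * c') (Z * Z') (x * x') (fun p => wt p.1 * wt' p.2)
      (fun p => g p.1 * g' p.2) := by
  intro lam
  have hm : Measurable fun p : F × F' => wt p.1 * wt' p.2 * ‖lam (g p.1 * g' p.2)‖ₑ :=
    ((hw.comp measurable_fst).mul (hw'.comp measurable_snd)).mul
      (((hg.comp measurable_fst).mul (hg'.comp measurable_snd)) lam).enorm
  rw [lintegral_prod _ hm.aemeasurable]
  have h1 := h (lam ∘ₗ LinearMap.mulRight ℝ x')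
  simp only [LinearMap.comp_apply, LinearMap.mulRight_apply] at h1
  calc Z * Z' * ‖lam (x * x')‖ₑ = Z' * (Z * ‖lam (x * x')‖ₑ) := by ring
    _ ≤ Z' * (c * ∫⁻ f, wt f * ‖lam (g f * x')‖ₑ ∂μ) := by gcongr
    _ = c * (Z' * ∫⁻ f, wt f * ‖lam (g f * x')‖ₑ ∂μ) := by ring
    _ ≤ c * ∫⁻ f, Z' * (wt f * ‖lam (g f * x')‖ₑ) ∂μ := by
        gcongr; exact lintegral_const_mul_le _ _
    _ ≤ c * ∫⁻ f, c' * ∫⁻ f', wt f * wt' f' * ‖lam (g f * g' f')‖ₑ ∂μ' ∂μ := by
        gcongr c * ?_
        refine lintegral_mono fun f => ?_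
        have h2 := h' (lam ∘ₗ LinearMap.mulLeft ℝ (g f))
        simp only [LinearMap.comp_apply, LinearMap.mulLeft_apply] at h2
        calc Z' * (wt f * ‖lam (g f * x')‖ₑ) = wt f * (Z' * ‖lam (g f * x')‖ₑ) := by ring
          _ ≤ wt f * (c' * ∫⁻ f', wt' f' * ‖lam (g f * g' f')‖ₑ ∂μ') := by gcongr
          _ = c' * (wt f * ∫⁻ f', wt' f' * ‖lam (g f * g' f')‖ₑ ∂μ') := by ring
          _ ≤ c' * ∫⁻ f', wt f * (wt' f' * ‖lam (g f * g' f')‖ₑ) ∂μ' := by
              gcongr; exact lintegral_const_mul_le _ _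
          _ = _ := by simp only [mul_assoc]
    _ = _ := by rw [lintegral_const_mul' _ _ hc', mul_assoc]

theorem Dom.pi (μ : Measure F) [SigmaFinite μ] {c : ℝ≥0∞} (hc : c ≠ ⊤) {p : ℕ}
    {Z : Fin p → ℝ≥0∞} {x : Fin p → Ext V} {wt : Fin p → F → ℝ≥0∞} {g : F → Ext V}
    (h : ∀ j, Dom μ c (Z j) (x j) (wt j) g) (hw : ∀ j, Measurable (wt j)) (hg : WM g) :
    Dom (Measure.pi fun _ : Fin p => μ) (c ^ p) (∏ j, Z j) (List.ofFn x).prod
      (fun f => ∏ j, wt j (f j)) (fun f => (List.ofFn fun j => g (f j)).prod) := by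
  induction p with
  | zero =>
    intro lam
    simp
  | succ p ih =>
    have h1 := (h 0).mul (ih (fun j => h j.succ) (fun j => hw j.succ)) (ENNReal.pow_ne_top hc)
      (hw 0) (Finset.measurable_prod _ fun j _ => (hw j.succ).comp (measurable_pi_apply j)) hg
      (WM.prod fun j => hg.comp (measurable_pi_apply j))
    intro lam
    have h2 := h1 lam
    rw [(measurePreserving_piFinSuccAbove (fun _ : Fin (p + 1) => μ) 0).lintegral_map_equiv] at h2
    simpa [Fin.prod_univ_succ, List.ofFn_succ, pow_succ', MeasurableEquiv.piFinSuccAbove,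
      Fin.insertNthEquiv, Fin.tail] using h2

end Pool.Agent.Lib.MP_cdc9ab_al.Key
end
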