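import Pool.Agent.Lib.MP_cdc9ab_al.VanEst
import Pool.Agent.Lib.MP_cdc9ab_al.Sqrt
import Pool.Agent.Lib.MP_cdc9ab_al.KeyDom
import Pool.Agent.Lib.MP_cdc9ab_al.Gen3

-- part Pool.Agent.Lib.MP_cdc9ab_al.Good
section

open scoped Matrix.Norms.Operator ContDiff Matrix Topology
open Finset Filter

namespace Pool.Agent.Lib.MP_cdc9ab_al

namespace LData
variable {D : ℕ} {L : LData D}

theorem Good.deg {n : ℕ} {x : Ext (Fin D → ℝ)} (h : L.Good n x) : x ∈ Deg _ n := by
  obtain ⟨f, -, rfl⟩ := h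
  have := mixR_deg eb L.Y isOpen_pos one_mem_pos (p := n) (m := 0)
    (Φ := fun h => algebraMap ℝ _ (f h)) fun _ _ => algebraMap_mem_deg _
  rwa [zero_add] at this

theorem Good.smul {n : ℕ} {x : Ext (Fin D → ℝ)} (c : ℝ) (h : L.Good n x) : L.Good n (c • x) := by
  obtain ⟨f, ⟨h1, h2, h3, C, h4⟩, rfl⟩ := h
  refine ⟨fun h => c • f h, ⟨fun h hh => (h1 h hh).const_smul c, fun h hh => ?_,
    fun A hA h hh => by rw [h3 A hA h hh], |c| * C, fun h hh => ?_⟩, ?_⟩
  · rw [cob_smul, h2 h hh, smul_zero]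
  · rw [smul_eq_mul, abs_mul]
    exact mul_le_mul_of_nonneg_left (h4 h hh) (abs_nonneg _)
  · rw [← mixR_smul]
    simp only [smul_eq_mul, map_mul, Algebra.smul_def]

theorem Good.add {n : ℕ} {x y : Ext (Fin D → ℝ)} (h : L.Good n x) (h' : L.Good n y) :
    L.Good n (x + y) := by
  obtain ⟨f, ⟨h1, h2, h3, C, h4⟩, rfl⟩ := h
  obtain ⟨g, ⟨k1, k2, k3, C', k4⟩, rfl⟩ := h'
  refine ⟨fun h => f h + g h, ⟨fun h hh => (h1 h hh).add (k1 h hh), fun h hh => ?_,
    fun A hA h hh => by rw [h3 A hA h hh, k3 A hA h hh], C + C', fun h hh => ?_⟩, ?_⟩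
  · rw [cob_add, h2 h hh, k2 h hh, add_zero]
  · exact (abs_add_le _ _).trans (add_le_add (h4 h hh) (k4 h hh))
  · rw [← mixR_add _ _ isOpen_pos one_mem_pos (SmOn.alg h1) (SmOn.alg k1)]
    simp only [map_add]

theorem good_zero (n : ℕ) : L.Good n 0 :=
  ⟨fun _ => 0, ⟨fun _ _ => contDiffAt_const, fun _ _ => by simp [cob], fun _ _ _ _ => rfl,
    0, fun _ _ => by simp⟩, by simp only [map_zero]; exact mixR_zero _ _ _ _⟩

theorem good_one : L.Good 0 1 :=
  ⟨fun _ => 1, ⟨fun _ _ => contDiffAt_const, fun _ _ => by simp [cob], fun _ _ _ _ => rfl,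
    1, fun _ _ => by simp⟩, by simp [mixR]⟩

theorem Good.mul {p q : ℕ} {x y : Ext (Fin D → ℝ)} (h : L.Good p x) (h' : L.Good q y) :
    L.Good (q + p) (x * y) := by
  obtain ⟨f, ⟨h1, h2, h3, C, h4⟩, rfl⟩ := h
  obtain ⟨g, ⟨k1, k2, k3, C', k4⟩, rfl⟩ := h'
  have key := mixR_cup eb L.Y isOpen_pos one_mem_pos p q (m := 0) (SmOn.alg h1)
    (fun _ _ => algebraMap_mem_deg _) (mixR_last _ _ isOpen_pos one_mem_pos (SmOn.alg h1)
      fun h hh => (cob_lin (Algebra.linearMap ℝ (Ext (Fin D → ℝ))) f h).trans (by rw [h2 h hh, map_zero])) k1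
  have : L.Good (q + p) (mixR eb L.Y 1 (q + p) (cup p q (fun h => algebraMap ℝ _ (f h)) g)) := by
    refine ⟨cup p q f g, ⟨SmOn.cup h1 k1, fun h hh => ?_, fun A hA h hh => ?_, C' * C,
      fun h hh => ?_⟩, ?_⟩
    · rw [cob_cup p q f k2 h hh, cup, h2 (front (p + 1) q h) fun _ => hh _, smul_zero]
    · exact congrArg₂ (· • ·) (k3 A hA (back p q h) fun _ => hh _)
        (h3 A hA (front p q h) fun _ => hh _)
    · rw [cup, smul_eq_mul, abs_mul]
      exact mul_le_mul (k4 _ fun _ => hh _) (h4 _ fun _ => hh _) (abs_nonneg _)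
        ((abs_nonneg _).trans (k4 (back p q h) fun _ => hh _))
    · congr 1
      funext h
      rw [cup, cup, smul_eq_mul, map_mul, Algebra.smul_def]
  have h5 := this.smul (((-1 : ℝ) ^ (0 + p)) ^ q)
  rwa [key, smul_smul, ← mul_pow, ← mul_pow, neg_mul_neg, one_mul, one_pow, one_pow,
    one_smul] at h5

variable (L)

/-- The good elements of degree `n`. -/
def goodSub (n : ℕ) : Submodule ℝ (Ext (Fin D → ℝ)) where
  carrier := {x | L.Good n x}
  add_mem' := Good.add
  zero_mem' := good_zero n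
  smul_mem' c _ := Good.smul c

/-- The algebra spanned by the good elements. -/
noncomputable def goodAlg : Subalgebra ℝ (Ext (Fin D → ℝ)) :=
  (⨆ n, L.goodSub n).toSubalgebra (Submodule.mem_iSup_of_mem 0 good_one) fun x y hx hy => by
    induction hx using Submodule.iSup_induction' with
    | mem p x hx =>
      induction hy using Submodule.iSup_induction' with
      | mem q y hy => exact Submodule.mem_iSup_of_mem (q + p) (Good.mul hx hy)
      | zero => simp
      | add y z _ _ hy hz => rw [mul_add]; exact add_mem hy hz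
    | zero => simp
    | add x z _ _ hx hz => rw [add_mul]; exact add_mem hx hz

variable {L}

theorem Good.mem {n : ℕ} {x : Ext (Fin D → ℝ)} (h : L.Good n x) : x ∈ L.goodAlg :=
  Submodule.mem_iSup_of_mem (p := L.goodSub) n h

theorem good_of_mem {n : ℕ} {x : Ext (Fin D → ℝ)} (h : x ∈ L.goodAlg) (hx : x ∈ Deg _ n) :
    L.Good n x := by
  let π := GradedAlgebra.proj (fun i => ⋀[ℝ]^i (Fin D → ℝ)) n
  have h1 : ∀ y ∈ ⨆ n, L.goodSub n, π y ∈ L.goodSub n := by
    intro y hy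
    induction hy using Submodule.iSup_induction' with
    | mem m y hy =>
      by_cases e : m = n
      · subst e
        rwa [GradedAlgebra.proj_apply, DirectSum.decompose_of_mem_same _ (Good.deg hy)]
      · rw [GradedAlgebra.proj_apply, DirectSum.decompose_of_mem_ne _ (Good.deg hy) e]
        exact zero_mem _
    | zero => simp
    | add x z _ _ hx hz => rw [map_add]; exact add_mem hx hz
  have h2 := h1 x h
  rwa [GradedAlgebra.proj_apply, DirectSum.decompose_of_mem_same _ hx] at h2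

section class_
variable {n : ℕ} {F : (Fin (n + 1) → Mat D) → ℝ}

theorem toLin'_eb (k : Mat D) (b : Fin D) : Matrix.toLin' k (eb b) = ∑ a, k a b • eb a := by
  funext c
  simp [eb, Finset.sum_apply, Pi.single_apply, Matrix.col]

theorem mixR_act (hF : SmOn (Pos D) F) (g k : Mat D) (hg : IsUnit g) (h1 : act g 1 = 1)
    (hk : ∀ a, act g (L.Y a) = ∑ b, k a b • L.Y b) :
    mixR eb L.Y 1 n (fun h => algebraMap ℝ _ (F fun i => act g (h i))) =
      ExteriorAlgebra.map (Matrix.toLin' k) (mixR eb L.Y 1 n fun h => algebraMap ℝ _ (F h)) := by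
  have := mixR_comp L.Y eb L.Y isOpen_pos (φ := act g) one_mem_pos (fun _ => act_mem_pos hg)
    (act g).differentiableAt (fun b a => k a b) 
    (fun a => (congrArg (fun T => T (L.Y a)) (act g).fderiv).trans (hk a)) hF.alg
  rw [this, h1, mixR_map _ _ isOpen_pos one_mem_pos _ hF.alg]
  simp only [AlgHom.commutes, toLin'_eb]

theorem mixR_hor (hF : SmOn (Pos D) F) :
    ExteriorAlgebra.map (Matrix.toLin' (Matrix.diagonal L.ip))
      (mixR eb L.Y 1 n fun h => algebraMap ℝ _ (F h)) =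
      mixR eb L.Y 1 n fun h => algebraMap ℝ _ (F h) := by
  rw [← mixR_act hF 1 _ isUnit_one (act_one _) fun a => ?_]
  · simp only [act_one]
  · rw [act_one, Finset.sum_eq_single a (fun b _ hb => by simp [Matrix.diagonal_apply_ne' _ hb])
      (by simp), Matrix.diagonal_apply_eq, Y, smul_smul, ip_mul_ip]

theorem mixR_kinv (hF : IsSCoc (Pos D) L.acts F) {k : Mat D} (hk : k ∈ L.K) :
    ExteriorAlgebra.map (Matrix.toLin' k) (mixR eb L.Y 1 n fun h => algebraMap ℝ _ (F h)) =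
      mixR eb L.Y 1 n fun h => algebraMap ℝ _ (F h) := by
  rw [← mixR_act hF.smooth k k (isUnit_of_gam hk.1) (by rw [act_apply, mul_one, hk.2])
    fun a => by rw [act_apply, K_conj_Y hk]]
  exact mixR_congr _ _ isOpen_pos one_mem_pos fun h hh =>
    congrArg _ (hF.inv _ ⟨k, hk.1, rfl⟩ h hh)

end class_

end LData

namespace Retr
variable {D : ℕ} {L : LData D} (r : Retr L)

/-- The retraction onto the symmetric space. -/
noncomputable def rr (h : Mat D) : Mat D := act (r.q h)⁻¹ 1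

theorem smooth_inv {h : Mat D} (hh : h ∈ Pos D) :
    ContDiffAt ℝ ∞ (fun h : Mat D => (r.q h)⁻¹) h := by
  obtain ⟨u, hu⟩ := LData.isUnit_of_gam (r.mem _ hh)
  simp only [Matrix.nonsing_inv_eq_ringInverse]
  refine ContDiffAt.comp (g := Ring.inverse) h ?_ (r.smooth _ hh)
  rw [← hu]
  exact contDiffAt_ringInverse ℝ u

theorem rr_mem {h : Mat D} (hh : h ∈ Pos D) : r.rr h ∈ Pos D :=
  act_mem_pos (LData.isUnit_of_gam (LData.inv_mem_gam (r.mem h hh))) one_mem_pos

theorem rr_smooth {h : Mat D} (hh : h ∈ Pos D) : ContDiffAt ℝ ∞ r.rr h := by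
  have := ((contDiffAt_lin (Matrix.transposeLinearEquiv (Fin D) (Fin D) ℝ ℝ).toLinearMap
    (r.smooth_inv hh)).mul contDiffAt_const (g := fun _ => 1)).mul (r.smooth_inv hh)
  exact this

theorem rr_act {g h : Mat D} (hg : g ∈ L.Gam) (hh : h ∈ Pos D) :
    r.rr (act g h) = act g (r.rr h) := by
  obtain ⟨k, hk, e⟩ := r.equiv g hg h hh
  have hd := (Matrix.isUnit_iff_isUnit_det _).mp (LData.isUnit_of_gam hg)
  have e1 : (r.q (act g h))⁻¹ = kᵀ * ((r.q h)⁻¹ * g) := by
    rw [← mul_assoc, ← Matrix.inv_eq_left_inv hk.2, ← Matrix.mul_inv_rev, ← e, Matrix.mul_inv_rev,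
      mul_assoc, Matrix.nonsing_inv_mul _ hd, mul_one]
  rw [rr, rr, e1, act_mul, act_mul, act_apply kᵀ, Matrix.transpose_transpose, mul_one,
    LData.K_mul_transpose hk]

theorem rr_one : r.rr 1 = 1 := by rw [rr, r.one, inv_one, act_one]

theorem rr_tangent {y : Mat D} (hy : y ∈ Pos D) (v : Mat D) :
    ∃ u : Fin D → ℝ, fderiv ℝ (fun h => act (r.q y) (r.rr h)) y v = ∑ a, u a • L.Y a := by
  have hd := (Matrix.isUnit_iff_isUnit_det _).mp (LData.isUnit_of_gam (r.mem y hy))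
  set δ : Mat D → Mat D := fun h => r.q y * (r.q h)⁻¹
  have hδ : DifferentiableAt ℝ δ y :=
    (contDiffAt_const.mul (r.smooth_inv hy)).differentiableAt infty_ne_zero
  have h1 : δ y = 1 := Matrix.mul_nonsing_inv _ hd
  obtain ⟨u, hu⟩ := L.tangent hδ (by
    filter_upwards [isOpen_pos.mem_nhds hy] with h hh
    exact (LData.aut_of_gam (r.mem y hy)).mul (LData.aut_of_gam (r.mem h hh)).inv) v
  have e : (fun h => act (r.q y) (r.rr h)) =ᶠ[𝓝 y] fun h => δ h * (δ h)ᵀ := by
    filter_upwards [isOpen_pos.mem_nhds hy] with h hh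
    simp only [rr, act_apply, δ, Matrix.transpose_mul, Matrix.transpose_nonsing_inv, r.symm h hh,
      r.symm y hy, mul_one, mul_assoc]
  let T := (Matrix.transposeLinearEquiv (Fin D) (Fin D) ℝ ℝ).toLinearMap
  have h2 := (hδ.hasFDerivAt.fun_mul' (hasFDerivAt_lin T hδ)).fderiv
  refine ⟨fun a => 2 * u a, ?_⟩
  rw [e.fderiv_eq]
  refine (congrArg (fun S => S v) h2).trans ?_
  refine (congrArg (fun S : Mat D => δ y * Sᵀ + S * (δ y)ᵀ) hu).trans ?_
  beta_reduce
  rw [h1, Matrix.transpose_one, one_mul, one_mul, mul_one, LData.adv, Matrix.transpose_sum,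
    ← Finset.sum_add_distrib]
  refine Finset.sum_congr rfl fun a _ => ?_
  rw [Matrix.transpose_smul, L.transp, LData.Y, LData.ip]
  module

/-- A smooth invariant cocycle with vanishing class is a coboundary on the symmetric space. -/
theorem vanish {n : ℕ} {F : (Fin (n + 1) → Mat D) → ℝ} (hF : IsSCoc (Pos D) L.acts F)
    (h0 : mixR eb L.Y 1 n (fun h => algebraMap ℝ _ (F h)) = 0) :
    ∃ g : (Fin n → Mat D) → ℝ, SmOn (Pos D) g ∧
      (∀ A ∈ L.acts, ∀ h, (∀ i, h i ∈ Pos D) → g (fun i => A (h i)) = g h) ∧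
      ∀ h, (∀ i, h i ∈ Pos D) → F (fun i => r.rr (h i)) = cob g h := by
  refine vanEst isOpen_pos convex_pos L.acts_mem_pos (f := fun h => F fun i => r.rr (h i))
    ⟨fun h hh => ?_, fun h hh => hF.coc (fun i => r.rr (h i)) fun i => r.rr_mem (hh i), ?_⟩
    fun y hy => ?_
  · exact (hF.smooth _ fun i => r.rr_mem (hh i)).comp h (contDiffAt_pi.mpr fun i =>
      (r.rr_smooth (hh i)).comp h (contDiffAt_apply ℝ _ i h))
  · rintro _ ⟨g, hg, rfl⟩ h hh
    exact (congrArg F (funext fun i => r.rr_act hg (hh i))).trans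
      (hF.inv _ ⟨g, hg, rfl⟩ _ fun i => r.rr_mem (hh i))
  · choose u hu using fun j => r.rr_tangent hy (fb (Mat D) j)
    have hq := LData.isUnit_of_gam (r.mem y hy)
    have hd := (Matrix.isUnit_iff_isUnit_det _).mp hq
    have h1 : act (r.q y) (r.rr y) = 1 := by
      rw [rr, ← act_mul, Matrix.nonsing_inv_mul _ hd, act_one]
    have h2 := mixR_comp L.Y (fc (Mat D)) (fb (Mat D)) isOpen_pos
      (φ := fun h => act (r.q y) (r.rr h)) hy (fun h hh => act_mem_pos hq (r.rr_mem hh))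
      ((act (r.q y)).differentiableAt.comp y ((r.rr_smooth hy).differentiableAt infty_ne_zero))
      (fun a j => u j a) hu (SmOn.alg hF.smooth)
    let f := Fintype.linearCombination ℝ fun a => ∑ j, u j a • fc (Mat D) j
    have h3 := mixR_map eb L.Y isOpen_pos one_mem_pos f (SmOn.alg hF.smooth)
    simp only [AlgHom.commutes, h0, map_zero, f, eb, Fintype.linearCombination_apply_single,
      one_smul] at h3
    rw [h1, ← h3] at h2
    rw [← h2]
    exact mixR_congr _ _ isOpen_pos hy fun h hh =>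
      congrArg _ (hF.inv _ ⟨_, r.mem y hy, rfl⟩ _ fun i => r.rr_mem (hh i)).symm

end Retr

end Pool.Agent.Lib.MP_cdc9ab_al
end

-- part Pool.Agent.Lib.MP_cdc9ab_al.GromovAlg
section

/-! Matrix algebra for the canonical connection with values in `k`. -/

open scoped Matrix.Norms.Operator ContDiff Matrix
open Finset

namespace Pool.Agent.Lib.MP_cdc9ab_al

namespace Gro
variable {D : ℕ}

/-- The symmetric part. -/
noncomputable def symL (D : ℕ) : Mat D →ₗ[ℝ] Mat D :=
  (1 / 2 : ℝ) • (LinearMap.id + (Matrix.transposeLinearEquiv (Fin D) (Fin D) ℝ ℝ).toLinearMap)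

theorem symL_apply (h : Mat D) : symL D h = (1 / 2 : ℝ) • (h + hᵀ) := rfl

theorem symL_transpose (h : Mat D) : (symL D h)ᵀ = symL D h := by
  simp [symL_apply, add_comm]

theorem symL_pos {h : Mat D} (hh : h ∈ Pos D) : symL D h ∈ Pos D := by
  rw [symL_apply, smul_add]
  exact convex_pos hh (transpose_mem_pos hh) (by norm_num) (by norm_num) (by norm_num)

theorem symL_act (g h : Mat D) : symL D (act g h) = gᵀ * symL D h * g := by
  simp [symL_apply, mul_add, add_mul, mul_assoc]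

end Gro

open Gro

namespace LData
variable {D : ℕ} (L : LData D)

theorem gr_grading (a b c : Fin D) : L.ad a c b = -(L.s a * L.s b * L.s c) * L.ad a c b := by
  have h : ∀ a b c, L.ad a b c = L.s a * L.ad a c b := fun a b c =>
    congrFun (congrFun (L.transp a) c) b
  linear_combination L.anti a b c - h b c a - L.s b * L.anti b c a + L.s b * h c a b +
    L.s b * L.s c * L.anti c a b - L.s b * L.s c * h a b c

/-- Coordinates of the projection to `k`. -/
noncomputable def grP : Mat D →ₗ[ℝ] (Fin D → ℝ) :=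
  LinearMap.pi fun c => (1 - L.ip c) •
    (Matrix.traceLinearMap (Fin D) ℝ ℝ ∘ₗ LinearMap.mulRight ℝ (L.ad c)ᵀ)

theorem grP_apply (M : Mat D) (c : Fin D) :
    L.grP M c = (1 - L.ip c) * (M * (L.ad c)ᵀ).trace := rfl

/-- The projection to `k`. -/
noncomputable def grK : Mat D →ₗ[ℝ] Mat D := L.advL ∘ₗ L.grP

theorem grK_apply (M : Mat D) : L.grK M = L.adv (L.grP M) := rfl

/-- Elements of `k`. -/
def GrS (κ : Mat D) : Prop := (∃ y, κ = L.adv y) ∧ κᵀ = -κ

theorem grP_transpose (M : Mat D) : L.grP Mᵀ = -L.grP M := by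
  funext c
  rw [Pi.neg_apply, grP_apply, grP_apply, ← Matrix.transpose_mul, Matrix.trace_transpose,
    Matrix.trace_mul_comm, L.transp, Matrix.mul_smul, Matrix.trace_smul, smul_eq_mul]
  rcases L.s_sq c with h | h <;> simp [ip, h]

theorem grP_symm {M : Mat D} (h : Mᵀ = M) : L.grP M = 0 := by
  have := L.grP_transpose M
  rw [h] at this
  funext c
  have := congrFun this c
  simp only [Pi.neg_apply, Pi.zero_apply] at this ⊢
  linarith

theorem grP_adv (y : Fin D → ℝ) (c : Fin D) : L.grP (L.adv y) c = (1 - L.ip c) * y c := by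
  rw [grP_apply, trace_adv_mul]

theorem grS_grK (M : Mat D) : L.GrS (L.grK M) := by
  refine ⟨⟨_, rfl⟩, ?_⟩
  rw [grK_apply, adv_transpose, ← adv_neg]
  congr 1
  funext c
  rw [Matrix.mulVec_diagonal, Pi.neg_apply, grP_apply]
  rcases L.s_sq c with h | h <;> simp [ip, h]

variable {L} in
theorem GrS.grK {κ : Mat D} (h : L.GrS κ) : L.grK κ = κ := by
  obtain ⟨⟨y, rfl⟩, h⟩ := h
  rw [adv_transpose, ← adv_neg] at h
  rw [grK_apply]
  congr 1
  funext c
  have := congrFun (L.adv_injective h) c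
  rw [Matrix.mulVec_diagonal, Pi.neg_apply] at this
  rw [grP_adv]
  rcases L.s_sq c with h | h <;> simp only [ip, h] at this ⊢ <;> linarith

theorem grP_grK (M : Mat D) : L.grP (L.grK M) = L.grP M := L.adv_injective (L.grS_grK M).grK

theorem gr_killing (y : Fin D → ℝ) (b c : Fin D) :
    L.adv y b c * L.s b = -(L.s c * L.adv y c b) := by
  simp only [adv, Matrix.sum_apply, Matrix.smul_apply, smul_eq_mul, sum_mul, mul_sum,
    ← sum_neg_distrib]
  refine sum_congr rfl fun a _ => ?_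
  have h1 : L.ad a b c = L.s a * L.ad a c b := congrFun (congrFun (L.transp a) c) b
  have h2 := L.gr_grading a b c
  have h3 := L.s_mul_s c
  rw [h1]
  linear_combination (y a * L.s c) * h2 - (y a * L.s a * L.s b * L.ad a c b) * h3

variable {L} in
theorem GrS.grP_comm {κ : Mat D} (h : L.GrS κ) (M : Mat D) :
    L.grP (κ * M - M * κ) = κ *ᵥ L.grP M := by
  obtain ⟨⟨y, rfl⟩, h⟩ := h
  have hs : ∀ b c, L.adv y b c = -L.adv y c b := fun b c => congrFun (congrFun h c) b
  funext c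
  have h1 : (L.ad c)ᵀ * L.adv y - L.adv y * (L.ad c)ᵀ = ∑ b, L.adv y c b • (L.ad b)ᵀ := by
    have := congrArg Matrix.transpose (L.adv_lie y (Pi.single c 1))
    rw [adv_single, Matrix.transpose_sub, Matrix.transpose_mul, Matrix.transpose_mul, h,
      Matrix.mulVec_single_one, adv.eq_1 L (Matrix.col _ _), Matrix.transpose_sum] at this
    rw [← neg_inj, ← sum_neg_distrib]
    refine Eq.trans (by noncomm_ring) (this.trans (sum_congr rfl fun b _ => ?_))
    rw [Matrix.transpose_smul, ← neg_smul, ← hs]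
    rfl
  rw [grP_apply, Matrix.sub_mul, Matrix.trace_sub, mul_assoc, Matrix.trace_mul_comm, mul_assoc, mul_assoc,
    ← Matrix.trace_sub, ← mul_sub, h1, mul_sum, Matrix.trace_sum, mul_sum]
  refine sum_congr rfl fun b _ => ?_
  have h2 := L.gr_killing y b c
  rw [hs] at h2
  simp only [grP_apply, Matrix.mul_smul, Matrix.trace_smul, smul_eq_mul, ip]
  linear_combination (-(M * (L.ad b)ᵀ).trace / 2) * h2

variable {L} in
theorem GrS.grK_comm {κ : Mat D} (h : L.GrS κ) (M : Mat D) :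
    L.grK (κ * M - M * κ) = κ * L.grK M - L.grK M * κ := by
  rw [grK_apply, h.grP_comm]
  obtain ⟨⟨y, rfl⟩, -⟩ := h
  rw [grK_apply, adv_lie]

variable {L} in
theorem grP_conj {k : Mat D} (hk : k ∈ L.K) (M : Mat D) : L.grP (kᵀ * M * k) = kᵀ *ᵥ L.grP M := by
  funext c
  have h1 : k * (L.ad c)ᵀ * kᵀ = ∑ b, k b c • (L.ad b)ᵀ := by
    have := congrArg Matrix.transpose (K_conj (transpose_mem_K hk) (Pi.single c 1))
    rw [adv_single, Matrix.transpose_transpose, Matrix.transpose_mul, Matrix.transpose_mul,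
      Matrix.transpose_transpose, Matrix.mulVec_single_one, adv, Matrix.transpose_sum] at this
    rw [mul_assoc, this]
    rfl
  rw [grP_apply, mul_assoc, mul_assoc, Matrix.trace_mul_comm, mul_assoc, h1, mul_sum,
    Matrix.trace_sum, mul_sum]
  refine sum_congr rfl fun b _ => ?_
  have h2 := K_ip hk b c
  simp only [grP_apply, Matrix.mul_smul, Matrix.trace_smul, smul_eq_mul, Matrix.transpose_apply]
  linear_combination (M * (L.ad b)ᵀ).trace * h2

variable {L} in
theorem grK_conj {k : Mat D} (hk : k ∈ L.K) (M : Mat D) : L.grK (kᵀ * M * k) = kᵀ * L.grK M * k := by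
  rw [grK_apply, grP_conj hk, grK_apply, K_conj hk]

/-- The curvature as a bilinear expression in the Maurer-Cartan form. -/
noncomputable def grF : Mat D →ₗ[ℝ] Mat D →ₗ[ℝ] (Fin D → ℝ) :=
  ((LinearMap.mul ℝ (Mat D)).compl₁₂ L.grK L.grK - LinearMap.mul ℝ (Mat D)).compr₂ L.grP

theorem grF_apply (A B : Mat D) : L.grF A B = L.grP (L.grK A * L.grK B - A * B) := rfl

variable {L} in
theorem grF_gauge {k κ κ' : Mat D} (hk : k ∈ L.K) (h : L.GrS κ) (h' : L.GrS κ') (A B : Mat D) :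
    L.grF (kᵀ * A * k + κ) (kᵀ * B * k + κ') - L.grF (kᵀ * B * k + κ') (kᵀ * A * k + κ) =
      kᵀ *ᵥ (L.grF A B - L.grF B A) := by
  have h1 : ∀ A B, L.grF (kᵀ * A * k) (kᵀ * B * k) = kᵀ *ᵥ L.grF A B := fun A B => by
    have e : ∀ A B : Mat D, kᵀ * A * k * (kᵀ * B * k) = kᵀ * (A * B) * k := fun A B => by
      calc _ = kᵀ * A * (k * kᵀ) * B * k := by noncomm_ring
        _ = _ := by rw [K_mul_transpose hk]; noncomm_ring
    rw [grF_apply, grF_apply, grK_conj hk, grK_conj hk, e, e, ← grP_conj hk, mul_sub, sub_mul]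
  rw [Matrix.mulVec_sub, ← h1, ← h1]
  generalize kᵀ * A * k = A
  generalize kᵀ * B * k = B
  have a1 := h.grP_comm B
  have a2 := h.grP_comm (L.grK B)
  have a3 := h'.grP_comm A
  have a4 := h'.grP_comm (L.grK A)
  rw [grP_grK, ← a1] at a2
  rw [grP_grK, ← a3] at a4
  rw [← sub_eq_zero, ← map_sub] at a2 a4
  rw [← sub_eq_zero, ← sub_zero (0 : Fin D → ℝ)]
  nth_rw 1 [← a2]
  rw [← a4]
  simp only [grF_apply, ← map_sub, map_add L.grK, h.grK, h'.grK]
  congr 1
  noncomm_ring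

theorem grF_Y (a b c : Fin D) :
    (L.grF ((-1 / 2 : ℝ) • L.Y a) ((-1 / 2 : ℝ) • L.Y b) -
      L.grF ((-1 / 2 : ℝ) • L.Y b) ((-1 / 2 : ℝ) • L.Y a)) c =
      -1 / 4 * (L.ip a * L.ip b * L.ad a c b) := by
  have h0 : ∀ a, L.grK (L.Y a) = 0 := fun a => by rw [grK_apply, L.grP_symm (L.Y_transpose a), adv_zero]
  have h1 := L.grP_adv (L.adv (Pi.single a 1) *ᵥ Pi.single b 1) c
  rw [← adv_lie, adv_single, adv_single, Matrix.mulVec_single_one, map_sub] at h1
  have h2 := L.gr_grading a b c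
  simp only [map_smul, LinearMap.smul_apply, grF_apply, h0, mul_zero, zero_sub, map_neg]
  simp only [Y, Matrix.smul_mul, Matrix.mul_smul, map_smul, Pi.sub_apply, Pi.smul_apply,
    Pi.neg_apply, smul_eq_mul, Matrix.col_apply] at h1 ⊢
  rcases L.s_sq a with ha | ha <;> rcases L.s_sq b with hb | hb <;> rcases L.s_sq c with hc | hc <;>
    simp only [ip, ha, hb, hc] at h1 h2 ⊢ <;> linarith

theorem gr_moment {m : Mat D} (hm : ∀ a, (L.Y a * m).trace = 0) (z : Fin D → ℝ) :
    ((L.adv z + (L.adv z)ᵀ) * m).trace = 0 := by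
  have : L.adv z + (L.adv z)ᵀ = ∑ a, (2 * z a) • L.Y a := by
    rw [adv, Matrix.transpose_sum, ← sum_add_distrib]
    refine sum_congr rfl fun a _ => ?_
    rw [Matrix.transpose_smul, L.transp, Y, smul_smul, smul_smul, ← add_smul, ip]
    congr 1; ring
  simp [this, sum_mul, Matrix.trace_sum, hm]

/-- The equations of the minimal frame are nondegenerate. -/
theorem gr_rigid {q h A : Mat D} (hq : L.Aut q) (hp : q ∈ Pos D) (hs : qᵀ = q) (hh : h ∈ Pos D)
    (hm : ∀ a, (L.Y a * (q * h * q)).trace = 0)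
    (h1 : ∀ a, A * L.ad a = L.adv (A *ᵥ Pi.single a 1) * q + L.adv (q *ᵥ Pi.single a 1) * A)
    (h2 : Aᵀ = A) (h3 : ∀ a, (L.Y a * (A * h * q + q * h * A)).trace = 0) : A = 0 := by
  have hd := (Matrix.isUnit_iff_isUnit_det _).mp hq.1
  have key : ∀ z, A * L.adv z = L.adv (A *ᵥ z) * q + L.adv (q *ᵥ z) * A := by
    intro z
    have e : ∀ M : Mat D, L.adv (M *ᵥ z) = ∑ a, z a • L.adv (M *ᵥ Pi.single a 1) := fun M => by
      conv_lhs => rw [← univ_sum_single z, Matrix.mulVec_sum, ← advL_apply, map_sum]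
      refine sum_congr rfl fun a _ => ?_
      rw [← adv_smul, ← Matrix.mulVec_smul, ← Pi.single_smul', smul_eq_mul, mul_one, advL_apply]
    rw [e, e, adv, mul_sum, sum_mul, sum_mul, ← sum_add_distrib]
    exact sum_congr rfl fun a _ => by
      rw [Matrix.mul_smul, h1, smul_add, Matrix.smul_mul, Matrix.smul_mul]
  obtain ⟨y, hy⟩ := L.der_inner (q⁻¹ * A) fun z => by
    have e1 := hq.inv.2
    rw [mul_assoc, key, mul_add, ← mul_assoc, ← mul_assoc, e1, e1, Matrix.mulVec_mulVec,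
      Matrix.mulVec_mulVec, Matrix.nonsing_inv_mul _ hd, Matrix.one_mulVec, mul_assoc,
      Matrix.nonsing_inv_mul _ hd, mul_one, mul_assoc, add_sub_cancel_right]
  have e1 : A = q * L.adv y := by rw [← hy, ← mul_assoc, Matrix.mul_nonsing_inv _ hd, one_mul]
  have e2 : A = (L.adv y)ᵀ * q := by rw [← h2, e1, Matrix.transpose_mul, hs]
  have hm' : q * h * q ∈ Pos D := by simpa [hs] using act_mem_pos hq.1 hh
  have a1 := L.gr_moment h3 y
  have a2 := L.gr_moment hm (L.adv y *ᵥ (y + Matrix.diagonal L.s *ᵥ y))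
  rw [← adv_lie, adv_add, ← adv_transpose] at a2
  simp only [Matrix.transpose_sub, Matrix.transpose_mul, Matrix.transpose_add,
    Matrix.transpose_transpose] at a2
  nth_rw 1 [e2] at a1
  rw [e1] at a1
  have a3 : L.adv y + (L.adv y)ᵀ = 0 := by
    refine eq_zero_of_trace_conj hm' (le_of_eq ?_)
    rw [Matrix.transpose_add, Matrix.transpose_transpose, Matrix.trace_mul_comm]
    generalize L.adv y = B at a1 a2 ⊢
    have c1 : (B + Bᵀ) * (Bᵀ * q * h * q + q * h * (q * B)) =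
      (B + Bᵀ) * Bᵀ * (q * h * q) + (B + Bᵀ) * (q * h * q) * B := by noncomm_ring
    rw [c1, Matrix.trace_add, Matrix.trace_mul_comm _ B] at a1
    have c2 : (2 : ℝ) • ((B + Bᵀ) * ((Bᵀ + B) * (q * h * q))) =
        (2 : ℝ) • ((B + Bᵀ) * Bᵀ * (q * h * q) + B * ((B + Bᵀ) * (q * h * q))) -
        (B * (B + Bᵀ) - (B + Bᵀ) * B + ((Bᵀ + B) * Bᵀ - Bᵀ * (Bᵀ + B))) * (q * h * q) := by
      simp only [two_smul]; noncomm_ring
    have c3 := congrArg Matrix.trace c2
    rw [Matrix.trace_sub, a2, Matrix.trace_smul, Matrix.trace_smul, Matrix.trace_add, a1] at c3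
    simpa using c3
  have a4 : L.adv y = 0 := sylv hp hp (by
    rw [← e1, e2, ← add_mul, add_comm, a3, zero_mul])
  rw [e1, a4, mul_zero]

/-- The curvature of the universal connection. -/
noncomputable def grQ {I : Type} [Fintype I] (A : I → Mat D) :
    (I → Mat D) →ₗ[ℝ] (I → Mat D) →ₗ[ℝ] (Fin D → ℝ) :=
  LinearMap.mk₂ ℝ (fun v w => L.grP (L.grK (∑ l, (A l)ᵀ * v l) * L.grK (∑ l, (A l)ᵀ * w l) +
      ∑ l, (v l)ᵀ * w l))
    (fun _ _ _ => by
      simp only [Pi.add_apply, Matrix.transpose_add, mul_add, add_mul, sum_add_distrib, map_add]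
      abel)
    (fun _ _ _ => by
      simp only [Pi.smul_apply, Matrix.transpose_smul, Matrix.mul_smul, Matrix.smul_mul,
        ← smul_sum, map_smul, ← smul_add])
    (fun _ _ _ => by
      simp only [Pi.add_apply, mul_add, sum_add_distrib, map_add]
      abel)
    (fun _ _ _ => by
      simp only [Pi.smul_apply, Matrix.mul_smul, ← smul_sum, map_smul, ← smul_add])

theorem grQ_apply {I : Type} [Fintype I] (A v w : I → Mat D) : L.grQ A v w =
    L.grP (L.grK (∑ l, (A l)ᵀ * v l) * L.grK (∑ l, (A l)ᵀ * w l) + ∑ l, (v l)ᵀ * w l) := rfl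

theorem grQ_eq {I : Type} [Fintype I] (σ a b : I → ℝ) (g A v w : I → Mat D) (B C : Mat D)
    (hA : ∀ l, A l = σ l • g l) (hv : ∀ l, v l = a l • g l + A l * B)
    (hw : ∀ l, w l = b l • g l + A l * C) (h1 : ∑ l, (A l)ᵀ * A l = 1)
    (h2 : ∑ l, ((v l)ᵀ * A l + (A l)ᵀ * v l) = 0) (h3 : ∑ l, ((w l)ᵀ * A l + (A l)ᵀ * w l) = 0) :
    L.grQ A v w - L.grQ A w v = L.grF B C - L.grF C B := by
  obtain ⟨S, hS⟩ : ∃ S : (I → ℝ) → Mat D, ∀ a, S a = ∑ l, (σ l * a l) • ((g l)ᵀ * g l) :=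
    ⟨_, fun _ => rfl⟩
  have s1 : ∀ a, (S a)ᵀ = S a := fun a => by simp [hS, Matrix.transpose_sum]
  have s2 : ∀ (a : I → ℝ) (B : Mat D), ∑ l, (A l)ᵀ * (a l • g l + A l * B) = S a + B := by
    intro a B
    simp only [mul_add, sum_add_distrib, ← mul_assoc, ← sum_mul, h1, one_mul, hS]
    simp only [hA, Matrix.transpose_smul, Matrix.smul_mul, Matrix.mul_smul, smul_smul, mul_comm]
  have s3 : ∀ (a : I → ℝ) (B : Mat D), ∑ l, (a l • g l + A l * B)ᵀ * A l = S a + Bᵀ := by
    intro a B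
    have := congrArg Matrix.transpose (s2 a B)
    simpa only [Matrix.transpose_sum, Matrix.transpose_mul, Matrix.transpose_transpose,
      Matrix.transpose_add _ B, s1] using this
  have s4 : ∀ (a b : I → ℝ) (B C : Mat D), ∑ l, (a l • g l + A l * B)ᵀ * (b l • g l + A l * C) =
      ∑ l, (a l * b l) • ((g l)ᵀ * g l) + Bᵀ * S b + (S a + Bᵀ) * C := by
    intro a b B C
    simp only [mul_add _ (_ • _), sum_add_distrib, ← mul_assoc, ← sum_mul, s3]
    simp only [hA, hS, Matrix.transpose_smul, Matrix.transpose_add, Matrix.transpose_mul, add_mul,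
      Matrix.smul_mul, Matrix.mul_smul, smul_smul, sum_add_distrib, mul_sum, mul_comm,
      mul_assoc]
  simp only [hv, hw, sum_add_distrib, s2, s3] at h2 h3
  have s5 : ∀ a B, L.grK (S a + B) = L.grK B := fun a B => by
    rw [map_add, grK_apply, L.grP_symm (s1 a), adv_zero, zero_add]
  have e1 : S a = (-1 / 2 : ℝ) • (B + Bᵀ) := by
    linear_combination (norm := module) (1 / 2 : ℝ) • h2
  have e2 : S b = (-1 / 2 : ℝ) • (C + Cᵀ) := by
    linear_combination (norm := module) (1 / 2 : ℝ) • h3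
  have e3 := L.grP_symm (symL_transpose (B * C - C * B))
  simp only [grQ_apply, grF_apply, hv, hw, s2, s4, s5]
  rw [← sub_eq_zero, ← e3]
  simp only [← map_sub, e1, e2, mul_comm (b _), symL_apply]
  congr 1
  simp only [Matrix.transpose_sub, Matrix.transpose_mul, mul_add, add_mul, Matrix.smul_mul,
    Matrix.mul_smul]
  module

end LData

end Pool.Agent.Lib.MP_cdc9ab_al
end

-- part Pool.Agent.Lib.MP_cdc9ab_al.GromovExt
section

/-! Exterior algebra tools: two-forms, three-forms, invariant polynomials, values of forms. -/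

open scoped Matrix.Norms.Operator ContDiff Matrix
open Finset Function

namespace Pool.Agent.Lib.MP_cdc9ab_al.Gro

section two
variable {V : Type} [AddCommGroup V] [Module ℝ V] {I : Type} [Fintype I]

theorem io_anti (a b : V) : io a * io b = -(io b * io a) :=
  eq_neg_of_add_eq_zero_left (ExteriorAlgebra.ι_add_mul_swap a b)

theorem io_anti' (a b : V) (x : Ext V) : io a * (io b * x) = -(io b * (io a * x)) := by
  rw [← mul_assoc, io_anti, neg_mul, mul_assoc]

/-- The two-form with given coefficients. -/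
noncomputable def tw (e : I → V) (η : I → I → ℝ) : Ext V :=
  ∑ i, ∑ k, η i k • (io (e i) * io (e k))

theorem tw_congr (e : I → V) {η η' : I → I → ℝ} (h : ∀ i k, η i k - η k i = η' i k - η' k i) :
    tw e η = tw e η' := by
  have h1 : ∀ η : I → I → ℝ, tw e (fun i k => η i k - η k i) = (2 : ℝ) • tw e η := fun η => by
    simp only [tw, sub_smul, sum_sub_distrib, two_smul]
    rw [sub_eq_add_neg, ← sum_neg_distrib]
    congr 1
    simp only [← sum_neg_distrib]
    rw [sum_comm]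
    exact sum_congr rfl fun i _ => sum_congr rfl fun k _ => by rw [io_anti, smul_neg, neg_neg]
  refine smul_right_injective _ (two_ne_zero (α := ℝ)) ?_
  simp only [← h1, h]

theorem tw_mem (e : I → V) (η : I → I → ℝ) : tw e η ∈ ⋀[ℝ]^2 V :=
  Submodule.sum_mem _ fun i _ => Submodule.sum_mem _ fun k _ => Submodule.smul_mem _ _ (by
    rw [ExteriorAlgebra.exteriorPower, pow_two]
    exact Submodule.mul_mem_mul ⟨_, rfl⟩ ⟨_, rfl⟩)

theorem tw_comm (a : V) (e : I → V) (η : I → I → ℝ) : Commute (io a) (tw e η) :=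
  Commute.sum_right _ _ _ fun i _ => Commute.sum_right _ _ _ fun k _ => Commute.smul_right (by
    rw [Commute, SemiconjBy, io_anti', io_anti a, mul_neg, neg_neg, mul_assoc]) _

theorem tw_map {X : Type} [NormedAddCommGroup X] [NormedSpace ℝ X] [FiniteDimensional ℝ X]
    (ψ : Module.Dual ℝ X →ₗ[ℝ] V) (b : I → X) (e : I → V) (hψ : ∀ φ, ψ φ = ∑ i, φ (b i) • e i)
    (η : X →ₗ[ℝ] X →ₗ[ℝ] ℝ) :
    ExteriorAlgebra.map ψ (tw (fc X) fun u v => η (fb X u) (fb X v)) =
      tw e fun i k => η (b i) (b k) := by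
  have h1 : ∀ x, x = ∑ u, fc X u x • fb X u := fun x => ((Module.finBasis ℝ X).sum_repr x).symm
  have h2 : ∀ x y, η x y = ∑ u, ∑ v, η (fb X u) (fb X v) * (fc X v y * fc X u x) := fun x y => by
    conv_lhs => rw [h1 x, h1 y]
    simp only [map_sum, map_smul, LinearMap.sum_apply, LinearMap.smul_apply, smul_eq_mul, mul_sum]
    rw [sum_comm]
    exact sum_congr rfl fun u _ => sum_congr rfl fun v _ => by ring
  simp only [tw, map_sum, map_smul, map_mul, ExteriorAlgebra.map_apply_ι, hψ, sum_mul, mul_sum,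
    smul_mul_assoc, mul_smul_comm, smul_sum, smul_smul, h2 (b _), sum_smul]
  conv_lhs => enter [2, u]; rw [sum_comm]; enter [2, k]; rw [sum_comm]
  conv_lhs => rw [sum_comm]; enter [2, k]; rw [sum_comm]
  rw [sum_comm]

theorem tw_pull {X Y : Type} [NormedAddCommGroup X] [NormedSpace ℝ X] [FiniteDimensional ℝ X]
    [NormedAddCommGroup Y] [NormedSpace ℝ Y] [FiniteDimensional ℝ Y] (A : Y →ₗ[ℝ] X)
    (η : X →ₗ[ℝ] X →ₗ[ℝ] ℝ) :
    pull A (tw (fc X) fun u v => η (fb X u) (fb X v)) =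
      tw (fc Y) fun i k => η (A (fb Y i)) (A (fb Y k)) :=
  tw_map _ (fun i => A (fb Y i)) _ (fun φ => ((Module.finBasis ℝ Y).sum_dual_apply_smul_coord
    (A.dualMap φ)).symm) η

/-- The three-form with given coefficients. -/
noncomputable def th (e : I → V) (T : I → I → I → ℝ) : Ext V :=
  ∑ u, ∑ v, ∑ w, T u v w • (io (e u) * (io (e v) * io (e w)))

theorem th_eq_zero (e : I → V) (P Q G : I → I → I → ℝ) (hP : ∀ u v w, P u v w = P v u w)
    (hQ : ∀ u v w, Q u v w = Q w v u) :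
    th e (fun u v w => P u v w + Q u v w + (G v w u - G u v w)) = 0 := by
  have s1 : ∀ T : I → I → I → ℝ, th e (fun u v w => T v u w) = -th e T := fun T => by
    simp only [th, ← sum_neg_distrib]
    rw [sum_comm]
    exact sum_congr rfl fun u _ => sum_congr rfl fun v _ => sum_congr rfl fun w _ => by
      rw [io_anti', smul_neg]
  have s2 : ∀ T : I → I → I → ℝ, th e (fun u v w => T u w v) = -th e T := fun T => by
    simp only [th, ← sum_neg_distrib]
    refine sum_congr rfl fun u _ => ?_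
    rw [sum_comm]
    exact sum_congr rfl fun v _ => sum_congr rfl fun w _ => by
      rw [io_anti (e w), mul_neg, smul_neg]
  have z : ∀ x : Ext V, x = -x → x = 0 := fun x hx =>
    smul_right_injective _ (two_ne_zero (α := ℝ)) (by
      simp only [two_smul, add_zero]; exact add_eq_zero_iff_eq_neg.2 hx)
  have a1 : th e P = 0 := z _ (by rw [← s1 P]; congr 1; funext u v w; exact hP u v w)
  have a2 : th e Q = 0 := z _ (by
    rw [← neg_neg (-th e Q), ← s1 Q, ← s2, ← s1]; congr 1; funext u v w; exact hQ u v w)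
  have a3 : th e (fun u v w => G v w u) = th e G := by
    rw [← neg_neg (th e G), ← s2 G, ← s1]
  have a4 : th e (fun u v w => P u v w + Q u v w + (G v w u - G u v w)) =
      th e P + th e Q + (th e (fun u v w => G v w u) - th e G) := by
    simp only [th, add_smul, sub_smul, sum_add_distrib, sum_sub_distrib]
  rw [a4, a1, a2, a3, sub_self, add_zero, add_zero]

end two

section poly
variable {D j : ℕ} {A B : Type} [Ring A] [Algebra ℝ A] [Ring B] [Algebra ℝ B]

/-- The polynomial defined by a tensor. -/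
noncomputable def Pt (t : (Fin j → Fin D) → ℝ) (x : Fin D → A) : A :=
  ∑ a : Fin j → Fin D, t a • (List.ofFn fun i => x (a i)).prod

theorem map_Pt (f : A →ₐ[ℝ] B) (t : (Fin j → Fin D) → ℝ) (x : Fin D → A) :
    f (Pt t x) = Pt t fun c => f (x c) := by
  simp only [Pt, map_sum, map_smul, map_list_prod, List.map_ofFn, comp_def]

theorem Pt_smul (t : (Fin j → Fin D) → ℝ) (r : ℝ) (x : Fin D → A) :
    Pt t (fun c => r • x c) = r ^ j • Pt t x := by
  simp only [Pt, smul_sum]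
  refine sum_congr rfl fun a _ => ?_
  have := (MultilinearMap.mkPiAlgebraFin ℝ j A).map_smul_univ (fun _ => r) fun i => x (a i)
  simp only [MultilinearMap.mkPiAlgebraFin_apply, prod_const, card_univ, Fintype.card_fin] at this
  rw [this, smul_comm]

theorem Pt_conj {L : LData D} {t : (Fin j → Fin D) → ℝ} (ht : L.KInv t) {k : Mat D} (hk : k ∈ L.K)
    (x : Fin D → A) : Pt t (fun c => ∑ b, k b c • x b) = Pt t x := by
  have h : ∀ a : Fin j → Fin D, (List.ofFn fun i => ∑ b, k b (a i) • x b).prod =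
      ∑ b : Fin j → Fin D, (∏ i, k (b i) (a i)) • (List.ofFn fun i => x (b i)).prod := fun a => by
    have := (MultilinearMap.mkPiAlgebraFin ℝ j A).map_sum fun i b => k b (a i) • x b
    simpa only [MultilinearMap.map_smul_univ, MultilinearMap.mkPiAlgebraFin_apply] using this
  simp only [Pt, h, smul_sum, smul_smul]
  rw [sum_comm]
  refine sum_congr rfl fun b _ => ?_
  rw [← sum_smul, ← ht k hk b]
  simp only [mul_comm]

theorem Pt_mem {V : Type} [AddCommGroup V] [Module ℝ V] (t : (Fin j → Fin D) → ℝ)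
    {x : Fin D → Ext V} (hx : ∀ c, x c ∈ ⋀[ℝ]^2 V) : Pt t x ∈ ⋀[ℝ]^(2 * j) V := by
  have h : ∀ (j : ℕ) (y : Fin j → Ext V), (∀ i, y i ∈ ⋀[ℝ]^2 V) →
      (List.ofFn y).prod ∈ ⋀[ℝ]^(2 * j) V := by
    intro j
    induction j with
    | zero => intro y _; simp
    | succ j ih =>
      intro y hy
      rw [List.ofFn_succ, List.prod_cons, ExteriorAlgebra.exteriorPower, Nat.mul_succ, add_comm,
        pow_add]
      exact Submodule.mul_mem_mul (hy 0) (ih _ fun i => hy _)
  exact Submodule.sum_mem _ fun a _ => Submodule.smul_mem _ _ (h j _ fun i => hx _)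

omit [Algebra ℝ A] in
theorem mul_prod_update (e y : A) : ∀ (j : ℕ) (z : Fin j → A) (i : Fin j), (∀ l, Commute e (z l)) →
    e * (List.ofFn (update z i y)).prod = (List.ofFn (update z i (e * y))).prod := by
  intro j
  induction j with
  | zero => intro z i; exact i.elim0
  | succ j ih =>
    intro z i hz
    rw [List.ofFn_succ, List.ofFn_succ, List.prod_cons, List.prod_cons]
    refine Fin.cases ?_ (fun i => ?_) i
    · simp only [update_self, update_of_ne (Fin.succ_ne_zero _), mul_assoc]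
    · have h : ∀ y, (fun l => update z i.succ y (Fin.succ l)) = update (fun l => z l.succ) i y :=
        fun y => Fin.tail_update_succ z i y
      rw [h, h, update_of_ne (Fin.succ_ne_zero i).symm, update_of_ne (Fin.succ_ne_zero i).symm,
        ← ih _ i fun l => hz _, ← mul_assoc, (hz 0).eq, mul_assoc]

end poly

section calculus
variable {D j : ℕ} {A : Type} [NormedRing A] [NormedAlgebra ℝ A]

theorem contDiff_Pt (t : (Fin j → Fin D) → ℝ) : ContDiff ℝ ∞ (Pt (A := A) t) :=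
  ContDiff.sum fun a _ => (((ContinuousMultilinearMap.mkPiAlgebraFin ℝ j A).contDiff).comp
    (contDiff_pi.2 fun i => contDiff_apply ℝ A (a i))).const_smul (t a)

theorem fderiv_Pt (t : (Fin j → Fin D) → ℝ) (x y : Fin D → A) : fderiv ℝ (Pt t) x y =
    ∑ a : Fin j → Fin D, t a • ∑ i, (List.ofFn (update (fun i => x (a i)) i (y (a i)))).prod := by
  have h := HasFDerivAt.fun_sum (u := univ) fun (a : Fin j → Fin D) _ =>
    (((ContinuousMultilinearMap.mkPiAlgebraFin ℝ j A).hasFDerivAt _).comp x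
      (ContinuousLinearMap.pi fun i => ContinuousLinearMap.proj (R := ℝ)
        (φ := fun _ : Fin D => A) (a i)).hasFDerivAt).const_smul (t a)
  rw [show fderiv ℝ (Pt t) x = _ from h.fderiv]
  simp only [_root_.sum_apply, smul_apply, ContinuousLinearMap.comp_apply,
    ContinuousMultilinearMap.linearDeriv_apply]
  rfl

theorem mul_fderiv_Pt (t : (Fin j → Fin D) → ℝ) (e : A) {x : Fin D → A} (hx : ∀ c, Commute e (x c))
    (y : Fin D → A) : e * fderiv ℝ (Pt t) x y = fderiv ℝ (Pt t) x fun c => e * y c := by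
  simp only [fderiv_Pt, mul_sum, mul_smul_comm, mul_prod_update e _ _ _ _ fun _ => hx _]

theorem fderiv_Pt_sk {L : LData D} {t : (Fin j → Fin D) → ℝ} (ht : L.KInv t) {κ : Mat D}
    (hκ : L.GrS κ) (x : Fin D → A) : fderiv ℝ (Pt t) x (fun c => ∑ b, κ c b • x b) = 0 := by
  let M : Mat D →L[ℝ] (Fin D → A) := LinearMap.toContinuousLinearMap
    (LinearMap.pi fun c => ∑ b, (Matrix.entryLinearMap ℝ ℝ b c).smulRight (x b))
  have hM : ∀ k, M k = fun c => ∑ b, k b c • x b := fun k => by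
    funext c; simp [M]
  have h1 := M.hasFDerivAt.comp_hasDerivAt 0 (hasDerivAt_exp_smul_const (𝕂 := ℝ) (-κ) 0)
  have h0 : x = (M ∘ fun u : ℝ => NormedSpace.exp (u • -κ)) 0 := by
    funext c; simp [hM, Matrix.one_apply]
  have h2 := ((contDiff_Pt t).differentiable (by simp) x).hasFDerivAt.comp_hasDerivAt_of_eq 0 h1 h0
  have h3 : Pt t ∘ M ∘ (fun u : ℝ => NormedSpace.exp (u • -κ)) = fun _ => Pt t x := by
    funext u
    obtain ⟨⟨y, rfl⟩, h⟩ := hκ
    have := L.exp_mem_K ((-u) • y) (by rw [L.adv_smul, Matrix.transpose_smul, h, smul_neg])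
    rw [L.adv_smul, neg_smul, ← smul_neg] at this
    simp only [comp, hM, Pt_conj ht this]
  rw [← h2.unique ((hasDerivAt_const _ _).congr_of_eventuallyEq h3.eventuallyEq), zero_smul, NormedSpace.exp_zero, one_mul, ← hκ.2]
  exact congrArg _ (hM κᵀ).symm

end calculus

section eval
variable {X : Type} [AddCommGroup X] [Module ℝ X] {n : ℕ}

theorem exists_alt (n : ℕ) (x : Ext (Module.Dual ℝ X)) :
    ∃ f : X [⋀^Fin n]→ₗ[ℝ] ℝ, ∀ v, f v = evalForm x v := by
  let l : Ext (Module.Dual ℝ (Module.Dual ℝ X)) →ₐ[ℝ] Module.End ℝ (Ext (Module.Dual ℝ X)) :=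
    ExteriorAlgebra.lift ℝ ⟨CliffordAlgebra.contractLeft (Q := 0), fun φ =>
      LinearMap.ext fun y => CliffordAlgebra.contractLeft_contractLeft φ y⟩
  have h : ∀ (n : ℕ) (φ : Fin n → Module.Dual ℝ (Module.Dual ℝ X)),
      l (ExteriorAlgebra.ιMulti ℝ n φ) = ctrs n φ := by
    intro n
    induction n with
    | zero => intro φ; rw [ExteriorAlgebra.ιMulti_zero_apply, map_one]; rfl
    | succ n ih =>
      intro φ
      rw [ExteriorAlgebra.ιMulti_succ_apply, map_mul, ih, ExteriorAlgebra.lift_ι_apply]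
      rfl
  refine ⟨((aug.toLinearMap ∘ₗ LinearMap.applyₗ x ∘ₗ l.toLinearMap).compAlternatingMap
    (ExteriorAlgebra.ιMulti ℝ n)).compLinearMap (Module.Dual.eval ℝ X), fun v => ?_⟩
  rw [evalForm, ← h]
  rfl

theorem abs_evalForm_le {X : Type} [NormedAddCommGroup X] [NormedSpace ℝ X] [FiniteDimensional ℝ X]
    (x : Ext (Module.Dual ℝ X)) (v : Fin n → X) :
    |evalForm x v| ≤ ∑ I : Fin n → Fin (Module.finrank ℝ X),
      |(Matrix.of fun k i => fc X (I k) (v i)).det| * |evalForm x fun k => fb X (I k)| := by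
  obtain ⟨f, hf⟩ := exists_alt n x
  have h1 : ∀ v : Fin n → X, f v = ∑ I : Fin n → Fin (Module.finrank ℝ X),
      (∏ k, fc X (I k) (v k)) * f fun k => fb X (I k) := fun v => by
    have e : v = fun k => ∑ u, fc X u (v k) • fb X u :=
      funext fun k => ((Module.finBasis ℝ X).sum_repr (v k)).symm
    conv_lhs => rw [e]
    refine (f.toMultilinearMap.map_sum _).trans (sum_congr rfl fun I _ => ?_)
    exact f.toMultilinearMap.map_smul_univ _ _
  have h2 : ∑ σ : Equiv.Perm (Fin n), f v = ∑ I : Fin n → Fin (Module.finrank ℝ X),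
      (Matrix.of fun k i => fc X (I k) (v i)).det * f fun k => fb X (I k) := by
    simp only [← Matrix.det_transpose (Matrix.of _), Matrix.det_apply', sum_mul]
    rw [sum_comm]
    refine sum_congr rfl fun σ _ => ?_
    simp only [mul_assoc, ← mul_sum, Matrix.transpose_apply, Matrix.of_apply]
    rw [← h1 fun k => v (σ k), show (fun k => v (σ k)) = v ∘ σ from rfl, f.map_perm]
    rcases Int.units_eq_one_or (Equiv.Perm.sign σ) with h | h <;> simp [h]
  simp only [← hf, ← abs_mul]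
  refine le_trans ?_ (abs_sum_le_sum_abs _ _)
  rw [← h2, sum_const, nsmul_eq_mul, abs_mul]
  refine le_mul_of_one_le_left (abs_nonneg _) ?_
  rw [Nat.abs_cast, Nat.one_le_cast]
  exact card_pos.2 univ_nonempty

end eval

end Pool.Agent.Lib.MP_cdc9ab_al.Gro
end

-- part Pool.Agent.Lib.MP_cdc9ab_al.GromovForm
section

/-! The curvature forms of a frame: smooth, closed, invariant, and their value at the origin. -/

open scoped Matrix.Norms.Operator ContDiff Matrix Topology
open Finset Function Filter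

namespace Pool.Agent.Lib.MP_cdc9ab_al.Gro

section bil
variable {A B C X : Type} [NormedAddCommGroup A] [NormedSpace ℝ A] [FiniteDimensional ℝ A]
  [NormedAddCommGroup B] [NormedSpace ℝ B] [FiniteDimensional ℝ B]
  [NormedAddCommGroup C] [NormedSpace ℝ C] [NormedAddCommGroup X] [NormedSpace ℝ X]

/-- A bilinear map as a continuous one. -/
noncomputable def bilL (T : A →ₗ[ℝ] B →ₗ[ℝ] C) : A →L[ℝ] B →L[ℝ] C :=
  LinearMap.toContinuousLinearMap
    ((LinearMap.toContinuousLinearMap : (B →ₗ[ℝ] C) ≃ₗ[ℝ] B →L[ℝ] C).toLinearMap ∘ₗ T)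

theorem contDiffAt_bil (T : A →ₗ[ℝ] B →ₗ[ℝ] C) {f : X → A} {g : X → B} {x : X}
    (hf : ContDiffAt ℝ ∞ f x) (hg : ContDiffAt ℝ ∞ g x) :
    ContDiffAt ℝ ∞ (fun y => T (f y) (g y)) x :=
  ((bilL T).contDiff.contDiffAt.comp x hf).clm_apply hg

theorem fderiv_bil (T : A →ₗ[ℝ] B →ₗ[ℝ] C) {f : X → A} {g : X → B} {x : X}
    (hf : DifferentiableAt ℝ f x) (hg : DifferentiableAt ℝ g x) (u : X) :
    fderiv ℝ (fun y => T (f y) (g y)) x u = T (fderiv ℝ f x u) (g x) + T (f x) (fderiv ℝ g x u) := by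
  have := (bilL T).fderiv_of_bilinear hf hg
  rw [show fderiv ℝ (fun y => T (f y) (g y)) x = _ from this, add_comm]
  rfl

end bil

theorem sm_diff {E F : Type} [NormedAddCommGroup E] [NormedSpace ℝ E] [NormedAddCommGroup F]
    [NormedSpace ℝ F] {f : E → F} {x : E} (h : ContDiffAt ℝ ∞ f x) : DifferentiableAt ℝ f x :=
  h.differentiableAt infty_ne_zero

variable {D j : ℕ} {X : Type} [NormedAddCommGroup X] [NormedSpace ℝ X]

theorem fderiv_mul_mat {f g : X → Mat D} {x : X} (hf : DifferentiableAt ℝ f x)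
    (hg : DifferentiableAt ℝ g x) (u : X) :
    fderiv ℝ (fun y => f y * g y) x u = fderiv ℝ f x u * g x + f x * fderiv ℝ g x u :=
  fderiv_bil (LinearMap.mul ℝ (Mat D)) hf hg u

/-- Transposition. -/
abbrev trL (D : ℕ) : Mat D →ₗ[ℝ] Mat D :=
  (Matrix.transposeLinearEquiv (Fin D) (Fin D) ℝ ℝ).toLinearMap

theorem fderiv_tr_mul {f g : X → Mat D} {x : X} (hf : DifferentiableAt ℝ f x)
    (hg : DifferentiableAt ℝ g x) (u : X) :
    fderiv ℝ (fun y => (f y)ᵀ * g y) x u = (fderiv ℝ f x u)ᵀ * g x + (f x)ᵀ * fderiv ℝ g x u :=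
  fderiv_bil (LinearMap.mul ℝ (Mat D) ∘ₗ trL D) hf hg u

theorem tangent_K {L : LData D} {k : X → Mat D} {x : X} (hk : DifferentiableAt ℝ k x)
    (h : ∀ᶠ y in 𝓝 x, k y ∈ L.K) (v : X) : ∃ κ, L.GrS κ ∧ fderiv ℝ k x v = k x * κ := by
  obtain ⟨y, hy⟩ := L.tangent hk (h.mono fun y hy => LData.aut_of_gam hy.1) v
  refine ⟨_, ⟨⟨y, rfl⟩, ?_⟩, hy⟩
  have h1 := fderiv_tr_mul hk hk v
  have h2 : (fun y => (k y)ᵀ * k y) =ᶠ[𝓝 x] fun _ => 1 := h.mono fun y hy => hy.2
  rw [h2.fderiv_eq, hy, Matrix.transpose_mul, mul_assoc, ← mul_assoc (k x)ᵀ (k x),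
    h.self_of_nhds.2, mul_one, one_mul] at h1
  exact eq_neg_of_add_eq_zero_left (by rw [← h1]; simp)

variable [FiniteDimensional ℝ X]

/-- The Maurer-Cartan form of a frame `γ` with inverse `δ`. -/
noncomputable def mc (γ δ : X → Mat D) (x : X) : X →ₗ[ℝ] Mat D :=
  LinearMap.mulLeft ℝ (δ x) ∘ₗ (fderiv ℝ γ x : X →ₗ[ℝ] Mat D)

omit [FiniteDimensional ℝ X] in
theorem mc_apply (γ δ : X → Mat D) (x v : X) : mc γ δ x v = δ x * fderiv ℝ γ x v := rfl

omit [FiniteDimensional ℝ X] in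
theorem mc_gauge {L : LData D} {Y : Type} [NormedAddCommGroup Y] [NormedSpace ℝ Y]
    {γ δ : X → Mat D} {φ : Y → X} {φ' : Y →L[ℝ] X} {G k : Y → Mat D} {G' : Y →L[ℝ] Mat D} {y : Y}
    {G0 : Mat D} (hγ : DifferentiableAt ℝ γ (φ y)) (hφ : HasFDerivAt φ φ' y)
    (hG : HasFDerivAt G G' y) (hk : DifferentiableAt ℝ k y) (hK : ∀ᶠ z in 𝓝 y, k z ∈ L.K)
    (he : ∀ᶠ z in 𝓝 y, γ (φ z) = G z * k z) (hδ : δ (φ y) * γ (φ y) = 1) (h0 : G0 * G y = 1)
    (v : Y) : ∃ κ, L.GrS κ ∧ mc γ δ (φ y) (φ' v) = (k y)ᵀ * (G0 * G' v) * k y + κ := by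
  obtain ⟨κ, h1, h2⟩ := tangent_K hk hK v
  refine ⟨κ, h1, ?_⟩
  have e1 : fderiv ℝ (fun z => G z * k z) y = (fderiv ℝ γ (φ y)).comp φ' :=
    ((hγ.hasFDerivAt.comp y hφ).congr_of_eventuallyEq (he.mono fun z hz => hz.symm)).fderiv
  have e2 := fderiv_mul_mat hG.differentiableAt hk v
  rw [e1, hG.fderiv, h2, ContinuousLinearMap.comp_apply] at e2
  have k1 := hK.self_of_nhds.2
  have e3 : δ (φ y) = (k y)ᵀ * G0 := by
    calc δ (φ y) = (k y)ᵀ * (G0 * G y) * k y * δ (φ y) := by rw [h0, mul_one, k1, one_mul]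
      _ = (k y)ᵀ * G0 * (G y * k y * δ (φ y)) := by noncomm_ring
      _ = _ := by rw [← he.self_of_nhds, mul_eq_one_comm.1 hδ, mul_one]
  rw [mc_apply, e2, e3]
  calc _ = (k y)ᵀ * (G0 * G' v) * k y + (k y)ᵀ * (G0 * G y) * k y * κ := by noncomm_ring
    _ = _ := by rw [h0, mul_one, k1, one_mul]

/-- The curvature forms. -/
noncomputable def curv (L : LData D) (γ δ : X → Mat D) (x : X) (c : Fin D) :
    Ext (Module.Dual ℝ X) :=
  tw (fc X) fun u v => L.grF (mc γ δ x (fb X u)) (mc γ δ x (fb X v)) c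

/-- Two-forms from coefficients, as a linear map. -/
noncomputable def twL {V I : Type} [AddCommGroup V] [Module ℝ V] [Fintype I] (e : I → V) :
    (I × I → Fin D → ℝ) →ₗ[ℝ] (Fin D → Ext V) where
  toFun f c := tw e fun u v => f (u, v) c
  map_add' f g := by funext c; simp [tw, add_smul, sum_add_distrib]
  map_smul' r f := by funext c; simp [tw, smul_sum, smul_smul]

theorem tw_mulVec {V I : Type} [AddCommGroup V] [Module ℝ V] [Fintype I] (e : I → V) (k : Mat D)
    (f : I → I → Fin D → ℝ) (c : Fin D) :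
    ∑ b, k c b • tw e (fun u v => f u v b) = tw e fun u v => (k *ᵥ f u v) c := by
  simp only [tw, smul_sum, smul_smul, Matrix.mulVec, dotProduct, sum_smul]
  rw [sum_comm]
  exact sum_congr rfl fun u _ => sum_comm

theorem map_curv (L : LData D) (γ δ : X → Mat D) (x : X) (c : Fin D) {V I : Type} [AddCommGroup V]
    [Module ℝ V] [Fintype I] (ψ : Module.Dual ℝ X →ₗ[ℝ] V) (b : I → X) (e : I → V)
    (hψ : ∀ φ, ψ φ = ∑ i, φ (b i) • e i) : ExteriorAlgebra.map ψ (curv L γ δ x c) =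
      tw e fun u v => L.grF (mc γ δ x (b u)) (mc γ δ x (b v)) c :=
  tw_map ψ b e hψ ((L.grF.compl₁₂ (mc γ δ x) (mc γ δ x)).compr₂ (LinearMap.proj c))

theorem pull_curv (L : LData D) (γ δ : X → Mat D) (x : X) (c : Fin D) {Y : Type}
    [NormedAddCommGroup Y] [NormedSpace ℝ Y] [FiniteDimensional ℝ Y] (A : Y →ₗ[ℝ] X) :
    pull A (curv L γ δ x c) =
      tw (fc Y) fun u v => L.grF (mc γ δ x (A (fb Y u))) (mc γ δ x (A (fb Y v))) c :=
  tw_pull A ((L.grF.compl₁₂ (mc γ δ x) (mc γ δ x)).compr₂ (LinearMap.proj c))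

section smooth
variable {L : LData D} {γ δ : X → Mat D} {x : X}

omit [FiniteDimensional ℝ X] in
theorem contDiffAt_mc (hγ : ContDiffAt ℝ ∞ γ x) (hδ : ContDiffAt ℝ ∞ δ x) (v : X) :
    ContDiffAt ℝ ∞ (fun y => mc γ δ y v) x :=
  hδ.mul ((hγ.fderiv_right infty_add_one_le).clm_apply contDiffAt_const)

theorem contDiffAt_coef (hγ : ContDiffAt ℝ ∞ γ x) (hδ : ContDiffAt ℝ ∞ δ x) :
    ContDiffAt ℝ ∞ (fun y (p : Fin (Module.finrank ℝ X) × Fin (Module.finrank ℝ X)) =>
      L.grF (mc γ δ y (fb X p.1)) (mc γ δ y (fb X p.2))) x :=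
  contDiffAt_pi.2 fun _ => contDiffAt_bil L.grF (contDiffAt_mc hγ hδ _) (contDiffAt_mc hγ hδ _)

theorem contDiffAt_curv (hγ : ContDiffAt ℝ ∞ γ x) (hδ : ContDiffAt ℝ ∞ δ x) :
    ContDiffAt ℝ ∞ (curv L γ δ) x :=
  contDiffAt_lin (twL (fc X)) (contDiffAt_coef hγ hδ)

omit [FiniteDimensional ℝ X] in
theorem fderiv_mc (hγ : ContDiffAt ℝ ∞ γ x) (hδ : ContDiffAt ℝ ∞ δ x)
    (h : ∀ᶠ y in 𝓝 x, δ y * γ y = 1) (u v : X) : fderiv ℝ (fun y => mc γ δ y v) x u =
      -(mc γ δ x u * mc γ δ x v) + δ x * fderiv ℝ (fderiv ℝ γ) x u v := by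
  have h1 := fderiv_mul_mat (sm_diff hδ) (sm_diff hγ) u
  have h2 : (fun y => δ y * γ y) =ᶠ[𝓝 x] fun _ => 1 := h
  have h3 := sm_diff (hγ.fderiv_right infty_add_one_le)
  have h4 : fderiv ℝ δ x u = -(mc γ δ x u * δ x) := by
    rw [h2.fderiv_eq] at h1
    have h5 : fderiv ℝ δ x u * γ x = -mc γ δ x u :=
      eq_neg_of_add_eq_zero_left (by rw [mc_apply, ← h1]; simp)
    rw [← neg_mul, ← h5, mul_assoc, mul_eq_one_comm.1 h.self_of_nhds, mul_one]
  have h5 : DifferentiableAt ℝ (fun y => fderiv ℝ γ y v) x :=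
    h3.clm_apply (differentiableAt_const v)
  have h6 : fderiv ℝ (fun y => fderiv ℝ γ y v) x u = fderiv ℝ (fderiv ℝ γ) x u v :=
    (DFunLike.congr_fun (fderiv_clm_apply h3 (differentiableAt_const v)) u).trans (by simp; rfl)
  simp only [mc_apply γ δ _ v]
  rw [fderiv_mul_mat (sm_diff hδ) h5, h4, h6, neg_mul, mul_assoc]

theorem closed {t : (Fin j → Fin D) → ℝ} (ht : L.KInv t) (hγ : ContDiffAt ℝ ∞ γ x)
    (hδ : ContDiffAt ℝ ∞ δ x) (h : ∀ᶠ y in 𝓝 x, δ y * γ y = 1) :
    dX (fun y => Pt t (curv L γ δ y)) x = 0 := by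
  obtain ⟨B, hB⟩ : ∃ B, B = fun u => mc γ δ x (fb X u) := ⟨_, rfl⟩
  obtain ⟨S, hS⟩ : ∃ S, S = fun u v => δ x * fderiv ℝ (fderiv ℝ γ) x (fb X u) (fb X v) := ⟨_, rfl⟩
  have hs : ∀ u v, S u v = S v u := fun u v => by
    simp only [hS]
    exact congrArg _ ((hγ.isSymmSndFDerivAt (by simp; exact WithTop.coe_le_coe.2 le_top)).eq _ _)
  have h1 : ∀ u c, fderiv ℝ (curv L γ δ) x (fb X u) c = tw (fc X) fun v w =>
      (L.grF (-(B u * B v) + S u v) (B w) + L.grF (B v) (-(B u * B w) + S u w)) c := by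
    intro u c
    have a := sm_diff (contDiffAt_coef (L := L) hγ hδ)
    refine (congrFun (fderiv_lin (twL (fc X)) a (fb X u)) c).trans ?_
    refine congrArg (tw (fc X)) ?_
    funext v w
    refine congrFun ((fderiv_lin (LinearMap.proj (v, w)) a (fb X u)).symm.trans ?_) c
    simp only [LinearMap.proj_apply, hB, hS]
    rw [← fderiv_mc hγ hδ h, ← fderiv_mc hγ hδ h]
    exact fderiv_bil L.grF (sm_diff (contDiffAt_mc hγ hδ _)) (sm_diff (contDiffAt_mc hγ hδ _)) _
  have h2 : ∀ c, ∑ u, (io (fc X u) * fderiv ℝ (curv L γ δ) x (fb X u) c +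
      io (fc X u) * ∑ b, L.grK (B u) c b • curv L γ δ x b) = 0 := by
    intro c
    rw [← th_eq_zero (fc X)
      (fun u v w => L.grP (B u * B v * B w + B v * B u * B w - S u v * B w +
        L.grK (S u v) * L.grK (B w) - L.grK (B v) * L.grK (B u * B w) -
        L.grK (B u) * L.grK (B v * B w)) c)
      (fun u v w => L.grP (L.grK (B v) * L.grK (S u w) - B v * S u w) c)
      (fun u v w => L.grP (L.grK (B u * B v) * L.grK (B w) -
        L.grK (B u) * L.grK (B v) * L.grK (B w)) c)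
      (fun u v w => congrFun (congrArg _ (by rw [hs u v]; abel)) c) fun u v w => by rw [hs u w]]
    refine sum_congr rfl fun u _ => ?_
    rw [h1, show (fun b => L.grK (B u) c b • curv L γ δ x b) = fun b => L.grK (B u) c b •
      tw (fc X) (fun v w => L.grF (B v) (B w) b) by rw [hB]; rfl, tw_mulVec]
    simp only [tw, mul_sum, mul_smul_comm, ← sum_add_distrib, ← add_smul]
    refine sum_congr rfl fun v _ => sum_congr rfl fun w _ => ?_
    congr 1
    have e : L.grF (B v) (B w) = L.grP (L.grK (B v) * L.grK (B w) - L.grK (B v * B w)) := by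
      rw [LData.grF_apply, map_sub, map_sub, L.grP_grK]
    rw [e, ← (L.grS_grK _).grP_comm]
    obtain ⟨φ, hφ⟩ : ∃ φ : Mat D →ₗ[ℝ] ℝ, ∀ M, L.grP M c = φ M :=
      ⟨LinearMap.proj c ∘ₗ L.grP, fun _ => rfl⟩
    simp only [LData.grF_apply, Pi.add_apply, hφ, ← map_add φ, ← map_sub φ, map_add L.grK,
      map_neg L.grK]
    congr 1
    noncomm_ring
  have h3 : ∀ u, io (fc X u) * fderiv ℝ (fun y => Pt t (curv L γ δ y)) x (fb X u) =
      fderiv ℝ (Pt t) (curv L γ δ x) fun c => io (fc X u) * fderiv ℝ (curv L γ δ) x (fb X u) c +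
        io (fc X u) * ∑ b, L.grK (B u) c b • curv L γ δ x b := by
    intro u
    have a1 := mul_fderiv_Pt t (io (fc X u)) (x := curv L γ δ x) fun c => tw_comm _ _ _
    rw [fderiv_fun_comp x ((contDiff_Pt t).differentiable infty_ne_zero _)
      (sm_diff (contDiffAt_curv hγ hδ)), ContinuousLinearMap.comp_apply, a1,
      ← add_zero (fderiv ℝ (Pt t) _ _), ← mul_zero (io (fc X u)),
      ← fderiv_Pt_sk ht (L.grS_grK (B u)) (curv L γ δ x), a1, ← map_add]
    rfl
  rw [dX, dd, sum_congr rfl fun u _ => h3 u, ← map_sum, ← map_zero (fderiv ℝ (Pt t) (curv L γ δ x))]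
  congr 1
  funext c
  rw [Finset.sum_apply, h2]
  rfl

end smooth

/-- Equivariant smooth frames on the positive matrices. -/
structure Frame (L : LData D) (γ δ : Mat D → Mat D) : Prop where
  s1 : ∀ h ∈ Pos D, ContDiffAt ℝ ∞ γ h
  s2 : ∀ h ∈ Pos D, ContDiffAt ℝ ∞ δ h
  inv : ∀ h ∈ Pos D, δ h * γ h = 1
  equiv : ∀ g ∈ L.Gam, ∀ h ∈ Pos D, δ h * g * γ (act g h) ∈ L.K
  one : γ 1 = 1

variable {L : LData D} {γ δ : Mat D → Mat D}

theorem Frame.invariant (F : Frame L γ δ) {t : (Fin j → Fin D) → ℝ} (ht : L.KInv t) {g x : Mat D}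
    (hg : g ∈ L.Gam) (hx : x ∈ Pos D) :
    pull (act g : Mat D →ₗ[ℝ] Mat D) (Pt t (curv L γ δ (act g x))) = Pt t (curv L γ δ x) := by
  have hx' := act_mem_pos (LData.isUnit_of_gam hg) hx
  have hP := isOpen_pos.mem_nhds hx
  have hk := F.equiv g hg x hx
  have hd := (Matrix.isUnit_iff_isUnit_det _).mp (LData.isUnit_of_gam hg)
  have key : ∀ v, ∃ κ, L.GrS κ ∧ mc γ δ (act g x) (act g v) =
      (δ x * g * γ (act g x))ᵀ * mc γ δ x v * (δ x * g * γ (act g x)) + κ := by
    intro v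
    obtain ⟨κ, h1, h2⟩ := mc_gauge (δ := δ) (G0 := δ x * g) (k := fun y => δ y * g * γ (act g y))
      (sm_diff (F.s1 _ hx')) (act g).hasFDerivAt ((sm_diff (F.s1 x hx)).hasFDerivAt.const_mul g⁻¹)
      (((sm_diff (F.s2 x hx)).mul_const g).mul
        ((sm_diff (F.s1 _ hx')).comp x (act g).differentiableAt))
      (mem_of_superset hP fun y hy => F.equiv g hg y hy) (mem_of_superset hP fun y hy => by
        simp only [Set.mem_ofPred_eq, ← mul_assoc]
        rw [mul_assoc g⁻¹, mul_eq_one_comm.1 (F.inv y hy), mul_one, Matrix.nonsing_inv_mul _ hd,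
          one_mul]) (F.inv _ hx')
      (by rw [mul_assoc, ← mul_assoc g, Matrix.mul_nonsing_inv _ hd, one_mul, F.inv x hx]) v
    refine ⟨κ, h1, h2.trans ?_⟩
    change _ * (δ x * g * (g⁻¹ * fderiv ℝ γ x v)) * _ + _ = _
    rw [mul_assoc (δ x) g (g⁻¹ * _), ← mul_assoc g g⁻¹, Matrix.mul_nonsing_inv _ hd, one_mul]
    rfl
  choose κ h1 h2 using key
  rw [map_Pt, ← Pt_conj ht hk (curv L γ δ x)]
  congr 1
  funext c
  rw [pull_curv]
  refine Eq.trans (tw_congr _ fun u v => ?_) (tw_mulVec (fc (Mat D)) (δ x * g * γ (act g x))ᵀ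
    (fun u v => L.grF (mc γ δ x (fb _ u)) (mc γ δ x (fb _ v))) c).symm
  simp only [ContinuousLinearMap.coe_coe, h2]
  rw [← Pi.sub_apply, ← Pi.sub_apply, LData.grF_gauge hk (h1 _) (h1 _), Matrix.mulVec_sub]

theorem Frame.value (F : Frame L γ δ) (c : Fin D) :
    ExteriorAlgebra.map (resFr L.Y) (curv L γ δ 1 c) = (-1 / 8 : ℝ) • L.Om c := by
  have d0 : δ 1 = 1 := by simpa [F.one] using F.inv 1 one_mem_pos
  have key : ∀ a, ∃ κ, L.GrS κ ∧
      mc γ δ 1 (L.Y a) = (1 : Mat D)ᵀ * ((-1 / 2 : ℝ) • L.Y a) * 1 + κ := by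
    intro a
    obtain ⟨g, g0, g1, g2, g3⟩ : ∃ g : ℝ → ℝ → Mat D, (∀ r, g r 0 = 1) ∧
        (∀ r, HasDerivAt (g r) (r • L.Y a) 0) ∧ (∀ r u, g r u ∈ L.Gam) ∧
        ∀ u, g (-1 / 2) u * g (1 / 2) u = 1 := by
      refine ⟨fun r u => NormedSpace.exp (u • r • L.Y a), fun r => by simp, fun r => ?_,
        fun r u => ?_, fun u => ?_⟩
      · have := hasDerivAt_exp_smul_const (𝕂 := ℝ) (r • L.Y a) 0
        rwa [zero_smul, NormedSpace.exp_zero, one_mul] at this
      · have := L.exp_mem_gam (u • r • L.ip a • Pi.single a 1)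
        rwa [L.adv_smul, L.adv_smul, L.adv_smul, L.adv_single] at this
      · simp only
        rw [neg_div, neg_smul, smul_neg,
          ← Matrix.exp_add_of_commute _ _ (Commute.refl (u • (1 / 2 : ℝ) • L.Y a)).neg_left,
          neg_add_cancel,
          NormedSpace.exp_zero]
    have a0 : (g (1 / 2) 0)ᵀ * g (1 / 2) 0 = 1 := by simp [g0]
    have a1 : HasDerivAt (fun u => (g (1 / 2) u)ᵀ * g (1 / 2) u) (L.Y a) 0 := by
      have := ((trL D).toContinuousLinearMap.hasFDerivAt.comp_hasDerivAt 0 (g1 (1 / 2))).mul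
        (g1 (1 / 2))
      refine this.congr_deriv ?_
      change ((1 / 2 : ℝ) • L.Y a)ᵀ * _ + (g (1 / 2) 0)ᵀ * _ = _
      rw [g0, Matrix.transpose_smul, L.Y_transpose, Matrix.transpose_one, one_mul, mul_one,
        ← add_smul, add_halves, one_smul]
    have a2 : DifferentiableAt ℝ γ ((g (1 / 2) 0)ᵀ * g (1 / 2) 0) :=
      a0 ▸ sm_diff (F.s1 1 one_mem_pos)
    obtain ⟨κ, h1, h2⟩ := mc_gauge (δ := δ) (G0 := 1)
      (k := fun u => g (1 / 2) u * γ ((g (1 / 2) u)ᵀ * g (1 / 2) u)) a2 a1.hasFDerivAt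
      (g1 (-1 / 2)).hasFDerivAt ((g1 _).differentiableAt.mul (a2.comp 0 a1.differentiableAt))
      (Eventually.of_forall fun u => by simpa [d0] using F.equiv _ (g2 _ u) 1 one_mem_pos)
      (Eventually.of_forall fun u => by rw [← mul_assoc, g3, one_mul])
      (by rw [a0, F.inv 1 one_mem_pos]) (by rw [g0, one_mul]) 1
    refine ⟨κ, h1, ?_⟩
    simp only [g0, F.one, Matrix.transpose_one, one_mul, mul_one,
      ContinuousLinearMap.toSpanSingleton_apply, one_smul] at h2 ⊢
    exact (congrArg _ (one_smul ℝ _).symm).trans h2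
  choose κ h1 h2 using key
  rw [map_curv L γ δ 1 c _ L.Y eb fun φ => by funext i; simp [resFr, eb, Pi.single_apply]]
  refine (tw_congr _ (η' := fun a b => -1 / 8 * (L.ip a * L.ip b * L.ad a c b))
    fun a b => ?_).trans ?_
  · rw [h2, h2, ← Pi.sub_apply, LData.grF_gauge ⟨L.Gam.one_mem, by simp⟩ (h1 _) (h1 _),
      Matrix.transpose_one, Matrix.one_mulVec, L.grF_Y, L.anti b a c]
    ring
  · simp only [tw, LData.Om, smul_sum, smul_smul]

end Pool.Agent.Lib.MP_cdc9ab_al.Gro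
end

-- part Pool.Agent.Lib.MP_cdc9ab_al.GromovCount
section

/-! The orthonormal frame, and the bound for the number of preimages of its coordinates. -/

open scoped Matrix.Norms.Operator ContDiff Matrix Topology
open Finset Function Filter

namespace Pool.Agent.Lib.MP_cdc9ab_al.Gro

variable {D n : ℕ} {L : LData D}

theorem contDiffAt_matinv {X : Type} [NormedAddCommGroup X] [NormedSpace ℝ X] {f : X → Mat D}
    {x : X} (hf : ContDiffAt ℝ ∞ f x) (hu : IsUnit (f x)) : ContDiffAt ℝ ∞ (fun y => (f y)⁻¹) x := by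
  simp only [Matrix.nonsing_inv_eq_ringInverse]
  exact ContDiffAt.comp (g := Ring.inverse) x (contDiffAt_ringInverse ℝ hu.unit) hf

/-- The correction making the minimal frame orthonormal, with its inverse. -/
structure Corr (r : Retr L) (ν ρ : Mat D → Mat D) : Prop where
  s1 : ∀ h ∈ Pos D, ContDiffAt ℝ ∞ ν h
  s2 : ∀ h ∈ Pos D, ContDiffAt ℝ ∞ ρ h
  pos : ∀ h ∈ Pos D, ρ h ∈ Pos D
  symm : ∀ h ∈ Pos D, (ρ h)ᵀ = ρ h
  sq : ∀ h ∈ Pos D, ρ h * ρ h = r.q h * symL D h * r.q h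
  inv : ∀ h ∈ Pos D, ρ h * ν h = 1

theorem exists_corr (r : Retr L) : ∃ ν ρ, Corr r ν ρ := by
  obtain ⟨sq, hsq⟩ := exists_sqrt D
  have h1 := fun h (hh : h ∈ Pos D) => hsq (r.q h * symL D h * r.q h)
    (by simpa [r.symm h hh] using act_mem_pos (isUnit_of_pos (r.pos h hh)) (symL_pos hh))
    (by simp only [Matrix.transpose_mul, r.symm h hh, symL_transpose, mul_assoc])
  have h2 : ∀ h ∈ Pos D, ContDiffAt ℝ ∞ (fun h => sq (r.q h * symL D h * r.q h)) h := fun h hh =>
    ContDiffAt.comp (g := sq) h (h1 h hh).1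
      (((r.smooth h hh).mul (contDiffAt_lin (symL D) contDiffAt_id)).mul (r.smooth h hh))
  exact ⟨fun h => (sq (r.q h * symL D h * r.q h))⁻¹, fun h => sq (r.q h * symL D h * r.q h),
    fun h hh => contDiffAt_matinv (h2 h hh) (isUnit_of_pos (h1 h hh).2.1), h2,
    fun h hh => (h1 h hh).2.1, fun h hh => (h1 h hh).2.2.1, fun h hh => (h1 h hh).2.2.2,
    fun h hh => Matrix.mul_nonsing_inv _
      ((Matrix.isUnit_iff_isUnit_det _).mp (isUnit_of_pos (h1 h hh).2.1))⟩

variable {r : Retr L} {ν ρ : Mat D → Mat D}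

theorem Corr.frame (C : Corr r ν ρ) :
    Frame L (fun h => r.q h * ν h) fun h => ρ h * (r.q h)⁻¹ := by
  have hd := fun h hh => (Matrix.isUnit_iff_isUnit_det _).mp (isUnit_of_pos (r.pos h hh))
  refine ⟨fun h hh => (r.smooth h hh).mul (C.s1 h hh), fun h hh => (C.s2 h hh).mul
    (contDiffAt_matinv (r.smooth h hh) (isUnit_of_pos (r.pos h hh))), fun h hh => ?_,
    fun g hg h hh => ?_, ?_⟩
  · rw [mul_assoc, ← mul_assoc _ (r.q h), Matrix.nonsing_inv_mul _ (hd h hh), one_mul, C.inv h hh]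
  · obtain ⟨k, hk, e⟩ := r.equiv g hg h hh
    have hh' := act_mem_pos (LData.isUnit_of_gam hg) hh
    have e1 : ρ (act g h) = kᵀ * ρ h * k := by
      refine sqrt_unique' (C.pos _ hh') (by
        simpa using act_mem_pos (LData.isUnit_of_gam hk.1) (C.pos h hh)) ?_
      have e' := congrArg Matrix.transpose e
      rw [Matrix.transpose_mul, Matrix.transpose_mul, r.symm _ hh', r.symm h hh] at e'
      rw [C.sq _ hh', symL_act]
      calc _ = r.q (act g h) * gᵀ * symL D h * (g * r.q (act g h)) := by noncomm_ring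
        _ = kᵀ * (r.q h * symL D h * r.q h) * k := by rw [e, e']; noncomm_ring
        _ = kᵀ * ρ h * (k * kᵀ) * ρ h * k := by
          rw [← C.sq h hh, LData.K_mul_transpose hk]; noncomm_ring
        _ = _ := by noncomm_ring
    have e2 : ρ h * (r.q h)⁻¹ * g * (r.q (act g h) * ν (act g h)) = k := by
      calc _ = ρ h * (r.q h)⁻¹ * (g * r.q (act g h)) * ν (act g h) := by noncomm_ring
        _ = k * kᵀ * ρ h * ((r.q h)⁻¹ * r.q h) * k * ν (act g h) := by
          rw [e, LData.K_mul_transpose hk]; noncomm_ring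
        _ = k * (kᵀ * ρ h * k * ν (act g h)) := by
          rw [Matrix.nonsing_inv_mul _ (hd h hh)]; noncomm_ring
        _ = k := by rw [← e1, C.inv _ hh', mul_one]
    exact e2.symm ▸ hk
  · have e : ρ 1 = 1 := sqrt_unique' (C.pos 1 one_mem_pos) one_mem_pos (by
      rw [C.sq 1 one_mem_pos, r.one, symL_apply, Matrix.transpose_one, ← two_smul ℝ, smul_smul]
      simp)
    have := C.inv 1 one_mem_pos
    rw [e, one_mul] at this
    simp only [r.one, this, mul_one]

theorem Corr.orth (C : Corr r ν ρ) {h : Mat D} (hh : h ∈ Pos D) :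
    (r.q h * ν h)ᵀ * symL D h * (r.q h * ν h) = 1 := by
  have e := congrArg Matrix.transpose (C.inv h hh)
  rw [Matrix.transpose_mul, C.symm h hh, Matrix.transpose_one] at e
  rw [Matrix.transpose_mul, r.symm h hh]
  calc _ = (ν h)ᵀ * (r.q h * symL D h * r.q h) * ν h := by noncomm_ring
    _ = (ν h)ᵀ * ρ h * (ρ h * ν h) := by rw [← C.sq h hh]; noncomm_ring
    _ = 1 := by rw [e, C.inv h hh, mul_one]

/-- The variables of the polynomial system. -/
abbrev Var (D n : ℕ) : Type := (Fin n → ℝ) × (Fin (n + 1) → ℝ) × Mat D × Mat D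

/-- The values of the polynomial system. -/
abbrev Val (D n : ℕ) : Type := (Fin (n + 1) → ℝ) × (Fin D → Mat D) × Mat D × (Fin D → ℝ) × Mat D

/-- The point of the simplex with weights `σ ^ 2`. -/
noncomputable def pt (H : Fin (n + 1) → Mat D) (σ : Fin (n + 1) → ℝ) : Mat D :=
  ∑ l, (σ l * σ l) • H l

/-- The polynomial system describing the frame over a simplex. -/
noncomputable def eqs (L : LData D) (H : Fin (n + 1) → Mat D) (x : Var D n) : Val D n :=
  (fun l => x.2.1 l * x.2.1 l - bary n x.1 l,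
    fun a => x.2.2.1 * L.ad a - L.adv (x.2.2.1 *ᵥ Pi.single a 1) * x.2.2.1, x.2.2.1ᵀ - x.2.2.1,
    fun a => (L.Y a * (x.2.2.1 * pt H x.2.1 * x.2.2.1)).trace,
    x.2.2.2 * (x.2.2.1 * symL D (pt H x.2.1) * x.2.2.1) * x.2.2.2 - 1)

theorem poly_vars : Poly 1 (fun x : Var D n => x.1) ∧ (∀ l, Poly 1 fun x : Var D n => x.2.1 l) ∧
    Poly 1 (fun x : Var D n => x.2.2.1) ∧ Poly 1 fun x : Var D n => x.2.2.2 := by
  have h := (Poly.id (E := Var D n)).map (LinearMap.snd ℝ _ _)
  exact ⟨(Poly.id (E := Var D n)).map (LinearMap.fst ℝ _ _),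
    fun l => (h.map (LinearMap.fst ℝ _ _)).map (LinearMap.proj l),
    (h.map (LinearMap.snd ℝ _ _)).map (LinearMap.fst ℝ _ _),
    (h.map (LinearMap.snd ℝ _ _)).map (LinearMap.snd ℝ _ _)⟩

/-- The map `A ↦ ad (A e_a)`. -/
noncomputable def colL (L : LData D) (a : Fin D) : Mat D →ₗ[ℝ] Mat D :=
  L.advL ∘ₗ LinearMap.flip (Matrix.mulVecBilin ℝ ℝ) (Pi.single a 1)

theorem poly_eqs (L : LData D) (H : Fin (n + 1) → Mat D) : Poly (n + 6) (eqs L H) := by
  obtain ⟨h1, h2, h3, h4⟩ := poly_vars (D := D) (n := n)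
  have h5 : Poly 2 fun x : Var D n => pt H x.2.1 :=
    Poly.sum _ fun l => ((h2 l).mul (h2 l)).smul (Poly.const 0 _)
  refine (Poly.pi fun l => ?_).prod ((Poly.pi fun a => ?_).prod (Poly.prod ?_
    ((Poly.pi fun a => ?_).prod ?_)))
  · exact (((h2 l).mul (h2 l)).mono (by omega)).sub
      (((poly_bary h1).map (LinearMap.proj l)).mono (by omega))
  · exact ((h3.mul (Poly.const 1 _)).sub ((h3.map (colL L a)).mul h3)).mono (by omega)
  · exact ((h3.map (trL D)).sub h3).mono (by omega)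
  · exact (((Poly.const 0 _).mul ((h3.mul h5).mul h3)).map
      (Matrix.traceLinearMap (Fin D) ℝ ℝ)).mono (by omega)
  · exact (((h4.mul ((h3.mul (h5.map (symL D))).mul h3)).mul h4).sub (Poly.const _ _)).mono
      (by omega)

theorem eqs_nondeg (C : Corr r ν ρ) {H : Fin (n + 1) → Mat D} {s : Fin n → ℝ}
    {σ : Fin (n + 1) → ℝ} (hσ : ∀ l, 0 < σ l) (hh : pt H σ ∈ Pos D) {v : Var D n} (hv : v.1 = 0)
    (h : fderiv ℝ (eqs L H) (s, σ, r.q (pt H σ), ν (pt H σ)) v = 0) : v = 0 := by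
  obtain ⟨ds, dσ, A, B⟩ := v
  subst hv
  have h0 : HasDerivAt (fun τ : ℝ => eqs L H ((s, σ, r.q (pt H σ), ν (pt H σ)) +
      τ • (0, dσ, A, B))) 0 0 := by
    have := (((poly_eqs L H).contDiff.differentiable infty_ne_zero
      (s, σ, r.q (pt H σ), ν (pt H σ))).hasFDerivAt.hasLineDerivAt (0, dσ, A, B))
    exact HasDerivAt.congr_deriv this h
  have key : ∀ {W : Type} [NormedAddCommGroup W] [NormedSpace ℝ W] (T : Val D n →ₗ[ℝ] W),
      HasDerivAt (fun τ : ℝ => T (eqs L H ((s, σ, r.q (pt H σ), ν (pt H σ)) +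
        τ • (0, dσ, A, B)))) 0 0 := fun T =>
    (T.toContinuousLinearMap.hasFDerivAt.comp_hasDerivAt 0 h0).congr_deriv (map_zero _)
  have ln : ∀ {W : Type} [NormedAddCommGroup W] [NormedSpace ℝ W] (x y : W),
      HasDerivAt (fun τ : ℝ => x + τ • y) y 0 := fun x y => by
    simpa using ((hasDerivAt_id (0 : ℝ)).smul_const y).const_add x
  have a1 : dσ = 0 := by
    funext l
    have b1 := key (LinearMap.proj l ∘ₗ LinearMap.fst ℝ _ _)
    simp only [eqs, LinearMap.comp_apply, LinearMap.fst_apply, LinearMap.proj_apply, Prod.fst_add,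
      Prod.snd_add, Prod.smul_fst, Prod.smul_snd, smul_zero, add_zero] at b1
    have b2 := (((ln (σ l) (dσ l)).mul (ln (σ l) (dσ l))).sub_const (bary n s l)).unique b1
    simp only [zero_smul, add_zero] at b2
    have := hσ l
    rw [Pi.zero_apply]
    nlinarith
  subst a1
  simp only [eqs, Prod.fst_add, Prod.snd_add, Prod.smul_fst, Prod.smul_snd, smul_zero,
    add_zero] at key
  have hq := ln (r.q (pt H σ)) A
  have a2 : A = 0 := by
    refine L.gr_rigid (LData.aut_of_gam (r.mem _ hh)) (r.pos _ hh) (r.symm _ hh) hh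
      (r.moment _ hh) (fun a => ?_) ?_ fun a => ?_
    · have b2 := ((hq.mul_const (L.ad a)).sub (((colL L a).toContinuousLinearMap.hasFDerivAt
        |>.comp_hasDerivAt 0 hq).mul hq)).unique
        (key (LinearMap.proj a ∘ₗ LinearMap.fst ℝ _ _ ∘ₗ LinearMap.snd ℝ _ _))
      simp only [comp, zero_smul, add_zero] at b2
      exact sub_eq_zero.1 b2
    · exact sub_eq_zero.1 ((((trL D).toContinuousLinearMap.hasFDerivAt.comp_hasDerivAt 0
        hq).sub hq).unique
        (key (LinearMap.fst ℝ _ _ ∘ₗ LinearMap.snd ℝ _ _ ∘ₗ LinearMap.snd ℝ _ _)))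
    · have b2 := ((Matrix.traceLinearMap (Fin D) ℝ ℝ).toContinuousLinearMap.hasFDerivAt
        |>.comp_hasDerivAt 0 (((hq.mul_const (pt H σ)).mul hq).const_mul (L.Y a))).unique
        (key (LinearMap.proj a ∘ₗ LinearMap.fst ℝ _ _ ∘ₗ LinearMap.snd ℝ _ _ ∘ₗ
          LinearMap.snd ℝ _ _ ∘ₗ LinearMap.snd ℝ _ _))
      simp only [zero_smul, add_zero] at b2
      exact b2
  subst a2
  simp only [smul_zero, add_zero, ← C.sq _ hh] at key
  have hn := ln (ν (pt H σ)) B
  have b2 := (((hn.mul_const (ρ (pt H σ) * ρ (pt H σ))).mul hn).sub_const 1).unique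
    (key (LinearMap.snd ℝ _ _ ∘ₗ LinearMap.snd ℝ _ _ ∘ₗ LinearMap.snd ℝ _ _ ∘ₗ LinearMap.snd ℝ _ _))
  simp only [zero_smul, add_zero] at b2
  rw [mul_assoc, mul_assoc (ρ _), C.inv _ hh, mul_one, ← mul_assoc (ν _),
    mul_eq_one_comm.1 (C.inv _ hh), one_mul, add_comm] at b2
  rw [sylv (C.pos _ hh) (C.pos _ hh) b2]
  rfl

end Pool.Agent.Lib.MP_cdc9ab_al.Gro
end
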